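import Mathlib
import Pool.Agent.Helper49.Cons.Bind
import Pool.Agent.Helper22.Enum
import Pool.Agent.Helper6.WB.Arith

set_option autoImplicit false

/-!
# A calculus of polynomial time oracle procedures

`UP f`: the operator `f : Oracle → α → β` is computed by a polynomial time oracle procedure.
-/

namespace Pool.Agent.G4

open Turing Function N487b59b3 N68a2faeb Pool.Agent.Helper22 Pool.Agent.Helper49.Cons
open Pool.Agent.Helper6.WB

section

variable {α β γ δ : Type} [N487b59b3 α] [N487b59b3 β] [N487b59b3 γ] [N487b59b3 δ]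

/-- computed by a polynomial time oracle procedure -/
def UP (f : Oracle → α → β) : Prop := ∃ M : OracleProc α β, ∀ X x, M.run X x = f X x

theorem UP.congr {f g : Oracle → α → β} (hf : UP f) (h : ∀ X x, g X x = f X x) : UP g := by
  obtain ⟨M, hM⟩ := hf
  exact ⟨M, fun X x => (hM X x).trans (h X x).symm⟩

theorem UP.of_FP {f : α → β} (hf : FP f) : UP fun _ x => f x :=
  ⟨OracleProc.ofFP f hf, fun X x => ofFP_run f hf X x⟩

theorem UP.id : UP fun _ (x : α) => x := UP.of_FP FP.id

theorem UP.const (b : β) : UP fun _ (_ : α) => b := UP.of_FP (FP.const b)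

theorem UP.fst : UP fun _ (p : α × β) => p.1 := UP.of_FP FP.fst

theorem UP.snd : UP fun _ (p : α × β) => p.2 := UP.of_FP FP.snd

theorem UP.comp {g : Oracle → β → γ} {f : Oracle → α → β} (hg : UP g) (hf : UP f) :
    UP fun X x => g X (f X x) := by
  obtain ⟨N, hN⟩ := hg
  obtain ⟨M, hM⟩ := hf
  obtain ⟨K, hK⟩ := exists_comp M N
  exact ⟨K, fun X x => by rw [hK, hN, hM]⟩

/-- apply a polynomial time function to the result -/
theorem UP.fp {g : β → γ} {f : Oracle → α → β} (hg : FP g) (hf : UP f) :
    UP fun X x => g (f X x) := (UP.of_FP hg).comp hf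

/-- apply a polynomial time function to the input -/
theorem UP.pre {g : Oracle → β → γ} {f : α → β} (hg : UP g) (hf : FP f) :
    UP fun X x => g X (f x) := hg.comp (UP.of_FP hf)

theorem UP.pair {f : Oracle → α → β} {g : Oracle → α → γ} (hf : UP f) (hg : UP g) :
    UP fun X x => (f X x, g X x) := by
  obtain ⟨M, hM⟩ := hf
  obtain ⟨N, hN⟩ := hg
  obtain ⟨N', hN'⟩ := exists_post
    (Pool.Agent.Helper49.Cons.pre N (fun s : α × β => s.1) FP.fst)
    (fun s : (α × β) × γ => (s.1.2, s.2)) (by fun_prop)
  obtain ⟨K, hK⟩ := exists_bind M N'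
  exact ⟨K, fun X x => by rw [hK, hN', pre_run, hM, hN]⟩

theorem UP.fst' {f : Oracle → α → β × γ} (hf : UP f) : UP fun X x => (f X x).1 :=
  hf.fp FP.fst

theorem UP.snd' {f : Oracle → α → β × γ} (hf : UP f) : UP fun X x => (f X x).2 :=
  hf.fp FP.snd

/-- apply a polynomial time function of two arguments -/
theorem UP.fp2 {h : β → γ → δ} {f : Oracle → α → β} {g : Oracle → α → γ}
    (hh : FP fun p : β × γ => h p.1 p.2) (hf : UP f) (hg : UP g) :
    UP fun X x => h (f X x) (g X x) := (hf.pair hg).fp hh

/-- apply an operator of two arguments -/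
theorem UP.comp2 {h : Oracle → β → γ → δ} {f : Oracle → α → β} {g : Oracle → α → γ}
    (hh : UP fun X (p : β × γ) => h X p.1 p.2) (hf : UP f) (hg : UP g) :
    UP fun X x => h X (f X x) (g X x) := hh.comp (hf.pair hg)

theorem UP.ite {c : Oracle → α → Bool} {f g : Oracle → α → β} (hc : UP c) (hf : UP f)
    (hg : UP g) : UP fun X x => if c X x then f X x else g X x :=
  (hc.pair (hf.pair hg)).fp (g := fun s : Bool × (β × β) => if s.1 then s.2.1 else s.2.2)
    (by fun_prop)

theorem UP.not {c : Oracle → α → Bool} (hc : UP c) : UP fun X x => !(c X x) :=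
  hc.fp (g := fun b => !b) (by fun_prop)

theorem UP.and {c d : Oracle → α → Bool} (hc : UP c) (hd : UP d) : UP fun X x => c X x && d X x :=
  UP.fp2 (h := fun a b => a && b) (by fun_prop) hc hd

theorem UP.or {c d : Oracle → α → Bool} (hc : UP c) (hd : UP d) : UP fun X x => c X x || d X x :=
  UP.fp2 (h := fun a b => a || b) (by fun_prop) hc hd

/-- one query -/
theorem UP.ask : UP fun X (q : List Bool) => X q := by
  refine ⟨{ clock := fun _ => [true]
            query := fun s => s.1
            out := fun s => s.2.headD false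
            clock_poly := (isPolyTime_iff _).2 (by fun_prop)
            query_poly := (isPolyTime_iff _).2 (by fun_prop)
            out_poly := (isPolyTime_iff _).2 (by fun_prop) }, fun X x => ?_⟩
  rfl

theorem UP.ask' {f : Oracle → α → List Bool} (hf : UP f) : UP fun X x => X (f X x) :=
  UP.ask.comp hf

theorem UP.bound {f : Oracle → α → β} (hf : UP f) :
    ∃ B, PB B ∧ Monotone B ∧ ∀ X x, sz (f X x) ≤ B (sz x) := by
  obtain ⟨M, hM⟩ := hf
  obtain ⟨B0, hB0, hB0m, hB0le⟩ := ((isPolyTime_iff _).1 M.clock_poly).bound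
  obtain ⟨B1, hB1, hB1m, hB1le⟩ := ((isPolyTime_iff _).1 M.out_poly).bound
  refine ⟨fun n => B1 (2 * n + 1 + B0 n), by fun_prop, fun a b h => hB1m ?_, fun X x => ?_⟩
  · have := hB0m h
    omega
  · rw [← hM]
    refine (hB1le _).trans (hB1m ?_)
    have h0 := hB0le x
    rw [sz_bits] at h0
    rw [sz_pair, sz_bits, OracleProc.answers_length]
    omega

/-! ## Iteration -/

section iter

variable (M : OracleProc α α)

/-- keep the old state if the new one is too large -/
def grd (C : List Bool) (s s' : α) : α := if decide ((bitEncode s').length ≤ C.length) then s' else s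

/-- one answer -/
def stp (a : List Bool × (α × List Bool)) (b : Bool) : List Bool × (α × List Bool) :=
  if decide (a.1.length ≤ (b :: a.2.2).length) then
    (a.1, (grd a.1 a.2.1 (M.out (a.2.1, lastn (b :: a.2.2) (M.clock a.2.1).length)), []))
  else (a.1, (a.2.1, b :: a.2.2))

/-- the next query in a state -/
def qry (a : List Bool × (α × List Bool)) : List Bool :=
  if decide ((M.clock a.2.1).length ≤ a.2.2.length) then [] else M.query a.2

theorem FP_stp : FP fun p : (List Bool × (α × List Bool)) × Bool => stp M p.1 p.2 := by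
  have hc : FP M.clock := (isPolyTime_iff _).1 M.clock_poly
  have ho : FP M.out := (isPolyTime_iff _).1 M.out_poly
  have h1 : FP fun p : (List Bool × (α × List Bool)) × Bool => M.clock p.1.2.1 :=
    hc.comp (by fun_prop)
  have h2 : FP fun p : (List Bool × (α × List Bool)) × Bool =>
      lastn (p.2 :: p.1.2.2) (M.clock p.1.2.1).length :=
    FP.drop (by fun_prop) (FP.drop (by fun_prop) h1)
  have h3 : FP fun p : (List Bool × (α × List Bool)) × Bool =>
      M.out (p.1.2.1, lastn (p.2 :: p.1.2.2) (M.clock p.1.2.1).length) :=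
    ho.comp (FP.pair (by fun_prop) h2)
  have h4 : FP fun p : (List Bool × (α × List Bool)) × Bool =>
      bitEncode (M.out (p.1.2.1, lastn (p.2 :: p.1.2.2) (M.clock p.1.2.1).length)) :=
    FP_enc.comp h3
  unfold stp grd
  fun_prop

theorem FP_qry : FP (qry M) := by
  have hc : FP M.clock := (isPolyTime_iff _).1 M.clock_poly
  have hq : FP M.query := (isPolyTime_iff _).1 M.query_poly
  have h1 : FP fun a : List Bool × (α × List Bool) => M.clock a.2.1 := hc.comp (by fun_prop)
  have h2 : FP fun a : List Bool × (α × List Bool) => M.query a.2 := hq.comp (by fun_prop)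
  unfold qry
  fun_prop

theorem sz_eq (a : α) : sz a = (bitEncode a).length := rfl

theorem sz_stp (l : List Bool) (a : List Bool × (α × List Bool)) :
    (l.foldl (stp M) a).1 = a.1 ∧
    sz (l.foldl (stp M) a).2.1 ≤ sz a.2.1 + a.1.length ∧
    (l.foldl (stp M) a).2.2.length ≤ a.2.2.length + l.length := by
  have key : ∀ (l : List Bool) (a : List Bool × (α × List Bool)) (S : ℕ), sz a.2.1 ≤ S →
      a.1.length ≤ S → (l.foldl (stp M) a).1 = a.1 ∧ sz (l.foldl (stp M) a).2.1 ≤ S ∧
      (l.foldl (stp M) a).2.2.length ≤ a.2.2.length + l.length := by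
    intro l
    induction l with
    | nil => intro a S h1 h2; exact ⟨rfl, h1, by simp⟩
    | cons b l ih =>
      intro a S h1 h2
      rw [List.foldl_cons]
      have e1 : (stp M a b).1 = a.1 := by
        unfold stp; split <;> rfl
      have e2 : sz (stp M a b).2.1 ≤ S := by
        unfold stp grd
        split
        · dsimp only
          split
          · rename_i h
            rw [decide_eq_true_eq] at h
            rw [sz_eq]
            omega
          · exact h1
        · exact h1
      have e3 : (stp M a b).2.2.length ≤ a.2.2.length + 1 := by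
        unfold stp; split <;> simp
      obtain ⟨i1, i2, i3⟩ := ih (stp M a b) S e2 (by rw [e1]; exact h2)
      refine ⟨i1.trans e1, i2, i3.trans ?_⟩
      rw [List.length_cons]
      omega
  obtain ⟨i1, i2, i3⟩ := key l a (sz a.2.1 + a.1.length) (by omega) (by omega)
  exact ⟨i1, i2, i3⟩

theorem FP_replay : FP fun p : List Bool × (List Bool × (α × List Bool)) =>
    p.1.foldl (stp M) p.2 := by
  refine FP.foldl (g := stp M) (FP_stp M) (B := fun n => 3 * n) (by fun_prop) fun l a => ?_
  obtain ⟨h1, h2, h3⟩ := sz_stp M l a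
  obtain ⟨C, s, blk⟩ := a
  have e : sz (l.foldl (stp M) (C, (s, blk))) = 2 * (3 * (l.foldl (stp M) (C, (s, blk))).1.length) +
      1 + (2 * sz (l.foldl (stp M) (C, (s, blk))).2.1 + 1 +
        3 * (l.foldl (stp M) (C, (s, blk))).2.2.length) := by
    conv_lhs => rw [show l.foldl (stp M) (C, (s, blk)) = ((l.foldl (stp M) (C, (s, blk))).1,
      ((l.foldl (stp M) (C, (s, blk))).2.1, (l.foldl (stp M) (C, (s, blk))).2.2)) from rfl]
    rw [sz_pair, sz_pair, sz_bits, sz_bits]
  rw [e, h1]
  simp only [sz_pair, sz_bits] at h2 h3 ⊢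
  omega

/-- the state after the first `n` answers of the oracle -/
def stt (X : Oracle) (a : List Bool × (α × List Bool)) : ℕ → List Bool × (α × List Bool)
  | 0 => a
  | n + 1 => stp M (stt X a n) (X (qry M (stt X a n)))

theorem stt_add (X : Oracle) (a : List Bool × (α × List Bool)) (m n : ℕ) :
    stt M X a (m + n) = stt M X (stt M X a m) n := by
  induction n with
  | zero => rfl
  | succ n ih => rw [← Nat.add_assoc, stt, stt, ih]

/-- inside a block -/
theorem stt_block (X : Oracle) (C : List Bool) (s : α) (hm : (M.clock s).length ≤ C.length)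
    (j : ℕ) (hj : j < C.length) : ∃ blk, stt M X (C, (s, [])) j = (C, (s, blk)) ∧ blk.length = j ∧
      (j ≤ (M.clock s).length → blk = M.answers X s j) ∧
      ((M.clock s).length ≤ j → ∃ u, blk = u ++ M.answers X s (M.clock s).length) := by
  induction j with
  | zero =>
    refine ⟨[], rfl, rfl, fun _ => rfl, fun h => ⟨[], ?_⟩⟩
    rw [Nat.le_zero.1 h]
    rfl
  | succ j ih =>
    obtain ⟨blk, h1, h2, h3, h4⟩ := ih (by omega)
    set b := X (qry M (stt M X (C, (s, [])) j)) with hb
    refine ⟨b :: blk, ?_, by simp [h2], fun h => ?_, fun h => ?_⟩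
    · rw [stt, ← hb, h1, stp, if_neg]
      simp only [List.length_cons, h2, decide_eq_true_eq]
      omega
    · rw [hb, h1, qry, if_neg (by simp only [h2, decide_eq_true_eq]; omega), h3 (by omega)]
      rfl
    · rcases Nat.lt_or_ge j (M.clock s).length with h5 | h5
      · have h6 : (M.clock s).length = j + 1 := by omega
        refine ⟨[], ?_⟩
        rw [hb, h1, qry, if_neg (by simp only [h2, decide_eq_true_eq]; omega), h3 (by omega), h6]
        rfl
      · obtain ⟨u, hu⟩ := h4 h5
        exact ⟨b :: u, by rw [hu]; rfl⟩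

/-- a whole block -/
theorem stt_step (X : Oracle) (C : List Bool) (s : α) (hC : 1 ≤ C.length)
    (hm : (M.clock s).length ≤ C.length) (hs : (bitEncode (M.run X s)).length ≤ C.length) :
    stt M X (C, (s, [])) C.length = (C, (M.run X s, [])) := by
  obtain ⟨k, hk⟩ : ∃ k, C.length = k + 1 := ⟨C.length - 1, by omega⟩
  obtain ⟨blk, h1, h2, h3, h4⟩ := stt_block M X C s hm k (by omega)
  set b := X (qry M (stt M X (C, (s, [])) k)) with hb
  have h5 : lastn (b :: blk) (M.clock s).length = M.answers X s (M.clock s).length := by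
    have h6 : ∃ u, b :: blk = u ++ M.answers X s (M.clock s).length := by
      rcases Nat.lt_or_ge k (M.clock s).length with h5 | h5
      · have h6 : (M.clock s).length = k + 1 := by omega
        refine ⟨[], ?_⟩
        rw [hb, h1, qry, if_neg (by simp only [h2, decide_eq_true_eq]; omega), h3 (by omega), h6]
        rfl
      · obtain ⟨u, hu⟩ := h4 h5
        exact ⟨b :: u, by rw [hu]; rfl⟩
    obtain ⟨u, hu⟩ := h6
    have h7 := lastn_append u (M.answers X s (M.clock s).length)
    rw [OracleProc.answers_length] at h7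
    rw [hu, h7]
  have h6 : M.out (s, lastn (b :: blk) (M.clock s).length) = M.run X s := by
    rw [h5]
    rfl
  rw [hk, stt, ← hb, h1, stp, if_pos (by simp only [List.length_cons, h2, decide_eq_true_eq]; omega)]
  dsimp only
  rw [h6, grd, if_pos (by rw [decide_eq_true_eq]; exact hs)]

end iter

theorem UP.iterate {f : Oracle → α → α} (hf : UP f) {B : ℕ → ℕ} (hB : PB B)
    (hsz : ∀ (X : Oracle) (l : List β) (x : α), ∀ i ≤ l.length,
      sz ((f X)^[i] x) ≤ B (sz l + sz x)) :
    UP fun X (p : List β × α) => (f X)^[p.1.length] p.2 := by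
  obtain ⟨M, hM⟩ := hf
  obtain ⟨B', hB', hm, hle⟩ := hB.exists_mono
  obtain ⟨B0, hB0, hB0m, hB0le⟩ := ((isPolyTime_iff _).1 M.clock_poly).bound
  have hG : PB fun n => B0 (B' n) + B' n + 1 := by fun_prop
  obtain ⟨c, hc, hcle⟩ := exists_unary_bound (α := List β × α) hG
  -- the facts about the states
  have hst : ∀ (X : Oracle) (p : List β × α), ∀ i ≤ p.1.length,
      sz ((f X)^[i] p.2) ≤ B' (sz p) := by
    intro X p i hi
    refine (hsz X p.1 p.2 i hi).trans ((hle _).trans (hm ?_))
    obtain ⟨l, x⟩ := p
    show sz l + sz x ≤ sz (l, x)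
    rw [sz_pair]
    omega
  have hst1 : ∀ (X : Oracle) (p : List β × α), ∀ i ≤ p.1.length,
      (bitEncode ((f X)^[i] p.2)).length ≤ (c p).length := by
    intro X p i hi
    have h1 := hst X p i hi
    have h2 := hcle p
    rw [sz_eq] at h1
    omega
  have hst2 : ∀ (X : Oracle) (p : List β × α), ∀ i ≤ p.1.length,
      (M.clock ((f X)^[i] p.2)).length ≤ (c p).length := by
    intro X p i hi
    have h1 := hst X p i hi
    have h2 := hcle p
    have h3 := hB0le ((f X)^[i] p.2)
    have h4 := hB0m h1
    rw [sz_bits] at h3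
    omega
  have hc1 : ∀ p, 1 ≤ (c p).length := by
    intro p
    have h2 := hcle p
    omega
  -- the procedure
  let rp : (List β × α) × List Bool → List Bool × (α × List Bool) := fun s =>
    s.2.reverse.foldl (stp M) (c s.1, (s.1.2, []))
  have hrp : FP rp := by
    have h1 : FP fun s : (List β × α) × List Bool => c s.1 := hc.comp FP.fst
    have h2 : FP fun s : (List β × α) × List Bool => s.2.reverse := FP.reverse FP.snd
    exact (FP_replay M).comp (h2.pair (h1.pair (by fun_prop)))
  let K : OracleProc (List β × α) α :=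
    { clock := fun p => un ((un p.1.length).length * (c p).length)
      query := fun s => qry M (rp s)
      out := fun s => (rp s).2.1
      clock_poly := (isPolyTime_iff _).2 (FP.unMul (by fun_prop) hc)
      query_poly := (isPolyTime_iff _).2 ((FP_qry M).comp hrp)
      out_poly := (isPolyTime_iff _).2 hrp.snd'.fst' }
  have hans : ∀ X p n, (K.answers X p n).reverse.foldl (stp M) (c p, (p.2, [])) =
      stt M X (c p, (p.2, [])) n := by
    intro X p n
    induction n with
    | zero => rfl
    | succ n ih =>
      rw [OracleProc.answers, List.reverse_cons, List.foldl_append, ih, stt]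
      show stp M _ (X (qry M (rp (p, K.answers X p n)))) = _
      rw [show rp (p, K.answers X p n) = stt M X (c p, (p.2, [])) n from ih]
  have hit : ∀ X p, ∀ i ≤ List.length p.1,
      stt M X (c p, (p.2, [])) (i * (c p).length) = (c p, ((f X)^[i] p.2, [])) := by
    intro X p i
    induction i with
    | zero => intro _; rw [Nat.zero_mul]; rfl
    | succ i ih =>
      intro hi
      have h2 := hst1 X p (i + 1) hi
      rw [Function.iterate_succ_apply', ← hM] at h2
      rw [Nat.succ_mul, stt_add, ih (by omega), stt_step M X _ _ (hc1 p) (hst2 X p i (by omega)) h2,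
        Function.iterate_succ_apply', hM]
  refine ⟨K, fun X p => ?_⟩
  have h1 : (K.clock p).length = p.1.length * (c p).length := by
    show (un ((un p.1.length).length * (c p).length)).length = _
    rw [un_length, un_length]
  show (rp (p, K.answers X p (K.clock p).length)).2.1 = _
  have h2 : rp (p, K.answers X p (K.clock p).length) = _ := hans X p (K.clock p).length
  rw [h2, h1, hit X p _ le_rfl]

end

end Pool.Agent.G4
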