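import Mathlib
import Pool.Agent.G4.UP

set_option autoImplicit false

/-!
# Polynomial time oracle procedures: folds, maps, searches over lists
-/

namespace Pool.Agent.G4

open Turing Function N487b59b3 N68a2faeb Pool.Agent.Helper22 Pool.Agent.Helper49.Cons
open Pool.Agent.Helper6.WB

section

variable {α β γ δ : Type} [N487b59b3 α] [N487b59b3 β] [N487b59b3 γ] [N487b59b3 δ]

/-! ## Folds -/

omit [N487b59b3 α] [N487b59b3 β] in
theorem iterate_fold (g : α → β → α) (d : β) (l : List β) (a : α) (i : ℕ) :
    (fun p : List β × α => if p.1.isEmpty then p else (p.1.tail, g p.2 (p.1.headD d)))^[i] (l, a) =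
      (l.drop i, (l.take i).foldl g a) := by
  induction i generalizing l a with
  | zero => simp
  | succ i ih =>
    rw [Function.iterate_succ_apply]
    cases l with
    | nil => simpa using ih [] a
    | cons b l => simpa using ih l (g a b)

theorem UP.foldl [Inhabited β] {g : Oracle → α → β → α}
    (hg : UP fun X (p : α × β) => g X p.1 p.2) {B : ℕ → ℕ} (hB : PB B)
    (hsz : ∀ (X : Oracle) (l : List β) (a : α), sz (l.foldl (g X) a) ≤ B (sz l + sz a)) :
    UP fun X (p : List β × α) => p.1.foldl (g X) p.2 := by
  obtain ⟨B', hB', hm, hle⟩ := hB.exists_mono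
  have hf : UP fun X (p : List β × α) =>
      if p.1.isEmpty then p else (p.1.tail, g X p.2 (p.1.headD default)) := by
    refine UP.ite (UP.of_FP (by fun_prop)) UP.id (UP.pair (UP.of_FP (by fun_prop)) ?_)
    exact UP.comp2 hg (UP.of_FP (by fun_prop)) (UP.of_FP (FP.headD (by fun_prop) _))
  have h := UP.iterate (β := β) hf (B := fun n => 2 * n + 1 + B' (2 * n)) (by fun_prop) (by
    intro X l' x i _
    obtain ⟨l, a⟩ := x
    rw [iterate_fold, sz_pair]
    have h1 := sz_drop l i
    have h2 := sz_take l i
    have h3 := hsz X (l.take i) a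
    have h4 : B (sz (l.take i) + sz a) ≤ B' (2 * (sz l' + sz (l, a))) := by
      refine (hle _).trans (hm ?_)
      rw [sz_pair]
      omega
    have h5 : sz l ≤ sz l' + sz (l, a) := by rw [sz_pair]; omega
    have h6 : 2 * sz l ≤ sz (l, a) := by rw [sz_pair]; omega
    generalize sz (l, a) = N at *
    omega)
  have h2 : UP fun X (p : List β × α) =>
      ((fun p : List β × α => if p.1.isEmpty then p else (p.1.tail, g X p.2 (p.1.headD default)))^[
        p.1.length] p).2 :=
    (h.pre (f := fun p : List β × α => (p.1, p)) (by fun_prop)).snd'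
  refine h2.congr fun X p => ?_
  obtain ⟨l, a⟩ := p
  dsimp only
  rw [iterate_fold, List.take_length]

omit [N487b59b3 α] [N487b59b3 β] [N487b59b3 γ] in
theorem foldl_ctx_eq (g : γ → α → β → α) (l : List β) (c : γ) (a : α) :
    l.foldl (fun (s : γ × α) (b : β) => (s.1, g s.1 s.2 b)) (c, a) = (c, l.foldl (g c) a) := by
  induction l generalizing a with
  | nil => rfl
  | cons b l ih => simp [ih]

/-- fold with a context -/
theorem UP.foldl_ctx [Inhabited β] {g : Oracle → γ → α → β → α}
    (hg : UP fun X (p : γ × (α × β)) => g X p.1 p.2.1 p.2.2) {B : ℕ → ℕ} (hB : PB B)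
    (hsz : ∀ (X : Oracle) (c : γ) (l : List β) (a : α),
      sz (l.foldl (g X c) a) ≤ B (sz c + (sz l + sz a)))
    {c : Oracle → δ → γ} {l : Oracle → δ → List β} {a : Oracle → δ → α}
    (hc : UP c) (hl : UP l) (ha : UP a) :
    UP fun X x => (l X x).foldl (g X (c X x)) (a X x) := by
  obtain ⟨B', hB', hm, hle⟩ := hB.exists_mono
  have h1 : UP fun X (p : (γ × α) × β) => (p.1.1, g X p.1.1 p.1.2 p.2) :=
    UP.pair (UP.of_FP (by fun_prop)) (hg.pre (f := fun p : (γ × α) × β => (p.1.1, (p.1.2, p.2)))
      (by fun_prop))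
  have h2 := UP.foldl (g := fun X (s : γ × α) (b : β) => (s.1, g X s.1 s.2 b)) h1
    (B := fun n => 2 * n + 1 + B' n) (by fun_prop) (by
      rintro X l ⟨c, a⟩
      rw [foldl_ctx_eq, sz_pair]
      have h3 := hsz X c l a
      have h4 : B (sz c + (sz l + sz a)) ≤ B' (sz l + sz (c, a)) := by
        refine (hle _).trans (hm ?_)
        rw [sz_pair]
        omega
      have h5 : 2 * sz c + 1 ≤ sz (c, a) := by rw [sz_pair]; omega
      generalize sz (c, a) = N at *
      omega)
  have h3 := (h2.comp (hl.pair (hc.pair ha))).snd'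
  refine h3.congr fun X x => ?_
  dsimp only
  rw [foldl_ctx_eq]

/-! ## Maps -/

omit [N487b59b3 β] [N487b59b3 γ] [N487b59b3 δ] in
theorem foldl_flatMap (h : β → List δ) (l : List β) (acc : List δ) :
    l.foldl (fun (s : List δ) (b : β) => s ++ h b) acc = acc ++ l.flatMap h := by
  induction l generalizing acc with
  | nil => simp
  | cons b l ih => simp [ih]

omit [N487b59b3 β] [N487b59b3 γ] in
theorem sz_flatMap_le' (f : β → List δ) (l : List β) (C : ℕ) (h : ∀ b ∈ l, sz (f b) ≤ C) :
    sz (l.flatMap f) ≤ l.length * C := by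
  induction l with
  | nil => simp
  | cons a l ih =>
    have h1 := h a (by simp)
    have h2 := ih fun b hb => h b (by simp [hb])
    simp only [List.flatMap_cons, sz_append, List.length_cons]
    have h3 : (l.length + 1) * C = l.length * C + C := by ring
    omega

theorem UP.flatMap_ctx [Inhabited β] {h : Oracle → γ → β → List δ}
    (hh : UP fun X (p : γ × β) => h X p.1 p.2) {c : Oracle → α → γ} {l : Oracle → α → List β}
    (hc : UP c) (hl : UP l) : UP fun X x => (l X x).flatMap fun b => h X (c X x) b := by
  obtain ⟨B, hB, hBm, hBle⟩ := hh.bound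
  have h1 : UP fun X (p : γ × (List δ × β)) => p.2.1 ++ h X p.1 p.2.2 :=
    UP.fp2 (h := fun u v : List δ => u ++ v) (by fun_prop) (UP.of_FP (by fun_prop))
      (hh.pre (f := fun p : γ × (List δ × β) => (p.1, p.2.2)) (by fun_prop))
  have h2 := UP.foldl_ctx (g := fun X (c : γ) (s : List δ) (b : β) => s ++ h X c b) h1
    (B := fun n => n + n * B (2 * n + 1)) (by fun_prop) (by
      intro X c l a
      rw [foldl_flatMap, sz_append]
      have h4 := sz_flatMap_le' (fun b => h X c b) l (B (2 * (sz c + (sz l + sz a)) + 1)) (by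
        intro b hb
        refine (hBle X (c, b)).trans (hBm ?_)
        have := sz_mem_le hb
        simp only [sz_pair]; omega)
      have h5 : l.length ≤ sz c + (sz l + sz a) := by
        have := length_le_sz l
        omega
      have h6 := Nat.mul_le_mul_right (B (2 * (sz c + (sz l + sz a)) + 1)) h5
      have h7 : sz c + (sz l + sz a) + (sz c + (sz l + sz a)) *
        B (2 * (sz c + (sz l + sz a)) + 1) ≥ sz a + sz (List.flatMap (fun b => h X c b) l) := by
        generalize (sz c + (sz l + sz a)) * B (2 * (sz c + (sz l + sz a)) + 1) = U at *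
        omega
      exact h7) hc hl (UP.const ([] : List δ))
  refine h2.congr fun X x => ?_
  rw [foldl_flatMap, List.nil_append]

theorem UP.map_ctx [Inhabited β] {h : Oracle → γ → β → δ}
    (hh : UP fun X (p : γ × β) => h X p.1 p.2) {c : Oracle → α → γ} {l : Oracle → α → List β}
    (hc : UP c) (hl : UP l) : UP fun X x => (l X x).map fun b => h X (c X x) b := by
  have h1 := UP.flatMap_ctx (h := fun X (c : γ) (b : β) => [h X c b])
    (hh.fp (g := fun d => [d]) (by fun_prop)) hc hl
  refine h1.congr fun X x => ?_
  rw [List.map_eq_flatMap]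

theorem UP.map [Inhabited β] {h : Oracle → β → δ} (hh : UP h) {l : Oracle → α → List β}
    (hl : UP l) : UP fun X x => (l X x).map (h X) :=
  UP.map_ctx (h := fun X (_ : Bool) b => h X b) (hh.pre (f := fun p : Bool × β => p.2) (by fun_prop))
    (UP.const true) hl

theorem UP.filter_ctx [Inhabited β] {P : Oracle → γ → β → Bool}
    (hP : UP fun X (p : γ × β) => P X p.1 p.2) {c : Oracle → α → γ} {l : Oracle → α → List β}
    (hc : UP c) (hl : UP l) : UP fun X x => (l X x).filter fun b => P X (c X x) b := by
  have h1 := UP.flatMap_ctx (h := fun X (c : γ) (b : β) => if P X c b then [b] else [])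
    (UP.ite hP (UP.of_FP (f := fun p : γ × β => [p.2]) (by fun_prop)) (UP.const [])) hc hl
  refine h1.congr fun X x => ?_
  induction l X x with
  | nil => rfl
  | cons b l ih =>
    rw [List.flatMap_cons, List.filter_cons, ← ih]
    by_cases h : P X (c X x) b = true <;> simp [h]

theorem UP.any_ctx [Inhabited β] {P : Oracle → γ → β → Bool}
    (hP : UP fun X (p : γ × β) => P X p.1 p.2) {c : Oracle → α → γ} {l : Oracle → α → List β}
    (hc : UP c) (hl : UP l) : UP fun X x => (l X x).any fun b => P X (c X x) b := by
  have h1 := (UP.filter_ctx hP hc hl).fp (g := fun l : List β => !l.isEmpty) (by fun_prop)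
  refine h1.congr fun X x => ?_
  induction l X x with
  | nil => rfl
  | cons b l ih =>
    rw [List.any_cons, List.filter_cons, ih]
    by_cases h : P X (c X x) b = true <;> simp [h]

theorem UP.all_ctx [Inhabited β] {P : Oracle → γ → β → Bool}
    (hP : UP fun X (p : γ × β) => P X p.1 p.2) {c : Oracle → α → γ} {l : Oracle → α → List β}
    (hc : UP c) (hl : UP l) : UP fun X x => (l X x).all fun b => P X (c X x) b := by
  have h1 := (UP.any_ctx (P := fun X c b => !(P X c b)) (UP.not hP) hc hl).not
  refine h1.congr fun X x => ?_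
  induction l X x with
  | nil => rfl
  | cons b l ih =>
    rw [List.all_cons, List.any_cons, ih]
    by_cases h : P X (c X x) b = true <;> simp [h]

/-- the first element with a property, or the default `d` -/
def fnd {β : Type} (P : β → Bool) (d : β) (l : List β) : β := (l.filter P).headD d

theorem fnd_mem {β : Type} {P : β → Bool} {d : β} {l : List β} (h : ∃ b ∈ l, P b = true) :
    fnd P d l ∈ l ∧ P (fnd P d l) = true := by
  have h1 : l.filter P ≠ [] := by
    obtain ⟨b, h1, h2⟩ := h
    intro h3
    have h4 : b ∈ l.filter P := List.mem_filter.2 ⟨h1, h2⟩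
    rw [h3] at h4
    exact absurd h4 List.not_mem_nil
  obtain ⟨b, l', h2⟩ := List.exists_cons_of_ne_nil h1
  have h3 : fnd P d l = b := by rw [fnd, h2]; rfl
  have h4 : b ∈ l.filter P := by rw [h2]; simp
  rw [h3]
  exact List.mem_filter.1 h4

theorem fnd_eq {β : Type} {P : β → Bool} {d : β} {l : List β} (h : ∀ b ∈ l, P b = false) :
    fnd P d l = d := by
  rw [fnd, List.filter_eq_nil_iff.2 (fun b hb => by rw [h b hb]; simp)]
  rfl

theorem fnd_find {β : Type} (P : β → Bool) (d : β) (l : List β) :
    fnd P d l = (l.find? P).getD d := by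
  rw [fnd, List.headD_eq_head?_getD, List.head?_filter]

theorem UP.fnd_ctx [Inhabited β] {P : Oracle → γ → β → Bool}
    (hP : UP fun X (p : γ × β) => P X p.1 p.2) {c : Oracle → α → γ} {l : Oracle → α → List β}
    (hc : UP c) (hl : UP l) (d : β) : UP fun X x => fnd (fun b => P X (c X x) b) d (l X x) :=
  (UP.filter_ctx hP hc hl).fp (g := fun l : List β => l.headD d) (FP.headD (by fun_prop) _)

/-! ## The same without oracle -/

theorem UP.toFP {f : α → β} (hf : UP fun _ x => f x) : FP f := by
  obtain ⟨M, hM⟩ := hf
  have h1 := FP.runOracle M (γ := Bool) (orc := fun _ => false) (FP.const _)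
  have h2 := h1.comp (f := fun x : α => (true, x)) (by fun_prop)
  refine (congrArg FP (funext fun x => ?_)).mp h2
  exact hM _ _

theorem FP.foldl_ctx' [Inhabited β] {g : γ → α → β → α}
    (hg : FP fun p : γ × (α × β) => g p.1 p.2.1 p.2.2) {B : ℕ → ℕ} (hB : PB B)
    (hsz : ∀ (c : γ) (l : List β) (a : α), sz (l.foldl (g c) a) ≤ B (sz c + (sz l + sz a)))
    {c : δ → γ} {l : δ → List β} {a : δ → α} (hc : FP c) (hl : FP l) (ha : FP a) :
    FP fun x => (l x).foldl (g (c x)) (a x) :=
  UP.toFP (UP.foldl_ctx (g := fun _ => g) (UP.of_FP hg) hB (fun _ => hsz) (UP.of_FP hc)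
    (UP.of_FP hl) (UP.of_FP ha))

theorem FP.flatMap_ctx' [Inhabited β] {h : γ → β → List δ} (hh : FP fun p : γ × β => h p.1 p.2)
    {c : α → γ} {l : α → List β} (hc : FP c) (hl : FP l) :
    FP fun x => (l x).flatMap fun b => h (c x) b :=
  UP.toFP (UP.flatMap_ctx (h := fun _ => h) (UP.of_FP hh) (UP.of_FP hc) (UP.of_FP hl))

theorem FP.map_ctx' [Inhabited β] {h : γ → β → δ} (hh : FP fun p : γ × β => h p.1 p.2)
    {c : α → γ} {l : α → List β} (hc : FP c) (hl : FP l) :
    FP fun x => (l x).map fun b => h (c x) b :=
  UP.toFP (UP.map_ctx (h := fun _ => h) (UP.of_FP hh) (UP.of_FP hc) (UP.of_FP hl))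

theorem FP.filter_ctx' [Inhabited β] {P : γ → β → Bool} (hP : FP fun p : γ × β => P p.1 p.2)
    {c : α → γ} {l : α → List β} (hc : FP c) (hl : FP l) :
    FP fun x => (l x).filter fun b => P (c x) b :=
  UP.toFP (UP.filter_ctx (P := fun _ => P) (UP.of_FP hP) (UP.of_FP hc) (UP.of_FP hl))

theorem FP.any_ctx' [Inhabited β] {P : γ → β → Bool} (hP : FP fun p : γ × β => P p.1 p.2)
    {c : α → γ} {l : α → List β} (hc : FP c) (hl : FP l) :
    FP fun x => (l x).any fun b => P (c x) b :=
  UP.toFP (UP.any_ctx (P := fun _ => P) (UP.of_FP hP) (UP.of_FP hc) (UP.of_FP hl))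

theorem FP.all_ctx' [Inhabited β] {P : γ → β → Bool} (hP : FP fun p : γ × β => P p.1 p.2)
    {c : α → γ} {l : α → List β} (hc : FP c) (hl : FP l) :
    FP fun x => (l x).all fun b => P (c x) b :=
  UP.toFP (UP.all_ctx (P := fun _ => P) (UP.of_FP hP) (UP.of_FP hc) (UP.of_FP hl))

theorem FP.fnd_ctx' [Inhabited β] {P : γ → β → Bool} (hP : FP fun p : γ × β => P p.1 p.2)
    {c : α → γ} {l : α → List β} (hc : FP c) (hl : FP l) (d : β) :
    FP fun x => fnd (fun b => P (c x) b) d (l x) :=
  UP.toFP (UP.fnd_ctx (P := fun _ => P) (UP.of_FP hP) (UP.of_FP hc) (UP.of_FP hl) d)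

/-! ## Lists of natural numbers -/

theorem FP.beqNat {f g : α → ℕ} (hf : FP f) (hg : FP g) : FP fun a => f a == g a := by
  refine (congrArg FP (funext fun a => ?_)).mp (FP.natEq hf hg)
  exact (beq_eq_decide (f a) (g a)).symm

theorem FP.containsNat {l : α → List ℕ} {f : α → ℕ} (hl : FP l) (hf : FP f) :
    FP fun a => (l a).contains (f a) := by
  refine (congrArg FP (funext fun a => ?_)).mp
    (FP.any_ctx' (P := fun (c : ℕ) (b : ℕ) => c == b) (FP.beqNat FP.fst FP.snd) hf hl)
  rw [List.contains_eq_any_beq]

theorem FP.memNat {l : α → List ℕ} {f : α → ℕ} (hl : FP l) (hf : FP f) :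
    FP fun a => decide (f a ∈ l a) := by
  refine (congrArg FP (funext fun a => ?_)).mp (FP.containsNat hl hf)
  rw [List.contains_eq_mem]

/-- remove all occurrences -/
theorem FP.removeNat {l : α → List ℕ} {f : α → ℕ} (hl : FP l) (hf : FP f) :
    FP fun a => (l a).filter fun b => !(f a == b) :=
  FP.filter_ctx' (P := fun (c : ℕ) (b : ℕ) => !(c == b)) (by
    have := FP.beqNat (FP.fst (α := ℕ) (β := ℕ)) FP.snd
    fun_prop) hf hl

/-- the elements of the first list that are not in the second -/
theorem FP.diffNat {l l' : α → List ℕ} (hl : FP l) (hl' : FP l') :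
    FP fun a => (l a).filter fun b => !((l' a).contains b) :=
  FP.filter_ctx' (P := fun (c : List ℕ) (b : ℕ) => !(c.contains b)) (by
    have := FP.containsNat (FP.fst (α := List ℕ) (β := ℕ)) FP.snd
    fun_prop) hl' hl

/-- the elements of the first list that are in the second -/
theorem FP.interNat {l l' : α → List ℕ} (hl : FP l) (hl' : FP l') :
    FP fun a => (l a).filter fun b => (l' a).contains b :=
  FP.filter_ctx' (P := fun (c : List ℕ) (b : ℕ) => c.contains b)
    (FP.containsNat (FP.fst (α := List ℕ) (β := ℕ)) FP.snd) hl' hl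

theorem sz_nat_le (n : ℕ) : sz n ≤ n := by
  rw [sz_nat, Nat.size_le]
  exact Nat.lt_two_pow_self

theorem size_add_le (n m : ℕ) : (n + m).size ≤ n.size + m := by
  rw [Nat.size_le, pow_add]
  have h6 := Nat.lt_size_self n
  have h7 : m < 2 ^ m := Nat.lt_two_pow_self
  have h8 : (n + 1) * (m + 1) ≤ 2 ^ n.size * 2 ^ m := Nat.mul_le_mul h6 h7
  nlinarith

omit [N487b59b3 β] in
theorem foldl_succ (l : List β) (n : ℕ) : l.foldl (fun (s : ℕ) (_ : β) => s + 1) n =
    n + l.length := by
  induction l generalizing n with
  | nil => rfl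
  | cons b l ih => rw [List.foldl_cons, ih, List.length_cons]; omega

theorem FP.lengthNat {l : α → List β} [Inhabited β] (hl : FP l) : FP fun a => (l a).length := by
  have h1 := FP.foldl (g := fun (s : ℕ) (_ : β) => s + 1)
    (FP.natAdd (by fun_prop) (FP.const 1)) (B := fun n => n) (by fun_prop) (by
      intro l a
      rw [foldl_succ, sz_nat, sz_nat]
      have h1 := size_add_le a l.length
      have h2 := length_le_sz l
      omega)
  refine (congrArg FP (funext fun a => ?_)).mp (h1.comp (hl.pair (FP.const 0)))
  dsimp only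
  rw [foldl_succ, Nat.zero_add]

/-- the index is below the length -/
theorem FP.ltLength {l : α → List β} [Inhabited β] (hl : FP l) {f : α → ℕ} (hf : FP f) :
    FP fun a => decide (f a < (l a).length) := by
  refine (congrArg FP (funext fun a => ?_)).mp (FP.memNat (FP.range hl) hf)
  simp

omit [N487b59b3 β] in
theorem foldl_getD (i : ℕ) (l : List β) (n : ℕ) (d : β) (h : n ≤ i) :
    l.foldl (fun (s : ℕ × β) (b : β) => (s.1 + 1, if s.1 == i then b else s.2)) (n, d) =
      (n + l.length, l.getD (i - n) d) := by
  induction l generalizing n d with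
  | nil => simp
  | cons b l ih =>
    rw [List.foldl_cons]
    by_cases h1 : n = i
    · subst h1
      have key : ∀ (l : List β) (m : ℕ) (d : β), n < m →
          l.foldl (fun (s : ℕ × β) (b : β) => (s.1 + 1, if s.1 == n then b else s.2)) (m, d) =
            (m + l.length, d) := by
        intro l
        induction l with
        | nil => intro m d _; rfl
        | cons b l ih =>
          intro m d hm
          have h2 : (m == n) = false := by rw [beq_eq_false_iff_ne]; omega
          rw [List.foldl_cons]
          dsimp only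
          rw [h2, if_neg (by simp), ih _ _ (by omega), List.length_cons]
          congr 1
          omega
      dsimp only
      rw [beq_self_eq_true, if_pos rfl, key _ _ _ (by omega)]
      simp only [List.length_cons, Nat.sub_self, List.getD_cons_zero, Prod.mk.injEq, and_true]
      omega
    · have h2 : (n == i) = false := by rw [beq_eq_false_iff_ne]; exact h1
      dsimp only
      rw [h2, if_neg (by simp), ih _ _ (by omega)]
      obtain ⟨k, hk⟩ : ∃ k, i - n = k + 1 := ⟨i - n - 1, by omega⟩
      rw [hk, show i - (n + 1) = k by omega]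
      simp only [List.length_cons, List.getD_cons_succ, Prod.mk.injEq, and_true]
      omega

theorem sz_getD (l : List β) (i : ℕ) (d : β) : sz (l.getD i d) ≤ sz l + sz d := by
  rcases Nat.lt_or_ge i l.length with h | h
  · rw [List.getD_eq_getElem _ _ h]
    have := sz_mem_le (List.getElem_mem h)
    omega
  · rw [List.getD_eq_default _ _ h]
    omega

/-- the entry with a given number -/
theorem FP.getDNat [Inhabited β] {l : α → List β} {i : α → ℕ} (hl : FP l) (hi : FP i) (d : β) :
    FP fun a => (l a).getD (i a) d := by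
  -- the counter first runs over all numbers, so the general start value matters only for the bound
  have h1 : FP fun p : ℕ × ((ℕ × β) × β) =>
      (p.2.1.1 + 1, if p.2.1.1 == p.1 then p.2.2 else p.2.1.2) := by
    have h2 : FP fun p : ℕ × ((ℕ × β) × β) => p.2.1.1 + 1 :=
      FP.natAdd (by fun_prop) (FP.const 1)
    have h3 : FP fun p : ℕ × ((ℕ × β) × β) => p.2.1.1 == p.1 :=
      FP.beqNat (by fun_prop) (by fun_prop)
    fun_prop
  have hb : ∀ (i : ℕ) (l : List β) (s : ℕ × β) (S : ℕ), sz s.2 ≤ S → sz l ≤ S →
      (l.foldl (fun (s : ℕ × β) (b : β) => (s.1 + 1, if s.1 == i then b else s.2)) s).1 =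
        s.1 + l.length ∧
      sz (l.foldl (fun (s : ℕ × β) (b : β) => (s.1 + 1, if s.1 == i then b else s.2)) s).2 ≤ S := by
    intro i l
    induction l with
    | nil => intro s S h1 h2; exact ⟨rfl, h1⟩
    | cons b l ih =>
      intro s S h1 h2
      rw [sz_cons] at h2
      rw [List.foldl_cons]
      obtain ⟨h3, h4⟩ := ih (s.1 + 1, if s.1 == i then b else s.2) S (by
        dsimp only
        split <;> omega) (by omega)
      refine ⟨?_, h4⟩
      rw [h3, List.length_cons]
      dsimp only
      omega
  have h2 := FP.foldl_ctx' (γ := ℕ) (α := ℕ × β) (β := β)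
    (g := fun i (s : ℕ × β) (b : β) => (s.1 + 1, if s.1 == i then b else s.2)) h1
    (B := fun n => 2 * (n + n) + 1 + n) (by fun_prop) (by
      rintro i l ⟨n, d⟩
      obtain ⟨h3, h4⟩ := hb i l (n, d) (sz i + (sz l + sz (n, d))) (by rw [sz_pair]; dsimp only; omega)
        (by omega)
      set r := l.foldl (fun (s : ℕ × β) (b : β) => (s.1 + 1, if s.1 == i then b else s.2)) (n, d)
        with hr
      have h5 : sz r = 2 * sz r.1 + 1 + sz r.2 := sz_pair r.1 r.2
      have h6 : sz r.1 ≤ sz i + (sz l + sz (n, d)) := by
        rw [h3]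
        simp only [sz_nat, sz_pair]
        have h7 := size_add_le n l.length
        have h8 := length_le_sz l
        omega
      show sz r ≤ 2 * ((sz i + (sz l + sz (n, d))) + (sz i + (sz l + sz (n, d)))) + 1 +
        (sz i + (sz l + sz (n, d)))
      omega) hi hl (FP.const ((0, d) : ℕ × β))
  refine (congrArg FP (funext fun a => ?_)).mp h2.snd'
  rw [foldl_getD _ _ _ _ (Nat.zero_le _), Nat.sub_zero]

omit [N487b59b3 β] [N487b59b3 γ] in
theorem foldl_zip [Inhabited γ] (l : List β) (r : List γ) (acc : List (β × γ)) :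
    (l.foldl (fun (s : List γ × List (β × γ)) (b : β) =>
      (s.1.tail, if s.1.isEmpty then s.2 else s.2 ++ [(b, s.1.headD default)])) (r, acc)).2 =
      acc ++ l.zip r := by
  induction l generalizing r acc with
  | nil => simp
  | cons b l ih =>
    cases r with
    | nil =>
      rw [List.foldl_cons, ih]
      simp
    | cons c r =>
      rw [List.foldl_cons, ih]
      simp

theorem FP.zip' [Inhabited β] [Inhabited γ] {l : α → List β} {r : α → List γ} (hl : FP l)
    (hr : FP r) : FP fun a => (l a).zip (r a) := by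
  have h1 : FP fun p : (List γ × List (β × γ)) × β =>
      (p.1.1.tail, if p.1.1.isEmpty then p.1.2 else p.1.2 ++ [(p.2, p.1.1.headD default)]) := by
    have h2 : FP fun p : (List γ × List (β × γ)) × β => p.1.1.headD default :=
      FP.headD (by fun_prop) _
    fun_prop
  have h2 := FP.foldl (g := fun (s : List γ × List (β × γ)) (b : β) =>
      (s.1.tail, if s.1.isEmpty then s.2 else s.2 ++ [(b, s.1.headD default)])) h1
    (B := fun n => 3 * n) (by fun_prop) (by
      intro l a
      have key : ∀ (l : List β) (r : List γ) (acc : List (β × γ)),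
          sz (l.foldl (fun (s : List γ × List (β × γ)) (b : β) =>
            (s.1.tail, if s.1.isEmpty then s.2 else s.2 ++ [(b, s.1.headD default)])) (r, acc)) ≤
            3 * sz l + 3 * sz r + 1 + sz acc := by
        intro l
        induction l with
        | nil => intro r acc; simp only [List.foldl_nil, sz_nil, sz_pair]; omega
        | cons b l ih =>
          intro r acc
          rw [List.foldl_cons]
          refine (ih _ _).trans ?_
          cases r with
          | nil =>
            simp only [List.isEmpty_nil, if_true, List.tail_nil, sz_nil, sz_cons]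
            omega
          | cons c r =>
            simp only [List.isEmpty_cons, Bool.false_eq_true, if_false, List.tail_cons,
              List.headD_cons, sz_pair, sz_cons, sz_append, sz_nil]
            omega
      obtain ⟨r, acc⟩ := a
      refine (key l r acc).trans ?_
      rw [sz_pair]
      omega)
  refine (congrArg FP (funext fun a => ?_)).mp
    (h2.comp (hl.pair (hr.pair (FP.const ([] : List (β × γ)))))).snd'
  rw [foldl_zip, List.nil_append]

/-- all pairs -/
theorem FP.prodList [Inhabited β] [Inhabited γ] {l : α → List β} {l' : α → List γ} (hl : FP l)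
    (hl' : FP l') : FP fun a => (l a).flatMap fun b => (l' a).map fun c => (b, c) :=
  FP.flatMap_ctx' (h := fun (c : List γ) (b : β) => c.map fun c => (b, c))
    (FP.map_ctx' (h := fun (b : β) (c : γ) => (b, c)) (by fun_prop) (by fun_prop) (by fun_prop))
    hl' hl

end

end Pool.Agent.G4
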