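import Pool.Agent.G4.UPUpd

set_option autoImplicit false

/-!
# Tables and separations are polynomial
-/

namespace Pool.Agent.G4

open Turing Function N487b59b3 N68a2faeb Pool.Agent.Helper22 Pool.Agent.Helper49.Cons
open Pool.Agent.Helper6.WB

section

variable {α β γ δ ι : Type} [N487b59b3 α] [N487b59b3 β] [N487b59b3 γ] [N487b59b3 δ] [N487b59b3 ι]

theorem up_exq {E T P Q : Oracle → α → List ℕ} (hE : UP E) (hT : UP T) (hP : UP P) (hQ : UP Q) :
    UP fun X x => exq X (E X x) (T X x) (P X x) (Q X x) := by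
  have h1 : FP fun p : (List ℕ × List ℕ) × (List ℕ × List ℕ) =>
      word p.1.1 (dif p.1.2 p.2.1 ++ p.2.2) := by fun_prop
  exact UP.ask' ((UP.of_FP h1).comp ((hE.pair hT).pair (hP.pair hQ)))

@[fun_prop]
theorem fp_prs {l : α → List ℕ} (hl : FP l) : FP fun x => prs (l x) := by
  unfold prs; fun_prop

@[fun_prop]
theorem fp_prd [Inhabited β] [Inhabited γ] {l : α → List β} {m : α → List γ} (hl : FP l)
    (hm : FP m) : FP fun x => prd (l x) (m x) := by
  unfold prd; fun_prop

theorem up_table {E T S : Oracle → α → List ℕ} (hE : UP E) (hT : UP T) (hS : UP S) :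
    UP fun X x => table X (E X x) (T X x) (S X x) := by
  have h : UP fun X (q : List ℕ × (List ℕ × List ℕ)) => table X q.1 q.2.1 q.2.2 := by
    have h1 : UP fun X (q : List ℕ × (List ℕ × List ℕ)) =>
        (prd (nor q.2.2 q.2.1) (dif q.2.2 q.2.1)).filter fun p => exq X q.1 q.2.1 [p.1] [p.2] :=
      UP.filterA (h := fun X (q : List ℕ × (List ℕ × List ℕ)) (p : ℕ × ℕ) =>
        exq X q.1 q.2.1 [p.1] [p.2])
        (up_exq (UP.of_FP (by fun_prop)) (UP.of_FP (by fun_prop)) (UP.of_FP (by fun_prop))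
          (UP.of_FP (by fun_prop))) (UP.of_FP (by fun_prop))
    have h2 : UP fun X (q : List ℕ × (List ℕ × List ℕ)) =>
        (prd (prs (nor q.2.2 q.2.1)) (prs (dif q.2.2 q.2.1))).filter
          fun p => exq X q.1 q.2.1 [p.1.1, p.1.2] [p.2.1, p.2.2] :=
      UP.filterA (h := fun X (q : List ℕ × (List ℕ × List ℕ)) (p : (ℕ × ℕ) × (ℕ × ℕ)) =>
        exq X q.1 q.2.1 [p.1.1, p.1.2] [p.2.1, p.2.2])
        (up_exq (UP.of_FP (by fun_prop)) (UP.of_FP (by fun_prop)) (UP.of_FP (by fun_prop))
          (UP.of_FP (by fun_prop))) (UP.of_FP (by fun_prop))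
    exact UP.pair (UP.of_FP (by fun_prop)) (UP.pair h1 h2)
  exact h.comp (hE.pair (hT.pair hS))

@[fun_prop]
theorem fp_swT {t : α → Tab} (ht : FP t) : FP fun x => swT (t x) := by
  unfold swT; fun_prop

@[fun_prop]
theorem fp_resT {t : α → Tab} {S : α → List ℕ} (ht : FP t) (hS : FP S) :
    FP fun x => resT (t x) (S x) := by
  unfold resT; fun_prop

@[fun_prop]
theorem fp_gr {t : α → Tab} (ht : FP t) : FP fun x => gr (t x) := by
  unfold gr; fun_prop

@[fun_prop]
theorem fp_oneSide {t : α → Tab} {X : α → List ℕ} (ht : FP t) (hX : FP X) :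
    FP fun x => oneSide (t x) (X x) := by
  unfold oneSide; fun_prop

@[fun_prop]
theorem fp_lam1 {t : α → Tab} {X : α → List ℕ} (ht : FP t) (hX : FP X) :
    FP fun x => lam1 (t x) (X x) := by
  unfold lam1; fun_prop

@[fun_prop]
theorem fp_closStep {t : α → Tab} {b c : α → ℕ} {X : α → List ℕ} (ht : FP t) (hb : FP b)
    (hc : FP c) (hX : FP X) : FP fun x => closStep (t x) (b x) (c x) (X x) := by
  unfold closStep; fun_prop

@[fun_prop]
theorem fp_compStep {t : α → Tab} {X : α → List ℕ} (ht : FP t) (hX : FP X) :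
    FP fun x => compStep (t x) (X x) := by
  unfold compStep; fun_prop

theorem sz_gr (t : Tab) : sz (gr t) ≤ sz t := by
  obtain ⟨⟨a, b⟩, c⟩ := t
  simp only [gr, sz_append, sz_pair]
  omega

theorem sz_closIter (t : Tab) (b₀ c₀ : ℕ) (X : List ℕ) (i : ℕ) :
    sz ((closStep t b₀ c₀)^[i] X) ≤ sz t + sz X := by
  cases i with
  | zero => show sz X ≤ _; omega
  | succ i =>
    rw [Function.iterate_succ_apply']
    have h1 := sz_filter_le (fun e => decide (e ∈ (closStep t b₀ c₀)^[i] X) ||
      ((t.2.1.any fun p => decide (p.2 = e) && decide (p.1 ∈ (closStep t b₀ c₀)^[i] X)) ||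
       (t.2.2.any fun p => (decide (p.1.1 = b₀) && decide (p.1.2 = e)) &&
        (decide (p.2.1 = c₀) && decide (p.2.2 ∈ (closStep t b₀ c₀)^[i] X))))) (gr t)
    have h2 := sz_gr t
    unfold closStep at *
    omega

theorem sz_compIter (t : Tab) (X : List ℕ) (i : ℕ) :
    sz ((compStep t)^[i] X) ≤ sz t + sz X := by
  cases i with
  | zero => show sz X ≤ _; omega
  | succ i =>
    rw [Function.iterate_succ_apply']
    have h1 := sz_filter_le (fun e => decide (e ∈ (compStep t)^[i] X) ||
      (t.2.1.any fun p => (decide (p.2 = e) && decide (p.1 ∈ (compStep t)^[i] X)) ||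
        (decide (p.1 = e) && decide (p.2 ∈ (compStep t)^[i] X)))) (gr t)
    have h2 := sz_gr t
    unfold compStep at *
    omega

@[fun_prop]
theorem fp_clos {t : α → Tab} {b c y : α → ℕ} (ht : FP t) (hb : FP b)
    (hc : FP c) (hy : FP y) : FP fun x => clos (t x) (b x) (c x) (y x) := by
  have h : FP fun q : Tab × (ℕ × (ℕ × ℕ)) => clos q.1 q.2.1 q.2.2.1 q.2.2.2 := by
    unfold clos
    refine FP.iterA (f := fun (q : Tab × (ℕ × (ℕ × ℕ))) (X : List ℕ) =>
      closStep q.1 q.2.1 q.2.2.1 X) (by fun_prop) (B := fun n => n + (2 * n + 1 + (2 * n + 1)))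
      (by fun_prop) (by fun_prop) (by fun_prop) fun a i _ => ?_
    refine (sz_closIter _ _ _ _ _).trans ?_
    obtain ⟨t, b, c, y⟩ := a
    simp only [sz_cons, sz_nil, sz_pair]
    omega
  exact h.comp (ht.pair (hb.pair (hc.pair hy)))

@[fun_prop]
theorem fp_comp {t : α → Tab} {y : α → ℕ} (ht : FP t) (hy : FP y) :
    FP fun x => comp (t x) (y x) := by
  have h : FP fun q : Tab × ℕ => comp q.1 q.2 := by
    unfold comp
    refine FP.iterA (f := fun (q : Tab × ℕ) (X : List ℕ) => compStep q.1 X) (by fun_prop)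
      (B := fun n => n + (2 * n + 1)) (by fun_prop) (by fun_prop) (by fun_prop) fun a i _ => ?_
    refine (sz_compIter _ _ _).trans ?_
    obtain ⟨t, y⟩ := a
    simp only [sz_cons, sz_nil, sz_pair]
    omega
  exact h.comp (ht.pair hy)

@[fun_prop]
theorem fp_seps2 {t : α → Tab} (ht : FP t) : FP fun x => seps2 (t x) := by
  unfold seps2; fun_prop

@[fun_prop]
theorem fp_seps {t : α → Tab} (ht : FP t) : FP fun x => seps (t x) := by
  unfold seps; fun_prop

@[fun_prop]
theorem fp_test3 {t : α → Tab} (ht : FP t) : FP fun x => test3 (t x) := by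
  unfold test3; fun_prop

/-! ## Cycles: the single steps -/

@[fun_prop]
theorem fp_ends {p : α → List ℕ} (hp : FP p) : FP fun x => ends (p x) := by
  unfold ends; fun_prop

@[fun_prop]
theorem fp_extend {H : α → List (ℕ × ℕ)} {p : α → List ℕ} (hH : FP H) (hp : FP p) :
    FP fun x => extend (H x) (p x) := by
  unfold extend; fun_prop

@[fun_prop]
theorem fp_insP {l : α → List (List ℕ)} {p : α → List ℕ} (hl : FP l) (hp : FP p) :
    FP fun x => insP (l x) (p x) := by
  unfold insP; fun_prop

theorem sz_insP (l : List (List ℕ)) (p : List ℕ) : sz (insP l p) ≤ sz l + (2 * sz p + 1) := by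
  unfold insP
  split
  · omega
  · rw [sz_append, sz_cons, sz_nil]

@[fun_prop]
theorem fp_pathStep {H : α → List (ℕ × ℕ)} {l : α → List (List ℕ)} (hH : FP H) (hl : FP l) :
    FP fun x => pathStep (H x) (l x) := by
  have h : FP fun q : List (List ℕ) × List (List ℕ) => q.1.foldl insP q.2 := by
    refine FP.foldA (g := fun (_ : List (List ℕ) × List (List ℕ)) s p => insP s p) (by fun_prop)
      (B := fun n => n + n * (2 * n + 1)) (by fun_prop) FP.fst FP.snd fun a i hi => ?_
    obtain ⟨l, s⟩ := a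
    have h2 := foldl_take_ind (P := fun i t => sz t ≤ sz s + i * (2 * sz l + 1)) (g := insP)
      (l := l) (x := s) (by simp) (by
        intro i t b hb ht
        have h3 := sz_insP t b
        have h4 := sz_mem_le hb
        have h5 : (i + 1) * (2 * sz l + 1) = i * (2 * sz l + 1) + (2 * sz l + 1) := by ring
        omega) i hi
    have h3 : i ≤ sz (l, s) := by
      rw [sz_pair]
      have h4 := length_le_sz l
      have h5 : i ≤ l.length := hi
      omega
    have h4 : 2 * sz l + 1 ≤ 2 * sz (l, s) + 1 := by rw [sz_pair]; omega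
    have h5 := Nat.mul_le_mul h3 h4
    have h6 : sz s ≤ sz (l, s) := by rw [sz_pair]; omega
    exact h2.trans (by omega)
  unfold pathStep
  exact h.comp (f := fun x => ((l x).flatMap fun p => extend (H x) p, l x)) (by fun_prop)

/-! ## The chain: the single steps -/

@[fun_prop]
theorem fp_swp {T : α → List ℕ} {y e : α → ℕ} (hT : FP T) (hy : FP y) (he : FP e) :
    FP fun x => swp (T x) (y x) (e x) := by
  unfold swp; fun_prop

@[fun_prop]
theorem fp_pairStep {t : α → Tab} {l : α → List (ℕ × ℕ)} {b : α → ℕ} (ht : FP t) (hl : FP l)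
    (hb : FP b) : FP fun x => pairStep (t x) (l x) (b x) := by
  unfold pairStep; fun_prop

/-- all elements of the pairs are in the ground set -/
theorem pairStep_sub (t : Tab) (l : List (ℕ × ℕ)) (b : ℕ) :
    ∃ m : List (ℕ × ℕ), pairStep t l b = l ++ m ∧ m.length ≤ 1 ∧
      ∀ p ∈ m, p.1 ∈ gr t ∧ p.2 = b := by
  unfold pairStep
  split
  · exact ⟨[], by simp, by simp, by simp⟩
  · refine ⟨_, rfl, by simp, fun p hp => ?_⟩
    rw [List.mem_map] at hp
    obtain ⟨a, ha, rfl⟩ := hp
    exact ⟨(List.mem_filter.1 (List.mem_of_mem_take ha)).1, rfl⟩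

theorem foldl_pairStep (t : Tab) (r : List ℕ) (l : List (ℕ × ℕ)) :
    ∃ m : List (ℕ × ℕ), r.foldl (pairStep t) l = l ++ m ∧ m.length ≤ r.length ∧
      ∀ p ∈ m, p.1 ∈ gr t ∧ p.2 ∈ r := by
  induction r generalizing l with
  | nil => exact ⟨[], by simp, by simp, by simp⟩
  | cons b r ih =>
    obtain ⟨m, h1, h2, h3⟩ := pairStep_sub t l b
    obtain ⟨m', h4, h5, h6⟩ := ih (pairStep t l b)
    refine ⟨m ++ m', ?_, ?_, ?_⟩
    · rw [List.foldl_cons, h4, h1, List.append_assoc]
    · rw [List.length_append, List.length_cons]; omega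
    · intro p hp
      rcases List.mem_append.1 hp with hp | hp
      · obtain ⟨h7, h8⟩ := h3 p hp
        exact ⟨h7, by rw [h8]; exact List.mem_cons_self⟩
      · obtain ⟨h7, h8⟩ := h6 p hp
        exact ⟨h7, List.mem_cons_of_mem _ h8⟩

@[fun_prop]
theorem fp_pairsOf {t : α → Tab} (ht : FP t) : FP fun x => pairsOf (t x) := by
  have h : FP fun t : Tab => pairsOf t := by
    refine FP.foldA (g := fun (t : Tab) l b => pairStep t l b) (by fun_prop)
      (B := fun n => n * (2 * (3 * n + 1) + 1)) (by fun_prop) (by fun_prop) (FP.const [])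
      fun t i hi => ?_
    obtain ⟨m, h1, h2, h3⟩ := foldl_pairStep t (t.1.1.take i) []
    rw [List.nil_append] at h1
    show sz ((t.1.1.take i).foldl (pairStep t) []) ≤ _
    rw [h1]
    have h0 : sz t.1.1 ≤ sz t := by
      obtain ⟨⟨a, b⟩, c⟩ := t
      rw [sz_pair, sz_pair]
      show sz a ≤ _
      omega
    have h4 : ∀ p ∈ m, sz p ≤ 3 * sz t + 1 := by
      rintro ⟨a, b⟩ hp
      obtain ⟨h5, h6⟩ := h3 _ hp
      have h7 := (sz_mem_le h5).trans (sz_gr t)
      have h8 := (sz_mem_le (List.mem_of_mem_take h6)).trans h0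
      rw [sz_pair]
      have h7' : sz a ≤ sz t := h7
      have h8' : sz b ≤ sz t := h8
      omega
    refine (sz_le_length_mul h4).trans (Nat.mul_le_mul_right _ ?_)
    rw [List.length_take] at h2
    have h9 := length_le_sz t.1.1
    omega
  exact h.comp ht

@[fun_prop]
theorem fp_pivT {t : α → Tab} {T : α → List ℕ} {d : α → Bool} {y : α → ℕ} (ht : FP t)
    (hT : FP T) (hd : FP d) (hy : FP y) : FP fun x => pivT (t x) (T x) (d x) (y x) := by
  unfold pivT; fun_prop

@[fun_prop]
theorem fp_toBase {T S : α → List ℕ} {s : α → St} (hT : FP T) (hS : FP S) (hs : FP s) :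
    FP fun x => toBase (T x) (S x) (s x) := by
  unfold toBase; fun_prop

/-! ## Decomposition: the single steps -/

@[fun_prop]
theorem fp_shortest {l : α → List (List ℕ)} (hl : FP l) : FP fun x => shortest (l x) := by
  have h : FP fun l : List (List ℕ) => shortest l := by
    refine FP.foldA (g := fun (_ : List (List ℕ)) (s X : List ℕ) =>
      if X.length + 1 ≤ s.length then X else s) (by fun_prop)
      (B := fun n => n) (by fun_prop) FP.id (by fun_prop) fun l i hi => ?_
    refine foldl_take_ind (P := fun _ s => sz s ≤ sz l) (l := l) ?_ ?_ i hi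
    · refine (sz_headD _ _).trans ?_
      simp
    · intro i s b hb hs
      split
      · exact sz_mem_le hb
      · exact hs
  exact h.comp hl

@[fun_prop]
theorem fp_cutOf {t : α → Tab} {X : α → List ℕ} (ht : FP t) (hX : FP X) :
    FP fun x => cutOf (t x) (X x) := by
  unfold cutOf; fun_prop

@[fun_prop]
theorem fp_cutX {c : α → Cut} (hc : FP c) : FP fun x => cutX (c x) := by
  unfold cutX; fun_prop

@[fun_prop]
theorem fp_cutY {S : α → List ℕ} {c : α → Cut} (hS : FP S) (hc : FP c) :
    FP fun x => cutY (S x) (c x) := by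
  unfold cutY; fun_prop

@[fun_prop]
theorem fp_peelStep {s : α → Tab × List (Cut × List ℕ)} (hs : FP s) :
    FP fun x => peelStep (s x) := by
  unfold peelStep; fun_prop

@[fun_prop]
theorem fp_glueM {T : α → List ℕ} {c : α → Cut} {SY : α → List ℕ} {DX DY : α → Mx} (hT : FP T)
    (hc : FP c) (hS : FP SY) (hX : FP DX) (hY : FP DY) :
    FP fun x => glueM (T x) (c x) (SY x) (DX x) (DY x) := by
  unfold glueM; fun_prop

end

end Pool.Agent.G4
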