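import Pool.Agent.G4.UPList

set_option autoImplicit false

/-!
# Automation for polynomial time functions

After this file `unfold foo; fun_prop` proves `FP foo` for functions built from maps, filters,
conditions. Iterations and folds: `FP.iterA`, `FP.foldA`, `UP.iterA`, `UP.foldA` (the bound is
needed only for the states that occur).
-/

namespace Pool.Agent.G4

open Turing Function N487b59b3 N68a2faeb Pool.Agent.Helper22 Pool.Agent.Helper49.Cons
open Pool.Agent.Helper6.WB

section

variable {α β γ δ : Type} [N487b59b3 α] [N487b59b3 β] [N487b59b3 γ] [N487b59b3 δ]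

/-! ## Equality, membership, connectives, conditions -/

@[fun_prop]
theorem FP.eqD {f g : α → β} {d : ∀ x, Decidable (f x = g x)} (hf : FP f) (hg : FP g) :
    FP fun x => @decide (f x = g x) (d x) := by
  have h1 : FP fun x => weq (bitEncode (f x)) (bitEncode (g x)) :=
    FP.weq (FP_enc.comp hf) (FP_enc.comp hg)
  refine (congrArg FP (funext fun x => ?_)).mp h1
  rw [Bool.eq_iff_iff, weq_iff, decide_eq_true_iff]
  exact bitEncode_injective.eq_iff

@[fun_prop]
theorem FP.notD {p : α → Prop} {d : ∀ x, Decidable (p x)} {d' : ∀ x, Decidable (¬ p x)}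
    (h : FP fun x => @decide (p x) (d x)) : FP fun x => @decide (¬ p x) (d' x) := by
  refine (congrArg FP (funext fun x => ?_)).mp (FP.not h)
  rw [Bool.eq_iff_iff]
  simp

@[fun_prop]
theorem FP.andD {p q : α → Prop} {d : ∀ x, Decidable (p x)} {e : ∀ x, Decidable (q x)}
    {d' : ∀ x, Decidable (p x ∧ q x)} (h : FP fun x => @decide (p x) (d x))
    (h' : FP fun x => @decide (q x) (e x)) : FP fun x => @decide (p x ∧ q x) (d' x) := by
  refine (congrArg FP (funext fun x => ?_)).mp (FP.and h h')
  rw [Bool.eq_iff_iff]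
  simp

@[fun_prop]
theorem FP.orD {p q : α → Prop} {d : ∀ x, Decidable (p x)} {e : ∀ x, Decidable (q x)}
    {d' : ∀ x, Decidable (p x ∨ q x)} (h : FP fun x => @decide (p x) (d x))
    (h' : FP fun x => @decide (q x) (e x)) : FP fun x => @decide (p x ∨ q x) (d' x) := by
  refine (congrArg FP (funext fun x => ?_)).mp (FP.or h h')
  rw [Bool.eq_iff_iff]
  simp

@[fun_prop]
theorem FP.boolD {b : α → Bool} {d : ∀ x, Decidable (b x = true)} (h : FP b) :
    FP fun x => @decide (b x = true) (d x) := by
  refine (congrArg FP (funext fun x => ?_)).mp h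
  rw [Bool.eq_iff_iff]
  simp

@[fun_prop]
theorem FP.iteP {p : α → Prop} {d : ∀ x, Decidable (p x)} {f g : α → β}
    (h : FP fun x => @decide (p x) (d x)) (hf : FP f) (hg : FP g) :
    FP fun x => @ite β (p x) (d x) (f x) (g x) := by
  refine (congrArg FP (funext fun x => ?_)).mp (FP.ite h hf hg)
  by_cases hx : p x <;> simp [hx]

@[fun_prop]
theorem FP.xor' {b c : α → Bool} (hb : FP b) (hc : FP c) : FP fun x => Bool.xor (b x) (c x) := by
  have h := FP.ite hb hc.not hc
  refine (congrArg FP (funext fun a => ?_)).mp h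
  cases b a <;> cases c a <;> rfl

/-! ## Maps with the whole input as context -/

@[fun_prop]
theorem FP.mapA [Inhabited β] {h : α → β → δ} {l : α → List β}
    (hh : FP fun p : α × β => h p.1 p.2) (hl : FP l) : FP fun x => (l x).map fun b => h x b :=
  FP.map_ctx' (h := h) hh FP.id hl

@[fun_prop]
theorem FP.filterA [Inhabited β] {h : α → β → Bool} {l : α → List β}
    (hh : FP fun p : α × β => h p.1 p.2) (hl : FP l) : FP fun x => (l x).filter fun b => h x b :=
  FP.filter_ctx' (P := h) hh FP.id hl

@[fun_prop]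
theorem FP.flatMapA [Inhabited β] {h : α → β → List δ} {l : α → List β}
    (hh : FP fun p : α × β => h p.1 p.2) (hl : FP l) : FP fun x => (l x).flatMap fun b => h x b :=
  FP.flatMap_ctx' (h := h) hh FP.id hl

@[fun_prop]
theorem FP.anyA [Inhabited β] {h : α → β → Bool} {l : α → List β}
    (hh : FP fun p : α × β => h p.1 p.2) (hl : FP l) : FP fun x => (l x).any fun b => h x b :=
  FP.any_ctx' (P := h) hh FP.id hl

@[fun_prop]
theorem FP.allA [Inhabited β] {h : α → β → Bool} {l : α → List β}
    (hh : FP fun p : α × β => h p.1 p.2) (hl : FP l) : FP fun x => (l x).all fun b => h x b :=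
  FP.all_ctx' (P := h) hh FP.id hl

@[fun_prop]
theorem FP.memD [Inhabited β] {f : α → β} {l : α → List β} {d : ∀ x, Decidable (f x ∈ l x)}
    (hf : FP f) (hl : FP l) : FP fun x => @decide (f x ∈ l x) (d x) := by
  classical
  have h1 : FP fun x => (l x).any fun b => decide (f x = b) := by fun_prop
  refine (congrArg FP (funext fun x => ?_)).mp h1
  rw [Bool.eq_iff_iff]
  simp

/-! ## Lists -/

attribute [fun_prop] FP.reverse FP.zip' FP.range

@[fun_prop]
theorem FP.zipWithA [Inhabited β] [Inhabited γ] {h : α → β → γ → δ} {l : α → List β}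
    {r : α → List γ} (hh : FP fun p : α × (β × γ) => h p.1 p.2.1 p.2.2) (hl : FP l) (hr : FP r) :
    FP fun x => List.zipWith (fun b c => h x b c) (l x) (r x) := by
  have h1 : FP fun x => ((l x).zip (r x)).map fun q : β × γ => h x q.1 q.2 :=
    FP.mapA hh (FP.zip' hl hr)
  refine (congrArg FP (funext fun x => ?_)).mp h1
  rw [List.zip_eq_zipWith, List.map_zipWith]

@[fun_prop]
theorem FP.headDA [Inhabited β] {f : α → List β} {g : α → β} (hf : FP f) (hg : FP g) :
    FP fun x => (f x).headD (g x) := by
  have h1 : FP fun x => if (f x).isEmpty then g x else (f x).headD default := by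
    have h2 : FP fun x => (f x).headD default := FP.headD hf _
    fun_prop
  refine (congrArg FP (funext fun x => ?_)).mp h1
  cases f x <;> simp

@[fun_prop]
theorem FP.take1 [Inhabited β] {f : α → List β} (hf : FP f) : FP fun x => (f x).take 1 :=
  FP.take (g := fun _ => [true]) hf (FP.const _)

@[fun_prop]
theorem FP.takeAdd [Inhabited β] {f : α → List β} {g : α → List γ} {h : α → List δ} (hf : FP f)
    (hg : FP g) (hh : FP h) : FP fun x => (f x).take ((g x).length + (h x).length) := by
  have h1 : FP fun x => un (g x).length ++ un (h x).length := by fun_prop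
  refine (congrArg FP (funext fun x => ?_)).mp (FP.take hf h1)
  rw [List.length_append, un_length, un_length]

@[fun_prop]
theorem FP.lenLeD {f : α → List β} {g : α → List γ} {k : ℕ}
    {d : ∀ x, Decidable ((f x).length + k ≤ (g x).length)} (hf : FP f) (hg : FP g) :
    FP fun x => @decide ((f x).length + k ≤ (g x).length) (d x) := by
  have h1 : FP fun x => un (f x).length ++ un k := by fun_prop
  refine (congrArg FP (funext fun x => ?_)).mp (FP.length_le h1 hg)
  rw [Bool.eq_iff_iff]
  simp

@[fun_prop]
theorem FP.lenLeNumD {f : α → List β} {k : ℕ} {d : ∀ x, Decidable ((f x).length ≤ k)}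
    (hf : FP f) : FP fun x => @decide ((f x).length ≤ k) (d x) := by
  refine (congrArg FP (funext fun x => ?_)).mp (FP.length_le hf (FP.const (un k)))
  rw [Bool.eq_iff_iff]
  simp

@[fun_prop]
theorem FP.numLeLenD {f : α → List β} {k : ℕ} {d : ∀ x, Decidable (k ≤ (f x).length)}
    (hf : FP f) : FP fun x => @decide (k ≤ (f x).length) (d x) := by
  refine (congrArg FP (funext fun x => ?_)).mp (FP.length_le (FP.const (un k)) hf)
  rw [Bool.eq_iff_iff]
  simp

end

/-! ## Induction along iterations and folds -/

theorem iterate_ind {δ : Type} {P : ℕ → δ → Prop} {f : δ → δ} {x : δ} (h0 : P 0 x)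
    (hs : ∀ i s, P i s → P (i + 1) (f s)) (i : ℕ) : P i (f^[i] x) := by
  induction i with
  | zero => exact h0
  | succ i ih => rw [Function.iterate_succ_apply']; exact hs _ _ ih

theorem foldl_take_ind {β δ : Type} {P : ℕ → δ → Prop} {g : δ → β → δ} {l : List β} {x : δ}
    (h0 : P 0 x) (hs : ∀ i s b, b ∈ l → P i s → P (i + 1) (g s b)) (i : ℕ) (hi : i ≤ l.length) :
    P i ((l.take i).foldl g x) := by
  induction i with
  | zero => exact h0
  | succ i ih =>
    have hi' : i < l.length := hi
    rw [List.take_add_one, List.getElem?_eq_getElem hi', Option.toList_some, List.foldl_append]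
    exact hs _ _ _ (List.getElem_mem hi') (ih (by omega))

section

variable {α β γ δ : Type} [N487b59b3 α] [N487b59b3 β] [N487b59b3 γ] [N487b59b3 δ]

/-! ## Iterations and folds with bounds for the actual states only -/

theorem FP.grd' {C : α → List Bool} {s s' : α → δ} (hC : FP C) (hs : FP s) (hs' : FP s') :
    FP fun x => grd (C x) (s x) (s' x) := by
  have h1 : FP fun x => bitEncode (s' x) := FP_enc.comp hs'
  unfold grd
  fun_prop

theorem grd_sz (C : List Bool) (s s' : δ) : sz (grd C s s') ≤ max (sz s) C.length := by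
  unfold grd
  split
  · rename_i h
    rw [decide_eq_true_eq] at h
    exact le_max_of_le_right h
  · exact le_max_left _ _

theorem UP.iterA {f : Oracle → α → δ → δ} (hf : UP fun X (p : α × δ) => f X p.1 p.2)
    {B : ℕ → ℕ} (hB : PB B) {l : Oracle → α → List β} {x : Oracle → α → δ} (hl : UP l)
    (hx : UP x) (hsz : ∀ X a, ∀ i ≤ (l X a).length, sz ((f X a)^[i] (x X a)) ≤ B (sz a)) :
    UP fun X a => (f X a)^[(l X a).length] (x X a) := by
  obtain ⟨c, hc, hcle⟩ := exists_unary_bound (α := α) hB
  let F : Oracle → List Bool × (α × δ) → List Bool × (α × δ) := fun X s =>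
    (s.1, (s.2.1, grd s.1 s.2.2 (f X s.2.1 s.2.2)))
  have hF : UP F := by
    have h1 : UP fun X (s : List Bool × (α × δ)) => f X s.2.1 s.2.2 :=
      hf.pre (f := fun s : List Bool × (α × δ) => s.2) (by fun_prop)
    have h2 : FP fun q : (List Bool × (α × δ)) × δ => grd q.1.1 q.1.2.2 q.2 :=
      FP.grd' (by fun_prop) (by fun_prop) (by fun_prop)
    have h3 : FP fun q : (List Bool × (α × δ)) × δ => (q.1.1, (q.1.2.1, grd q.1.1 q.1.2.2 q.2)) := by
      fun_prop
    exact UP.fp h3 (UP.pair UP.id h1)
  have hFi : ∀ X s i, (F X)^[i] s = (s.1, (s.2.1, ((F X)^[i] s).2.2)) ∧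
      sz ((F X)^[i] s).2.2 ≤ max (sz s.2.2) s.1.length := by
    intro X s i
    refine iterate_ind (P := fun _ t => t = (s.1, (s.2.1, t.2.2)) ∧
      sz t.2.2 ≤ max (sz s.2.2) s.1.length) ?_ ?_ i
    · exact ⟨rfl, le_max_left _ _⟩
    · rintro i t ⟨h1, h2⟩
      refine ⟨?_, ?_⟩
      · rw [h1]
      · show sz (grd t.1 t.2.2 (f X t.2.1 t.2.2)) ≤ _
        refine (grd_sz _ _ _).trans ?_
        have h3 : t.1 = s.1 := by rw [h1]
        rw [h3]
        exact max_le h2 (le_max_right _ _)
  have hU := UP.iterate (β := β) hF (B := fun n => 3 * n + 3 * n + 2 + n) (by fun_prop) (by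
    intro X l s i _
    obtain ⟨h1, h2⟩ := hFi X s i
    rw [h1]
    have h3 : sz s = 2 * sz s.1 + 1 + (2 * sz s.2.1 + 1 + sz s.2.2) := by
      conv_lhs => rw [show s = (s.1, (s.2.1, s.2.2)) from rfl]
      rw [sz_pair, sz_pair]
    have h4 : s.1.length ≤ sz s.1 := length_le_sz _
    have h5 : max (sz s.2.2) s.1.length ≤ sz s.2.2 + s.1.length := by omega
    rw [sz_pair, sz_pair]
    omega)
  have hreach : ∀ X a, ∀ i ≤ (l X a).length,
      (F X)^[i] (c a, (a, x X a)) = (c a, (a, (f X a)^[i] (x X a))) := by
    intro X a i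
    induction i with
    | zero => intro _; rfl
    | succ i ih =>
      intro hi
      rw [Function.iterate_succ_apply', ih (by omega)]
      show (c a, (a, grd (c a) ((f X a)^[i] (x X a)) (f X a ((f X a)^[i] (x X a))))) = _
      have h1 := hsz X a (i + 1) hi
      rw [Function.iterate_succ_apply'] at h1 ⊢
      rw [grd, if_pos]
      rw [decide_eq_true_eq]
      exact le_trans h1 (hcle a)
  have h := (hU.comp (hl.pair ((UP.of_FP hc).pair (UP.id.pair hx)))).snd'.snd'
  refine h.congr fun X a => ?_
  dsimp only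
  rw [hreach X a _ le_rfl]

theorem UP.foldA [Inhabited β] {g : Oracle → α → δ → β → δ}
    (hg : UP fun X (p : α × (δ × β)) => g X p.1 p.2.1 p.2.2) {B : ℕ → ℕ} (hB : PB B)
    {l : Oracle → α → List β} {x : Oracle → α → δ} (hl : UP l) (hx : UP x)
    (hsz : ∀ X a, ∀ i ≤ (l X a).length,
      sz (((l X a).take i).foldl (g X a) (x X a)) ≤ B (sz a)) :
    UP fun X a => (l X a).foldl (g X a) (x X a) := by
  obtain ⟨D, hD, hDm, hDle⟩ := hl.bound
  let f : Oracle → α → List β × δ → List β × δ := fun X a p =>
    (p.1.tail, g X a p.2 (p.1.headD default))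
  have hf : UP fun X (p : α × (List β × δ)) => f X p.1 p.2 := by
    have h0 : FP fun p : α × (List β × δ) => p.2.1.headD default := FP.headD (by fun_prop) _
    have h1 : UP fun X (p : α × (List β × δ)) => g X p.1 p.2.2 (p.2.1.headD default) :=
      hg.pre (f := fun p : α × (List β × δ) => (p.1, (p.2.2, p.2.1.headD default))) (by fun_prop)
    exact UP.pair (UP.of_FP (by fun_prop)) h1
  have hit : ∀ X a i, (f X a)^[i] (l X a, x X a) =
      ((l X a).drop i, ((f X a)^[i] (l X a, x X a)).2) := by
    intro X a i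
    refine iterate_ind (P := fun i t => t = ((l X a).drop i, t.2)) ?_ ?_ i
    · simp
    · intro i t ht
      show (t.1.tail, _) = _
      rw [ht]
      simp [f]
  have h := UP.iterA (β := β) (f := f) hf (B := fun n => 2 * D n + 1 + B n) (by fun_prop)
    (l := l) (x := fun X a => (l X a, x X a)) hl (hl.pair hx) (by
      intro X a i hi
      rw [hit, iter_foldl (g X a) default (l X a) (x X a) i hi, sz_pair]
      have h1 := hsz X a i hi
      have h2 := sz_drop (l X a) i
      have h3 := hDle X a
      omega)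
  refine h.snd'.congr fun X a => ?_
  rw [iter_foldl (g X a) default (l X a) (x X a) _ le_rfl, List.take_length]

theorem FP.iterA {f : α → δ → δ} (hf : FP fun p : α × δ => f p.1 p.2)
    {B : ℕ → ℕ} (hB : PB B) {l : α → List β} {x : α → δ} (hl : FP l)
    (hx : FP x) (hsz : ∀ a, ∀ i ≤ (l a).length, sz ((f a)^[i] (x a)) ≤ B (sz a)) :
    FP fun a => (f a)^[(l a).length] (x a) :=
  UP.toFP (UP.iterA (f := fun _ => f) (UP.of_FP hf) hB (UP.of_FP hl) (UP.of_FP hx) fun _ => hsz)

theorem FP.foldA [Inhabited β] {g : α → δ → β → δ}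
    (hg : FP fun p : α × (δ × β) => g p.1 p.2.1 p.2.2) {B : ℕ → ℕ} (hB : PB B)
    {l : α → List β} {x : α → δ} (hl : FP l) (hx : FP x)
    (hsz : ∀ a, ∀ i ≤ (l a).length, sz (((l a).take i).foldl (g a) (x a)) ≤ B (sz a)) :
    FP fun a => (l a).foldl (g a) (x a) :=
  UP.toFP (UP.foldA (g := fun _ => g) (UP.of_FP hg) hB (UP.of_FP hl) (UP.of_FP hx) fun _ => hsz)

/-! ## Maps of operators with the whole input as context -/

theorem UP.mapA [Inhabited β] {h : Oracle → α → β → δ} {l : Oracle → α → List β}
    (hh : UP fun X (p : α × β) => h X p.1 p.2) (hl : UP l) :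
    UP fun X x => (l X x).map fun b => h X x b :=
  UP.map_ctx (h := h) hh UP.id hl

theorem UP.filterA [Inhabited β] {h : Oracle → α → β → Bool} {l : Oracle → α → List β}
    (hh : UP fun X (p : α × β) => h X p.1 p.2) (hl : UP l) :
    UP fun X x => (l X x).filter fun b => h X x b :=
  UP.filter_ctx (P := h) hh UP.id hl

theorem UP.anyA [Inhabited β] {h : Oracle → α → β → Bool} {l : Oracle → α → List β}
    (hh : UP fun X (p : α × β) => h X p.1 p.2) (hl : UP l) :
    UP fun X x => (l X x).any fun b => h X x b :=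
  UP.any_ctx (P := h) hh UP.id hl

/-! ## Sizes -/

theorem sz_filter_le (P : β → Bool) (l : List β) : sz (l.filter P) ≤ sz l := by
  induction l with
  | nil => simp
  | cons b l ih =>
    rw [List.filter_cons]
    split <;> simp only [sz_cons] <;> omega

theorem sz_sublist {l l' : List β} (h : l.Sublist l') : sz l ≤ sz l' := by
  induction h with
  | slnil => exact le_rfl
  | cons a _ ih => rw [sz_cons]; omega
  | cons_cons a _ ih => rw [sz_cons, sz_cons]; omega

theorem sz_le_of_mem {l : List β} {b : β} (h : b ∈ l) : 2 * sz b + 1 ≤ sz l := by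
  induction l with
  | nil => cases h
  | cons a l ih =>
    rw [sz_cons]
    rcases List.mem_cons.1 h with rfl | h
    · omega
    · have := ih h; omega

/-- a list of `n` elements of size at most `C` -/
theorem sz_le_length_mul {l : List β} {C : ℕ} (h : ∀ b ∈ l, sz b ≤ C) :
    sz l ≤ l.length * (2 * C + 1) := by
  induction l with
  | nil => simp
  | cons a l ih =>
    have h1 := h a (by simp)
    have h2 := ih fun b hb => h b (by simp [hb])
    rw [sz_cons, List.length_cons]
    have h3 : (l.length + 1) * (2 * C + 1) = l.length * (2 * C + 1) + (2 * C + 1) := by ring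
    omega

theorem sz_headD (l : List β) (d : β) : sz (l.headD d) ≤ max (sz l) (sz d) := by
  cases l with
  | nil => exact le_max_right _ _
  | cons a l =>
    rw [List.headD_cons, sz_cons]
    exact le_max_of_le_left (by omega)

end

end Pool.Agent.G4
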