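import Pool.Agent.G4.Br4

set_option autoImplicit false

/-!
# Module T1: tables

`TabOK D t`: the table `t` describes the matrix `D` on the rows `t.1.1` and the columns `t.1.2`.
* `tabOK_table`: `table X E T S` for an oracle (`IsOrc`), a basis `T` of `E`, `S ⊆ E`. The lists
`nor S T`, `dif S T` are filters of `S`. `exq X E T [b] [n] = X (word E (dif T [b] ++ [n]))`, the set is
`(T \ {b}) ∪ {n}`: `entry_iff`; `exq X E T [b, b'] [n, n']`: `minor_iff`.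
* `tabOK_swT`: the transpose (`D q.1.1 q.2.1 * D q.1.2 q.2.2 ≠ D q.1.1 q.2.2 * D q.1.2 q.2.1` is
symmetric, the products commute). `tabOK_resT`: filters.
-/

namespace Pool.Agent.G4

open N487b59b3 F4 Pool.Agent.Helper22

/-- the table describes the matrix `D` -/
structure TabOK (D : ℕ → ℕ → F4) (t : Tab) : Prop where
  nd1 : t.1.1.Nodup
  nd2 : t.1.2.Nodup
  dj : ∀ e ∈ t.1.1, e ∉ t.1.2
  one : ∀ p : ℕ × ℕ, p ∈ t.2.1 ↔ p.1 ∈ t.1.1 ∧ p.2 ∈ t.1.2 ∧ D p.1 p.2 ≠ 0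
  two : ∀ q : (ℕ × ℕ) × (ℕ × ℕ), q ∈ t.2.2 ↔ (q.1.1 ∈ t.1.1 ∧ q.1.2 ∈ t.1.1 ∧ q.1.1 ≠ q.1.2) ∧
    (q.2.1 ∈ t.1.2 ∧ q.2.2 ∈ t.1.2 ∧ q.2.1 ≠ q.2.2) ∧
    D q.1.1 q.2.1 * D q.1.2 q.2.2 ≠ D q.1.1 q.2.2 * D q.1.2 q.2.1

theorem mem_dif {S T : List ℕ} {e : ℕ} : e ∈ dif S T ↔ e ∈ S ∧ e ∉ T := by
  simp [dif]

theorem mem_nor {S T : List ℕ} {e : ℕ} : e ∈ nor S T ↔ e ∈ S ∧ e ∈ T := by
  simp [nor]

theorem dif_toFinset (S T : List ℕ) : (dif S T).toFinset = S.toFinset \ T.toFinset := by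
  ext e; simp [mem_dif]

theorem nor_toFinset (S T : List ℕ) : (nor S T).toFinset = T.toFinset ∩ S.toFinset := by
  ext e; simp [mem_nor, and_comm]

theorem dif_nodup {S T : List ℕ} (h : S.Nodup) : (dif S T).Nodup := h.filter _

theorem nor_nodup {S T : List ℕ} (h : S.Nodup) : (nor S T).Nodup := h.filter _

theorem mem_gr {t : Tab} {e : ℕ} : e ∈ gr t ↔ e ∈ t.1.1 ∨ e ∈ t.1.2 := by
  simp [gr]

private theorem mem_prd' {α β : Type} {l : List α} {m : List β} {p : α × β} :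
    p ∈ prd l m ↔ p.1 ∈ l ∧ p.2 ∈ m := by
  obtain ⟨a, b⟩ := p
  simp only [prd, List.mem_flatMap, List.mem_map, Prod.mk.injEq]
  constructor
  · rintro ⟨a', ha', b', hb', rfl, rfl⟩
    exact ⟨ha', hb'⟩
  · rintro ⟨h1, h2⟩
    exact ⟨a, h1, b, h2, rfl, rfl⟩

private theorem mem_prs' {l : List ℕ} {p : ℕ × ℕ} :
    p ∈ prs l ↔ p.1 ∈ l ∧ p.2 ∈ l ∧ p.1 ≠ p.2 := by
  obtain ⟨a, b⟩ := p
  simp only [prs, List.mem_flatMap, List.mem_map, Prod.mk.injEq, List.mem_filter, Bool.not_eq_true',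
    decide_eq_false_iff_not]
  constructor
  · rintro ⟨a', ha', b', ⟨hb', hne⟩, rfl, rfl⟩
    exact ⟨ha', hb', fun h => hne h.symm⟩
  · rintro ⟨h1, h2, h3⟩
    exact ⟨a, h1, b, ⟨h2, fun h => h3 h.symm⟩, rfl, rfl⟩

theorem TabOK.gr_nodup {D : ℕ → ℕ → F4} {t : Tab} (h : TabOK D t) : (gr t).Nodup := by
  rw [gr, List.nodup_append]
  refine ⟨h.nd1, h.nd2, ?_⟩
  intro a ha b hb hab
  exact h.dj a ha (hab ▸ hb)

theorem TabOK.congr {D D' : ℕ → ℕ → F4} {t : Tab} (h : TabOK D t)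
    (hD : ∀ b ∈ t.1.1, ∀ n ∈ t.1.2, D b n = D' b n) : TabOK D' t where
  nd1 := h.nd1
  nd2 := h.nd2
  dj := h.dj
  one := fun p => by
    rw [h.one p]
    constructor
    · rintro ⟨h1, h2, h3⟩
      exact ⟨h1, h2, by rw [← hD _ h1 _ h2]; exact h3⟩
    · rintro ⟨h1, h2, h3⟩
      exact ⟨h1, h2, by rw [hD _ h1 _ h2]; exact h3⟩
  two := fun q => by
    rw [h.two q]
    constructor
    · rintro ⟨⟨h1, h2, h3⟩, ⟨h4, h5, h6⟩, h7⟩
      refine ⟨⟨h1, h2, h3⟩, ⟨h4, h5, h6⟩, ?_⟩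
      rw [← hD _ h1 _ h4, ← hD _ h2 _ h5, ← hD _ h1 _ h5, ← hD _ h2 _ h4]
      exact h7
    · rintro ⟨⟨h1, h2, h3⟩, ⟨h4, h5, h6⟩, h7⟩
      refine ⟨⟨h1, h2, h3⟩, ⟨h4, h5, h6⟩, ?_⟩
      rw [hD _ h1 _ h4, hD _ h2 _ h5, hD _ h1 _ h5, hD _ h2 _ h4]
      exact h7

theorem tabOK_table {V : Type} [AddCommGroup V] [Module F4 V] {v : ℕ → V} {X : Oracle}
    {E T S : List ℕ} {D : ℕ → ℕ → F4} (hX : IsOrc X E v) (hD : IsD v E.toFinset T.toFinset D)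
    (hS : ∀ e ∈ S, e ∈ E) (hS' : S.Nodup) : TabOK D (table X E T S) := by
  have hTE : ∀ t ∈ T, t ∈ E := fun t ht =>
    List.mem_toFinset.1 (hD.1 (List.mem_toFinset.2 ht))
  refine ⟨nor_nodup hS', dif_nodup hS', ?_, ?_, ?_⟩
  · intro e h1 h2
    exact (mem_dif.1 h2).2 (mem_nor.1 h1).2
  · intro p
    show p ∈ (prd (nor S T) (dif S T)).filter (fun p => exq X E T [p.1] [p.2]) ↔
      p.1 ∈ nor S T ∧ p.2 ∈ dif S T ∧ D p.1 p.2 ≠ 0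
    rw [List.mem_filter, mem_prd', and_assoc]
    refine and_congr_right fun h1 => and_congr_right fun h2 => ?_
    have h1' := mem_nor.1 h1
    have h2' := mem_dif.1 h2
    have h3 : X (word E (dif T [p.1] ++ [p.2])) = true ↔ ind v (dif T [p.1] ++ [p.2]).toFinset := by
      refine hX _ fun t ht => ?_
      rcases List.mem_append.1 ht with ht | ht
      · exact hTE t (mem_dif.1 ht).1
      · rw [List.mem_singleton.1 ht]
        exact hS _ h2'.1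
    have h4 : (dif T [p.1] ++ [p.2]).toFinset = (T.toFinset \ {p.1}) ∪ {p.2} := by
      rw [List.toFinset_append, dif_toFinset]
      simp
    rw [exq, h3, h4]
    exact entry_iff hD (List.mem_toFinset.2 h1'.2)
      (Finset.mem_sdiff.2 ⟨List.mem_toFinset.2 (hS _ h2'.1), fun h => h2'.2 (List.mem_toFinset.1 h)⟩)
  · intro q
    show q ∈ (prd (prs (nor S T)) (prs (dif S T))).filter
        (fun p => exq X E T [p.1.1, p.1.2] [p.2.1, p.2.2]) ↔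
      (q.1.1 ∈ nor S T ∧ q.1.2 ∈ nor S T ∧ q.1.1 ≠ q.1.2) ∧
      (q.2.1 ∈ dif S T ∧ q.2.2 ∈ dif S T ∧ q.2.1 ≠ q.2.2) ∧
      D q.1.1 q.2.1 * D q.1.2 q.2.2 ≠ D q.1.1 q.2.2 * D q.1.2 q.2.1
    rw [List.mem_filter, mem_prd', mem_prs', mem_prs', and_assoc]
    refine and_congr_right fun h1 => and_congr_right fun h2 => ?_
    obtain ⟨a1, a2, a3⟩ := h1
    obtain ⟨b1, b2, b3⟩ := h2
    have a1' := mem_nor.1 a1
    have a2' := mem_nor.1 a2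
    have b1' := mem_dif.1 b1
    have b2' := mem_dif.1 b2
    have h3 : X (word E (dif T [q.1.1, q.1.2] ++ [q.2.1, q.2.2])) = true ↔
        ind v (dif T [q.1.1, q.1.2] ++ [q.2.1, q.2.2]).toFinset := by
      refine hX _ fun t ht => ?_
      rcases List.mem_append.1 ht with ht | ht
      · exact hTE t (mem_dif.1 ht).1
      · rcases List.mem_cons.1 ht with ht | ht
        · rw [ht]; exact hS _ b1'.1
        · rw [List.mem_singleton.1 ht]; exact hS _ b2'.1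
    have h4 : (dif T [q.1.1, q.1.2] ++ [q.2.1, q.2.2]).toFinset =
        (T.toFinset \ {q.1.1, q.1.2}) ∪ {q.2.1, q.2.2} := by
      rw [List.toFinset_append, dif_toFinset]
      simp
    rw [exq, h3, h4]
    exact minor_iff hD (List.mem_toFinset.2 a1'.2) (List.mem_toFinset.2 a2'.2) a3
      (Finset.mem_sdiff.2 ⟨List.mem_toFinset.2 (hS _ b1'.1), fun h => b1'.2 (List.mem_toFinset.1 h)⟩)
      (Finset.mem_sdiff.2 ⟨List.mem_toFinset.2 (hS _ b2'.1), fun h => b2'.2 (List.mem_toFinset.1 h)⟩) b3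

theorem tabOK_swT {D : ℕ → ℕ → F4} {t : Tab} (h : TabOK D t) : TabOK (trD D) (swT t) where
  nd1 := h.nd2
  nd2 := h.nd1
  dj := fun e h1 h2 => h.dj e h2 h1
  one := fun p => by
    show p ∈ t.2.1.map (fun p => (p.2, p.1)) ↔ p.1 ∈ t.1.2 ∧ p.2 ∈ t.1.1 ∧ D p.2 p.1 ≠ 0
    rw [List.mem_map]
    constructor
    · rintro ⟨a, ha, rfl⟩
      obtain ⟨h1, h2, h3⟩ := (h.one a).1 ha
      exact ⟨h2, h1, h3⟩
    · rintro ⟨h1, h2, h3⟩
      exact ⟨(p.2, p.1), (h.one _).2 ⟨h2, h1, h3⟩, rfl⟩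
  two := fun q => by
    show q ∈ t.2.2.map (fun p => (p.2, p.1)) ↔ (q.1.1 ∈ t.1.2 ∧ q.1.2 ∈ t.1.2 ∧ q.1.1 ≠ q.1.2) ∧
      (q.2.1 ∈ t.1.1 ∧ q.2.2 ∈ t.1.1 ∧ q.2.1 ≠ q.2.2) ∧
      D q.2.1 q.1.1 * D q.2.2 q.1.2 ≠ D q.2.2 q.1.1 * D q.2.1 q.1.2
    rw [List.mem_map]
    constructor
    · rintro ⟨a, ha, rfl⟩
      obtain ⟨h1, h2, h3⟩ := (h.two a).1 ha
      exact ⟨h2, h1, fun h4 => h3 (by rw [h4]; ring)⟩
    · rintro ⟨h1, h2, h3⟩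
      exact ⟨(q.2, q.1), (h.two _).2 ⟨h2, h1, fun h4 => h3 (by rw [h4]; ring)⟩, rfl⟩

theorem tabOK_resT {D : ℕ → ℕ → F4} {t : Tab} (h : TabOK D t) (S : List ℕ) :
    TabOK D (resT t S) where
  nd1 := nor_nodup h.nd1
  nd2 := nor_nodup h.nd2
  dj := fun e h1 h2 => h.dj e (mem_nor.1 h1).1 (mem_nor.1 h2).1
  one := fun p => by
    show p ∈ t.2.1.filter (fun p => decide (p.1 ∈ S) && decide (p.2 ∈ S)) ↔
      p.1 ∈ nor t.1.1 S ∧ p.2 ∈ nor t.1.2 S ∧ D p.1 p.2 ≠ 0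
    rw [List.mem_filter, h.one p, mem_nor, mem_nor]
    simp only [Bool.and_eq_true, decide_eq_true_eq]
    tauto
  two := fun q => by
    show q ∈ t.2.2.filter (fun p => (decide (p.1.1 ∈ S) && decide (p.1.2 ∈ S)) &&
        (decide (p.2.1 ∈ S) && decide (p.2.2 ∈ S))) ↔
      (q.1.1 ∈ nor t.1.1 S ∧ q.1.2 ∈ nor t.1.1 S ∧ q.1.1 ≠ q.1.2) ∧
      (q.2.1 ∈ nor t.1.2 S ∧ q.2.2 ∈ nor t.1.2 S ∧ q.2.1 ≠ q.2.2) ∧
      D q.1.1 q.2.1 * D q.1.2 q.2.2 ≠ D q.1.1 q.2.2 * D q.1.2 q.2.1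
    rw [List.mem_filter, h.two q, mem_nor, mem_nor, mem_nor, mem_nor]
    simp only [Bool.and_eq_true, decide_eq_true_eq]
    tauto

end Pool.Agent.G4
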