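import Pool.Agent.G4.Br4
import Pool.Agent.G4.T1

set_option autoImplicit false

/-!
# Module A1: the greedy basis, the output

* `greedy_spec`: invariant of the fold for the initial segment `m` of `E` and the current list `T`:
`T ⊆ m`, no repetitions, independent, and every `e ∈ m \ T` is dependent on `T`
(`¬ ind v (insert e T)`, which stays true when `T` grows: `ind_mono`). (`word E (T ++ [e])`: `IsOrc`.)
* `out_spec`: `D'` the computed matrix, `EqM D D'` on `T`, `E \ T`. For `J ⊆ E` the columns
`c e = (col D' T e b)_{b ∈ T}` in `T → F4`. Let `J` be independent for `c`: the columns of `T` are the unit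
vectors, so `J` can be enlarged to `J' ⊆ E` with `J'.card = T.card` and `c` independent on `J'`, which
means (square matrix) that no nonzero `f` vanishes on `J'`: `IsBase D' T (E \ T) J'`. So
`IsBase D T (E \ T) J'`, and by `isBase_iff` (`S = E`) `J'` is independent for `v`, so `J` is. Conversely
if `ind v J`: enlarge to `J'` (`IsD.extend`), `IsBase D ..`, `IsBase D' ..`, so the columns `c e`,
`e ∈ J'` are independent.
-/

namespace Pool.Agent.G4

open N487b59b3 F4 Finset Pool.Agent.Helper22

variable {V : Type} [AddCommGroup V] [Module F4 V] {v : ℕ → V}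

/-- one step of the greedy algorithm -/
private def gst (X : Oracle) (E : List ℕ) (T : List ℕ) (e : ℕ) : List ℕ :=
  if X (word E (T ++ [e])) then T ++ [e] else T

private theorem gst_fold {X : Oracle} {E : List ℕ} (hX : IsOrc X E v) (l : List ℕ) :
    ∀ T : List ℕ, (∀ e ∈ l, e ∈ E) → l.Nodup → (∀ t ∈ T, t ∈ E ∧ t ∉ l) → T.Nodup →
      ind v T.toFinset →
      (l.foldl (gst X E) T).Nodup ∧ (∀ t ∈ l.foldl (gst X E) T, t ∈ E) ∧
      ind v (l.foldl (gst X E) T).toFinset ∧ (∀ t ∈ T, t ∈ l.foldl (gst X E) T) ∧
      ∀ e ∈ l, e ∉ l.foldl (gst X E) T → ¬ ind v (insert e (l.foldl (gst X E) T).toFinset) := by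
  induction l with
  | nil =>
    intro T h1 h2 h3 h4 h5
    refine ⟨h4, fun t ht => (h3 t ht).1, h5, fun t ht => ht, ?_⟩
    intro e he
    exact absurd he List.not_mem_nil
  | cons a l ih =>
    intro T h1 h2 h3 h4 h5
    rw [List.foldl_cons]
    have ha : a ∈ E := h1 a List.mem_cons_self
    have hTa : a ∉ T := fun h => (h3 a h).2 List.mem_cons_self
    have hX1 : X (word E (T ++ [a])) = true ↔ ind v (T ++ [a]).toFinset := hX _ (by
      intro t ht
      rcases List.mem_append.1 ht with h | h
      · exact (h3 t h).1
      · rw [List.mem_singleton] at h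
        rw [h]
        exact ha)
    by_cases hx : X (word E (T ++ [a])) = true
    · have hg : gst X E T a = T ++ [a] := by
        unfold gst
        rw [if_pos hx]
      rw [hg]
      obtain ⟨q1, q2, q3, q4, q5⟩ := ih (T ++ [a]) (fun e he => h1 e (List.mem_cons_of_mem a he))
        (List.nodup_cons.1 h2).2 (by
          intro t ht
          rcases List.mem_append.1 ht with h | h
          · exact ⟨(h3 t h).1, fun hl => (h3 t h).2 (List.mem_cons_of_mem a hl)⟩
          · rw [List.mem_singleton] at h
            rw [h]
            exact ⟨ha, (List.nodup_cons.1 h2).1⟩) (by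
          rw [List.nodup_append]
          refine ⟨h4, List.nodup_singleton a, ?_⟩
          intro x hxT y hy
          rw [List.mem_singleton] at hy
          rintro rfl
          exact hTa (hy ▸ hxT)) (hX1.1 hx)
      refine ⟨q1, q2, q3, fun t ht => q4 t (List.mem_append_left _ ht), ?_⟩
      intro e he hne
      rcases List.mem_cons.1 he with h | h
      · exact absurd (q4 a (List.mem_append_right _ (List.mem_singleton_self a))) (h ▸ hne)
      · exact q5 e h hne
    · have hg : gst X E T a = T := by
        unfold gst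
        rw [if_neg hx]
      rw [hg]
      obtain ⟨q1, q2, q3, q4, q5⟩ := ih T (fun e he => h1 e (List.mem_cons_of_mem a he))
        (List.nodup_cons.1 h2).2 (fun t ht => ⟨(h3 t ht).1,
          fun hl => (h3 t ht).2 (List.mem_cons_of_mem a hl)⟩) h4 h5
      refine ⟨q1, q2, q3, q4, ?_⟩
      intro e he hne
      rcases List.mem_cons.1 he with h | h
      · rw [h]
        intro hi
        apply hx
        rw [hX1]
        refine ind_mono hi ?_
        intro t ht
        rw [List.mem_toFinset] at ht
        rcases List.mem_append.1 ht with h' | h'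
        · exact mem_insert_of_mem (List.mem_toFinset.2 (q4 t h'))
        · rw [List.mem_singleton] at h'
          rw [h']
          exact mem_insert_self _ _
      · exact q5 e h hne

theorem greedy_spec {X : Oracle} {E : List ℕ} (hX : IsOrc X E v) (hE : E.Nodup) :
    (greedy X E).Nodup ∧ ∃ D, IsD v E.toFinset (greedy X E).toFinset D := by
  have hg : greedy X E = E.foldl (gst X E) [] := rfl
  obtain ⟨q1, q2, q3, q4, q5⟩ := gst_fold hX E [] (fun e he => he) hE
    (fun t ht => absurd ht List.not_mem_nil) List.nodup_nil (by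
      rw [List.toFinset_nil]
      exact ind_empty)
  rw [hg]
  refine ⟨q1, exists_isD ?_ q3 ?_⟩
  · intro t ht
    rw [List.mem_toFinset] at ht ⊢
    exact q2 t ht
  · intro e he hne
    rw [List.mem_toFinset] at he hne
    exact q5 e he hne

/-- the columns in the basis `T` -/
private def cc (D' : ℕ → ℕ → F4) (T : Finset ℕ) (e : ℕ) : T → F4 := fun b => col D' T e b

private theorem cc_isD {E T : Finset ℕ} (hT : T ⊆ E) (D' : ℕ → ℕ → F4) :
    IsD (cc D' T) E T (fun t e => col D' T e t) := by
  have h1 : ∀ (f : ℕ → F4) (b : T), (∑ t ∈ T, f t • cc D' T t) b = f b := by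
    intro f b
    rw [Finset.sum_apply, Finset.sum_eq_single (b : ℕ)]
    · rw [Pi.smul_apply]
      unfold cc col
      rw [if_pos b.2, if_pos rfl, smul_eq_mul, mul_one]
    · intro t ht hne
      rw [Pi.smul_apply]
      unfold cc col
      rw [if_pos ht, if_neg hne, smul_zero]
    · exact fun h => absurd b.2 h
  refine ⟨hT, ?_, ?_⟩
  · change LinearIndepOn F4 (cc D' T) (T : Set ℕ)
    rw [linearIndepOn_finset_iff]
    intro f hf t ht
    have h2 := h1 f ⟨t, ht⟩
    rw [hf] at h2
    exact h2.symm
  · intro e he
    funext b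
    rw [h1]
    rfl

private theorem col_col (D' : ℕ → ℕ → F4) (T : Finset ℕ) (e b : ℕ) :
    col (fun t e => col D' T e t) T e b = col D' T e b := by
  unfold col
  by_cases he : e ∈ T
  · rw [if_pos he, if_pos he]
  · rw [if_neg he, if_neg he]
    exact if_neg he

private theorem isBase_col (D' : ℕ → ℕ → F4) (T N P : Finset ℕ) :
    IsBase (fun t e => col D' T e t) T N P ↔ IsBase D' T N P := by
  have h1 : ∀ f e, ev (fun t e => col D' T e t) T f e = ev D' T f e := by
    intro f e
    unfold ev
    exact Finset.sum_congr rfl fun b _ => by rw [col_col]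
  unfold IsBase
  simp only [h1]

theorem out_spec {E T : Finset ℕ} {D D' : ℕ → ℕ → F4} (hD : IsD v E T D)
    (h : EqM D D' T (E \ T)) {J : Finset ℕ} (hJ : J ⊆ E) :
    ind v J ↔ LinearIndependent F4 fun e : J => fun b : T => col D' T e b := by
  have hT := hD.1
  have hc := cc_isD hT D'
  have hTE : T ∩ E = T := inter_eq_left.2 hT
  have hTE' : T \ E = ∅ := sdiff_eq_empty_iff_subset.2 hT
  have key : ∀ P ⊆ E, P.card = T.card → (ind v P ↔ ind (cc D' T) P) := by
    intro P hP hPc
    have e1 := isBase_iff hD (Finset.Subset.refl E) hP (by rw [hTE]; exact hPc)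
    have e2 := isBase_iff hc (Finset.Subset.refl E) hP (by rw [hTE]; exact hPc)
    rw [hTE, hTE', empty_union] at e1 e2
    rw [← e1, ← e2, h P, isBase_col]
  change ind v J ↔ ind (cc D' T) J
  constructor
  · intro hi
    obtain ⟨-, P', h1, h2, h3, h4⟩ := hD.extend hJ hi
    exact ind_mono ((key P' h2 h3).1 h4) h1
  · intro hi
    obtain ⟨-, P', h1, h2, h3, h4⟩ := hc.extend hJ hi
    exact ind_mono ((key P' h2 h3).2 h4) h1

end Pool.Agent.G4
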