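import Pool.Agent.G4.T5

set_option autoImplicit false

/-!
# Module T6: the piece cut off by a shortest separation is small or 3-connected

`B = t.1.1.toFinset`, `N = t.1.2.toFinset`, `X = shortest (seps t)`, `c = cutOf t X`.
PROOF. Suppose `4 ≤ (cutX c).length` and that `C3` fails on `SX = (cutX c).toFinset` (a set with at
least four elements; `B ∩ SX ∪ N ∩ SX = SX`). Then there is `Z' ⊆ SX` with `Sep1`, `Z' ≠ ∅`, `Z' ≠ SX`,
or `Sep2`, `2 ≤ Z'.card`, `2 ≤ (SX \ Z').card` (on the rows `B ∩ SX`, columns `N ∩ SX`).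
Kind 0 (`SX = X`): by `sep_lift0` `Z'` is a separation of the same kind of `B`, `N`, with
`Z'.card < X.length`: contradiction to `seps_complete1/2` and `shortest_spec`.
Kind 1 (`SX = insert b₀ X`): let `Z` be `Z'` or `SX \ Z'` (`sep1_compl`, `sep2_compl` on `SX`), the one
which does not contain `b₀`; `Z ⊆ X`. `Sep1`: `Z ≠ X`, because `b₀` and `c₀ ∈ X` are adjacent; so
`Z.card < X.length`, `sep_lift1`, contradiction. `Sep2`: `Z.card ≤ SX.card - 2 < X.length`, `sep_lift1`,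
contradiction (`2 ≤` cardinality of the complement in `B ∪ N`).
Kind 2: the transpose: apply `sep_lift1` to `trD D`, `N`, `B`, with `c₀` as the row
(`One (trD D) N B X` is `One D B N ((B ∪ N) \ X)`), `sep1_trD`, `sep2_trD`.
-/

namespace Pool.Agent.G4

open N487b59b3 F4 Finset

/-- minimality of `X` -/
private def Mn (D : ℕ → ℕ → F4) (B N X : Finset ℕ) : Prop :=
  (∀ Z ⊆ B ∪ N, Z.Nonempty → Z ≠ B ∪ N → Sep1 D B N Z → X.card ≤ Z.card) ∧
  ∀ Z ⊆ B ∪ N, 2 ≤ Z.card → 2 ≤ ((B ∪ N) \ Z).card → Sep2 D B N Z → X.card ≤ Z.card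

private theorem leaf0 {D : ℕ → ℕ → F4} {B N X : Finset ℕ} (hX : X ⊆ B ∪ N) (hm : Mn D B N X)
    (hs : Sep1 D B N X) (h4 : 4 ≤ X.card) : C3 D (B ∩ X) (N ∩ X) := by
  have hU : (B ∩ X) ∪ (N ∩ X) = X := by
    rw [← union_inter_distrib_right]
    exact inter_eq_right.2 hX
  refine ⟨by rw [hU]; exact h4, fun Z hZ hsz => ?_, fun Z hZ hsz => ?_⟩
  · rw [hU] at hZ ⊢
    by_contra hcon
    push Not at hcon
    obtain ⟨h1, h2⟩ := hcon
    have h3 : Z.card < X.card := card_lt_card (Finset.ssubset_iff_subset_ne.2 ⟨hZ, h2⟩)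
    have h5 : Z ≠ B ∪ N := by
      intro h
      rw [h] at h3
      exact absurd (card_le_card hX) (by omega)
    have := hm.1 Z (hZ.trans hX) h1 h5 ((sep_lift0 hs hZ).1 hsz)
    omega
  · rw [hU] at hZ ⊢
    by_contra hcon
    push Not at hcon
    obtain ⟨h1, h2⟩ := hcon
    have h3 : (X \ Z).card = X.card - Z.card := card_sdiff_of_subset hZ
    have h5 : (X \ Z).card ≤ ((B ∪ N) \ Z).card := card_le_card (sdiff_subset_sdiff hX le_rfl)
    have := hm.2 Z (hZ.trans hX) h1 (by omega) ((sep_lift0 hs hZ).2 hsz)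
    omega

private theorem leaf1 {D : ℕ → ℕ → F4} {B N X : Finset ℕ} {b₀ c₀ : ℕ} (hd : Disjoint B N)
    (hX : X ⊆ B ∪ N) (hm : Mn D B N X) (h : One D B N X) (hb : b₀ ∈ B \ X)
    (hc : c₀ ∈ N ∩ X) (hne : D b₀ c₀ ≠ 0) (h4 : 4 ≤ (insert b₀ X).card) :
    C3 D (B ∩ insert b₀ X) (N ∩ insert b₀ X) := by
  have hbB : b₀ ∈ B := (mem_sdiff.1 hb).1
  have hbX : b₀ ∉ X := (mem_sdiff.1 hb).2
  have hcN : c₀ ∈ N := (mem_inter.1 hc).1
  have hcX : c₀ ∈ X := (mem_inter.1 hc).2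
  have hSX : insert b₀ X ⊆ B ∪ N := insert_subset (mem_union_left _ hbB) hX
  have hcard : (insert b₀ X).card = X.card + 1 := card_insert_of_notMem hbX
  have hU : (B ∩ insert b₀ X) ∪ (N ∩ insert b₀ X) = insert b₀ X := by
    rw [← union_inter_distrib_right]
    exact inter_eq_right.2 hSX
  -- separations which do not contain `b₀`
  have key1 : ∀ Z ⊆ insert b₀ X, b₀ ∉ Z → Z.Nonempty →
      Sep1 D (B ∩ insert b₀ X) (N ∩ insert b₀ X) Z → False := by
    intro Z hZ hbZ h1 hs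
    have hZX : Z ⊆ X := (subset_insert_iff_of_notMem hbZ).1 hZ
    have hne' : Z ≠ X := by
      intro hh
      rcases hs b₀ (mem_inter.2 ⟨hbB, mem_insert_self _ _⟩) c₀
        (mem_inter.2 ⟨hcN, mem_insert_of_mem hcX⟩) with h2 | h2
      · exact hbZ (h2.2 (hh ▸ hcX))
      · exact hne h2
    have h3 : Z.card < X.card := card_lt_card (Finset.ssubset_iff_subset_ne.2 ⟨hZX, hne'⟩)
    have h5 : Z ≠ B ∪ N := by
      intro hh
      exact hbZ (hh ▸ mem_union_left _ hbB)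
    have := hm.1 Z (hZX.trans hX) h1 h5 ((sep_lift1 hd hX h hb hc hne hZX).1 hs)
    omega
  have key2 : ∀ Z ⊆ insert b₀ X, b₀ ∉ Z → 2 ≤ Z.card → 2 ≤ (insert b₀ X \ Z).card →
      Sep2 D (B ∩ insert b₀ X) (N ∩ insert b₀ X) Z → False := by
    intro Z hZ hbZ h1 h2 hs
    have hZX : Z ⊆ X := (subset_insert_iff_of_notMem hbZ).1 hZ
    have h3 : (insert b₀ X \ Z).card = (insert b₀ X).card - Z.card := card_sdiff_of_subset hZ
    have h5 : (insert b₀ X \ Z).card ≤ ((B ∪ N) \ Z).card :=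
      card_le_card (sdiff_subset_sdiff hSX le_rfl)
    have := hm.2 Z (hZX.trans hX) h1 (by omega) ((sep_lift1 hd hX h hb hc hne hZX).2 hs)
    omega
  refine ⟨by rw [hU]; exact h4, fun Z hZ hsz => ?_, fun Z hZ hsz => ?_⟩
  · rw [hU] at hZ ⊢
    by_contra hcon
    push Not at hcon
    obtain ⟨h1, h2⟩ := hcon
    by_cases hbZ : b₀ ∈ Z
    · have hsz' := sep1_compl.2 hsz
      rw [hU] at hsz'
      refine key1 (insert b₀ X \ Z) sdiff_subset (fun h => (mem_sdiff.1 h).2 hbZ) ?_ hsz'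
      rw [nonempty_iff_ne_empty]
      intro h3
      exact h2 (subset_antisymm hZ (sdiff_eq_empty_iff_subset.1 h3))
    · exact key1 Z hZ hbZ h1 hsz
  · rw [hU] at hZ ⊢
    by_contra hcon
    push Not at hcon
    obtain ⟨h1, h2⟩ := hcon
    by_cases hbZ : b₀ ∈ Z
    · have hsz' := sep2_compl.2 hsz
      rw [hU] at hsz'
      refine key2 (insert b₀ X \ Z) sdiff_subset (fun h => (mem_sdiff.1 h).2 hbZ) (by omega) ?_
        hsz'
      rw [Finset.sdiff_sdiff_eq_self hZ]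
      omega
    · exact key2 Z hZ hbZ (by omega) (by omega) hsz

private theorem Mn.trD {D : ℕ → ℕ → F4} {B N X : Finset ℕ} (h : Mn D B N X) :
    Mn (trD D) N B X := by
  refine ⟨fun Z h1 h2 h3 h4 => ?_, fun Z h1 h2 h3 h4 => ?_⟩
  · rw [union_comm N B] at h1 h3
    exact h.1 Z h1 h2 h3 (sep1_trD.1 h4)
  · rw [union_comm N B] at h1 h3
    exact h.2 Z h1 h2 h3 (sep2_trD.1 h4)

private theorem one_trD {D : ℕ → ℕ → F4} {B N X : Finset ℕ} (h : One D B N ((B ∪ N) \ X)) :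
    One (Pool.Agent.G4.trD D) N B X := by
  have h1 : ∀ {e : ℕ}, e ∈ B ∪ N → e ∉ X → e ∈ (B ∪ N) \ X := fun a b => mem_sdiff.2 ⟨a, b⟩
  have h2 : ∀ {e : ℕ}, e ∈ X → e ∉ (B ∪ N) \ X := fun a b => (mem_sdiff.1 b).2 a
  refine ⟨fun n hn b hb hnX hbX => ?_, fun n hn n' hn' b hb b' hb' a1 a2 a3 a4 => ?_⟩
  · exact h.1 b hb n hn (h1 (mem_union_left _ hb) hbX) (h2 hnX)
  · change D b n * D b' n' = D b' n * D b n'
    rw [h.2 b hb b' hb' n hn n' hn' (h2 a3) (h2 a4) (h1 (mem_union_right _ hn) a1)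
      (h1 (mem_union_right _ hn') a2), mul_comm]

theorem leaf {D : ℕ → ℕ → F4} {t : Tab} (h : TabOK D t) (hs : seps t ≠ []) :
    (cutX (cutOf t (shortest (seps t)))).length ≤ 3 ∨
    C3 D (t.1.1.toFinset ∩ (cutX (cutOf t (shortest (seps t)))).toFinset)
      (t.1.2.toFinset ∩ (cutX (cutOf t (shortest (seps t)))).toFinset) := by
  obtain ⟨hX, hmin⟩ := shortest_spec (seps t) hs
  generalize hXe : shortest (seps t) = X at *
  obtain ⟨⟨hnd, hsub, hk⟩, hcX, -⟩ := cutOf_spec h hX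
  generalize hce : cutOf t X = c at *
  obtain ⟨k, X', b₀, c₀⟩ := c
  simp only at hcX hnd hsub hk
  subst hcX
  have hcard : X'.toFinset.card = X'.length := List.toFinset_card_of_nodup hnd
  have hd : Disjoint t.1.1.toFinset t.1.2.toFinset := by
    rw [disjoint_left]
    intro e h1 h2
    exact h.dj e (List.mem_toFinset.1 h1) (List.mem_toFinset.1 h2)
  have hm : Mn D t.1.1.toFinset t.1.2.toFinset X'.toFinset := by
    refine ⟨fun Z h1 h2 h3 h4 => ?_, fun Z h1 h2 h3 h4 => ?_⟩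
    · obtain ⟨Y, hY, hY'⟩ := seps_complete1 h h1 h2 h3 h4
      have := hmin Y hY
      omega
    · obtain ⟨Y, hY, hY'⟩ := seps_complete2 h h1 h2 h3 h4
      have := hmin Y hY
      omega
  rw [or_iff_not_imp_left]
  intro hlen
  have hmX : ∀ e, e ∈ X'.toFinset ↔ e ∈ X' := fun e => List.mem_toFinset
  rcases hk with ⟨hk, h1⟩ | ⟨hk, h1, h2, h3, h4, h5, h6⟩ | ⟨hk, h1, h2, h3, h4, h5, h6⟩
  · subst hk
    have hcut : cutX (0, (X', (b₀, c₀))) = X' := rfl
    rw [hcut] at hlen ⊢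
    exact leaf0 hsub hm h1 (by omega)
  · subst hk
    have hcut : (cutX (1, (X', (b₀, c₀)))).toFinset = insert b₀ X'.toFinset := by
      change (X' ++ [b₀]).toFinset = _
      ext e
      simp
    have hlen' : (cutX (1, (X', (b₀, c₀)))).length = X'.length + 1 := by
      change (X' ++ [b₀]).length = _
      simp
    rw [hcut]
    have hb : b₀ ∉ X'.toFinset := by rw [hmX]; exact h2
    refine leaf1 hd hsub hm h6 (mem_sdiff.2 ⟨h1, hb⟩) (mem_inter.2 ⟨h3, by rw [hmX]; exact h4⟩)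
      h5 ?_
    rw [card_insert_of_notMem hb]
    omega
  · subst hk
    have hcut : (cutX (2, (X', (b₀, c₀)))).toFinset = insert c₀ X'.toFinset := by
      change (X' ++ [c₀]).toFinset = _
      ext e
      simp
    have hlen' : (cutX (2, (X', (b₀, c₀)))).length = X'.length + 1 := by
      change (X' ++ [c₀]).length = _
      simp
    rw [hcut]
    have hb : c₀ ∉ X'.toFinset := by rw [hmX]; exact h4
    have := leaf1 (D := trD D) hd.symm (by rw [union_comm]; exact hsub) hm.trD (one_trD h6)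
      (mem_sdiff.2 ⟨h3, hb⟩) (mem_inter.2 ⟨h1, by rw [hmX]; exact h2⟩) h5
      (by rw [card_insert_of_notMem hb]; omega)
    exact this.trD

end Pool.Agent.G4
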