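import Pool.Agent.G4.G3
import Pool.Agent.G4.T6

set_option autoImplicit false

/-!
# Module G4: the decomposition

`Peeled D T S₀ S l`: `S` is obtained from `S₀` by the cuts in `l` (the last one first).
* `peel_spec`: invariant of `(peelStep)^[i] (t, [])`, state `(t', l)`: `TabOK D t'`, rows
`T ∩ gr t'`, columns `gr t' \ T`, `Peeled D T (gr t) (gr t') l`, and `seps t' = []` or
`(gr t').length + i ≤ (gr t).length`. Step (`seps t' ≠ []`): `shortest_spec`, `cutOf_spec`, `leaf`
(`t'.1.1.toFinset ∩ cutX = T ∩ cutX` because `cutX ⊆ gr t'`), `tabOK_resT`; the new ground set is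
`gr (resT t' (cutY (gr t') c))`, whose finset is that of `cutY (gr t') c` (`cutY ⊆ gr t'`), and its
length is smaller: kind 0: `X ≠ []` (`seps_sound`); kinds 1, 2: `2 ≤ X.length` elements are removed and
one is added. After `(gr t).length` steps: `seps t' = []`, because a table with `gr t' = []` has
`seps t' = []`.
* `fold_spec`: induction on `Peeled`: the fold starts with the head of the list (the last cut); use
`glue_spec` for this cut, then the induction hypothesis.
-/

namespace Pool.Agent.G4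

open N487b59b3 F4 Finset

/-- `S` is obtained from `S₀` by the cuts of the list (the last one first) -/
inductive Peeled (D : ℕ → ℕ → F4) (T : List ℕ) (S₀ : List ℕ) : List ℕ → List (Cut × List ℕ) → Prop
  | nil : Peeled D T S₀ S₀ []
  | cons {S SY S' : List ℕ} {l : List (Cut × List ℕ)} {c : Cut} (h : Peeled D T S₀ S l)
      (hc : CutOK D (T.toFinset ∩ S.toFinset) (S.toFinset \ T.toFinset) c)
      (hn : (cutX c).Nodup) (hs : ∀ e ∈ cutX c, e ∈ S)
      (hl : (cutX c).length ≤ 3 ∨
        C3 D (T.toFinset ∩ (cutX c).toFinset) ((cutX c).toFinset \ T.toFinset))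
      (hSY : SY.toFinset = (cutY S c).toFinset) (hS' : S'.toFinset = SY.toFinset)
      (hnd : S'.Nodup) (hsub : ∀ e ∈ S', e ∈ S) :
      Peeled D T S₀ S' ((c, SY) :: l)

private theorem cutX_nodup {D : ℕ → ℕ → F4} {B N : Finset ℕ} {c : Cut} (hc : CutOK D B N c) :
    (cutX c).Nodup := by
  obtain ⟨κ, X, b₀, c₀⟩ := c
  obtain ⟨h0, _, h⟩ := hc
  simp only at h0 h
  rcases h with ⟨rfl, _⟩ | ⟨rfl, _, h2, _⟩ | ⟨rfl, _, _, _, h2, _⟩
  · simpa [cutX] using h0
  · have e1 : cutX (1, (X, (b₀, c₀))) = X ++ [b₀] := by simp [cutX]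
    rw [e1]
    refine List.Nodup.append h0 (List.nodup_singleton _) ?_
    intro e h3 h4
    rw [List.mem_singleton] at h4
    exact h2 (h4 ▸ h3)
  · have e1 : cutX (2, (X, (b₀, c₀))) = X ++ [c₀] := by simp [cutX]
    rw [e1]
    refine List.Nodup.append h0 (List.nodup_singleton _) ?_
    intro e h3 h4
    rw [List.mem_singleton] at h4
    exact h2 (h4 ▸ h3)

private theorem cutX_sub {D : ℕ → ℕ → F4} {B N : Finset ℕ} {c : Cut} (hc : CutOK D B N c) :
    ∀ e ∈ cutX c, e ∈ B ∪ N := by
  obtain ⟨κ, X, b₀, c₀⟩ := c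
  obtain ⟨_, h1, h⟩ := hc
  simp only at h1 h
  intro e he
  rcases h with ⟨rfl, _⟩ | ⟨rfl, h2, _⟩ | ⟨rfl, _, _, h2, _⟩
  · have e1 : cutX (0, (X, (b₀, c₀))) = X := by simp [cutX]
    rw [e1] at he
    exact h1 (List.mem_toFinset.mpr he)
  · have e1 : cutX (1, (X, (b₀, c₀))) = X ++ [b₀] := by simp [cutX]
    rw [e1, List.mem_append, List.mem_singleton] at he
    rcases he with he | he
    · exact h1 (List.mem_toFinset.mpr he)
    · rw [he]; exact Finset.mem_union_left _ h2
  · have e1 : cutX (2, (X, (b₀, c₀))) = X ++ [c₀] := by simp [cutX]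
    rw [e1, List.mem_append, List.mem_singleton] at he
    rcases he with he | he
    · exact h1 (List.mem_toFinset.mpr he)
    · rw [he]; exact Finset.mem_union_right _ h2

private theorem cutY_sub {D : ℕ → ℕ → F4} {B N : Finset ℕ} {c : Cut} (hc : CutOK D B N c) {S : List ℕ}
    (hS : S.toFinset = B ∪ N) : ∀ e ∈ cutY S c, e ∈ S := by
  obtain ⟨κ, X, b₀, c₀⟩ := c
  obtain ⟨_, h1, h⟩ := hc
  simp only at h1 h
  intro e he
  rcases h with ⟨rfl, _⟩ | ⟨rfl, _, _, h2, _⟩ | ⟨rfl, h2, _⟩
  · have e1 : cutY S (0, (X, (b₀, c₀))) = dif S X := by simp [cutY]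
    rw [e1, mem_dif] at he
    exact he.1
  · have e1 : cutY S (1, (X, (b₀, c₀))) = dif S X ++ [c₀] := by simp [cutY]
    rw [e1, List.mem_append, List.mem_singleton, mem_dif] at he
    rcases he with he | he
    · exact he.1
    · rw [he, ← List.mem_toFinset, hS]; exact Finset.mem_union_right _ h2
  · have e1 : cutY S (2, (X, (b₀, c₀))) = dif S X ++ [b₀] := by simp [cutY]
    rw [e1, List.mem_append, List.mem_singleton, mem_dif] at he
    rcases he with he | he
    · exact he.1
    · rw [he, ← List.mem_toFinset, hS]; exact Finset.mem_union_left _ h2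

private theorem cutY_card {D : ℕ → ℕ → F4} {B N : Finset ℕ} {c : Cut} (hc : CutOK D B N c) {S : List ℕ}
    (hS : S.toFinset = B ∪ N) (hne : c.2.1 ≠ []) (h2 : c.1 = 0 ∨ 2 ≤ c.2.1.length) :
    (cutY S c).toFinset.card + 1 ≤ S.toFinset.card := by
  obtain ⟨κ, X, b₀, c₀⟩ := c
  obtain ⟨h0, h1, h⟩ := hc
  simp only at h0 h1 h hne h2
  have hXc : X.toFinset.card = X.length := List.toFinset_card_of_nodup h0
  have hXS : X.toFinset ⊆ S.toFinset := by rw [hS]; exact h1
  have hpos : 0 < X.length := List.length_pos_of_ne_nil hne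
  have hsd : (S.toFinset \ X.toFinset).card + X.length = S.toFinset.card := by
    rw [← hXc]
    exact Finset.card_sdiff_add_card_eq_card hXS
  rw [cutY_toFinset]
  rcases h with ⟨rfl, _⟩ | ⟨rfl, _⟩ | ⟨rfl, _⟩
  · simp only [show ¬ (0 : ℕ) = 1 by omega, show ¬ (0 : ℕ) = 2 by omega, if_false]
    omega
  · simp only [if_true]
    have h3 := Finset.card_insert_le c₀ (S.toFinset \ X.toFinset)
    rcases h2 with h2 | h2
    · omega
    · omega
  · simp only [show ¬ (2 : ℕ) = 1 by omega, if_false, if_true]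
    have h3 := Finset.card_insert_le b₀ (S.toFinset \ X.toFinset)
    rcases h2 with h2 | h2
    · omega
    · omega

private theorem peel_inv {D : ℕ → ℕ → F4} {T : List ℕ} {t : Tab} (h : TabOK D t)
    (h1 : t.1.1.toFinset = T.toFinset ∩ (gr t).toFinset)
    (h2 : t.1.2.toFinset = (gr t).toFinset \ T.toFinset) (i : ℕ) :
    Peeled D T (gr t) (gr ((peelStep)^[i] (t, [])).1) ((peelStep)^[i] (t, [])).2 ∧
    TabOK D ((peelStep)^[i] (t, [])).1 ∧
    ((peelStep)^[i] (t, [])).1.1.1.toFinset = T.toFinset ∩ (gr ((peelStep)^[i] (t, [])).1).toFinset ∧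
    ((peelStep)^[i] (t, [])).1.1.2.toFinset = (gr ((peelStep)^[i] (t, [])).1).toFinset \ T.toFinset ∧
    (seps ((peelStep)^[i] (t, [])).1 = [] ∨
      (gr ((peelStep)^[i] (t, [])).1).length + i ≤ (gr t).length) := by
  induction i with
  | zero => exact ⟨Peeled.nil, h, h1, h2, Or.inr (by simp)⟩
  | succ i ih =>
    rw [Function.iterate_succ_apply']
    generalize (peelStep)^[i] (t, []) = s at ih ⊢
    obtain ⟨t', l⟩ := s
    obtain ⟨i1, i2, i3, i4, i5⟩ := ih
    simp only at i1 i2 i3 i4 i5
    have hstep : peelStep (t', l) = if (seps t').isEmpty then (t', l) else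
      (resT t' (cutY (gr t') (cutOf t' (shortest (seps t')))),
        (cutOf t' (shortest (seps t')), cutY (gr t') (cutOf t' (shortest (seps t')))) :: l) := rfl
    rw [hstep]
    by_cases hs : seps t' = []
    · rw [hs]
      simp only [List.isEmpty_nil, if_true]
      exact ⟨i1, i2, i3, i4, Or.inl hs⟩
    · have hne : (seps t').isEmpty = false := by
        cases h5 : seps t' with
        | nil => exact absurd h5 hs
        | cons a b => rfl
      rw [hne]
      simp only [Bool.false_eq_true, if_false]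
      have hlen : (gr t').length + i ≤ (gr t).length := i5.resolve_left hs
      have hX := (shortest_spec (seps t') hs).1
      obtain ⟨c1, c2, c3⟩ := cutOf_spec i2 hX
      obtain ⟨x1, x2, x3, x4, _⟩ := seps_sound i2 hX
      have hleaf := leaf i2 hs
      generalize cutOf t' (shortest (seps t')) = c at c1 c2 c3 hleaf
      generalize shortest (seps t') = X at hX c2 c3 x1 x2 x3 x4
      have hgr : (gr t').toFinset = t'.1.1.toFinset ∪ t'.1.2.toFinset := gr_toFinset t'
      have hYs : ∀ e ∈ cutY (gr t') c, e ∈ gr t' := cutY_sub c1 hgr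
      have hXs : ∀ e ∈ cutX c, e ∈ gr t' := by
        intro e he
        rw [← List.mem_toFinset, hgr]
        exact cutX_sub c1 e he
      have hr : (resT t' (cutY (gr t') c)).1.1.toFinset = T.toFinset ∩ (cutY (gr t') c).toFinset := by
        show (nor t'.1.1 (cutY (gr t') c)).toFinset = _
        rw [nor_toFinset, i3]
        ext e
        simp only [Finset.mem_inter, List.mem_toFinset]
        exact ⟨fun h => ⟨h.2.1, h.1⟩, fun h => ⟨h.2, h.1, hYs e h.2⟩⟩
      have hc : (resT t' (cutY (gr t') c)).1.2.toFinset = (cutY (gr t') c).toFinset \ T.toFinset := by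
        show (nor t'.1.2 (cutY (gr t') c)).toFinset = _
        rw [nor_toFinset, i4]
        ext e
        simp only [Finset.mem_inter, Finset.mem_sdiff, List.mem_toFinset]
        exact ⟨fun h => ⟨h.1, h.2.2⟩, fun h => ⟨h.1, hYs e h.1, h.2⟩⟩
      have hg2 : (gr (resT t' (cutY (gr t') c))).toFinset = (cutY (gr t') c).toFinset := by
        rw [gr_toFinset, hr, hc]
        ext e
        simp only [Finset.mem_union, Finset.mem_inter, Finset.mem_sdiff]
        tauto
      have hT2 := tabOK_resT i2 (cutY (gr t') c)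
      refine ⟨?_, hT2, ?_, ?_, Or.inr ?_⟩
      · refine Peeled.cons i1 ?_ (cutX_nodup c1) hXs ?_ rfl hg2 hT2.gr_nodup ?_
        · rw [← i3, ← i4]; exact c1
        · rcases hleaf with h5 | h5
          · exact Or.inl h5
          · right
            have e1 : t'.1.1.toFinset ∩ (cutX c).toFinset = T.toFinset ∩ (cutX c).toFinset := by
              rw [i3]
              ext e
              simp only [Finset.mem_inter, List.mem_toFinset]
              exact ⟨fun h => ⟨h.1.1, h.2⟩, fun h => ⟨⟨h.1, hXs e h.2⟩, h.2⟩⟩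
            have e2 : t'.1.2.toFinset ∩ (cutX c).toFinset = (cutX c).toFinset \ T.toFinset := by
              rw [i4]
              ext e
              simp only [Finset.mem_inter, Finset.mem_sdiff, List.mem_toFinset]
              exact ⟨fun h => ⟨h.2, h.1.2⟩, fun h => ⟨⟨hXs e h.1, h.2⟩, h.1⟩⟩
            rw [e1, e2] at h5
            exact h5
        · intro e he
          rw [← List.mem_toFinset, hg2, List.mem_toFinset] at he
          exact hYs e he
      · rw [hr, hg2]
      · rw [hc, hg2]
      · have hcard := cutY_card c1 hgr (by rw [c2]; exact x2) (by rw [c2]; exact c3)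
        have l1 : (gr (resT t' (cutY (gr t') c))).length = (cutY (gr t') c).toFinset.card := by
          rw [← hg2]
          exact (List.toFinset_card_of_nodup hT2.gr_nodup).symm
        have l2 : (gr t').length = (gr t').toFinset.card := (List.toFinset_card_of_nodup i2.gr_nodup).symm
        omega

theorem peel_spec {D : ℕ → ℕ → F4} {T : List ℕ} {t : Tab} (h : TabOK D t)
    (h1 : t.1.1.toFinset = T.toFinset ∩ (gr t).toFinset)
    (h2 : t.1.2.toFinset = (gr t).toFinset \ T.toFinset) :
    Peeled D T (gr t) (gr (peel t).1) (peel t).2 ∧ TabOK D (peel t).1 ∧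
    (peel t).1.1.1.toFinset = T.toFinset ∩ (gr (peel t).1).toFinset ∧
    (peel t).1.1.2.toFinset = (gr (peel t).1).toFinset \ T.toFinset ∧
    seps (peel t).1 = [] := by
  obtain ⟨i1, i2, i3, i4, i5⟩ := peel_inv h h1 h2 (gr t).length
  refine ⟨i1, i2, i3, i4, ?_⟩
  rcases i5 with h5 | h5
  · exact h5
  · by_contra hne
    obtain ⟨X, l, hX⟩ := List.exists_cons_of_ne_nil hne
    have hXm : X ∈ seps (peel t).1 := by rw [hX]; exact List.mem_cons_self
    have h6 := (seps_sound i2 hXm).2.2.2.1
    omega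

/-- every piece of the decomposition is a list without repetitions of elements of `S₀` -/
theorem Peeled.sub {D : ℕ → ℕ → F4} {T S₀ S : List ℕ} {l : List (Cut × List ℕ)}
    (h : Peeled D T S₀ S l) : (∀ e ∈ S, e ∈ S₀) ∧ ∀ c ∈ l, (cutX c.1).Nodup ∧
      (∀ e ∈ cutX c.1, e ∈ S₀) ∧ ((cutX c.1).length ≤ 3 ∨
        C3 D (T.toFinset ∩ (cutX c.1).toFinset) ((cutX c.1).toFinset \ T.toFinset)) := by
  induction h with
  | nil => exact ⟨fun e he => he, fun c hc => by simp at hc⟩
  | cons h hc hn hs hl hSY hS' hnd hsub ih =>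
    refine ⟨fun e he => ih.1 e (hsub e he), fun c' hc' => ?_⟩
    rcases List.mem_cons.mp hc' with rfl | h5
    · exact ⟨hn, fun e he => ih.1 e (hs e he), hl⟩
    · exact ih.2 c' h5

theorem fold_spec {D : ℕ → ℕ → F4} {T S₀ S : List ℕ} {l : List (Cut × List ℕ)}
    (h : Peeled D T S₀ S l) (pc : List ℕ → Mx)
    (hp : ∀ c ∈ l, EqM D (ent (pc (cutX c.1))) (T.toFinset ∩ (cutX c.1).toFinset)
      ((cutX c.1).toFinset \ T.toFinset))
    (D₀ : Mx) (h0 : EqM D (ent D₀) (T.toFinset ∩ S.toFinset) (S.toFinset \ T.toFinset)) :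
    EqM D (ent ((l.map fun c => (c, pc (cutX c.1))).foldl
      (fun D c => glueM T c.1.1 c.1.2 c.2 D) D₀))
      (T.toFinset ∩ S₀.toFinset) (S₀.toFinset \ T.toFinset) := by
  induction h generalizing D₀ with
  | nil => exact h0
  | cons h hc hn hs hl hSY hS' hnd hsub ih =>
    rw [List.map_cons, List.foldl_cons]
    refine ih (fun c' hc' => hp c' (List.mem_cons_of_mem _ hc')) _ ?_
    rw [hS'] at h0
    exact glue_spec hc hSY (hp _ List.mem_cons_self) h0

end Pool.Agent.G4
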