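import Pool.Agent.G4.Eqv

set_option autoImplicit false

/-!
# Module P1: binary and small matrices

* `bin_small`: `B.card ≤ 1` or `N.card ≤ 1`. If `B = {b}` take `κ n = (D b n)⁻¹` if `D b n ≠ 0` and `1`
otherwise, `ρ = 1`; `B = ∅` is trivial; similarly for `N`.
* `supp_eqM`: let `ρ`, `κ` be as in `Bin`; `ρ b * D b n * κ n` is `0` iff `D b n = 0`, otherwise it is
`1`, so it is `D' b n`: `Eqv D D' B N` and `Eqv.eqM`.
-/

namespace Pool.Agent.G4

open F4 Finset

variable {D D' : ℕ → ℕ → F4} {B N : Finset ℕ}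

private theorem p1_fld : ∀ d : F4, (if d = 0 then (1 : F4) else d⁻¹) ≠ 0 ∧
    (1 * d * (if d = 0 then (1 : F4) else d⁻¹) = 0 ∨
      1 * d * (if d = 0 then (1 : F4) else d⁻¹) = 1) ∧
    ((if d = 0 then (1 : F4) else d⁻¹) * d * 1 = 0 ∨
      (if d = 0 then (1 : F4) else d⁻¹) * d * 1 = 1) := by
  decide

theorem bin_small (h : B.card + N.card ≤ 3) : Bin D B N := by
  have h1 : B.card ≤ 1 ∨ N.card ≤ 1 := by omega
  rcases h1 with h1 | h1
  · obtain ⟨x, hx⟩ := Finset.card_le_one_iff_subset_singleton.1 h1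
    refine ⟨fun _ => 1, fun n => if D x n = 0 then 1 else (D x n)⁻¹,
      fun e => ⟨one_ne_zero, (p1_fld (D x e)).1⟩, fun b hb n _ => ?_⟩
    have hbx : b = x := Finset.mem_singleton.1 (hx hb)
    subst hbx
    exact (p1_fld (D b n)).2.1
  · obtain ⟨x, hx⟩ := Finset.card_le_one_iff_subset_singleton.1 h1
    refine ⟨fun b => if D b x = 0 then 1 else (D b x)⁻¹, fun _ => 1,
      fun e => ⟨(p1_fld (D e x)).1, one_ne_zero⟩, fun b _ n hn => ?_⟩
    have hnx : n = x := Finset.mem_singleton.1 (hx hn)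
    subst hnx
    exact (p1_fld (D b n)).2.2

theorem supp_eqM (hd : Disjoint B N) (h : Bin D B N)
    (hD' : ∀ b ∈ B, ∀ n ∈ N, D' b n = if D b n = 0 then 0 else 1) : EqM D D' B N := by
  obtain ⟨ρ, κ, h0, h1⟩ := h
  have hE : Eqv D D' B N := by
    refine ⟨ρ, κ, h0, Or.inl fun b hb n hn => ?_⟩
    rw [hD' b hb n hn]
    have key : ∀ r d k : F4, r ≠ 0 → k ≠ 0 → (r * d * k = 0 ∨ r * d * k = 1) →
        (if d = 0 then (0 : F4) else 1) = r * d * k := by decide
    exact key (ρ b) (D b n) (κ n) (h0 b).1 (h0 n).2 (h1 b hb n hn)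
  exact hE.eqM hd

end Pool.Agent.G4
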