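import Pool.Agent.G4.Fld

set_option autoImplicit false

/-!
# Module B4a: connectivity of matrices

`Sep2 D B N X` says that the matrix with entries `D b n` (when `b`, `n` are on different sides of
`X`) and `0` (same side) has rank at most one, i.e. one of the two off-diagonal blocks is zero and
the other one has rank at most one.
-/

namespace Pool.Agent.G4

open F4 Finset

variable {D : ℕ → ℕ → F4} {B N X : Finset ℕ}

/-- one block zero, 2x2 minors of the other block zero -/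
def One (D : ℕ → ℕ → F4) (B N X : Finset ℕ) : Prop :=
  (∀ b ∈ B, ∀ n ∈ N, b ∈ X → n ∉ X → D b n = 0) ∧
  ∀ b ∈ B, ∀ b' ∈ B, ∀ n ∈ N, ∀ n' ∈ N, b ∉ X → b' ∉ X → n ∈ X → n' ∈ X →
    D b n * D b' n' = D b n' * D b' n

private theorem side_iff {b n : ℕ} (hb : b ∈ B) (hn : n ∈ N) :
    (b ∈ (B ∪ N) \ X ↔ n ∈ (B ∪ N) \ X) ↔ (b ∈ X ↔ n ∈ X) := by
  simp only [mem_sdiff, mem_union, hb, hn, true_or, or_true, true_and]
  tauto

theorem sep1_compl : Sep1 D B N ((B ∪ N) \ X) ↔ Sep1 D B N X := by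
  unfold Sep1
  constructor
  · intro h b hb n hn
    exact (h b hb n hn).imp_left (side_iff hb hn).1
  · intro h b hb n hn
    exact (h b hb n hn).imp_left (side_iff hb hn).2

theorem sep2_compl : Sep2 D B N ((B ∪ N) \ X) ↔ Sep2 D B N X := by
  unfold Sep2
  constructor
  · rintro ⟨u, w, h⟩
    refine ⟨u, w, fun b hb n hn => ?_⟩
    rw [← h b hb n hn]
    exact if_congr (side_iff hb hn).symm rfl rfl
  · rintro ⟨u, w, h⟩
    refine ⟨u, w, fun b hb n hn => ?_⟩
    rw [← h b hb n hn]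
    exact if_congr (side_iff hb hn) rfl rfl

private theorem sep2_of_one (h : One D B N X) : Sep2 D B N X := by
  classical
  by_cases hall : ∃ b ∈ B, ∃ n ∈ N, b ∉ X ∧ n ∈ X ∧ D b n ≠ 0
  · obtain ⟨b₀, hb₀, n₀, hn₀, hbX, hnX, hne⟩ := hall
    refine ⟨fun b => if b ∈ X then 0 else D b n₀,
      fun n => if n ∈ X then D b₀ n * (D b₀ n₀)⁻¹ else 0, fun b hb n hn => ?_⟩
    by_cases h1 : b ∈ X <;> by_cases h2 : n ∈ X
    · simp [h1, h2]
    · simp [h1, h2, h.1 b hb n hn h1 h2]
    · simp only [h1, h2, if_true, if_false, iff_true]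
      have h3 := h.2 b hb b₀ hb₀ n hn n₀ hn₀ h1 hbX h2 hnX
      rw [← mul_assoc, ← h3, mul_assoc, mul_inv_cancel₀ hne, mul_one]
    · simp [h1, h2]
  · push Not at hall
    refine ⟨fun _ => 0, fun _ => 0, fun b hb n hn => ?_⟩
    rw [mul_zero]
    by_cases h1 : b ∈ X <;> by_cases h2 : n ∈ X
    · simp [h1, h2]
    · simp [h1, h2, h.1 b hb n hn h1 h2]
    · simp [h1, h2, hall b hb n hn h1 h2]
    · simp [h1, h2]

theorem sep2_iff : Sep2 D B N X ↔ One D B N X ∨ One D B N ((B ∪ N) \ X) := by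
  constructor
  · rintro ⟨u, w, h⟩
    have hd : ∀ b ∈ B, ∀ n ∈ N, ¬ (b ∈ X ↔ n ∈ X) → D b n = u b * w n := by
      intro b hb n hn hbn
      rw [← h b hb n hn, if_neg hbn]
    have hs : ∀ b ∈ B, ∀ n ∈ N, (b ∈ X ↔ n ∈ X) → u b * w n = 0 := by
      intro b hb n hn hbn
      rw [← h b hb n hn, if_pos hbn]
    by_cases hall : ∃ b ∈ B, ∃ n ∈ N, b ∉ X ∧ n ∈ X ∧ D b n ≠ 0
    · obtain ⟨b₀, hb₀, n₀, hn₀, hbX, hnX, hne⟩ := hall
      left
      have h0 := hd b₀ hb₀ n₀ hn₀ (by tauto)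
      have hw : w n₀ ≠ 0 := by
        intro hw
        rw [hw, mul_zero] at h0
        exact hne h0
      refine ⟨fun b hb n hn h1 h2 => ?_, fun b hb b' hb' n hn n' hn' h1 h2 h3 h4 => ?_⟩
      · have h5 := hs b hb n₀ hn₀ (by tauto)
        have h6 : u b = 0 := (mul_eq_zero.1 h5).resolve_right hw
        rw [hd b hb n hn (by tauto), h6, zero_mul]
      · rw [hd b hb n hn (by tauto), hd b' hb' n' hn' (by tauto), hd b hb n' hn' (by tauto),
          hd b' hb' n hn (by tauto)]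
        ring
    · push Not at hall
      right
      refine ⟨fun b hb n hn h1 h2 => ?_, fun b hb b' hb' n hn n' hn' h1 h2 h3 h4 => ?_⟩
      · have h1' : b ∉ X := (mem_sdiff.1 h1).2
        have h2' : n ∈ X := by
          by_contra h3
          exact h2 (mem_sdiff.2 ⟨mem_union_right _ hn, h3⟩)
        exact hall b hb n hn h1' h2'
      · have a1 : b ∈ X := by
          by_contra h5
          exact h1 (mem_sdiff.2 ⟨mem_union_left _ hb, h5⟩)
        have a2 : b' ∈ X := by
          by_contra h5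
          exact h2 (mem_sdiff.2 ⟨mem_union_left _ hb', h5⟩)
        have a3 : n ∉ X := (mem_sdiff.1 h3).2
        have a4 : n' ∉ X := (mem_sdiff.1 h4).2
        rw [hd b hb n hn (by tauto), hd b' hb' n' hn' (by tauto), hd b hb n' hn' (by tauto),
          hd b' hb' n hn (by tauto)]
        ring
  · rintro (h | h)
    · exact sep2_of_one h
    · exact sep2_compl.1 (sep2_of_one h)

theorem sep1_trD : Sep1 (trD D) N B X ↔ Sep1 D B N X := by
  unfold Sep1 trD
  constructor
  · intro h b hb n hn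
    exact (h n hn b hb).imp_left Iff.symm
  · intro h b hb n hn
    exact (h n hn b hb).imp_left Iff.symm

theorem sep2_trD : Sep2 (trD D) N B X ↔ Sep2 D B N X := by
  unfold Sep2 trD
  constructor
  · rintro ⟨u, w, h⟩
    refine ⟨w, u, fun b hb n hn => ?_⟩
    rw [mul_comm, ← h n hn b hb]
    exact if_congr Iff.comm rfl rfl
  · rintro ⟨u, w, h⟩
    refine ⟨w, u, fun b hb n hn => ?_⟩
    rw [mul_comm, ← h n hn b hb]
    exact if_congr Iff.comm rfl rfl

theorem C3.trD (h : C3 D B N) : C3 (trD D) N B := by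
  obtain ⟨h1, h2, h3⟩ := h
  rw [union_comm] at h1
  refine ⟨h1, fun X hX hs => ?_, fun X hX hs => ?_⟩
  · rw [union_comm N B] at hX ⊢
    exact h2 X hX (sep1_trD.1 hs)
  · rw [union_comm N B] at hX ⊢
    exact h3 X hX (sep2_trD.1 hs)

end Pool.Agent.G4
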