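import Pool.Agent.G4.R1

set_option autoImplicit false

/-!
# Module R1b: congruence, minors and duality for `Conn3`, `U24`, `Nice`, `Rep1`

* `*_congr`: all sets which occur in the definitions are subsets of `S`
  (`ctr r C X = r (C ∪ X) - r C` with `C ∪ X ⊆ S`).
* `U24.of_minor`: witness `(C₀ ∪ C, Z)`, `ctr (ctr r C₀) C X = ctr r (C₀ ∪ C) X` (`ctr_ctr`).
* `U24.dual`: witness `((S \ C) \ Z, Z)`: by `ctr_dual`
  `ctr (dualR r S) ((S \ C) \ Z) X = dualR r (C ∪ Z) X = |X| + r ((C ∪ Z) \ X) - r (C ∪ Z)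
   = |X| + ctr r C (Z \ X) - ctr r C Z = |X| + min (4 - |X|) 2 - 2 = min |X| 2`.
* `Conn3.dual`, `Nice.dual`, `Rep1.dual`: `lam_dual`; the `of_dual` versions with `dual_dual` and the
  congruence lemmas (`IsRk.dual`).
* consequences of `Conn3`: `rank_two`: `lam r S {a, b} ≥ 2` and `r (S \ {a, b}) ≤ r S`, so
  `r {a, b} ≥ 2`. `rank_one`, `corank`: from `rank_two` and monotonicity; for `corank`:
  `r {a, b} + r (S \ {a, b}) - r S ≥ 2` and `r {a, b} ≤ 2`.
* `Conn3.conn_erase`: `lam_erase` and `Conn3` (if `X` has one element then the complement in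
  `S.erase e` has at least two; use the complement, `lam_compl`).
-/

namespace Pool.Agent.G4

open Finset

variable {r r' : Finset ℕ → ℤ} {S S' X Y Z A B C R : Finset ℕ} {a b e : ℕ}

theorem lam_congr' (h : ∀ X ⊆ S, r X = r' X) (hX : X ⊆ S) : lam r S X = lam r' S X := by
  unfold lam
  rw [h X hX, h _ sdiff_subset, h S subset_rfl]

theorem Conn3.congr (h : ∀ X ⊆ S, r X = r' X) : Conn3 r S ↔ Conn3 r' S := by
  unfold Conn3
  refine and_congr_right fun _ => forall_congr' fun X => forall_congr' fun hX => ?_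
  rw [lam_congr' h hX]

theorem U24.congr (h : ∀ X ⊆ S, r X = r' X) : U24 r S ↔ U24 r' S := by
  unfold U24
  refine exists_congr fun C => exists_congr fun Z => ?_
  refine and_congr_right fun hC => and_congr_right fun hZ => and_congr_right fun _ =>
    and_congr_right fun _ => forall_congr' fun X => forall_congr' fun hX => ?_
  unfold Pool.Agent.G4.ctr
  rw [h _ (union_subset hC (hX.trans hZ)), h C hC]

theorem Nice.congr (h : ∀ X ⊆ S, r X = r' X) : Nice r S ↔ Nice r' S := by
  unfold Nice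
  rw [U24.congr h]
  refine and_congr_right fun _ => ?_
  refine and_congr ?_ (and_congr ?_ ?_)
  · refine forall_congr' fun X => forall_congr' fun hX => ?_
    rw [lam_congr' h hX]
  · refine forall_congr' fun X => forall_congr' fun hX => ?_
    rw [lam_congr' h hX]
  · refine forall_congr' fun a => forall_congr' fun ha => forall_congr' fun b =>
      forall_congr' fun hb => forall_congr' fun c => forall_congr' fun hc => ?_
    rw [lam_congr' h (insert_subset ha (singleton_subset_iff.2 hb)),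
      lam_congr' h (insert_subset hb (singleton_subset_iff.2 hc))]

theorem Rep1.congr (h : ∀ X ⊆ S, r X = r' X) : Rep1 r S R ↔ Rep1 r' S R := by
  unfold Rep1
  refine and_congr_right fun hR => and_congr ?_ ?_
  · refine forall_congr' fun b => forall_congr' fun hb => exists_congr fun a =>
      and_congr_right fun ha => ?_
    rw [lam_congr' h (insert_subset ha (singleton_subset_iff.2 (hR hb)))]
  · refine forall_congr' fun a => forall_congr' fun ha => forall_congr' fun b =>
      forall_congr' fun hb => ?_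
    rw [lam_congr' h (insert_subset ha (singleton_subset_iff.2 hb))]

theorem U24.mono (h : U24 r S) (hS : S ⊆ S') : U24 r S' := by
  obtain ⟨C, Z, hC, hZ, hd, h4, hu⟩ := h
  exact ⟨C, Z, hC.trans hS, hZ.trans hS, hd, h4, hu⟩

theorem U24.of_minor (h : U24 (ctr r C) S) (hC : C ⊆ S') (hS : S ⊆ S') (hd : Disjoint C S) :
    U24 r S' := by
  obtain ⟨C₀, Z, hC₀, hZ, hd₀, h4, hu⟩ := h
  refine ⟨C ∪ C₀, Z, union_subset hC (hC₀.trans hS), hZ.trans hS, ?_, h4, fun X hX => ?_⟩
  · exact disjoint_union_left.2 ⟨disjoint_of_subset_right hZ hd, hd₀⟩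
  · rw [← ctr_ctr, hu X hX]

/-- the witness of the dual -/
theorem dual_wit (hC : C ⊆ S) (hZ : Z ⊆ S) (hd : Disjoint C Z) (h4 : Z.card = 4)
    (hu : ∀ X ⊆ Z, ctr r C X = min (X.card : ℤ) 2) (hX : X ⊆ Z) :
    ctr (dualR r S) ((S \ C) \ Z) X = min (X.card : ℤ) 2 := by
  have e1 : S \ ((S \ C) \ Z ∪ X) = C ∪ (Z \ X) := by
    ext x
    have h1 := @hC x
    have h2 := @hZ x
    have h3 := @hX x
    have h4 : x ∈ C → x ∉ Z := fun h5 h6 => (disjoint_left.1 hd) h5 h6
    simp only [mem_sdiff, mem_union]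
    tauto
  have e2 : S \ ((S \ C) \ Z) = C ∪ Z := by
    ext x
    have h1 := @hC x
    have h2 := @hZ x
    simp only [mem_sdiff, mem_union]
    tauto
  have e3 : (((S \ C) \ Z ∪ X) ∩ S) = (S \ C) \ Z ∪ X := by
    ext x
    have h2 := @hZ x
    have h3 := @hX x
    simp only [mem_sdiff, mem_union, mem_inter]
    tauto
  have e4 : (((S \ C) \ Z) ∩ S) = (S \ C) \ Z := by
    ext x
    simp only [mem_sdiff, mem_inter]
    tauto
  have e5 : ((S \ C) \ Z ∪ X).card = ((S \ C) \ Z).card + X.card :=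
    card_union_of_disjoint (disjoint_of_subset_right hX sdiff_disjoint)
  have f1 := hu (Z \ X) sdiff_subset
  have f2 := hu Z subset_rfl
  have f3 : (Z \ X).card = Z.card - X.card := card_sdiff_of_subset hX
  have f4 := card_le_card hX
  unfold Pool.Agent.G4.ctr dualR at *
  rw [e1, e2, e3, e4, e5]
  push_cast
  rw [f3, h4] at f1
  rw [h4] at f2
  rw [h4] at f4
  have f5 : ((4 - X.card : ℕ) : ℤ) = 4 - (X.card : ℤ) := by omega
  rw [f5] at f1
  have f6 : (min ((4 : ℕ) : ℤ) 2) = 2 := by norm_num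
  rw [f6] at f2
  have f7 : min (4 - (X.card : ℤ)) 2 - 2 + (X.card : ℤ) = min (X.card : ℤ) 2 := by
    rcases le_total (4 - (X.card : ℤ)) 2 with h5 | h5 <;>
      rcases le_total (X.card : ℤ) 2 with h6 | h6 <;>
      simp only [min_eq_left, min_eq_right, h5, h6] <;> omega
  linarith

theorem U24.dual (h : U24 r S) : U24 (dualR r S) S := by
  obtain ⟨C, Z, hC, hZ, hd, h4, hu⟩ := h
  exact ⟨(S \ C) \ Z, Z, sdiff_subset.trans sdiff_subset, hZ, sdiff_disjoint, h4,
    fun X hX => dual_wit hC hZ hd h4 hu hX⟩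

theorem Conn3.dual (hr : IsRk r) (h : Conn3 r S) : Conn3 (dualR r S) S := by
  refine ⟨h.1, fun X hX h1 h2 => ?_⟩
  rw [lam_dual hr hX]
  exact h.2 X hX h1 h2

theorem Nice.dual (hr : IsRk r) (h : Nice r S) : Nice (dualR r S) S := by
  obtain ⟨h1, h2, h3, h4⟩ := h
  refine ⟨h1.dual, fun X hX => ?_, fun X hX => ?_, fun a ha b hb c hc => ?_⟩
  · rw [lam_dual hr hX]
    exact h2 X hX
  · rw [lam_dual hr hX]
    exact h3 X hX
  · rw [lam_dual hr (insert_subset ha (singleton_subset_iff.2 hb)),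
      lam_dual hr (insert_subset hb (singleton_subset_iff.2 hc))]
    exact h4 a ha b hb c hc

theorem Rep1.dual (hr : IsRk r) (h : Rep1 r S R) : Rep1 (dualR r S) S R := by
  obtain ⟨h1, h2, h3⟩ := h
  refine ⟨h1, fun b hb => ?_, fun a ha b hb => ?_⟩
  · obtain ⟨a, ha, h4, h5, h6⟩ := h2 b hb
    refine ⟨a, ha, h4, h5, ?_⟩
    rw [lam_dual hr (insert_subset ha (singleton_subset_iff.2 (h1 hb)))]
    exact h6
  · rw [lam_dual hr (insert_subset ha (singleton_subset_iff.2 hb))]
    exact h3 a ha b hb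

theorem U24.of_dual (hr : IsRk r) (h : U24 (dualR r S) S) : U24 r S :=
  (U24.congr fun _ hX => dual_dual hr hX).1 h.dual

theorem Conn3.of_dual (hr : IsRk r) (h : Conn3 (dualR r S) S) : Conn3 r S :=
  (Conn3.congr fun _ hX => dual_dual hr hX).1 (h.dual (hr.dual S))

theorem Nice.of_dual (hr : IsRk r) (h : Nice (dualR r S) S) : Nice r S :=
  (Nice.congr fun _ hX => dual_dual hr hX).1 (h.dual (hr.dual S))

theorem Conn3.pair_lam (h : Conn3 r S) (ha : a ∈ S) (hb : b ∈ S) (hab : a ≠ b) :
    2 ≤ lam r S {a, b} := by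
  have hs : {a, b} ⊆ S := insert_subset ha (singleton_subset_iff.2 hb)
  have h1 : ({a, b} : Finset ℕ).card = 2 := card_pair hab
  have h2 : (S \ {a, b}).card = S.card - 2 := by rw [card_sdiff_of_subset hs, h1]
  have h3 := h.1
  have h4 : 2 ≤ (S \ {a, b}).card := by omega
  exact (h.2 {a, b} hs (insert_nonempty _ _) (card_pos.1 (by omega))).2 h1.ge h4

theorem Conn3.rank_two (hr : IsRk r) (h : Conn3 r S) (ha : a ∈ S) (hb : b ∈ S) (hab : a ≠ b) :
    r {a, b} = 2 := by
  have h1 := h.pair_lam ha hb hab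
  have h2 : ({a, b} : Finset ℕ).card = 2 := card_pair hab
  have h3 := hr.le_card {a, b}
  have h4 : r (S \ {a, b}) ≤ r S := hr.mono' sdiff_subset
  rw [h2] at h3
  unfold lam at h1
  push_cast at h3
  linarith

theorem Conn3.rank_one (hr : IsRk r) (h : Conn3 r S) (ha : a ∈ S) : r {a} = 1 := by
  have h1 : 1 < S.card := by
    have := h.1
    omega
  obtain ⟨b, hb, hba⟩ := exists_mem_ne h1 a
  have h2 := h.rank_two hr ha hb hba.symm
  have h3 := hr.unit {a} b
  have h4 : insert b {a} = ({a, b} : Finset ℕ) := by rw [pair_comm]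
  rw [h4, h2] at h3
  have h5 := hr.le_card {a}
  rw [card_singleton] at h5
  push_cast at h5
  linarith

theorem Conn3.corank (hr : IsRk r) (h : Conn3 r S) (ha : a ∈ S) (hb : b ∈ S) :
    r (S \ {a, b}) = r S := by
  have h4 : r (S \ {a, b}) ≤ r S := hr.mono' sdiff_subset
  by_cases hab : a = b
  · subst hab
    have h5 : ({a, a} : Finset ℕ) = {a} := by simp
    rw [h5] at h4 ⊢
    have h6 : (S \ {a}).Nonempty := by
      rw [← card_pos, card_sdiff_of_subset (singleton_subset_iff.2 ha), card_singleton]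
      have := h.1
      omega
    have h7 := (h.2 {a} (singleton_subset_iff.2 ha) (singleton_nonempty a) h6).1
    have h8 := h.rank_one hr ha
    unfold lam at h7
    linarith
  · have h1 := h.pair_lam ha hb hab
    have h2 := h.rank_two hr ha hb hab
    unfold lam at h1
    linarith

theorem Conn3.conn_erase (hr : IsRk r) (h : Conn3 r S) (he : e ∈ S) (hX : X ⊆ S.erase e)
    (h1 : X.Nonempty) (h2 : (S.erase e \ X).Nonempty) : 1 ≤ lam r (S.erase e) X := by
  -- the same for sets with at least two elements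
  have key : ∀ Y : Finset ℕ, Y ⊆ S.erase e → 2 ≤ Y.card → (S.erase e \ Y).Nonempty →
      1 ≤ lam r (S.erase e) Y := by
    intro Y hY hc hne
    have h3 := (lam_erase hr he hY).2
    have hYS : Y ⊆ S := hY.trans (erase_subset _ _)
    obtain ⟨z, hz⟩ := hne
    rw [mem_sdiff, mem_erase] at hz
    have h4 : ({e, z} : Finset ℕ) ⊆ S \ Y := by
      intro x hx
      rw [mem_insert, mem_singleton] at hx
      rw [mem_sdiff]
      rcases hx with rfl | rfl
      · exact ⟨he, fun h5 => (mem_erase.1 (hY h5)).1 rfl⟩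
      · exact ⟨hz.1.2, hz.2⟩
    have h5 : 2 ≤ (S \ Y).card := by
      rw [← card_pair (show e ≠ z from fun h6 => hz.1.1 h6.symm)]
      exact card_le_card h4
    have h6 := (h.2 Y hYS (card_pos.1 (by omega)) (card_pos.1 (by omega))).2 hc h5
    linarith
  by_cases hc : 2 ≤ X.card
  · exact key X hX hc h2
  · rw [← lam_compl hX]
    apply key _ sdiff_subset
    · rw [card_sdiff_of_subset hX, card_erase_of_mem he]
      have := h.1
      omega
    · rw [Finset.sdiff_sdiff_eq_self hX]
      exact h1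

end Pool.Agent.G4
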