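import Pool.Agent.G4.Br2
import Pool.Agent.G4.Conn
import Pool.Agent.G4.R1b

set_option autoImplicit false

/-!
# Module Br3: connectivity of the matrix is connectivity of the rank function

`rows = T ∩ S`, `columns = S \ T`. PROOF. `rk_formula` for `X`, `S \ X` and `S`:
`lam = |X ∩ T| + brk ((T ∩ S) \ X) (X \ T) + |(S \ X) ∩ T| + brk (T ∩ X) ((S \ X) \ T) - |S ∩ T| - 0`
(`brk D ∅ _ = 0` by `brk_zero`), which is `lam_eq`.
`sep1_iff_lam`: both blocks vanish (`brk_zero`, `brk_nonneg`).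
`sep2_iff_lam`: `sep2_iff` (module Conn), `brk_zero`, `brk_one`: the sum of two nonnegative integers is
at most one iff one is `≤ 0` and the other `≤ 1`.
`c3_iff_conn3`: `(T ∩ S) ∪ (S \ T) = S`; definitions.
`c3_base`: two bases with the same part outside `S`: both sides are `Conn3` of the same function.
`sep2_base`: the same with `sep2_iff_lam`.
-/

namespace Pool.Agent.G4

open F4 Finset

section

variable {V : Type} [AddCommGroup V] [Module F4 V] {v : ℕ → V} {E T T' S X : Finset ℕ}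
  {D D' : ℕ → ℕ → F4}

private theorem brk_empty {R C : Finset ℕ} (h : R = ∅) : brk D R C = 0 := by
  have h1 : brk D R C ≤ 0 := by
    rw [brk_zero]
    intro b hb
    rw [h] at hb
    simp at hb
  have h2 : 0 ≤ brk D R C := brk_nonneg
  omega

theorem lam_eq (hD : IsD v E T D) (hS : S ⊆ E) (hX : X ⊆ S) :
    lam (ctr (rkv v) (T \ S)) S X =
      brk D ((T ∩ S) \ X) (X \ T) + brk D (T ∩ X) ((S \ X) \ T) := by
  have h1 := rk_formula hD hS hX
  have h2 := rk_formula hD hS (X := S \ X) Finset.sdiff_subset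
  have h3 := rk_formula hD hS (X := S) (Finset.Subset.refl S)
  have e1 : (T ∩ S) \ (S \ X) = T ∩ X := by
    ext x
    simp only [Finset.mem_sdiff, Finset.mem_inter]
    constructor
    · rintro ⟨⟨a, b⟩, c⟩
      refine ⟨a, ?_⟩
      by_contra h
      exact c ⟨b, h⟩
    · rintro ⟨a, b⟩
      exact ⟨⟨a, hX b⟩, fun h => h.2 b⟩
  have e2 : (T ∩ S) \ S = ∅ := by
    rw [Finset.sdiff_eq_empty_iff_subset]
    exact Finset.inter_subset_right
  have e3 : (X ∩ T).card + ((S \ X) ∩ T).card = (S ∩ T).card := by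
    have : (S ∩ T) = (X ∩ T) ∪ ((S \ X) ∩ T) := by
      ext x
      simp only [Finset.mem_sdiff, Finset.mem_inter, Finset.mem_union]
      constructor
      · rintro ⟨a, b⟩
        by_cases h : x ∈ X
        · exact Or.inl ⟨h, b⟩
        · exact Or.inr ⟨⟨a, h⟩, b⟩
      · rintro (⟨a, b⟩ | ⟨⟨a, -⟩, b⟩)
        · exact ⟨hX a, b⟩
        · exact ⟨a, b⟩
    rw [this, Finset.card_union_of_disjoint]
    rw [Finset.disjoint_left]
    intro x hx hx2
    rw [Finset.mem_inter] at hx hx2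
    rw [Finset.mem_sdiff] at hx2
    exact hx2.1.2 hx.1
  rw [e1] at h2
  rw [brk_empty e2] at h3
  unfold lam
  rw [h1, h2, h3]
  omega

private theorem blk1 (hX : X ⊆ S) : brk D ((T ∩ S) \ X) (X \ T) ≤ 0 ↔
    ∀ b ∈ T ∩ S, ∀ n ∈ S \ T, b ∉ X → n ∈ X → D b n = 0 := by
  rw [brk_zero]
  constructor
  · intro h b hb n hn hbX hnX
    rw [Finset.mem_sdiff] at hn
    exact h b (Finset.mem_sdiff.2 ⟨hb, hbX⟩) n (Finset.mem_sdiff.2 ⟨hnX, hn.2⟩)
  · intro h b hb n hn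
    rw [Finset.mem_sdiff] at hb hn
    exact h b hb.1 n (Finset.mem_sdiff.2 ⟨hX hn.1, hn.2⟩) hb.2 hn.1

private theorem blk2 (hX : X ⊆ S) : brk D (T ∩ X) ((S \ X) \ T) ≤ 0 ↔
    ∀ b ∈ T ∩ S, ∀ n ∈ S \ T, b ∈ X → n ∉ X → D b n = 0 := by
  rw [brk_zero]
  constructor
  · intro h b hb n hn hbX hnX
    rw [Finset.mem_sdiff] at hn
    rw [Finset.mem_inter] at hb
    exact h b (Finset.mem_inter.2 ⟨hb.1, hbX⟩) n
      (Finset.mem_sdiff.2 ⟨Finset.mem_sdiff.2 ⟨hn.1, hnX⟩, hn.2⟩)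
  · intro h b hb n hn
    rw [Finset.mem_inter] at hb
    rw [Finset.mem_sdiff, Finset.mem_sdiff] at hn
    exact h b (Finset.mem_inter.2 ⟨hb.1, hX hb.2⟩) n (Finset.mem_sdiff.2 ⟨hn.1.1, hn.2⟩) hb.2 hn.1.2

private theorem blk1' (hX : X ⊆ S) : brk D ((T ∩ S) \ X) (X \ T) ≤ 1 ↔
    ∀ b ∈ T ∩ S, ∀ b' ∈ T ∩ S, ∀ n ∈ S \ T, ∀ n' ∈ S \ T, b ∉ X → b' ∉ X → n ∈ X → n' ∈ X →
    D b n * D b' n' = D b n' * D b' n := by
  rw [brk_one]
  constructor
  · intro h b hb b' hb' n hn n' hn' hbX hbX' hnX hnX'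
    rw [Finset.mem_sdiff] at hn hn'
    exact h b (Finset.mem_sdiff.2 ⟨hb, hbX⟩) b' (Finset.mem_sdiff.2 ⟨hb', hbX'⟩)
      n (Finset.mem_sdiff.2 ⟨hnX, hn.2⟩) n' (Finset.mem_sdiff.2 ⟨hnX', hn'.2⟩)
  · intro h b hb b' hb' n hn n' hn'
    rw [Finset.mem_sdiff] at hb hn hb' hn'
    exact h b hb.1 b' hb'.1 n (Finset.mem_sdiff.2 ⟨hX hn.1, hn.2⟩)
      n' (Finset.mem_sdiff.2 ⟨hX hn'.1, hn'.2⟩) hb.2 hb'.2 hn.1 hn'.1

private theorem blk2' (hX : X ⊆ S) : brk D (T ∩ X) ((S \ X) \ T) ≤ 1 ↔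
    ∀ b ∈ T ∩ S, ∀ b' ∈ T ∩ S, ∀ n ∈ S \ T, ∀ n' ∈ S \ T, b ∈ X → b' ∈ X → n ∉ X → n' ∉ X →
    D b n * D b' n' = D b n' * D b' n := by
  rw [brk_one]
  constructor
  · intro h b hb b' hb' n hn n' hn' hbX hbX' hnX hnX'
    rw [Finset.mem_sdiff] at hn hn'
    rw [Finset.mem_inter] at hb hb'
    exact h b (Finset.mem_inter.2 ⟨hb.1, hbX⟩) b' (Finset.mem_inter.2 ⟨hb'.1, hbX'⟩) n
      (Finset.mem_sdiff.2 ⟨Finset.mem_sdiff.2 ⟨hn.1, hnX⟩, hn.2⟩) n'
      (Finset.mem_sdiff.2 ⟨Finset.mem_sdiff.2 ⟨hn'.1, hnX'⟩, hn'.2⟩)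
  · intro h b hb b' hb' n hn n' hn'
    rw [Finset.mem_inter] at hb hb'
    rw [Finset.mem_sdiff, Finset.mem_sdiff] at hn hn'
    exact h b (Finset.mem_inter.2 ⟨hb.1, hX hb.2⟩) b' (Finset.mem_inter.2 ⟨hb'.1, hX hb'.2⟩)
      n (Finset.mem_sdiff.2 ⟨hn.1.1, hn.2⟩) n' (Finset.mem_sdiff.2 ⟨hn'.1.1, hn'.2⟩)
      hb.2 hb'.2 hn.1.2 hn'.1.2

theorem sep1_iff_lam (hD : IsD v E T D) (hS : S ⊆ E) (hX : X ⊆ S) :
    Sep1 D (T ∩ S) (S \ T) X ↔ lam (ctr (rkv v) (T \ S)) S X ≤ 0 := by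
  rw [lam_eq hD hS hX]
  have n1 : 0 ≤ brk D ((T ∩ S) \ X) (X \ T) := brk_nonneg
  have n2 : 0 ≤ brk D (T ∩ X) ((S \ X) \ T) := brk_nonneg
  constructor
  · intro h
    have h1 : brk D ((T ∩ S) \ X) (X \ T) ≤ 0 := (blk1 hX).2 fun b hb n hn hbX hnX =>
      (h b hb n hn).resolve_left fun hc => hbX (hc.2 hnX)
    have h2 : brk D (T ∩ X) ((S \ X) \ T) ≤ 0 := (blk2 hX).2 fun b hb n hn hbX hnX =>
      (h b hb n hn).resolve_left fun hc => hnX (hc.1 hbX)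
    omega
  · intro h b hb n hn
    have h1 := (blk1 hX).1 (show brk D ((T ∩ S) \ X) (X \ T) ≤ 0 by omega) b hb n hn
    have h2 := (blk2 hX).1 (show brk D (T ∩ X) ((S \ X) \ T) ≤ 0 by omega) b hb n hn
    by_cases hbX : b ∈ X <;> by_cases hnX : n ∈ X
    · exact Or.inl ⟨fun _ => hnX, fun _ => hbX⟩
    · exact Or.inr (h2 hbX hnX)
    · exact Or.inr (h1 hbX hnX)
    · exact Or.inl ⟨fun h => absurd h hbX, fun h => absurd h hnX⟩

private theorem union_eq : (T ∩ S) ∪ (S \ T) = S := by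
  ext x
  simp only [Finset.mem_sdiff, Finset.mem_inter, Finset.mem_union]
  constructor
  · rintro (h | h)
    · exact h.2
    · exact h.1
  · intro h
    by_cases hT : x ∈ T
    · exact Or.inl ⟨hT, h⟩
    · exact Or.inr ⟨h, hT⟩

theorem sep2_iff_lam (hD : IsD v E T D) (hS : S ⊆ E) (hX : X ⊆ S) :
    Sep2 D (T ∩ S) (S \ T) X ↔ lam (ctr (rkv v) (T \ S)) S X ≤ 1 := by
  rw [lam_eq hD hS hX, sep2_iff, union_eq]
  have n1 : 0 ≤ brk D ((T ∩ S) \ X) (X \ T) := brk_nonneg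
  have n2 : 0 ≤ brk D (T ∩ X) ((S \ X) \ T) := brk_nonneg
  have o1 : One D (T ∩ S) (S \ T) X ↔
      (brk D (T ∩ X) ((S \ X) \ T) ≤ 0 ∧ brk D ((T ∩ S) \ X) (X \ T) ≤ 1) := by
    unfold One
    rw [blk1' hX, blk2 hX]
  have mB : ∀ b ∈ T ∩ S, (b ∈ S \ X ↔ b ∉ X) := by
    intro b hb
    rw [Finset.mem_inter] at hb
    rw [Finset.mem_sdiff]
    exact ⟨fun h => h.2, fun h => ⟨hb.2, h⟩⟩
  have mN : ∀ b ∈ S \ T, (b ∈ S \ X ↔ b ∉ X) := by
    intro b hb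
    rw [Finset.mem_sdiff] at hb
    rw [Finset.mem_sdiff]
    exact ⟨fun h => h.2, fun h => ⟨hb.1, h⟩⟩
  have o2 : One D (T ∩ S) (S \ T) (S \ X) ↔
      (brk D ((T ∩ S) \ X) (X \ T) ≤ 0 ∧ brk D (T ∩ X) ((S \ X) \ T) ≤ 1) := by
    unfold One
    rw [blk2' hX, blk1 hX]
    constructor
    · rintro ⟨h1, h2⟩
      refine ⟨fun b hb n hn hbX hnX => h1 b hb n hn ((mB b hb).2 hbX) ?_,
        fun b hb b' hb' n hn n' hn' hbX hbX' hnX hnX' => h2 b hb b' hb' n hn n' hn' ?_ ?_ ?_ ?_⟩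
      · rw [mN n hn]
        exact fun h => h hnX
      · rw [mB b hb]
        exact fun h => h hbX
      · rw [mB b' hb']
        exact fun h => h hbX'
      · rw [mN n hn]
        exact hnX
      · rw [mN n' hn']
        exact hnX'
    · rintro ⟨h1, h2⟩
      refine ⟨fun b hb n hn hbX hnX => h1 b hb n hn ((mB b hb).1 hbX) ?_,
        fun b hb b' hb' n hn n' hn' hbX hbX' hnX hnX' => h2 b hb b' hb' n hn n' hn' ?_ ?_ ?_ ?_⟩
      · rw [mN n hn] at hnX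
        exact not_not.1 hnX
      · rw [mB b hb] at hbX
        exact not_not.1 hbX
      · rw [mB b' hb'] at hbX'
        exact not_not.1 hbX'
      · exact (mN n hn).1 hnX
      · exact (mN n' hn').1 hnX'
  rw [o1, o2]
  omega

theorem c3_iff_conn3 (hD : IsD v E T D) (hS : S ⊆ E) :
    C3 D (T ∩ S) (S \ T) ↔ Conn3 (ctr (rkv v) (T \ S)) S := by
  unfold C3 Conn3
  rw [union_eq]
  constructor
  · rintro ⟨h1, h2, h3⟩
    refine ⟨h1, fun X hX hne hne' => ⟨?_, ?_⟩⟩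
    · by_contra hc
      rcases h2 X hX ((sep1_iff_lam hD hS hX).2 (by omega)) with h | h
      · rw [h] at hne
        exact Finset.not_nonempty_empty hne
      · rw [h, Finset.sdiff_self] at hne'
        exact Finset.not_nonempty_empty hne'
    · intro h4 h5
      by_contra hc
      rcases h3 X hX ((sep2_iff_lam hD hS hX).2 (by omega)) with h | h
      · omega
      · omega
  · rintro ⟨h1, h2⟩
    refine ⟨h1, fun X hX hs => ?_, fun X hX hs => ?_⟩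
    · by_contra hc
      push Not at hc
      obtain ⟨hc1, hc2⟩ := hc
      have hne : X.Nonempty := hc1
      have hne' : (S \ X).Nonempty := by
        rw [Finset.sdiff_nonempty]
        intro h
        exact hc2 (Finset.Subset.antisymm hX h)
      have := (h2 X hX hne hne').1
      have := (sep1_iff_lam hD hS hX).1 hs
      omega
    · by_contra hc
      push Not at hc
      obtain ⟨hc1, hc2⟩ := hc
      have hne : X.Nonempty := by
        rw [← Finset.card_pos]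
        omega
      have hne' : (S \ X).Nonempty := by
        rw [← Finset.card_pos]
        omega
      have := (h2 X hX hne hne').2 (by omega) (by omega)
      have := (sep2_iff_lam hD hS hX).1 hs
      omega

theorem c3_base (hD : IsD v E T D) (hD' : IsD v E T' D') (hS : S ⊆ E) (h : T \ S = T' \ S) :
    C3 D (T ∩ S) (S \ T) ↔ C3 D' (T' ∩ S) (S \ T') := by
  rw [c3_iff_conn3 hD hS, c3_iff_conn3 hD' hS, h]

theorem sep2_base (hD : IsD v E T D) (hD' : IsD v E T' D') (hS : S ⊆ E) (h : T \ S = T' \ S)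
    (hX : X ⊆ S) : Sep2 D (T ∩ S) (S \ T) X ↔ Sep2 D' (T' ∩ S) (S \ T') X := by
  rw [sep2_iff_lam hD hS hX, sep2_iff_lam hD' hS hX, h]

end

end Pool.Agent.G4
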