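import Pool.Agent.G4.Fld

set_option autoImplicit false

/-!
# Module B1: bases and cocircuit vectors

`IsBase D B N T` says `T.card = B.card` and the evaluation map (row vectors on `B`) -> (values on
`T`) is injective, hence bijective.

PLAN. The evaluation map is the linear map `(B → F4) → (T → F4)` given by `ev`; both sides have
dimension `B.card = T.card`, so injective iff surjective (`LinearMap.injective_iff_surjective` after
an equivalence, or `Matrix` arguments). `exists_val` is surjectivity. `exchange`: if `f` is the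
vector of `(T, z)` and `x ∉ T`, a row vector vanishing on `T - z` is a multiple of `f`
(`mul_of_zero`); so it also vanishes at `x` only if it is zero, when `ev f x ≠ 0`; if
`ev f x = 0` then `f` itself is a nonzero vector vanishing on `T - z + x`.
-/

namespace Pool.Agent.G4

open F4 Finset

variable {D : ℕ → ℕ → F4} {B N T : Finset ℕ} {z x : ℕ}

theorem isBase_self : IsBase D B N B :=
  ⟨subset_union_left, rfl, fun f hf b hb => by rw [← ev_mem D B f hb]; exact hf b hb⟩

/-- extension by zero -/
private def g4Ext (B : Finset ℕ) (f : B → F4) : ℕ → F4 := fun b => if h : b ∈ B then f ⟨b, h⟩ else 0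

private theorem g4_ev_ext (f : B → F4) (e : ℕ) :
    ev D B (g4Ext B f) e = ∑ b : B, f b * col D B e b := by
  unfold ev
  rw [← Finset.sum_coe_sort]
  refine Finset.sum_congr rfl fun b _ => ?_
  unfold g4Ext
  rw [dif_pos b.2]

/-- the evaluation map -/
private def g4Map (D : ℕ → ℕ → F4) (B T : Finset ℕ) : (B → F4) →ₗ[F4] (T → F4) where
  toFun f t := ∑ b : B, f b * col D B t b
  map_add' f g := by
    funext t
    simp only [Pi.add_apply, add_mul, Finset.sum_add_distrib]
  map_smul' c f := by
    funext t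
    simp only [Pi.smul_apply, smul_eq_mul, mul_assoc, Finset.mul_sum, RingHom.id_apply]

private theorem g4Map_apply (T : Finset ℕ) (f : B → F4) (t : T) :
    g4Map D B T f t = ev D B (g4Ext B f) t := (g4_ev_ext f t).symm

theorem exists_val (hT : IsBase D B N T) (g : ℕ → F4) : ∃ f : ℕ → F4, ∀ t ∈ T, ev D B f t = g t := by
  have hinj : Function.Injective (g4Map D B T) := by
    rw [← LinearMap.ker_eq_bot, LinearMap.ker_eq_bot']
    intro f hf
    funext b
    have h1 := hT.2.2 (g4Ext B f) (fun t ht => by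
      have := congrFun hf ⟨t, ht⟩
      rwa [g4Map_apply] at this) b b.2
    unfold g4Ext at h1
    rwa [dif_pos b.2] at h1
  have hfr : Module.finrank F4 (B → F4) = Module.finrank F4 (T → F4) := by
    rw [Module.finrank_fintype_fun_eq_card, Module.finrank_fintype_fun_eq_card,
      Fintype.card_coe, Fintype.card_coe, hT.2.1]
  have hsurj := (LinearMap.injective_iff_surjective_of_finrank_eq_finrank hfr).1 hinj
  obtain ⟨f, hf⟩ := hsurj fun t => g t
  refine ⟨g4Ext B f, fun t ht => ?_⟩
  have := congrFun hf ⟨t, ht⟩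
  rwa [g4Map_apply] at this

theorem exists_isF (hT : IsBase D B N T) (hz : z ∈ T) : ∃ f, IsF D B N T z f := by
  obtain ⟨f, hf⟩ := exists_val hT fun t => if t = z then 1 else 0
  exact ⟨f, hT, hz, hf⟩

theorem eq_of_ev (hT : IsBase D B N T) (f g : ℕ → F4) (h : ∀ t ∈ T, ev D B f t = ev D B g t) :
    ∀ b ∈ B, f b = g b := by
  intro b hb
  have key : ∀ x y : F4, x + y = 0 → x = y := by decide
  refine key _ _ (hT.2.2 (fun b => f b + g b) (fun t ht => ?_) b hb)
  rw [ev_add, h t ht, add_self]

/-- a vector vanishing on `T - z` is a multiple of the cocircuit vector -/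
theorem mul_of_zero {f g : ℕ → F4} (hf : IsF D B N T z f)
    (hg : ∀ t ∈ T.erase z, ev D B g t = 0) : ∀ b ∈ B, g b = ev D B g z * f b := by
  refine eq_of_ev hf.1 g (fun b => ev D B g z * f b) fun t ht => ?_
  rw [ev_smul, hf.2.2 t ht]
  by_cases h : t = z
  · rw [if_pos h, h, mul_one]
  · rw [if_neg h, mul_zero]
    exact hg t (mem_erase.2 ⟨h, ht⟩)

theorem exchange {f : ℕ → F4} (hf : IsF D B N T z f) (hx : x ∈ (B ∪ N) \ T) :
    IsBase D B N (insert x (T.erase z)) ↔ ev D B f x ≠ 0 := by
  rw [mem_sdiff] at hx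
  have hxe : x ∉ T.erase z := fun h => hx.2 (mem_of_mem_erase h)
  constructor
  · intro h h0
    have h1 := h.2.2 f (fun t ht => by
      rcases mem_insert.1 ht with rfl | ht
      · exact h0
      · rw [hf.2.2 t (mem_of_mem_erase ht), if_neg (ne_of_mem_erase ht)])
    have h2 := hf.2.2 z hf.2.1
    rw [ev_congr D B (g := fun _ => 0) h1, ev_zero, if_pos rfl] at h2
    exact zero_ne_one h2
  · intro h0
    refine ⟨?_, ?_, ?_⟩
    · intro t ht
      rcases mem_insert.1 ht with rfl | ht
      · exact hx.1
      · exact hf.1.1 (mem_of_mem_erase ht)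
    · rw [card_insert_of_notMem hxe, card_erase_add_one hf.2.1]
      exact hf.1.2.1
    · intro g hg
      have h1 := mul_of_zero hf (g := g) fun t ht => hg t (mem_insert_of_mem ht)
      have h2 := hg x (mem_insert_self _ _)
      rw [ev_congr D B (g := fun b => ev D B g z * f b) h1, ev_smul] at h2
      rcases mul_eq_zero.1 h2 with h3 | h3
      · intro b hb
        rw [h1 b hb, h3, zero_mul]
      · exact absurd h3 h0

private theorem g4_ev_sum (T : Finset ℕ) (c : ℕ → F4) (F : ℕ → ℕ → F4) (e : ℕ) :
    ev D B (fun b => ∑ t ∈ T, c t * F t b) e = ∑ t ∈ T, c t * ev D B (F t) e := by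
  unfold ev
  simp only [Finset.sum_mul, Finset.mul_sum]
  rw [Finset.sum_comm]
  exact Finset.sum_congr rfl fun t _ => Finset.sum_congr rfl fun b _ => mul_assoc _ _ _

/-- values of a row vector at an element through the values on a basis -/
theorem ev_expand (hT : IsBase D B N T) (F : ℕ → ℕ → F4) (hF : ∀ t ∈ T, IsF D B N T t (F t))
    (g : ℕ → F4) (e : ℕ) : ev D B g e = ∑ t ∈ T, ev D B g t * ev D B (F t) e := by
  have h1 : ∀ b ∈ B, g b = ∑ t ∈ T, ev D B g t * F t b := by
    refine eq_of_ev hT g (fun b => ∑ t ∈ T, ev D B g t * F t b) fun s hs => ?_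
    rw [g4_ev_sum, Finset.sum_eq_single s]
    · rw [(hF s hs).2.2 s hs, if_pos rfl, mul_one]
    · intro t ht hts
      rw [(hF t ht).2.2 s hs, if_neg (Ne.symm hts), mul_zero]
    · exact fun h => absurd hs h
  rw [ev_congr D B (g := fun b => ∑ t ∈ T, ev D B g t * F t b) h1 e, g4_ev_sum]

/-- row vectors with prescribed hyperplane: criterion for a basis -/
theorem isBase_of_hyper (H : Finset ℕ) (hH : H ⊆ B ∪ N) (hc : H.card + 1 = B.card) (h : ℕ → F4)
    (h0 : ∀ e ∈ H, ev D B h e = 0)
    (hu : ∀ g : ℕ → F4, (∀ e ∈ H, ev D B g e = 0) → ∃ c : F4, ∀ b ∈ B, g b = c * h b)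
    (e : ℕ) (he : e ∈ (B ∪ N) \ H) :
    (IsBase D B N (insert e H) ↔ ev D B h e ≠ 0) ∧
      (ev D B h e ≠ 0 → IsF D B N (insert e H) e fun b => (ev D B h e)⁻¹ * h b) := by
  rw [mem_sdiff] at he
  have hback : ev D B h e ≠ 0 → IsBase D B N (insert e H) := by
    intro hne
    refine ⟨?_, ?_, ?_⟩
    · intro t ht
      rcases mem_insert.1 ht with rfl | ht
      · exact he.1
      · exact hH ht
    · rw [card_insert_of_notMem he.2, hc]
    · intro g hg
      obtain ⟨c, hcg⟩ := hu g fun t ht => hg t (mem_insert_of_mem ht)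
      have h2 := hg e (mem_insert_self _ _)
      rw [ev_congr D B (g := fun b => c * h b) hcg, ev_smul] at h2
      rcases mul_eq_zero.1 h2 with h3 | h3
      · intro b hb
        rw [hcg b hb, h3, zero_mul]
      · exact absurd h3 hne
  refine ⟨⟨fun hB hz => ?_, hback⟩, fun hne => ⟨hback hne, mem_insert_self _ _, fun t ht => ?_⟩⟩
  · obtain ⟨f, hf⟩ := exists_val hB fun t => if t = e then 1 else 0
    obtain ⟨c, hcf⟩ := hu f fun t ht => by
      rw [hf t (mem_insert_of_mem ht), if_neg]
      rintro rfl
      exact he.2 ht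
    have h2 := hf e (mem_insert_self _ _)
    rw [ev_congr D B (g := fun b => c * h b) hcf, ev_smul, hz, mul_zero, if_pos rfl] at h2
    exact zero_ne_one h2
  · rw [ev_smul]
    by_cases hte : t = e
    · rw [if_pos hte, hte, inv_mul_cancel₀ hne]
    · rw [if_neg hte]
      rcases mem_insert.1 ht with h3 | h3
      · exact absurd h3 hte
      · rw [h0 t h3, mul_zero]

end Pool.Agent.G4
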