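import Pool.Agent.G4.Br1
import Pool.Agent.G4.Base

set_option autoImplicit false

/-!
# Module Br4: bases of the minor on `S`

PROOF of `isBase_iff`. `Q = (T \ S) ∪ P` has `T.card` elements. `ind v Q` iff no nonzero linear
functional on the span of `v '' T` (i.e. no nonzero `g : T → F4`, value `∑ g t * D t e` at `e`)
vanishes on `v '' Q` (a set of `T.card` vectors in a space of dimension `T.card` is independent iff it
spans). A functional vanishing on `T \ S` has `g t = 0` for `t ∈ T \ S` (`IsD.coord`), so it is given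
by `f` on `T ∩ S`, and its value at `e ∈ P` is `∑_{t ∈ T ∩ S} f t * D t e`, which is
`ev D (T ∩ S) f e` (for `e ∈ T ∩ S` use `IsD.coord`; for `e ∈ S \ T` it is the definition).
`entry_iff`: `isBase_iff` for `S = {b, n}`, `P = {n}`; or directly. `minor_iff`: `S = {b, b', n, n'}`,
`P = {n, n'}`; a row vector `(x, y)` on `(b, b')` vanishing at both columns, nonzero iff the
determinant is zero.
`base_change`: the map `g ↦ ∑_{t ∈ T} g t • F t` from row vectors on `T` to row vectors on `B`
satisfies `ev D' T g e = ev D B (∑ g t • F t) e` for all `e ∈ B ∪ N` (for `e ∈ T` by `IsF`, otherwise by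
`hD'`), it is injective on `T` (values at `T`) and every `f` is of this form (`ev_expand`).
`IsD.change`: if `T'` is another basis with `T \ S = T' \ S`, the row vector `F b` of the minor with
value one at `b ∈ T'` and zero at the other elements of `T' ∩ S` has the values `D' b n`:
for `n ∈ S`: `v n = ∑_{t' ∈ T'} D' t' n • v t'`; apply the functional on `span (v '' T)` which is
`F b` on `T ∩ S` and zero on `T \ S`.
-/

namespace Pool.Agent.G4

open F4 Finset

section

variable {V : Type} [AddCommGroup V] [Module F4 V] {v : ℕ → V} {E T T' S P : Finset ℕ}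
  {D D' : ℕ → ℕ → F4}

private theorem br4_ind (Q : Finset ℕ) :
    ind v Q ↔ ∀ c : ℕ → F4, ∑ q ∈ Q, c q • v q = 0 → ∀ q ∈ Q, c q = 0 :=
  linearIndepOn_finset_iff

private theorem br4_sq (A : ℕ → ℕ → F4) {T Q : Finset ℕ} (hc : Q.card = T.card) :
    (∀ c : ℕ → F4, (∀ t ∈ T, ∑ q ∈ Q, A t q * c q = 0) → ∀ q ∈ Q, c q = 0) ↔
      ∀ g : ℕ → F4, (∀ q ∈ Q, ∑ t ∈ T, g t * A t q = 0) → ∀ t ∈ T, g t = 0 := by
  classical
  have hcard : Fintype.card T = Fintype.card Q := by simp [hc]
  let e : T ≃ Q := Fintype.equivOfCardEq hcard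
  let M : Matrix T T F4 := Matrix.of fun t s => A t (e s)
  have h1 : (∀ c : ℕ → F4, (∀ t ∈ T, ∑ q ∈ Q, A t q * c q = 0) → ∀ q ∈ Q, c q = 0) ↔
      M.det ≠ 0 := by
    rw [ne_eq, ← Matrix.exists_mulVec_eq_zero_iff]
    constructor
    · rintro h ⟨w, hw0, hw⟩
      apply hw0
      let c : ℕ → F4 := fun q => if hq : q ∈ Q then w (e.symm ⟨q, hq⟩) else 0
      have hcq : ∀ q : Q, c q = w (e.symm q) := fun q => by
        simp only [c, dif_pos q.2]
      have h2 := h c (fun t ht => by
        have h3 := congrFun hw ⟨t, ht⟩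
        simp only [Matrix.mulVec, dotProduct, M, Matrix.of_apply, Pi.zero_apply] at h3
        rw [← Finset.sum_coe_sort, ← h3, ← e.sum_comp]
        refine Finset.sum_congr rfl fun s _ => ?_
        rw [hcq, e.symm_apply_apply])
      funext s
      have h4 := h2 (e s) (e s).2
      rw [hcq, e.symm_apply_apply] at h4
      exact h4
    · intro h c hc0 q hq
      by_contra hne
      apply h
      refine ⟨fun s => c (e s), ?_, ?_⟩
      · intro h0
        have := congrFun h0 (e.symm ⟨q, hq⟩)
        simp only [Equiv.apply_symm_apply, Pi.zero_apply] at this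
        exact hne this
      · funext t
        simp only [Matrix.mulVec, dotProduct, M, Matrix.of_apply, Pi.zero_apply]
        rw [← hc0 t t.2, ← Finset.sum_coe_sort Q]
        exact e.sum_comp (fun q : Q => A t q * c q)
  have h2 : (∀ g : ℕ → F4, (∀ q ∈ Q, ∑ t ∈ T, g t * A t q = 0) → ∀ t ∈ T, g t = 0) ↔
      M.det ≠ 0 := by
    rw [ne_eq, ← Matrix.exists_vecMul_eq_zero_iff]
    constructor
    · rintro h ⟨w, hw0, hw⟩
      apply hw0
      let g : ℕ → F4 := fun t => if ht : t ∈ T then w ⟨t, ht⟩ else 0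
      have hgt : ∀ t : T, g t = w t := fun t => by
        simp only [g, dif_pos t.2]
      have h2 := h g (fun q hq => by
        have h3 := congrFun hw (e.symm ⟨q, hq⟩)
        simp only [Matrix.vecMul, dotProduct, M, Matrix.of_apply, Pi.zero_apply,
          Equiv.apply_symm_apply] at h3
        rw [← Finset.sum_coe_sort, ← h3]
        refine Finset.sum_congr rfl fun s _ => ?_
        rw [hgt])
      funext t
      rw [← hgt]
      exact h2 t t.2
    · intro h g hg0 t ht
      by_contra hne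
      apply h
      refine ⟨fun s => g s, ?_, ?_⟩
      · intro h0
        exact hne (congrFun h0 ⟨t, ht⟩)
      · funext s
        simp only [Matrix.vecMul, dotProduct, M, Matrix.of_apply, Pi.zero_apply]
        rw [← hg0 (e s) (e s).2]
        exact Finset.sum_coe_sort T (fun t => g t * A t (e s))
  rw [h1, h2]

private theorem br4_dual (hD : IsD v E T D) {Q : Finset ℕ} (hQ : Q ⊆ E) (hc : Q.card = T.card) :
    ind v Q ↔ ∀ g : ℕ → F4, (∀ q ∈ Q, ∑ t ∈ T, g t * D t q = 0) → ∀ t ∈ T, g t = 0 := by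
  rw [br4_ind, ← br4_sq D hc]
  refine forall_congr' fun c => ?_
  have h1 : ∑ q ∈ Q, c q • v q = ∑ t ∈ T, (∑ q ∈ Q, D t q * c q) • v t := by
    simp only [Finset.sum_smul]
    rw [Finset.sum_comm]
    refine Finset.sum_congr rfl fun q hq => ?_
    conv_lhs => rw [hD.2.2 q (hQ hq), Finset.smul_sum]
    refine Finset.sum_congr rfl fun t _ => ?_
    rw [smul_smul, mul_comm]
  have h2 : ∑ q ∈ Q, c q • v q = 0 ↔ ∀ t ∈ T, ∑ q ∈ Q, D t q * c q = 0 := by
    rw [h1]
    constructor
    · exact (br4_ind T).1 hD.2.1 _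
    · intro h
      exact Finset.sum_eq_zero fun t ht => by rw [h t ht, zero_smul]
  rw [h2]

private theorem br4_at (hD : IsD v E T D) (g : ℕ → F4) {e : ℕ} (he : e ∈ T) :
    ∑ t ∈ T, g t * D t e = g e := by
  rw [Finset.sum_eq_single e]
  · rw [hD.coord he he, if_pos rfl, mul_one]
  · intro t ht hte
    rw [hD.coord he ht, if_neg (Ne.symm hte), mul_zero]
  · exact fun h => absurd he h

private theorem br4_ev (hD : IsD v E T D) (g : ℕ → F4) (hg : ∀ t ∈ T \ S, g t = 0) {e : ℕ}
    (he : e ∈ S) : ∑ t ∈ T, g t * D t e = ev D (T ∩ S) g e := by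
  by_cases heT : e ∈ T
  · rw [br4_at hD g heT, ev_mem D _ g (mem_inter.2 ⟨heT, he⟩)]
  · rw [ev_not_mem D _ g (fun h => heT (mem_inter.1 h).1)]
    symm
    refine Finset.sum_subset inter_subset_left fun t ht hts => ?_
    rw [hg t (mem_sdiff.2 ⟨ht, fun h => hts (mem_inter.2 ⟨ht, h⟩)⟩), zero_mul]

theorem isBase_iff (hD : IsD v E T D) (hS : S ⊆ E) (hP : P ⊆ S) (hc : P.card = (T ∩ S).card) :
    IsBase D (T ∩ S) (S \ T) P ↔ ind v ((T \ S) ∪ P) := by
  have hdisj : Disjoint (T \ S) P := by
    rw [Finset.disjoint_left]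
    intro a ha hp
    exact (mem_sdiff.1 ha).2 (hP hp)
  have hcard : ((T \ S) ∪ P).card = T.card := by
    rw [card_union_of_disjoint hdisj, hc]
    have := card_sdiff_add_card_inter T S
    exact this
  have hsub : (T \ S) ∪ P ⊆ E := union_subset (sdiff_subset.trans hD.1) (hP.trans hS)
  rw [br4_dual hD hsub hcard]
  constructor
  · rintro ⟨-, -, h⟩ g hg
    have h0 : ∀ t ∈ T \ S, g t = 0 := fun t ht => by
      rw [← br4_at hD g (mem_sdiff.1 ht).1]
      exact hg t (mem_union_left _ ht)
    have h1 := h g (fun t ht => by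
      rw [← br4_ev hD g h0 (hP ht)]
      exact hg t (mem_union_right _ ht))
    intro t ht
    by_cases hts : t ∈ S
    · exact h1 t (mem_inter.2 ⟨ht, hts⟩)
    · exact h0 t (mem_sdiff.2 ⟨ht, hts⟩)
  · intro h
    refine ⟨?_, hc, fun f hf b hb => ?_⟩
    · intro p hp
      by_cases hpT : p ∈ T
      · exact mem_union_left _ (mem_inter.2 ⟨hpT, hP hp⟩)
      · exact mem_union_right _ (mem_sdiff.2 ⟨hP hp, hpT⟩)
    · have h0 : ∀ t ∈ T \ S, (fun t => if t ∈ S then f t else 0) t = 0 := fun t ht =>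
        if_neg (mem_sdiff.1 ht).2
      have h1 := h (fun t => if t ∈ S then f t else 0) (fun q hq => by
        rcases mem_union.1 hq with hq | hq
        · rw [br4_at hD _ (mem_sdiff.1 hq).1]
          exact h0 q hq
        · rw [br4_ev hD _ h0 (hP hq), ← hf q hq]
          exact ev_congr D _ (fun b hb => if_pos (mem_inter.1 hb).2) q) b (mem_inter.1 hb).1
      simpa [(mem_inter.1 hb).2] using h1

theorem entry_iff (hD : IsD v E T D) {b n : ℕ} (hb : b ∈ T) (hn : n ∈ E \ T) :
    ind v ((T \ {b}) ∪ {n}) ↔ D b n ≠ 0 := by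
  rw [mem_sdiff] at hn
  have hdisj : Disjoint (T \ {b}) {n} := by
    rw [Finset.disjoint_singleton_right]
    exact fun h => hn.2 (mem_sdiff.1 h).1
  have hcard : ((T \ {b}) ∪ {n}).card = T.card := by
    rw [card_union_of_disjoint hdisj, card_sdiff_of_subset (singleton_subset_iff.2 hb),
      card_singleton, card_singleton]
    have := card_pos.2 ⟨b, hb⟩
    omega
  have hsub : (T \ {b}) ∪ {n} ⊆ E :=
    union_subset (sdiff_subset.trans hD.1) (singleton_subset_iff.2 hn.1)
  rw [br4_dual hD hsub hcard]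
  constructor
  · intro h h0
    have h1 := h (fun t => if t = b then 1 else 0) (fun q hq => by
      rcases mem_union.1 hq with hq | hq
      · rw [br4_at hD _ (mem_sdiff.1 hq).1]
        exact if_neg fun h => (mem_sdiff.1 hq).2 (mem_singleton.2 h)
      · rw [mem_singleton.1 hq, Finset.sum_eq_single b]
        · rw [h0, mul_zero]
        · intro t _ htb
          rw [if_neg htb, zero_mul]
        · exact fun h => absurd hb h) b hb
    simp only [if_true] at h1
    exact one_ne_zero h1
  · intro h0 g hg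
    have h1 : ∀ t ∈ T, t ≠ b → g t = 0 := fun t ht htb => by
      rw [← br4_at hD g ht]
      exact hg t (mem_union_left _ (mem_sdiff.2 ⟨ht, fun h => htb (mem_singleton.1 h)⟩))
    have h2 := hg n (mem_union_right _ (mem_singleton_self n))
    rw [Finset.sum_eq_single b (fun t ht htb => by rw [h1 t ht htb, zero_mul])
      (fun h => absurd hb h)] at h2
    intro t ht
    by_cases htb : t = b
    · rw [htb]
      exact (mul_eq_zero.1 h2).resolve_right h0
    · exact h1 t ht htb

theorem minor_iff (hD : IsD v E T D) {b b' n n' : ℕ} (hb : b ∈ T) (hb' : b' ∈ T) (hbb : b ≠ b')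
    (hn : n ∈ E \ T) (hn' : n' ∈ E \ T) (hnn : n ≠ n') :
    ind v ((T \ {b, b'}) ∪ {n, n'}) ↔ D b n * D b' n' ≠ D b n' * D b' n := by
  rw [mem_sdiff] at hn hn'
  have hdisj : Disjoint (T \ {b, b'}) {n, n'} := by
    rw [Finset.disjoint_left]
    intro a ha hp
    have ha' := (mem_sdiff.1 ha).1
    rcases mem_insert.1 hp with rfl | hp
    · exact hn.2 ha'
    · rw [mem_singleton.1 hp] at ha'
      exact hn'.2 ha'
  have hbsub : ({b, b'} : Finset ℕ) ⊆ T := by
    intro x hx
    rcases mem_insert.1 hx with rfl | hx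
    · exact hb
    · rw [mem_singleton.1 hx]; exact hb'
  have hcard : ((T \ {b, b'}) ∪ {n, n'}).card = T.card := by
    rw [card_union_of_disjoint hdisj, card_sdiff_of_subset hbsub, card_pair hbb, card_pair hnn]
    have := card_le_card hbsub
    rw [card_pair hbb] at this
    omega
  have hsub : (T \ {b, b'}) ∪ {n, n'} ⊆ E := by
    refine union_subset (sdiff_subset.trans hD.1) ?_
    intro x hx
    rcases mem_insert.1 hx with rfl | hx
    · exact hn.1
    · rw [mem_singleton.1 hx]; exact hn'.1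
  rw [br4_dual hD hsub hcard]
  have hsum : ∀ (g : ℕ → F4) (m : ℕ), (∀ t ∈ T, t ≠ b → t ≠ b' → g t = 0) →
      ∑ t ∈ T, g t * D t m = g b * D b m + g b' * D b' m := by
    intro g m hg
    rw [← Finset.sum_subset hbsub (f := fun t => g t * D t m), Finset.sum_pair hbb]
    intro t ht hts
    rw [hg t ht (fun h => hts (by simp [h])) (fun h => hts (by simp [h])), zero_mul]
  constructor
  · intro h h0
    have key : ∀ x y : F4, x * D b n + y * D b' n = 0 → x * D b n' + y * D b' n' = 0 →
        x = 0 ∧ y = 0 := by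
      intro x y h1 h2
      have hsupp : ∀ t ∈ T, t ≠ b → t ≠ b' →
          (fun t => if t = b then x else if t = b' then y else 0) t = 0 := by
        intro t _ h3 h4
        simp [h3, h4]
      have h5 := h (fun t => if t = b then x else if t = b' then y else 0) (fun q hq => by
        rcases mem_union.1 hq with hq | hq
        · rw [br4_at hD _ (mem_sdiff.1 hq).1]
          have h6 := (mem_sdiff.1 hq).2
          simp only [mem_insert, mem_singleton, not_or] at h6
          exact hsupp q (mem_sdiff.1 hq).1 h6.1 h6.2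
        · rw [hsum _ q hsupp]
          simp only [if_true, if_neg hbb.symm]
          rcases mem_insert.1 hq with rfl | hq
          · exact h1
          · rw [mem_singleton.1 hq]; exact h2)
      have h6 := h5 b hb
      have h7 := h5 b' hb'
      simp only [if_true, if_neg hbb.symm] at h6 h7
      exact ⟨h6, h7⟩
    have char2 : ∀ z : F4, z + z = 0 := by decide
    have h1 := key (D b' n) (D b n) (by rw [mul_comm]; exact char2 _)
      (by rw [h0, mul_comm]; exact char2 _)
    have h2 := key (D b' n') (D b n') (by rw [mul_comm (D b' n'), h0]; exact char2 _)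
      (by rw [mul_comm]; exact char2 _)
    have h3 := key 1 0 (by rw [h1.2]; simp) (by rw [h2.2]; simp)
    exact one_ne_zero h3.1
  · intro h0 g hg
    have h1 : ∀ t ∈ T, t ≠ b → t ≠ b' → g t = 0 := fun t ht htb htb' => by
      rw [← br4_at hD g ht]
      refine hg t (mem_union_left _ (mem_sdiff.2 ⟨ht, fun h => ?_⟩))
      rcases mem_insert.1 h with h | h
      · exact htb h
      · exact htb' (mem_singleton.1 h)
    have h2 := hg n (mem_union_right _ (mem_insert_self _ _))
    have h3 := hg n' (mem_union_right _ (mem_insert_of_mem (mem_singleton_self _)))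
    rw [hsum g _ h1] at h2 h3
    have hdet : D b n * D b' n' - D b n' * D b' n ≠ 0 := sub_ne_zero.2 h0
    have hx : g b = 0 := by
      have h4 : g b * (D b n * D b' n' - D b n' * D b' n) = 0 := by
        linear_combination D b' n' * h2 - D b' n * h3
      exact (mul_eq_zero.1 h4).resolve_right hdet
    have hy : g b' = 0 := by
      have h4 : g b' * (D b n * D b' n' - D b n' * D b' n) = 0 := by
        linear_combination D b n * h3 - D b n' * h2
      exact (mul_eq_zero.1 h4).resolve_right hdet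
    intro t ht
    by_cases htb : t = b
    · rw [htb]; exact hx
    · by_cases htb' : t = b'
      · rw [htb']; exact hy
      · exact h1 t ht htb htb'

private theorem br4_coord (hD : IsD v E T D) {Q : Finset ℕ} (hQ : Q ⊆ E) {n : ℕ} (hn : n ∈ E)
    (c : ℕ → F4) (hc : v n = ∑ q ∈ Q, c q • v q) {t : ℕ} (ht : t ∈ T) :
    D t n = ∑ q ∈ Q, c q * D t q := by
  have h1 : ∑ q ∈ Q, c q • v q = ∑ t ∈ T, (∑ q ∈ Q, c q * D t q) • v t := by
    simp only [Finset.sum_smul]
    rw [Finset.sum_comm]
    refine Finset.sum_congr rfl fun q hq => ?_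
    conv_lhs => rw [hD.2.2 q (hQ hq), Finset.smul_sum]
    refine Finset.sum_congr rfl fun t _ => ?_
    rw [smul_smul]
  have h2 : ∑ t ∈ T, (D t n - ∑ q ∈ Q, c q * D t q) • v t = 0 := by
    simp only [sub_smul]
    rw [Finset.sum_sub_distrib, ← h1, ← hc, ← hD.2.2 n hn, sub_self]
  exact sub_eq_zero.1 ((br4_ind T).1 hD.2.1 _ h2 t ht)

theorem IsD.change (hD : IsD v E T D) (hD' : IsD v E T' D') (hS : S ⊆ E) (h : T \ S = T' \ S)
    {b : ℕ} {f : ℕ → F4} (hf : IsF D (T ∩ S) (S \ T) (T' ∩ S) b f) {n : ℕ} (hn : n ∈ S \ T') :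
    ev D (T ∩ S) f n = D' b n := by
  obtain ⟨-, hbT, hf⟩ := hf
  have hbT' := (mem_inter.1 hbT).1
  rw [mem_sdiff] at hn
  set g : ℕ → F4 := fun t => if t ∈ S then f t else 0 with hg
  have h0 : ∀ t ∈ T \ S, g t = 0 := fun t ht => if_neg (mem_sdiff.1 ht).2
  have hevg : ∀ e, ev D (T ∩ S) g e = ev D (T ∩ S) f e := fun e =>
    ev_congr D _ (fun b hb => if_pos (mem_inter.1 hb).2) e
  rw [← hevg, ← br4_ev hD g h0 hn.1]
  have h1 : ∀ t ∈ T, D t n = ∑ t' ∈ T', D' t' n * D t t' := fun t ht =>
    br4_coord hD hD'.1 (hS hn.1) (fun t' => D' t' n) (hD'.2.2 n (hS hn.1)) ht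
  have h2 : ∑ t ∈ T, g t * D t n = ∑ t' ∈ T', D' t' n * ∑ t ∈ T, g t * D t t' := by
    simp only [Finset.mul_sum]
    rw [Finset.sum_comm]
    refine Finset.sum_congr rfl fun t ht => ?_
    rw [h1 t ht, Finset.mul_sum]
    exact Finset.sum_congr rfl fun t' _ => by ring
  rw [h2, Finset.sum_eq_single b]
  · rw [br4_ev hD g h0 (mem_inter.1 hbT).2, hevg, hf b hbT, if_pos rfl, mul_one]
  · intro t' ht' hne
    by_cases hts : t' ∈ S
    · rw [br4_ev hD g h0 hts, hevg, hf t' (mem_inter.2 ⟨ht', hts⟩), if_neg hne, mul_zero]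
    · have hm : t' ∈ T \ S := by
        rw [h]
        exact mem_sdiff.2 ⟨ht', hts⟩
      rw [br4_at hD g (mem_sdiff.1 hm).1, h0 t' hm, mul_zero]
  · exact fun h => absurd hbT' h

end

theorem base_change {D D' : ℕ → ℕ → F4} {B N T P : Finset ℕ} (hd : Disjoint B N)
    (hT : IsBase D B N T) {F : ℕ → ℕ → F4} (hF : ∀ t ∈ T, IsF D B N T t (F t))
    (hD' : ∀ b ∈ T, ∀ n ∈ (B ∪ N) \ T, D' b n = ev D B (F b) n) :
    IsBase D' T ((B ∪ N) \ T) P ↔ IsBase D B N P := by
  have hkey : ∀ g : ℕ → F4, ∀ e ∈ B ∪ N, ev D' T g e = ∑ t ∈ T, g t * ev D B (F t) e := by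
    intro g e he
    by_cases heT : e ∈ T
    · rw [ev_mem D' T g heT, Finset.sum_eq_single e]
      · rw [(hF e heT).2.2 e heT, if_pos rfl, mul_one]
      · intro t ht hte
        rw [(hF t ht).2.2 e heT, if_neg (Ne.symm hte), mul_zero]
      · exact fun h => absurd heT h
    · rw [ev_not_mem D' T g heT]
      exact Finset.sum_congr rfl fun t ht => by rw [hD' t ht e (mem_sdiff.2 ⟨he, heT⟩)]
  have hU : T ∪ ((B ∪ N) \ T) = B ∪ N := union_sdiff_of_subset hT.1
  have hevsum : ∀ (g : ℕ → F4) (e : ℕ),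
      ev D B (fun b => ∑ t ∈ T, g t * F t b) e = ∑ t ∈ T, g t * ev D B (F t) e := by
    intro g e
    unfold ev
    simp only [Finset.sum_mul, Finset.mul_sum]
    rw [Finset.sum_comm]
    exact Finset.sum_congr rfl fun t _ => Finset.sum_congr rfl fun b _ => mul_assoc _ _ _
  constructor
  · rintro ⟨h1, h2, h3⟩
    rw [hU] at h1
    refine ⟨h1, h2.trans hT.2.1, fun f hf => ?_⟩
    refine hT.2.2 f (h3 (fun t => ev D B f t) fun t ht => ?_)
    rw [hkey _ t (h1 ht), ← ev_expand hT F hF f t]
    exact hf t ht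
  · rintro ⟨h1, h2, h3⟩
    refine ⟨by rw [hU]; exact h1, h2.trans hT.2.1.symm, fun g hg b hb => ?_⟩
    have h4 := h3 (fun b => ∑ t ∈ T, g t * F t b) fun t ht => by
      rw [hevsum, ← hkey g t (h1 ht)]
      exact hg t ht
    have h5 : ev D B (fun b => ∑ t ∈ T, g t * F t b) b = 0 := by
      rw [ev_congr D B (g := fun _ => 0) h4, ev_zero]
    rw [hevsum, ← hkey g b (hT.1 hb), ev_mem D' T g hb] at h5
    exact h5

end Pool.Agent.G4
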