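import Pool.Agent.G4.Conn2

set_option autoImplicit false

/-!
# Module Br5: pairs of connectivity one in a column deletion of a 3-connected matroid

`B'` = all rows, `N` = columns without `y`.
PROOF of `row_of_sep2`: `C3 D B' (insert y N)`. `sep2_iff` (module Conn) for `X = {a, b}`:
`One D B' N X` or `One D B' N (complement)`.
Case `a ∈ B'`: `X` contains no column. `One D B' N X` says that the rows `a` and `b` vanish on `N`,
`One` of the complement that the 2x2 minors of the rows `a`, `b` vanish. If the row `b` vanishes on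
`N` then the set `{b, y}` satisfies `Sep2 D B' (insert y N)` (row `b` is supported on `{y}`),
contradiction; the same for `a`. So both rows are nonzero and proportional.
Case `a ∈ N`: `One D B' N X`: row `b` vanishes on `N \ {a}`; then `D b a ≠ 0` since otherwise the row
vanishes on `N`, contradiction as before. `One` of the complement: `D b' a = 0` for all
`b' ∈ B' \ {b}`: the column `a` is supported on `b`, contradiction to `C3.indep2`
(elements `a` and `b`).
PROOF of `no_cols`: two columns `a ≠ b` of `N` with `Sep2 D B' N {a, b}`: `X` contains no row; so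
either both columns vanish on `B'` or their 2x2 minors vanish, i.e. they are proportional (or one is
zero): contradiction to `C3.indep2`.
-/

namespace Pool.Agent.G4

open F4 Finset

variable {D : ℕ → ℕ → F4} {B' N : Finset ℕ} {a b y : ℕ}

private theorem br5_not_pair {B N : Finset ℕ} (h : C3 D B N) {x y : ℕ} (hx : x ∈ B ∪ N)
    (hy : y ∈ B ∪ N) (hne : x ≠ y) (hs : Sep2 D B N {x, y}) : False := by
  have hsub : ({x, y} : Finset ℕ) ⊆ B ∪ N := by
    intro z hz
    rcases mem_insert.1 hz with rfl | hz
    · exact hx
    · rw [mem_singleton.1 hz]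
      exact hy
  have h1 := h.2.2 _ hsub hs
  have h2 := h.1
  have h3 : ({x, y} : Finset ℕ).card = 2 := card_pair hne
  rw [card_sdiff_of_subset hsub, h3] at h1
  omega

private theorem br5_row (hd : Disjoint B' (insert y N)) (h : C3 D B' (insert y N))
    (hb : b ∈ B') (h0 : ∀ n ∈ N, D b n = 0) : False := by
  have hyB : y ∉ B' := fun hy => disjoint_left.1 hd hy (mem_insert_self _ _)
  have hby : b ≠ y := fun e => hyB (e ▸ hb)
  refine br5_not_pair h (mem_union_left _ hb) (mem_union_right _ (mem_insert_self y N)) hby ?_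
  refine ⟨fun b' => if b' = b then 0 else D b' y, fun n => if n = y then 1 else 0,
    fun b' hb' n hn => ?_⟩
  have h1 : b' ≠ y := fun e => hyB (e ▸ hb')
  have h2 : n ≠ b := fun e => disjoint_left.1 hd hb (e ▸ hn)
  simp only [mem_insert, mem_singleton, h1, h2, or_false, false_or]
  by_cases hb1 : b' = b <;> by_cases hn1 : n = y
  · simp [hb1, hn1]
  · have : n ∈ N := (mem_insert.1 hn).resolve_left hn1
    simp [hb1, hn1, h0 n this]
  · simp [hb1, hn1]
  · simp [hb1, hn1]

theorem row_of_sep2 (hd : Disjoint B' (insert y N)) (hy : y ∉ N) (h : C3 D B' (insert y N))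
    (h4 : 4 ≤ (B' ∪ N).card)
    (hb : b ∈ B') (ha : a ∈ B' ∪ N) (hab : a ≠ b) (hs : Sep2 D B' N {a, b}) :
    (a ∈ B' → ∃ l : F4, l ≠ 0 ∧ ∀ n ∈ N, D b n = l * D a n) ∧
    (a ∈ N → D b a ≠ 0 ∧ ∀ n ∈ N, n ≠ a → D b n = 0) := by
  have hdN : ∀ x ∈ B', x ∉ N := fun x hx hn => disjoint_left.1 hd hx (mem_insert_of_mem hn)
  obtain ⟨u, w, hs⟩ := hs
  constructor
  · intro haB
    have hu : ∀ x ∈ B', (x = a ∨ x = b) → ∀ n ∈ N, D x n = u x * w n := by
      intro x hx hxX n hn
      have h1 := hs x hx n hn
      have h2 : n ≠ a := fun e => hdN a haB (e ▸ hn)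
      have h3 : n ≠ b := fun e => hdN b hb (e ▸ hn)
      rw [if_neg] at h1
      · exact h1
      · simp only [mem_insert, mem_singleton, h2, h3, hxX, or_self, iff_false, not_true_eq_false,
          not_false_eq_true]
    have hne : ∀ x ∈ B', (x = a ∨ x = b) → u x ≠ 0 := by
      intro x hx hxX h0
      refine br5_row hd h hx fun n hn => ?_
      rw [hu x hx hxX n hn, h0, zero_mul]
    refine ⟨u b * (u a)⁻¹, mul_ne_zero (hne b hb (Or.inr rfl)) (inv_ne_zero (hne a haB (Or.inl rfl))),
      fun n hn => ?_⟩
    rw [hu b hb (Or.inr rfl) n hn, hu a haB (Or.inl rfl) n hn, mul_assoc, ← mul_assoc (u a)⁻¹,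
      inv_mul_cancel₀ (hne a haB (Or.inl rfl)), one_mul]
  · intro haN
    have h0 := hs b hb a haN
    rw [if_pos (by simp)] at h0
    rcases mul_eq_zero.1 h0.symm with h1 | h1
    · have h2 : ∀ n ∈ N, n ≠ a → D b n = 0 := by
        intro n hn hna
        have h3 := hs b hb n hn
        have hnb : n ≠ b := fun e => hdN b hb (e ▸ hn)
        rw [if_neg (by simp [hna, hnb]), h1, zero_mul] at h3
        exact h3
      refine ⟨fun h3 => br5_row hd h hb fun n hn => ?_, h2⟩
      by_cases hna : n = a
      · rw [hna]
        exact h3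
      · exact h2 n hn hna
    · exfalso
      have haB : a ∉ B' := fun e => hdN a e haN
      have h2 := (h.indep2 hd (mem_union_right _ (mem_insert_of_mem haN)) (mem_union_left _ hb) hab
        1 (D b a) fun b' hb' => by
          unfold col
          rw [if_neg haB, if_pos hb]
          by_cases hbb : b = b'
          · subst hbb
            rw [if_pos rfl, one_mul, mul_one]
            exact F4.add_self _
          · rw [if_neg hbb, mul_zero, add_zero, one_mul]
            have h3 := hs b' hb' a haN
            have hb'a : b' ≠ a := fun e => haB (e ▸ hb')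
            rw [if_neg (by simp [hb'a, Ne.symm hbb]), h1, mul_zero] at h3
            exact h3).1
      exact one_ne_zero h2

theorem no_cols (hd : Disjoint B' (insert y N)) (hy : y ∉ N) (h : C3 D B' (insert y N))
    (ha : a ∈ N) (hb : b ∈ N) (hab : a ≠ b) : ¬ Sep2 D B' N {a, b} := by
  rintro ⟨u, w, hs⟩
  have hdN : ∀ x ∈ B', ∀ n ∈ N, x ≠ n :=
    fun x hx n hn e => disjoint_left.1 hd hx (e ▸ mem_insert_of_mem hn)
  have hda : ∀ x ∈ B', D x a = u x * w a := by
    intro x hx
    have h1 := hs x hx a ha
    rw [if_neg (by simp [hdN x hx a ha, hdN x hx b hb])] at h1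
    exact h1
  have hdb : ∀ x ∈ B', D x b = u x * w b := by
    intro x hx
    have h1 := hs x hx b hb
    rw [if_neg (by simp [hdN x hx a ha, hdN x hx b hb])] at h1
    exact h1
  have haB : a ∉ B' := fun e => hdN a e a ha rfl
  have hbB : b ∉ B' := fun e => hdN b e b hb rfl
  have h2 := h.indep2 hd (mem_union_right _ (mem_insert_of_mem ha))
    (mem_union_right _ (mem_insert_of_mem hb)) hab (w b) (w a) fun x hx => by
      unfold col
      rw [if_neg haB, if_neg hbB, hda x hx, hdb x hx]
      have : w b * (u x * w a) = w a * (u x * w b) := by ring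
      rw [this]
      exact F4.add_self _
  have h3 := (h.indep2 hd (mem_union_right _ (mem_insert_of_mem ha))
    (mem_union_right _ (mem_insert_of_mem hb)) hab 1 0 fun x hx => by
      unfold col
      rw [if_neg haB, if_neg hbB, hda x hx, h2.2, mul_zero, mul_zero, zero_mul, add_zero]).1
  exact one_ne_zero h3

end Pool.Agent.G4
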