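import Pool.Agent.G4.Dual

set_option autoImplicit false

/-!
# Module B3: equivalent matrices

If `D' b n = ρ b * D b n * κ n` then row vectors correspond by `f' b = f b * (ρ b)⁻¹`, values at
`n ∈ N` are multiplied by `κ n`, values at `b ∈ B` by `(ρ b)⁻¹`. In the conjugate case compose with
`conj` (`conj_sum`).
-/

namespace Pool.Agent.G4

open F4 Finset

variable {D D' D'' : ℕ → ℕ → F4} {B N B₁ N₁ T X : Finset ℕ}

theorem Eqv.of_eq (h : ∀ b ∈ B, ∀ n ∈ N, D' b n = D b n) : Eqv D D' B N :=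
  ⟨fun _ => 1, fun _ => 1, fun _ => ⟨one_ne_zero, one_ne_zero⟩,
    Or.inl fun b hb n hn => by rw [h b hb n hn, one_mul, mul_one]⟩

theorem Eqv.refl : Eqv D D B N := Eqv.of_eq fun _ _ _ _ => rfl

theorem Eqv.symm (h : Eqv D D' B N) : Eqv D' D B N := by
  obtain ⟨ρ, κ, h0, h | h⟩ := h
  · refine ⟨fun e => (ρ e)⁻¹, fun e => (κ e)⁻¹, fun e => ⟨inv_ne_zero (h0 e).1,
      inv_ne_zero (h0 e).2⟩, Or.inl fun b hb n hn => ?_⟩
    have key : ∀ r k d d' : F4, r ≠ 0 → k ≠ 0 → d' = r * d * k → d = r⁻¹ * d' * k⁻¹ := by decide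
    exact key _ _ _ _ (h0 b).1 (h0 n).2 (h b hb n hn)
  · refine ⟨fun e => conj (ρ e)⁻¹, fun e => conj (κ e)⁻¹, fun e => ?_, Or.inr fun b hb n hn => ?_⟩
    · have key : ∀ r : F4, r ≠ 0 → conj r⁻¹ ≠ 0 := by decide
      exact ⟨key _ (h0 e).1, key _ (h0 e).2⟩
    · have key : ∀ r k d d' : F4, r ≠ 0 → k ≠ 0 → d' = r * conj d * k →
          d = conj r⁻¹ * conj d' * conj k⁻¹ := by decide
      exact key _ _ _ _ (h0 b).1 (h0 n).2 (h b hb n hn)

theorem Eqv.trans (h : Eqv D D' B N) (h' : Eqv D' D'' B N) : Eqv D D'' B N := by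
  obtain ⟨ρ, κ, h0, h⟩ := h
  obtain ⟨ρ', κ', h0', h'⟩ := h'
  have hc : ∀ r : F4, r ≠ 0 → conj r ≠ 0 := by decide
  rcases h with h | h <;> rcases h' with h' | h'
  · refine ⟨fun e => ρ' e * ρ e, fun e => κ e * κ' e, fun e => ⟨mul_ne_zero (h0' e).1 (h0 e).1,
      mul_ne_zero (h0 e).2 (h0' e).2⟩, Or.inl fun b hb n hn => ?_⟩
    rw [h' b hb n hn, h b hb n hn]
    ring
  · refine ⟨fun e => ρ' e * conj (ρ e), fun e => conj (κ e) * κ' e, fun e =>
      ⟨mul_ne_zero (h0' e).1 (hc _ (h0 e).1), mul_ne_zero (hc _ (h0 e).2) (h0' e).2⟩,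
      Or.inr fun b hb n hn => ?_⟩
    rw [h' b hb n hn, h b hb n hn, conj_mul, conj_mul]
    ring
  · refine ⟨fun e => ρ' e * ρ e, fun e => κ e * κ' e, fun e => ⟨mul_ne_zero (h0' e).1 (h0 e).1,
      mul_ne_zero (h0 e).2 (h0' e).2⟩, Or.inr fun b hb n hn => ?_⟩
    rw [h' b hb n hn, h b hb n hn]
    ring
  · refine ⟨fun e => ρ' e * conj (ρ e), fun e => conj (κ e) * κ' e, fun e =>
      ⟨mul_ne_zero (h0' e).1 (hc _ (h0 e).1), mul_ne_zero (hc _ (h0 e).2) (h0' e).2⟩,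
      Or.inl fun b hb n hn => ?_⟩
    rw [h' b hb n hn, h b hb n hn, conj_mul, conj_mul, conj_conj]
    ring

theorem Eqv.mono (h : Eqv D D' B N) (hB : B₁ ⊆ B) (hN : N₁ ⊆ N) : Eqv D D' B₁ N₁ := by
  obtain ⟨ρ, κ, h0, h⟩ := h
  exact ⟨ρ, κ, h0, h.imp (fun h b hb n hn => h b (hB hb) n (hN hn))
    (fun h b hb n hn => h b (hB hb) n (hN hn))⟩

theorem Eqv.trD (h : Eqv D D' B N) : Eqv (trD D) (trD D') N B := by
  obtain ⟨ρ, κ, h0, h⟩ := h
  refine ⟨κ, ρ, fun e => ⟨(h0 e).2, (h0 e).1⟩, h.imp (fun h b hb n hn => ?_)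
    (fun h b hb n hn => ?_)⟩
  · show D' n b = κ b * D n b * ρ n
    rw [h n hn b hb]
    ring
  · show D' n b = κ b * conj (D n b) * ρ n
    rw [h n hn b hb]
    ring

private theorem Eqv.base_imp (h : Eqv D D' B N) (hd : Disjoint B N) (hT : IsBase D B N T) :
    IsBase D' B N T := by
  obtain ⟨ρ, κ, h0, h⟩ := h
  refine ⟨hT.1, hT.2.1, fun f' hf' b hb => ?_⟩
  rcases h with h | h
  · have h1 : ∀ t ∈ T, ev D B (fun b => f' b * ρ b) t = 0 := by
      intro t ht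
      have h2 := hf' t ht
      rcases mem_union.1 (hT.1 ht) with htB | htN
      · rw [ev_mem D B _ htB]
        rw [ev_mem D' B _ htB] at h2
        rw [h2, zero_mul]
      · have htB : t ∉ B := disjoint_right.1 hd htN
        rw [ev_not_mem D B _ htB]
        rw [ev_not_mem D' B _ htB] at h2
        have h3 : (∑ b ∈ B, f' b * ρ b * D b t) * κ t = 0 := by
          rw [sum_mul, ← h2]
          refine sum_congr rfl fun b hb => ?_
          rw [h b hb t htN]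
          ring
        exact (mul_eq_zero.1 h3).resolve_right (h0 t).2
    have h2 := hT.2.2 _ h1 b hb
    exact (mul_eq_zero.1 h2).resolve_right (h0 b).1
  · have h1 : ∀ t ∈ T, ev D B (fun b => conj (f' b * ρ b)) t = 0 := by
      intro t ht
      have h2 := hf' t ht
      rcases mem_union.1 (hT.1 ht) with htB | htN
      · rw [ev_mem D B _ htB]
        rw [ev_mem D' B _ htB] at h2
        rw [h2, zero_mul, conj_zero]
      · have htB : t ∉ B := disjoint_right.1 hd htN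
        rw [ev_not_mem D B _ htB]
        rw [ev_not_mem D' B _ htB] at h2
        have h3 : conj (∑ b ∈ B, conj (f' b * ρ b) * D b t) * κ t = 0 := by
          rw [conj_sum, sum_mul, ← h2]
          refine sum_congr rfl fun b hb => ?_
          rw [h b hb t htN, conj_mul, conj_conj]
          ring
        exact (conj_eq_zero _).1 ((mul_eq_zero.1 h3).resolve_right (h0 t).2)
    have h2 := hT.2.2 _ h1 b hb
    exact (mul_eq_zero.1 ((conj_eq_zero _).1 h2)).resolve_right (h0 b).1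

theorem Eqv.eqM (h : Eqv D D' B N) (hd : Disjoint B N) : EqM D D' B N := fun _ =>
  ⟨h.base_imp hd, h.symm.base_imp hd⟩

private theorem Eqv.sep1_imp (h : Eqv D D' B N) (hs : Sep1 D B N X) : Sep1 D' B N X := by
  obtain ⟨ρ, κ, h0, h⟩ := h
  intro b hb n hn
  refine (hs b hb n hn).imp_right fun h1 => ?_
  rcases h with h | h
  · rw [h b hb n hn, h1, mul_zero, zero_mul]
  · rw [h b hb n hn, h1, conj_zero, mul_zero, zero_mul]

theorem Eqv.sep1 (h : Eqv D D' B N) : Sep1 D B N X ↔ Sep1 D' B N X :=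
  ⟨h.sep1_imp, h.symm.sep1_imp⟩

private theorem Eqv.sep2_imp (h : Eqv D D' B N) (hs : Sep2 D B N X) : Sep2 D' B N X := by
  obtain ⟨ρ, κ, h0, h⟩ := h
  obtain ⟨u, w, hs⟩ := hs
  rcases h with h | h
  · refine ⟨fun b => ρ b * u b, fun n => w n * κ n, fun b hb n hn => ?_⟩
    have h1 := hs b hb n hn
    have h2 : ρ b * u b * (w n * κ n) = ρ b * (u b * w n) * κ n := by ring
    rw [h2, ← h1, h b hb n hn]
    split_ifs
    · ring
    · rfl
  · refine ⟨fun b => ρ b * conj (u b), fun n => conj (w n) * κ n, fun b hb n hn => ?_⟩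
    have h1 := hs b hb n hn
    have h2 : ρ b * conj (u b) * (conj (w n) * κ n) = ρ b * conj (u b * w n) * κ n := by
      rw [conj_mul]
      ring
    rw [h2, ← h1, h b hb n hn]
    split_ifs
    · rw [conj_zero]
      ring
    · rfl

theorem Eqv.sep2 (h : Eqv D D' B N) : Sep2 D B N X ↔ Sep2 D' B N X :=
  ⟨h.sep2_imp, h.symm.sep2_imp⟩

theorem Eqv.c3 (h : Eqv D D' B N) : C3 D B N ↔ C3 D' B N := by
  unfold C3
  simp only [h.sep1, h.sep2]

private theorem Eqv.bin_imp (h : Eqv D D' B N) (hs : Bin D B N) : Bin D' B N := by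
  obtain ⟨ρ, κ, h0, h⟩ := h
  obtain ⟨ρ', κ', h0', hs⟩ := hs
  rcases h with h | h
  · refine ⟨fun e => ρ' e * (ρ e)⁻¹, fun e => κ' e * (κ e)⁻¹, fun e =>
      ⟨mul_ne_zero (h0' e).1 (inv_ne_zero (h0 e).1),
        mul_ne_zero (h0' e).2 (inv_ne_zero (h0 e).2)⟩, fun b hb n hn => ?_⟩
    have e1 : ρ' b * (ρ b)⁻¹ * D' b n * (κ' n * (κ n)⁻¹) = ρ' b * D b n * κ' n := by
      rw [h b hb n hn]
      have hr := (h0 b).1
      have hk := (h0 n).2
      field_simp
    rw [e1]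
    exact hs b hb n hn
  · have hc : ∀ r : F4, r ≠ 0 → conj r ≠ 0 := by decide
    refine ⟨fun e => conj (ρ' e) * (ρ e)⁻¹, fun e => conj (κ' e) * (κ e)⁻¹, fun e =>
      ⟨mul_ne_zero (hc _ (h0' e).1) (inv_ne_zero (h0 e).1),
        mul_ne_zero (hc _ (h0' e).2) (inv_ne_zero (h0 e).2)⟩, fun b hb n hn => ?_⟩
    have e1 : conj (ρ' b) * (ρ b)⁻¹ * D' b n * (conj (κ' n) * (κ n)⁻¹) =
        conj (ρ' b * D b n * κ' n) := by
      rw [h b hb n hn, conj_mul, conj_mul]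
      have hr := (h0 b).1
      have hk := (h0 n).2
      field_simp
    rw [e1]
    rcases hs b hb n hn with h3 | h3
    · left
      rw [h3, conj_zero]
    · right
      rw [h3, conj_one]

theorem Eqv.bin (h : Eqv D D' B N) : Bin D B N ↔ Bin D' B N :=
  ⟨h.bin_imp, h.symm.bin_imp⟩

private theorem ev_congr_D (h : ∀ b ∈ B, ∀ n ∈ N, D' b n = D b n) (f : ℕ → F4) {e : ℕ}
    (he : e ∈ B ∪ N) : ev D' B f e = ev D B f e := by
  by_cases heB : e ∈ B
  · rw [ev_mem _ _ _ heB, ev_mem _ _ _ heB]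
  · have heN : e ∈ N := (mem_union.1 he).resolve_left heB
    rw [ev_not_mem _ _ _ heB, ev_not_mem _ _ _ heB]
    exact sum_congr rfl fun b hb => by rw [h b hb e heN]

private theorem base_congr_D (h : ∀ b ∈ B, ∀ n ∈ N, D' b n = D b n) (T : Finset ℕ) :
    IsBase D' B N T ↔ IsBase D B N T := by
  unfold IsBase
  constructor
  · rintro ⟨h1, h2, h3⟩
    refine ⟨h1, h2, fun f hf => h3 f fun t ht => ?_⟩
    rw [ev_congr_D h f (h1 ht)]
    exact hf t ht
  · rintro ⟨h1, h2, h3⟩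
    refine ⟨h1, h2, fun f hf => h3 f fun t ht => ?_⟩
    rw [← ev_congr_D h f (h1 ht)]
    exact hf t ht

private theorem isF_congr_D (h : ∀ b ∈ B, ∀ n ∈ N, D' b n = D b n) (T : Finset ℕ) (z : ℕ)
    (f : ℕ → F4) : IsF D' B N T z f ↔ IsF D B N T z f := by
  unfold IsF
  rw [base_congr_D h]
  constructor
  · rintro ⟨h1, h2, h3⟩
    refine ⟨h1, h2, fun t ht => ?_⟩
    rw [← ev_congr_D h f (h1.1 ht)]
    exact h3 t ht
  · rintro ⟨h1, h2, h3⟩
    refine ⟨h1, h2, fun t ht => ?_⟩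
    rw [ev_congr_D h f (h1.1 ht)]
    exact h3 t ht

/-- the notions depend only on the entries -/
theorem spanH_congr (h : ∀ b ∈ B, ∀ n ∈ N, D' b n = D b n) (hd : Disjoint B N)
    (L : Set (Finset ℕ × ℕ)) : SpanH D B N L ↔ SpanH D' B N L := by
  unfold SpanH
  simp only [base_congr_D h, isF_congr_D h]

theorem spanP_congr (h : ∀ b ∈ B, ∀ n ∈ N, D' b n = D b n) (hd : Disjoint B N)
    (P : Set (Finset ℕ × (ℕ × ℕ))) : SpanP D B N P ↔ SpanP D' B N P := by
  have ht : ∀ b ∈ N, ∀ n ∈ B, Pool.Agent.G4.trD D' b n = Pool.Agent.G4.trD D b n :=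
    fun b hb n hn => h n hn b hb
  unfold SpanP
  simp only [base_congr_D h, isF_congr_D h, isF_congr_D ht]
  refine and_congr_right fun h1 => forall_congr' fun Φ => ?_
  have e1 : ∀ p ∈ P, ∀ f : ℕ → F4, ev D' B f p.2.2 = ev D B f p.2.2 := fun p hp f =>
    ev_congr_D h f (mem_sdiff.1 (h1 p hp).2.2.1).1
  constructor
  · intro h2 h3
    obtain ⟨l, hl, h4⟩ := h2 fun p hp f c hf hc => by
      rw [← e1 p hp]
      exact h3 p hp f c hf hc
    refine ⟨l, hl, fun b hb n hn => ?_⟩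
    rw [h b hb n hn]
    exact h4 b hb n hn
  · intro h2 h3
    obtain ⟨l, hl, h4⟩ := h2 fun p hp f c hf hc => by
      rw [e1 p hp]
      exact h3 p hp f c hf hc
    refine ⟨l, hl, fun b hb n hn => ?_⟩
    rw [← h b hb n hn]
    exact h4 b hb n hn

end Pool.Agent.G4
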