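import Pool.Agent.G4.St
import Pool.Agent.G4.Br5
import Pool.Agent.G4.Eqv

set_option autoImplicit false

/-!
# Module U10: duality of states; the normalised matrix of the larger minor

* `dualSt_good`: `mkL` of the first new list is `mkC (B ∪ N)` of the old second one (the finset of
`dif (B ++ N) l` is `(B ∪ N) \ l.toFinset`); `mkC (N ∪ B)` of the second new list is `mkL` of the old
first one, because the old marked bases are subsets of `B ∪ N`. Third list: `spanP_dual`: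
transpose `Φ`, use `circ_val` (`ev (trD D) N c z = ev D B f x`), `isBase_dual`,
`(B ∪ N) \ insert x (T.erase z) = insert z (((B ∪ N) \ T).erase x)`. `ent (trM D) b n = ent D n b`.
* `exists_D1`: `Dv` the matrix of the larger minor (rows `nB`, columns `nN = N ∪ {y}`), `D₀` equivalent
to it on `B x N`: `Dv b n = ρ b * σ (D₀ b n) * κ n`, `σ` the identity or `conj`. Define `D₁ b n = D₀ b n`
for `b ∈ B`, `n ∈ N`; for `p ∈ P`, `n ∈ N`: `D₁ p.2 n = D₀ p.1 n` if `p.1 ∈ B`, `[n = p.1]` if `p.1 ∈ N`. By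
`row_of_sep2` (for `Dv`): if `p.1 ∈ B`: `Dv p.2 n = l * Dv p.1 n`, so `ρ' p.2 = l * ρ p.1` works; if
`p.1 ∈ N`: `Dv p.2 n = 0` for `n ≠ p.1`, `ρ' p.2 = Dv p.2 p.1 * (κ p.1)⁻¹`. Finally
`D₁ b y = σ (Dv b y * (ρ' b)⁻¹)` and `κ' y = 1` (`σ` is an involution commuting with inverses).
Put `D₁ b n = 0` elsewhere. (All `ρ'`, `κ'` nonzero everywhere.)
-/

namespace Pool.Agent.G4

open N487b59b3 F4 Finset

private theorem u10_dif (S T : List ℕ) : (dif S T).toFinset = S.toFinset \ T.toFinset := by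
  ext e
  simp [dif]

private theorem u10_ent (D : Mx) (b n : ℕ) : ent (trM D) b n = ent D n b := by
  unfold ent trM
  have h : (D.map fun p => ((p.1.2, p.1.1), p.2)).filter (fun p => decide (p.1 = (b, n))) =
      (D.filter fun p => decide (p.1 = (n, b))).map fun p => ((p.1.2, p.1.1), p.2) := by
    rw [List.filter_map]
    congr 1
    refine List.filter_congr fun p _ => ?_
    obtain ⟨⟨i, j⟩, v⟩ := p
    simp only [Function.comp, Prod.mk.injEq, decide_eq_decide]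
    exact and_comm
  rw [h]
  cases (D.filter fun p => decide (p.1 = (n, b))) <;> rfl

private theorem u10_ent' (D : Mx) : ent (trM D) = trD (ent D) := by
  funext b n
  exact u10_ent D b n

private theorem u10_set {B N T : Finset ℕ} {x z : ℕ} (hT : T ⊆ B ∪ N) (hz : z ∈ T) :
    insert z (((B ∪ N) \ T).erase x) = (B ∪ N) \ insert x (T.erase z) ∨ x ∉ (B ∪ N) \ T := by
  by_cases hx : x ∈ (B ∪ N) \ T
  · left
    have hxT := (mem_sdiff.1 hx).2
    ext e
    simp only [mem_insert, mem_erase, mem_sdiff, not_or, not_and]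
    constructor
    · rintro (rfl | ⟨h1, h2, h3⟩)
      · exact ⟨hT hz, fun h => hxT (h ▸ hz), fun h => absurd rfl h⟩
      · exact ⟨h2, h1, fun _ => h3⟩
    · rintro ⟨h1, h2, h3⟩
      by_cases hez : e = z
      · exact Or.inl hez
      · exact Or.inr ⟨h2, h1, h3 hez⟩
  · exact Or.inr hx

theorem spanP_dual {D : ℕ → ℕ → F4} {B N : Finset ℕ} (hd : Disjoint B N)
    {P : Set (Finset ℕ × (ℕ × ℕ))} (h : SpanP D B N P) :
    SpanP (trD D) N B {q | ∃ p ∈ P, q = ((B ∪ N) \ p.1, (p.2.2, p.2.1))} := by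
  refine ⟨?_, fun Φ hΦ => ?_⟩
  · rintro q ⟨p, hp, rfl⟩
    obtain ⟨h1, h2, h3, h4⟩ := h.1 p hp
    refine ⟨(isBase_dual hd h1.1).2 h1, h3, ?_, ?_⟩
    · show p.2.1 ∈ (N ∪ B) \ ((B ∪ N) \ p.1)
      rw [union_comm N B, Finset.sdiff_sdiff_eq_self h1.1]
      exact h2
    · show IsBase (trD D) N B (insert p.2.1 (((B ∪ N) \ p.1).erase p.2.2))
      rcases u10_set (x := p.2.2) h1.1 h2 with h5 | h5
      · rw [h5]
        exact (isBase_dual hd h4.1).2 h4
      · exact absurd h3 h5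
  · obtain ⟨l, hl, hl2⟩ := h.2 (fun b n => Φ n b) fun p hp f c hf hc => by
      obtain ⟨h1, h2, h3, h4⟩ := h.1 p hp
      have h5 := hΦ _ ⟨p, hp, rfl⟩ c f hc (by
        show IsF D B N ((N ∪ B) \ ((B ∪ N) \ p.1)) p.2.1 f
        rw [union_comm N B, Finset.sdiff_sdiff_eq_self h1.1]
        exact hf)
      have h6 : ev (trD D) N c p.2.1 = ev D B f p.2.2 := circ_val hd hf hc
      rw [← h6]
      have h7 : ∑ b ∈ B, ∑ n ∈ N, f b * Φ n b * c n = ∑ b ∈ N, ∑ n ∈ B, c b * Φ b n * f n := by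
        rw [sum_comm]
        exact sum_congr rfl fun b _ => sum_congr rfl fun n _ => by ring
      rw [h7]
      exact h5
    refine ⟨l, hl, fun b hb n hn => ?_⟩
    rw [hl2 n hn b hb, add_comm (l n)]
    rfl

theorem dualSt_ent (s : St) (b n : ℕ) : ent (dualSt s).2.1 b n = ent s.2.1 n b :=
  u10_ent s.2.1 b n

theorem dualSt_good {s : St} (h : GoodSt s) : GoodSt (dualSt s) := by
  have hS : (s.1.1 ++ s.1.2).toFinset = s.1.1.toFinset ∪ s.1.2.toFinset := List.toFinset_append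
  refine ⟨h.ndN, h.ndB, h.dj.symm, ?_, ?_, ?_, ?_, ?_⟩
  · show C3 (ent (trM s.2.1)) s.1.2.toFinset s.1.1.toFinset
    rw [u10_ent']
    exact h.c3.trD
  · show SpanH (ent (trM s.2.1)) s.1.2.toFinset s.1.1.toFinset
      (mkL (s.2.2.2.1.map fun p => (dif (s.1.1 ++ s.1.2) p.1, p.2)))
    rw [u10_ent']
    have h1 : mkL (s.2.2.2.1.map fun p => (dif (s.1.1 ++ s.1.2) p.1, p.2)) =
        mkC (s.1.1.toFinset ∪ s.1.2.toFinset) s.2.2.2.1 := by
      ext p
      constructor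
      · rintro ⟨q, hq, rfl⟩
        obtain ⟨q', hq', rfl⟩ := List.mem_map.1 hq
        exact ⟨q', hq', by simp only [u10_dif, hS]⟩
      · rintro ⟨q, hq, rfl⟩
        exact ⟨_, List.mem_map.2 ⟨q, hq, rfl⟩, by simp only [u10_dif, hS]⟩
    rw [h1]
    exact h.spC
  · show SpanH (trD (ent (trM s.2.1))) s.1.1.toFinset s.1.2.toFinset
      (mkC (s.1.2.toFinset ∪ s.1.1.toFinset) (s.2.2.1.map fun p =>
        (dif (s.1.1 ++ s.1.2) p.1, p.2)))
    rw [u10_ent']
    have h1 : mkC (s.1.2.toFinset ∪ s.1.1.toFinset) (s.2.2.1.map fun p =>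
        (dif (s.1.1 ++ s.1.2) p.1, p.2)) = mkL s.2.2.1 := by
      have h2 : ∀ q ∈ s.2.2.1, (s.1.2.toFinset ∪ s.1.1.toFinset) \
          (dif (s.1.1 ++ s.1.2) q.1).toFinset = q.1.toFinset := by
        intro q hq
        have h3 := (h.spL.1 (q.1.toFinset, q.2) ⟨q, hq, rfl⟩).1.1
        rw [u10_dif, hS, union_comm s.1.2.toFinset]
        exact Finset.sdiff_sdiff_eq_self h3
      ext p
      constructor
      · rintro ⟨q, hq, rfl⟩
        obtain ⟨q', hq', rfl⟩ := List.mem_map.1 hq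
        exact ⟨q', hq', by simp only [h2 q' hq']⟩
      · rintro ⟨q, hq, rfl⟩
        exact ⟨_, List.mem_map.2 ⟨q, hq, rfl⟩, by simp only [h2 q hq]⟩
    rw [h1]
    exact h.spL
  · show SpanP (ent (trM s.2.1)) s.1.2.toFinset s.1.1.toFinset
      (mkP (s.2.2.2.2.map fun p => (dif (s.1.1 ++ s.1.2) p.1, (p.2.2, p.2.1))))
    rw [u10_ent']
    have h1 : mkP (s.2.2.2.2.map fun p => (dif (s.1.1 ++ s.1.2) p.1, (p.2.2, p.2.1))) =
        {q | ∃ p ∈ mkP s.2.2.2.2, q = ((s.1.1.toFinset ∪ s.1.2.toFinset) \ p.1,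
          (p.2.2, p.2.1))} := by
      ext p
      constructor
      · rintro ⟨q, hq, rfl⟩
        obtain ⟨q', hq', rfl⟩ := List.mem_map.1 hq
        exact ⟨_, ⟨q', hq', rfl⟩, by simp only [u10_dif, hS]⟩
      · rintro ⟨q, ⟨q', hq', rfl⟩, rfl⟩
        exact ⟨_, List.mem_map.2 ⟨q', hq', rfl⟩, by simp only [u10_dif, hS]⟩
    rw [h1]
    exact spanP_dual h.dj h.spP
  · intro q hq
    obtain ⟨q', hq', rfl⟩ := List.mem_map.1 (show q ∈ s.2.2.1.map fun p =>
      (dif (s.1.1 ++ s.1.2) p.1, p.2) from hq)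
    show (dif (s.1.1 ++ s.1.2) q'.1).toFinset ⊆ s.1.2.toFinset ∪ s.1.1.toFinset
    rw [u10_dif, hS, union_comm s.1.2.toFinset]
    exact sdiff_subset

/-- the identity or the conjugation -/
private def u10sg (t : Bool) (x : F4) : F4 := if t then conj x else x

private theorem u10sg_sg (t : Bool) (x : F4) : u10sg t (u10sg t x) = x := by
  cases t
  · rfl
  · exact conj_conj x

private theorem u10sg_zero (t : Bool) : u10sg t 0 = 0 := by
  cases t <;> rfl

private theorem u10sg_one (t : Bool) : u10sg t 1 = 1 := by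
  cases t <;> rfl

theorem exists_D1 {D₀ Dv : ℕ → ℕ → F4} {B N : Finset ℕ} {P : Finset (ℕ × ℕ)} {y : ℕ}
    (hd : Disjoint B N) (mem : ∀ p ∈ P, p.1 ∈ B ∪ N) (new : ∀ p ∈ P, p.2 ∉ B ∪ N)
    (inj1 : ∀ p ∈ P, ∀ q ∈ P, p.1 = q.1 → p = q) (inj2 : ∀ p ∈ P, ∀ q ∈ P, p.2 = q.2 → p = q)
    (ynew : y ∉ B ∪ N) (yne : ∀ p ∈ P, y ≠ p.2)
    (h3 : C3 Dv (nB B P) (nN N y)) (h4 : 4 ≤ (B ∪ N).card) (he : Eqv D₀ Dv B N)
    (hs : ∀ p ∈ P, Sep2 Dv (nB B P) N {p.1, p.2}) :
    ∃ D₁, Stp D₁ B N P y ∧ (∀ b ∈ B, ∀ n ∈ N, D₁ b n = D₀ b n) ∧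
      Eqv D₁ Dv (nB B P) (nN N y) := by
  classical
  have hBmem : ∀ b, b ∈ nB B P ↔ b ∈ B ∨ ∃ p ∈ P, p.2 = b := by
    intro b
    unfold nB
    rw [mem_union, mem_image]
  have hyN : y ∉ N := fun h => ynew (mem_union_right _ h)
  have hyB : y ∉ B := fun h => ynew (mem_union_left _ h)
  have hdis : Disjoint (nB B P) (insert y N) := by
    rw [disjoint_left]
    intro e h1 h2
    rcases (hBmem e).1 h1 with h1 | ⟨p, hp, rfl⟩
    · rcases mem_insert.1 h2 with rfl | h2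
      · exact hyB h1
      · exact disjoint_left.1 hd h1 h2
    · rcases mem_insert.1 h2 with h2 | h2
      · exact yne p hp h2.symm
      · exact new p hp (mem_union_right _ h2)
  have hcard : 4 ≤ (nB B P ∪ N).card := by
    refine h4.trans (card_le_card ?_)
    exact union_subset_union (by unfold nB; exact subset_union_left) (Subset.refl _)
  obtain ⟨ρ, κ, h0, h⟩ := he
  obtain ⟨t, ht⟩ : ∃ t : Bool, ∀ b ∈ B, ∀ n ∈ N, Dv b n = ρ b * u10sg t (D₀ b n) * κ n := by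
    rcases h with h | h
    · exact ⟨false, h⟩
    · exact ⟨true, h⟩
  have hr : ∀ p ∈ P, ∃ r : F4, r ≠ 0 ∧ ∀ n ∈ N, Dv p.2 n =
      r * u10sg t (if p.1 ∈ B then D₀ p.1 n else if n = p.1 then 1 else 0) * κ n := by
    intro p hp
    have hp2 : p.2 ∈ nB B P := (hBmem _).2 (Or.inr ⟨p, hp, rfl⟩)
    have hne : p.1 ≠ p.2 := fun e => new p hp (e ▸ mem p hp)
    have hp1 : p.1 ∈ nB B P ∪ N := by
      rcases mem_union.1 (mem p hp) with h1 | h1
      · exact mem_union_left _ ((hBmem _).2 (Or.inl h1))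
      · exact mem_union_right _ h1
    have h5 := row_of_sep2 hdis hyN h3 hcard hp2 hp1 hne (hs p hp)
    by_cases hpB : p.1 ∈ B
    · obtain ⟨l, hl, hl2⟩ := h5.1 ((hBmem _).2 (Or.inl hpB))
      refine ⟨l * ρ p.1, mul_ne_zero hl (h0 _).1, fun n hn => ?_⟩
      rw [if_pos hpB, hl2 n hn, ht _ hpB n hn]
      ring
    · have hpN : p.1 ∈ N := (mem_union.1 (mem p hp)).resolve_left hpB
      obtain ⟨h6, h7⟩ := h5.2 hpN
      refine ⟨Dv p.2 p.1 * (κ p.1)⁻¹, mul_ne_zero h6 (inv_ne_zero (h0 _).2), fun n hn => ?_⟩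
      rw [if_neg hpB]
      by_cases hn1 : n = p.1
      · rw [if_pos hn1, u10sg_one, hn1, mul_one, mul_assoc, inv_mul_cancel₀ (h0 _).2, mul_one]
      · rw [if_neg hn1, u10sg_zero, mul_zero, zero_mul]
        exact h7 n hn hn1
  choose! r hr0 hr1 using hr
  -- the partner of a new row
  have hq : ∀ b, ∃ p : ℕ × ℕ, (∃ p ∈ P, p.2 = b) → p ∈ P ∧ p.2 = b := by
    intro b
    by_cases hb : ∃ p ∈ P, p.2 = b
    · obtain ⟨p, hp⟩ := hb
      exact ⟨p, fun _ => hp⟩
    · exact ⟨(0, 0), fun h => absurd h hb⟩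
  choose q hq using hq
  have hqp : ∀ p ∈ P, q p.2 = p := fun p hp =>
    inj2 _ (hq p.2 ⟨p, hp, rfl⟩).1 _ hp (hq p.2 ⟨p, hp, rfl⟩).2
  set ρ' : ℕ → F4 := fun b => if b ∈ B then ρ b else if q b ∈ P then r (q b) else 1 with hρ'
  set κ' : ℕ → F4 := fun n => if n = y then 1 else κ n with hκ'
  set D₁ : ℕ → ℕ → F4 := fun b n => if n = y then u10sg t (Dv b y * (ρ' b)⁻¹)
    else if b ∈ B then D₀ b n
    else if (q b).1 ∈ B then D₀ (q b).1 n else if n = (q b).1 then 1 else 0 with hD₁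
  have hp2B : ∀ p ∈ P, p.2 ∉ B := fun p hp h => new p hp (mem_union_left _ h)
  have hρ0 : ∀ b, ρ' b ≠ 0 := by
    intro b
    simp only [hρ']
    split_ifs with h1 h2
    · exact (h0 b).1
    · exact hr0 _ h2
    · exact one_ne_zero
  have hκ0 : ∀ n, κ' n ≠ 0 := by
    intro n
    simp only [hκ']
    split_ifs
    · exact one_ne_zero
    · exact (h0 n).2
  have hDB : ∀ b ∈ B, ∀ n ∈ N, D₁ b n = D₀ b n := by
    intro b hb n hn
    have hny : n ≠ y := fun e => hyN (e ▸ hn)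
    simp only [hD₁, if_neg hny, if_pos hb]
  have hDP : ∀ p ∈ P, ∀ n ∈ N, D₁ p.2 n =
      if p.1 ∈ B then D₀ p.1 n else if n = p.1 then 1 else 0 := by
    intro p hp n hn
    have hny : n ≠ y := fun e => hyN (e ▸ hn)
    simp only [hD₁, if_neg hny, if_neg (hp2B p hp), hqp p hp]
  refine ⟨D₁, ⟨hd, mem, new, inj1, inj2, ynew, yne, fun p hp n hn => ?_⟩, hDB, ?_⟩
  · rw [hDP p hp n hn]
    by_cases hpB : p.1 ∈ B
    · rw [if_pos hpB, if_pos hpB, hDB _ hpB n hn]
    · rw [if_neg hpB, if_neg hpB]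
  · have key : ∀ b ∈ nB B P, ∀ n ∈ nN N y, Dv b n = ρ' b * u10sg t (D₁ b n) * κ' n := by
      intro b hb n hn
      by_cases hny : n = y
      · subst hny
        simp only [hD₁, hκ', if_true, u10sg_sg, mul_one]
        rw [mul_comm (Dv b n), ← mul_assoc, mul_inv_cancel₀ (hρ0 b), one_mul]
      · have hnN : n ∈ N := (mem_insert.1 hn).resolve_left hny
        have hk : κ' n = κ n := by simp only [hκ', if_neg hny]
        rcases (hBmem b).1 hb with hbB | ⟨p, hp, rfl⟩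
        · have hρb : ρ' b = ρ b := by simp only [hρ', if_pos hbB]
          rw [hρb, hk, hDB b hbB n hnN]
          exact ht b hbB n hnN
        · have hρb : ρ' p.2 = r p := by
            simp only [hρ', if_neg (hp2B p hp), hqp p hp, if_pos hp]
          rw [hρb, hk, hDP p hp n hnN]
          exact hr1 p hp n hnN
    refine ⟨ρ', κ', fun e => ⟨hρ0 e, hκ0 e⟩, ?_⟩
    cases t
    · exact Or.inl key
    · exact Or.inr key

end Pool.Agent.G4
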