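import Pool.Agent.G4.T4

set_option autoImplicit false

/-!
# Module T5: cuts; the piece cut off by a shortest separation

`CutOK D B N c`: `c = (kind, X, (b₀, c₀))`.
* `shortest_spec`: induction on the list (generalise the start value).
* `cutOf_spec`: `e₁ ≠ []`: kind 1, `(b₀, c₀)` is its head: `b₀ ∉ X` row, `c₀ ∈ X` column, `D b₀ c₀ ≠ 0`.
Then `Sep1` fails, so `X` is of the second type of `seps_sound`, and by `sep2_iff` `One D B N X` holds
(`One` of the complement would give `D b₀ c₀ = 0`). `e₁ = []`, `e₂ ≠ []`: kind 2 in the same way.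
Both empty: `Sep1`.
* `sep_lift1` (kind 1): let `SX = insert b₀ X`, `Z ⊆ X`. For a row `b ∉ X` and a column `n ∈ X`:
`D b n * D b₀ c₀ = D b c₀ * D b₀ n`, so on the columns in `X` the row `b` is a multiple of the row
`b₀`; the rows in `X` vanish on the columns outside `X`. `Sep1` on `SX`: `D b₀ n = 0` for `n ∈ Z`
(`b₀ ∉ Z`), so `D b n = 0`. `Sep2` on `SX` by `sep2_iff`: if `One .. Z`: the rows of `SX` not in `Z`,
restricted to the columns in `Z`, have vanishing 2x2 minors; adding multiples of the row `b₀` keeps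
this. If `One .. (SX \ Z)`: `D b₀ n = 0` for `n ∈ Z`, so all rows outside `Z` vanish on the columns in
`Z`; the rows in `Z` vanish outside `X`, so their 2x2 minors on the columns outside `Z` vanish.
* `sep_lift0` (kind 0): `Z ⊆ X`, `Sep1 D B N X`: entries between `X` and its complement vanish.
-/

namespace Pool.Agent.G4

open N487b59b3 F4 Finset

variable {D : ℕ → ℕ → F4} {t : Tab} {B N X Z : Finset ℕ} {b₀ c₀ : ℕ}

/-- a correct cut -/
def CutOK (D : ℕ → ℕ → F4) (B N : Finset ℕ) (c : Cut) : Prop :=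
  c.2.1.Nodup ∧ c.2.1.toFinset ⊆ B ∪ N ∧
  ((c.1 = 0 ∧ Sep1 D B N c.2.1.toFinset) ∨
   (c.1 = 1 ∧ c.2.2.1 ∈ B ∧ c.2.2.1 ∉ c.2.1 ∧ c.2.2.2 ∈ N ∧ c.2.2.2 ∈ c.2.1 ∧
      D c.2.2.1 c.2.2.2 ≠ 0 ∧ One D B N c.2.1.toFinset) ∨
   (c.1 = 2 ∧ c.2.2.1 ∈ B ∧ c.2.2.1 ∈ c.2.1 ∧ c.2.2.2 ∈ N ∧ c.2.2.2 ∉ c.2.1 ∧
      D c.2.2.1 c.2.2.2 ≠ 0 ∧ One D B N ((B ∪ N) \ c.2.1.toFinset)))

private theorem fold_spec' (l : List (List ℕ)) : ∀ s : List ℕ,
    (l.foldl (fun s X => if X.length + 1 ≤ s.length then X else s) s = s ∨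
      l.foldl (fun s X => if X.length + 1 ≤ s.length then X else s) s ∈ l) ∧
    (l.foldl (fun s X => if X.length + 1 ≤ s.length then X else s) s).length ≤ s.length ∧
    ∀ X ∈ l, (l.foldl (fun s X => if X.length + 1 ≤ s.length then X else s) s).length
      ≤ X.length := by
  induction l with
  | nil => intro s; simp
  | cons a l ih =>
    intro s
    simp only [List.foldl_cons]
    by_cases h : a.length + 1 ≤ s.length
    · rw [if_pos h]
      obtain ⟨h1, h2, h3⟩ := ih a
      refine ⟨Or.inr ?_, by omega, ?_⟩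
      · rcases h1 with h1 | h1
        · rw [h1]; exact List.mem_cons_self
        · exact List.mem_cons_of_mem _ h1
      · intro X hX
        rcases List.mem_cons.1 hX with rfl | hX
        · exact h2
        · exact h3 X hX
    · rw [if_neg h]
      obtain ⟨h1, h2, h3⟩ := ih s
      refine ⟨?_, h2, ?_⟩
      · rcases h1 with h1 | h1
        · exact Or.inl h1
        · exact Or.inr (List.mem_cons_of_mem _ h1)
      · intro X hX
        rcases List.mem_cons.1 hX with rfl | hX
        · omega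
        · exact h3 X hX

theorem shortest_spec (l : List (List ℕ)) (h : l ≠ []) :
    shortest l ∈ l ∧ ∀ X ∈ l, (shortest l).length ≤ X.length := by
  unfold shortest
  obtain ⟨h1, h2, h3⟩ := fold_spec' l (l.headD [])
  refine ⟨?_, h3⟩
  rcases h1 with h1 | h1
  · rw [h1]
    cases l with
    | nil => exact absurd rfl h
    | cons a l => simp
  · exact h1

theorem cutOf_spec (h : TabOK D t) {X : List ℕ} (hX : X ∈ seps t) :
    CutOK D t.1.1.toFinset t.1.2.toFinset (cutOf t X) ∧ (cutOf t X).2.1 = X ∧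
    ((cutOf t X).1 = 0 ∨ 2 ≤ X.length) := by
  obtain ⟨hnd, -, hgr, -, hsep⟩ := seps_sound h hX
  have hsub : X.toFinset ⊆ t.1.1.toFinset ∪ t.1.2.toFinset := by
    rw [← gr_toFinset]
    intro e he
    exact List.mem_toFinset.2 (hgr e (List.mem_toFinset.1 he))
  have hm : ∀ e, e ∈ X.toFinset ↔ e ∈ X := fun e => List.mem_toFinset
  unfold cutOf
  simp only
  generalize he1 : (t.2.1.filter fun p => !decide (p.1 ∈ X) && decide (p.2 ∈ X)) = e₁
  generalize he2 : (t.2.1.filter fun p => decide (p.1 ∈ X) && !decide (p.2 ∈ X)) = e₂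
  cases e₁ with
  | cons p l =>
    have hp : p ∈ (t.2.1.filter fun p => !decide (p.1 ∈ X) && decide (p.2 ∈ X)) := by
      rw [he1]; exact List.mem_cons_self
    rw [List.mem_filter] at hp
    obtain ⟨hp1, hp2⟩ := hp
    simp only [Bool.and_eq_true, Bool.not_eq_true', decide_eq_true_eq, decide_eq_false_iff_not]
      at hp2
    obtain ⟨hpB, hpN, hpne⟩ := (h.one p).1 hp1
    have hns : ¬ Sep1 D t.1.1.toFinset t.1.2.toFinset X.toFinset := by
      intro hs
      rcases hs p.1 (List.mem_toFinset.2 hpB) p.2 (List.mem_toFinset.2 hpN) with h1 | h1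
      · rw [hm, hm] at h1
        exact hp2.1 (h1.2 hp2.2)
      · exact hpne h1
    obtain ⟨hs2, hl, -⟩ := hsep.resolve_left hns
    have hone : One D t.1.1.toFinset t.1.2.toFinset X.toFinset := by
      rcases sep2_iff.1 hs2 with h1 | h1
      · exact h1
      · exfalso
        refine hpne (h1.1 p.1 (List.mem_toFinset.2 hpB) p.2 (List.mem_toFinset.2 hpN) ?_ ?_)
        · exact mem_sdiff.2 ⟨mem_union_left _ (List.mem_toFinset.2 hpB), by rw [hm]; exact hp2.1⟩
        · intro h2
          exact (mem_sdiff.1 h2).2 (by rw [hm]; exact hp2.2)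
    simp only [List.isEmpty_cons, Bool.not_false, if_true, List.headD_cons]
    exact ⟨⟨hnd, hsub, Or.inr (Or.inl ⟨rfl, List.mem_toFinset.2 hpB, hp2.1,
      List.mem_toFinset.2 hpN, hp2.2, hpne, hone⟩)⟩, trivial, Or.inr hl⟩
  | nil =>
    cases e₂ with
    | cons p l =>
      have hp : p ∈ (t.2.1.filter fun p => decide (p.1 ∈ X) && !decide (p.2 ∈ X)) := by
        rw [he2]; exact List.mem_cons_self
      rw [List.mem_filter] at hp
      obtain ⟨hp1, hp2⟩ := hp
      simp only [Bool.and_eq_true, Bool.not_eq_true', decide_eq_true_eq, decide_eq_false_iff_not]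
        at hp2
      obtain ⟨hpB, hpN, hpne⟩ := (h.one p).1 hp1
      have hns : ¬ Sep1 D t.1.1.toFinset t.1.2.toFinset X.toFinset := by
        intro hs
        rcases hs p.1 (List.mem_toFinset.2 hpB) p.2 (List.mem_toFinset.2 hpN) with h1 | h1
        · rw [hm, hm] at h1
          exact hp2.2 (h1.1 hp2.1)
        · exact hpne h1
      obtain ⟨hs2, hl, -⟩ := hsep.resolve_left hns
      have hone : One D t.1.1.toFinset t.1.2.toFinset
          ((t.1.1.toFinset ∪ t.1.2.toFinset) \ X.toFinset) := by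
        rcases sep2_iff.1 hs2 with h1 | h1
        · exfalso
          refine hpne (h1.1 p.1 (List.mem_toFinset.2 hpB) p.2 (List.mem_toFinset.2 hpN) ?_ ?_)
          · rw [hm]; exact hp2.1
          · rw [hm]; exact hp2.2
        · exact h1
      simp only [List.isEmpty_cons, List.isEmpty_nil, Bool.not_false, Bool.not_true, if_true,
        List.headD_cons]
      exact ⟨⟨hnd, hsub, Or.inr (Or.inr ⟨rfl, List.mem_toFinset.2 hpB, hp2.1,
        List.mem_toFinset.2 hpN, hp2.2, hpne, hone⟩)⟩, rfl, Or.inr hl⟩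
    | nil =>
      simp only [List.isEmpty_nil, Bool.not_true]
      refine ⟨⟨hnd, hsub, Or.inl ⟨rfl, ?_⟩⟩, rfl, Or.inl rfl⟩
      intro b hb n hn
      change (b ∈ X.toFinset ↔ n ∈ X.toFinset) ∨ D b n = 0
      by_cases h0 : D b n = 0
      · exact Or.inr h0
      · left
        rw [hm, hm]
        have hbn : (b, n) ∈ t.2.1 :=
          (h.one (b, n)).2 ⟨List.mem_toFinset.1 hb, List.mem_toFinset.1 hn, h0⟩
        constructor
        · intro h1
          by_contra h2
          have : (b, n) ∈ (t.2.1.filter fun p => decide (p.1 ∈ X) && !decide (p.2 ∈ X)) :=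
            List.mem_filter.2 ⟨hbn, by simp [h1, h2]⟩
          rw [he2] at this
          exact absurd this List.not_mem_nil
        · intro h1
          by_contra h2
          have : (b, n) ∈ (t.2.1.filter fun p => !decide (p.1 ∈ X) && decide (p.2 ∈ X)) :=
            List.mem_filter.2 ⟨hbn, by simp [h1, h2]⟩
          rw [he1] at this
          exact absurd this List.not_mem_nil

theorem sep_lift1 (hd : Disjoint B N) (hX : X ⊆ B ∪ N) (h : One D B N X) (hb : b₀ ∈ B \ X)
    (hc : c₀ ∈ N ∩ X) (hne : D b₀ c₀ ≠ 0) (hZ : Z ⊆ X) :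
    (Sep1 D (B ∩ insert b₀ X) (N ∩ insert b₀ X) Z → Sep1 D B N Z) ∧
    (Sep2 D (B ∩ insert b₀ X) (N ∩ insert b₀ X) Z → Sep2 D B N Z) := by
  have hbB : b₀ ∈ B := (mem_sdiff.1 hb).1
  have hbX : b₀ ∉ X := (mem_sdiff.1 hb).2
  have hbZ : b₀ ∉ Z := fun h => hbX (hZ h)
  have hcN : c₀ ∈ N := (mem_inter.1 hc).1
  have hcX : c₀ ∈ X := (mem_inter.1 hc).2
  have hb' : b₀ ∈ B ∩ insert b₀ X := mem_inter.2 ⟨hbB, mem_insert_self _ _⟩
  have hin : ∀ {A : Finset ℕ} {e : ℕ}, e ∈ A → e ∈ X → e ∈ A ∩ insert b₀ X :=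
    fun h1 h2 => mem_inter.2 ⟨h1, mem_insert_of_mem h2⟩
  -- rows outside `X` are multiples of the row `b₀`
  have hk : ∀ b ∈ B, b ∉ X → ∃ k : F4, ∀ n ∈ N, n ∈ X → D b n = k * D b₀ n := by
    intro b hbm hbx
    refine ⟨D b c₀ * (D b₀ c₀)⁻¹, fun n hn hnx => ?_⟩
    have h1 := h.2 b hbm b₀ hbB n hn c₀ hcN hbx hbX hnx hcX
    have h2 : D b n = D b n * D b₀ c₀ * (D b₀ c₀)⁻¹ := by
      rw [mul_assoc, mul_inv_cancel₀ hne, mul_one]
    rw [h2, h1]
    ring
  constructor
  · intro hs b hbm n hn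
    by_cases hbx : b ∈ X
    · by_cases hnx : n ∈ X
      · exact hs b (hin hbm hbx) n (hin hn hnx)
      · exact Or.inr (h.1 b hbm n hn hbx hnx)
    · have hbz : b ∉ Z := fun h => hbx (hZ h)
      by_cases hnz : n ∈ Z
      · right
        obtain ⟨k, hk⟩ := hk b hbm hbx
        have h1 : D b₀ n = 0 := by
          rcases hs b₀ hb' n (hin hn (hZ hnz)) with h2 | h2
          · exact absurd (h2.2 hnz) hbZ
          · exact h2
        rw [hk n hn (hZ hnz), h1, mul_zero]
      · exact Or.inl (by tauto)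
  · intro hs
    rcases sep2_iff.1 hs with h1 | h1
    · refine sep2_iff.2 (Or.inl ⟨?_, ?_⟩)
      · intro b hbm n hn hbz hnz
        by_cases hnx : n ∈ X
        · exact h1.1 b (hin hbm (hZ hbz)) n (hin hn hnx) hbz hnz
        · exact h.1 b hbm n hn (hZ hbz) hnx
      · intro b hbm b' hbm' n hn n' hn' hbz hbz' hnz hnz'
        by_cases hbx : b ∈ X
        · by_cases hbx' : b' ∈ X
          · exact h1.2 b (hin hbm hbx) b' (hin hbm' hbx') n (hin hn (hZ hnz)) n'
              (hin hn' (hZ hnz')) hbz hbz' hnz hnz'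
          · obtain ⟨k, hk⟩ := hk b' hbm' hbx'
            have h2 := h1.2 b (hin hbm hbx) b₀ hb' n (hin hn (hZ hnz)) n'
              (hin hn' (hZ hnz')) hbz hbZ hnz hnz'
            rw [hk n hn (hZ hnz), hk n' hn' (hZ hnz')]
            calc D b n * (k * D b₀ n') = k * (D b n * D b₀ n') := by ring
              _ = k * (D b n' * D b₀ n) := by rw [h2]
              _ = D b n' * (k * D b₀ n) := by ring
        · obtain ⟨k, hk1⟩ := hk b hbm hbx
          by_cases hbx' : b' ∈ X
          · have h2 := h1.2 b₀ hb' b' (hin hbm' hbx') n (hin hn (hZ hnz)) n'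
              (hin hn' (hZ hnz')) hbZ hbz' hnz hnz'
            rw [hk1 n hn (hZ hnz), hk1 n' hn' (hZ hnz')]
            calc k * D b₀ n * D b' n' = k * (D b₀ n * D b' n') := by ring
              _ = k * (D b₀ n' * D b' n) := by rw [h2]
              _ = k * D b₀ n' * D b' n := by ring
          · obtain ⟨k', hk2⟩ := hk b' hbm' hbx'
            rw [hk1 n hn (hZ hnz), hk1 n' hn' (hZ hnz'), hk2 n hn (hZ hnz),
              hk2 n' hn' (hZ hnz')]
            ring
    · have hc1 : ∀ {e : ℕ}, e ∈ (B ∩ insert b₀ X) ∪ (N ∩ insert b₀ X) → e ∉ Z →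
          e ∈ ((B ∩ insert b₀ X) ∪ (N ∩ insert b₀ X)) \ Z :=
        fun h1 h2 => mem_sdiff.2 ⟨h1, h2⟩
      have hc2 : ∀ {e : ℕ}, e ∈ Z → e ∉ ((B ∩ insert b₀ X) ∪ (N ∩ insert b₀ X)) \ Z :=
        fun h1 h2 => (mem_sdiff.1 h2).2 h1
      refine sep2_iff.2 (Or.inr ⟨?_, ?_⟩)
      · intro b hbm n hn hbz hnz
        have hbz1 : b ∉ Z := (mem_sdiff.1 hbz).2
        have hnz1 : n ∈ Z := by
          by_contra h2
          exact hnz (mem_sdiff.2 ⟨mem_union_right _ hn, h2⟩)
        by_cases hbx : b ∈ X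
        · exact h1.1 b (hin hbm hbx) n (hin hn (hZ hnz1))
            (hc1 (mem_union_left _ (hin hbm hbx)) hbz1) (hc2 hnz1)
        · obtain ⟨k, hk⟩ := hk b hbm hbx
          have h2 := h1.1 b₀ hb' n (hin hn (hZ hnz1)) (hc1 (mem_union_left _ hb') hbZ) (hc2 hnz1)
          rw [hk n hn (hZ hnz1), h2, mul_zero]
      · intro b hbm b' hbm' n hn n' hn' hbz hbz' hnz hnz'
        have hbz1 : b ∈ Z := by
          by_contra h2
          exact hbz (mem_sdiff.2 ⟨mem_union_left _ hbm, h2⟩)
        have hbz2 : b' ∈ Z := by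
          by_contra h2
          exact hbz' (mem_sdiff.2 ⟨mem_union_left _ hbm', h2⟩)
        have hnz1 : n ∉ Z := (mem_sdiff.1 hnz).2
        have hnz2 : n' ∉ Z := (mem_sdiff.1 hnz').2
        by_cases hnx : n ∈ X
        · by_cases hnx' : n' ∈ X
          · exact h1.2 b (hin hbm (hZ hbz1)) b' (hin hbm' (hZ hbz2)) n (hin hn hnx) n'
              (hin hn' hnx') (hc2 hbz1) (hc2 hbz2) (hc1 (mem_union_right _ (hin hn hnx)) hnz1)
              (hc1 (mem_union_right _ (hin hn' hnx')) hnz2)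
          · rw [h.1 b hbm n' hn' (hZ hbz1) hnx', h.1 b' hbm' n' hn' (hZ hbz2) hnx', zero_mul,
              mul_zero]
        · rw [h.1 b hbm n hn (hZ hbz1) hnx, h.1 b' hbm' n hn (hZ hbz2) hnx, zero_mul, mul_zero]

theorem sep_lift0 (h : Sep1 D B N X) (hZ : Z ⊆ X) :
    (Sep1 D (B ∩ X) (N ∩ X) Z → Sep1 D B N Z) ∧
    (Sep2 D (B ∩ X) (N ∩ X) Z → Sep2 D B N Z) := by
  constructor
  · intro hs b hb n hn
    by_cases hbx : b ∈ X
    · by_cases hnx : n ∈ X
      · exact hs b (mem_inter.2 ⟨hb, hbx⟩) n (mem_inter.2 ⟨hn, hnx⟩)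
      · rcases h b hb n hn with h1 | h1
        · exact absurd (h1.1 hbx) hnx
        · exact Or.inr h1
    · by_cases hnx : n ∈ X
      · rcases h b hb n hn with h1 | h1
        · exact absurd (h1.2 hnx) hbx
        · exact Or.inr h1
      · have h1 : b ∉ Z := fun h => hbx (hZ h)
        have h2 : n ∉ Z := fun h => hnx (hZ h)
        exact Or.inl (by tauto)
  · rintro ⟨u, w, hs⟩
    refine ⟨fun b => if b ∈ X then u b else 0, fun n => if n ∈ X then w n else 0,
      fun b hb n hn => ?_⟩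
    by_cases hbx : b ∈ X
    · by_cases hnx : n ∈ X
      · have h1 := hs b (mem_inter.2 ⟨hb, hbx⟩) n (mem_inter.2 ⟨hn, hnx⟩)
        simp only [hbx, hnx, if_true]
        exact h1
      · have h0 : D b n = 0 := by
          rcases h b hb n hn with h1 | h1
          · exact absurd (h1.1 hbx) hnx
          · exact h1
        simp only [hbx, hnx, if_true, if_false, h0, mul_zero, ite_self]
    · by_cases hnx : n ∈ X
      · have h0 : D b n = 0 := by
          rcases h b hb n hn with h1 | h1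
          · exact absurd (h1.2 hnx) hbx
          · exact h1
        simp only [hbx, hnx, if_true, if_false, h0, zero_mul, ite_self]
      · have h1 : b ∉ Z := fun h => hbx (hZ h)
        have h2 : n ∉ Z := fun h => hnx (hZ h)
        simp only [hbx, hnx, h1, h2, if_false, if_true, mul_zero]

end Pool.Agent.G4
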