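import Pool.Agent.G4.G2
import Pool.Agent.G4.T5
import Pool.Agent.G4.Eqv

set_option autoImplicit false

/-!
# Module G3: the glued matrix

* `ent_mk`: the entry of `mk R C g` is `g b n` for `b ∈ R`, `n ∈ C` (the filtered list consists of
copies of `((b, n), g b n)` and is not empty), and `0` otherwise.
* `glue_spec`: `S = X ∪ SY`-ground set; rows `T ∩ S`, columns `S \ T`. `D'` = entries of
`glueM T c SY DX DY`; `k = DX b₀ c₀ / DY b₀ c₀` (kinds 1, 2), nonzero by `EqM.entry`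
(`D b₀ c₀ ≠ 0`). Kind 1 (`cutX c = X ++ [b₀]`, `SY = (S \ X) ∪ {c₀}`): for `b, n ∈ SX` `D' b n = DX b n`; for
`b, n ∈ SY` `D' b n = k * DY b n` (the only entry in both is `(b₀, c₀)`, where
`DX b₀ c₀ = k * DY b₀ c₀`); for `b ∉ X`, `n ∈ X`:
`D' b n = (D' b c₀) * (D' b₀ n) * (D' b₀ c₀)⁻¹` (all cases); for `b ∈ X`, `n ∉ X`: zero. So
`One D' .. X`, `EqM D D'` on `SX` and (by `Eqv.eqM`) on `SY`; `eqM_glue1`. Kind 2 is the same with
`eqM_glue2`: `cutX c = X ++ [c₀]`, `SY = (S \ X) ∪ {b₀}`, for `b ∈ X`, `n ∉ X`: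
`D' b n = D' b c₀ * D' b₀ n * (D' b₀ c₀)⁻¹`, for `b ∉ X`, `n ∈ X` zero. Kind 0: `Sep1`, `eqM_glue0`.
(`EqM` on the pieces depends only on the entries there: `Eqv.of_eq` and `Eqv.eqM`.)
-/

namespace Pool.Agent.G4

open N487b59b3 F4 Finset

theorem ent_mk (R C : List ℕ) (g : ℕ → ℕ → F4) (b n : ℕ) :
    ent (mk R C g) b n = if b ∈ R ∧ n ∈ C then g b n else 0 := by
  unfold ent
  have hmem : ∀ p, p ∈ (mk R C g).filter (fun p => decide (p.1 = (b, n))) ↔
      (b ∈ R ∧ n ∈ C) ∧ p = ((b, n), g b n) := by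
    intro p
    rw [List.mem_filter, mk, List.mem_flatMap]
    simp only [List.mem_map, decide_eq_true_eq]
    constructor
    · rintro ⟨⟨b', hb', n', hn', rfl⟩, h⟩
      simp only [Prod.mk.injEq] at h
      obtain ⟨rfl, rfl⟩ := h
      exact ⟨⟨hb', hn'⟩, rfl⟩
    · rintro ⟨⟨hb, hn⟩, rfl⟩
      exact ⟨⟨b, hb, n, hn, rfl⟩, rfl⟩
  cases hL : (mk R C g).filter (fun p => decide (p.1 = (b, n))) with
  | nil =>
    rw [if_neg]
    · rfl
    · intro h
      have h1 := (hmem ((b, n), g b n)).mpr ⟨h, rfl⟩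
      rw [hL] at h1
      simp at h1
  | cons p l =>
    have h1 := (hmem p).mp (by rw [hL]; exact List.mem_cons_self)
    rw [if_pos h1.1, List.headD_cons, h1.2]

/-- the ground set of the rest (finset version of `cutY`) -/
theorem cutY_toFinset (S : List ℕ) (c : Cut) :
    (cutY S c).toFinset = if c.1 = 1 then insert c.2.2.2 (S.toFinset \ c.2.1.toFinset)
      else if c.1 = 2 then insert c.2.2.1 (S.toFinset \ c.2.1.toFinset)
      else S.toFinset \ c.2.1.toFinset := by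
  unfold cutY
  split_ifs
  · ext e
    simp only [List.toFinset_append, dif_toFinset, Finset.mem_union, Finset.mem_insert, List.toFinset_cons,
      List.toFinset_nil, Finset.notMem_empty, or_false]
    exact or_comm
  · ext e
    simp only [List.toFinset_append, dif_toFinset, Finset.mem_union, Finset.mem_insert, List.toFinset_cons,
      List.toFinset_nil, Finset.notMem_empty, or_false]
    exact or_comm
  · exact dif_toFinset _ _

/-- the factor of the glued matrix -/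
private def gk (c : Cut) (DX DY : Mx) : F4 :=
  if c.1 = 0 then 1 else ent DX c.2.2.1 c.2.2.2 * (ent DY c.2.2.1 c.2.2.2)⁻¹

/-- the entries of the glued matrix -/
private def gl (c : Cut) (SY : List ℕ) (DX DY : Mx) (b n : ℕ) : F4 :=
  if b ∈ cutX c ∧ n ∈ cutX c then ent DX b n
  else if b ∈ SY ∧ n ∈ SY then gk c DX DY * ent DY b n
  else if c.1 = 1 ∧ ¬ b ∈ c.2.1 ∧ n ∈ c.2.1 then
    gk c DX DY * ent DY b c.2.2.2 * ent DX c.2.2.1 n * (ent DX c.2.2.1 c.2.2.2)⁻¹
  else if c.1 = 2 ∧ b ∈ c.2.1 ∧ ¬ n ∈ c.2.1 then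
    ent DX b c.2.2.2 * (gk c DX DY * ent DY c.2.2.1 n) * (ent DX c.2.2.1 c.2.2.2)⁻¹
  else 0

private theorem glue_ent {T S SY : List ℕ} {c : Cut} {DX DY : Mx}
    (hS1 : ∀ e, e ∈ S ↔ e ∈ c.2.1 ∨ e ∈ SY) {b n : ℕ}
    (hb : b ∈ T.toFinset ∩ S.toFinset) (hn : n ∈ S.toFinset \ T.toFinset) :
    ent (glueM T c SY DX DY) b n = gl c SY DX DY b n := by
  have h0 : glueM T c SY DX DY = mk (nor (c.2.1 ++ dif SY c.2.1) T) (dif (c.2.1 ++ dif SY c.2.1) T)
      (gl c SY DX DY) := rfl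
  have hS2 : ∀ e, e ∈ S → e ∈ c.2.1 ++ dif SY c.2.1 := by
    intro e he
    rw [List.mem_append, mem_dif]
    rcases (hS1 e).mp he with h | h
    · exact Or.inl h
    · by_cases h2 : e ∈ c.2.1
      · exact Or.inl h2
      · exact Or.inr ⟨h, h2⟩
  rw [h0, ent_mk, if_pos]
  rw [mem_nor, mem_dif]
  simp only [Finset.mem_inter, Finset.mem_sdiff, List.mem_toFinset] at hb hn
  exact ⟨⟨hS2 b hb.2, hb.1⟩, ⟨hS2 n hn.1, hn.2⟩⟩

private theorem EqM.trans' {D D' D'' : ℕ → ℕ → F4} {B N : Finset ℕ} (h : EqM D D' B N) (h' : EqM D' D'' B N) :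
    EqM D D'' B N := fun P => (h P).trans (h' P)

private theorem glue_aux0 {D : ℕ → ℕ → F4} {T S SY X : List ℕ} {e₀ : ℕ × ℕ} {DX DY : Mx}
    (hXS : ∀ e ∈ X, e ∈ S) (hsep : Sep1 D (T.toFinset ∩ S.toFinset) (S.toFinset \ T.toFinset) X.toFinset)
    (hSY : SY.toFinset = S.toFinset \ X.toFinset)
    (hX : EqM D (ent DX) (T.toFinset ∩ X.toFinset) (X.toFinset \ T.toFinset))
    (hY : EqM D (ent DY) (T.toFinset ∩ SY.toFinset) (SY.toFinset \ T.toFinset)) :
    EqM D (ent (glueM T (0, (X, e₀)) SY DX DY)) (T.toFinset ∩ S.toFinset) (S.toFinset \ T.toFinset) := by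
  have hSY' : ∀ e, e ∈ SY ↔ e ∈ S ∧ e ∉ X := by
    intro e
    rw [← List.mem_toFinset, hSY, Finset.mem_sdiff, List.mem_toFinset, List.mem_toFinset]
  have hS1 : ∀ e, e ∈ S ↔ e ∈ X ∨ e ∈ SY := by
    intro e
    rw [hSY']
    constructor
    · intro h
      by_cases h2 : e ∈ X
      · exact Or.inl h2
      · exact Or.inr ⟨h, h2⟩
    · rintro (h | h)
      · exact hXS e h
      · exact h.1
  have hBN : (T.toFinset ∩ S.toFinset) ∪ (S.toFinset \ T.toFinset) = S.toFinset := by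
    ext e
    simp only [Finset.mem_union, Finset.mem_inter, Finset.mem_sdiff]
    tauto
  have hXf : X.toFinset ⊆ S.toFinset := by
    intro e he
    rw [List.mem_toFinset] at he ⊢
    exact hXS e he
  have hent : ∀ {b n}, b ∈ T.toFinset ∩ S.toFinset → n ∈ S.toFinset \ T.toFinset →
      ent (glueM T (0, (X, e₀)) SY DX DY) b n = gl (0, (X, e₀)) SY DX DY b n :=
    fun hb hn => glue_ent hS1 hb hn
  have hgl : ∀ b n, gl (0, (X, e₀)) SY DX DY b n =
      if b ∈ X ∧ n ∈ X then ent DX b n else if b ∈ SY ∧ n ∈ SY then ent DY b n else 0 := by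
    intro b n
    simp [gl, cutX, gk]
  refine eqM_glue0 (by rw [hBN]; exact hXf) hsep ?_ ?_ ?_
  · intro b hb n hn
    by_cases h1 : b ∈ X <;> by_cases h2 : n ∈ X
    · left
      simp [h1, h2]
    · right
      rw [hent hb hn, hgl, if_neg (fun h => h2 h.2), if_neg (fun h => ((hSY' b).mp h.1).2 h1)]
    · right
      rw [hent hb hn, hgl, if_neg (fun h => h1 h.1), if_neg (fun h => ((hSY' n).mp h.2).2 h2)]
    · left
      simp [h1, h2]
  · have e1 : (T.toFinset ∩ S.toFinset) ∩ X.toFinset = T.toFinset ∩ X.toFinset := by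
      rw [Finset.inter_assoc, Finset.inter_eq_right.mpr hXf]
    have e2 : (S.toFinset \ T.toFinset) ∩ X.toFinset = X.toFinset \ T.toFinset := by
      ext e
      simp only [Finset.mem_inter, Finset.mem_sdiff]
      exact ⟨fun h => ⟨h.2, h.1.2⟩, fun h => ⟨⟨hXf h.1, h.2⟩, h.1⟩⟩
    rw [e1, e2]
    refine EqM.trans' hX (Eqv.eqM (Eqv.of_eq ?_) ?_)
    · intro b hb n hn
      simp only [Finset.mem_inter, Finset.mem_sdiff, List.mem_toFinset] at hb hn
      rw [hent (by simp only [Finset.mem_inter, List.mem_toFinset]; exact ⟨hb.1, hXS b hb.2⟩)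
        (by simp only [Finset.mem_sdiff, List.mem_toFinset]; exact ⟨hXS n hn.1, hn.2⟩), hgl, if_pos ⟨hb.2, hn.1⟩]
    · rw [Finset.disjoint_left]
      intro e h3 h4
      exact (Finset.mem_sdiff.mp h4).2 (Finset.mem_inter.mp h3).1
  · rw [hBN]
    have e1 : (T.toFinset ∩ S.toFinset) ∩ (S.toFinset \ X.toFinset) = T.toFinset ∩ SY.toFinset := by
      rw [hSY]
      ext e
      simp only [Finset.mem_inter, Finset.mem_sdiff]
      tauto
    have e2 : (S.toFinset \ T.toFinset) ∩ (S.toFinset \ X.toFinset) = SY.toFinset \ T.toFinset := by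
      rw [hSY]
      ext e
      simp only [Finset.mem_inter, Finset.mem_sdiff]
      tauto
    rw [e1, e2]
    refine EqM.trans' hY (Eqv.eqM (Eqv.of_eq ?_) ?_)
    · intro b hb n hn
      simp only [Finset.mem_inter, Finset.mem_sdiff, List.mem_toFinset] at hb hn
      have hb' := (hSY' b).mp hb.2
      have hn' := (hSY' n).mp hn.1
      rw [hent (by simp only [Finset.mem_inter, List.mem_toFinset]; exact ⟨hb.1, hb'.1⟩)
        (by simp only [Finset.mem_sdiff, List.mem_toFinset]; exact ⟨hn'.1, hn.2⟩), hgl,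
        if_neg (fun h => hb'.2 h.1), if_pos ⟨hb.2, hn.1⟩]
    · rw [Finset.disjoint_left]
      intro e h3 h4
      exact (Finset.mem_sdiff.mp h4).2 (Finset.mem_inter.mp h3).1

private theorem glue_aux1 {D : ℕ → ℕ → F4} {T S SY X : List ℕ} {b₀ c₀ : ℕ} {DX DY : Mx}
    (hXS : ∀ e ∈ X, e ∈ S) (hbB : b₀ ∈ T.toFinset ∩ S.toFinset) (hbX : b₀ ∉ X)
    (hcN : c₀ ∈ S.toFinset \ T.toFinset) (hcX : c₀ ∈ X) (hne : D b₀ c₀ ≠ 0)
    (hone : One D (T.toFinset ∩ S.toFinset) (S.toFinset \ T.toFinset) X.toFinset)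
    (hSY : SY.toFinset = insert c₀ (S.toFinset \ X.toFinset))
    (hX : EqM D (ent DX) (T.toFinset ∩ insert b₀ X.toFinset) (insert b₀ X.toFinset \ T.toFinset))
    (hY : EqM D (ent DY) (T.toFinset ∩ SY.toFinset) (SY.toFinset \ T.toFinset)) :
    EqM D (ent (glueM T (1, (X, (b₀, c₀))) SY DX DY)) (T.toFinset ∩ S.toFinset) (S.toFinset \ T.toFinset) := by
  have hd : ∀ A C : Finset ℕ, Disjoint (T.toFinset ∩ A) (C \ T.toFinset) := by
    intro A C
    rw [Finset.disjoint_left]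
    intro x h1 h2
    exact (Finset.mem_sdiff.mp h2).2 (Finset.mem_inter.mp h1).1
  have hSY' : ∀ e, e ∈ SY ↔ e = c₀ ∨ (e ∈ S ∧ e ∉ X) := by
    intro e
    rw [← List.mem_toFinset, hSY, Finset.mem_insert, Finset.mem_sdiff, List.mem_toFinset, List.mem_toFinset]
  have hS1 : ∀ e, e ∈ S ↔ e ∈ X ∨ e ∈ SY := by
    intro e
    rw [hSY']
    constructor
    · intro h
      by_cases h2 : e ∈ X
      · exact Or.inl h2
      · exact Or.inr (Or.inr ⟨h, h2⟩)
    · rintro (h | h | h)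
      · exact hXS e h
      · rw [h]; exact hXS c₀ hcX
      · exact h.1
  have hBN : (T.toFinset ∩ S.toFinset) ∪ (S.toFinset \ T.toFinset) = S.toFinset := by
    ext e
    simp only [Finset.mem_union, Finset.mem_inter, Finset.mem_sdiff]
    tauto
  have hXf : X.toFinset ⊆ S.toFinset := by
    intro e he
    rw [List.mem_toFinset] at he ⊢
    exact hXS e he
  have hbT : b₀ ∈ T := List.mem_toFinset.mp (Finset.mem_inter.mp hbB).1
  have hbS : b₀ ∈ S := List.mem_toFinset.mp (Finset.mem_inter.mp hbB).2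
  have hcS : c₀ ∈ S := List.mem_toFinset.mp (Finset.mem_sdiff.mp hcN).1
  have hcT : c₀ ∉ T := fun h => (Finset.mem_sdiff.mp hcN).2 (List.mem_toFinset.mpr h)
  have hDX : ent DX b₀ c₀ ≠ 0 := by
    refine (EqM.entry (hd _ _) hX ?_ ?_).mp hne
    · simp [hbT]
    · simp [hcX, hcT]
  have hDY : ent DY b₀ c₀ ≠ 0 := by
    refine (EqM.entry (hd _ _) hY ?_ ?_).mp hne
    · rw [hSY]; simp [hbT, hbS, hbX]
    · rw [hSY]; simp [hcT]
  set k : F4 := ent DX b₀ c₀ * (ent DY b₀ c₀)⁻¹ with hk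
  have hk0 : k ≠ 0 := mul_ne_zero hDX (inv_ne_zero hDY)
  have hkD : k * ent DY b₀ c₀ = ent DX b₀ c₀ := by
    rw [hk, mul_assoc, inv_mul_cancel₀ hDY, mul_one]
  have hent : ∀ {b n}, b ∈ T.toFinset ∩ S.toFinset → n ∈ S.toFinset \ T.toFinset →
      ent (glueM T (1, (X, (b₀, c₀))) SY DX DY) b n = gl (1, (X, (b₀, c₀))) SY DX DY b n :=
    fun hb hn => glue_ent hS1 hb hn
  have hgl : ∀ b n, gl (1, (X, (b₀, c₀))) SY DX DY b n =
      if (b ∈ X ∨ b = b₀) ∧ (n ∈ X ∨ n = b₀) then ent DX b n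
      else if b ∈ SY ∧ n ∈ SY then k * ent DY b n
      else if b ∉ X ∧ n ∈ X then k * ent DY b c₀ * ent DX b₀ n * (ent DX b₀ c₀)⁻¹ else 0 := by
    intro b n
    simp [gl, cutX, gk, hk]
  -- the values
  have v1 : ∀ {b n}, b ∈ T.toFinset ∩ S.toFinset → n ∈ S.toFinset \ T.toFinset → (b ∈ X ∨ b = b₀) → n ∈ X →
      ent (glueM T (1, (X, (b₀, c₀))) SY DX DY) b n = ent DX b n := by
    intro b n hb hn h1 h2
    rw [hent hb hn, hgl, if_pos ⟨h1, Or.inl h2⟩]
  have v2 : ∀ {b n}, b ∈ T.toFinset ∩ S.toFinset → n ∈ S.toFinset \ T.toFinset → b ∉ X → (n ∉ X ∨ n = c₀) →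
      ent (glueM T (1, (X, (b₀, c₀))) SY DX DY) b n = k * ent DY b n := by
    intro b n hb hn h1 h2
    have hbS' : b ∈ S := List.mem_toFinset.mp (Finset.mem_inter.mp hb).2
    have hnS' : n ∈ S := List.mem_toFinset.mp (Finset.mem_sdiff.mp hn).1
    have hnT' : n ∉ T := fun h => (Finset.mem_sdiff.mp hn).2 (List.mem_toFinset.mpr h)
    have hnb : n ≠ b₀ := fun h => hnT' (h ▸ hbT)
    have hbSY : b ∈ SY := (hSY' b).mpr (Or.inr ⟨hbS', h1⟩)
    have hnSY : n ∈ SY := by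
      rw [hSY']
      rcases h2 with h2 | h2
      · exact Or.inr ⟨hnS', h2⟩
      · exact Or.inl h2
    by_cases h3 : b = b₀ ∧ n = c₀
    · rw [h3.1, h3.2, v1 hbB hcN (Or.inr rfl) hcX, hkD]
    · rw [hent hb hn, hgl, if_neg, if_pos ⟨hbSY, hnSY⟩]
      rintro ⟨h4 | h4, h5 | h5⟩
      · exact h1 h4
      · exact h1 h4
      · rcases h2 with h2 | h2
        · exact h2 h5
        · exact h3 ⟨h4, h2⟩
      · exact hnb h5
  have v3 : ∀ {b n}, b ∈ T.toFinset ∩ S.toFinset → n ∈ S.toFinset \ T.toFinset → b ∉ X → n ∈ X →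
      ent (glueM T (1, (X, (b₀, c₀))) SY DX DY) b n =
        k * ent DY b c₀ * ent DX b₀ n * (ent DX b₀ c₀)⁻¹ := by
    intro b n hb hn h1 h2
    by_cases h3 : b = b₀
    · rw [v1 hb hn (Or.inr h3) h2, h3, hkD, mul_comm (ent DX b₀ c₀), mul_assoc, mul_inv_cancel₀ hDX, mul_one]
    · by_cases h4 : n = c₀
      · rw [v2 hb hn h1 (Or.inr h4), h4, mul_assoc (k * ent DY b c₀), mul_inv_cancel₀ hDX, mul_one]
      · rw [hent hb hn, hgl, if_neg, if_neg, if_pos ⟨h1, h2⟩]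
        · rintro ⟨_, h5⟩
          rcases (hSY' n).mp h5 with h6 | h6
          · exact h4 h6
          · exact h6.2 h2
        · rintro ⟨h5 | h5, _⟩
          · exact h1 h5
          · exact h3 h5
  have v4 : ∀ {b n}, b ∈ T.toFinset ∩ S.toFinset → n ∈ S.toFinset \ T.toFinset → b ∈ X → n ∉ X →
      ent (glueM T (1, (X, (b₀, c₀))) SY DX DY) b n = 0 := by
    intro b n hb hn h1 h2
    have hbT' : b ∈ T := List.mem_toFinset.mp (Finset.mem_inter.mp hb).1
    have hnT' : n ∉ T := fun h => (Finset.mem_sdiff.mp hn).2 (List.mem_toFinset.mpr h)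
    have hnb : n ≠ b₀ := fun h => hnT' (h ▸ hbT)
    have hbc : b ≠ c₀ := fun h => hcT (h ▸ hbT')
    rw [hent hb hn, hgl, if_neg, if_neg, if_neg]
    · exact fun h => h.1 h1
    · rintro ⟨h5, _⟩
      rcases (hSY' b).mp h5 with h6 | h6
      · exact hbc h6
      · exact h6.2 h1
    · rintro ⟨_, h5 | h5⟩
      · exact h2 h5
      · exact hnb h5
  have hone' : One (ent (glueM T (1, (X, (b₀, c₀))) SY DX DY)) (T.toFinset ∩ S.toFinset)
      (S.toFinset \ T.toFinset) X.toFinset := by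
    constructor
    · intro b hb n hn h1 h2
      exact v4 hb hn (List.mem_toFinset.mp h1) (fun h => h2 (List.mem_toFinset.mpr h))
    · intro b hb b' hb' n hn n' hn' h1 h2 h3 h4
      have h1' : b ∉ X := fun h => h1 (List.mem_toFinset.mpr h)
      have h2' : b' ∉ X := fun h => h2 (List.mem_toFinset.mpr h)
      have h3' : n ∈ X := List.mem_toFinset.mp h3
      have h4' : n' ∈ X := List.mem_toFinset.mp h4
      rw [v3 hb hn h1' h3', v3 hb' hn' h2' h4', v3 hb hn' h1' h4', v3 hb' hn h2' h3']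
      ring
  have hne' : ent (glueM T (1, (X, (b₀, c₀))) SY DX DY) b₀ c₀ ≠ 0 := by
    rw [v1 hbB hcN (Or.inr rfl) hcX]; exact hDX
  refine eqM_glue1 (hd _ _) (by rw [hBN]; exact hXf) hone hone'
    (Finset.mem_sdiff.mpr ⟨hbB, fun h => hbX (List.mem_toFinset.mp h)⟩)
    (Finset.mem_inter.mpr ⟨hcN, List.mem_toFinset.mpr hcX⟩) hne hne' ?_ ?_
  · have hsub : insert b₀ X.toFinset ⊆ S.toFinset :=
      Finset.insert_subset (List.mem_toFinset.mpr hbS) hXf
    have e1 : (T.toFinset ∩ S.toFinset) ∩ insert b₀ X.toFinset = T.toFinset ∩ insert b₀ X.toFinset := by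
      rw [Finset.inter_assoc, Finset.inter_eq_right.mpr hsub]
    have e2 : (S.toFinset \ T.toFinset) ∩ insert b₀ X.toFinset = insert b₀ X.toFinset \ T.toFinset := by
      ext e
      constructor
      · intro h
        have h1 := Finset.mem_inter.mp h
        exact Finset.mem_sdiff.mpr ⟨h1.2, (Finset.mem_sdiff.mp h1.1).2⟩
      · intro h
        have h1 := Finset.mem_sdiff.mp h
        exact Finset.mem_inter.mpr ⟨Finset.mem_sdiff.mpr ⟨hsub h1.1, h1.2⟩, h1.1⟩
    rw [e1, e2]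
    refine EqM.trans' hX (Eqv.eqM (Eqv.of_eq ?_) (hd _ _))
    intro b hb n hn
    have hb1 := Finset.mem_inter.mp hb
    have hn1 := Finset.mem_sdiff.mp hn
    have hnX : n ∈ X := by
      rcases Finset.mem_insert.mp hn1.1 with h | h
      · exact absurd (List.mem_toFinset.mpr (h ▸ hbT)) hn1.2
      · exact List.mem_toFinset.mp h
    refine v1 (Finset.mem_inter.mpr ⟨hb1.1, hsub hb1.2⟩) (Finset.mem_sdiff.mpr ⟨hsub hn1.1, hn1.2⟩) ?_ hnX
    rcases Finset.mem_insert.mp hb1.2 with h | h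
    · exact Or.inr h
    · exact Or.inl (List.mem_toFinset.mp h)
  · rw [hBN]
    have hsub : insert c₀ (S.toFinset \ X.toFinset) ⊆ S.toFinset :=
      Finset.insert_subset (List.mem_toFinset.mpr hcS) Finset.sdiff_subset
    have e1 : (T.toFinset ∩ S.toFinset) ∩ insert c₀ (S.toFinset \ X.toFinset) = T.toFinset ∩ SY.toFinset := by
      rw [Finset.inter_assoc, Finset.inter_eq_right.mpr hsub, hSY]
    have e2 : (S.toFinset \ T.toFinset) ∩ insert c₀ (S.toFinset \ X.toFinset) = SY.toFinset \ T.toFinset := by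
      rw [hSY]
      ext e
      constructor
      · intro h
        have h1 := Finset.mem_inter.mp h
        exact Finset.mem_sdiff.mpr ⟨h1.2, (Finset.mem_sdiff.mp h1.1).2⟩
      · intro h
        have h1 := Finset.mem_sdiff.mp h
        exact Finset.mem_inter.mpr ⟨Finset.mem_sdiff.mpr ⟨hsub h1.1, h1.2⟩, h1.1⟩
    rw [e1, e2]
    refine EqM.trans' hY (Eqv.eqM (⟨fun _ => k, fun _ => 1, fun _ => ⟨hk0, one_ne_zero⟩, Or.inl ?_⟩) (hd _ _))
    intro b hb n hn
    rw [hSY] at hb hn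
    have hb1 := Finset.mem_inter.mp hb
    have hn1 := Finset.mem_sdiff.mp hn
    have hbX' : b ∉ X := by
      rcases Finset.mem_insert.mp hb1.2 with h | h
      · exact absurd (List.mem_toFinset.mp hb1.1) (h ▸ hcT)
      · exact fun h2 => (Finset.mem_sdiff.mp h).2 (List.mem_toFinset.mpr h2)
    rw [v2 (Finset.mem_inter.mpr ⟨hb1.1, hsub hb1.2⟩) (Finset.mem_sdiff.mpr ⟨hsub hn1.1, hn1.2⟩) hbX', mul_one]
    rcases Finset.mem_insert.mp hn1.1 with h | h
    · exact Or.inr h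
    · exact Or.inl fun h2 => (Finset.mem_sdiff.mp h).2 (List.mem_toFinset.mpr h2)

private theorem glue_aux2 {D : ℕ → ℕ → F4} {T S SY X : List ℕ} {b₀ c₀ : ℕ} {DX DY : Mx}
    (hXS : ∀ e ∈ X, e ∈ S) (hbB : b₀ ∈ T.toFinset ∩ S.toFinset) (hbX : b₀ ∈ X)
    (hcN : c₀ ∈ S.toFinset \ T.toFinset) (hcX : c₀ ∉ X) (hne : D b₀ c₀ ≠ 0)
    (hone : One D (T.toFinset ∩ S.toFinset) (S.toFinset \ T.toFinset) (S.toFinset \ X.toFinset))
    (hSY : SY.toFinset = insert b₀ (S.toFinset \ X.toFinset))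
    (hX : EqM D (ent DX) (T.toFinset ∩ insert c₀ X.toFinset) (insert c₀ X.toFinset \ T.toFinset))
    (hY : EqM D (ent DY) (T.toFinset ∩ SY.toFinset) (SY.toFinset \ T.toFinset)) :
    EqM D (ent (glueM T (2, (X, (b₀, c₀))) SY DX DY)) (T.toFinset ∩ S.toFinset) (S.toFinset \ T.toFinset) := by
  have hd : ∀ A C : Finset ℕ, Disjoint (T.toFinset ∩ A) (C \ T.toFinset) := by
    intro A C
    rw [Finset.disjoint_left]
    intro x h1 h2
    exact (Finset.mem_sdiff.mp h2).2 (Finset.mem_inter.mp h1).1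
  have hSY' : ∀ e, e ∈ SY ↔ e = b₀ ∨ (e ∈ S ∧ e ∉ X) := by
    intro e
    rw [← List.mem_toFinset, hSY, Finset.mem_insert, Finset.mem_sdiff, List.mem_toFinset, List.mem_toFinset]
  have hS1 : ∀ e, e ∈ S ↔ e ∈ X ∨ e ∈ SY := by
    intro e
    rw [hSY']
    constructor
    · intro h
      by_cases h2 : e ∈ X
      · exact Or.inl h2
      · exact Or.inr (Or.inr ⟨h, h2⟩)
    · rintro (h | h | h)
      · exact hXS e h
      · rw [h]; exact hXS b₀ hbX
      · exact h.1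
  have hBN : (T.toFinset ∩ S.toFinset) ∪ (S.toFinset \ T.toFinset) = S.toFinset := by
    ext e
    simp only [Finset.mem_union, Finset.mem_inter, Finset.mem_sdiff]
    tauto
  have hXf : X.toFinset ⊆ S.toFinset := by
    intro e he
    rw [List.mem_toFinset] at he ⊢
    exact hXS e he
  have hbT : b₀ ∈ T := List.mem_toFinset.mp (Finset.mem_inter.mp hbB).1
  have hbS : b₀ ∈ S := List.mem_toFinset.mp (Finset.mem_inter.mp hbB).2
  have hcS : c₀ ∈ S := List.mem_toFinset.mp (Finset.mem_sdiff.mp hcN).1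
  have hcT : c₀ ∉ T := fun h => (Finset.mem_sdiff.mp hcN).2 (List.mem_toFinset.mpr h)
  have hDX : ent DX b₀ c₀ ≠ 0 := by
    refine (EqM.entry (hd _ _) hX ?_ ?_).mp hne
    · simp [hbT, hbX]
    · simp [hcT]
  have hDY : ent DY b₀ c₀ ≠ 0 := by
    refine (EqM.entry (hd _ _) hY ?_ ?_).mp hne
    · rw [hSY]; simp [hbT]
    · rw [hSY]; simp [hcT, hcS, hcX]
  set k : F4 := ent DX b₀ c₀ * (ent DY b₀ c₀)⁻¹ with hk
  have hk0 : k ≠ 0 := mul_ne_zero hDX (inv_ne_zero hDY)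
  have hkD : k * ent DY b₀ c₀ = ent DX b₀ c₀ := by
    rw [hk, mul_assoc, inv_mul_cancel₀ hDY, mul_one]
  have hent : ∀ {b n}, b ∈ T.toFinset ∩ S.toFinset → n ∈ S.toFinset \ T.toFinset →
      ent (glueM T (2, (X, (b₀, c₀))) SY DX DY) b n = gl (2, (X, (b₀, c₀))) SY DX DY b n :=
    fun hb hn => glue_ent hS1 hb hn
  have hgl : ∀ b n, gl (2, (X, (b₀, c₀))) SY DX DY b n =
      if (b ∈ X ∨ b = c₀) ∧ (n ∈ X ∨ n = c₀) then ent DX b n
      else if b ∈ SY ∧ n ∈ SY then k * ent DY b n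
      else if b ∈ X ∧ n ∉ X then ent DX b c₀ * (k * ent DY b₀ n) * (ent DX b₀ c₀)⁻¹ else 0 := by
    intro b n
    simp [gl, cutX, gk, hk]
  -- the values
  have v1 : ∀ {b n}, b ∈ T.toFinset ∩ S.toFinset → n ∈ S.toFinset \ T.toFinset → b ∈ X → (n ∈ X ∨ n = c₀) →
      ent (glueM T (2, (X, (b₀, c₀))) SY DX DY) b n = ent DX b n := by
    intro b n hb hn h1 h2
    rw [hent hb hn, hgl, if_pos ⟨Or.inl h1, h2⟩]
  have v2 : ∀ {b n}, b ∈ T.toFinset ∩ S.toFinset → n ∈ S.toFinset \ T.toFinset → (b ∉ X ∨ b = b₀) → n ∉ X →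
      ent (glueM T (2, (X, (b₀, c₀))) SY DX DY) b n = k * ent DY b n := by
    intro b n hb hn h1 h2
    have hbT' : b ∈ T := List.mem_toFinset.mp (Finset.mem_inter.mp hb).1
    have hbS' : b ∈ S := List.mem_toFinset.mp (Finset.mem_inter.mp hb).2
    have hnS' : n ∈ S := List.mem_toFinset.mp (Finset.mem_sdiff.mp hn).1
    have hbc : b ≠ c₀ := fun h => hcT (h ▸ hbT')
    have hnSY : n ∈ SY := (hSY' n).mpr (Or.inr ⟨hnS', h2⟩)
    have hbSY : b ∈ SY := by
      rw [hSY']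
      rcases h1 with h1 | h1
      · exact Or.inr ⟨hbS', h1⟩
      · exact Or.inl h1
    by_cases h3 : b = b₀ ∧ n = c₀
    · rw [h3.1, h3.2, v1 hbB hcN hbX (Or.inr rfl), hkD]
    · rw [hent hb hn, hgl, if_neg, if_pos ⟨hbSY, hnSY⟩]
      rintro ⟨h4 | h4, h5 | h5⟩
      · exact h2 h5
      · rcases h1 with h1 | h1
        · exact h1 h4
        · exact h3 ⟨h1, h5⟩
      · exact h2 h5
      · exact hbc h4
  have v3 : ∀ {b n}, b ∈ T.toFinset ∩ S.toFinset → n ∈ S.toFinset \ T.toFinset → b ∈ X → n ∉ X →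
      ent (glueM T (2, (X, (b₀, c₀))) SY DX DY) b n =
        ent DX b c₀ * (k * ent DY b₀ n) * (ent DX b₀ c₀)⁻¹ := by
    intro b n hb hn h1 h2
    by_cases h3 : b = b₀
    · rw [v2 hb hn (Or.inr h3) h2, h3, mul_comm (ent DX b₀ c₀), mul_assoc _ (ent DX b₀ c₀), mul_inv_cancel₀ hDX,
        mul_one]
    · by_cases h4 : n = c₀
      · rw [v1 hb hn h1 (Or.inr h4), h4, hkD, mul_assoc, mul_inv_cancel₀ hDX, mul_one]
      · rw [hent hb hn, hgl, if_neg, if_neg, if_pos ⟨h1, h2⟩]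
        · rintro ⟨h5, _⟩
          rcases (hSY' b).mp h5 with h6 | h6
          · exact h3 h6
          · exact h6.2 h1
        · rintro ⟨_, h5 | h5⟩
          · exact h2 h5
          · exact h4 h5
  have v4 : ∀ {b n}, b ∈ T.toFinset ∩ S.toFinset → n ∈ S.toFinset \ T.toFinset → b ∉ X → n ∈ X →
      ent (glueM T (2, (X, (b₀, c₀))) SY DX DY) b n = 0 := by
    intro b n hb hn h1 h2
    have hbT' : b ∈ T := List.mem_toFinset.mp (Finset.mem_inter.mp hb).1
    have hnT' : n ∉ T := fun h => (Finset.mem_sdiff.mp hn).2 (List.mem_toFinset.mpr h)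
    have hnb : n ≠ b₀ := fun h => hnT' (h ▸ hbT)
    have hbc : b ≠ c₀ := fun h => hcT (h ▸ hbT')
    rw [hent hb hn, hgl, if_neg, if_neg, if_neg]
    · exact fun h => h1 h.1
    · rintro ⟨_, h5⟩
      rcases (hSY' n).mp h5 with h6 | h6
      · exact hnb h6
      · exact h6.2 h2
    · rintro ⟨h5 | h5, _⟩
      · exact h1 h5
      · exact hbc h5
  have hout : ∀ {e}, e ∈ S.toFinset → e ∉ S.toFinset \ X.toFinset → e ∈ X := by
    intro e h1 h2
    by_contra h3
    exact h2 (Finset.mem_sdiff.mpr ⟨h1, fun h => h3 (List.mem_toFinset.mp h)⟩)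
  have hin : ∀ {e}, e ∈ S.toFinset \ X.toFinset → e ∉ X := fun h h2 =>
    (Finset.mem_sdiff.mp h).2 (List.mem_toFinset.mpr h2)
  have hone' : One (ent (glueM T (2, (X, (b₀, c₀))) SY DX DY)) (T.toFinset ∩ S.toFinset)
      (S.toFinset \ T.toFinset) (S.toFinset \ X.toFinset) := by
    constructor
    · intro b hb n hn h1 h2
      exact v4 hb hn (hin h1) (hout (Finset.mem_sdiff.mp hn).1 h2)
    · intro b hb b' hb' n hn n' hn' h1 h2 h3 h4
      have h1' : b ∈ X := hout (Finset.mem_inter.mp hb).2 h1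
      have h2' : b' ∈ X := hout (Finset.mem_inter.mp hb').2 h2
      have h3' : n ∉ X := hin h3
      have h4' : n' ∉ X := hin h4
      rw [v3 hb hn h1' h3', v3 hb' hn' h2' h4', v3 hb hn' h1' h4', v3 hb' hn h2' h3']
      ring
  have hne' : ent (glueM T (2, (X, (b₀, c₀))) SY DX DY) b₀ c₀ ≠ 0 := by
    rw [v1 hbB hcN hbX (Or.inr rfl)]; exact hDX
  refine eqM_glue2 (X := X.toFinset) (hd _ _) (by rw [hBN]; exact hXf) (by rw [hBN]; exact hone)
    (by rw [hBN]; exact hone')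
    (Finset.mem_inter.mpr ⟨hbB, List.mem_toFinset.mpr hbX⟩)
    (Finset.mem_sdiff.mpr ⟨hcN, fun h => hcX (List.mem_toFinset.mp h)⟩) hne hne' ?_ ?_
  · have hsub : insert c₀ X.toFinset ⊆ S.toFinset :=
      Finset.insert_subset (List.mem_toFinset.mpr hcS) hXf
    have e1 : (T.toFinset ∩ S.toFinset) ∩ insert c₀ X.toFinset = T.toFinset ∩ insert c₀ X.toFinset := by
      rw [Finset.inter_assoc, Finset.inter_eq_right.mpr hsub]
    have e2 : (S.toFinset \ T.toFinset) ∩ insert c₀ X.toFinset = insert c₀ X.toFinset \ T.toFinset := by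
      ext e
      constructor
      · intro h
        have h1 := Finset.mem_inter.mp h
        exact Finset.mem_sdiff.mpr ⟨h1.2, (Finset.mem_sdiff.mp h1.1).2⟩
      · intro h
        have h1 := Finset.mem_sdiff.mp h
        exact Finset.mem_inter.mpr ⟨Finset.mem_sdiff.mpr ⟨hsub h1.1, h1.2⟩, h1.1⟩
    rw [e1, e2]
    refine EqM.trans' hX (Eqv.eqM (Eqv.of_eq ?_) (hd _ _))
    intro b hb n hn
    have hb1 := Finset.mem_inter.mp hb
    have hn1 := Finset.mem_sdiff.mp hn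
    have hbX' : b ∈ X := by
      rcases Finset.mem_insert.mp hb1.2 with h | h
      · exact absurd (List.mem_toFinset.mp hb1.1) (h ▸ hcT)
      · exact List.mem_toFinset.mp h
    refine v1 (Finset.mem_inter.mpr ⟨hb1.1, hsub hb1.2⟩) (Finset.mem_sdiff.mpr ⟨hsub hn1.1, hn1.2⟩) hbX' ?_
    rcases Finset.mem_insert.mp hn1.1 with h | h
    · exact Or.inr h
    · exact Or.inl (List.mem_toFinset.mp h)
  · rw [hBN]
    have hsub : insert b₀ (S.toFinset \ X.toFinset) ⊆ S.toFinset :=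
      Finset.insert_subset (List.mem_toFinset.mpr hbS) Finset.sdiff_subset
    have e1 : (T.toFinset ∩ S.toFinset) ∩ insert b₀ (S.toFinset \ X.toFinset) = T.toFinset ∩ SY.toFinset := by
      rw [Finset.inter_assoc, Finset.inter_eq_right.mpr hsub, hSY]
    have e2 : (S.toFinset \ T.toFinset) ∩ insert b₀ (S.toFinset \ X.toFinset) = SY.toFinset \ T.toFinset := by
      rw [hSY]
      ext e
      constructor
      · intro h
        have h1 := Finset.mem_inter.mp h
        exact Finset.mem_sdiff.mpr ⟨h1.2, (Finset.mem_sdiff.mp h1.1).2⟩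
      · intro h
        have h1 := Finset.mem_sdiff.mp h
        exact Finset.mem_inter.mpr ⟨Finset.mem_sdiff.mpr ⟨hsub h1.1, h1.2⟩, h1.1⟩
    rw [e1, e2]
    refine EqM.trans' hY (Eqv.eqM (⟨fun _ => k, fun _ => 1, fun _ => ⟨hk0, one_ne_zero⟩, Or.inl ?_⟩) (hd _ _))
    intro b hb n hn
    rw [hSY] at hb hn
    have hb1 := Finset.mem_inter.mp hb
    have hn1 := Finset.mem_sdiff.mp hn
    have hnX' : n ∉ X := by
      rcases Finset.mem_insert.mp hn1.1 with h | h
      · exact absurd (List.mem_toFinset.mpr (h ▸ hbT)) hn1.2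
      · exact hin h
    rw [v2 (Finset.mem_inter.mpr ⟨hb1.1, hsub hb1.2⟩) (Finset.mem_sdiff.mpr ⟨hsub hn1.1, hn1.2⟩) ?_ hnX', mul_one]
    rcases Finset.mem_insert.mp hb1.2 with h | h
    · exact Or.inr h
    · exact Or.inl (hin h)

theorem glue_spec {D : ℕ → ℕ → F4} {T S SY : List ℕ} {c : Cut} {DX DY : Mx}
    (hc : CutOK D (T.toFinset ∩ S.toFinset) (S.toFinset \ T.toFinset) c)
    (hSY : SY.toFinset = (cutY S c).toFinset)
    (hX : EqM D (ent DX) (T.toFinset ∩ (cutX c).toFinset) ((cutX c).toFinset \ T.toFinset))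
    (hY : EqM D (ent DY) (T.toFinset ∩ SY.toFinset) (SY.toFinset \ T.toFinset)) :
    EqM D (ent (glueM T c SY DX DY)) (T.toFinset ∩ S.toFinset) (S.toFinset \ T.toFinset) := by
  obtain ⟨κ, X, b₀, c₀⟩ := c
  have hBN : (T.toFinset ∩ S.toFinset) ∪ (S.toFinset \ T.toFinset) = S.toFinset := by
    ext e
    simp only [Finset.mem_union, Finset.mem_inter, Finset.mem_sdiff]
    tauto
  obtain ⟨_, hsub, hk⟩ := hc
  rw [hBN] at hsub hk
  simp only at hsub hk
  have hXS : ∀ e ∈ X, e ∈ S := fun e he => List.mem_toFinset.mp (hsub (List.mem_toFinset.mpr he))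
  rw [cutY_toFinset] at hSY
  rcases hk with ⟨rfl, h⟩ | ⟨rfl, h1, h2, h3, h4, h5, h6⟩ | ⟨rfl, h1, h2, h3, h4, h5, h6⟩
  · have e1 : cutX (0, (X, (b₀, c₀))) = X := by simp [cutX]
    rw [e1] at hX
    exact glue_aux0 hXS h (by simpa using hSY) hX hY
  · have e1 : (cutX (1, (X, (b₀, c₀)))).toFinset = insert b₀ X.toFinset := by
      ext e
      simp [cutX, or_comm]
    rw [e1] at hX
    exact glue_aux1 hXS h1 h2 h3 h4 h5 h6 (by simpa using hSY) hX hY
  · have e1 : (cutX (2, (X, (b₀, c₀)))).toFinset = insert c₀ X.toFinset := by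
      ext e
      simp [cutX, or_comm]
    rw [e1] at hX
    exact glue_aux2 hXS h1 h2 h3 h4 h5 h6 (by simpa using hSY) hX hY

end Pool.Agent.G4
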