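import Pool.Agent.G4.U3
import Pool.Agent.G4.G3

set_option autoImplicit false

/-!
# Module U5: the new matrix

PROOF. `ent_mk` (module G3): the entry of `newD` at `(b, n)`, `b ∈ B ++ ps.map p.2`, `n ∈ N ++ [y]` is the
value of the function. `n = y`, `b ∈ B`: `look (B.zip (B.map ..)) b = κ * D₁ b y`. `n = y`,
`b = p.2`, `p ∈ ps`: `partner ps b = p.1` (the `p.2` are different), the value is
`κ * sco p + (if p.1 ∈ B then κ * D₁ p.1 y else 0) = κ * D₁ p.2 y` (definition of `sco`, characteristic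
two). `n ∈ N` (so `n ≠ y`), `b ∈ B`: `ent s.2.1 b n = D₁ b n`; `b = p.2`: `Stp.row`.
-/

namespace Pool.Agent.G4

open N487b59b3 F4 Finset

private theorem u5_head {α : Type} (L : List α) (q : α → Bool) (d x : α)
    (hx : x ∈ L) (hq : q x = true) (h : ∀ z ∈ L, q z = true → z = x) :
    (L.filter q).headD d = x := by
  cases hL : L.filter q with
  | nil =>
    exfalso
    have h1 : x ∈ L.filter q := List.mem_filter.2 ⟨hx, hq⟩
    rw [hL] at h1
    simp at h1
  | cons z l =>
    have h1 : z ∈ L.filter q := by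
      rw [hL]
      exact List.mem_cons_self
    rw [List.headD_cons]
    exact h z (List.mem_filter.1 h1).1 (List.mem_filter.1 h1).2

private theorem u5_look (l : List ℕ) (f : ℕ → F4) {b : ℕ} (hb : b ∈ l) :
    look (l.zip (l.map f)) b = f b := by
  have h1 : l.zip (l.map f) = l.map fun x => (x, f x) := by
    induction l with
    | nil => rfl
    | cons x l ih =>
      rw [List.map_cons, List.map_cons, List.zip_cons_cons]
      by_cases hbl : b ∈ l
      · rw [ih hbl]
      · congr 1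
        clear ih hb hbl
        induction l with
        | nil => rfl
        | cons y l ih => rw [List.map_cons, List.map_cons, List.zip_cons_cons, ih]
  unfold look
  rw [h1, u5_head _ _ _ (b, f b)]
  · exact List.mem_map.2 ⟨b, hb, rfl⟩
  · simp
  · intro z hz hzb
    obtain ⟨x, -, rfl⟩ := List.mem_map.1 hz
    have h2 : x = b := by simpa using hzb
    rw [h2]

private theorem u5_partner (ps : List (ℕ × ℕ)) (hinj : ∀ p ∈ ps, ∀ q ∈ ps, p.2 = q.2 → p = q)
    {p : ℕ × ℕ} (hp : p ∈ ps) : partner ps p.2 = p.1 := by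
  unfold partner
  rw [u5_head _ _ _ p hp]
  · simp
  · intro z hz hzp
    have h2 : z.2 = p.2 := by simpa using hzp
    exact hinj z hz p hp h2

theorem newD_spec {s : St} {ps : List (ℕ × ℕ)} {y : ℕ} {D₁ : ℕ → ℕ → F4}
    {ans : List (Desc × Bool)} (h : StepCtx s ps y D₁ ans) {c : List F4 × List (ℕ × F4)} {κ : F4}
    (h1 : c.1 = s.1.1.map (fun b => κ * D₁ b y))
    (h2 : ∀ p ∈ ps, look c.2 p.2 = κ * sco D₁ s.1.1.toFinset y p) :
    ∀ b ∈ nB s.1.1.toFinset ps.toFinset, ∀ n ∈ nN s.1.2.toFinset y,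
      ent (newD s ps y c) b n = if n = y then κ * D₁ b y else D₁ b n := by
  intro b hb n hn
  have hinj : ∀ p ∈ ps, ∀ q ∈ ps, p.2 = q.2 → p = q := fun p hp q hq =>
    h.st.inj2 p (List.mem_toFinset.2 hp) q (List.mem_toFinset.2 hq)
  have hb' : b ∈ s.1.1 ∨ ∃ p ∈ ps, p.2 = b := by
    unfold nB at hb
    rcases Finset.mem_union.1 hb with hb | hb
    · exact Or.inl (List.mem_toFinset.1 hb)
    · obtain ⟨p, hp, hpb⟩ := Finset.mem_image.1 hb
      exact Or.inr ⟨p, List.mem_toFinset.1 hp, hpb⟩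
  have hn' : n = y ∨ n ∈ s.1.2 := by
    unfold nN at hn
    rcases Finset.mem_insert.1 hn with hn | hn
    · exact Or.inl hn
    · exact Or.inr (List.mem_toFinset.1 hn)
  have hpB : ∀ p ∈ ps, p.2 ∉ s.1.1 := fun p hp hpB =>
    h.st.new p (List.mem_toFinset.2 hp) (Finset.mem_union_left _ (List.mem_toFinset.2 hpB))
  unfold newD
  simp only
  rw [ent_mk, if_pos]
  swap
  · constructor
    · rw [List.mem_append, List.mem_map]
      exact hb'
    · rw [List.mem_append, List.mem_singleton]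
      exact hn'.symm
  have hlook : ∀ b ∈ s.1.1, look (s.1.1.zip c.1) b = κ * D₁ b y := by
    intro b hb
    rw [h1]
    exact u5_look s.1.1 (fun b => κ * D₁ b y) hb
  by_cases hny : n = y
  · rw [if_pos hny, if_pos hny]
    rcases hb' with hbB | ⟨p, hp, rfl⟩
    · rw [if_pos hbB, hlook b hbB]
    · rw [if_neg (hpB p hp), u5_partner ps hinj hp, h2 p hp]
      unfold sco
      have hmem : p.1 ∈ s.1.1.toFinset ↔ p.1 ∈ s.1.1 := List.mem_toFinset
      by_cases hp1 : p.1 ∈ s.1.1
      · rw [if_pos hp1, if_pos (hmem.2 hp1), hlook _ hp1, mul_add, add_assoc, add_self, add_zero]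
      · rw [if_neg hp1, if_neg (fun h' => hp1 (hmem.1 h')), add_zero, add_zero]
  · have hnN : n ∈ s.1.2 := hn'.resolve_left hny
    rw [if_neg hny, if_neg hny]
    rcases hb' with hbB | ⟨p, hp, rfl⟩
    · rw [if_pos hbB, h.old b hbB n hnN]
    · rw [if_neg (hpB p hp), u5_partner ps hinj hp,
        h.st.row p (List.mem_toFinset.2 hp) n (List.mem_toFinset.2 hnN)]
      have hmem : p.1 ∈ s.1.1.toFinset ↔ p.1 ∈ s.1.1 := List.mem_toFinset
      by_cases hp1 : p.1 ∈ s.1.1
      · rw [if_pos hp1, if_pos (hmem.2 hp1), h.old _ hp1 n hnN]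
      · rw [if_neg hp1, if_neg (fun h' => hp1 (hmem.1 h'))]

end Pool.Agent.G4
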