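import Pool.Agent.G4.Conn

set_option autoImplicit false

/-!
# Module B4b: columns of 3-connected matrices
-/

namespace Pool.Agent.G4

open F4 Finset

variable {D : ℕ → ℕ → F4} {B N X : Finset ℕ}

private theorem sep2_unit (hd : Disjoint B N) {b₀ n₀ : ℕ} (hb₀ : b₀ ∈ B) (hn₀ : n₀ ∈ N)
    (h : ∀ b ∈ B, b ≠ b₀ → D b n₀ = 0) : Sep2 D B N {b₀, n₀} := by
  classical
  refine ⟨fun b => if b = b₀ then 1 else 0, fun n => if n = n₀ then 0 else D b₀ n,
    fun b hb n hn => ?_⟩
  have h1 : b ≠ n₀ := fun h => (disjoint_left.1 hd hb) (h ▸ hn₀)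
  have h2 : n ≠ b₀ := fun h => (disjoint_left.1 hd hb₀) (h ▸ hn)
  simp only [mem_insert, mem_singleton, h1, h2, or_false, false_or]
  by_cases hb1 : b = b₀ <;> by_cases hn1 : n = n₀
  · simp [hb1, hn1]
  · simp [hb1, hn1]
  · subst hn1
    simp [hb1, h b hb hb1]
  · simp [hb1, hn1]

private theorem sep2_prop (hd : Disjoint B N) {e e' : ℕ} (he : e ∈ N) (he' : e' ∈ N) (k : F4)
    (h : ∀ b ∈ B, D b e' = k * D b e) : Sep2 D B N {e, e'} := by
  classical
  refine ⟨fun b => D b e, fun n => if n = e then 1 else if n = e' then k else 0,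
    fun b hb n hn => ?_⟩
  have h1 : b ≠ e := fun h => (disjoint_left.1 hd hb) (h ▸ he)
  have h2 : b ≠ e' := fun h => (disjoint_left.1 hd hb) (h ▸ he')
  simp only [mem_insert, mem_singleton, h1, h2, or_false, false_iff]
  by_cases hn1 : n = e
  · simp [hn1]
  · by_cases hn2 : n = e'
    · subst hn2
      simp [hn1, h b hb, mul_comm]
    · simp [hn1, hn2]

private theorem C3.not_sep2_pair (h : C3 D B N) {x y : ℕ} (hx : x ∈ B ∪ N) (hy : y ∈ B ∪ N)
    (hne : x ≠ y) (hs : Sep2 D B N {x, y}) : False := by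
  have hsub : ({x, y} : Finset ℕ) ⊆ B ∪ N := by
    intro z hz
    rcases mem_insert.1 hz with rfl | hz
    · exact hx
    · rw [mem_singleton.1 hz]
      exact hy
  have h1 := h.2.2 _ hsub hs
  have h2 := h.1
  have h3 : ({x, y} : Finset ℕ).card = 2 := card_pair hne
  rw [card_sdiff_of_subset hsub, h3] at h1
  omega

private theorem C3.indep2_aux (h : C3 D B N) (hd : Disjoint B N) {e e' : ℕ} (he : e ∈ B ∪ N)
    (he' : e' ∈ B ∪ N) (hne : e ≠ e') (c c' : F4)
    (h0 : ∀ b ∈ B, c * col D B e b + c' * col D B e' b = 0) : c' = 0 := by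
  classical
  by_contra hc'
  have key : ∀ x y z t : F4, z ≠ 0 → x * y + z * t = 0 → t = z⁻¹ * x * y := by decide
  obtain ⟨k, hk⟩ : ∃ k : F4, k = c'⁻¹ * c := ⟨_, rfl⟩
  have h1 : ∀ b ∈ B, col D B e' b = k * col D B e b := fun b hb => by
    rw [hk]
    exact key _ _ _ _ hc' (h0 b hb)
  by_cases heB' : e' ∈ B
  · have h2 := h1 e' heB'
    by_cases heB : e ∈ B
    · simp [col, heB, heB', hne] at h2
    · have heN : e ∈ N := (mem_union.1 he).resolve_left heB
      simp only [col, heB', if_true, heB, if_false] at h2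
      have hk0 : k ≠ 0 := by
        rintro rfl
        rw [zero_mul] at h2
        exact one_ne_zero h2
      refine h.not_sep2_pair he' he hne.symm (sep2_unit hd heB' heN fun b hb hbe => ?_)
      have h3 := h1 b hb
      simp only [col, heB', if_true, heB, if_false, if_neg (Ne.symm hbe)] at h3
      exact (mul_eq_zero.1 h3.symm).resolve_left hk0
  · have heN' : e' ∈ N := (mem_union.1 he').resolve_left heB'
    by_cases heB : e ∈ B
    · refine h.not_sep2_pair he he' hne (sep2_unit hd heB heN' fun b hb hbe => ?_)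
      have h3 := h1 b hb
      simp only [col, heB, if_true, heB', if_false, if_neg (Ne.symm hbe), mul_zero] at h3
      exact h3
    · have heN : e ∈ N := (mem_union.1 he).resolve_left heB
      refine h.not_sep2_pair he he' hne (sep2_prop hd heN heN' k fun b hb => ?_)
      have h3 := h1 b hb
      simpa only [col, heB, heB', if_false] using h3

/-- different elements have non-proportional nonzero columns -/
theorem C3.indep2 (h : C3 D B N) (hd : Disjoint B N) {e e' : ℕ} (he : e ∈ B ∪ N)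
    (he' : e' ∈ B ∪ N) (hne : e ≠ e') (c c' : F4)
    (h0 : ∀ b ∈ B, c * col D B e b + c' * col D B e' b = 0) : c = 0 ∧ c' = 0 := by
  refine ⟨h.indep2_aux hd he' he hne.symm c' c fun b hb => ?_, h.indep2_aux hd he he' hne c c' h0⟩
  rw [add_comm]
  exact h0 b hb

theorem C3.col_ne (h : C3 D B N) (hd : Disjoint B N) {e : ℕ} (he : e ∈ B ∪ N) :
    ∃ b ∈ B, col D B e b ≠ 0 := by
  by_contra hall
  push Not at hall
  obtain ⟨e', he', hne⟩ : ∃ e' ∈ B ∪ N, e' ≠ e := by
    have h1 := h.1
    exact exists_mem_ne (by omega) e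
  have h2 := (h.indep2 hd he he' hne.symm 1 0 fun b hb => by
    rw [hall b hb, mul_zero, zero_mul, add_zero]).1
  exact one_ne_zero h2

/-- a rank one matrix of the form `(l b + l n) D b n` on a 3-connected matroid -/
theorem C3.rank_one (h : C3 D B N) (hd : Disjoint B N) (l u w : ℕ → F4)
    (hl : ∀ e, l e = 0 ∨ l e = 1)
    (h0 : ∀ b ∈ B, ∀ n ∈ N, (l b + l n) * D b n = u b * w n) :
    ((B ∪ N).filter fun e => l e = 1).card ≤ 1 ∨ ((B ∪ N).filter fun e => l e = 0).card ≤ 1 := by
  classical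
  have hs : Sep2 D B N ((B ∪ N).filter fun e => l e = 1) := by
    refine ⟨u, w, fun b hb n hn => ?_⟩
    rw [← h0 b hb n hn]
    have hb' : b ∈ B ∪ N := mem_union_left _ hb
    have hn' : n ∈ B ∪ N := mem_union_right _ hn
    simp only [mem_filter, hb', hn', true_and]
    have e01 : (0 : F4) ≠ 1 := by decide
    have e11 : (1 : F4) + 1 = 0 := by decide
    rcases hl b with h1 | h1 <;> rcases hl n with h2 | h2 <;> simp [h1, h2, e01, e11]
  have h3 := h.2.2 _ (filter_subset _ _) hs
  have h4 : (B ∪ N) \ ((B ∪ N).filter fun e => l e = 1) = (B ∪ N).filter fun e => l e = 0 := by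
    ext e
    simp only [mem_sdiff, mem_filter]
    have e01 : (0 : F4) ≠ 1 := by decide
    constructor
    · rintro ⟨a, b⟩
      exact ⟨a, (hl e).resolve_right fun h => b ⟨a, h⟩⟩
    · rintro ⟨a, b⟩
      refine ⟨a, fun h => e01 ?_⟩
      rw [← b, h.2]
  rw [h4] at h3
  exact h3

end Pool.Agent.G4
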