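import Pool.Agent.G4.SP2b
import Pool.Agent.G4.Conn2

set_option autoImplicit false

/-!
# Module S5: Hermitian forms on the circuit space of the new matroid

PROOF. `W` Hermitian on `nN = N ∪ {y}` with `qf (nN) W c' = 0` for the vectors `c'` of `Lc'`.
1. For `q ∈ Lc` with vector `c` the vector of `(insert y q.1, q.2)` is `c` on `N` and `0` at `y`
(`insert y q.1 = (nB ∪ nN) \ (((B ∪ N) \ q.1) ∪ p.2's)`; as in `circ_lift_a`), so by `hc.2`
`W i j = 0` on `N`.
2. So for `c` on `nN` with `c y = 1`: `qf W c = tr (∑_{n ∈ N} c n * W n y) + W y y`. For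
`p = (T', (z', x')) ∈ Q` with vectors `f`, `c`, and the circuit vectors `c₁` of `(T', y)`, `c₂` of
`(insert x' (T'.erase z'), y)`: `hQ2` gives `qf W c₁ = qf W c₂ = 0`, sum:
`tr (∑_n (c₁ n + c₂ n) W n y) = 0`, and `circ_exchange` (for the new matroid):
`c₁ n + c₂ n = ev f y * (ev f x')⁻¹ * c n`. With `Φ b n = D b y * W n y`
(`ev f y = ∑_b f b D b y`): `tr ((∑_b ∑_{n ∈ N} f b Φ b n c n) * (ev f x')⁻¹) = 0`. So
`pairSet_map` gives `D b y * W n y = (l b + l n) * D b n` for `b ∈ nB`, `n ∈ N`.
3. Suppose `W n₀ y ≠ 0` for some `n₀ ∈ N`. Let `X = {e ∈ nB ∪ N : l e = 1}`; replacing `l` by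
`l + 1` we may assume `n₀ ∈ X`. Then `D b y = 0` for `b ∈ X` (`l b + l n₀ = 0`). The column `y` is
not zero (`C3.col_ne hM`), so `nB \ X ≠ ∅`, and for `n ∈ N \ X` `W n y = 0` (take `b ∉ X` with
`D b y ≠ 0`), so `D b n = 0` for `b ∈ X`, `n ∈ N \ X`; and `D b n = D b y * W n y` for `b ∉ X`,
`n ∈ X`. So both `X` and `insert y X` satisfy `Sep2 D (nB) (nN)` (`u b = D b y`; `w n = W n y` for
`n ∈ N ∩ X`, `0` for `n ∈ N \ X`, and `w y = 0` respectively `w y = 1`). By `hM`: `X.card ≤ 1` (the
complement contains `y` and some `b`), and for `insert y X` (`≥ 2` elements) the complement has at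
most one element; so the new matroid has at most `1 + 1 + 1 < 4` elements, contradiction.
4. So `W n y = 0` on `N`, and `qf W c₁ = 0` gives `W y y = 0` (`Q` is not empty: otherwise the
hypothesis of `pairSet_map` would be void for all `Φ`, impossible for a `Φ` which is not of the
trivial form, e.g. scale: take `Φ b n = ω D b n`, and `D b n ≠ 0` for some `b`, `n`).
-/

namespace Pool.Agent.G4

open F4 Finset

variable {D : ℕ → ℕ → F4} {B N : Finset ℕ} {P : Finset (ℕ × ℕ)} {y : ℕ}

private theorem sc_ev (D : ℕ → ℕ → F4) (N B : Finset ℕ) (P : Finset (ℕ × ℕ)) (y : ℕ) (hy : y ∉ N)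
    (c : ℕ → F4) {t : ℕ} (ht : t ≠ y) :
    ev D (nN N y) (fun n => if n = y then 0 else c n) t = ev D N c t := by
  have hs : ∀ g : ℕ → F4, ∑ n ∈ nN N y, (if n = y then 0 else c n) * g n = ∑ n ∈ N, c n * g n := by
    intro g
    unfold nN
    rw [Finset.sum_insert hy]
    simp only [if_true, zero_mul, zero_add]
    refine Finset.sum_congr rfl fun n hn => ?_
    have : n ≠ y := fun h => hy (h ▸ hn)
    rw [if_neg this]
  by_cases htN : t ∈ N
  · rw [ev_mem D N c htN, ev_mem D (nN N y) _ (Finset.mem_insert_of_mem htN), if_neg ht]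
  · have : t ∉ nN N y := by
      unfold nN
      simp [ht, htN]
    rw [ev_not_mem D N c htN, ev_not_mem D (nN N y) _ this, hs]

private theorem sc_qf0 (N : Finset ℕ) (y : ℕ) (hy : y ∉ N) (W : ℕ → ℕ → F4) (c : ℕ → F4) :
    qf (nN N y) W (fun n => if n = y then 0 else c n) = qf N W c := by
  unfold qf nN
  rw [Finset.sum_insert hy]
  have h1 : ∑ j ∈ insert y N, (if y = y then 0 else c y) * W y j *
      conj (if j = y then 0 else c j) = 0 := by
    refine Finset.sum_eq_zero fun j _ => ?_
    simp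
  rw [h1, zero_add]
  refine Finset.sum_congr rfl fun i hi => ?_
  have hiy : i ≠ y := fun h => hy (h ▸ hi)
  rw [Finset.sum_insert hy]
  simp only [if_true, conj_zero, mul_zero, zero_add, if_neg hiy]
  refine Finset.sum_congr rfl fun j hj => ?_
  have hjy : j ≠ y := fun h => hy (h ▸ hj)
  rw [if_neg hjy]

private theorem sc_qf1 (N : Finset ℕ) (y : ℕ) (hy : y ∉ N) (W : ℕ → ℕ → F4) (hW : Herm W)
    (h0 : ∀ i ∈ N, ∀ j ∈ N, W i j = 0) (c : ℕ → F4) (hc : c y = 1) :
    qf (nN N y) W c = W y y + tr (∑ n ∈ N, c n * W n y) := by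
  unfold qf nN
  rw [Finset.sum_insert hy, Finset.sum_insert hy]
  have h1 : ∀ i ∈ N, ∑ j ∈ insert y N, c i * W i j * conj (c j) = c i * W i y := by
    intro i hi
    rw [Finset.sum_insert hy, hc, conj_one, mul_one]
    have : ∑ j ∈ N, c i * W i j * conj (c j) = 0 :=
      Finset.sum_eq_zero fun j hj => by rw [h0 i hi j hj]; ring
    rw [this, add_zero]
  rw [Finset.sum_congr rfl h1]
  have h2 : ∑ j ∈ N, c y * W y j * conj (c j) = conj (∑ n ∈ N, c n * W n y) := by
    rw [conj_sum]
    refine Finset.sum_congr rfl fun j _ => ?_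
    rw [hc, conj_mul, hW j y]
    ring
  rw [h2, hc, conj_one]
  unfold tr
  ring

theorem stepC (st : Stp D B N P y) (hN : C3 D B N) (hM : C3 D (nB B P) (nN N y))
    {Lc Lc' : Set (Finset ℕ × ℕ)} {LP Q : Set (Finset ℕ × (ℕ × ℕ))}
    (hc : SpanH (trD D) N B Lc) (hp : SpanP D B N LP) (hQ : PairSet D B N P y Lc LP Q)
    (hv : ∀ p ∈ Lc', IsBase (trD D) (nN N y) (nB B P) p.1 ∧ p.2 ∈ p.1)
    (m1 : ∀ q ∈ Lc, (insert y q.1, q.2) ∈ Lc')
    (m2 : ∀ p ∈ Q, ((nB B P ∪ nN N y) \ p.1, y) ∈ Lc' ∧
      ((nB B P ∪ nN N y) \ insert p.2.2 (p.1.erase p.2.1), y) ∈ Lc') :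
    SpanH (trD D) (nN N y) (nB B P) Lc' := by
  have hyN : y ∉ N := fun h => st.ynew (Finset.mem_union_right _ h)
  have hyB : y ∉ nB B P := by
    unfold nB
    intro h
    rcases Finset.mem_union.1 h with h | h
    · exact st.ynew (Finset.mem_union_left _ h)
    · obtain ⟨p, hp, hpy⟩ := Finset.mem_image.1 h
      exact st.yne p hp hpy.symm
  have hyM : y ∈ nN N y := Finset.mem_insert_self _ _
  have hdB : Disjoint (nB B P) N := by
    rw [Finset.disjoint_left]
    intro e he heN
    unfold nB at he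
    rcases Finset.mem_union.1 he with h | h
    · exact Finset.disjoint_left.1 st.disj h heN
    · obtain ⟨p, hp, hpe⟩ := Finset.mem_image.1 h
      exact st.new p hp (hpe ▸ Finset.mem_union_right _ heN)
  have hdj : Disjoint (nB B P) (nN N y) := by
    rw [Finset.disjoint_left]
    intro e he heN
    unfold nN at heN
    rcases Finset.mem_insert.1 heN with h | h
    · exact hyB (h ▸ he)
    · exact Finset.disjoint_left.1 hdB he h
  refine ⟨hv, fun W hW hq => ?_⟩
  -- step 1
  have h00 : ∀ i ∈ N, ∀ j ∈ N, W i j = 0 := by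
    refine hc.2 W hW fun q hqL c hcF => ?_
    rw [← sc_qf0 N y hyN W c]
    have hqb := hc.1 q hqL
    have hq2 : q.2 ≠ y := by
      intro h
      have := hqb.1.1 hqb.2
      rw [h] at this
      exact st.ynew (by rw [Finset.union_comm]; exact this)
    refine hq _ (m1 q hqL) _ ⟨(hv _ (m1 q hqL)).1, (hv _ (m1 q hqL)).2, ?_⟩
    intro t ht
    by_cases hty : t = y
    · subst hty
      rw [ev_mem _ _ _ hyM, if_pos rfl, if_neg (Ne.symm hq2)]
    · have ht' : t ∈ q.1 := by
        rcases Finset.mem_insert.1 ht with h | h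
        · exact absurd h hty
        · exact h
      rw [sc_ev (trD D) N B P y hyN c hty]
      exact hcF.2.2 t ht'
  -- step 2
  have key : ∀ p ∈ Q, ∃ c₁ c₂ : ℕ → F4,
      W y y + tr (∑ n ∈ N, c₁ n * W n y) = 0 ∧ W y y + tr (∑ n ∈ N, c₂ n * W n y) = 0 ∧
      ∀ f c, IsF D (nB B P) (nN N y) p.1 p.2.1 f →
        IsF (trD D) (nN N y) (nB B P) ((nB B P ∪ nN N y) \ p.1) p.2.2 c →
        ∀ n ∈ nN N y, c₁ n + c₂ n = ev D (nB B P) f y * (ev D (nB B P) f p.2.2)⁻¹ * c n := by
    intro p hpQ
    obtain ⟨hT, hz, hx, hxy, hT', hsub⟩ := hQ.valid p hpQ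
    obtain ⟨h1, h2⟩ := m2 p hpQ
    obtain ⟨hb1, hb1y⟩ := hv _ h1
    obtain ⟨hb2, hb2y⟩ := hv _ h2
    obtain ⟨c₁, hc₁⟩ := exists_isF hb1 hb1y
    obtain ⟨c₂, hc₂⟩ := exists_isF hb2 hb2y
    have hq1 := hq _ h1 c₁ hc₁
    have hq2 := hq _ h2 c₂ hc₂
    have hy1 : c₁ y = 1 := by
      have := hc₁.2.2 y hb1y
      rw [ev_mem _ _ _ hyM] at this
      simpa using this
    have hy2 : c₂ y = 1 := by
      have := hc₂.2.2 y hb2y
      rw [ev_mem _ _ _ hyM] at this
      simpa using this
    rw [sc_qf1 N y hyN W hW h00 c₁ hy1] at hq1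
    rw [sc_qf1 N y hyN W hW h00 c₂ hy2] at hq2
    refine ⟨c₁, c₂, hq1, hq2, fun f c hf hcF => ?_⟩
    exact circ_exchange hdj hf hx hb1y (Ne.symm hxy) hT' hcF hc₁ hc₂
  obtain ⟨l, hl01, hl⟩ := pairSet_map st hN hc hp hQ (fun b n => D b y * W n y) (by
    intro p hpQ f c hf hcF
    obtain ⟨c₁, c₂, h1, h2, h3⟩ := key p hpQ
    have h4 := h3 f c hf hcF
    have h5 : tr (∑ n ∈ N, (c₁ n + c₂ n) * W n y) = 0 := by
      have : ∑ n ∈ N, (c₁ n + c₂ n) * W n y = ∑ n ∈ N, c₁ n * W n y + ∑ n ∈ N, c₂ n * W n y := by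
        rw [← Finset.sum_add_distrib]
        exact Finset.sum_congr rfl fun n _ => by ring
      rw [this, tr_add]
      have k : ∀ a b d : F4, a + b = 0 → a + d = 0 → b + d = 0 := by decide
      exact k _ _ _ h1 h2
    have h6 : ∑ n ∈ N, (c₁ n + c₂ n) * W n y =
        (∑ b ∈ nB B P, ∑ n ∈ N, f b * (D b y * W n y) * c n) * (ev D (nB B P) f p.2.2)⁻¹ := by
      rw [Finset.sum_comm, Finset.sum_mul]
      refine Finset.sum_congr rfl fun n hn => ?_
      rw [h4 n (Finset.mem_insert_of_mem hn), ev_not_mem D (nB B P) f hyB, Finset.sum_mul,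
        Finset.sum_mul, Finset.sum_mul, Finset.sum_mul]
      exact Finset.sum_congr rfl fun b _ => by ring
    rw [← h6]
    exact h5)
  -- step 3
  have hWn : ∀ n ∈ N, W n y = 0 := by
    by_contra hcon
    push Not at hcon
    obtain ⟨n₀, hn₀, hWn₀⟩ := hcon
    obtain ⟨l', hl', hl'01, hl'n⟩ : ∃ l' : ℕ → F4,
        (∀ b ∈ nB B P, ∀ n ∈ N, D b y * W n y = (l' b + l' n) * D b n) ∧
        (∀ e, l' e = 0 ∨ l' e = 1) ∧ l' n₀ = 1 := by
      refine ⟨fun e => l e + (l n₀ + 1), fun b hb n hn => ?_, fun e => ?_, ?_⟩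
      · rw [hl b hb n hn]
        have k : ∀ a b d e : F4, (a + b) * e = (a + (d + 1) + (b + (d + 1))) * e := by decide
        exact k _ _ _ _
      · have k : ∀ a b : F4, (a = 0 ∨ a = 1) → (b = 0 ∨ b = 1) →
            (a + (b + 1) = 0 ∨ a + (b + 1) = 1) := by decide
        exact k _ _ (hl01 e) (hl01 n₀)
      · have k : ∀ a : F4, a + (a + 1) = 1 := by decide
        exact k _
    have hDy : ∀ b ∈ nB B P, l' b = 1 → D b y = 0 := by
      intro b hb hb1
      have := hl' b hb n₀ hn₀
      rw [hb1, hl'n, add_self, zero_mul] at this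
      rcases mul_eq_zero.1 this with h | h
      · exact h
      · exact absurd h hWn₀
    obtain ⟨b₁, hb₁, hcol⟩ := C3.col_ne hM hdj (Finset.mem_union_right (nB B P) hyM)
    have hDb₁ : D b₁ y ≠ 0 := by
      unfold col at hcol
      rwa [if_neg hyB] at hcol
    have hlb₁ : l' b₁ = 0 := by
      rcases hl'01 b₁ with h | h
      · exact h
      · exact absurd (hDy b₁ hb₁ h) hDb₁
    have hWn0 : ∀ n ∈ N, l' n = 0 → W n y = 0 := by
      intro n hn hn0
      have := hl' b₁ hb₁ n hn
      rw [hn0, hlb₁, add_zero, zero_mul] at this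
      rcases mul_eq_zero.1 this with h | h
      · exact absurd h hDb₁
      · exact h
    have hD10 : ∀ b ∈ nB B P, ∀ n ∈ N, l' b = 1 → l' n = 0 → D b n = 0 := by
      intro b hb n hn hb1 hn0
      have := hl' b hb n hn
      rw [hWn0 n hn hn0, hb1, hn0, mul_zero, add_zero, one_mul] at this
      exact this.symm
    have hD01 : ∀ b ∈ nB B P, ∀ n ∈ N, l' b = 0 → l' n = 1 → D b n = D b y * W n y := by
      intro b hb n hn hb1 hn0
      have := hl' b hb n hn
      rw [hb1, hn0, zero_add, one_mul] at this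
      exact this.symm
    have ne01 : ∀ e, l' e ≠ 1 → l' e = 0 := fun e he => (hl'01 e).resolve_right he
    set X : Finset ℕ := (nB B P ∪ N).filter fun e => l' e = 1 with hX
    have hXB : ∀ b ∈ nB B P, (b ∈ X ↔ l' b = 1) := by
      intro b hb
      rw [hX, Finset.mem_filter]
      exact ⟨fun h => h.2, fun h => ⟨Finset.mem_union_left _ hb, h⟩⟩
    have hXN : ∀ n ∈ N, (n ∈ X ↔ l' n = 1) := by
      intro b hb
      rw [hX, Finset.mem_filter]
      exact ⟨fun h => h.2, fun h => ⟨Finset.mem_union_right _ hb, h⟩⟩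
    have hyX : y ∉ X := by
      rw [hX, Finset.mem_filter]
      rintro ⟨h, -⟩
      rcases Finset.mem_union.1 h with h | h
      · exact hyB h
      · exact hyN h
    have hXs : X ⊆ nB B P ∪ nN N y := by
      intro e he
      rw [hX, Finset.mem_filter] at he
      rcases Finset.mem_union.1 he.1 with h | h
      · exact Finset.mem_union_left _ h
      · exact Finset.mem_union_right _ (Finset.mem_insert_of_mem h)
    have hX's : insert y X ⊆ nB B P ∪ nN N y :=
      Finset.insert_subset (Finset.mem_union_right _ hyM) hXs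
    have hsepN : ∀ b ∈ nB B P, ∀ n ∈ N,
        (if (l' b = 1 ↔ l' n = 1) then 0 else D b n) = D b y * W n y := by
      intro b hb n hn
      rcases hl'01 b with hb0 | hb1
      · rcases hl'01 n with hn0 | hn1
        · rw [hb0, hn0, if_pos Iff.rfl, hWn0 n hn hn0, mul_zero]
        · rw [hb0, hn1, if_neg (by decide), hD01 b hb n hn hb0 hn1]
      · rcases hl'01 n with hn0 | hn1
        · rw [hb1, hn0, if_neg (by decide), hD10 b hb n hn hb1 hn0, hWn0 n hn hn0, mul_zero]
        · rw [hb1, hn1, if_pos Iff.rfl, hDy b hb hb1, zero_mul]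
    have hs1 : Sep2 D (nB B P) (nN N y) X := by
      refine ⟨fun b => D b y, fun n => if n = y then 0 else W n y, fun b hb n hn => ?_⟩
      rcases Finset.mem_insert.1 hn with h | h
      · subst h
        simp only [if_true, mul_zero]
        by_cases hbX : b ∈ X
        · rw [hDy b hb ((hXB b hb).1 hbX)]
          split_ifs <;> rfl
        · rw [if_pos (by simp [hbX, hyX])]
      · have hny : n ≠ y := fun h' => hyN (h' ▸ h)
        simp only [if_neg hny]
        rw [← hsepN b hb n h]
        simp only [hXB b hb, hXN n h]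
    have hs2 : Sep2 D (nB B P) (nN N y) (insert y X) := by
      refine ⟨fun b => D b y, fun n => if n = y then 1 else W n y, fun b hb n hn => ?_⟩
      have hby : b ≠ y := fun h => hyB (h ▸ hb)
      have hbX' : b ∈ insert y X ↔ l' b = 1 := by
        rw [Finset.mem_insert, hXB b hb]
        exact ⟨fun h => h.resolve_left hby, Or.inr⟩
      rcases Finset.mem_insert.1 hn with h | h
      · subst h
        simp only [if_true, mul_one, hbX', Finset.mem_insert_self, iff_true]
        by_cases hb1 : l' b = 1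
        · rw [if_pos hb1, hDy b hb hb1]
        · rw [if_neg hb1]
      · have hny : n ≠ y := fun h' => hyN (h' ▸ h)
        have hnX' : n ∈ insert y X ↔ l' n = 1 := by
          rw [Finset.mem_insert, hXN n h]
          exact ⟨fun h => h.resolve_left hny, Or.inr⟩
        simp only [if_neg hny, hbX', hnX']
        exact hsepN b hb n h
    have hb₁X : b₁ ∉ X := by
      rw [hXB b₁ hb₁, hlb₁]
      decide
    have hb₁y : b₁ ≠ y := fun h => hyB (h ▸ hb₁)
    have hn₀y : n₀ ≠ y := fun h => hyN (h ▸ hn₀)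
    have hXc : X.card ≤ 1 := by
      rcases hM.2.2 X hXs hs1 with h | h
      · exact h
      · exfalso
        have hsub : ({y, b₁} : Finset ℕ) ⊆ (nB B P ∪ nN N y) \ X := by
          intro e he
          rw [Finset.mem_insert, Finset.mem_singleton] at he
          rw [Finset.mem_sdiff]
          rcases he with rfl | rfl
          · exact ⟨Finset.mem_union_right _ hyM, hyX⟩
          · exact ⟨Finset.mem_union_left _ hb₁, hb₁X⟩
        have h2 := Finset.card_le_card hsub
        rw [Finset.card_pair (Ne.symm hb₁y)] at h2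
        omega
    have hXc' : ((nB B P ∪ nN N y) \ insert y X).card ≤ 1 := by
      rcases hM.2.2 _ hX's hs2 with h | h
      · exfalso
        have hsub : ({y, n₀} : Finset ℕ) ⊆ insert y X := by
          intro e he
          rw [Finset.mem_insert, Finset.mem_singleton] at he
          rcases he with rfl | rfl
          · exact Finset.mem_insert_self _ _
          · exact Finset.mem_insert_of_mem ((hXN _ hn₀).2 hl'n)
        have h2 := Finset.card_le_card hsub
        rw [Finset.card_pair (Ne.symm hn₀y)] at h2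
        omega
      · exact h
    have h4 := hM.1
    have h5 := Finset.card_sdiff_add_card_eq_card hX's
    have h6 := Finset.card_insert_le y X
    omega
  -- step 4
  have hQne : ∃ p, p ∈ Q := by
    by_contra hcon
    push Not at hcon
    obtain ⟨l2, hl201, hl2⟩ := pairSet_map st hN hc hp hQ (fun b n => om * D b n)
      (fun p hpQ => absurd hpQ (hcon p))
    have hD : ∃ b ∈ B, ∃ n ∈ N, D b n ≠ 0 := by
      by_contra hcc
      push Not at hcc
      have hne : (B ∪ N).Nonempty := by
        rw [← Finset.card_pos]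
        have := hN.1
        omega
      obtain ⟨e, he⟩ := hne
      have hs : Sep1 D B N {e} := fun b hb n hn => Or.inr (hcc b hb n hn)
      rcases hN.2.1 {e} (Finset.singleton_subset_iff.2 he) hs with h | h
      · exact Finset.singleton_ne_empty e h
      · have h4 := hN.1
        rw [← h, Finset.card_singleton] at h4
        omega
    obtain ⟨b, hb, n, hn, hbn⟩ := hD
    have h1 := hl2 b (Finset.mem_union_left _ hb) n hn
    have k : ∀ a d e : F4, (a = 0 ∨ a = 1) → (d = 0 ∨ d = 1) → e ≠ 0 →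
        om * e = (a + d) * e → False := by decide
    exact k _ _ _ (hl201 b) (hl201 n) hbn h1
  have hWyy : W y y = 0 := by
    obtain ⟨p, hpQ⟩ := hQne
    obtain ⟨c₁, c₂, h1, -, -⟩ := key p hpQ
    have h2 : ∑ n ∈ N, c₁ n * W n y = 0 :=
      Finset.sum_eq_zero fun n hn => by rw [hWn n hn, mul_zero]
    rw [h2, tr_zero, add_zero] at h1
    exact h1
  intro i hi j hj
  rcases Finset.mem_insert.1 hi with hi' | hi'
  · rcases Finset.mem_insert.1 hj with hj' | hj'
    · rw [hi', hj']
      exact hWyy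
    · rw [hi', hW j y, hWn j hj', conj_zero]
  · rcases Finset.mem_insert.1 hj with hj' | hj'
    · rw [hj']
      exact hWn i hi'
    · exact h00 i hi' j hj'

end Pool.Agent.G4
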