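import Pool.Agent.G4.Lift

set_option autoImplicit false

/-!
# Module B6b: hyperplanes of the matroid with the new rows

`hyp_*`: `lfU` vanishes on `hypF P T z U` (for `t ∈ T.erase z`: `ev f t = 0`, so `t` is not the
first component of a pair of `U`; for a pair in `U` the values at `p.1` cancel; for a pair not in
`U` the value at `p.2` is zero). Conversely a vector `lft g t` vanishing on `hypF` has
`t p.2 = 0` for `p ∉ U`, and `t p.2 = ev g p.1` for `p ∈ U`, hence
`ev g t = 0` for `t ∈ T.erase z` (if `t = p.1` then `p ∉ U` because `ev f p.1 = 0`), so `g` is a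
multiple of `f` (`mul_of_zero`). Cardinality: the elements `p.2`, and `p.1` for `p ∈ U`, are
different and not in `T.erase z`. `hyp_base` follows from `isBase_of_hyper` (module Base) applied to
the new matroid (note `(nB ∪ nN) \ hypF` and `ev` for `D`, `nB B P`).
-/

namespace Pool.Agent.G4

open F4 Finset

variable {D : ℕ → ℕ → F4} {B N : Finset ℕ} {P U : Finset (ℕ × ℕ)} {y : ℕ}

variable {T : Finset ℕ} {z : ℕ} {f : ℕ → F4}

private theorem l2_char (x y : F4) (h : x + y = 0) : y = x := by
  revert x y
  decide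

private theorem l2_self (x : F4) : x + x = 0 := by
  revert x
  decide

private theorem l2_filter (h : Stp D B N P y) (t : ℕ → F4) {p : ℕ × ℕ} (hp : p ∈ P) :
    ∑ q ∈ P with q.1 = p.1, t q.2 = t p.2 := by
  have : P.filter (fun q => q.1 = p.1) = {p} := by
    ext q
    rw [Finset.mem_filter, Finset.mem_singleton]
    constructor
    · rintro ⟨hq, hqp⟩
      exact h.inj1 q hq p hp hqp
    · rintro rfl
      exact ⟨hp, rfl⟩
  rw [this, Finset.sum_singleton]

private theorem l2_erase (hf : IsF D B N T z f) {e : ℕ} (he : e ∈ T.erase z) : ev D B f e = 0 := by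
  rw [Finset.mem_erase] at he
  rw [hf.2.2 e he.2, if_neg he.1]

theorem hyp_sub (h : Stp D B N P y) (hf : IsF D B N T z f) (hU : U ⊆ P)
    (hne : ∀ p ∈ U, ev D B f p.1 ≠ 0) :
    hypF P T z U ⊆ nB B P ∪ N ∧ (hypF P T z U).card + 1 = (nB B P).card := by
  have hT := hf.1.1
  constructor
  · intro e he
    unfold hypF at he
    rw [Finset.mem_union] at he
    rcases he with he | he
    · have h1 := hT (Finset.mem_of_mem_erase he)
      rw [Finset.mem_union] at h1 ⊢
      rcases h1 with h1 | h1
      · exact Or.inl (Finset.mem_union_left _ h1)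
      · exact Or.inr h1
    · rw [Finset.mem_image] at he
      obtain ⟨p, hp, rfl⟩ := he
      by_cases hpU : p ∈ U
      · rw [if_pos hpU]
        have h1 := h.mem p hp
        rw [Finset.mem_union] at h1 ⊢
        rcases h1 with h1 | h1
        · exact Or.inl (Finset.mem_union_left _ h1)
        · exact Or.inr h1
      · rw [if_neg hpU]
        exact Finset.mem_union_left _
          (Finset.mem_union_right _ (Finset.mem_image.2 ⟨p, hp, rfl⟩))
  · have hinj : (P.image fun p => if p ∈ U then p.1 else p.2).card = P.card := by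
      apply Finset.card_image_of_injOn
      intro p hp q hq hpq
      simp only at hpq
      by_cases h1 : p ∈ U
      · by_cases h2 : q ∈ U
        · rw [if_pos h1, if_pos h2] at hpq
          exact h.inj1 p hp q hq hpq
        · rw [if_pos h1, if_neg h2] at hpq
          exact absurd (hpq ▸ h.mem p hp) (h.new q hq)
      · by_cases h2 : q ∈ U
        · rw [if_neg h1, if_pos h2] at hpq
          exact absurd (hpq.symm ▸ h.mem q hq) (h.new p hp)
        · rw [if_neg h1, if_neg h2] at hpq
          exact h.inj2 p hp q hq hpq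
    have hdis : Disjoint (T.erase z) (P.image fun p => if p ∈ U then p.1 else p.2) := by
      rw [Finset.disjoint_left]
      intro e he he'
      rw [Finset.mem_image] at he'
      obtain ⟨p, hp, rfl⟩ := he'
      by_cases h1 : p ∈ U
      · rw [if_pos h1] at he
        exact hne p h1 (l2_erase hf he)
      · rw [if_neg h1] at he
        exact h.new p hp (hT (Finset.mem_of_mem_erase he))
    have hinj2 : (P.image fun p => p.2).card = P.card := by
      apply Finset.card_image_of_injOn
      intro p hp q hq hpq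
      exact h.inj2 p hp q hq hpq
    have hdis2 : Disjoint B (P.image fun p => p.2) := by
      rw [Finset.disjoint_left]
      intro e he he'
      rw [Finset.mem_image] at he'
      obtain ⟨p, hp, rfl⟩ := he'
      exact h.new p hp (Finset.mem_union_left _ he)
    unfold hypF nB
    rw [Finset.card_union_of_disjoint hdis, Finset.card_union_of_disjoint hdis2, hinj, hinj2,
      ← hf.1.2.1, ← Finset.card_erase_add_one hf.2.1]
    omega

theorem hyp_zero (h : Stp D B N P y) (hf : IsF D B N T z f) (hU : U ⊆ P)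
    (hne : ∀ p ∈ U, ev D B f p.1 ≠ 0) :
    ∀ e ∈ hypF P T z U, ev D (nB B P) (lfU D B P U f) e = 0 := by
  intro e he
  have hT := hf.1.1
  unfold hypF at he
  rw [Finset.mem_union] at he
  unfold lfU
  rcases he with he | he
  · rw [ev_lft_old h f (tU D B U f) (hT (Finset.mem_of_mem_erase he)), l2_erase hf he, zero_add]
    apply Finset.sum_eq_zero
    intro p hp
    rw [Finset.mem_filter] at hp
    rw [tU_mem h hU f hp.1]
    split_ifs
    · rw [hp.2]
      exact l2_erase hf he
    · rfl
  · rw [Finset.mem_image] at he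
    obtain ⟨p, hp, rfl⟩ := he
    by_cases hpU : p ∈ U
    · rw [if_pos hpU, ev_lft_old h f (tU D B U f) (h.mem p hp), l2_filter h _ hp,
        tU_mem h hU f hp, if_pos hpU]
      exact l2_self _
    · rw [if_neg hpU, ev_lft_new h f (tU D B U f) hp, tU_mem h hU f hp, if_neg hpU]

theorem hyp_unique (h : Stp D B N P y) (hf : IsF D B N T z f) (hU : U ⊆ P)
    (hne : ∀ p ∈ U, ev D B f p.1 ≠ 0) (g : ℕ → F4)
    (hg : ∀ e ∈ hypF P T z U, ev D (nB B P) g e = 0) :
    ∃ c : F4, ∀ b ∈ nB B P, g b = c * lfU D B P U f b := by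
  have hT := hf.1.1
  obtain ⟨g', t', hgt⟩ := lft_surj h g
  have hev : ∀ e, ev D (nB B P) g e = ev D (nB B P) (lft B P g' t') e := fun e =>
    ev_congr D (nB B P) hgt e
  have ht0 : ∀ p ∈ P, p ∉ U → t' p.2 = 0 := by
    intro p hp hpU
    have h1 := hg p.2 (Finset.mem_union_right _ (Finset.mem_image.2 ⟨p, hp, if_neg hpU⟩))
    rw [hev, ev_lft_new h g' t' hp] at h1
    exact h1
  have ht1 : ∀ p ∈ P, p ∈ U → t' p.2 = ev D B g' p.1 := by
    intro p hp hpU
    have h1 := hg p.1 (Finset.mem_union_right _ (Finset.mem_image.2 ⟨p, hp, if_pos hpU⟩))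
    rw [hev, ev_lft_old h g' t' (h.mem p hp), l2_filter h _ hp] at h1
    exact l2_char _ _ h1
  have hg0 : ∀ t ∈ T.erase z, ev D B g' t = 0 := by
    intro t ht
    have h1 := hg t (Finset.mem_union_left _ ht)
    rw [hev, ev_lft_old h g' t' (hT (Finset.mem_of_mem_erase ht))] at h1
    have h2 : ∑ p ∈ P with p.1 = t, t' p.2 = 0 := by
      apply Finset.sum_eq_zero
      intro p hp
      rw [Finset.mem_filter] at hp
      apply ht0 p hp.1
      intro hpU
      apply hne p hpU
      rw [hp.2]
      exact l2_erase hf ht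
    rw [h2, add_zero] at h1
    exact h1
  have hmul := mul_of_zero hf hg0
  refine ⟨ev D B g' z, fun b hb => ?_⟩
  rw [hgt b hb]
  unfold lfU
  rw [← lft_smul]
  refine lft_congr h hmul ?_ b hb
  intro p hp
  rw [tU_mem h hU f hp]
  by_cases hpU : p ∈ U
  · rw [if_pos hpU, ht1 p hp hpU, ← ev_smul]
    exact ev_congr D B hmul p.1
  · rw [if_neg hpU, ht0 p hp hpU, mul_zero]

/-- the new marked bases and their vectors -/
theorem hyp_base (h : Stp D B N P y) (hf : IsF D B N T z f) (hU : U ⊆ P)
    (hne : ∀ p ∈ U, ev D B f p.1 ≠ 0) (e : ℕ) (he : e ∈ (nB B P ∪ nN N y) \ hypF P T z U) :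
    (IsBase D (nB B P) (nN N y) (insert e (hypF P T z U)) ↔
        ev D (nB B P) (lfU D B P U f) e ≠ 0) ∧
      (ev D (nB B P) (lfU D B P U f) e ≠ 0 →
        IsF D (nB B P) (nN N y) (insert e (hypF P T z U)) e
          fun b => (ev D (nB B P) (lfU D B P U f) e)⁻¹ * lfU D B P U f b) := by
  obtain ⟨h1, h2⟩ := hyp_sub h hf hU hne
  refine isBase_of_hyper (hypF P T z U) ?_ h2 (lfU D B P U f) (hyp_zero h hf hU hne)
    (hyp_unique h hf hU hne) e he
  intro x hx
  have h3 := h1 hx
  rw [Finset.mem_union] at h3 ⊢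
  rcases h3 with h3 | h3
  · exact Or.inl h3
  · exact Or.inr (Finset.mem_insert_of_mem h3)

end Pool.Agent.G4
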