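import Pool.Agent.G4.SH1

set_option autoImplicit false

/-!
# Module S2a: the coordinate of the new column at a pair is not zero; no triangle

`sco_ne`: if `sco p = 0` then `X = {p.1, p.2}` satisfies `Sep2 D (nB) (nN)`: the row `p.2` of the
new matrix is, if `p.1 ∈ B`, equal to the row `p.1` (also at `y`), and if `p.1 ∈ N` supported on
`{p.1}`.


`no_triangle`: if `c = 0` then `D b y = 0` on `B`, so `col D (nB) y` is `sco p` times the unit vector
of `p.2` (`P = {p}`): contradiction with `C3.indep2` for the new matroid (elements `y`, `p.2`). If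
`c = 1`: `D b y = sco p * col p.1 b` on `B` and then `col D (nB) y = sco p * col D (nB) p.1` (check
the coordinate `p.2`: if `p.1 ∈ B` it is `D p.2 y = sco p + D p.1 y = sco p + sco p = 0`, and if
`p.1 ∈ N` it is `D p.2 y = sco p` and `D p.2 p.1 = 1`), contradiction with `C3.indep2` for the new
matroid (elements `y`, `p.1`).
-/

namespace Pool.Agent.G4

open F4 Finset

variable {D : ℕ → ℕ → F4} {B N : Finset ℕ} {P : Finset (ℕ × ℕ)} {y : ℕ}

private theorem dbl : ∀ x : F4, x + x = 0 := by decide
private theorem eq_of_add : ∀ x z : F4, x + z = 0 → x = z := by decide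
private theorem zero_of_add : ∀ x z : F4, z = x + z → x = 0 := by decide

private theorem mem_nB {b : ℕ} : b ∈ nB B P ↔ b ∈ B ∨ ∃ p ∈ P, p.2 = b := by
  unfold nB
  rw [Finset.mem_union, Finset.mem_image]

private theorem mem_nN {n : ℕ} : n ∈ nN N y ↔ n = y ∨ n ∈ N := by
  unfold nN
  rw [Finset.mem_insert]

private theorem new_disj (st : Stp D B N P y) : Disjoint (nB B P) (nN N y) := by
  rw [Finset.disjoint_left]
  intro e he hn
  rw [mem_nB] at he
  rw [mem_nN] at hn
  rcases he with he | ⟨p, hp, rfl⟩
  · rcases hn with rfl | hn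
    · exact st.ynew (Finset.mem_union_left _ he)
    · exact Finset.disjoint_left.mp st.disj he hn
  · rcases hn with hn | hn
    · exact st.yne p hp hn.symm
    · exact st.new p hp (Finset.mem_union_right _ hn)

private theorem old_nB (st : Stp D B N P y) {e : ℕ} (he : e ∈ B ∪ N) : e ∈ nB B P ↔ e ∈ B := by
  rw [mem_nB]
  constructor
  · rintro (h | ⟨p, hp, rfl⟩)
    · exact h
    · exact absurd he (st.new p hp)
  · exact Or.inl

theorem sco_ne (st : Stp D B N P y) (hN : C3 D B N) (hM : C3 D (nB B P) (nN N y))
    {p : ℕ × ℕ} (hp : p ∈ P) : sco D B y p ≠ 0 := by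
  intro h0
  have hmem := st.mem p hp
  have hnew := st.new p hp
  have h12 : p.1 ≠ p.2 := fun e => hnew (e ▸ hmem)
  have hp2B : p.2 ∈ nB B P := mem_nB.mpr (Or.inr ⟨p, hp, rfl⟩)
  have hp2N : p.2 ∉ nN N y := Finset.disjoint_left.mp (new_disj st) hp2B
  have hyp1 : y ≠ p.1 := fun e => st.ynew (e ▸ hmem)
  have hsep : Sep2 D (nB B P) (nN N y) {p.1, p.2} := by
    by_cases hB : p.1 ∈ B
    · have hp1N : p.1 ∉ nN N y := Finset.disjoint_left.mp (new_disj st) (mem_nB.mpr (Or.inl hB))
      have hrow : ∀ n ∈ nN N y, D p.2 n = D p.1 n := by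
        intro n hn
        rcases mem_nN.mp hn with rfl | hn
        · unfold sco at h0
          rw [if_pos hB] at h0
          exact eq_of_add _ _ h0
        · rw [st.row p hp n hn, if_pos hB]
      refine ⟨fun b => if b = p.1 ∨ b = p.2 then 1 else 0, fun n => D p.1 n, fun b _ n hn => ?_⟩
      have hnX : n ∉ ({p.1, p.2} : Finset ℕ) := by
        rw [Finset.mem_insert, Finset.mem_singleton]
        rintro (rfl | rfl)
        · exact hp1N hn
        · exact hp2N hn
      by_cases hb : b = p.1 ∨ b = p.2
      · have hbX : b ∈ ({p.1, p.2} : Finset ℕ) := by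
          rw [Finset.mem_insert, Finset.mem_singleton]; exact hb
        dsimp only
        rw [if_neg (fun h => hnX (h.mp hbX)), if_pos hb, one_mul]
        rcases hb with rfl | rfl
        · rfl
        · exact hrow n hn
      · have hbX : b ∉ ({p.1, p.2} : Finset ℕ) := by
          rw [Finset.mem_insert, Finset.mem_singleton]; exact hb
        dsimp only
        rw [if_pos (iff_of_false hbX hnX), if_neg hb, zero_mul]
    · have hN1 : p.1 ∈ N := (Finset.mem_union.mp hmem).resolve_left hB
      have hp1B : p.1 ∉ nB B P := fun h => hB ((old_nB st hmem).mp h)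
      have hrow : ∀ n ∈ nN N y, n ≠ p.1 → D p.2 n = 0 := by
        intro n hn hne
        rcases mem_nN.mp hn with rfl | hn
        · unfold sco at h0
          rw [if_neg hB, add_zero] at h0
          exact h0
        · rw [st.row p hp n hn, if_neg hB, if_neg hne]
      refine ⟨fun b => if b = p.2 then 0 else D b p.1, fun n => if n = p.1 then 1 else 0,
        fun b hb n hn => ?_⟩
      have hbX : b ∈ ({p.1, p.2} : Finset ℕ) ↔ b = p.2 := by
        rw [Finset.mem_insert, Finset.mem_singleton]
        constructor
        · rintro (rfl | h)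
          · exact absurd hb hp1B
          · exact h
        · exact Or.inr
      have hnX : n ∈ ({p.1, p.2} : Finset ℕ) ↔ n = p.1 := by
        rw [Finset.mem_insert, Finset.mem_singleton]
        constructor
        · rintro (h | rfl)
          · exact h
          · exact absurd hn hp2N
        · exact Or.inl
      dsimp only
      by_cases hb2 : b = p.2
      · by_cases hn1 : n = p.1
        · rw [if_pos (iff_of_true (hbX.mpr hb2) (hnX.mpr hn1)), if_pos hb2, zero_mul]
        · rw [if_neg (fun h => hn1 (hnX.mp (h.mp (hbX.mpr hb2)))), if_pos hb2, zero_mul, hb2]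
          exact hrow n hn hn1
      · by_cases hn1 : n = p.1
        · rw [if_neg (fun h => hb2 (hbX.mp (h.mpr (hnX.mpr hn1)))), if_neg hb2, if_pos hn1, mul_one,
            hn1]
        · rw [if_pos (iff_of_false (fun h => hb2 (hbX.mp h)) (fun h => hn1 (hnX.mp h))),
            if_neg hn1, mul_zero]
  have hsub : ({p.1, p.2} : Finset ℕ) ⊆ nB B P ∪ nN N y := by
    intro e he
    rw [Finset.mem_insert, Finset.mem_singleton] at he
    rw [Finset.mem_union]
    rcases he with rfl | rfl
    · rcases Finset.mem_union.mp hmem with h | h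
      · exact Or.inl (mem_nB.mpr (Or.inl h))
      · exact Or.inr (mem_nN.mpr (Or.inr h))
    · exact Or.inl hp2B
  have hc2 : ({p.1, p.2} : Finset ℕ).card = 2 := Finset.card_pair h12
  rcases hM.2.2 _ hsub hsep with h | h
  · omega
  · have h4 := hM.1
    have h5 := Finset.card_sdiff_add_card_eq_card hsub
    omega

/-- the exceptional case: the new column in the span of `v = c * sco p * col p.1` -/
theorem no_triangle (st : Stp D B N P y) (hN : C3 D B N) (hM : C3 D (nB B P) (nN N y))
    {p : ℕ × ℕ} (hp : p ∈ P) (c : F4) (hc : c = 0 ∨ c = 1)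
    (h : ∀ b ∈ B, D b y = c * sco D B y p * col D B p.1 b) (hP : P = {p}) : False := by
  have hmem := st.mem p hp
  have hnew := st.new p hp
  have h12 : p.1 ≠ p.2 := fun e => hnew (e ▸ hmem)
  have hp2B : p.2 ∈ nB B P := mem_nB.mpr (Or.inr ⟨p, hp, rfl⟩)
  have hyN : y ∈ nN N y := mem_nN.mpr (Or.inl rfl)
  have hyB : y ∉ nB B P := fun h' => Finset.disjoint_left.mp (new_disj st) h' hyN
  have hyM : y ∈ nB B P ∪ nN N y := Finset.mem_union_right _ hyN
  have hcy : ∀ b, col D (nB B P) y b = D b y := fun b => by
    unfold col
    rw [if_neg hyB]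
  have hbc : ∀ b ∈ nB B P, b ∈ B ∨ b = p.2 := by
    intro b hb
    rcases mem_nB.mp hb with h' | ⟨q, hq, rfl⟩
    · exact Or.inl h'
    · rw [hP, Finset.mem_singleton] at hq
      right; rw [hq]
  rcases hc with rfl | rfl
  · have h3 := hM.indep2 (new_disj st) hyM (Finset.mem_union_left _ hp2B) (st.yne p hp) 1 (D p.2 y)
      (fun b hb => by
        rw [hcy]
        unfold col
        rw [if_pos hp2B]
        rcases hbc b hb with h' | rfl
        · rw [h b h', if_neg (fun e : p.2 = b => hnew (Finset.mem_union_left _ (by rw [e]; exact h')))]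
          ring
        · rw [if_pos rfl]
          rw [one_mul, mul_one]
          exact dbl _)
    exact one_ne_zero h3.1
  · have hp1M : p.1 ∈ nB B P ∪ nN N y := by
      rw [Finset.mem_union]
      rcases Finset.mem_union.mp hmem with h' | h'
      · exact Or.inl (mem_nB.mpr (Or.inl h'))
      · exact Or.inr (mem_nN.mpr (Or.inr h'))
    have hyp1 : y ≠ p.1 := fun e => st.ynew (e ▸ hmem)
    have h3 := hM.indep2 (new_disj st) hyM hp1M hyp1 1 (sco D B y p)
      (fun b hb => by
        rw [hcy, one_mul]
        rcases hbc b hb with h' | rfl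
        · have hcol : col D (nB B P) p.1 b = col D B p.1 b := by
            unfold col
            by_cases hB : p.1 ∈ B
            · rw [if_pos ((old_nB st hmem).mpr hB), if_pos hB]
            · rw [if_neg (fun h'' => hB ((old_nB st hmem).mp h'')), if_neg hB]
          rw [hcol, h b h', one_mul]
          exact dbl _
        · by_cases hB : p.1 ∈ B
          · have hcol : col D (nB B P) p.1 p.2 = 0 := by
              unfold col
              rw [if_pos ((old_nB st hmem).mpr hB), if_neg h12]
            have h5 := h p.1 hB
            have h6 : col D B p.1 p.1 = 1 := by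
              unfold col
              rw [if_pos hB, if_pos rfl]
            rw [h6, one_mul, mul_one] at h5
            rw [hcol, mul_zero, add_zero]
            have h7 : sco D B y p = D p.2 y + D p.1 y := by
              unfold sco
              rw [if_pos hB]
            rw [h5] at h7
            exact zero_of_add _ _ h7
          · have hN1 : p.1 ∈ N := (Finset.mem_union.mp hmem).resolve_left hB
            have hcol : col D (nB B P) p.1 p.2 = 1 := by
              unfold col
              rw [if_neg (fun h'' => hB ((old_nB st hmem).mp h'')), st.row p hp p.1 hN1,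
                if_neg hB, if_pos rfl]
            have h7 : sco D B y p = D p.2 y := by
              unfold sco
              rw [if_neg hB, add_zero]
            rw [hcol, h7, mul_one]
            exact dbl _)
    exact one_ne_zero h3.1

end Pool.Agent.G4
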