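import Pool.Agent.G4.Base

set_option autoImplicit false

/-!
# Module B2: duality

The row space of `(1 | D)` and the row space of `(Dᵀ | 1)` are orthogonal (`orth`, direct
computation, characteristic two). `isBase_dual`: if a vector `c` on `N` is nonzero and
`ev (trD D) N c` vanishes off `T`, then (by `orth` and bijectivity of the evaluation on `T`, see
`exists_val`) it vanishes on `T` too: for every `g` there is `f` with `ev f = g` on `T`, and
`∑_{e ∈ T} g e * ev c e = 0`. So `ev c` vanishes everywhere, `c = 0`. Cardinalities: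
`((B ∪ N) \ T).card = N.card`. The converse by symmetry (`trD (trD D) = D`).
`circ_val`: apply `orth` to `f` and `c`; the only common elements of the supports are `z` and `x`.
-/

namespace Pool.Agent.G4

open F4 Finset

variable {D : ℕ → ℕ → F4} {B N T : Finset ℕ} {z x : ℕ}

private theorem half (hd : Disjoint B N)
    (ho : ∀ f c : ℕ → F4, ∑ e ∈ B ∪ N, ev D B f e * ev (trD D) N c e = 0)
    (hT : IsBase D B N T) : IsBase (trD D) N B ((B ∪ N) \ T) := by
  refine ⟨?_, ?_, ?_⟩
  · rw [Finset.union_comm N B]; exact Finset.sdiff_subset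
  · rw [Finset.card_sdiff_of_subset hT.1, Finset.card_union_of_disjoint hd, hT.2.1]
    omega
  · intro c hc n hn
    have hnB : n ∉ B := fun h => (Finset.disjoint_left.1 hd h) hn
    by_cases hnT : n ∈ T
    · obtain ⟨f, hf⟩ := exists_val hT (fun t => if t = n then 1 else 0)
      have h1 := ho f c
      have h2 : ∑ e ∈ B ∪ N, ev D B f e * ev (trD D) N c e = ev (trD D) N c n := by
        rw [Finset.sum_eq_single n]
        · rw [hf n hnT]; simp
        · intro e he hen
          by_cases heT : e ∈ T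
          · rw [hf e heT]; simp [hen]
          · rw [hc e (Finset.mem_sdiff.2 ⟨he, heT⟩), mul_zero]
        · intro h; exact absurd (Finset.mem_union_right _ hn) h
      rw [h2] at h1
      rwa [ev_mem _ _ _ hn] at h1
    · have h1 := hc n (Finset.mem_sdiff.2 ⟨Finset.mem_union_right _ hn, hnT⟩)
      rwa [ev_mem _ _ _ hn] at h1

theorem orth (hd : Disjoint B N) (f c : ℕ → F4) :
    ∑ b ∈ B, f b * ev (trD D) N c b = ∑ n ∈ N, ev D B f n * c n := by
  have h1 : ∀ b ∈ B, f b * ev (trD D) N c b = ∑ n ∈ N, f b * D b n * c n := by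
    intro b hb
    rw [ev_not_mem _ _ _ (Finset.disjoint_left.1 hd hb), Finset.mul_sum]
    exact Finset.sum_congr rfl fun n _ => by unfold trD; ring
  have h2 : ∀ n ∈ N, ev D B f n * c n = ∑ b ∈ B, f b * D b n * c n := by
    intro n hn
    rw [ev_not_mem _ _ _ (fun h => Finset.disjoint_left.1 hd h hn), Finset.sum_mul]
  rw [Finset.sum_congr rfl h1, Finset.sum_congr rfl h2, Finset.sum_comm]

/-- orthogonality over the whole ground set -/
theorem orth' (hd : Disjoint B N) (f c : ℕ → F4) :
    ∑ e ∈ B ∪ N, ev D B f e * ev (trD D) N c e = 0 := by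
  rw [Finset.sum_union hd]
  have h1 : ∑ e ∈ B, ev D B f e * ev (trD D) N c e = ∑ b ∈ B, f b * ev (trD D) N c b :=
    Finset.sum_congr rfl fun b hb => by rw [ev_mem _ _ _ hb]
  have h2 : ∑ e ∈ N, ev D B f e * ev (trD D) N c e = ∑ n ∈ N, ev D B f n * c n :=
    Finset.sum_congr rfl fun n hn => by rw [ev_mem (trD D) N c hn]
  rw [h1, h2, orth hd, F4.add_self]

theorem isBase_dual (hd : Disjoint B N) (hT : T ⊆ B ∪ N) :
    IsBase (trD D) N B ((B ∪ N) \ T) ↔ IsBase D B N T := by
  constructor
  · intro h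
    have h1 := half (D := trD D) hd.symm (fun f c => orth' hd.symm f c) h
    have h2 : (N ∪ B) \ ((B ∪ N) \ T) = T := by
      rw [Finset.union_comm N B, Finset.sdiff_sdiff_eq_self hT]
    rw [h2] at h1
    exact h1
  · exact half hd (fun f c => orth' hd f c)

theorem circ_val (hd : Disjoint B N) {f c : ℕ → F4} (hf : IsF D B N T z f)
    (hc : IsF (trD D) N B ((B ∪ N) \ T) x c) : ev (trD D) N c z = ev D B f x := by
  have h := orth' (D := D) hd f c
  rw [← Finset.sdiff_union_of_subset hf.1.1, Finset.sum_union Finset.sdiff_disjoint] at h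
  have h1 : ∑ e ∈ (B ∪ N) \ T, ev D B f e * ev (trD D) N c e = ev D B f x := by
    rw [Finset.sum_eq_single x]
    · rw [hc.2.2 x hc.2.1]; simp
    · intro e he hex
      rw [hc.2.2 e he]; simp [hex]
    · intro hx; exact absurd hc.2.1 hx
  have h2 : ∑ e ∈ T, ev D B f e * ev (trD D) N c e = ev (trD D) N c z := by
    rw [Finset.sum_eq_single z]
    · rw [hf.2.2 z hf.2.1]; simp
    · intro e he hez
      rw [hf.2.2 e he]; simp [hez]
    · intro hz; exact absurd hf.2.1 hz
  rw [h1, h2] at h
  have key : ∀ a b : F4, a + b = 0 → b = a := by decide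
  exact key _ _ h

/-- the circuit of the new basis -/
theorem circ_exchange (hd : Disjoint B N) {f c c' cy : ℕ → F4} {y : ℕ} (hf : IsF D B N T z f)
    (hx : x ∈ (B ∪ N) \ T) (hy : y ∈ (B ∪ N) \ T) (hxy : y ≠ x)
    (hT' : IsBase D B N (insert x (T.erase z)))
    (hc : IsF (trD D) N B ((B ∪ N) \ T) x c)
    (hcy : IsF (trD D) N B ((B ∪ N) \ T) y cy)
    (hcy' : IsF (trD D) N B ((B ∪ N) \ insert x (T.erase z)) y c') :
    ∀ n ∈ N, cy n + c' n = ev D B f y * (ev D B f x)⁻¹ * c n := by
  have hfx : ev D B f x ≠ 0 := (exchange hf hx).1 hT'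
  have hyT : y ∉ T := (Finset.mem_sdiff.1 hy).2
  have hzy : z ≠ y := fun h => hyT (h ▸ hf.2.1)
  apply eq_of_ev hcy'.1 (fun n => cy n + c' n) (fun n => ev D B f y * (ev D B f x)⁻¹ * c n)
  intro t ht
  rw [ev_add, ev_smul, hcy'.2.2 t ht]
  obtain ⟨htU, htT⟩ := Finset.mem_sdiff.1 ht
  by_cases htz : t = z
  · subst htz
    rw [circ_val hd hf hcy, circ_val hd hf hc, if_neg hzy, add_zero, mul_assoc,
      inv_mul_cancel₀ hfx, mul_one]
  · have htx : t ≠ x := fun h => htT (h ▸ Finset.mem_insert_self _ _)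
    have htT2 : t ∉ T := fun h =>
      htT (Finset.mem_insert_of_mem (Finset.mem_erase.2 ⟨htz, h⟩))
    have ht' : t ∈ (B ∪ N) \ T := Finset.mem_sdiff.2 ⟨htU, htT2⟩
    rw [hcy.2.2 t ht', hc.2.2 t ht', if_neg htx, mul_zero, F4.add_self]

end Pool.Agent.G4
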