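import Pool.Agent.G4.Lift3
import Pool.Agent.G4.Dual

set_option autoImplicit false

/-!
# Module S4a: vectors of the doubly marked bases

PROOF of `circ_lift_a`, `circ_lift_b` (vectors of the doubly marked bases of `m1`, `m2`):
(a) for `(T, (z, x)) ∈ LP`: the cocircuit vector of `(T ∪ p.2's, z)` is `lft f 0` (`isF_union`), the
circuit vector `c'` of `x` in the new matroid satisfies `c' y = 0`, `c' n = c n` on `N`
(check: `ev (trD D) (nN) c' b = ev (trD D) N c b` for `b ∈ B`, and `c'` must vanish at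
`((nB ∪ nN) \ T') - x = ((B ∪ N) \ T) - x + y`).
(b) for `(T*, x) ∈ Lc` with vector `c`, `p ∈ P`, `ev c p.1 ≠ 0`: for the doubly marked basis
`(T', (p.2, p.1))` of `m2` the cocircuit vector is `lft 0 [p.2]` (`pair_isF`), the circuit vector is
`c' n = (ev c p.1)⁻¹ * c n` on `N`, `c' y = 0`, and `ev f' p.1 = 1`.
For (b): `T'` is a basis because `(B ∪ N) \ Ts` is one (`isBase_dual`), exchange `p.1` and `x`
(`exchange` in the dual: `ev (trD D) N c p.1 ≠ 0`), then `base_union`; the exchange of `p.2` and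
`p.1` by `exchange` and `ev (lft 0 [p.2]) p.1 = 1` (`ev_lft_old`).
-/

namespace Pool.Agent.G4

open F4 Finset

variable {D : ℕ → ℕ → F4} {B N : Finset ℕ} {P : Finset (ℕ × ℕ)} {y : ℕ}

/-- the doubly marked bases of the matroid without `y` -/
structure PairSet (D : ℕ → ℕ → F4) (B N : Finset ℕ) (P : Finset (ℕ × ℕ)) (y : ℕ)
    (Lc : Set (Finset ℕ × ℕ)) (LP Q : Set (Finset ℕ × (ℕ × ℕ))) : Prop where
  valid : ∀ p ∈ Q, IsBase D (nB B P) (nN N y) p.1 ∧ p.2.1 ∈ p.1 ∧
    p.2.2 ∈ (nB B P ∪ nN N y) \ p.1 ∧ p.2.2 ≠ y ∧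
    IsBase D (nB B P) (nN N y) (insert p.2.2 (p.1.erase p.2.1)) ∧ p.1 ⊆ nB B P ∪ N
  m1 : ∀ p ∈ LP, (p.1 ∪ P.image (fun r => r.2), p.2) ∈ Q
  m2 : ∀ q ∈ Lc, ∀ c, IsF (trD D) N B q.1 q.2 c → ∀ p ∈ P, ev (trD D) N c p.1 ≠ 0 →
    ((if q.2 = p.1 then ((B ∪ N) \ q.1) ∪ P.image (fun r => r.2)
      else insert q.2 (((B ∪ N) \ q.1).erase p.1) ∪ P.image (fun r => r.2)), (p.2, p.1)) ∈ Q

private theorem snd_ne (st : Stp D B N P y) {q : ℕ × ℕ} (hq : q ∈ P) {e : ℕ} (he : e ∈ B ∪ N) :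
    e ≠ q.2 := fun h => st.new q hq (h ▸ he)

/-- elements of the complement of the new basis -/
private theorem mem_compl' (st : Stp D B N P y) {T : Finset ℕ} {e : ℕ} (he : e ∈ (B ∪ N) \ T) :
    e ∈ (nB B P ∪ nN N y) \ (T ∪ P.image fun p => p.2) := by
  obtain ⟨h1, h2⟩ := mem_sdiff.1 he
  rw [mem_sdiff]
  constructor
  · rcases mem_union.1 h1 with h | h
    · exact mem_union_left _ (mem_union_left _ h)
    · exact mem_union_right _ (mem_insert_of_mem h)
  · intro h
    rcases mem_union.1 h with h | h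
    · exact h2 h
    · obtain ⟨q, hq, hqe⟩ := mem_image.1 h
      exact snd_ne st hq h1 hqe.symm

private theorem y_mem_compl (st : Stp D B N P y) {T : Finset ℕ} (hT : T ⊆ B ∪ N) :
    y ∈ (nB B P ∪ nN N y) \ (T ∪ P.image fun p => p.2) := by
  rw [mem_sdiff]
  constructor
  · exact mem_union_right _ (mem_insert_self _ _)
  · intro h
    rcases mem_union.1 h with h | h
    · exact st.ynew (hT h)
    · obtain ⟨q, hq, hqe⟩ := mem_image.1 h
      exact st.yne q hq hqe.symm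

/-- the circuit vectors of the new matroid restricted to the old one -/
private theorem circ_restrict (st : Stp D B N P y) {T : Finset ℕ} (hT : T ⊆ B ∪ N) {w : ℕ}
    (hw : w ∈ B ∪ N) {c' : ℕ → F4}
    (hc' : IsF (trD D) (nN N y) (nB B P)
      ((nB B P ∪ nN N y) \ (T ∪ P.image fun p => p.2)) w c') :
    c' y = 0 ∧ ∀ e ∈ (B ∪ N) \ T, ev (trD D) N c' e = if e = w then 1 else 0 := by
  have hyw : y ≠ w := fun h => st.ynew (h ▸ hw)
  have hyN : y ∈ nN N y := mem_insert_self _ _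
  have hyN' : y ∉ N := fun h => st.ynew (mem_union_right _ h)
  have h0 : c' y = 0 := by
    have h1 := hc'.2.2 y (y_mem_compl st hT)
    rw [ev_mem (trD D) (nN N y) c' hyN, if_neg hyw] at h1
    exact h1
  refine ⟨h0, fun e he => ?_⟩
  have h1 := hc'.2.2 e (mem_compl' st he)
  have heBN := (mem_sdiff.1 he).1
  have hey : e ≠ y := fun h => st.ynew (h ▸ heBN)
  rw [← h1]
  by_cases heN : e ∈ N
  · rw [ev_mem (trD D) N c' heN, ev_mem (trD D) (nN N y) c' (mem_insert_of_mem heN)]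
  · have heN' : e ∉ nN N y := by
      intro h
      rcases mem_insert.1 h with h | h
      · exact hey h
      · exact heN h
    rw [ev_not_mem (trD D) N c' heN, ev_not_mem (trD D) (nN N y) c' heN', nN,
      sum_insert hyN', h0, zero_mul, zero_add]

/-- the value of the vector of a pair at its first element -/
private theorem ev_pair (st : Stp D B N P y) {p : ℕ × ℕ} (hp : p ∈ P) :
    ev D (nB B P) (lft B P (fun _ => 0) fun b => if b = p.2 then 1 else 0) p.1 = 1 := by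
  rw [ev_lft_old st _ _ (st.mem p hp), ev_zero, zero_add]
  have h1 : (P.filter fun q => q.1 = p.1) = {p} := by
    ext q
    rw [mem_filter, mem_singleton]
    constructor
    · rintro ⟨hq, hqp⟩
      exact st.inj1 q hq p hp hqp
    · rintro rfl
      exact ⟨hp, rfl⟩
  rw [h1, sum_singleton, if_pos rfl]

/-- vectors of old doubly marked bases -/
theorem circ_lift_a (st : Stp D B N P y) {T : Finset ℕ} {z x : ℕ} {f c f' c' : ℕ → F4}
    (hf : IsF D B N T z f) (hx : x ∈ (B ∪ N) \ T) (hc : IsF (trD D) N B ((B ∪ N) \ T) x c)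
    (hf' : IsF D (nB B P) (nN N y) (T ∪ P.image fun p => p.2) z f')
    (hc' : IsF (trD D) (nN N y) (nB B P)
      ((nB B P ∪ nN N y) \ (T ∪ P.image fun p => p.2)) x c') :
    (∀ b ∈ nB B P, f' b = lft B P f (fun _ => 0) b) ∧ (∀ n ∈ N, c' n = c n) ∧ c' y = 0 := by
  have hTs : T ⊆ B ∪ N := hf.1.1
  have hd := st.disj
  obtain ⟨h0, h1⟩ := circ_restrict st hTs (mem_sdiff.1 hx).1 hc'
  refine ⟨?_, ?_, h0⟩
  · have h2 := isF_union st hf
    refine eq_of_ev h2.1 _ _ fun t ht => ?_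
    rw [hf'.2.2 t ht, h2.2.2 t ht]
  · refine eq_of_ev hc.1 _ _ fun e he => ?_
    rw [h1 e he, hc.2.2 e he]

/-- vectors of the doubly marked bases of pairs -/
theorem circ_lift_b (st : Stp D B N P y) {Ts : Finset ℕ} {x : ℕ} {c : ℕ → F4}
    (hc : IsF (trD D) N B Ts x c) {p : ℕ × ℕ} (hp : p ∈ P) (hne : ev (trD D) N c p.1 ≠ 0)
    {T' : Finset ℕ} (hT' : T' = if x = p.1 then ((B ∪ N) \ Ts) ∪ P.image (fun r => r.2)
      else insert x (((B ∪ N) \ Ts).erase p.1) ∪ P.image (fun r => r.2)) :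
    IsBase D (nB B P) (nN N y) T' ∧ p.2 ∈ T' ∧ p.1 ∉ T' ∧ T' ⊆ nB B P ∪ N ∧
    IsBase D (nB B P) (nN N y) (insert p.1 (T'.erase p.2)) ∧
    ∀ f' c', IsF D (nB B P) (nN N y) T' p.2 f' →
      IsF (trD D) (nN N y) (nB B P) ((nB B P ∪ nN N y) \ T') p.1 c' →
      (∀ b ∈ nB B P, f' b = lft B P (fun _ => 0) (fun b => if b = p.2 then 1 else 0) b) ∧
      (∀ n ∈ N, c' n = (ev (trD D) N c p.1)⁻¹ * c n) ∧ c' y = 0 ∧
      ev D (nB B P) f' p.1 = 1 := by
  have hd := st.disj
  have hp1 : p.1 ∈ B ∪ N := st.mem p hp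
  have hTs : Ts ⊆ B ∪ N := by
    have := hc.1.1
    rwa [union_comm] at this
  have hxTs : x ∈ Ts := hc.2.1
  have hxBN : x ∈ B ∪ N := hTs hxTs
  have hcc : (B ∪ N) \ ((B ∪ N) \ Ts) = Ts := by
    rw [Finset.sdiff_sdiff_eq_self hTs]
  have hT0 : IsBase D B N ((B ∪ N) \ Ts) := by
    rw [← isBase_dual hd sdiff_subset, hcc]
    exact hc.1
  -- the basis `T1`
  obtain ⟨T1, hT1, hT1b, hp1T, hval⟩ : ∃ T1 : Finset ℕ, T' = T1 ∪ P.image (fun r => r.2) ∧
      IsBase D B N T1 ∧ p.1 ∉ T1 ∧ ∀ e ∈ (B ∪ N) \ T1,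
        ev (trD D) N (fun n => (ev (trD D) N c p.1)⁻¹ * c n) e = if e = p.1 then 1 else 0 := by
    by_cases hx : x = p.1
    · rw [if_pos hx] at hT'
      refine ⟨(B ∪ N) \ Ts, hT', hT0, ?_, ?_⟩
      · rw [← hx]
        exact fun h => (mem_sdiff.1 h).2 hxTs
      · intro e he
        rw [hcc] at he
        rw [ev_smul, hc.2.2 e he, ← hx, hc.2.2 x hxTs, if_pos rfl, inv_one, one_mul]
    · rw [if_neg hx] at hT'
      have hpTs : p.1 ∉ Ts := by
        intro h
        have h1 := hc.2.2 p.1 h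
        rw [if_neg (fun h2 => hx h2.symm)] at h1
        exact hne h1
      have hpT0 : p.1 ∈ (B ∪ N) \ Ts := mem_sdiff.2 ⟨hp1, hpTs⟩
      obtain ⟨f, hf⟩ := exists_isF hT0 hpT0
      have hxc : x ∈ (B ∪ N) \ ((B ∪ N) \ Ts) := by rw [hcc]; exact hxTs
      have hcv : ev (trD D) N c p.1 = ev D B f x := by
        refine circ_val hd hf ?_
        rw [hcc]
        exact hc
      refine ⟨insert x (((B ∪ N) \ Ts).erase p.1), hT', ?_, ?_, ?_⟩
      · rw [exchange hf hxc, ← hcv]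
        exact hne
      · intro h
        rcases mem_insert.1 h with h | h
        · exact hx h.symm
        · exact (mem_erase.1 h).1 rfl
      · intro e he
        obtain ⟨he1, he2⟩ := mem_sdiff.1 he
        rw [ev_smul]
        by_cases hep : e = p.1
        · rw [if_pos hep, hep, inv_mul_cancel₀ hne]
        · have hex : e ≠ x := fun h => he2 (h ▸ mem_insert_self _ _)
          have heTs : e ∈ Ts := by
            by_contra h
            exact he2 (mem_insert_of_mem (mem_erase.2 ⟨hep, mem_sdiff.2 ⟨he1, h⟩⟩))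
          rw [if_neg hep, hc.2.2 e heTs, if_neg hex, mul_zero]
  subst hT1
  have hT1s : T1 ⊆ B ∪ N := hT1b.1
  have hB' : IsBase D (nB B P) (nN N y) (T1 ∪ P.image fun r => r.2) := base_union st hT1b
  have hp2 : p.2 ∈ T1 ∪ P.image (fun r => r.2) :=
    mem_union_right _ (mem_image_of_mem (fun r : ℕ × ℕ => r.2) hp)
  have hp1' : p.1 ∉ T1 ∪ P.image (fun r => r.2) := by
    intro h
    rcases mem_union.1 h with h | h
    · exact hp1T h
    · obtain ⟨q, hq, hqe⟩ := mem_image.1 h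
      exact snd_ne st hq hp1 hqe.symm
  have hsub : T1 ∪ P.image (fun r => r.2) ⊆ nB B P ∪ N := by
    intro e he
    rcases mem_union.1 he with h | h
    · rcases mem_union.1 (hT1s h) with h | h
      · exact mem_union_left _ (mem_union_left _ h)
      · exact mem_union_right _ h
    · exact mem_union_left _ (mem_union_right _ h)
  have hF := pair_isF st hp hB' hsub hp1' hp2
  have hpc : p.1 ∈ (nB B P ∪ nN N y) \ (T1 ∪ P.image fun r => r.2) :=
    mem_compl' st (mem_sdiff.2 ⟨hp1, hp1T⟩)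
  refine ⟨hB', hp2, hp1', hsub, ?_, ?_⟩
  · rw [exchange hF hpc, ev_pair st hp]
    exact one_ne_zero
  · intro f' c' hf' hc'
    have hff : ∀ b ∈ nB B P, f' b =
        lft B P (fun _ => 0) (fun b => if b = p.2 then 1 else 0) b := by
      refine eq_of_ev hB' _ _ fun t ht => ?_
      rw [hf'.2.2 t ht, hF.2.2 t ht]
    obtain ⟨h0, h1⟩ := circ_restrict st hT1s hp1 hc'
    refine ⟨hff, ?_, h0, ?_⟩
    · have hb : IsBase (trD D) N B ((B ∪ N) \ T1) := (isBase_dual hd hT1s).2 hT1b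
      refine eq_of_ev hb _ _ fun e he => ?_
      rw [h1 e he, hval e he]
    · rw [ev_congr D (nB B P) hff, ev_pair st hp]

end Pool.Agent.G4
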