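import Pool.Agent.G4.SP1b
import Pool.Agent.G4.SP2a

set_option autoImplicit false

/-!
# Module S4b: the conditions on the columns different from `y`

PROOF of `pairSet_map`: apply `pnplus`. Its hypothesis `h1`: for `(T, (z, x)) ∈ LP` with vectors
`f`, `c` use `hQ.m1`, the vectors `f'`, `c'` of `(T ∪ {p.2}, (z, x))` exist (`exists_isF`; for `c'` use
`isBase_dual`), and by `circ_lift_a` `f' = lft f 0`, `c' = c` on `N`, `c' y = 0`, so the sum over
`nB x nN` is the sum over `B x N` (`lft f 0` is `f` on `B` and zero at `p.2`), and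
`ev (lft f 0) x = ev f x` (`ev_lft_old`). Hypothesis `h2`: for `q ∈ Lc` with vector `c` and `p ∈ P`
with `ev c p.1 ≠ 0` use `hQ.m2` and `circ_lift_b`: rows `f' b = [b = p.2] + [b = p.1, b ∈ B]`, column
coefficients `c' n = (ev c p.1)⁻¹ * c n`, `c' y = 0`, `ev f' p.1 = 1`.
-/

namespace Pool.Agent.G4

open F4 Finset

variable {D : ℕ → ℕ → F4} {B N : Finset ℕ} {P : Finset (ℕ × ℕ)} {y : ℕ}

private theorem disj_new (st : Stp D B N P y) : Disjoint (nB B P) (nN N y) := by
  rw [Finset.disjoint_left]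
  intro e he he'
  rcases mem_union.1 he with h1 | h1
  · rcases mem_insert.1 he' with h2 | h2
    · exact st.ynew (h2 ▸ mem_union_left _ h1)
    · exact Finset.disjoint_left.1 st.disj h1 h2
  · obtain ⟨q, hq, rfl⟩ := mem_image.1 h1
    rcases mem_insert.1 he' with h2 | h2
    · exact st.yne q hq h2.symm
    · exact st.new q hq (mem_union_right _ h2)

private theorem sum_nB' (h : Stp D B N P y) (F : ℕ → F4) :
    ∑ b ∈ nB B P, F b = ∑ b ∈ B, F b + ∑ p ∈ P, F p.2 := by
  have hd : Disjoint B (P.image fun p => p.2) := by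
    rw [Finset.disjoint_left]
    intro b hb hb'
    obtain ⟨p, hp, rfl⟩ := mem_image.1 hb'
    exact h.new p hp (mem_union_left _ hb)
  rw [nB, sum_union hd, sum_image fun p hp q hq hpq => h.inj2 p hp q hq hpq]

private theorem lft_zero_mem (g : ℕ → F4) {b : ℕ} (hb : b ∈ B) :
    lft B P g (fun _ => 0) b = g b := by
  rw [lft, if_pos hb, sum_const_zero, add_zero]

private theorem filt_fst (st : Stp D B N P y) {p : ℕ × ℕ} (hp : p ∈ P) :
    (P.filter fun q => q.1 = p.1) = {p} := by
  ext q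
  rw [mem_filter, mem_singleton]
  constructor
  · rintro ⟨hq, hqp⟩
    exact st.inj1 q hq p hp hqp
  · rintro rfl
    exact ⟨hp, rfl⟩

private theorem lft_one_mem (st : Stp D B N P y) {p : ℕ × ℕ} (hp : p ∈ P) {b : ℕ} (hb : b ∈ B) :
    lft B P (fun _ => 0) (fun b => if b = p.2 then 1 else 0) b =
      if b = p.1 then (1 : F4) else 0 := by
  rw [lft, if_pos hb, zero_add]
  by_cases hbp : b = p.1
  · rw [if_pos hbp, hbp, filt_fst st hp, sum_singleton, if_pos rfl]
  · rw [if_neg hbp]
    refine sum_eq_zero fun q hq => ?_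
    obtain ⟨hq, hqb⟩ := mem_filter.1 hq
    rw [if_neg]
    intro h
    exact hbp (st.inj2 q hq p hp h ▸ hqb.symm)

/-- the conditions on the columns different from `y` -/
theorem pairSet_map (st : Stp D B N P y) (hN : C3 D B N)
    {Lc : Set (Finset ℕ × ℕ)} {LP Q : Set (Finset ℕ × (ℕ × ℕ))}
    (hc : SpanH (trD D) N B Lc) (hp : SpanP D B N LP) (hQ : PairSet D B N P y Lc LP Q)
    (Φ : ℕ → ℕ → F4)
    (h : ∀ p ∈ Q, ∀ f c, IsF D (nB B P) (nN N y) p.1 p.2.1 f →
      IsF (trD D) (nN N y) (nB B P) ((nB B P ∪ nN N y) \ p.1) p.2.2 c →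
      tr ((∑ b ∈ nB B P, ∑ n ∈ N, f b * Φ b n * c n) * (ev D (nB B P) f p.2.2)⁻¹) = 0) :
    ∃ l : ℕ → F4, (∀ e, l e = 0 ∨ l e = 1) ∧
      ∀ b ∈ nB B P, ∀ n ∈ N, Φ b n = (l b + l n) * D b n := by
  have hdn := disj_new st
  refine pnplus st hN hc hp Φ ?_ ?_
  · intro p hpL f c hf hcc
    have hm := hQ.m1 p hpL
    have hval := hQ.valid _ hm
    have hxx := (hp.1 p hpL).2.2.1
    obtain ⟨f', hf'⟩ := exists_isF hval.1 hval.2.1
    have hcb : IsBase (trD D) (nN N y) (nB B P)
        ((nB B P ∪ nN N y) \ (p.1 ∪ P.image fun r => r.2)) :=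
      (isBase_dual hdn hval.1.1).2 hval.1
    obtain ⟨c', hc'⟩ := exists_isF hcb hval.2.2.1
    obtain ⟨hfe, hce, hcy⟩ := circ_lift_a st hf hxx hcc hf' hc'
    have h1 := h _ hm f' c' hf' hc'
    have h2 : ev D (nB B P) f' p.2.2 = ev D B f p.2.2 := by
      rw [ev_congr D (nB B P) hfe, ev_lft_old st _ _ (mem_sdiff.1 hxx).1, sum_const_zero, add_zero]
    have h3 : ∑ b ∈ nB B P, ∑ n ∈ N, f' b * Φ b n * c' n =
        ∑ b ∈ B, ∑ n ∈ N, f b * Φ b n * c n := by
      rw [sum_nB' st]
      have h4 : ∑ r ∈ P, ∑ n ∈ N, f' r.2 * Φ r.2 n * c' n = 0 := by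
        refine sum_eq_zero fun r hr => sum_eq_zero fun n _ => ?_
        have hrn : r.2 ∈ nB B P := mem_union_right _ (mem_image_of_mem (fun r : ℕ × ℕ => r.2) hr)
        have hrB : r.2 ∉ B := fun hb => st.new r hr (mem_union_left _ hb)
        rw [hfe _ hrn, lft, if_neg hrB, zero_mul, zero_mul]
      rw [h4, add_zero]
      refine sum_congr rfl fun b hb => sum_congr rfl fun n hn => ?_
      rw [hfe b (mem_union_left _ hb), lft_zero_mem f hb, hce n hn]
    simp only at h1
    rw [h3, h2] at h1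
    exact h1
  · intro q hq c hcc p hpP hne
    have hm := hQ.m2 q hq c hcc p hpP hne
    have hval := hQ.valid _ hm
    obtain ⟨hb1, hb2, hb3, hb4, hb5, hb6⟩ := circ_lift_b st hcc hpP hne rfl
    obtain ⟨f', hf'⟩ := exists_isF hval.1 hval.2.1
    have hcb := (isBase_dual hdn hval.1.1).2 hval.1
    obtain ⟨c', hc'⟩ := exists_isF hcb hval.2.2.1
    obtain ⟨hfe, hce, hcy, hev⟩ := hb6 f' c' hf' hc'
    have h1 := h _ hm f' c' hf' hc'
    simp only at h1
    rw [hev] at h1
    have h3 : ∑ b ∈ nB B P, ∑ n ∈ N, f' b * Φ b n * c' n =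
        (∑ n ∈ N, (Φ p.2 n + if p.1 ∈ B then Φ p.1 n else 0) * c n) *
          (ev (trD D) N c p.1)⁻¹ := by
      rw [sum_nB' st]
      have h4 : ∑ r ∈ P, ∑ n ∈ N, f' r.2 * Φ r.2 n * c' n = ∑ n ∈ N, Φ p.2 n * c' n := by
        rw [sum_eq_single p]
        · refine sum_congr rfl fun n _ => ?_
          have hrn : p.2 ∈ nB B P :=
            mem_union_right _ (mem_image_of_mem (fun r : ℕ × ℕ => r.2) hpP)
          have hrB : p.2 ∉ B := fun hb => st.new p hpP (mem_union_left _ hb)
          rw [hfe _ hrn, lft, if_neg hrB, if_pos rfl, one_mul]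
        · intro r hr hrp
          refine sum_eq_zero fun n _ => ?_
          have hrn : r.2 ∈ nB B P := mem_union_right _ (mem_image_of_mem (fun r : ℕ × ℕ => r.2) hr)
          have hrB : r.2 ∉ B := fun hb => st.new r hr (mem_union_left _ hb)
          rw [hfe _ hrn, lft, if_neg hrB, if_neg, zero_mul, zero_mul]
          intro h5
          exact hrp (st.inj2 r hr p hpP h5)
        · intro h5
          exact absurd hpP h5
      have h5 : ∑ b ∈ B, ∑ n ∈ N, f' b * Φ b n * c' n =
          ∑ n ∈ N, (if p.1 ∈ B then Φ p.1 n else 0) * c' n := by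
        have h6 : ∀ b ∈ B, ∑ n ∈ N, f' b * Φ b n * c' n =
            if b = p.1 then ∑ n ∈ N, Φ b n * c' n else 0 := by
          intro b hb
          split_ifs with hbp
          · refine sum_congr rfl fun n _ => ?_
            rw [hfe b (mem_union_left _ hb), lft_one_mem st hpP hb, if_pos hbp, one_mul]
          · refine sum_eq_zero fun n _ => ?_
            rw [hfe b (mem_union_left _ hb), lft_one_mem st hpP hb, if_neg hbp, zero_mul,
              zero_mul]
        rw [sum_congr rfl h6, sum_ite_eq']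
        split_ifs with hpB
        · rfl
        · symm
          refine sum_eq_zero fun n _ => ?_
          rw [zero_mul]
      rw [h4, h5, ← sum_add_distrib, sum_mul]
      refine sum_congr rfl fun n hn => ?_
      rw [hce n hn]
      ring
    rw [h3] at h1
    have h7 : (1 : F4)⁻¹ = 1 := by decide
    rw [h7, mul_one] at h1
    exact h1

end Pool.Agent.G4
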