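import Pool.Agent.G4.SP1a
import Pool.Agent.G4.SP2b
import Pool.Agent.G4.SH2a
import Pool.Agent.G4.Lift2

set_option autoImplicit false

/-!
# Module S4c: linear maps on the new matroid

PROOF of `stepP`. Let `Φ` satisfy the conditions for `LP'`. By (a), (b) the hypotheses `h1`, `h2` of
`pnplus` hold for `Φ` (the column `y` does not matter since `c' y = 0`; in (b) the rows are
`f' b = [b = p.2] + [b = p.1, b ∈ B]`), so there is `l` with `Φ b n = (l b + l n) D b n` for
`b ∈ nB`, `n ∈ N`. Put `l y = 0` (change `l` at `y`; `y ∉ nB ∪ N`), and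
`Φ' = Φ + (l b + l n) D b n`; it vanishes for `n ∈ N`, and satisfies all conditions
(`trivial_map` for the new matroid). Let `ζ b = Φ' b y`. For `(T', (z', y)) ∈ LP'` with cocircuit
vector `f'`: the circuit vector has `c' y = 1`, so `tr ((∑_b f' b ζ b) * (ev f' y)⁻¹) = 0`. By `m3`,
`m4` (`hyp_base`, `pair_isF`, vectors up to a scalar, `tr` condition is invariant under scaling of
`f'`) the Hermitian form `W = two ζ (D · y)` (`qf_two`: value
`tr ((∑ f b ζ b) * conj (ev f y))` for `f` on `nB`, `y ∉ nB`) satisfies `h1`, `h2` of `hnplus`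
(if the value at `y` is zero the form is zero). So
`tr (ζ(lft g t) * conj (ev (lft g t) y)) = ∑_p l p * tr (ev g p.1 * conj (t p.2))` for all `g`, `t`.
Write `ζ(lft g t) = ∑_b g b ζ b + ∑_p t p.2 ζ_p`, `ζ_p = ζ p.2 + [p.1 ∈ B] ζ p.1`,
`ev (lft g t) y = ∑_b g b D b y + ∑_p t p.2 sco p`. Comparing:
 (i) `g = 0`, `t` at one pair: `tr (ζ_p * conj (sco p)) = 0`, so `ζ_p = ρ_p sco p`,
 `ρ_p ∈ {0, 1}` (`sco_ne`); two pairs `p ≠ q`: `ζ_p conj (sco q) + sco p conj ζ_q = 0` so
 `ρ_p = ρ_q =: ρ` (if `P = ∅` see (iii)).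
 (ii) Let `η b = ζ b + ρ D b y`; mixed terms give `η b conj (sco p) = l p * col D B p.1 b` on `B`
 (`η_p = 0`), i.e. `η b = l p * sco p * col p.1 b`, for all `p`, and the `g`-`g` terms give
 `two η (D · y) = 0` on `B`. If some `l p = 1` then all `l q = 1` (`η ≠ 0`), so `P = {p}`
 (`C3.indep2`), and `two η (D · y) = 0` gives (`herm_rank_two`) `D b y = c * η b`,
 contradiction by `no_triangle`. So `η = 0` on `B` and `ζ b = ρ D b y` on `nB`.
 (iii) If `P = ∅`: `two ζ (D · y) = 0` on `B`, `D · y ≠ 0` (`C3.col_ne` for the new matroid), so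
 `ζ = ρ D · y` by `herm_rank_two`.
Finally `l y := ρ` (instead of 0): `Φ b y = (l b + ρ) D b y`. qed
-/

namespace Pool.Agent.G4

open F4 Finset

variable {D : ℕ → ℕ → F4} {B N : Finset ℕ} {P : Finset (ℕ × ℕ)} {y : ℕ}

private theorem y_nB (st : Stp D B N P y) : y ∉ nB B P := by
  unfold nB
  rw [mem_union, mem_image]
  rintro (h | ⟨p, hp, h⟩)
  · exact st.ynew (mem_union_left _ h)
  · exact st.yne p hp h.symm

private theorem disj' (st : Stp D B N P y) : Disjoint (nB B P) (nN N y) := by
  rw [Finset.disjoint_left]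
  intro e he hn
  unfold nN at hn
  rcases mem_insert.1 hn with rfl | hn
  · exact y_nB st he
  · unfold nB at he
    rcases mem_union.1 he with h | h
    · exact (Finset.disjoint_left.1 st.disj) h hn
    · obtain ⟨p, hp, rfl⟩ := mem_image.1 h
      exact st.new p hp (mem_union_right _ hn)

private theorem zsum (st : Stp D B N P y) (g t ζ : ℕ → F4) :
    ∑ b ∈ nB B P, lft B P g t b * ζ b =
      ∑ b ∈ B, g b * ζ b + ∑ p ∈ P, t p.2 * (ζ p.2 + if p.1 ∈ B then ζ p.1 else 0) := by
  set D' : ℕ → ℕ → F4 := fun b n => if n = y then ζ b else D b n with hD'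
  have hyN : y ∉ N := fun h => st.ynew (mem_union_right _ h)
  have hyB : y ∉ B := fun h => st.ynew (mem_union_left _ h)
  have st' : Stp D' B N P y := by
    refine ⟨st.disj, st.mem, st.new, st.inj1, st.inj2, st.ynew, st.yne, fun p hp n hn => ?_⟩
    have hne : n ≠ y := fun h => hyN (h ▸ hn)
    simp only [hD', hne, if_false]
    exact st.row p hp n hn
  have h := ev_lft_y st' g t
  rw [ev_not_mem _ _ _ (y_nB st), ev_not_mem _ _ _ hyB] at h
  simpa [hD', sco] using h

private theorem sum_single' {α : Type} [DecidableEq α] (P : Finset α) (p : α) (hp : p ∈ P) (F : α → F4)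
    (h : ∀ q ∈ P, q ≠ p → F q = 0) : ∑ q ∈ P, F q = F p :=
  Finset.sum_eq_single p h fun h' => absurd hp h'

private theorem f4a (x s s' ρ ρ' : F4) (h0 : ρ = 0 ∨ ρ = 1) (h0' : ρ' = 0 ∨ ρ' = 1)
    (h : tr ((x * (ρ * s) + ρ' * s') * conj (x * s + s')) = 0) :
    tr (x * ((ρ + ρ') * s * conj s')) = 0 := by
  revert h
  rcases h0 with rfl | rfl <;> rcases h0' with rfl | rfl <;> revert x s s' <;> decide

private theorem f4b (x a e s k l : F4) (hl : l = 0 ∨ l = 1) (h0 : tr (a * conj e) = 0)
    (h3 : tr (a * conj (e + conj x * s)) = l * tr (k * conj (conj x))) :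
    tr (x * (a * conj s + l * k)) = 0 := by
  have e1 : a * conj (e + conj x * s) = a * conj e + x * (a * conj s) := by
    rw [conj_add, conj_mul, conj_conj]; ring
  have e2 : x * (a * conj s + l * k) = x * (a * conj s) + l * (k * x) := by ring
  rw [e1, tr_add, h0, zero_add, conj_conj] at h3
  rw [e2, tr_add, h3, tr_real_mul l _ hl, add_self]

private theorem f4c (a b c ρ : F4) (hρ : ρ = 0 ∨ ρ = 1) :
    tr ((a + ρ * b) * conj (b + c)) = tr ((a + ρ * c) * conj (b + c)) := by
  have h1 : ∀ u v : F4, tr ((u + v) * conj v) = tr (u * conj v) := by decide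
  rcases hρ with rfl | rfl
  · simp
  · rw [one_mul, one_mul]
    have e1 : a + b = (a + c) + (b + c) := by
      have : c + c = 0 := add_self c
      linear_combination -this
    rw [e1, h1]

/-- scaling of vectors in a value of the form -/
private theorem cond_qf (hy : y ∉ nB B P) (ζ f : ℕ → F4) :
    qf (nB B P) (two ζ fun b => D b y) f =
      tr ((∑ b ∈ nB B P, f b * ζ b) * conj (ev D (nB B P) f y)) := by
  rw [qf_two, ev_not_mem _ _ _ hy]

/-- the column `ζ` of a linear map satisfying all conditions -/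
private theorem core (st : Stp D B N P y) (hN : C3 D B N) (hM : C3 D (nB B P) (nN N y))
    {L : Set (Finset ℕ × ℕ)} (hL : SpanH D B N L) (ζ : ℕ → F4)
    (h1 : ∀ p ∈ L, ∀ f, IsF D B N p.1 p.2 f → ∀ U ⊆ P, U.card ≤ 2 →
      qf (nB B P) (two ζ fun b => D b y) (lfU D B P U f) = 0)
    (h2 : ∀ p ∈ P, qf (nB B P) (two ζ fun b => D b y)
      (lft B P (fun _ => 0) fun b => if b = p.2 then 1 else 0) = 0) :
    ∃ ρ : F4, (ρ = 0 ∨ ρ = 1) ∧ ∀ b ∈ nB B P, ζ b = ρ * D b y := by
  have hyB' : y ∉ nB B P := y_nB st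
  have hyB : y ∉ B := fun h => st.ynew (mem_union_left _ h)
  have hd' := disj' st
  obtain ⟨l, hl, hq⟩ := hnplus st hN hL (herm_two ζ fun b => D b y) h1 h2
  set ζp : ℕ × ℕ → F4 := fun p => ζ p.2 + if p.1 ∈ B then ζ p.1 else 0 with hζp
  have hq' : ∀ g t : ℕ → F4, tr ((∑ b ∈ B, g b * ζ b + ∑ p ∈ P, t p.2 * ζp p) *
      conj (ev D B g y + ∑ p ∈ P, t p.2 * sco D B y p)) =
      ∑ p ∈ P, l p * tr (ev D B g p.1 * conj (t p.2)) := by
    intro g t
    rw [← hq g t, cond_qf hyB', zsum st, ev_lft_y st]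
  -- the values at one pair
  have single : ∀ p ∈ P, ∀ x : F4, ∀ w : ℕ × ℕ → F4,
      ∑ q ∈ P, (if q.2 = p.2 then x else 0) * w q = x * w p := by
    intro p hp x w
    rw [sum_single' P p hp (fun q => (if q.2 = p.2 then x else 0) * w q) fun q hq hqp => ?_]
    · simp
    · have : q.2 ≠ p.2 := fun h => hqp (st.inj2 q hq p hp h)
      simp [this]
  have zero_g : ∀ e, ev D B (fun _ => 0) e = 0 := fun e => ev_zero D B e
  have hρ1 : ∀ p ∈ P, tr (ζp p * conj (sco D B y p)) = 0 := by
    intro p hp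
    have h := hq' (fun _ => 0) (fun b => if b = p.2 then 1 else 0)
    rw [single p hp, single p hp, zero_g] at h
    simpa [zero_g] using h
  have hρ : ∀ p ∈ P, ∃ ρ : F4, (ρ = 0 ∨ ρ = 1) ∧ ζp p = ρ * sco D B y p := by
    intro p hp
    refine ⟨ζp p * conj (sco D B y p), (tr_eq_zero _).1 (hρ1 p hp), ?_⟩
    have h := mul_conj_self _ (sco_ne st hN hM hp)
    rw [mul_assoc, mul_comm (conj _), h, mul_one]
  -- the value is the same at all pairs
  have hρ2 : ∀ p ∈ P, ∀ q ∈ P, ∀ ρ ρ' : F4, (ρ = 0 ∨ ρ = 1) → (ρ' = 0 ∨ ρ' = 1) →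
      ζp p = ρ * sco D B y p → ζp q = ρ' * sco D B y q → ρ = ρ' := by
    intro p hp q hq ρ ρ' h0 h0' hp1 hq1
    by_cases hpq : p = q
    · subst hpq
      have h := sco_ne st hN hM hp
      exact mul_right_cancel₀ h (hp1.symm.trans hq1)
    have h2ne : p.2 ≠ q.2 := fun h => hpq (st.inj2 p hp q hq h)
    have key : ∀ x : F4, tr (x * ((ρ + ρ') * sco D B y p * conj (sco D B y q))) = 0 := by
      intro x
      have h := hq' (fun _ => 0) (fun b => (if b = p.2 then x else 0) + if b = q.2 then 1 else 0)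
      have e1 : ∀ w : ℕ × ℕ → F4, ∑ r ∈ P, ((if r.2 = p.2 then x else 0) +
          if r.2 = q.2 then 1 else 0) * w r = x * w p + w q := by
        intro w
        simp_rw [add_mul]
        rw [Finset.sum_add_distrib, single p hp, single q hq, one_mul]
      rw [e1, e1, zero_g] at h
      simp only [zero_g, zero_mul, tr_zero, mul_zero, Finset.sum_const_zero, zero_add] at h
      rw [hp1, hq1] at h
      exact f4a x _ _ ρ ρ' h0 h0' h
    have h3 := eq_zero_of_tr _ key
    have hs := sco_ne st hN hM hp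
    have hs' : conj (sco D B y q) ≠ 0 := fun h => sco_ne st hN hM hq ((conj_eq_zero _).1 h)
    have h4 : ρ + ρ' = 0 := by
      rcases mul_eq_zero.1 h3 with h5 | h5
      · rcases mul_eq_zero.1 h5 with h6 | h6
        · exact h6
        · exact absurd h6 hs
      · exact absurd h5 hs'
    revert h4
    rcases h0 with rfl | rfl <;> rcases h0' with rfl | rfl <;> decide
  -- the form on the old rows
  have hB : P.Nonempty → ∃ ρ : F4, (ρ = 0 ∨ ρ = 1) ∧ ∀ b ∈ nB B P, ζ b = ρ * D b y := by
    rintro ⟨p₀, hp₀⟩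
    obtain ⟨ρ, hρ0, hρp⟩ := hρ p₀ hp₀
    have hall : ∀ p ∈ P, ζp p = ρ * sco D B y p := by
      intro p hp
      obtain ⟨ρ', hρ0', hρp'⟩ := hρ p hp
      rw [hρp', hρ2 p hp p₀ hp₀ ρ' ρ hρ0' hρ0 hρp' hρp]
    refine ⟨ρ, hρ0, ?_⟩
    set η : ℕ → F4 := fun b => ζ b + ρ * D b y with hη
    have hηsum : ∀ g : ℕ → F4, ∑ b ∈ B, g b * η b = ∑ b ∈ B, g b * ζ b + ρ * ev D B g y := by
      intro g
      rw [ev_not_mem _ _ _ hyB, Finset.mul_sum, ← Finset.sum_add_distrib]
      exact Finset.sum_congr rfl fun b _ => by simp only [hη]; ring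
    have hq2 : ∀ g t : ℕ → F4, tr ((∑ b ∈ B, g b * η b) *
        conj (ev D B g y + ∑ p ∈ P, t p.2 * sco D B y p)) =
        ∑ p ∈ P, l p * tr (ev D B g p.1 * conj (t p.2)) := by
      intro g t
      rw [← hq' g t, hηsum]
      have e1 : ∑ p ∈ P, t p.2 * ζp p = ρ * ∑ p ∈ P, t p.2 * sco D B y p := by
        rw [Finset.mul_sum]
        exact Finset.sum_congr rfl fun p hp => by rw [hall p hp]; ring
      rw [e1]
      exact f4c _ _ _ ρ hρ0
    -- the mixed terms
    have hmix : ∀ p ∈ P, ∀ b ∈ B, η b = l p * sco D B y p * col D B p.1 b := by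
      intro p hp b hb
      set g : ℕ → F4 := fun i => if i = b then 1 else 0 with hg
      have hgs : ∑ i ∈ B, g i * η i = η b := by
        rw [sum_single' B b hb (fun i => g i * η i) fun i _ hib => by simp [hg, hib]]
        simp [hg]
      have hge : ev D B g p.1 = col D B p.1 b := by
        unfold ev
        rw [sum_single' B b hb (fun i => g i * col D B p.1 i) fun i _ hib => by simp [hg, hib]]
        simp [hg]
      have key : ∀ x : F4, tr (x * (η b * conj (sco D B y p) + l p * col D B p.1 b)) = 0 := by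
        intro x
        have h0 := hq2 g (fun _ => 0)
        have h3 := hq2 g (fun i => if i = p.2 then conj x else 0)
        rw [single p hp] at h3
        have e2 : ∑ q ∈ P, l q * tr (ev D B g q.1 * conj (if q.2 = p.2 then conj x else 0)) =
            l p * tr (ev D B g p.1 * conj (conj x)) := by
          rw [sum_single' P p hp (fun q => l q * tr (ev D B g q.1 *
            conj (if q.2 = p.2 then conj x else 0))) fun q hq hqp => ?_]
          · simp
          · have : q.2 ≠ p.2 := fun h => hqp (st.inj2 q hq p hp h)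
            simp [this]
        rw [e2, hgs, hge] at h3
        simp only [zero_mul, Finset.sum_const_zero, add_zero, conj_zero, mul_zero, tr_zero] at h0
        rw [hgs] at h0
        exact f4b x _ _ _ _ _ (hl p) h0 h3
      have h3 := eq_zero_of_tr _ key
      have h4 := mul_conj_self _ (sco_ne st hN hM hp)
      have h5 : η b * conj (sco D B y p) = l p * col D B p.1 b := by
        revert h3
        generalize η b * conj (sco D B y p) = a
        generalize l p * col D B p.1 b = k
        revert a k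
        decide
      calc η b = η b * (sco D B y p * conj (sco D B y p)) := by rw [h4, mul_one]
        _ = (η b * conj (sco D B y p)) * sco D B y p := by ring
        _ = l p * sco D B y p * col D B p.1 b := by rw [h5]; ring
    -- the form of `η` vanishes on the old rows
    have hηform : ∀ i ∈ B, ∀ j ∈ B, two η (fun b => D b y) i j = 0 := by
      refine hL.2 _ (herm_two _ _) fun q _ f _ => ?_
      rw [qf_two]
      have h0 := hq2 f (fun _ => 0)
      rw [ev_not_mem _ _ _ hyB] at h0
      simpa using h0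
    have hl0 : ∀ p ∈ P, l p = 0 := by
      intro p hp
      by_contra hlp
      have hlp1 : l p = 1 := (hl p).resolve_left hlp
      have hs := sco_ne st hN hM hp
      have hPe : P = {p} := by
        rw [Finset.eq_singleton_iff_unique_mem]
        refine ⟨hp, fun q hq => ?_⟩
        by_contra hqp
        have hne : p.1 ≠ q.1 := fun h => hqp (st.inj1 p hp q hq h).symm
        have h3 := C3.indep2 hN st.disj (st.mem p hp) (st.mem q hq) hne (sco D B y p)
          (l q * sco D B y q) (fun b hb => by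
            have e1 := hmix p hp b hb
            have e2 := hmix q hq b hb
            rw [hlp1, one_mul] at e1
            rw [← e1, ← e2, add_self])
        exact hs h3.1
      obtain ⟨b, hb, hcb⟩ := C3.col_ne hN st.disj (st.mem p hp)
      have hηb : η b ≠ 0 := by
        rw [hmix p hp b hb, hlp1, one_mul]
        exact mul_ne_zero hs hcb
      obtain ⟨c, hc, hcv⟩ := herm_rank_two B (fun b => D b y) η ⟨b, hb, hηb⟩ (fun i hi j hj => by
        have h4 := hηform i hi j hj
        unfold two at h4 ⊢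
        rw [add_comm]
        exact h4)
      refine no_triangle st hN hM hp c hc (fun b hb => ?_) hPe
      have h5 : D b y = c * η b := hcv b hb
      rw [h5, hmix p hp b hb, hlp1, one_mul, mul_assoc]
    have hη0 : ∀ b ∈ B, η b = 0 := by
      intro b hb
      rw [hmix p₀ hp₀ b hb, hl0 p₀ hp₀, zero_mul, zero_mul]
    have fin : ∀ b, η b = 0 → ζ b = ρ * D b y := by
      intro b hb
      revert hb
      simp only [hη]
      generalize ζ b = a
      generalize ρ * D b y = k
      revert a k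
      decide
    intro b hb
    apply fin
    unfold nB at hb
    rcases mem_union.1 hb with hb | hb
    · exact hη0 b hb
    · obtain ⟨p, hp, rfl⟩ := mem_image.1 hb
      have h3 := hall p hp
      have h4 : (if p.1 ∈ B then η p.1 else 0) = 0 := by
        split_ifs with h
        · exact hη0 _ h
        · rfl
      have h5 : η p.2 + (if p.1 ∈ B then η p.1 else 0) = ζp p + ρ * sco D B y p := by
        simp only [hη, hζp, sco]
        split_ifs <;> ring
      rw [h4, h3, add_self, add_zero] at h5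
      exact h5
  rcases P.eq_empty_or_nonempty with hP | hP
  · -- no pairs
    have hBB : nB B P = B := by unfold nB; rw [hP]; simp
    have hform : ∀ i ∈ B, ∀ j ∈ B, two ζ (fun b => D b y) i j = 0 := by
      refine hL.2 _ (herm_two _ _) fun q _ f _ => ?_
      rw [qf_two]
      have h0 := hq' f (fun _ => 0)
      rw [ev_not_mem _ _ _ hyB] at h0
      simpa using h0
    obtain ⟨b, hb, hcb⟩ := C3.col_ne hM hd' (e := y) (mem_union_right _ (by unfold nN; exact mem_insert_self _ _))
    have hcb' : D b y ≠ 0 := by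
      unfold col at hcb
      rwa [if_neg hyB'] at hcb
    rw [hBB] at hb ⊢
    exact herm_rank_two B ζ (fun b => D b y) ⟨b, hb, hcb'⟩ hform
  · exact hB hP

theorem stepP (st : Stp D B N P y) (hN : C3 D B N) (hM : C3 D (nB B P) (nN N y))
    {L Lc : Set (Finset ℕ × ℕ)} {LP LP' Q : Set (Finset ℕ × (ℕ × ℕ))}
    (hL : SpanH D B N L) (hc : SpanH (trD D) N B Lc) (hp : SpanP D B N LP)
    (hQ : PairSet D B N P y Lc LP Q) (hQL : Q ⊆ LP')
    (hv : ∀ p ∈ LP', IsBase D (nB B P) (nN N y) p.1 ∧ p.2.1 ∈ p.1 ∧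
      p.2.2 ∈ (nB B P ∪ nN N y) \ p.1 ∧
      IsBase D (nB B P) (nN N y) (insert p.2.2 (p.1.erase p.2.1)))
    (m3 : ∀ q ∈ L, ∀ f, IsF D B N q.1 q.2 f → ∀ U ⊆ P, U.card ≤ 2 →
      (∀ p ∈ U, ev D B f p.1 ≠ 0) → ev D (nB B P) (lfU D B P U f) y ≠ 0 →
      ∃ z ∈ nB B P ∪ N, ev D (nB B P) (lfU D B P U f) z ≠ 0 ∧
        (insert z (hypF P q.1 q.2 U), (z, y)) ∈ LP')
    (m4 : ∀ p ∈ P, ∃ T' ⊆ nB B P ∪ N, p.1 ∉ T' ∧ (T', (p.2, y)) ∈ LP') :
    SpanP D (nB B P) (nN N y) LP' := by
  have hyB' : y ∉ nB B P := y_nB st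
  have hyN : y ∉ N := fun h => st.ynew (mem_union_right _ h)
  have hd' := disj' st
  have hNN : N ⊆ nN N y := by unfold nN; exact subset_insert _ _
  have hyN' : y ∈ nN N y := by unfold nN; exact mem_insert_self _ _
  have sumN : ∀ F : ℕ → F4, ∑ n ∈ nN N y, F n = F y + ∑ n ∈ N, F n := fun F => by
    unfold nN; exact sum_insert hyN
  refine ⟨hv, fun Φ H => ?_⟩
  -- the old columns
  obtain ⟨l0, hl0, hΦ0⟩ := pairSet_map st hN hc hp hQ Φ (fun p hp' f c hf hcc => by
    have hval := hQ.valid p hp'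
    have hyT : y ∈ (nB B P ∪ nN N y) \ p.1 := by
      rw [mem_sdiff]
      refine ⟨mem_union_right _ hyN', fun h => ?_⟩
      rcases mem_union.1 (hval.2.2.2.2.2 h) with h' | h'
      · exact hyB' h'
      · exact hyN h'
    have hcy : c y = 0 := by
      have h1 := hcc.2.2 y hyT
      rw [ev_mem _ _ _ hyN', if_neg (Ne.symm hval.2.2.2.1)] at h1
      exact h1
    have h2 := H p (hQL hp') f c hf hcc
    simp_rw [sumN, hcy, mul_zero, zero_add] at h2
    exact h2)
  set l1 : ℕ → F4 := fun e => if e = y then 0 else l0 e with hl1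
  have hl1' : ∀ e, l1 e = 0 ∨ l1 e = 1 := fun e => by
    simp only [hl1]
    split_ifs
    · exact Or.inl rfl
    · exact hl0 e
  have hl1b : ∀ b ∈ nB B P, l1 b = l0 b := fun b hb => by
    simp only [hl1]
    rw [if_neg (fun h : b = y => hyB' (by rw [← h]; exact hb))]
  have hl1n : ∀ n ∈ N, l1 n = l0 n := fun n hn => by
    simp only [hl1]
    rw [if_neg (fun h : n = y => hyN (by rw [← h]; exact hn))]
  have hl1y : l1 y = 0 := by simp [hl1]
  set Φ' : ℕ → ℕ → F4 := fun b n => Φ b n + (l1 b + l1 n) * D b n with hΦ'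
  have hΦ'0 : ∀ b ∈ nB B P, ∀ n ∈ N, Φ' b n = 0 := fun b hb n hn => by
    simp only [hΦ']
    rw [hΦ0 b hb n hn, hl1b b hb, hl1n n hn, add_self]
  set ζ : ℕ → F4 := fun b => Φ' b y with hζ
  -- the condition for the column `ζ`
  have cond : ∀ (T' : Finset ℕ) (z' : ℕ), (T', (z', y)) ∈ LP' → ∀ f, IsF D (nB B P) (nN N y) T' z' f →
      qf (nB B P) (two ζ fun b => D b y) f = 0 := by
    intro T' z' hT' f hf
    have hval := hv _ hT'
    simp only at hval
    have hbase : IsBase (trD D) (nN N y) (nB B P) ((nB B P ∪ nN N y) \ T') :=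
      (isBase_dual hd' hf.1.1).2 hf.1
    obtain ⟨c, hcc⟩ := exists_isF hbase hval.2.2.1
    have hcy : c y = 1 := by
      have h1 := hcc.2.2 y hval.2.2.1
      rw [ev_mem _ _ _ hyN', if_pos rfl] at h1
      exact h1
    have h2 := H _ hT' f c hf hcc
    have h3 := trivial_map hd' hf hval.2.2.1 hcc l1 hl1'
    simp only at h2
    have h4 : (∑ b ∈ nB B P, ∑ n ∈ nN N y, f b * Φ' b n * c n) =
        (∑ b ∈ nB B P, ∑ n ∈ nN N y, f b * Φ b n * c n) +
          ∑ b ∈ nB B P, ∑ n ∈ nN N y, f b * ((l1 b + l1 n) * D b n) * c n := by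
      rw [← sum_add_distrib]
      refine sum_congr rfl fun b _ => ?_
      rw [← sum_add_distrib]
      refine sum_congr rfl fun n _ => ?_
      simp only [hΦ']
      ring
    have h5 : (∑ b ∈ nB B P, ∑ n ∈ nN N y, f b * Φ' b n * c n) = ∑ b ∈ nB B P, f b * ζ b := by
      refine sum_congr rfl fun b hb => ?_
      rw [sumN, hcy, mul_one]
      have : ∑ n ∈ N, f b * Φ' b n * c n = 0 :=
        sum_eq_zero fun n hn => by rw [hΦ'0 b hb n hn, mul_zero, zero_mul]
      rw [this, add_zero]
    rw [cond_qf hyB', ← h5, h4, ← inv_eq_conj, add_mul, tr_add, h2, h3, add_zero]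
  obtain ⟨ρ, hρ, hζρ⟩ := core st hN hM hL ζ (fun q hq f hf U hU hUc => by
    set U' := U.filter fun p => ev D B f p.1 ≠ 0 with hU'
    have hU'P : U' ⊆ P := (filter_subset _ _).trans hU
    have hU'c : U'.card ≤ 2 := (card_le_card (filter_subset _ _)).trans hUc
    have hne : ∀ p ∈ U', ev D B f p.1 ≠ 0 := fun p hp' => (mem_filter.1 hp').2
    rw [← qf_congr _ _ _ _ (lfU_filter st hU f), ← hU']
    by_cases hy0 : ev D (nB B P) (lfU D B P U' f) y = 0
    · rw [cond_qf hyB', hy0, conj_zero, mul_zero, tr_zero]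
    · obtain ⟨z, hz, hzne, hzL⟩ := m3 q hq f hf U' hU'P hU'c hne hy0
      have hz' : z ∈ (nB B P ∪ nN N y) \ hypF P q.1 q.2 U' := by
        rw [mem_sdiff]
        refine ⟨union_subset_union_right hNN hz, fun h => hzne ?_⟩
        exact hyp_zero st hf hU'P hne z h
      have h1 := (hyp_base st hf hU'P hne z hz').2 hzne
      have h2 := cond _ _ hzL _ h1
      rw [qf_smul] at h2
      rcases mul_eq_zero.1 h2 with h3 | h3
      · rw [nm_eq, if_neg (inv_ne_zero hzne)] at h3
        exact absurd h3 one_ne_zero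
      · exact h3) (fun p hp' => by
    obtain ⟨T', hT's, hT'1, hT'L⟩ := m4 p hp'
    have hval := hv _ hT'L
    exact cond _ _ hT'L _ (pair_isF st hp' hval.1 hT's hT'1 hval.2.1))
  refine ⟨fun e => if e = y then ρ else l0 e, fun e => ?_, fun b hb n hn => ?_⟩
  · simp only
    split_ifs
    · exact hρ
    · exact hl0 e
  · have hby : b ≠ y := fun h => hyB' (h ▸ hb)
    simp only [if_neg hby]
    unfold nN at hn
    rcases mem_insert.1 hn with rfl | hn
    · rw [if_pos rfl]
      have h1 := hζρ b hb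
      simp only [hζ, hΦ', hl1b b hb, hl1y, add_zero] at h1
      revert h1
      generalize Φ b n = a
      generalize D b n = d
      generalize l0 b = l
      revert a d l
      rcases hρ with rfl | rfl <;> decide
    · have hny : n ≠ y := fun h => hyN (h ▸ hn)
      rw [if_neg hny]
      exact hΦ0 b hb n hn

end Pool.Agent.G4
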