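import Pool.Agent.G4.U7b
import Pool.Agent.G4.SP2c
import Pool.Agent.G4.SC

set_option autoImplicit false

/-!
# Module U7c: the other two lists

* `newP_span`: `stepP` with `Q = mkP (newP1 ++ newP2)` (`newP_pairSet`),
`LP' = mkP (newP1 ++ newP2 ++ newP3)`; `m3` from `newL1_mem`: `(insert z (hypF ..), z)` is in `newL1`, its
vector is a multiple of `lfU U f` (`hyp_base`), so its value at `y` is not zero and
`(insert z (hypF ..), (z, y))` is in `newP3` (`fv_eq`, `val_eq` for the new rows
`s.1.1 ++ ps.map p.2`, which have no repetitions). `m4` from `newL2_mem`: the vector of `(T', p.2)` is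
`lft 0 [p.2]` (`pair_isF`), its value at `y` is `sco p ≠ 0` (`ev_lft_y`, `sco_ne`). Validity of `newP3`:
`newL1_valid`, `newL2_valid`, `exchange`; the marked bases of `newL1`, `newL2` do not contain `y`
(`newL1_mem`-type statement: prove it here: the elements are in `nB ∪ N`).
* `newC_span`: `stepC` with `Lc' = mkC (nB ∪ nN) (newC1 ++ newC2)`: `hv`: `isBase_dual`; `m1`: for
`q ∈ s.2.2.2.1`: `insert y ((B ∪ N) \ q.1) = (nB ∪ nN) \ (q.1 ∪ {p.2})`; `m2`: definition of `newC2`
(`insert p.2.2 (p.1.erase p.2.1)`).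
-/

namespace Pool.Agent.G4

open N487b59b3 F4 Finset

variable {s : St} {ps : List (ℕ × ℕ)} {y : ℕ} {ans : List (Desc × Bool)}

private theorem toF_map (ps : List (ℕ × ℕ)) :
    (ps.map fun p => p.2).toFinset = ps.toFinset.image fun p => p.2 := by
  ext x
  simp only [List.mem_toFinset, List.mem_map, Finset.mem_image]

private theorem toF_rows (s : St) (ps : List (ℕ × ℕ)) :
    (s.1.1 ++ ps.map fun p => p.2).toFinset = nB s.1.1.toFinset ps.toFinset := by
  rw [List.toFinset_append, toF_map]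
  rfl

private theorem toF_newS (s : St) (ps : List (ℕ × ℕ)) (y : ℕ) :
    (newS s ps y).toFinset = nB s.1.1.toFinset ps.toFinset ∪ nN s.1.2.toFinset y := by
  unfold newS
  rw [List.toFinset_append, toF_rows, List.toFinset_append]
  congr 1
  unfold nN
  ext x
  simp only [Finset.mem_union, List.mem_toFinset, Finset.mem_insert, List.mem_singleton]
  tauto

private theorem nor_sub (S l : List ℕ) : (nor S l).toFinset ⊆ S.toFinset := by
  intro x hx
  rw [List.mem_toFinset] at hx ⊢
  unfold nor at hx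
  exact (List.mem_filter.1 hx).1

private theorem nor_sub' (S l : List ℕ) : (nor S l).toFinset ⊆ l.toFinset := by
  intro x hx
  rw [List.mem_toFinset] at hx ⊢
  unfold nor at hx
  exact of_decide_eq_true (List.mem_filter.1 hx).2

private theorem y_not {D' : ℕ → ℕ → F4} (h : StepCtx s ps y D' ans) :
    y ∉ nB s.1.1.toFinset ps.toFinset ∪ s.1.2.toFinset := by
  intro hy
  rcases mem_union.1 hy with hy | hy
  · rcases mem_union.1 hy with hy | hy
    · exact h.st.ynew (mem_union_left _ hy)
    · obtain ⟨p, hp, hpy⟩ := mem_image.1 hy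
      exact h.st.yne p hp hpy.symm
  · exact h.st.ynew (mem_union_right _ hy)

private theorem dj_new {D' : ℕ → ℕ → F4} (h : StepCtx s ps y D' ans) :
    Disjoint (nB s.1.1.toFinset ps.toFinset) (nN s.1.2.toFinset y) := by
  rw [Finset.disjoint_left]
  intro e he he'
  rcases mem_insert.1 he' with he' | he'
  · exact y_not h (mem_union_left _ (he' ▸ he))
  · rcases mem_union.1 he with he | he
    · exact (Finset.disjoint_left.1 h.st.disj) he he'
    · obtain ⟨p, hp, rfl⟩ := mem_image.1 he
      exact h.st.new p hp (mem_union_right _ he')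

private theorem sub1 (s : St) (ps : List (ℕ × ℕ)) (y : ℕ) :
    nB s.1.1.toFinset ps.toFinset ∪ s.1.2.toFinset ⊆
      nB s.1.1.toFinset ps.toFinset ∪ nN s.1.2.toFinset y :=
  union_subset_union (Subset.refl _) (subset_insert _ _)

private theorem sub2 (s : St) (ps : List (ℕ × ℕ)) :
    s.1.1.toFinset ∪ s.1.2.toFinset ⊆ nB s.1.1.toFinset ps.toFinset ∪ s.1.2.toFinset :=
  union_subset_union subset_union_left (Subset.refl _)

private theorem headD_mem {α : Type} (l : List α) (d : α) : l.headD d = d ∨ l.headD d ∈ l := by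
  cases l with
  | nil => exact Or.inl rfl
  | cons a l => exact Or.inr List.mem_cons_self

theorem newL12_y {D' : ℕ → ℕ → F4} (h : StepCtx s ps y D' ans) :
    ∀ p ∈ newL1 (newS s ps y) ps ans ++ newL2 (newS s ps y) s ps,
      p.1.toFinset ⊆ nB s.1.1.toFinset ps.toFinset ∪ s.1.2.toFinset := by
  intro p hp
  rcases List.mem_append.1 hp with hp | hp
  · unfold newL1 at hp
    obtain ⟨a, ha, rfl⟩ := List.mem_map.1 hp
    obtain ⟨h1, h2, f, hf, h3, h4, -⟩ := ans_val h ha
    have hUps := (smallU_spec.1 _ h2).1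
    have hhyp := (hyp_sub h.st hf (U := a.1.2.2.toFinset)
      (fun q hq => List.mem_toFinset.2 (hUps q (List.mem_toFinset.1 hq)))
      (fun q hq => h4 q (List.mem_toFinset.1 hq))).1
    refine (nor_sub' _ _).trans ?_
    rw [List.toFinset_append, hyp_toFinset]
    refine union_subset hhyp ?_
    intro x hx
    rw [List.mem_toFinset, List.mem_singleton] at hx
    rw [hx]
    have key : ∀ q : ℕ × ℕ, (q = (0, a.1.1.2) ∨
        q ∈ a.1.2.2.filter fun p => decide (p.1 = a.1.1.2)) →
        q.2 ∈ nB s.1.1.toFinset ps.toFinset ∪ s.1.2.toFinset := by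
      rintro q (rfl | hq)
      · exact sub2 s ps (hf.1.1 hf.2.1)
      · have hq' := hUps q (List.mem_filter.1 hq).1
        exact mem_union_left _ (mem_union_right _ (mem_image_of_mem (fun p : ℕ × ℕ => p.2)
          (List.mem_toFinset.2 hq')))
    exact key _ (headD_mem _ _)
  · unfold newL2 at hp
    obtain ⟨q, hq, rfl⟩ := List.mem_map.1 hp
    refine (nor_sub' _ _).trans ?_
    rw [List.toFinset_append, toF_map]
    refine union_subset ?_ (subset_union_right.trans subset_union_left)
    refine Subset.trans ?_ (sub2 s ps)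
    split_ifs with hqB
    · intro x hx
      rw [List.mem_toFinset] at hx
      rcases List.mem_append.1 hx with hx | hx
      · exact mem_union_left _ (List.mem_toFinset.2 (List.mem_filter.1 hx).1)
      · exact mem_union_right _ (List.mem_toFinset.2
          (List.mem_filter.1 (List.mem_of_mem_take hx)).1)
    · exact subset_union_left

private theorem old_ent {D' : ℕ → ℕ → F4} (h : StepCtx s ps y D' ans) :
    ∀ b ∈ s.1.1.toFinset, ∀ n ∈ s.1.2.toFinset, D' b n = ent s.2.1 b n :=
  fun b hb n hn => h.old b (List.mem_toFinset.1 hb) n (List.mem_toFinset.1 hn)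

private theorem c3_old {D' : ℕ → ℕ → F4} (h : StepCtx s ps y D' ans) :
    C3 D' s.1.1.toFinset s.1.2.toFinset :=
  ((Eqv.of_eq (old_ent h)).c3).1 h.good.c3

private theorem spL_old {D' : ℕ → ℕ → F4} (h : StepCtx s ps y D' ans) :
    SpanH D' s.1.1.toFinset s.1.2.toFinset (mkL s.2.2.1) :=
  (spanH_congr (old_ent h) h.st.disj _).1 h.good.spL

private theorem spC_old {D' : ℕ → ℕ → F4} (h : StepCtx s ps y D' ans) :
    SpanH (trD D') s.1.2.toFinset s.1.1.toFinset
      (mkC (s.1.1.toFinset ∪ s.1.2.toFinset) s.2.2.2.1) :=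
  (spanH_congr (fun b hb n hn => old_ent h n hn b hb) h.st.disj.symm _).1 h.good.spC

private theorem spP_old {D' : ℕ → ℕ → F4} (h : StepCtx s ps y D' ans) :
    SpanP D' s.1.1.toFinset s.1.2.toFinset (mkP s.2.2.2.2) :=
  (spanP_congr (old_ent h) h.st.disj _).1 h.good.spP

private theorem rows_nodup {D' : ℕ → ℕ → F4} (h : StepCtx s ps y D' ans) :
    (s.1.1 ++ ps.map fun p => p.2).Nodup := by
  rw [List.nodup_append]
  refine ⟨h.good.ndB, ?_, ?_⟩
  · refine (List.nodup_map_iff_inj_on h.nd).2 ?_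
    intro p hp q hq hpq
    exact h.st.inj2 p (List.mem_toFinset.2 hp) q (List.mem_toFinset.2 hq) hpq
  · intro x hx x' hx' hxx
    obtain ⟨p, hp, rfl⟩ := List.mem_map.1 hx'
    exact h.st.new p (List.mem_toFinset.2 hp)
      (mem_union_left _ (List.mem_toFinset.2 (hxx ▸ hx)))

private theorem val_rows {D : Mx} (h : StepCtx s ps y (ent D) ans) {T : List ℕ} {z : ℕ}
    {f : ℕ → F4}
    (hf : IsF (ent D) (nB s.1.1.toFinset ps.toFinset) (nN s.1.2.toFinset y) T.toFinset z f) :
    val D (s.1.1 ++ ps.map fun p => p.2) (fv D (s.1.1 ++ ps.map fun p => p.2) T z) y =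
      ev (ent D) (nB s.1.1.toFinset ps.toFinset) f y := by
  rw [← toF_rows] at hf ⊢
  rw [fv_eq (rows_nodup h) D hf, val_eq (rows_nodup h)]

theorem newP_span {D : Mx} (h : StepCtx s ps y (ent D) ans) :
    SpanP (ent D) (nB s.1.1.toFinset ps.toFinset) (nN s.1.2.toFinset y)
      (mkP ((newP1 (newS s ps y) s ps ++ newP2 (newS s ps y) s ps) ++
        newP3 D (s.1.1 ++ ps.map fun p => p.2) y
          (newL1 (newS s ps y) ps ans ++ newL2 (newS s ps y) s ps))) := by
  have hQ := newP_pairSet h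
  refine stepP h.st (c3_old h) h.c3 (spL_old h) (spC_old h) (spP_old h) hQ ?_ ?_ ?_ ?_
  · rintro p ⟨q, hq, rfl⟩
    exact ⟨q, List.mem_append_left _ hq, rfl⟩
  · rintro p ⟨q, hq, rfl⟩
    rcases List.mem_append.1 hq with hq | hq
    · obtain ⟨h1, h2, h3, -, h5, -⟩ := hQ.valid _ ⟨q, hq, rfl⟩
      exact ⟨h1, h2, h3, h5⟩
    · unfold newP3 at hq
      obtain ⟨r, hr, rfl⟩ := List.mem_map.1 hq
      obtain ⟨hr1, hr2⟩ := List.mem_filter.1 hr
      have hv : IsBase (ent D) (nB s.1.1.toFinset ps.toFinset) (nN s.1.2.toFinset y)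
          r.1.toFinset ∧ r.2 ∈ r.1.toFinset := by
        rcases List.mem_append.1 hr1 with hr1 | hr1
        · exact newL1_valid h r hr1
        · exact newL2_valid h r hr1
      have hy : y ∈ (nB s.1.1.toFinset ps.toFinset ∪ nN s.1.2.toFinset y) \ r.1.toFinset := by
        rw [mem_sdiff]
        exact ⟨mem_union_right _ (mem_insert_self _ _),
          fun hy => y_not h (newL12_y h r hr1 hy)⟩
      obtain ⟨f, hf⟩ := exists_isF hv.1 hv.2
      refine ⟨hv.1, hv.2, hy, (exchange hf hy).2 ?_⟩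
      rw [← val_rows h hf]
      simpa using hr2
  · rintro q ⟨q', hq', rfl⟩ f hf U hU h2 hne hy
    obtain ⟨z, hz, hz0, q'', hq'', hqe⟩ := newL1_mem h hq' hf hU h2 hne
    refine ⟨z, hz, hz0, (q''.1, (q''.2, y)), List.mem_append_right _ ?_, ?_⟩
    · unfold newP3
      refine List.mem_map.2 ⟨q'', List.mem_filter.2 ⟨List.mem_append_left _ hq'', ?_⟩, rfl⟩
      have hzh : z ∉ hypF ps.toFinset q'.1.toFinset q'.2 U := fun hzh =>
        hz0 (hyp_zero h.st hf hU hne z hzh)
      have hzm : z ∈ (nB s.1.1.toFinset ps.toFinset ∪ nN s.1.2.toFinset y) \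
          hypF ps.toFinset q'.1.toFinset q'.2 U := mem_sdiff.2 ⟨sub1 s ps y hz, hzh⟩
      have hF := (hyp_base h.st hf hU hne z hzm).2 hz0
      rw [Prod.ext_iff] at hqe
      dsimp only at hqe
      rw [hqe.1, hqe.2] at hF
      rw [val_rows h hF, ev_smul]
      have : (ev (ent D) (nB s.1.1.toFinset ps.toFinset)
          (lfU (ent D) s.1.1.toFinset ps.toFinset U f) q''.2)⁻¹ ≠ 0 := by
        rw [← hqe.2]
        exact inv_ne_zero hz0
      have h3 := mul_ne_zero this hy
      simpa [-mul_eq_zero] using h3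
    · rw [Prod.ext_iff] at hqe
      dsimp only at hqe ⊢
      rw [hqe.1, ← hqe.2]
  · intro p hp
    obtain ⟨T', hT', hp1, q'', hq'', hqe⟩ := newL2_mem h (List.mem_toFinset.1 hp)
    refine ⟨T', hT', hp1, (q''.1, (q''.2, y)), List.mem_append_right _ ?_, ?_⟩
    · unfold newP3
      refine List.mem_map.2 ⟨q'', List.mem_filter.2 ⟨List.mem_append_right _ hq'', ?_⟩, rfl⟩
      have hv := newL2_valid h q'' hq''
      rw [Prod.ext_iff] at hqe
      dsimp only at hqe
      rw [← hqe.1, ← hqe.2] at hv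
      have hF := pair_isF h.st hp hv.1 hT' hp1 hv.2
      rw [hqe.1, hqe.2] at hF
      rw [val_rows h hF, ev_lft_y h.st, ev_zero, zero_add]
      rw [Finset.sum_eq_single p]
      · rw [hqe.2, if_pos rfl, one_mul]
        simpa using sco_ne h.st (c3_old h) h.c3 hp
      · intro q hq hqp
        rw [if_neg, zero_mul]
        intro hh
        exact hqp (h.st.inj2 q hq p hp (hh.trans hqe.2.symm))
      · intro hh
        exact absurd hp hh
    · rw [Prod.ext_iff] at hqe
      dsimp only at hqe ⊢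
      rw [hqe.1, ← hqe.2]

private theorem newC1_set {D' : ℕ → ℕ → F4} (h : StepCtx s ps y D' ans) {q : List ℕ × ℕ}
    (hq : q ∈ s.2.2.2.1) :
    (nor (newS s ps y) (q.1 ++ ps.map fun r => r.2)).toFinset =
      q.1.toFinset ∪ ps.toFinset.image fun r => r.2 := by
  rw [nor_newS, List.toFinset_append, toF_map]
  rw [List.toFinset_append, toF_map]
  refine union_subset ?_ ?_
  · exact (h.good.subC q hq).trans ((sub2 s ps).trans (sub1 s ps y))
  · exact subset_union_right.trans subset_union_left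

private theorem newC2_set {D' : ℕ → ℕ → F4} (h : StepCtx s ps y D' ans)
    {p : List ℕ × (ℕ × ℕ)}
    (hp : p ∈ newP1 (newS s ps y) s ps ++ newP2 (newS s ps y) s ps) :
    (nor (newS s ps y) ((p.1.filter fun t => !decide (t = p.2.1)) ++ [p.2.2])).toFinset =
      insert p.2.2 (p.1.toFinset.erase p.2.1) := by
  have hv := (newP_pairSet h).valid _ ⟨p, hp, rfl⟩
  have e : ((p.1.filter fun t => !decide (t = p.2.1)) ++ [p.2.2]).toFinset =
      insert p.2.2 (p.1.toFinset.erase p.2.1) := by
    ext x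
    simp only [List.mem_toFinset, List.mem_append, List.mem_filter, List.mem_singleton,
      Finset.mem_insert, Finset.mem_erase, Bool.not_eq_true', decide_eq_false_iff_not]
    tauto
  rw [nor_newS, e]
  rw [e]
  exact hv.2.2.2.2.1.1

private theorem sdiff_y {D' : ℕ → ℕ → F4} (h : StepCtx s ps y D' ans) {T : Finset ℕ}
    (hT : T ⊆ s.1.1.toFinset ∪ s.1.2.toFinset) :
    insert y ((s.1.1.toFinset ∪ s.1.2.toFinset) \ T) =
      (nB s.1.1.toFinset ps.toFinset ∪ nN s.1.2.toFinset y) \
        (T ∪ ps.toFinset.image fun r => r.2) := by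
  ext x
  constructor
  · intro hx
    rcases mem_insert.1 hx with hx | hx
    · rw [hx, mem_sdiff]
      refine ⟨mem_union_right _ (mem_insert_self _ _), fun hy => ?_⟩
      rcases mem_union.1 hy with hy | hy
      · exact h.st.ynew (hT hy)
      · obtain ⟨p, hp, hpy⟩ := mem_image.1 hy
        exact h.st.yne p hp hpy.symm
    · obtain ⟨hx1, hx2⟩ := mem_sdiff.1 hx
      rw [mem_sdiff]
      refine ⟨sub1 s ps y (sub2 s ps hx1), fun hy => ?_⟩
      rcases mem_union.1 hy with hy | hy
      · exact hx2 hy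
      · obtain ⟨p, hp, rfl⟩ := mem_image.1 hy
        exact h.st.new p hp hx1
  · intro hx
    obtain ⟨hx1, hx2⟩ := mem_sdiff.1 hx
    have hx3 : x ∉ T := fun h' => hx2 (mem_union_left _ h')
    have hx4 : x ∉ ps.toFinset.image fun r => r.2 := fun h' => hx2 (mem_union_right _ h')
    rcases mem_union.1 hx1 with h1 | h1
    · rcases mem_union.1 h1 with h1 | h1
      · exact mem_insert_of_mem (mem_sdiff.2 ⟨mem_union_left _ h1, hx3⟩)
      · exact absurd h1 hx4
    · rcases mem_insert.1 h1 with h1 | h1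
      · rw [h1]; exact mem_insert_self _ _
      · exact mem_insert_of_mem (mem_sdiff.2 ⟨mem_union_right _ h1, hx3⟩)

theorem newC_span {D' : ℕ → ℕ → F4} (h : StepCtx s ps y D' ans) :
    SpanH (trD D') (nN s.1.2.toFinset y) (nB s.1.1.toFinset ps.toFinset)
      (mkC (nB s.1.1.toFinset ps.toFinset ∪ nN s.1.2.toFinset y)
        (newC1 (newS s ps y) s ps ++ newC2 (newS s ps y) y
          (newP1 (newS s ps y) s ps ++ newP2 (newS s ps y) s ps))) := by
  have hQ := newP_pairSet h
  have hdj := dj_new h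
  have hyS : y ∈ nB s.1.1.toFinset ps.toFinset ∪ nN s.1.2.toFinset y :=
    mem_union_right _ (mem_insert_self _ _)
  refine stepC h.st (c3_old h) h.c3 (spC_old h) (spP_old h) hQ ?_ ?_ ?_
  · rintro p ⟨q, hq, rfl⟩
    rcases List.mem_append.1 hq with hq | hq
    · unfold newC1 at hq
      obtain ⟨r, hr, rfl⟩ := List.mem_map.1 hq
      dsimp only
      rw [newC1_set h hr]
      obtain ⟨hb, hz⟩ := (spC_old h).1 _ ⟨r, hr, rfl⟩
      dsimp only at hb hz
      have hb' := (isBase_dual h.st.disj (h.good.subC r hr)).1 hb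
      have hb2 := base_union h.st hb'
      refine ⟨(isBase_dual hdj hb2.1).2 hb2, ?_⟩
      rw [← sdiff_y h (h.good.subC r hr)]
      exact mem_insert_of_mem hz
    · unfold newC2 at hq
      obtain ⟨p, hp, hq⟩ := List.mem_flatMap.1 hq
      obtain ⟨h1, h2, h3, h4, h5, h6⟩ := hQ.valid _ ⟨p, hp, rfl⟩
      dsimp only at h1 h2 h3 h4 h5 h6
      have hyp : y ∉ p.1.toFinset := fun hy => y_not h (h6 hy)
      rcases List.mem_cons.1 hq with rfl | hq
      · exact ⟨(isBase_dual hdj h1.1).2 h1, mem_sdiff.2 ⟨hyS, hyp⟩⟩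
      · rw [List.mem_singleton] at hq
        rw [hq]
        dsimp only
        rw [newC2_set h hp]
        refine ⟨(isBase_dual hdj h5.1).2 h5, mem_sdiff.2 ⟨hyS, fun hy => ?_⟩⟩
        rcases mem_insert.1 hy with hy | hy
        · exact h4 hy.symm
        · exact hyp (mem_of_mem_erase hy)
  · rintro q ⟨r, hr, rfl⟩
    dsimp only
    refine ⟨(nor (newS s ps y) (r.1 ++ ps.map fun q => q.2), r.2),
      List.mem_append_left _ (List.mem_map.2 ⟨r, hr, rfl⟩), ?_⟩
    dsimp only
    rw [newC1_set h hr, sdiff_y h (h.good.subC r hr)]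
  · rintro q ⟨p, hp, rfl⟩
    dsimp only
    constructor
    · refine ⟨(p.1, y), List.mem_append_right _ ?_, rfl⟩
      unfold newC2
      exact List.mem_flatMap.2 ⟨p, hp, List.mem_cons_self⟩
    · refine ⟨(nor (newS s ps y) ((p.1.filter fun t => !decide (t = p.2.1)) ++ [p.2.2]), y),
        List.mem_append_right _ ?_, ?_⟩
      · unfold newC2
        exact List.mem_flatMap.2 ⟨p, hp, List.mem_cons_of_mem _ List.mem_cons_self⟩
      · dsimp only
        rw [newC2_set h hp]

theorem newC_sub {D' : ℕ → ℕ → F4} (h : StepCtx s ps y D' ans) :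
    ∀ q ∈ newC1 (newS s ps y) s ps ++ newC2 (newS s ps y) y
          (newP1 (newS s ps y) s ps ++ newP2 (newS s ps y) s ps),
      q.1.toFinset ⊆ nB s.1.1.toFinset ps.toFinset ∪ nN s.1.2.toFinset y := by
  intro q hq
  rcases List.mem_append.1 hq with hq | hq
  · unfold newC1 at hq
    obtain ⟨r, hr, rfl⟩ := List.mem_map.1 hq
    rw [← toF_newS]
    exact nor_sub _ _
  · unfold newC2 at hq
    obtain ⟨p, hp, hq⟩ := List.mem_flatMap.1 hq
    obtain ⟨h1, -⟩ := (newP_pairSet h).valid _ ⟨p, hp, rfl⟩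
    rcases List.mem_cons.1 hq with rfl | hq
    · exact h1.1
    · rw [List.mem_singleton] at hq
      rw [hq, ← toF_newS]
      exact nor_sub _ _

end Pool.Agent.G4
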