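import Pool.Agent.G4.LA2
import Pool.Agent.G4.T1
import Pool.Agent.G4.Dual

set_option autoImplicit false

/-!
# Module U1: the computed cocircuit vectors

`B` a list without repetitions (the rows), `D` a matrix (list), `ent D` its entries.
* `ent_trM`: both sides are the second component of the first element of `D` with key `(n, b)`.
* `cvb_eq`: definitions. `val_eq`: `dot_map_map`. `fv_eq`: `solve_eq` with `I = B`, `w = f`:
the equation of `t` is `dot (cv D B t) (B.map f) = ev (ent D) B f t`, and uniqueness is the third part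
of `IsBase`.
* `fv_dual`: `fv_eq` for `trM D`, `N` and the list `dif (B ++ N) T`.
* `span_all`: write `W = H₁ + ω H₂` with Hermitian `H₁`, `H₂`: `H₂ i j = W i j + conj (W j i)` up to the
factor (`ω + conj ω = 1`): `W + W^* = (ω + conj ω) H₂ = H₂` where `W^* i j = conj (W j i)`, so
`H₂ = W + W^*`, `H₁ = W + ω H₂`. The value of the form `W` at `f` is `qf H₁ f + ω qf H₂ f`, and
`qf H f ∈ {0, 1}` for Hermitian `H`, so both vanish.
-/

namespace Pool.Agent.G4

open N487b59b3 F4 Finset

theorem ent_trM (D : Mx) (b n : ℕ) : ent (trM D) b n = ent D n b := by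
  induction D with
  | nil => rfl
  | cons p D ih =>
    unfold ent trM at *
    rw [List.map_cons, List.filter_cons, List.filter_cons]
    by_cases h : p.1 = (n, b)
    · have h' : (p.1.2, p.1.1) = (b, n) := by rw [h]
      simp only [h, decide_true, if_true, List.headD_cons]
    · have h' : ¬ (p.1.2, p.1.1) = (b, n) := by
        intro h1
        apply h
        rw [Prod.mk.injEq] at h1
        exact Prod.ext h1.2 h1.1
      simp only [h, h', decide_false]
      exact ih

theorem cvb_eq (D : Mx) (B : List ℕ) (e b : ℕ) : cvb D B e b = col (ent D) B.toFinset e b := by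
  unfold cvb col
  simp only [List.mem_toFinset]

theorem val_eq {B : List ℕ} (hB : B.Nodup) (D : Mx) (f : ℕ → F4) (e : ℕ) :
    val D B (B.map f) e = ev (ent D) B.toFinset f e := by
  unfold val cv
  rw [dot_map_map B hB]
  unfold ev
  exact Finset.sum_congr rfl fun b _ => by rw [cvb_eq]

private theorem dot_cv {B : List ℕ} (hB : B.Nodup) (D : Mx) (f : ℕ → F4) (e : ℕ) :
    dot (cv D B e) (B.map f) = ev (ent D) B.toFinset f e := by
  unfold cv
  rw [dot_map_map B hB]
  unfold ev
  exact Finset.sum_congr rfl fun b _ => by rw [cvb_eq, mul_comm]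

theorem fv_eq {B T : List ℕ} {N : Finset ℕ} {z : ℕ} (hB : B.Nodup) (D : Mx)
    {f : ℕ → F4} (hf : IsF (ent D) B.toFinset N T.toFinset z f) : fv D B T z = B.map f := by
  unfold fv
  refine solve_eq B hB _ ?_ f ?_ ?_
  · intro p hp
    obtain ⟨t, -, rfl⟩ := List.mem_map.1 hp
    simp [cv]
  · intro p hp
    obtain ⟨t, ht, rfl⟩ := List.mem_map.1 hp
    change dot (cv D B t) (B.map f) = if t = z then 1 else 0
    rw [dot_cv hB]
    exact hf.2.2 t (List.mem_toFinset.2 ht)
  · intro u hu i hi
    refine hf.1.2.2 u (fun t ht => ?_) i (List.mem_toFinset.2 hi)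
    rw [← dot_cv hB]
    exact hu (cv D B t, if t = z then 1 else 0)
      (List.mem_map.2 ⟨t, List.mem_toFinset.1 ht, rfl⟩)

theorem fv_dual {B N T : List ℕ} {x : ℕ} (hN : N.Nodup) (D : Mx) {c : ℕ → F4}
    (hc : IsF (trD (ent D)) N.toFinset B.toFinset ((B.toFinset ∪ N.toFinset) \ T.toFinset) x c) :
    fv (trM D) N (dif (B ++ N) T) x = N.map c := by
  have h1 : ent (trM D) = trD (ent D) := by
    funext b n
    exact ent_trM D b n
  refine fv_eq (N := B.toFinset) hN (trM D) ?_
  rw [h1, dif_toFinset, List.toFinset_append]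
  exact hc

theorem span_all {D : ℕ → ℕ → F4} {B N : Finset ℕ} {L : Set (Finset ℕ × ℕ)}
    (hL : SpanH D B N L) (W : ℕ → ℕ → F4)
    (h : ∀ p ∈ L, ∀ f, IsF D B N p.1 p.2 f → ∑ i ∈ B, ∑ j ∈ B, f i * W i j * conj (f j) = 0) :
    ∀ i ∈ B, ∀ j ∈ B, W i j = 0 := by
  have hsw : ∀ f : ℕ → F4, ∑ i ∈ B, ∑ j ∈ B, f i * W i j * conj (f j) = 0 →
      ∑ i ∈ B, ∑ j ∈ B, f i * conj (W j i) * conj (f j) = 0 := by
    intro f hf
    have h1 : conj (∑ i ∈ B, ∑ j ∈ B, f i * W i j * conj (f j)) = conj 0 := by rw [hf]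
    rw [conj_sum, conj_zero] at h1
    simp only [conj_sum, conj_mul, conj_conj] at h1
    rw [Finset.sum_comm] at h1
    rw [← h1]
    exact Finset.sum_congr rfl fun i _ => Finset.sum_congr rfl fun j _ => by ring
  have hlin : ∀ (a b : F4) (f : ℕ → F4), ∑ i ∈ B, ∑ j ∈ B, f i * W i j * conj (f j) = 0 →
      qf B (fun i j => a * W i j + b * conj (W j i)) f = 0 := by
    intro a b f hf
    have h2 := hsw f hf
    unfold qf
    have h3 : ∀ i ∈ B, ∀ j ∈ B, f i * (a * W i j + b * conj (W j i)) * conj (f j) =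
        a * (f i * W i j * conj (f j)) + b * (f i * conj (W j i) * conj (f j)) :=
      fun i _ j _ => by ring
    rw [Finset.sum_congr rfl fun i hi => Finset.sum_congr rfl fun j hj => h3 i hi j hj]
    simp only [Finset.sum_add_distrib, ← Finset.mul_sum]
    rw [hf, h2, mul_zero, mul_zero, add_zero]
  have k2 : ∀ i ∈ B, ∀ j ∈ B, 1 * W i j + 1 * conj (W j i) = 0 := by
    refine hL.2 (fun i j => 1 * W i j + 1 * conj (W j i)) ?_ ?_
    · intro i j
      change 1 * W j i + 1 * conj (W i j) = conj (1 * W i j + 1 * conj (W j i))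
      simp only [one_mul]
      rw [conj_add, conj_conj, add_comm]
    · intro p hp f hf
      exact hlin 1 1 f (h p hp f hf)
  have k1 : ∀ i ∈ B, ∀ j ∈ B, conj om * W i j + om * conj (W j i) = 0 := by
    refine hL.2 (fun i j => conj om * W i j + om * conj (W j i)) ?_ ?_
    · intro i j
      change conj om * W j i + om * conj (W i j) = conj (conj om * W i j + om * conj (W j i))
      rw [conj_add, conj_mul, conj_mul, conj_conj, conj_conj, add_comm]
    · intro p hp f hf
      exact hlin (conj om) om f (h p hp f hf)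
  intro i hi j hj
  have key : ∀ x y : F4, 1 * x + 1 * y = 0 → conj om * x + om * y = 0 → x = 0 := by decide
  exact key _ _ (k2 i hi j hj) (k1 i hi j hj)

private theorem idx2_eq (B : List ℕ) : idx2 B = List.product B B := rfl

theorem idx2_nodup {B : List ℕ} (hB : B.Nodup) : (idx2 B).Nodup := by
  rw [idx2_eq]
  exact hB.product hB

theorem mem_idx2 {B : List ℕ} {p : ℕ × ℕ} : p ∈ idx2 B ↔ p.1 ∈ B ∧ p.2 ∈ B := by
  unfold idx2
  simp only [List.mem_flatMap, List.mem_map]
  constructor
  · rintro ⟨i, hi, j, hj, rfl⟩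
    exact ⟨hi, hj⟩
  · rintro ⟨h1, h2⟩
    exact ⟨p.1, h1, p.2, h2, rfl⟩

/-- the vector `phiH` and forms -/
theorem dot_phiH {B : List ℕ} (hB : B.Nodup) (f : ℕ → F4) (W : ℕ × ℕ → F4) :
    dot (phiH (B.map f)) ((idx2 B).map W) =
      ∑ i ∈ B.toFinset, ∑ j ∈ B.toFinset, f i * W (i, j) * conj (f j) := by
  have h1 : phiH (B.map f) = (idx2 B).map fun p => f p.1 * conj (f p.2) := by
    unfold phiH idx2
    rw [List.flatMap_map, List.map_flatMap]
    refine List.flatMap_congr fun a _ => ?_
    rw [List.map_map, List.map_map]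
    rfl
  have h2 : (idx2 B).toFinset = B.toFinset ×ˢ B.toFinset := by
    ext p
    rw [List.mem_toFinset, mem_idx2, Finset.mem_product, List.mem_toFinset, List.mem_toFinset]
  rw [h1, dot_map_map (idx2 B) (idx2_nodup hB), h2, Finset.sum_product]
  exact Finset.sum_congr rfl fun i _ => Finset.sum_congr rfl fun j _ => by ring

theorem phiH_length (f : List F4) (B : List ℕ) (h : f.length = B.length) :
    (phiH f).length = (idx2 B).length := by
  unfold phiH idx2
  simp [List.length_flatMap, h]

end Pool.Agent.G4
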