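import Pool.Agent.G4.St
import Pool.Agent.G4.U1

set_option autoImplicit false

/-!
# Module U8: pruning

PROOF. `prune_spec`. First list: vectors `phiH (B.map f)` (`fv_eq`), of length `m = (idx2 B).length`
(`phiH_length`), so `.take m` does nothing. If a Hermitian `W` vanishes at the vectors of the kept
marked bases, apply the third part of `prune_spec` to `w = (idx2 B).map (fun p => W p.1 p.2)`
(`dot_phiH`: `dot (phiH (B.map f)) w = qf B W f`): `W` vanishes at all vectors of the list `L`, so `W = 0`.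
(`(a, v) ∈ L.map (fun p => (p, g p))` means `a ∈ L`, `v = g a`.) Second list: the same for `trM D`, `N`
and the sets `dif (B ++ N) p.1` (`fv_dual`). Third list: the vector `phiP` is
`m ++ m.map conj` with `m = (f b * c n * (ev f x)⁻¹)` over `B x N`; for `Φ` let
`φ = (Φ b n)` over `B x N` and `w = φ ++ φ.map conj`: `dot (phiP ..) w = x + conj x = tr x` with
`x = (∑ f b Φ b n c n) * (ev f x)⁻¹` (`dot_append`). The length is `2 |B| |N| ≤ 2 |B ++ N|²`.
-/

namespace Pool.Agent.G4

open N487b59b3 F4 Finset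

/-- pruning a list of marked bases -/
private theorem spanH_prune {α : Type} {B : List ℕ} {N : Finset ℕ} {D : ℕ → ℕ → F4} (hB : B.Nodup)
    (l : List α) (T : α → Finset ℕ) (z : α → ℕ) (g : α → List F4)
    (hg : ∀ a ∈ l, ∀ f, IsF D B.toFinset N (T a) (z a) f → g a = B.map f)
    (hL : SpanH D B.toFinset N {p | ∃ q ∈ l, p = (T q, z q)}) :
    (∀ a ∈ (prune (l.map fun p => (p, phiH (g p)))).take (idx2 B).length, a ∈ l) ∧
    SpanH D B.toFinset N {p | ∃ q ∈ (prune (l.map fun p => (p, phiH (g p)))).take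
      (idx2 B).length, p = (T q, z q)} := by
  have hex : ∀ a ∈ l, ∃ f, IsF D B.toFinset N (T a) (z a) f := by
    intro a ha
    obtain ⟨h1, h2⟩ := hL.1 (T a, z a) ⟨a, ha, rfl⟩
    exact exists_isF h1 h2
  have hlen : ∀ p ∈ l.map (fun p => (p, phiH (g p))), p.2.length = (idx2 B).length := by
    intro p hp
    obtain ⟨a, ha, rfl⟩ := List.mem_map.1 hp
    obtain ⟨f, hf⟩ := hex a ha
    exact phiH_length _ _ (by rw [hg a ha f hf, List.length_map])
  obtain ⟨t1, t2, t3⟩ := prune_spec _ _ hlen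
  rw [List.take_of_length_le t1]
  have hmem : ∀ a ∈ prune (l.map fun p => (p, phiH (g p))), a ∈ l := by
    intro a ha
    obtain ⟨v, hv⟩ := t2 a ha
    obtain ⟨b, hb, hbe⟩ := List.mem_map.1 hv
    have h1 : b = a := congrArg Prod.fst hbe
    exact h1 ▸ hb
  refine ⟨hmem, ?_, ?_⟩
  · rintro p ⟨q, hq, rfl⟩
    exact hL.1 _ ⟨q, hmem q hq, rfl⟩
  · intro W hW h0
    refine hL.2 W hW ?_
    rintro p ⟨q, hq, rfl⟩ f hf
    have h1 := t3 ((idx2 B).map fun p => W p.1 p.2) (by rw [List.length_map]) ?_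
      (q, phiH (g q)) (List.mem_map.2 ⟨q, hq, rfl⟩)
    · change dot (phiH (g q)) _ = 0 at h1
      rw [hg q hq f hf, dot_phiH hB] at h1
      exact h1
    · intro p hp hpp
      obtain ⟨a, ha, rfl⟩ := List.mem_map.1 hp
      obtain ⟨f', hf'⟩ := hex a ha
      change dot (phiH (g a)) _ = 0
      rw [hg a ha f' hf', dot_phiH hB]
      exact h0 _ ⟨a, hpp, rfl⟩ f' hf'

private theorem prd_nodup {B N : List ℕ} (hB : B.Nodup) (hN : N.Nodup) : (prd B N).Nodup := by
  have h : prd B N = List.product B N := rfl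
  rw [h]
  exact hB.product hN

private theorem prd_toFinset (B N : List ℕ) : (prd B N).toFinset = B.toFinset ×ˢ N.toFinset := by
  ext p
  obtain ⟨a, b⟩ := p
  rw [List.mem_toFinset, Finset.mem_product, List.mem_toFinset, List.mem_toFinset]
  unfold prd
  simp only [List.mem_flatMap, List.mem_map, Prod.mk.injEq]
  constructor
  · rintro ⟨a', ha', b', hb', rfl, rfl⟩
    exact ⟨ha', hb'⟩
  · rintro ⟨h1, h2⟩
    exact ⟨a, h1, b, h2, rfl, rfl⟩

private theorem prd_length (B N : List ℕ) : (prd B N).length = B.length * N.length := by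
  unfold prd
  simp [List.length_flatMap]

private theorem idx2_length (B : List ℕ) : (idx2 B).length = B.length * B.length := by
  unfold idx2
  simp [List.length_flatMap]

/-- the vector of a pair -/
private theorem phiP_eq {B N T : List ℕ} {D : Mx} {z x : ℕ} {f c : ℕ → F4} (hB : B.Nodup)
    (hN : N.Nodup) (hf : IsF (ent D) B.toFinset N.toFinset T.toFinset z f)
    (hc : IsF (trD (ent D)) N.toFinset B.toFinset
      ((B.toFinset ∪ N.toFinset) \ T.toFinset) x c) :
    phiP D B N T z x =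
      (prd B N).map (fun p => f p.1 * c p.2 * (ev (ent D) B.toFinset f x)⁻¹) ++
        (prd B N).map (fun p => conj (f p.1 * c p.2 * (ev (ent D) B.toFinset f x)⁻¹)) := by
  have h1 : ∀ k : F4, ((B.map f).flatMap fun a => (N.map c).map fun b => a * b * k) =
      (prd B N).map fun p => f p.1 * c p.2 * k := by
    intro k
    unfold prd
    rw [List.flatMap_map, List.map_flatMap]
    refine List.flatMap_congr fun a _ => ?_
    rw [List.map_map, List.map_map]
    rfl
  unfold phiP
  simp only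
  rw [fv_eq hB D hf, fv_dual hN D hc, val_eq hB, h1, List.map_map]
  rfl

private theorem dot_phiP {B N T : List ℕ} {D : Mx} {z x : ℕ} {f c : ℕ → F4} (hB : B.Nodup)
    (hN : N.Nodup) (hf : IsF (ent D) B.toFinset N.toFinset T.toFinset z f)
    (hc : IsF (trD (ent D)) N.toFinset B.toFinset
      ((B.toFinset ∪ N.toFinset) \ T.toFinset) x c) (Φ : ℕ → ℕ → F4) :
    dot (phiP D B N T z x) ((prd B N).map (fun p => Φ p.1 p.2) ++
      (prd B N).map (fun p => conj (Φ p.1 p.2))) =
    tr ((∑ b ∈ B.toFinset, ∑ n ∈ N.toFinset, f b * Φ b n * c n) *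
      (ev (ent D) B.toFinset f x)⁻¹) := by
  have h1 : (∑ b ∈ B.toFinset, ∑ n ∈ N.toFinset, f b * Φ b n * c n) *
      (ev (ent D) B.toFinset f x)⁻¹ =
      ∑ p ∈ B.toFinset ×ˢ N.toFinset,
        f p.1 * c p.2 * (ev (ent D) B.toFinset f x)⁻¹ * Φ p.1 p.2 := by
    rw [Finset.sum_product, Finset.sum_mul]
    refine Finset.sum_congr rfl fun b _ => ?_
    rw [Finset.sum_mul]
    exact Finset.sum_congr rfl fun n _ => by ring
  rw [phiP_eq hB hN hf hc, dot_append (by rw [List.length_map, List.length_map]),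
    dot_map_map _ (prd_nodup hB hN), dot_map_map _ (prd_nodup hB hN), prd_toFinset, h1]
  unfold tr
  rw [conj_sum]
  congr 1
  exact Finset.sum_congr rfl fun p _ => by rw [conj_mul _ (Φ p.1 p.2)]

private theorem spanP_prune {B N : List ℕ} {D : Mx} {P : Lst2} (hB : B.Nodup) (hN : N.Nodup)
    (hd : Disjoint B.toFinset N.toFinset) (hP : SpanP (ent D) B.toFinset N.toFinset (mkP P)) :
    SpanP (ent D) B.toFinset N.toFinset
      (mkP ((prune (P.map fun p => (p, phiP D B N p.1 p.2.1 p.2.2))).take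
        ((idx2 (B ++ N)).length + (idx2 (B ++ N)).length))) := by
  have hex : ∀ a ∈ P, (∃ f, IsF (ent D) B.toFinset N.toFinset a.1.toFinset a.2.1 f) ∧
      ∃ c, IsF (trD (ent D)) N.toFinset B.toFinset
        ((B.toFinset ∪ N.toFinset) \ a.1.toFinset) a.2.2 c := by
    intro a ha
    obtain ⟨h1, h2, h3, -⟩ := hP.1 (a.1.toFinset, a.2) ⟨a, ha, rfl⟩
    exact ⟨exists_isF h1 h2, exists_isF ((isBase_dual hd h1.1).2 h1) h3⟩
  have hlen : ∀ p ∈ P.map (fun p => (p, phiP D B N p.1 p.2.1 p.2.2)),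
      p.2.length = (prd B N).length + (prd B N).length := by
    intro p hp
    obtain ⟨a, ha, rfl⟩ := List.mem_map.1 hp
    obtain ⟨⟨f, hf⟩, c, hc⟩ := hex a ha
    change (phiP D B N a.1 a.2.1 a.2.2).length = _
    rw [phiP_eq hB hN hf hc, List.length_append, List.length_map, List.length_map]
  obtain ⟨t1, t2, t3⟩ := prune_spec _ _ hlen
  have hle : (prd B N).length + (prd B N).length ≤
      (idx2 (B ++ N)).length + (idx2 (B ++ N)).length := by
    have h1 : (prd B N).length ≤ (idx2 (B ++ N)).length := by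
      rw [prd_length, idx2_length, List.length_append]
      exact Nat.mul_le_mul (Nat.le_add_right _ _) (Nat.le_add_left _ _)
    exact Nat.add_le_add h1 h1
  rw [List.take_of_length_le (t1.trans hle)]
  have hmem : ∀ a ∈ prune (P.map fun p => (p, phiP D B N p.1 p.2.1 p.2.2)), a ∈ P := by
    intro a ha
    obtain ⟨v, hv⟩ := t2 a ha
    obtain ⟨b, hb, hbe⟩ := List.mem_map.1 hv
    have h1 : b = a := congrArg Prod.fst hbe
    exact h1 ▸ hb
  refine ⟨?_, ?_⟩
  · rintro p ⟨q, hq, rfl⟩
    exact hP.1 _ ⟨q, hmem q hq, rfl⟩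
  · intro Φ h0
    refine hP.2 Φ ?_
    rintro p ⟨q, hq, rfl⟩ f c hf hc
    have h1 := t3 ((prd B N).map (fun p => Φ p.1 p.2) ++
      (prd B N).map (fun p => conj (Φ p.1 p.2)))
      (by rw [List.length_append, List.length_map, List.length_map]) ?_
      (q, phiP D B N q.1 q.2.1 q.2.2) (List.mem_map.2 ⟨q, hq, rfl⟩)
    · change dot (phiP D B N q.1 q.2.1 q.2.2) _ = 0 at h1
      rw [dot_phiP hB hN hf hc] at h1
      exact h1
    · intro p hp hpp
      obtain ⟨a, ha, rfl⟩ := List.mem_map.1 hp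
      obtain ⟨⟨f', hf'⟩, c', hc'⟩ := hex a ha
      change dot (phiP D B N a.1 a.2.1 a.2.2) _ = 0
      rw [dot_phiP hB hN hf' hc']
      exact h0 _ ⟨a, hpp, rfl⟩ f' c' hf' hc'

theorem pruneSt_good {B N : List ℕ} {D : Mx} {L Lc : Lst} {P : Lst2} (hB : B.Nodup) (hN : N.Nodup)
    (hd : Disjoint B.toFinset N.toFinset) (h3 : C3 (ent D) B.toFinset N.toFinset)
    (hL : SpanH (ent D) B.toFinset N.toFinset (mkL L))
    (hC : SpanH (trD (ent D)) N.toFinset B.toFinset (mkC (B.toFinset ∪ N.toFinset) Lc))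
    (hs : ∀ q ∈ Lc, q.1.toFinset ⊆ B.toFinset ∪ N.toFinset)
    (hP : SpanP (ent D) B.toFinset N.toFinset (mkP P)) :
    GoodSt (pruneSt B N D L Lc P) := by
  have hL' := spanH_prune (N := N.toFinset) (D := ent D) hB L (fun q => q.1.toFinset)
    (fun q => q.2) (fun p => fv D B p.1 p.2) (fun a _ f hf => fv_eq hB D hf) hL
  have hC' := spanH_prune (N := B.toFinset) (D := trD (ent D)) hN Lc
    (fun q => (B.toFinset ∪ N.toFinset) \ q.1.toFinset) (fun q => q.2)
    (fun p => fv (trM D) N (dif (B ++ N) p.1) p.2) (fun a _ f hf => fv_dual hN D hf) hC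
  exact {
    ndB := hB
    ndN := hN
    dj := hd
    c3 := h3
    spL := hL'.2
    spC := hC'.2
    spP := spanP_prune hB hN hd hP
    subC := fun q hq => hs q (hC'.1 q hq) }

end Pool.Agent.G4
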