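import Pool.Agent.G4.U4
import Pool.Agent.G4.U5
import Pool.Agent.G4.U7c
import Pool.Agent.G4.U8

set_option autoImplicit false

/-!
# Module U9: the update step

PROOF. `column_spec` gives `κ`, `newD_spec` the entries of `newD`, so `StepCtx s ps y (ent (newD ..)) ans`
(`StepCtx.scale`), and `Eqv D₁ (ent (newD ..))` (`ρ = 1`, `κ y = κ`, other `κ = 1`). `newL_span`,
`newP_span`, `newC_span`, `newC_sub` and `pruneSt_good` for the lists `B = s.1.1 ++ ps.map p.2`,
`N = s.1.2 ++ [y]` (finsets `nB`, `nN`; no repetitions and disjoint by `Stp`).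
-/

namespace Pool.Agent.G4

open N487b59b3 F4 Finset

theorem update_spec {s : St} {ps : List (ℕ × ℕ)} {y : ℕ} {D₁ : ℕ → ℕ → F4}
    {ans : List (Desc × Bool)} (h : StepCtx s ps y D₁ ans) :
    GoodSt (update s ps y ans) ∧
    (update s ps y ans).1.1.toFinset = nB s.1.1.toFinset ps.toFinset ∧
    (update s ps y ans).1.2.toFinset = nN s.1.2.toFinset y ∧
    Eqv D₁ (ent (update s ps y ans).2.1) (nB s.1.1.toFinset ps.toFinset)
      (nN s.1.2.toFinset y) := by
  obtain ⟨κ, hκ, hc1, hc2⟩ := column_spec h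
  have hD := newD_spec h hc1 hc2
  set D : Mx := newD s ps y (column s.2.1 s.1.1 ps ans) with hDdef
  have h' : StepCtx s ps y (ent D) ans := h.scale hκ hD
  have hBf : (s.1.1 ++ ps.map fun p => p.2).toFinset = nB s.1.1.toFinset ps.toFinset := by
    unfold nB
    rw [List.toFinset_append]
    congr 1
    ext e
    simp
  have hNf : (s.1.2 ++ [y]).toFinset = nN s.1.2.toFinset y := by
    unfold nN
    rw [List.toFinset_append]
    ext e
    simp [or_comm]
  have hB : (s.1.1 ++ ps.map fun p => p.2).Nodup := by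
    rw [List.nodup_append]
    refine ⟨h.good.ndB, ?_, ?_⟩
    · refine List.Nodup.map_on ?_ h.nd
      intro p hp q hq hpq
      exact h.st.inj2 p (List.mem_toFinset.2 hp) q (List.mem_toFinset.2 hq) hpq
    · intro a ha b hb hab
      obtain ⟨p, hp, rfl⟩ := List.mem_map.1 hb
      exact h.st.new p (List.mem_toFinset.2 hp)
        (mem_union_left _ (List.mem_toFinset.2 (hab ▸ ha)))
  have hN : (s.1.2 ++ [y]).Nodup := by
    rw [List.nodup_append]
    refine ⟨h.good.ndN, List.nodup_singleton _, ?_⟩
    intro a ha b hb hab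
    rw [List.mem_singleton] at hb
    exact h.st.ynew (mem_union_right _ (List.mem_toFinset.2 (hb ▸ hab ▸ ha)))
  have hdj : Disjoint (nB s.1.1.toFinset ps.toFinset) (nN s.1.2.toFinset y) := by
    rw [Finset.disjoint_left]
    intro e he he'
    rcases mem_union.1 he with he | he
    · rcases mem_insert.1 he' with he' | he'
      · exact h.st.ynew (mem_union_left _ (he' ▸ he))
      · exact (Finset.disjoint_left.1 h.st.disj) he he'
    · obtain ⟨p, hp, rfl⟩ := mem_image.1 he
      rcases mem_insert.1 he' with he' | he'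
      · exact h.st.yne p hp he'.symm
      · exact h.st.new p hp (mem_union_right _ he')
  refine ⟨?_, hBf, hNf, ?_⟩
  · refine pruneSt_good (B := s.1.1 ++ ps.map fun p => p.2) (N := s.1.2 ++ [y]) (D := D)
      (L := (newL1 (newS s ps y) ps ans ++ newL2 (newS s ps y) s ps) ++ newL3 (newS s ps y) ps y ans)
      (Lc := newC1 (newS s ps y) s ps ++ newC2 (newS s ps y) y
          (newP1 (newS s ps y) s ps ++ newP2 (newS s ps y) s ps))
      (P := (newP1 (newS s ps y) s ps ++ newP2 (newS s ps y) s ps) ++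
        newP3 D (s.1.1 ++ ps.map fun p => p.2) y
          (newL1 (newS s ps y) ps ans ++ newL2 (newS s ps y) s ps)) hB hN ?_ ?_ ?_ ?_ ?_ ?_
    · rw [hBf, hNf]; exact hdj
    · rw [hBf, hNf]; exact h'.c3
    · rw [hBf, hNf]; exact newL_span h'
    · rw [hBf, hNf]; exact newC_span h'
    · rw [hBf, hNf]; exact newC_sub h'
    · rw [hBf, hNf]; exact newP_span h'
  · show Eqv D₁ (ent D) (nB s.1.1.toFinset ps.toFinset) (nN s.1.2.toFinset y)
    refine ⟨fun _ => 1, fun e => if e = y then κ else 1, fun e => ⟨one_ne_zero, ?_⟩,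
      Or.inl fun b hb n hn => ?_⟩
    · dsimp only
      split_ifs
      · exact hκ
      · exact one_ne_zero
    · rw [hD b hb n hn]
      dsimp only
      split_ifs with hny
      · rw [hny, one_mul, mul_comm]
      · rw [one_mul, mul_one]

end Pool.Agent.G4
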