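import Pool.Agent.G4.C0
import Pool.Agent.G4.U9
import Pool.Agent.G4.U10
import Pool.Agent.G4.Br3
import Pool.Agent.G4.Br4

set_option autoImplicit false

/-!
# Module U11: one step of the reconstruction is correct

* `bs_spec`: `bs X E T S false P`: the set `(T \ S) ∪ P`, `isBase_iff`. `bs X E T S true P`: the set
`(T \ S) ∪ (S \ P)`; `IsBase (trD D) (S \ T) (T ∩ S) P ↔ IsBase D (T ∩ S) (S \ T) (S \ P)`
(`isBase_dual`, `S = (T ∩ S) ∪ (S \ T)`, `S \ (S \ P) = P`), `isBase_iff` (cardinality).
* `buildStep_spec`. `r = (d, (y, ps))`. View `d = false`: `s' = s`, `Dv = D`, rows `T ∩ S₂`, columns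
`S₂ \ T`; new rows: the `p.2` are in `T`, `y ∉ T`, so `nB = T ∩ S`, `nN = S \ T` (`RecOK.s2`). View
`d = true`: `s' = dualSt s` (`dualSt_good`), `Dv = trD D`, rows `S₂ \ T`, columns `T ∩ S₂`, the `p.2` are
not in `T`, `y ∈ T`, so `nB = S \ T`, `nN = T ∩ S`. In both views `exists_D1` (`Sep2` from
`RecOK.sep`, `sep2_iff_lam`, `sep2_trD`; `C3` from `RecOK.c3`, `c3_iff_conn3`, `C3.trD`; `h4` from
`RecOK.c3'`), `StepCtx` (answers: `bs_spec` for `grnd s' ps y = newS s' ps y`, the cardinality of the
asked set is `nB.card` by `hyp_sub`; bases of `D₁` and `Dv` agree: `Eqv.eqM`), `update_spec`, and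
`dualSt` again for `d = true`. `RepSt`: `Eqv D (ent ..)`.
* `fold_build`: induction on `Hist`: the fold starts with the head of the list, the last record.
-/

namespace Pool.Agent.G4

open N487b59b3 F4 Finset Pool.Agent.Helper22

variable {V : Type} [AddCommGroup V] [Module F4 V] {v : ℕ → V} {X : Oracle} {E T : List ℕ}
  {D : ℕ → ℕ → F4}

private theorem U11_union (T S : Finset ℕ) : (T ∩ S) ∪ (S \ T) = S := by
  ext x
  simp only [Finset.mem_sdiff, Finset.mem_inter, Finset.mem_union]
  tauto

private theorem U11_disj (T S : Finset ℕ) : Disjoint (T ∩ S) (S \ T) := by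
  rw [Finset.disjoint_left]
  intro x h1 h2
  exact (Finset.mem_sdiff.1 h2).2 (Finset.mem_inter.1 h1).1

private theorem U11_card (T S : Finset ℕ) : (T ∩ S).card + (S \ T).card = S.card := by
  rw [← Finset.card_union_of_disjoint (U11_disj T S), U11_union]

theorem bs_spec (hX : IsOrc X E v) (hD : IsD v E.toFinset T.toFinset D) {S P : List ℕ} (d : Bool)
    (hS : ∀ e ∈ S, e ∈ E) (hP : ∀ e ∈ P, e ∈ S)
    (hc : P.toFinset.card = (if d then S.toFinset \ T.toFinset else T.toFinset ∩ S.toFinset).card) :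
    bs X E T S d P = true ↔
      IsBase (if d then trD D else D)
        (if d then S.toFinset \ T.toFinset else T.toFinset ∩ S.toFinset)
        (if d then T.toFinset ∩ S.toFinset else S.toFinset \ T.toFinset) P.toFinset := by
  have hSE : S.toFinset ⊆ E.toFinset := by
    intro x hx
    rw [List.mem_toFinset] at hx ⊢
    exact hS x hx
  have hPS : P.toFinset ⊆ S.toFinset := by
    intro x hx
    rw [List.mem_toFinset] at hx ⊢
    exact hP x hx
  have hTE : ∀ e ∈ T, e ∈ E := fun e he => List.mem_toFinset.1 (hD.1 (List.mem_toFinset.2 he))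
  cases d with
  | false =>
    simp only [Bool.false_eq_true, if_false] at hc ⊢
    have h1 : bs X E T S false P = X (word E (dif T S ++ P)) := rfl
    rw [h1, hX _ (by
      intro e he
      rcases List.mem_append.1 he with he | he
      · exact hTE e (mem_dif.1 he).1
      · exact hS e (hP e he)), List.toFinset_append, dif_toFinset]
    exact (isBase_iff hD hSE hPS hc).symm
  | true =>
    simp only [if_true] at hc ⊢
    have h1 : bs X E T S true P = X (word E (dif T S ++ dif S P)) := rfl
    rw [h1, hX _ (by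
      intro e he
      rcases List.mem_append.1 he with he | he
      · exact hTE e (mem_dif.1 he).1
      · exact hS e (mem_dif.1 he).1), List.toFinset_append, dif_toFinset, dif_toFinset]
    have hcard : (S.toFinset \ P.toFinset).card = (T.toFinset ∩ S.toFinset).card := by
      rw [Finset.card_sdiff_of_subset hPS, hc]
      have := U11_card T.toFinset S.toFinset
      omega
    rw [← isBase_iff hD hSE Finset.sdiff_subset hcard]
    have hsub : S.toFinset \ P.toFinset ⊆ (T.toFinset ∩ S.toFinset) ∪ (S.toFinset \ T.toFinset) := by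
      rw [U11_union]
      exact Finset.sdiff_subset
    rw [← isBase_dual (U11_disj T.toFinset S.toFinset) hsub, U11_union,
      Finset.sdiff_sdiff_eq_self hPS]

private theorem U11_ev {D D' : ℕ → ℕ → F4} {B N : Finset ℕ} (hd : Disjoint B N)
    (h : ∀ b ∈ B, ∀ n ∈ N, D b n = D' b n) (f : ℕ → F4) {e : ℕ} (he : e ∈ B ∪ N) :
    ev D B f e = ev D' B f e := by
  unfold ev
  refine Finset.sum_congr rfl fun b hb => ?_
  congr 1
  unfold col
  by_cases heB : e ∈ B
  · rw [if_pos heB, if_pos heB]
  · rw [if_neg heB, if_neg heB]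
    exact h b hb e ((Finset.mem_union.1 he).resolve_left heB)

/-- one view -/
private theorem U11_view {s : St} {ps : List (ℕ × ℕ)} {y : ℕ} {Dv : ℕ → ℕ → F4} (hs : GoodSt s)
    (nd : ps.Nodup) (mem : ∀ p ∈ ps, p.1 ∈ s.1.1.toFinset ∪ s.1.2.toFinset)
    (new : ∀ p ∈ ps, p.2 ∉ s.1.1.toFinset ∪ s.1.2.toFinset)
    (inj1 : ∀ p ∈ ps, ∀ q ∈ ps, p.1 = q.1 → p = q) (inj2 : ∀ p ∈ ps, ∀ q ∈ ps, p.2 = q.2 → p = q)
    (ynew : y ∉ s.1.1.toFinset ∪ s.1.2.toFinset) (yne : ∀ p ∈ ps, y ≠ p.2)
    (h3 : C3 Dv (nB s.1.1.toFinset ps.toFinset) (nN s.1.2.toFinset y))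
    (h4 : 4 ≤ (s.1.1.toFinset ∪ s.1.2.toFinset).card)
    (he : Eqv (ent s.2.1) Dv s.1.1.toFinset s.1.2.toFinset)
    (hsep : ∀ p ∈ ps, Sep2 Dv (nB s.1.1.toFinset ps.toFinset) s.1.2.toFinset {p.1, p.2})
    (f : Desc → Bool)
    (hf : ∀ q, (descSet ps y q).toFinset ⊆ nB s.1.1.toFinset ps.toFinset ∪ nN s.1.2.toFinset y →
      (descSet ps y q).toFinset.card = (nB s.1.1.toFinset ps.toFinset).card →
      (f q = true ↔ IsBase Dv (nB s.1.1.toFinset ps.toFinset) (nN s.1.2.toFinset y)
        (descSet ps y q).toFinset)) :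
    let s'' := update s ps y ((descs s ps).map fun q => (q, f q))
    GoodSt s'' ∧ s''.1.1.toFinset = nB s.1.1.toFinset ps.toFinset ∧
      s''.1.2.toFinset = nN s.1.2.toFinset y ∧
      Eqv Dv (ent s''.2.1) (nB s.1.1.toFinset ps.toFinset) (nN s.1.2.toFinset y) := by
  intro s''
  have mps : ∀ p, p ∈ ps.toFinset ↔ p ∈ ps := fun p => List.mem_toFinset
  obtain ⟨D₁, st, old, heq⟩ := exists_D1 hs.dj (fun p hp => mem p ((mps p).1 hp))
    (fun p hp => new p ((mps p).1 hp))
    (fun p hp q hq => inj1 p ((mps p).1 hp) q ((mps q).1 hq))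
    (fun p hp q hq => inj2 p ((mps p).1 hp) q ((mps q).1 hq)) ynew
    (fun p hp => yne p ((mps p).1 hp)) h3 h4 he (fun p hp => hsep p ((mps p).1 hp))
  have hdj : Disjoint (nB s.1.1.toFinset ps.toFinset) (nN s.1.2.toFinset y) := by
    rw [Finset.disjoint_left]
    intro x hx hx'
    unfold nB at hx
    unfold nN at hx'
    rcases Finset.mem_union.1 hx with hx | hx
    · rcases Finset.mem_insert.1 hx' with rfl | hx'
      · exact ynew (Finset.mem_union_left _ hx)
      · exact Finset.disjoint_left.1 hs.dj hx hx'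
    · obtain ⟨p, hp, rfl⟩ := Finset.mem_image.1 hx
      rcases Finset.mem_insert.1 hx' with hx' | hx'
      · exact yne p ((mps p).1 hp) hx'.symm
      · exact new p ((mps p).1 hp) (Finset.mem_union_right _ hx')
  have hold : ∀ b ∈ s.1.1.toFinset, ∀ n ∈ s.1.2.toFinset, ent s.2.1 b n = D₁ b n :=
    fun b hb n hn => (old b hb n hn).symm
  have hctx : StepCtx s ps y D₁ ((descs s ps).map fun q => (q, f q)) := by
    refine ⟨hs, nd, st, fun b hb n hn => old b (List.mem_toFinset.2 hb) n (List.mem_toFinset.2 hn),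
      heq.c3.2 h3, f, rfl, ?_⟩
    intro q hq
    rw [heq.eqM hdj]
    obtain ⟨p, hp, U, hU, hval, rfl⟩ := mem_descs.1 hq
    obtain ⟨b1, b2⟩ := hs.spL.1 (p.1.toFinset, p.2) ⟨p, hp, rfl⟩
    obtain ⟨g, hg⟩ := exists_isF b1 b2
    have hfv := fv_eq hs.ndB s.2.1 hg
    have hUps : U.toFinset ⊆ ps.toFinset := by
      intro r hr
      rw [mps]
      exact (smallU_spec.1 U hU).1 r (List.mem_toFinset.1 hr)
    have hg' : IsF D₁ s.1.1.toFinset s.1.2.toFinset p.1.toFinset p.2 g := isF_congr hs.dj hold hg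
    have hne : ∀ r ∈ U.toFinset, ev D₁ s.1.1.toFinset g r.1 ≠ 0 := by
      intro r hr
      have h5 := hval r (List.mem_toFinset.1 hr)
      rw [hfv, val_eq hs.ndB] at h5
      rw [← U11_ev hs.dj hold g (mem r ((mps r).1 (hUps hr)))]
      exact h5
    obtain ⟨h6, h7⟩ := hyp_sub st hg' hUps hne
    have hset : (descSet ps y (p, (fv s.2.1 s.1.1 p.1 p.2, U))).toFinset =
        insert y (hypF ps.toFinset p.1.toFinset p.2 U.toFinset) := descSet_toFinset ps y _
    have hy : y ∉ hypF ps.toFinset p.1.toFinset p.2 U.toFinset := by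
      intro h8
      rcases Finset.mem_union.1 (h6 h8) with h9 | h9
      · exact Finset.disjoint_left.1 hdj h9 (Finset.mem_insert_self _ _)
      · exact ynew (Finset.mem_union_right _ h9)
    apply hf
    · rw [hset]
      intro x hx
      rcases Finset.mem_insert.1 hx with rfl | hx
      · exact Finset.mem_union_right _ (Finset.mem_insert_self _ _)
      · rcases Finset.mem_union.1 (h6 hx) with h9 | h9
        · exact Finset.mem_union_left _ h9
        · exact Finset.mem_union_right _ (Finset.mem_insert_of_mem h9)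
    · rw [hset, Finset.card_insert_of_notMem hy, h7]
  obtain ⟨u1, u2, u3, u4⟩ := update_spec hctx
  exact ⟨u1, u2, u3, heq.symm.trans u4⟩

theorem buildStep_spec (hX : IsOrc X E v) (hD : IsD v E.toFinset T.toFinset D)
    {S S₂ : Finset ℕ} (hS : S ⊆ E.toFinset) {r : Rec} (hr : RecOK v T.toFinset S S₂ r) {s : St}
    (hs : RepSt D T.toFinset S₂ s) : RepSt D T.toFinset S (buildStep X (E, T) s r) := by
  obtain ⟨d, y, ps⟩ := r
  obtain ⟨hy, hs2, fst, snd, inj1, inj2, side, sidey, sep, c3, c3'⟩ := hr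
  simp only at hy hs2 fst snd inj1 inj2 side sidey sep
  obtain ⟨g1, g2, g3, g4⟩ := hs
  set R : Finset ℕ := (ps.map fun p => p.2).toFinset with hR
  have hmR : ∀ p ∈ ps, p.2 ∈ R := fun p hp => List.mem_toFinset.2 (List.mem_map.2 ⟨p, hp, rfl⟩)
  have hRm : ∀ x ∈ R, ∃ p ∈ ps, p.2 = x := fun x hx => List.mem_map.1 (List.mem_toFinset.1 hx)
  have nd : ps.Nodup := List.Nodup.of_map _ inj1
  have i1 : ∀ p ∈ ps, ∀ q ∈ ps, p.1 = q.1 → p = q := fun p hp q hq h =>
    List.inj_on_of_nodup_map inj1 hp hq h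
  have i2 : ∀ p ∈ ps, ∀ q ∈ ps, p.2 = q.2 → p = q := fun p hp q hq h =>
    List.inj_on_of_nodup_map inj2 hp hq h
  have hS2 : ∀ x, x ∈ S₂ ↔ x ∈ S ∧ x ≠ y ∧ x ∉ R := by
    intro x
    rw [hs2, Finset.mem_sdiff, Finset.mem_erase]
    tauto
  have hsnd : ∀ p ∈ ps, p.2 ∈ S ∧ p.2 ≠ y := fun p hp =>
    ⟨Finset.mem_of_mem_erase (snd p hp), Finset.ne_of_mem_erase (snd p hp)⟩
  have hSeE : S.erase y ⊆ E.toFinset := (Finset.erase_subset _ _).trans hS
  have hpsub : ∀ p ∈ ps, ({p.1, p.2} : Finset ℕ) ⊆ S.erase y := by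
    intro p hp x hx
    rcases Finset.mem_insert.1 hx with rfl | hx
    · have := (hS2 _).1 (fst p hp)
      exact Finset.mem_erase.2 ⟨this.2.1, this.1⟩
    · rw [Finset.mem_singleton.1 hx]
      exact snd p hp
  have himg : ps.toFinset.image (fun p => p.2) = R := by
    ext x
    rw [hR, Finset.mem_image, List.mem_toFinset, List.mem_map]
    simp only [List.mem_toFinset]
  have h4 : 4 ≤ S₂.card := c3'.1
  have hc3 : C3 D (T.toFinset ∩ S) (S \ T.toFinset) := (c3_iff_conn3 hD hS).2 c3
  cases d with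
  | false =>
    have hyT : y ∉ T.toFinset := fun h => absurd (sidey.1 h) (by simp)
    have hpT : ∀ p ∈ ps, p.2 ∈ T.toFinset := fun p hp => (side p hp).2 rfl
    have hun : s.1.1.toFinset ∪ s.1.2.toFinset = S₂ := by rw [g2, g3, U11_union]
    have hnB : nB s.1.1.toFinset ps.toFinset = T.toFinset ∩ S := by
      unfold nB
      rw [himg, g2]
      ext x
      rw [Finset.mem_union, Finset.mem_inter, Finset.mem_inter, hS2]
      constructor
      · rintro (⟨h5, h6, -⟩ | h5)
        · exact ⟨h5, h6⟩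
        · obtain ⟨p, hp, rfl⟩ := hRm x h5
          exact ⟨hpT p hp, (hsnd p hp).1⟩
      · rintro ⟨h5, h6⟩
        by_cases hxR : x ∈ R
        · exact Or.inr hxR
        · exact Or.inl ⟨h5, h6, fun e => hyT (e ▸ h5), hxR⟩
    have hnN : nN s.1.2.toFinset y = S \ T.toFinset := by
      unfold nN
      rw [g3]
      ext x
      rw [Finset.mem_insert, Finset.mem_sdiff, Finset.mem_sdiff, hS2]
      constructor
      · rintro (rfl | ⟨⟨h5, -⟩, h6⟩)
        · exact ⟨hy, hyT⟩
        · exact ⟨h5, h6⟩
      · rintro ⟨h5, h6⟩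
        by_cases hxy : x = y
        · exact Or.inl hxy
        · refine Or.inr ⟨⟨h5, hxy, fun hxR => ?_⟩, h6⟩
          obtain ⟨p, hp, rfl⟩ := hRm x hxR
          exact h6 (hpT p hp)
    have hN' : s.1.2.toFinset = S.erase y \ T.toFinset := by
      rw [g3]
      ext x
      rw [Finset.mem_sdiff, Finset.mem_sdiff, hS2, Finset.mem_erase]
      constructor
      · rintro ⟨⟨h5, h6, -⟩, h7⟩
        exact ⟨⟨h6, h5⟩, h7⟩
      · rintro ⟨⟨h5, h6⟩, h7⟩
        refine ⟨⟨h6, h5, fun hxR => ?_⟩, h7⟩
        obtain ⟨p, hp, rfl⟩ := hRm x hxR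
        exact h7 (hpT p hp)
    have hB' : T.toFinset ∩ S = T.toFinset ∩ S.erase y := by
      ext x
      rw [Finset.mem_inter, Finset.mem_inter, Finset.mem_erase]
      constructor
      · rintro ⟨h5, h6⟩
        exact ⟨h5, fun e => hyT (e ▸ h5), h6⟩
      · rintro ⟨h5, -, h6⟩
        exact ⟨h5, h6⟩
    have hgr : (grnd s ps y).toFinset = S := by
      have h5 : (grnd s ps y).toFinset = nB s.1.1.toFinset ps.toFinset ∪ nN s.1.2.toFinset y := by
        unfold grnd nB nN
        rw [himg, hR]
        ext x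
        simp only [List.toFinset_append, Finset.mem_union, List.mem_toFinset, Finset.mem_insert,
          List.mem_singleton]
        tauto
      rw [h5, hnB, hnN, U11_union]
    have key := U11_view (s := s) (ps := ps) (y := y) (Dv := D) g1 nd
      (by intro p hp; rw [hun]; exact fst p hp)
      (by intro p hp; rw [hun, hS2]; exact fun h => h.2.2 (hmR p hp)) i1 i2
      (by rw [hun, hS2]; exact fun h => h.2.1 rfl)
      (fun p hp => (hsnd p hp).2.symm)
      (by rw [hnB, hnN]; exact hc3) (by rw [hun]; exact h4) (by rw [g2, g3]; exact g4.symm)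
      (by
        intro p hp
        rw [hnB, hN', hB', sep2_iff_lam hD hSeE (hpsub p hp)]
        exact sep p hp)
      (fun q => bs X E T (grnd s ps y) false (descSet ps y q))
      (by
        intro q hq1 hq2
        rw [hnB, hnN, U11_union] at hq1
        rw [hnB] at hq2
        have h5 := bs_spec hX hD (S := grnd s ps y) (P := descSet ps y q) false
          (fun e he => List.mem_toFinset.1 (hS (hgr ▸ List.mem_toFinset.2 he)))
          (fun e he => by
            rw [← List.mem_toFinset, hgr]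
            exact hq1 (List.mem_toFinset.2 he))
          (by simp only [Bool.false_eq_true, if_false]; rw [hgr]; exact hq2)
        simp only [Bool.false_eq_true, if_false] at h5
        rw [hgr] at h5
        rw [hnB, hnN]
        exact h5)
    obtain ⟨k1, k2, k3, k4⟩ := key
    rw [hnB] at k2 k4
    rw [hnN] at k3 k4
    exact ⟨k1, k2, k3, k4⟩
  | true =>
    have hyT : y ∈ T.toFinset := sidey.2 rfl
    have hpT : ∀ p ∈ ps, p.2 ∉ T.toFinset := fun p hp h => absurd ((side p hp).1 h) (by simp)
    have d1 : (dualSt s).1.1 = s.1.2 := rfl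
    have d2 : (dualSt s).1.2 = s.1.1 := rfl
    have d3 : ent (dualSt s).2.1 = trD (ent s.2.1) := by
      funext b n
      exact dualSt_ent s b n
    have hun : (dualSt s).1.1.toFinset ∪ (dualSt s).1.2.toFinset = S₂ := by
      rw [d1, d2, g2, g3, Finset.union_comm, U11_union]
    have hnB : nB (dualSt s).1.1.toFinset ps.toFinset = S \ T.toFinset := by
      unfold nB
      rw [himg, d1, g3]
      ext x
      rw [Finset.mem_union, Finset.mem_sdiff, Finset.mem_sdiff, hS2]
      constructor
      · rintro (⟨⟨h5, -⟩, h6⟩ | h5)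
        · exact ⟨h5, h6⟩
        · obtain ⟨p, hp, rfl⟩ := hRm x h5
          exact ⟨(hsnd p hp).1, hpT p hp⟩
      · rintro ⟨h5, h6⟩
        by_cases hxR : x ∈ R
        · exact Or.inr hxR
        · exact Or.inl ⟨⟨h5, fun e => h6 (e ▸ hyT), hxR⟩, h6⟩
    have hnN : nN (dualSt s).1.2.toFinset y = T.toFinset ∩ S := by
      unfold nN
      rw [d2, g2]
      ext x
      rw [Finset.mem_insert, Finset.mem_inter, Finset.mem_inter, hS2]
      constructor
      · rintro (rfl | ⟨h5, h6, -⟩)
        · exact ⟨hyT, hy⟩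
        · exact ⟨h5, h6⟩
      · rintro ⟨h5, h6⟩
        by_cases hxy : x = y
        · exact Or.inl hxy
        · refine Or.inr ⟨h5, h6, hxy, fun hxR => ?_⟩
          obtain ⟨p, hp, rfl⟩ := hRm x hxR
          exact hpT p hp h5
    have hN' : (dualSt s).1.2.toFinset = T.toFinset ∩ S.erase y := by
      rw [d2, g2]
      ext x
      rw [Finset.mem_inter, Finset.mem_inter, hS2, Finset.mem_erase]
      constructor
      · rintro ⟨h5, h6, h7, -⟩
        exact ⟨h5, h7, h6⟩
      · rintro ⟨h5, h6, h7⟩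
        refine ⟨h5, h7, h6, fun hxR => ?_⟩
        obtain ⟨p, hp, rfl⟩ := hRm x hxR
        exact hpT p hp h5
    have hB' : S \ T.toFinset = S.erase y \ T.toFinset := by
      ext x
      rw [Finset.mem_sdiff, Finset.mem_sdiff, Finset.mem_erase]
      constructor
      · rintro ⟨h5, h6⟩
        exact ⟨⟨fun e => h6 (e ▸ hyT), h5⟩, h6⟩
      · rintro ⟨⟨-, h5⟩, h6⟩
        exact ⟨h5, h6⟩
    have hgr : (grnd (dualSt s) ps y).toFinset = S := by
      have h5 : (grnd (dualSt s) ps y).toFinset =
          nB (dualSt s).1.1.toFinset ps.toFinset ∪ nN (dualSt s).1.2.toFinset y := by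
        unfold grnd nB nN
        rw [himg, hR]
        ext x
        simp only [List.toFinset_append, Finset.mem_union, List.mem_toFinset, Finset.mem_insert,
          List.mem_singleton]
        tauto
      rw [h5, hnB, hnN, Finset.union_comm, U11_union]
    have key := U11_view (s := dualSt s) (ps := ps) (y := y) (Dv := trD D) (dualSt_good g1) nd
      (by intro p hp; rw [hun]; exact fst p hp)
      (by intro p hp; rw [hun, hS2]; exact fun h => h.2.2 (hmR p hp)) i1 i2
      (by rw [hun, hS2]; exact fun h => h.2.1 rfl)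
      (fun p hp => (hsnd p hp).2.symm)
      (by rw [hnB, hnN]; exact hc3.trD) (by rw [hun]; exact h4)
      (by
        rw [d1, d2, d3, g2, g3]
        exact g4.symm.trD)
      (by
        intro p hp
        rw [hnB, hN', hB', sep2_trD, sep2_iff_lam hD hSeE (hpsub p hp)]
        exact sep p hp)
      (fun q => bs X E T (grnd (dualSt s) ps y) true (descSet ps y q))
      (by
        intro q hq1 hq2
        rw [hnB, hnN, Finset.union_comm, U11_union] at hq1
        rw [hnB] at hq2
        have h5 := bs_spec hX hD (S := grnd (dualSt s) ps y) (P := descSet ps y q) true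
          (fun e he => List.mem_toFinset.1 (hS (hgr ▸ List.mem_toFinset.2 he)))
          (fun e he => by
            rw [← List.mem_toFinset, hgr]
            exact hq1 (List.mem_toFinset.2 he))
          (by simp only [if_true]; rw [hgr]; exact hq2)
        simp only [if_true] at h5
        rw [hgr] at h5
        rw [hnB, hnN]
        exact h5)
    obtain ⟨k1, k2, k3, k4⟩ := key
    rw [hnB] at k2 k4
    rw [hnN] at k3 k4
    refine ⟨dualSt_good k1, k3, k2, ?_⟩
    have d4 := k4.trD
    have d5 : ∀ s'' : St, ent (dualSt s'').2.1 = trD (ent s''.2.1) := by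
      intro s''
      funext b n
      exact dualSt_ent s'' b n
    show Eqv D (ent (dualSt (update (dualSt s) ps y ((descs (dualSt s) ps).map fun q =>
      (q, bs X E T (grnd (dualSt s) ps y) true (descSet ps y q))))).2.1) _ _
    rw [d5]
    exact d4

theorem fold_build (hX : IsOrc X E v) (hD : IsD v E.toFinset T.toFinset D)
    {S₀ S : Finset ℕ} (hS : S₀ ⊆ E.toFinset) {l : List Rec} (hH : Hist v T.toFinset S₀ S l) {s : St}
    (hs : RepSt D T.toFinset S s) : RepSt D T.toFinset S₀ (l.foldl (buildStep X (E, T)) s) := by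
  induction hH generalizing s with
  | nil => exact hs
  | cons h hr ih =>
    rw [List.foldl_cons]
    exact ih (buildStep_spec hX hD (h.sub.trans hS) hr hs)

end Pool.Agent.G4
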