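import Pool.Agent.G4.U24a

set_option autoImplicit false

/-!
# Module S7b: the linear maps on `U_{2,4}`

For `SpanP`: the conditions for five of the doubly marked bases `({e, z}, (z, x))` (cocircuit vector
vanishing at `e`, circuit vector vanishing at the fourth element `g`) on the `2 x 2` matrix `Φ`;
the solutions are the 8 matrices `(l b + l n) D b n`.
The vectors (`B = {b₀, b₁}`): element `e` = `b₀`: row vectors vanishing at `b₀` are multiples of
`(0, 1)`; `b₁`: `(1, 0)`; `n₀`: `(1, 1)`; `n₁`: `(ω, 1)`. Dual: `trD D` has the same form with rows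
`n₀`, `n₁`.
-/

namespace Pool.Agent.G4

open F4 Finset

variable {D : ℕ → ℕ → F4} {b₀ b₁ n₀ n₁ : ℕ}

private theorem key_aux : ∀ a b c d : F4, tr (a * 1⁻¹) = 0 → tr (b * 1⁻¹) = 0 → tr (c * 1⁻¹) = 0 →
    tr (d * om⁻¹) = 0 → tr ((a + b + (c + d)) * (1 + om)⁻¹) = 0 →
    ∃ k l m p : F4, (k = 0 ∨ k = 1) ∧ (l = 0 ∨ l = 1) ∧ (m = 0 ∨ m = 1) ∧ (p = 0 ∨ p = 1) ∧
      a = (k + m) * 1 ∧ b = (k + p) * 1 ∧ c = (l + m) * 1 ∧ d = (l + p) * om := by
  decide

private theorem vec_aux (h : [b₀, b₁, n₀, n₁].Nodup)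
    (h00 : D b₀ n₀ = 1) (h01 : D b₀ n₁ = 1) (h10 : D b₁ n₀ = 1) (h11 : D b₁ n₁ = om) (u v : F4) :
    ev D {b₀, b₁} (fun b => if b = b₀ then u else v) b₀ = u ∧
    ev D {b₀, b₁} (fun b => if b = b₀ then u else v) b₁ = v ∧
    ev D {b₀, b₁} (fun b => if b = b₀ then u else v) n₀ = u + v ∧
    ev D {b₀, b₁} (fun b => if b = b₀ then u else v) n₁ = u + v * om := by
  simp only [List.nodup_cons, List.mem_cons, List.not_mem_nil, or_false, not_or, List.nodup_nil,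
    and_true, not_false_eq_true] at h
  obtain ⟨⟨h1, h2, h3⟩, ⟨h4, h5⟩, h6⟩ := h
  refine ⟨?_, ?_, ?_, ?_⟩
  · rw [ev_mem _ _ _ (by simp)]
    simp
  · rw [ev_mem _ _ _ (by simp)]
    simp [Ne.symm h1]
  · rw [ev_not_mem _ _ _ (by simp [Ne.symm h2, Ne.symm h4]), Finset.sum_pair h1]
    simp [Ne.symm h1, h00, h10]
  · rw [ev_not_mem _ _ _ (by simp [Ne.symm h3, Ne.symm h5]), Finset.sum_pair h1]
    simp [Ne.symm h1, h01, h11]

private theorem isF_aux (h : [b₀, b₁, n₀, n₁].Nodup)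
    (h00 : D b₀ n₀ = 1) (h01 : D b₀ n₁ = 1) (h10 : D b₁ n₀ = 1) (h11 : D b₁ n₁ = om)
    {T : Finset ℕ} {z e : ℕ} (hze : z ≠ e) (hT : T = {z, e})
    (hz : z ∈ ({b₀, b₁} ∪ {n₀, n₁} : Finset ℕ)) (he : e ∈ ({b₀, b₁} ∪ {n₀, n₁} : Finset ℕ))
    {f : ℕ → F4} (hf1 : ev D {b₀, b₁} f z = 1) (hf0 : ev D {b₀, b₁} f e = 0) :
    IsF D {b₀, b₁} {n₀, n₁} T z f := by
  subst hT
  refine ⟨u24_base h h00 h01 h10 h11 ?_ (Finset.card_pair hze), by simp, ?_⟩
  · intro t ht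
    rw [Finset.mem_insert, Finset.mem_singleton] at ht
    rcases ht with rfl | rfl
    · exact hz
    · exact he
  · intro t ht
    rw [Finset.mem_insert, Finset.mem_singleton] at ht
    rcases ht with rfl | rfl
    · rw [if_pos rfl, hf1]
    · rw [if_neg (Ne.symm hze), hf0]

theorem u24_spanP (h : [b₀, b₁, n₀, n₁].Nodup)
    (h00 : D b₀ n₀ = 1) (h01 : D b₀ n₁ = 1) (h10 : D b₁ n₀ = 1) (h11 : D b₁ n₁ = om) :
    SpanP D {b₀, b₁} {n₀, n₁} (allP ({b₀, b₁} ∪ {n₀, n₁})) := by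
  have h' : [n₀, n₁, b₀, b₁].Nodup := by
    simp only [List.nodup_cons, List.mem_cons, List.not_mem_nil, or_false, not_or, List.nodup_nil,
      and_true, not_false_eq_true] at h ⊢
    obtain ⟨⟨h1, h2, h3⟩, ⟨h4, h5⟩, h6⟩ := h
    exact ⟨⟨h6, Ne.symm h2, Ne.symm h4⟩, ⟨Ne.symm h3, Ne.symm h5⟩, h1⟩
  constructor
  · intro p hp
    obtain ⟨hp1, hp2, hp3, hp4⟩ := hp
    refine ⟨u24_base h h00 h01 h10 h11 hp1 hp2, hp3, hp4, u24_base h h00 h01 h10 h11 ?_ ?_⟩
    · intro t ht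
      rw [Finset.mem_insert] at ht
      rcases ht with rfl | ht
      · exact (Finset.mem_sdiff.1 hp4).1
      · exact hp1 (Finset.mem_of_mem_erase ht)
    · rw [Finset.card_insert_of_notMem, Finset.card_erase_of_mem hp3, hp2]
      intro hc
      exact (Finset.mem_sdiff.1 hp4).2 (Finset.mem_of_mem_erase hc)
  · intro Φ hΦ
    have hv := vec_aux h h00 h01 h10 h11
    have hw := vec_aux (D := trD D) h' (h00 := h00) (h01 := h10) (h10 := h01) (h11 := h11)
    have hcomm : ({b₀, b₁} ∪ {n₀, n₁} : Finset ℕ) = {n₀, n₁} ∪ {b₀, b₁} := Finset.union_comm _ _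
    have hh := h
    simp only [List.nodup_cons, List.mem_cons, List.not_mem_nil, or_false, not_or, List.nodup_nil,
      and_true, not_false_eq_true] at hh
    obtain ⟨⟨h1, h2, h3⟩, ⟨h4, h5⟩, h6⟩ := hh
    -- the general condition
    have gen : ∀ z e x g : ℕ, ({z, e} : Finset ℕ) ⊆ {b₀, b₁} ∪ {n₀, n₁} → z ≠ e → x ≠ g →
        ({b₀, b₁} ∪ {n₀, n₁} : Finset ℕ) \ {z, e} = {x, g} → ∀ u v s t : F4,
        ev D {b₀, b₁} (fun b => if b = b₀ then u else v) z = 1 →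
        ev D {b₀, b₁} (fun b => if b = b₀ then u else v) e = 0 →
        ev (trD D) {n₀, n₁} (fun b => if b = n₀ then s else t) x = 1 →
        ev (trD D) {n₀, n₁} (fun b => if b = n₀ then s else t) g = 0 →
        tr ((u * Φ b₀ n₀ * s + u * Φ b₀ n₁ * t + (v * Φ b₁ n₀ * s + v * Φ b₁ n₁ * t)) *
          (ev D {b₀, b₁} (fun b => if b = b₀ then u else v) x)⁻¹) = 0 := by
      intro z e x g hsub hze hxg hcompl u v s t e1 e2 e3 e4
      have hz : z ∈ ({b₀, b₁} ∪ {n₀, n₁} : Finset ℕ) := hsub (by simp)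
      have he : e ∈ ({b₀, b₁} ∪ {n₀, n₁} : Finset ℕ) := hsub (by simp)
      have hx : x ∈ ({b₀, b₁} ∪ {n₀, n₁} : Finset ℕ) \ {z, e} := by rw [hcompl]; simp
      have hg : g ∈ ({b₀, b₁} ∪ {n₀, n₁} : Finset ℕ) \ {z, e} := by rw [hcompl]; simp
      have hp : (({z, e} : Finset ℕ), (z, x)) ∈ allP ({b₀, b₁} ∪ {n₀, n₁}) :=
        ⟨hsub, Finset.card_pair hze, by simp, hx⟩
      have hF := isF_aux h h00 h01 h10 h11 hze rfl hz he e1 e2
      have hC := isF_aux (D := trD D) h' h00 h10 h01 h11 hxg hcompl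
        (by rw [← hcomm]; exact (Finset.mem_sdiff.1 hx).1)
        (by rw [← hcomm]; exact (Finset.mem_sdiff.1 hg).1) e3 e4
      have hK := hΦ _ hp _ _ hF hC
      simp only at hK
      rw [Finset.sum_pair h1, Finset.sum_pair h6, Finset.sum_pair h6] at hK
      simpa [Ne.symm h1, Ne.symm h6] using hK
    have c1 : ({b₀, b₁} ∪ {n₀, n₁} : Finset ℕ) \ {b₀, b₁} = {n₀, n₁} := by
      ext t
      simp only [Finset.mem_sdiff, Finset.mem_union, Finset.mem_insert, Finset.mem_singleton]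
      constructor
      · rintro ⟨ht | ht, ht'⟩
        · exact absurd ht ht'
        · exact ht
      · rintro (rfl | rfl)
        · exact ⟨Or.inr (Or.inl rfl), fun hc => hc.elim (Ne.symm h2) (Ne.symm h4)⟩
        · exact ⟨Or.inr (Or.inr rfl), fun hc => hc.elim (Ne.symm h3) (Ne.symm h5)⟩
    have c2 : ({b₀, b₁} ∪ {n₀, n₁} : Finset ℕ) \ {b₁, n₀} = {n₁, b₀} := by
      ext t
      simp only [Finset.mem_sdiff, Finset.mem_union, Finset.mem_insert, Finset.mem_singleton]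
      constructor
      · rintro ⟨(ht | ht) | (ht | ht), ht'⟩
        · exact Or.inr ht
        · exact absurd (Or.inl ht) ht'
        · exact absurd (Or.inr ht) ht'
        · exact Or.inl ht
      · rintro (rfl | rfl)
        · exact ⟨Or.inr (Or.inr rfl), fun hc => hc.elim (Ne.symm h5) (Ne.symm h6)⟩
        · exact ⟨Or.inl (Or.inl rfl), fun hc => hc.elim h1 h2⟩
    have s1 : ({b₀, b₁} : Finset ℕ) ⊆ {b₀, b₁} ∪ {n₀, n₁} := Finset.subset_union_left
    have s2 : ({b₁, n₀} : Finset ℕ) ⊆ {b₀, b₁} ∪ {n₀, n₁} := by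
      intro t ht
      simp only [Finset.mem_union, Finset.mem_insert, Finset.mem_singleton] at ht ⊢
      tauto
    have g1 := gen b₀ b₁ n₀ n₁ s1 h1 h6 c1 1 0 1 0 (hv 1 0).1 (hv 1 0).2.1 (hw 1 0).1 (hw 1 0).2.1
    have g2 := gen b₀ b₁ n₁ n₀ s1 h1 (Ne.symm h6) (by rw [c1]; exact Finset.pair_comm _ _) 1 0 0 1
      (hv 1 0).1 (hv 1 0).2.1 (hw 0 1).2.1 (hw 0 1).1
    have c1' : ({b₀, b₁} ∪ {n₀, n₁} : Finset ℕ) \ {b₁, b₀} = {n₀, n₁} := by
      rw [Finset.pair_comm b₁ b₀]; exact c1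
    have s1' : ({b₁, b₀} : Finset ℕ) ⊆ {b₀, b₁} ∪ {n₀, n₁} := by
      rw [Finset.pair_comm b₁ b₀]; exact s1
    have g3 := gen b₁ b₀ n₀ n₁ s1' (Ne.symm h1) h6 c1' 0 1 1 0 (hv 0 1).2.1 (hv 0 1).1 (hw 1 0).1
      (hw 1 0).2.1
    have g4 := gen b₁ b₀ n₁ n₀ s1' (Ne.symm h1) (Ne.symm h6)
      (by rw [c1']; exact Finset.pair_comm _ _) 0 1 0 1 (hv 0 1).2.1 (hv 0 1).1 (hw 0 1).2.1
      (hw 0 1).1
    have g5 := gen b₁ n₀ n₁ b₀ s2 h4 (Ne.symm h3) c2 1 1 1 1 (hv 1 1).2.1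
      (by rw [(hv 1 1).2.2.1]; decide) (hw 1 1).2.1 (by rw [(hw 1 1).2.2.1]; decide)
    rw [(hv 1 0).2.2.1] at g1
    rw [(hv 1 0).2.2.2] at g2
    rw [(hv 0 1).2.2.1] at g3
    rw [(hv 0 1).2.2.2] at g4
    rw [(hv 1 1).2.2.2] at g5
    simp only [one_mul, mul_one, zero_mul, mul_zero, add_zero, zero_add] at g1 g2 g3 g4 g5
    obtain ⟨k, l, m, p, hk, hl, hm, hp, ea, eb, ec, ed⟩ := key_aux _ _ _ _ g1 g2 g3 g4 g5
    refine ⟨fun e => if e = b₀ then k else if e = b₁ then l else if e = n₀ then m else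
      if e = n₁ then p else 0, ?_, ?_⟩
    · intro e
      by_cases q1 : e = b₀
      · simpa only [if_pos q1] using hk
      by_cases q2 : e = b₁
      · simpa only [if_neg q1, if_pos q2] using hl
      by_cases q3 : e = n₀
      · simpa only [if_neg q1, if_neg q2, if_pos q3] using hm
      by_cases q4 : e = n₁
      · simpa only [if_neg q1, if_neg q2, if_neg q3, if_pos q4] using hp
      · left
        simp only [if_neg q1, if_neg q2, if_neg q3, if_neg q4]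
    · intro b hb n hn
      rw [Finset.mem_insert, Finset.mem_singleton] at hb hn
      rcases hb with rfl | rfl <;> rcases hn with rfl | rfl
      · simp only [if_true, if_neg (Ne.symm h2), if_neg (Ne.symm h4), h00]
        exact ea
      · simp only [if_true, if_neg (Ne.symm h3), if_neg (Ne.symm h5), if_neg (Ne.symm h6), h01]
        exact eb
      · simp only [if_true, if_neg (Ne.symm h1), if_neg (Ne.symm h2), if_neg (Ne.symm h4), h10]
        exact ec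
      · simp only [if_true, if_neg (Ne.symm h1), if_neg (Ne.symm h3), if_neg (Ne.symm h5),
          if_neg (Ne.symm h6), h11]
        exact ed

end Pool.Agent.G4
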