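import Pool.Agent.G4.St
import Pool.Agent.G4.U24b
import Pool.Agent.G4.G3

set_option autoImplicit false

/-!
# Module U12: the state of `U_{2,4}`

PROOF. `c3_four`: two rows `b₀, b₁` (list `nor S T = [b₀, b₁]`), two columns `dif S T = [n₀, n₁]`; all
different. `ent_mk`: the entries are `1, 1, 1, ω`. `twos S` lists all two-element subsets of `S`
(as lists `nor S [a, b]`), so `mkL` of the first list is `allM S`, `mkC S` of the second list is
`allM S` for the dual (complements of two-element sets are two-element sets, `x` in the complement),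
`mkP` of the third list is `allP S`. `u24_c3`, `u24_spanH` (also for the transpose, which is of the same
form with rows `n₀, n₁`), `u24_spanP`, `u24_eqv`.
-/

namespace Pool.Agent.G4

open N487b59b3 F4 Finset

private theorem mem_twos {S : List ℕ} {t : List ℕ} :
    t ∈ twos S ↔ ∃ a ∈ S, ∃ b ∈ S, b ≠ a ∧ t = nor S [a, b] := by
  simp only [twos, List.mem_flatMap, List.mem_map, List.mem_filter, Bool.not_eq_true',
    decide_eq_false_iff_not]
  constructor
  · rintro ⟨a, ha, b, ⟨hb, hab⟩, rfl⟩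
    exact ⟨a, ha, b, hb, hab, rfl⟩
  · rintro ⟨a, ha, b, hb, hab, rfl⟩
    exact ⟨a, ha, b, ⟨hb, hab⟩, rfl⟩

private theorem nor_pair {S : List ℕ} {a b : ℕ} (ha : a ∈ S) (hb : b ∈ S) :
    (nor S [a, b]).toFinset = {a, b} := by
  ext e
  rw [List.mem_toFinset, mem_nor]
  simp only [List.mem_cons, List.not_mem_nil, or_false, Finset.mem_insert, Finset.mem_singleton]
  constructor
  · exact fun h => h.2
  · rintro (rfl | rfl)
    · exact ⟨ha, Or.inl rfl⟩
    · exact ⟨hb, Or.inr rfl⟩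

private theorem twos_1 {S : List ℕ} {t : List ℕ} (ht : t ∈ twos S) :
    t.toFinset ⊆ S.toFinset ∧ t.toFinset.card = 2 := by
  obtain ⟨a, ha, b, hb, hab, rfl⟩ := mem_twos.1 ht
  rw [nor_pair ha hb]
  refine ⟨?_, Finset.card_pair (Ne.symm hab)⟩
  intro e he
  rw [Finset.mem_insert, Finset.mem_singleton] at he
  rw [List.mem_toFinset]
  rcases he with rfl | rfl
  · exact ha
  · exact hb

private theorem twos_2 {S : List ℕ} {P : Finset ℕ} (hP : P ⊆ S.toFinset) (h2 : P.card = 2) :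
    ∃ t ∈ twos S, t.toFinset = P := by
  obtain ⟨a, b, hab, rfl⟩ := Finset.card_eq_two.1 h2
  have ha : a ∈ S := List.mem_toFinset.1 (hP (by simp))
  have hb : b ∈ S := List.mem_toFinset.1 (hP (by simp))
  exact ⟨nor S [a, b], mem_twos.2 ⟨a, ha, b, hb, Ne.symm hab, rfl⟩, nor_pair ha hb⟩

private theorem mkL_eq (S : List ℕ) :
    mkL ((twos S).flatMap fun t => t.map fun z => (t, z)) = allM S.toFinset := by
  ext p
  obtain ⟨P, z⟩ := p
  simp only [mkL, allM, Set.mem_ofPred_eq, List.mem_flatMap, List.mem_map, Prod.mk.injEq]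
  constructor
  · rintro ⟨q, ⟨t, ht, w, hw, rfl⟩, rfl, rfl⟩
    obtain ⟨h1, h2⟩ := twos_1 ht
    exact ⟨h1, h2, List.mem_toFinset.2 hw⟩
  · rintro ⟨h1, h2, h3⟩
    obtain ⟨t, ht, rfl⟩ := twos_2 h1 h2
    exact ⟨(t, z), ⟨t, ht, z, List.mem_toFinset.1 h3, rfl⟩, rfl, rfl⟩

private theorem mkC_eq {S : List ℕ} (h4 : S.toFinset.card = 4) :
    mkC S.toFinset ((twos S).flatMap fun t => (dif S t).map fun x => (t, x)) = allM S.toFinset := by
  ext p
  obtain ⟨P, z⟩ := p
  simp only [mkC, allM, Set.mem_ofPred_eq, List.mem_flatMap, List.mem_map, Prod.mk.injEq]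
  constructor
  · rintro ⟨q, ⟨t, ht, w, hw, rfl⟩, rfl, rfl⟩
    obtain ⟨h1, h2⟩ := twos_1 ht
    refine ⟨Finset.sdiff_subset, ?_, ?_⟩
    · rw [Finset.card_sdiff_of_subset h1, h4, h2]
    · rw [← dif_toFinset]
      exact List.mem_toFinset.2 hw
  · rintro ⟨h1, h2, h3⟩
    obtain ⟨t, ht, hP⟩ := twos_2 (P := S.toFinset \ P) Finset.sdiff_subset
      (by rw [Finset.card_sdiff_of_subset h1, h4, h2])
    have h5 : S.toFinset \ t.toFinset = P := by
      rw [hP, Finset.sdiff_sdiff_eq_self h1]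
    refine ⟨(t, z), ⟨t, ht, z, ?_, rfl⟩, h5.symm, rfl⟩
    rw [← List.mem_toFinset, dif_toFinset, h5]
    exact h3

private theorem mkP_eq (S : List ℕ) :
    mkP ((twos S).flatMap fun t => t.flatMap fun z => (dif S t).map fun x => (t, (z, x))) =
      allP S.toFinset := by
  ext p
  obtain ⟨P, z, x⟩ := p
  simp only [mkP, allP, Set.mem_ofPred_eq, List.mem_flatMap, List.mem_map, Prod.mk.injEq]
  constructor
  · rintro ⟨q, ⟨t, ht, w, hw, y, hy, rfl⟩, rfl, h⟩
    obtain ⟨rfl, rfl⟩ := Prod.mk.inj h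
    obtain ⟨h1, h2⟩ := twos_1 ht
    refine ⟨h1, h2, List.mem_toFinset.2 hw, ?_⟩
    rw [← dif_toFinset]
    exact List.mem_toFinset.2 hy
  · rintro ⟨h1, h2, h3, h4⟩
    obtain ⟨t, ht, rfl⟩ := twos_2 h1 h2
    refine ⟨(t, (z, x)), ⟨t, ht, z, List.mem_toFinset.1 h3, x, ?_, rfl⟩, rfl, rfl⟩
    rw [← List.mem_toFinset, dif_toFinset]
    exact h4

theorem baseSt_spec {D : ℕ → ℕ → F4} {T S : List ℕ} (hS : S.Nodup) (h4 : S.length = 4)
    (h3 : C3 D (T.toFinset ∩ S.toFinset) (S.toFinset \ T.toFinset)) :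
    RepSt D T.toFinset S.toFinset (baseSt T S) := by
  have hcard : S.toFinset.card = 4 := by rw [List.toFinset_card_of_nodup hS, h4]
  have hU : (T.toFinset ∩ S.toFinset) ∪ (S.toFinset \ T.toFinset) = S.toFinset := by
    ext e
    simp only [Finset.mem_union, Finset.mem_inter, Finset.mem_sdiff]
    tauto
  have hdj : Disjoint (T.toFinset ∩ S.toFinset) (S.toFinset \ T.toFinset) := by
    rw [Finset.disjoint_left]
    intro e h1 h2
    exact (Finset.mem_sdiff.1 h2).2 (Finset.mem_inter.1 h1).1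
  obtain ⟨hB2, hN2⟩ := c3_four hdj h3 (by rw [hU, hcard])
  have hBn : (nor S T).Nodup := nor_nodup hS
  have hNn : (dif S T).Nodup := dif_nodup hS
  have hBl : (nor S T).length = 2 := by
    rw [← List.toFinset_card_of_nodup hBn, nor_toFinset, hB2]
  have hNl : (dif S T).length = 2 := by
    rw [← List.toFinset_card_of_nodup hNn, dif_toFinset, hN2]
  obtain ⟨b₀, b₁, hB⟩ := List.length_eq_two.1 hBl
  obtain ⟨n₀, n₁, hN⟩ := List.length_eq_two.1 hNl
  have hBf : T.toFinset ∩ S.toFinset = {b₀, b₁} := by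
    rw [← nor_toFinset, hB]
    simp
  have hNf : S.toFinset \ T.toFinset = {n₀, n₁} := by
    rw [← dif_toFinset, hN]
    simp
  have hnd : [b₀, b₁, n₀, n₁].Nodup := by
    have h1 : (nor S T ++ dif S T).Nodup := by
      rw [List.nodup_append]
      refine ⟨hBn, hNn, ?_⟩
      intro a ha b hb hab
      exact (mem_dif.1 hb).2 (hab ▸ (mem_nor.1 ha).2)
    rw [hB, hN] at h1
    exact h1
  have hnd' : [n₀, n₁, b₀, b₁].Nodup := by
    simp only [List.nodup_cons, List.mem_cons, List.not_mem_nil, or_false, not_or, List.nodup_nil,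
      and_true, not_false_eq_true] at hnd ⊢
    obtain ⟨⟨h1, h2, h3⟩, ⟨h4, h5⟩, h6⟩ := hnd
    exact ⟨⟨h6, Ne.symm h2, Ne.symm h4⟩, ⟨Ne.symm h3, Ne.symm h5⟩, h1⟩
  have hb01 : b₁ ≠ b₀ := by
    intro h
    rw [h] at hnd
    simp at hnd
  have hn01 : n₁ ≠ n₀ := by
    intro h
    rw [h] at hnd
    simp at hnd
  have hst : baseSt T S = (([b₀, b₁], [n₀, n₁]),
      (mk [b₀, b₁] [n₀, n₁] (fun b n => if b = b₀ ∨ n = n₀ then 1 else F4.om),
      ((twos S).flatMap (fun t => t.map fun z => (t, z)),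
      ((twos S).flatMap (fun t => (dif S t).map fun x => (t, x)),
       (twos S).flatMap fun t => t.flatMap fun z => (dif S t).map fun x => (t, (z, x)))))) := by
    unfold baseSt
    rw [hB, hN]
    rfl
  have e00 : ent (mk [b₀, b₁] [n₀, n₁] (fun b n => if b = b₀ ∨ n = n₀ then 1 else F4.om)) b₀ n₀ = 1 := by
    rw [ent_mk, if_pos (by simp), if_pos (Or.inl rfl)]
  have e01 : ent (mk [b₀, b₁] [n₀, n₁] (fun b n => if b = b₀ ∨ n = n₀ then 1 else F4.om)) b₀ n₁ = 1 := by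
    rw [ent_mk, if_pos (by simp), if_pos (Or.inl rfl)]
  have e10 : ent (mk [b₀, b₁] [n₀, n₁] (fun b n => if b = b₀ ∨ n = n₀ then 1 else F4.om)) b₁ n₀ = 1 := by
    rw [ent_mk, if_pos (by simp), if_pos (Or.inr rfl)]
  have e11 : ent (mk [b₀, b₁] [n₀, n₁] (fun b n => if b = b₀ ∨ n = n₀ then 1 else F4.om)) b₁ n₁ =
      F4.om := by
    rw [ent_mk, if_pos (by simp), if_neg (by rintro (h | h); exacts [hb01 h, hn01 h])]
  have hBt : ([b₀, b₁] : List ℕ).toFinset = {b₀, b₁} := by simp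
  have hNt : ([n₀, n₁] : List ℕ).toFinset = {n₀, n₁} := by simp
  have hU' : ({b₀, b₁} ∪ {n₀, n₁} : Finset ℕ) = S.toFinset := by rw [← hBf, ← hNf, hU]
  have hU'' : ({n₀, n₁} ∪ {b₀, b₁} : Finset ℕ) = S.toFinset := by rw [Finset.union_comm, hU']
  rw [hst]
  refine ⟨?_, ?_, ?_, ?_⟩
  · refine ⟨?_, ?_, ?_, ?_, ?_, ?_, ?_, ?_⟩
    · rw [← hB]; exact hBn
    · rw [← hN]; exact hNn
    · change Disjoint ([b₀, b₁] : List ℕ).toFinset ([n₀, n₁] : List ℕ).toFinset
      rw [hBt, hNt, ← hBf, ← hNf]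
      exact hdj
    · change C3 (ent (mk [b₀, b₁] [n₀, n₁] (fun b n => if b = b₀ ∨ n = n₀ then 1 else F4.om)))
        ([b₀, b₁] : List ℕ).toFinset ([n₀, n₁] : List ℕ).toFinset
      rw [hBt, hNt]
      exact u24_c3 hnd e00 e01 e10 e11
    · change SpanH (ent (mk [b₀, b₁] [n₀, n₁] (fun b n => if b = b₀ ∨ n = n₀ then 1 else F4.om)))
        ([b₀, b₁] : List ℕ).toFinset ([n₀, n₁] : List ℕ).toFinset
        (mkL ((twos S).flatMap fun t => t.map fun z => (t, z)))
      rw [hBt, hNt, mkL_eq, ← hU']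
      exact u24_spanH hnd e00 e01 e10 e11
    · change SpanH (trD (ent (mk [b₀, b₁] [n₀, n₁] (fun b n => if b = b₀ ∨ n = n₀ then 1 else F4.om))))
        ([n₀, n₁] : List ℕ).toFinset ([b₀, b₁] : List ℕ).toFinset
        (mkC (([b₀, b₁] : List ℕ).toFinset ∪ ([n₀, n₁] : List ℕ).toFinset)
          ((twos S).flatMap fun t => (dif S t).map fun x => (t, x)))
      rw [hBt, hNt, hU', mkC_eq hcard, ← hU'']
      exact u24_spanH hnd' e00 e10 e01 e11
    · change SpanP (ent (mk [b₀, b₁] [n₀, n₁] (fun b n => if b = b₀ ∨ n = n₀ then 1 else F4.om)))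
        ([b₀, b₁] : List ℕ).toFinset ([n₀, n₁] : List ℕ).toFinset
        (mkP ((twos S).flatMap fun t => t.flatMap fun z => (dif S t).map fun x => (t, (z, x))))
      rw [hBt, hNt, mkP_eq, ← hU']
      exact u24_spanP hnd e00 e01 e10 e11
    · change ∀ q ∈ (twos S).flatMap (fun t => (dif S t).map fun x => (t, x)),
        q.1.toFinset ⊆ ([b₀, b₁] : List ℕ).toFinset ∪ ([n₀, n₁] : List ℕ).toFinset
      rw [hBt, hNt, hU']
      intro q hq
      obtain ⟨t, ht, hq⟩ := List.mem_flatMap.1 hq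
      obtain ⟨x, -, rfl⟩ := List.mem_map.1 hq
      exact (twos_1 ht).1
  · change ([b₀, b₁] : List ℕ).toFinset = _
    rw [hBt, hBf]
  · change ([n₀, n₁] : List ℕ).toFinset = _
    rw [hNt, hNf]
  · change Eqv D (ent (mk [b₀, b₁] [n₀, n₁] (fun b n => if b = b₀ ∨ n = n₀ then 1 else F4.om))) _ _
    rw [hBf, hNf] at h3 ⊢
    exact u24_eqv hnd e00 e01 e10 e11 h3

end Pool.Agent.G4
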