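import Pool.Agent.G4.St
import Pool.Agent.G4.U1
import Pool.Agent.G4.G3
import Pool.Agent.G4.Br4
import Pool.Agent.G4.Eqv

set_option autoImplicit false

/-!
# Module U13: change of basis of the result

PROOF. `B = s.1.1.toFinset = T' ∩ S`, `N = S \ T'`. `T ∩ S` is a basis of the minor: `isBase_iff` for `T'`:
`(T' \ S) ∪ (T ∩ S) = T` is independent; cardinalities: `T.card = T'.card` (both are the rank of `E`,
`IsD.rk_S` with `A = E`) and `T \ S = T' \ S`. So `IsBase (ent s.2.1) B N (T ∩ S)` (`Eqv.eqM`); let `F b` be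
the vectors `IsF` for `b ∈ T ∩ S` (`exists_isF`); `fv_eq`, `val_eq`: the entries of `toBase` are
`ev (ent s.2.1) B (F b) n` (`ent_mk`). `base_change`: `IsBase (ent (toBase ..)) (T ∩ S) (S \ T) P ↔
IsBase (ent s.2.1) B N P ↔ IsBase D' (T' ∩ S) (S \ T') P ↔ ind v ((T' \ S) ∪ P) ↔
ind v ((T \ S) ∪ P) ↔ IsBase D (T ∩ S) (S \ T) P` (for `P ⊆ S` of the right cardinality).
-/

namespace Pool.Agent.G4

open N487b59b3 F4 Finset

private theorem un_eq (T S : Finset ℕ) : (T ∩ S) ∪ (S \ T) = S := by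
  ext e
  simp only [Finset.mem_union, Finset.mem_inter, Finset.mem_sdiff]
  tauto

theorem toBase_spec {V : Type} [AddCommGroup V] [Module F4 V] {v : ℕ → V}
    {E T T' S : List ℕ} {D D' : ℕ → ℕ → F4} (hD : IsD v E.toFinset T.toFinset D)
    (hD' : IsD v E.toFinset T'.toFinset D') (hS : ∀ e ∈ S, e ∈ E)
    (h : T.toFinset \ S.toFinset = T'.toFinset \ S.toFinset) {s : St}
    (hs : RepSt D' T'.toFinset S.toFinset s) :
    EqM D (ent (toBase T S s)) (T.toFinset ∩ S.toFinset) (S.toFinset \ T.toFinset) := by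
  obtain ⟨good, hB, hN, heq⟩ := hs
  have hSE : S.toFinset ⊆ E.toFinset := fun x hx => by
    rw [List.mem_toFinset] at hx ⊢
    exact hS x hx
  have hcT : T.toFinset.card = T'.toFinset.card := by
    have h1 := hD.rk_S hD.1 (Finset.Subset.refl E.toFinset)
    have h2 := hD'.rk_S hD'.1 (Finset.Subset.refl E.toFinset)
    rw [h1] at h2
    exact_mod_cast h2
  have hcS : (T.toFinset ∩ S.toFinset).card = (T'.toFinset ∩ S.toFinset).card := by
    have h1 := Finset.card_sdiff_add_card_inter T.toFinset S.toFinset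
    have h2 := Finset.card_sdiff_add_card_inter T'.toFinset S.toFinset
    rw [h] at h1
    omega
  have hd' : Disjoint (T'.toFinset ∩ S.toFinset) (S.toFinset \ T'.toFinset) := by
    rw [Finset.disjoint_left]
    intro a ha hb
    exact (mem_sdiff.1 hb).2 (mem_inter.1 ha).1
  have hb1 : IsBase D' (T'.toFinset ∩ S.toFinset) (S.toFinset \ T'.toFinset)
      (T.toFinset ∩ S.toFinset) := by
    rw [isBase_iff hD' hSE Finset.inter_subset_right hcS, ← h, Finset.sdiff_union_inter]
    exact hD.2.1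
  have hb2 := (heq.eqM hd' _).1 hb1
  have hex : ∀ b, ∃ f, b ∈ T.toFinset ∩ S.toFinset → IsF (ent s.2.1) (T'.toFinset ∩ S.toFinset)
      (S.toFinset \ T'.toFinset) (T.toFinset ∩ S.toFinset) b f := by
    intro b
    by_cases hb : b ∈ T.toFinset ∩ S.toFinset
    · obtain ⟨f, hf⟩ := exists_isF hb2 hb
      exact ⟨f, fun _ => hf⟩
    · exact ⟨fun _ => 0, fun h => absurd h hb⟩
  choose F hF using hex
  have hNt : ((T'.toFinset ∩ S.toFinset) ∪ (S.toFinset \ T'.toFinset)) \
      (T.toFinset ∩ S.toFinset) = S.toFinset \ T.toFinset := by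
    rw [un_eq]
    ext e
    simp only [Finset.mem_inter, Finset.mem_sdiff]
    tauto
  have hent : ∀ b ∈ T.toFinset ∩ S.toFinset, ∀ n ∈ ((T'.toFinset ∩ S.toFinset) ∪
      (S.toFinset \ T'.toFinset)) \ (T.toFinset ∩ S.toFinset),
      ent (toBase T S s) b n = ev (ent s.2.1) (T'.toFinset ∩ S.toFinset) (F b) n := by
    intro b hb n hn
    rw [hNt] at hn
    have h1 : b ∈ nor S T := by
      rw [← List.mem_toFinset, nor_toFinset]
      exact hb
    have h2 : n ∈ dif S T := by
      rw [← List.mem_toFinset, dif_toFinset]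
      exact hn
    unfold toBase
    rw [ent_mk, if_pos ⟨h1, h2⟩]
    have h3 := hF b hb
    rw [← nor_toFinset S T, ← hB] at h3
    rw [fv_eq good.ndB s.2.1 h3, val_eq good.ndB, hB]
  have hbc : ∀ P, IsBase (ent (toBase T S s)) (T.toFinset ∩ S.toFinset)
      (S.toFinset \ T.toFinset) P ↔ IsBase (ent s.2.1) (T'.toFinset ∩ S.toFinset)
      (S.toFinset \ T'.toFinset) P := by
    intro P
    have h1 := base_change (P := P) hd' hb2 (fun t ht => hF t ht) hent
    rwa [hNt] at h1
  intro P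
  rw [hbc P, ← heq.eqM hd' P]
  constructor
  · intro h1
    have hPS : P ⊆ S.toFinset := h1.1.trans (un_eq _ _).subset
    have hPc := h1.2.1
    rw [isBase_iff hD hSE hPS hPc] at h1
    rw [isBase_iff hD' hSE hPS (hPc.trans hcS), ← h]
    exact h1
  · intro h1
    have hPS : P ⊆ S.toFinset := h1.1.trans (un_eq _ _).subset
    have hPc := h1.2.1
    rw [isBase_iff hD' hSE hPS hPc] at h1
    rw [isBase_iff hD hSE hPS (hPc.trans hcS.symm), h]
    exact h1

end Pool.Agent.G4
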