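import Pool.Agent.G4.C5
import Pool.Agent.G4.U11
import Pool.Agent.G4.U12
import Pool.Agent.G4.U13
import Pool.Agent.G4.P1

set_option autoImplicit false

/-!
# Module U14: a piece is represented correctly

PROOF. `t = table X E T S` (`tabOK_table`), rows `T ∩ S`, columns `S \ T`. If `S.length ≤ 3`: `bin_small`
(`(T ∩ S).card + (S \ T).card = S.card`), `supp_eqM` (`ent_mk`, membership in `t.2.1` is `D b n ≠ 0`). If
`nonbin = false`: `nonbin_iff` gives `Bin`, `supp_eqM`. Otherwise `C3` and `U24` (`nonbin_iff`):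
`c3_iff_conn3`, `chain_spec` gives the basis `T'` with matrix `D'`, the set `S'` with four elements and
the history; `C3` for `D'` on `S'` (`c3_iff_conn3`), `baseSt_spec`, `fold_build` and `toBase_spec`.
-/

namespace Pool.Agent.G4

open N487b59b3 F4 Finset Pool.Agent.Helper22

theorem piece_spec {V : Type} [AddCommGroup V] [Module F4 V] {v : ℕ → V} {X : Oracle}
    {E T S : List ℕ} {D : ℕ → ℕ → F4} (hX : IsOrc X E v)
    (hD : IsD v E.toFinset T.toFinset D) (hT : T.Nodup) (hS : ∀ e ∈ S, e ∈ E) (hS' : S.Nodup)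
    (h : S.length ≤ 3 ∨ C3 D (T.toFinset ∩ S.toFinset) (S.toFinset \ T.toFinset)) :
    EqM D (ent (piece X E T S)) (T.toFinset ∩ S.toFinset) (S.toFinset \ T.toFinset) := by
  have hSE : S.toFinset ⊆ E.toFinset := fun e he => List.mem_toFinset.2 (hS e (List.mem_toFinset.1 he))
  have ht := tabOK_table (X := X) hX hD hS hS'
  have h1 : (table X E T S).1.1.toFinset = T.toFinset ∩ S.toFinset := nor_toFinset S T
  have h2 : (table X E T S).1.2.toFinset = S.toFinset \ T.toFinset := dif_toFinset S T
  have hdj : Disjoint (T.toFinset ∩ S.toFinset) (S.toFinset \ T.toFinset) := by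
    rw [Finset.disjoint_left]
    intro e he he'
    exact (Finset.mem_sdiff.1 he').2 (Finset.mem_inter.1 he).1
  have hnb := nonbin_iff hX hD hS ht h1 h2
  have hfirst : Bin D (T.toFinset ∩ S.toFinset) (S.toFinset \ T.toFinset) →
      EqM D (ent (mk (nor S T) (dif S T) fun b n => if (b, n) ∈ (table X E T S).2.1 then 1 else 0))
        (T.toFinset ∩ S.toFinset) (S.toFinset \ T.toFinset) := by
    intro hB
    apply supp_eqM hdj hB
    intro b hb n hn
    have hb' : b ∈ nor S T := by rwa [← List.mem_toFinset, nor_toFinset]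
    have hn' : n ∈ dif S T := by rwa [← List.mem_toFinset, dif_toFinset]
    rw [ent_mk, if_pos ⟨hb', hn'⟩]
    have h3 : (b, n) ∈ (table X E T S).2.1 ↔ D b n ≠ 0 := by
      rw [ht.one (b, n)]
      exact ⟨fun h => h.2.2, fun h => ⟨hb', hn', h⟩⟩
    by_cases h4 : D b n = 0
    · rw [if_pos h4, if_neg (fun h5 => h3.1 h5 h4)]
    · rw [if_neg h4, if_pos (h3.2 h4)]
  have hp : piece X E T S =
      if (decide (S.length ≤ 3) || !nonbin X E T (table X E T S)) = true then
        mk (nor S T) (dif S T) fun b n => if (b, n) ∈ (table X E T S).2.1 then 1 else 0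
      else toBase T S ((chain X E T S).2.2.foldl (buildStep X (E, (chain X E T S).1))
        (baseSt (chain X E T S).1 (chain X E T S).2.1)) := rfl
  rw [hp]
  by_cases hc : (decide (S.length ≤ 3) || !nonbin X E T (table X E T S)) = true
  · rw [if_pos hc]
    apply hfirst
    rw [Bool.or_eq_true, decide_eq_true_eq, Bool.not_eq_true'] at hc
    rcases hc with hc | hc
    · apply bin_small
      have h3 : (T.toFinset ∩ S.toFinset).card + (S.toFinset \ T.toFinset).card = S.length := by
        rw [Finset.inter_comm, Finset.card_inter_add_card_sdiff, List.toFinset_card_of_nodup hS']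
      omega
    · by_contra hB
      have := hnb.2.2 hB
      rw [hc] at this
      exact Bool.false_ne_true this
  · rw [if_neg hc]
    rw [Bool.or_eq_true, decide_eq_true_eq, Bool.not_eq_true', not_or, Bool.not_eq_false] at hc
    have hC3 := h.resolve_left hc.1
    have h3 := (c3_iff_conn3 hD hSE).1 hC3
    have hU := hnb.1.1 hc.2
    obtain ⟨⟨D', hD'⟩, k2, k3, k4, k5, k6, k7, k8⟩ := chain_spec hX hD hT hS hS' h3 hU
    have hS'E : (chain X E T S).2.1.toFinset ⊆ E.toFinset := fun e he =>
      List.mem_toFinset.2 (hS e (k5 e (List.mem_toFinset.1 he)))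
    have hC3' := (c3_iff_conn3 hD' hS'E).2 k8
    have hb := baseSt_spec k4 k6 hC3'
    exact toBase_spec hD hD' hS k3.symm (fold_build hX hD' hSE k7 hb)

end Pool.Agent.G4
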