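import Pool.Agent.G4.A1
import Pool.Agent.G4.G4
import Pool.Agent.G4.U14

set_option autoImplicit false

/-!
# Module A2: correctness of the algorithm over the field `F4`

PROOF. `E = List.range n`, `T = greedy X E` (`greedy_spec`), `t = table X E T E` (`tabOK_table`), `peel_spec`,
`piece_spec` for the pieces (`Peeled.sub`) and for the last one (`seps_nil`), `fold_spec`, `out_spec` with
`S = E` (`T ∩ E = T`). The rows of the output are `E.map (cvb D T · b)`, `b ∈ T`: the entry of row `i` at
`e < n` is `col (ent D) T e (T[i])` (`cvb_eq`); the map `i ↦ T[i]` is a bijection from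
`Fin T.length` to `T.toFinset` (no repetitions), which transports linear independence.
-/

namespace Pool.Agent.G4

open N487b59b3 F4 Finset Pool.Agent.Helper22

private theorem eqM_alg {V : Type} [AddCommGroup V] [Module F4 V] {v : ℕ → V} {X : Oracle}
    {E T : List ℕ} {D : ℕ → ℕ → F4} (hX : IsOrc X E v) (hE : E.Nodup) (hT : T.Nodup)
    (hD : IsD v E.toFinset T.toFinset D) :
    EqM D (ent (((peel (table X E T E)).2.map fun c => (c, piece X E T (cutX c.1))).foldl
      (fun D c => glueM T c.1.1 c.1.2 c.2 D) (piece X E T (gr (peel (table X E T E)).1))))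
      T.toFinset (E.toFinset \ T.toFinset) := by
  have hTE : ∀ e ∈ T, e ∈ E := by
    intro e he
    rw [← List.mem_toFinset]
    exact hD.1 (List.mem_toFinset.2 he)
  have ht : TabOK D (table X E T E) := tabOK_table hX hD (fun e he => he) hE
  have hgr : (gr (table X E T E)).toFinset = E.toFinset := by
    ext e
    rw [List.mem_toFinset, mem_gr, List.mem_toFinset]
    show e ∈ nor E T ∨ e ∈ dif E T ↔ e ∈ E
    rw [mem_nor, mem_dif]
    tauto
  have h1 : (table X E T E).1.1.toFinset = T.toFinset ∩ (gr (table X E T E)).toFinset := by
    rw [hgr]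
    exact nor_toFinset E T
  have h2 : (table X E T E).1.2.toFinset = (gr (table X E T E)).toFinset \ T.toFinset := by
    rw [hgr]
    exact dif_toFinset E T
  obtain ⟨p1, p2, p3, p4, p5⟩ := peel_spec ht h1 h2
  obtain ⟨q1, q2⟩ := p1.sub
  have hsub : ∀ e ∈ gr (table X E T E), e ∈ E := by
    intro e he
    rw [← List.mem_toFinset, ← hgr, List.mem_toFinset]
    exact he
  have hfold := fold_spec p1 (piece X E T) (fun c hc => by
    obtain ⟨c1, c2, c3⟩ := q2 c hc
    exact piece_spec hX hD hT (fun e he => hsub e (c2 e he)) c1 c3)
    (piece X E T (gr (peel (table X E T E)).1)) (by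
      refine piece_spec hX hD hT (fun e he => hsub e (q1 e he)) p2.gr_nodup ?_
      have := seps_nil p2 p5
      rw [p3, p4] at this
      exact this)
  rw [hgr] at hfold
  have e1 : T.toFinset ∩ E.toFinset = T.toFinset := Finset.inter_eq_left.2 hD.1
  rw [e1] at hfold
  exact hfold

theorem alg_spec {V : Type} [AddCommGroup V] [Module F4 V] {v : ℕ → V} {X : Oracle} {n : ℕ}
    (hX : IsOrc X (List.range n) v) (a : List Bool) (ha : a.length = n) :
    (∀ r ∈ alg X a, r.length = n) ∧
    ∀ J : Finset ℕ, J ⊆ (List.range n).toFinset →
      (LinearIndependent F4 (fun e : J => fun i : Fin (alg X a).length =>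
        ((alg X a).get i).getD e 0) ↔ ind v J) := by
  subst ha
  obtain ⟨hT, D, hD⟩ := greedy_spec hX List.nodup_range
  have hEq := eqM_alg hX List.nodup_range hT hD
  set T := greedy X (List.range a.length) with hTdef
  set D₁ := ((peel (table X (List.range a.length) T (List.range a.length))).2.map fun c =>
    (c, piece X (List.range a.length) T (cutX c.1))).foldl
      (fun D c => glueM T c.1.1 c.1.2 c.2 D)
      (piece X (List.range a.length) T (gr (peel (table X (List.range a.length) T
        (List.range a.length))).1)) with hD₁
  have halg : alg X a = T.map fun b => (List.range a.length).map fun e => cvb D₁ T e b := rfl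
  constructor
  · intro r hr
    rw [halg, List.mem_map] at hr
    obtain ⟨b, -, rfl⟩ := hr
    simp
  · intro J hJ
    rw [out_spec hD hEq hJ]
    have hlen : (alg X a).length = T.length := by
      rw [halg, List.length_map]
    let φ : Fin (alg X a).length → T.toFinset := fun i =>
      ⟨T[i.1]'(by rw [← hlen]; exact i.2), List.mem_toFinset.2 (List.getElem_mem _)⟩
    have hφ : Function.Surjective φ := by
      intro b
      obtain ⟨i, hi, hb⟩ := List.getElem_of_mem (List.mem_toFinset.1 b.2)
      exact ⟨⟨i, by rw [hlen]; exact hi⟩, Subtype.ext hb⟩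
    have hinj : Function.Injective (LinearMap.funLeft F4 F4 φ) :=
      LinearMap.funLeft_injective_of_surjective F4 F4 φ hφ
    have hker : LinearMap.ker (LinearMap.funLeft F4 F4 φ) = ⊥ := LinearMap.ker_eq_bot.2 hinj
    rw [← LinearMap.linearIndependent_iff _ hker]
    have hfun : (fun e : J => fun i : Fin (alg X a).length => ((alg X a).get i).getD e 0) =
        (⇑(LinearMap.funLeft F4 F4 φ) ∘ fun e : J => fun b : T.toFinset =>
          col (ent D₁) T.toFinset e b) := by
      funext e i
      show ((alg X a).get i).getD e 0 = col (ent D₁) T.toFinset e (φ i)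
      have he : (e : ℕ) < a.length := by
        have := hJ e.2
        rw [List.mem_toFinset, List.mem_range] at this
        exact this
      have h1 : (alg X a).get i = (List.range a.length).map fun e =>
          cvb D₁ T e (T[i.1]'(by rw [← hlen]; exact i.2)) := by
        rw [List.get_eq_getElem]
        simp only [halg, List.getElem_map]
      rw [h1, List.getD_eq_getElem _ _ (by simpa using he), List.getElem_map, List.getElem_range,
        cvb_eq]
    rw [hfun]

end Pool.Agent.G4
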