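import Pool.Agent.G4.F4
import Pool.Agent.Helper22.OracleDefs

set_option autoImplicit false

/-!
# The algorithm

Elements are natural numbers, sets and vectors are lists, a matrix is a list of entries.
-/

namespace Pool.Agent.G4

open N487b59b3 Pool.Agent.Helper22

/-! ## Linear algebra -/

/-- dot product -/
def dot (u v : List F4) : F4 := (List.zipWith (fun a b => a * b) u v).foldl (fun s a => s + a) 0

/-- `v + c u` -/
def axpy (c : F4) (u v : List F4) : List F4 := List.zipWith (fun a b => b + c * a) u v

/-- the entry of `v` at the place of the first nonzero entry of `u` -/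
def lead (u v : List F4) : F4 := (((u.zip v).filter fun p => !decide (p.1 = 0)).headD (0, 0)).2

/-- clear the leading place of `q.1` in `p.1` -/
def red (p q : List F4 × F4) : List F4 × F4 :=
  (axpy (lead q.1 p.1) q.1 p.1, p.2 + lead q.1 p.1 * q.2)

/-- reduce by all vectors of a list -/
def reduce (E : List (List F4 × F4)) (p : List F4 × F4) : List F4 × F4 := E.foldl red p

/-- normalise -/
def nrm (p : List F4 × F4) : List F4 × F4 :=
  (p.1.map fun a => (lead p.1 p.1)⁻¹ * a, (lead p.1 p.1)⁻¹ * p.2)

/-- add an equation to an echelon list -/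
def addE (E : List (List F4 × F4)) (p : List F4 × F4) : List (List F4 × F4) :=
  if lead (reduce E p).1 (reduce E p).1 = 0 then E else E ++ [nrm (reduce E p)]

/-- the unit vectors indexed by a list -/
def units {α : Type} [DecidableEq α] (I : List α) : List (List F4) :=
  I.map fun i => I.map fun j => if i = j then 1 else 0

/-- the solution of a linear system (its coordinates are indexed by `I`) -/
def solve {α : Type} [DecidableEq α] (I : List α) (l : List (List F4 × F4)) : List F4 :=
  (units I).map fun e => (reduce (l.foldl addE []) (e, 0)).2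

/-- one step of pruning -/
def pruneStep {α : Type} (s : List (List F4 × F4) × List α) (p : α × List F4) :
    List (List F4 × F4) × List α :=
  if lead (reduce s.1 (p.2, 0)).1 (reduce s.1 (p.2, 0)).1 = 0 then s
  else (s.1 ++ [nrm (reduce s.1 (p.2, 0))], s.2 ++ [p.1])

/-- the items whose vectors are not in the span of the preceding ones -/
def prune {α : Type} (l : List (α × List F4)) : List α := (l.foldl pruneStep ([], [])).2

/-! ## Matrices -/

/-- a matrix -/
abbrev Mx : Type := List ((ℕ × ℕ) × F4)

/-- an entry -/
def ent (D : Mx) (b n : ℕ) : F4 := ((D.filter fun p => decide (p.1 = (b, n))).headD ((0, 0), 0)).2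

/-- the value at `i` of a vector given as a list of pairs -/
def look (v : List (ℕ × F4)) (i : ℕ) : F4 := ((v.filter fun p => decide (p.1 = i)).headD (0, 0)).2

/-- make a matrix -/
def mk (R C : List ℕ) (g : ℕ → ℕ → F4) : Mx := R.flatMap fun b => C.map fun n => ((b, n), g b n)

/-- the transpose -/
def trM (D : Mx) : Mx := D.map fun p => ((p.1.2, p.1.1), p.2)

/-- the coordinate `b` of the column `e` -/
def cvb (D : Mx) (B : List ℕ) (e b : ℕ) : F4 :=
  if e ∈ B then (if e = b then 1 else 0) else ent D b e

/-- the column `e` in the basis `B` -/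
def cv (D : Mx) (B : List ℕ) (e : ℕ) : List F4 := B.map fun b => cvb D B e b

/-- the coordinates of the row vector which is `1` at `z` and `0` at the other elements of `T` -/
def fv (D : Mx) (B T : List ℕ) (z : ℕ) : List F4 :=
  solve B (T.map fun t => (cv D B t, if t = z then 1 else 0))

/-- the value of a row vector at `e` -/
def val (D : Mx) (B : List ℕ) (f : List F4) (e : ℕ) : F4 := dot f (cv D B e)

/-- `S ∖ T` -/
def dif (S T : List ℕ) : List ℕ := S.filter fun e => !decide (e ∈ T)

/-- `S ∩ T`, in the order of `S` -/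
def nor (S T : List ℕ) : List ℕ := S.filter fun e => decide (e ∈ T)

/-- the vector of products `f_i conj f_j` -/
def phiH (f : List F4) : List F4 := f.flatMap fun a => f.map fun b => a * F4.conj b

/-- the vector of a pair (cocircuit, circuit) -/
def phiP (D : Mx) (B N T : List ℕ) (z x : ℕ) : List F4 :=
  let f := fv D B T z
  let c := fv (trM D) N (dif (B ++ N) T) x
  let m := f.flatMap fun a => c.map fun b => a * b * (val D B f x)⁻¹
  m ++ m.map F4.conj

/-! ## One step of the reconstruction -/

/-- a list of marked bases -/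
abbrev Lst : Type := List (List ℕ × ℕ)

/-- a list of doubly marked bases -/
abbrev Lst2 : Type := List (List ℕ × (ℕ × ℕ))

/-- the state: basis, cobasis, matrix, the three lists -/
abbrev St : Type := (List ℕ × List ℕ) × (Mx × (Lst × (Lst × Lst2)))

/-- the dual state -/
def dualSt (s : St) : St :=
  ((s.1.2, s.1.1), (trM s.2.1,
    (s.2.2.2.1.map fun p => (dif (s.1.1 ++ s.1.2) p.1, p.2),
    (s.2.2.1.map fun p => (dif (s.1.1 ++ s.1.2) p.1, p.2),
     s.2.2.2.2.map fun p => (dif (s.1.1 ++ s.1.2) p.1, (p.2.2, p.2.1))))))

/-- sets of at most two pairs -/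
def smallU (ps : List (ℕ × ℕ)) : List (List (ℕ × ℕ)) :=
  [[]] ++ (ps.map fun p => [p]) ++
    (ps.flatMap fun p => (ps.filter fun q => !decide (q = p)).map fun q => [p, q])

/-- the hyperplane basis `T - z` with one element of each pair -/
def hyp (ps : List (ℕ × ℕ)) (T : List ℕ) (z : ℕ) (U : List (ℕ × ℕ)) : List ℕ :=
  (T.filter fun t => !decide (t = z)) ++ ps.map fun p => if p ∈ U then p.1 else p.2

/-- descriptor of a question: marked basis, its vector, set of swapped pairs -/
abbrev Desc : Type := (List ℕ × ℕ) × (List F4 × List (ℕ × ℕ))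

/-- the questions of one step -/
def descs (s : St) (ps : List (ℕ × ℕ)) : List Desc :=
  s.2.2.1.flatMap fun p => ((smallU ps).filter fun U => U.all fun q =>
    !decide (val s.2.1 s.1.1 (fv s.2.1 s.1.1 p.1 p.2) q.1 = 0)).map
      fun U => (p, (fv s.2.1 s.1.1 p.1 p.2, U))

/-- the set asked for a descriptor -/
def descSet (ps : List (ℕ × ℕ)) (y : ℕ) (q : Desc) : List ℕ := hyp ps q.1.1 q.1.2 q.2.2 ++ [y]

/-- the index list of pairs -/
def idx2 (B : List ℕ) : List (ℕ × ℕ) := B.flatMap fun i => B.map fun j => (i, j)

/-- a vector proportional to the coordinates of the new column outside the pairs -/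
def vecV (B : List ℕ) (ans : List (Desc × Bool)) : List F4 :=
  let W : Mx := (idx2 B).zip (solve (idx2 B)
    ((ans.filter fun a => a.1.2.2.isEmpty).map fun a => (phiH a.1.2.1, if a.2 then 1 else 0)))
  let j := (B.filter fun j => !decide (ent W j j = 0)).headD 0
  B.map fun i => ent W i j

/-- the value of the row vector of a descriptor at the candidate column `(v, s)` -/
def candVal (D : Mx) (B : List ℕ) (v : List F4) (s : List (ℕ × F4)) (q : Desc) : F4 :=
  dot q.2.1 v + (q.2.2.map fun p => val D B q.2.1 p.1 * look s p.2).foldl (fun x y => x + y) 0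

/-- the candidate agrees with the answer -/
def good (D : Mx) (B : List ℕ) (v : List F4) (s : List (ℕ × F4)) (a : Desc × Bool) : Bool :=
  (!decide (candVal D B v s a.1 = 0)) == a.2

/-- the three nonzero elements -/
def nz : List F4 := [1, F4.om, 1 + F4.om]

/-- the coordinate of the new column at the pair `p`, the pair `p₁` having coordinate `1` -/
def coordS (D : Mx) (B : List ℕ) (v : List F4) (ans : List (Desc × Bool)) (p₁ p : ℕ × ℕ) : F4 :=
  if p = p₁ then 1 else
    (nz.filter fun t => (ans.filter fun a => a.1.2.2.all fun q => decide (q = p₁) || decide (q = p)).all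
      fun a => good D B v [(p₁.2, 1), (p.2, t)] a).headD 1

/-- the candidates for the new column -/
def cands (D : Mx) (B : List ℕ) (ps : List (ℕ × ℕ)) (ans : List (Desc × Bool)) :
    List (List F4 × List (ℕ × F4)) :=
  nz.map fun c =>
    let v := (vecV B ans).map fun x => c * x
    (v, ps.map fun p => (p.2, coordS D B v ans (ps.headD (0, 0)) p))

/-- the chosen column -/
def column (D : Mx) (B : List ℕ) (ps : List (ℕ × ℕ)) (ans : List (Desc × Bool)) :
    List F4 × List (ℕ × F4) :=
  ((cands D B ps ans).filter fun c => ans.all fun a => good D B c.1 c.2 a).headD ([], [])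

/-- the partner of the new row `b` -/
def partner (ps : List (ℕ × ℕ)) (b : ℕ) : ℕ := ((ps.filter fun p => decide (p.2 = b)).headD (0, 0)).1

/-- the new matrix -/
def newD (s : St) (ps : List (ℕ × ℕ)) (y : ℕ) (c : List F4 × List (ℕ × F4)) : Mx :=
  let B := s.1.1
  let v := B.zip c.1
  mk (B ++ ps.map fun p => p.2) (s.1.2 ++ [y]) fun b n =>
    if n = y then
      (if b ∈ B then look v b
        else look c.2 b + (if partner ps b ∈ B then look v (partner ps b) else 0))
    else if b ∈ B then ent s.2.1 b n
    else if partner ps b ∈ B then ent s.2.1 (partner ps b) n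
    else if n = partner ps b then 1 else 0

/-- marked bases obtained from the descriptors -/
def newL1 (S : List ℕ) (ps : List (ℕ × ℕ)) (ans : List (Desc × Bool)) : Lst :=
  ans.map fun a =>
    let z := ((a.1.2.2.filter fun p => decide (p.1 = a.1.1.2)).headD (0, a.1.1.2)).2
    (nor S (hyp ps a.1.1.1 a.1.1.2 a.1.2.2 ++ [z]), z)

/-- the marked bases of the pairs -/
def newL2 (S : List ℕ) (s : St) (ps : List (ℕ × ℕ)) : Lst :=
  ps.map fun p =>
    let T := if p.1 ∈ s.1.1 then
        (s.1.1.filter fun b => !decide (b = p.1)) ++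
          ((s.1.2.filter fun n => !decide (ent s.2.1 p.1 n = 0)).take 1)
      else s.1.1
    (nor S (T ++ ps.map fun q => q.2), p.2)

/-- marked bases containing the new element -/
def newL3 (S : List ℕ) (ps : List (ℕ × ℕ)) (y : ℕ) (ans : List (Desc × Bool)) : Lst :=
  ans.flatMap fun a => if a.2 then
    (ps.filter fun p => !decide (p ∈ a.1.2.2)).map fun p =>
      (nor S (hyp ps a.1.1.1 a.1.1.2 a.1.2.2 ++ [y]), p.2) else []

/-- doubly marked bases: old ones -/
def newP1 (S : List ℕ) (s : St) (ps : List (ℕ × ℕ)) : Lst2 :=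
  s.2.2.2.2.map fun p => (nor S (p.1 ++ ps.map fun q => q.2), p.2)

/-- doubly marked bases: circuits through a pair -/
def newP2 (S : List ℕ) (s : St) (ps : List (ℕ × ℕ)) : Lst2 :=
  s.2.2.2.1.flatMap fun q =>
    let c := fv (trM s.2.1) s.1.2 (dif (s.1.1 ++ s.1.2) q.1) q.2
    (ps.filter fun p => !decide (val (trM s.2.1) s.1.2 c p.1 = 0)).map fun p =>
      if q.2 = p.1 then (nor S (q.1 ++ ps.map fun r => r.2), (p.2, p.1))
      else (nor S ((q.1.filter fun t => !decide (t = p.1)) ++ [q.2] ++ ps.map fun r => r.2),
        (p.2, p.1))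

/-- doubly marked bases: circuits through the new element -/
def newP3 (D : Mx) (B : List ℕ) (y : ℕ) (l : Lst) : Lst2 :=
  (l.filter fun p => !decide (val D B (fv D B p.1 p.2) y = 0)).map fun p => (p.1, (p.2, y))

/-- the list of the circuits: old ones -/
def newC1 (S : List ℕ) (s : St) (ps : List (ℕ × ℕ)) : Lst :=
  s.2.2.2.1.map fun p => (nor S (p.1 ++ ps.map fun q => q.2), p.2)

/-- the list of the circuits: through the new element -/
def newC2 (S : List ℕ) (y : ℕ) (l : Lst2) : Lst :=
  l.flatMap fun p => [(p.1, y), (nor S ((p.1.filter fun t => !decide (t = p.2.1)) ++ [p.2.2]), y)]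

/-- prune the three lists -/
def pruneSt (B N : List ℕ) (D : Mx) (L Lc : Lst) (P : Lst2) : St :=
  ((B, N), (D,
    ((prune (L.map fun p => (p, phiH (fv D B p.1 p.2)))).take (idx2 B).length,
    ((prune (Lc.map fun p => (p, phiH (fv (trM D) N (dif (B ++ N) p.1) p.2)))).take
        (idx2 N).length,
      (prune (P.map fun p => (p, phiP D B N p.1 p.2.1 p.2.2))).take
        ((idx2 (B ++ N)).length + (idx2 (B ++ N)).length)))))

/-- the new state, computed from the answers -/
def update (s : St) (ps : List (ℕ × ℕ)) (y : ℕ) (ans : List (Desc × Bool)) : St :=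
  let c := column s.2.1 s.1.1 ps ans
  let B := s.1.1 ++ ps.map fun p => p.2
  let N := s.1.2 ++ [y]
  let S := B ++ N
  let D := newD s ps y c
  let L1 := newL1 S ps ans ++ newL2 S s ps
  let P1 := newP1 S s ps ++ newP2 S s ps
  pruneSt B N D (L1 ++ newL3 S ps y ans) (newC1 S s ps ++ newC2 S y P1)
    (P1 ++ newP3 D B y L1)

/-! ## Questions to the oracle -/

/-- the characteristic word of a set -/
def word (E T : List ℕ) : List Bool := E.map fun e => decide (e ∈ T)

/-- is `P` a basis of the minor on `S` (of its dual if `d`), `T` being a basis of the matroid -/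
def bs (X : Oracle) (E T S : List ℕ) (d : Bool) (P : List ℕ) : Bool :=
  X (word E (dif T S ++ if d then dif S P else P))

/-- the ground set of a state -/
def grnd (s : St) (ps : List (ℕ × ℕ)) (y : ℕ) : List ℕ :=
  (s.1.1 ++ ps.map fun p => p.2) ++ (s.1.2 ++ [y])

/-- one step of the reconstruction; a record is (type, new element, pairs) -/
def buildStep (X : Oracle) (ET : List ℕ × List ℕ) (s : St) (r : Bool × (ℕ × List (ℕ × ℕ))) : St :=
  let s' := if r.1 then dualSt s else s
  let ans := (descs s' r.2.2).map fun q =>
    (q, bs X ET.1 ET.2 (grnd s' r.2.2 r.2.1) r.1 (descSet r.2.2 r.2.1 q))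
  let s'' := update s' r.2.2 r.2.1 ans
  if r.1 then dualSt s'' else s''

/-! ## The start: four elements -/

/-- all pairs of different elements -/
def twos (S : List ℕ) : List (List ℕ) :=
  S.flatMap fun a => (S.filter fun b => !decide (b = a)).map fun b => nor S [a, b]

/-- the state of `U_{2,4}` -/
def baseSt (T S : List ℕ) : St :=
  let B := nor S T
  let N := dif S T
  ((B, N), (mk B N fun b n => if b = B.headD 0 ∨ n = N.headD 0 then 1 else F4.om,
    ((twos S).flatMap fun t => t.map fun z => (t, z),
    ((twos S).flatMap fun t => (dif S t).map fun x => (t, x),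
     (twos S).flatMap fun t => t.flatMap fun z => (dif S t).map fun x => (t, (z, x))))))

/-! ## Tables and separations -/

/-- rows, columns, bases at distance one and two -/
abbrev Tab : Type := (List ℕ × List ℕ) × (List (ℕ × ℕ) × List ((ℕ × ℕ) × (ℕ × ℕ)))

/-- is `T - P + Q` independent -/
def exq (X : Oracle) (E T P Q : List ℕ) : Bool := X (word E (dif T P ++ Q))

/-- pairs of different elements -/
def prs (l : List ℕ) : List (ℕ × ℕ) :=
  l.flatMap fun a => (l.filter fun b => !decide (b = a)).map fun b => (a, b)

/-- product of lists -/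
def prd {α β : Type} (l : List α) (m : List β) : List (α × β) := l.flatMap fun a => m.map fun b => (a, b)

/-- the table of the minor on `S` with respect to the basis `T` -/
def table (X : Oracle) (E T S : List ℕ) : Tab :=
  ((nor S T, dif S T),
    ((prd (nor S T) (dif S T)).filter fun p => exq X E T [p.1] [p.2],
     (prd (prs (nor S T)) (prs (dif S T))).filter fun p => exq X E T [p.1.1, p.1.2] [p.2.1, p.2.2]))

/-- exchange rows and columns -/
def swT (t : Tab) : Tab :=
  ((t.1.2, t.1.1), (t.2.1.map fun p => (p.2, p.1), t.2.2.map fun p => (p.2, p.1)))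

/-- restriction of a table -/
def resT (t : Tab) (S : List ℕ) : Tab :=
  ((nor t.1.1 S, nor t.1.2 S),
    (t.2.1.filter fun p => decide (p.1 ∈ S) && decide (p.2 ∈ S),
     t.2.2.filter fun p => (decide (p.1.1 ∈ S) && decide (p.1.2 ∈ S)) &&
      (decide (p.2.1 ∈ S) && decide (p.2.2 ∈ S))))

/-- ground set of a table -/
def gr (t : Tab) : List ℕ := t.1.1 ++ t.1.2

/-- the block (rows in `X`) x (columns outside `X`) is zero and the opposite block has rank at
most one -/
def oneSide (t : Tab) (X : List ℕ) : Bool :=
  (t.2.1.all fun p => !(decide (p.1 ∈ X) && !decide (p.2 ∈ X))) &&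
  (t.2.2.all fun p => !((!decide (p.1.1 ∈ X) && !decide (p.1.2 ∈ X)) &&
    (decide (p.2.1 ∈ X) && decide (p.2.2 ∈ X))))

/-- the connectivity of `X` is at most one -/
def lam1 (t : Tab) (X : List ℕ) : Bool := oneSide t X || oneSide t (dif (gr t) X)

/-- one step of the closure -/
def closStep (t : Tab) (b₀ c₀ : ℕ) (X : List ℕ) : List ℕ :=
  (gr t).filter fun e => decide (e ∈ X) ||
    ((t.2.1.any fun p => decide (p.2 = e) && decide (p.1 ∈ X)) ||
     (t.2.2.any fun p => (decide (p.1.1 = b₀) && decide (p.1.2 = e)) &&
      (decide (p.2.1 = c₀) && decide (p.2.2 ∈ X))))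

/-- the closure of `{c₀, x₁}` -/
def clos (t : Tab) (b₀ c₀ x₁ : ℕ) : List ℕ := (closStep t b₀ c₀)^[(gr t).length] [c₀, x₁]

/-- one step of the computation of a component -/
def compStep (t : Tab) (X : List ℕ) : List ℕ :=
  (gr t).filter fun e => decide (e ∈ X) ||
    (t.2.1.any fun p => (decide (p.2 = e) && decide (p.1 ∈ X)) ||
      (decide (p.1 = e) && decide (p.2 ∈ X)))

/-- connected component -/
def comp (t : Tab) (x : ℕ) : List ℕ := (compStep t)^[(gr t).length] [x]

/-- candidates for 2-separations, one orientation -/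
def seps2 (t : Tab) : List (List ℕ) :=
  (t.2.1.flatMap fun p => ((gr t).filter fun x => !decide (x = p.1) && !decide (x = p.2)).map
    fun x => clos t p.1 p.2 x).filter fun X => decide (X.length + 2 ≤ (gr t).length)

/-- candidates for separations -/
def seps (t : Tab) : List (List ℕ) :=
  (((gr t).map fun x => comp t x).filter fun X => decide (X.length + 1 ≤ (gr t).length)) ++
    (seps2 t ++ seps2 (swT t))

/-- 3-connectedness -/
def test3 (t : Tab) : Bool := decide (4 ≤ (gr t).length) && (seps t).isEmpty

/-! ## Cycles -/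

/-- the ends of a path -/
def ends (p : List ℕ) : ℕ × ℕ := (p.headD 0, p.reverse.headD 0)

/-- prolongations of a path -/
def extend (H : List (ℕ × ℕ)) (p : List ℕ) : List (List ℕ) :=
  H.flatMap fun e => (if p.headD 0 = e.1 then [e.2 :: p] else []) ++
    (if p.headD 0 = e.2 then [e.1 :: p] else [])

/-- insert a path if there is none with the same ends -/
def insP (l : List (List ℕ)) (p : List ℕ) : List (List ℕ) :=
  if l.any fun q => decide (ends q = ends p) then l else l ++ [p]

/-- one round -/
def pathStep (H : List (ℕ × ℕ)) (l : List (List ℕ)) : List (List ℕ) :=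
  (l.flatMap fun p => extend H p).foldl insP l

/-- shortest paths, one for every pair of connected vertices, in the order of their length -/
def paths (H : List (ℕ × ℕ)) (S : List ℕ) : List (List ℕ) :=
  (pathStep H)^[S.length] (S.map fun v => [v])

/-- add an edge to `H`, and a chordless cycle to the output if the edge closes one -/
def cycStep (G : List (ℕ × ℕ)) (S : List ℕ) (s : List (ℕ × ℕ) × List (List ℕ)) :
    List (ℕ × ℕ) × List (List ℕ) :=
  let rest := G.filter fun e => !decide (e ∈ s.1)
  let c := (paths s.1 S).filter fun p => decide (ends p ∈ rest)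
  if c.isEmpty then (s.1 ++ rest.take 1, s.2)
  else (s.1 ++ [ends (c.headD [])], s.2 ++ [c.headD []])

/-- a list of chordless cycles of the graph of the table -/
def cycs (t : Tab) : List (List ℕ) := ((cycStep t.2.1 (gr t))^[t.2.1.length] ([], [])).2

/-- is the minor (given by its table) nonbinary -/
def nonbin (X : Oracle) (E T : List ℕ) (t : Tab) : Bool :=
  (cycs t).any fun P => X (word E (dif T P ++ dif P T))

/-! ## The chain of minors -/

/-- exchange two elements of a basis -/
def swp (T : List ℕ) (y e : ℕ) : List ℕ :=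
  if y ∈ T then (T.filter fun x => !decide (x = y)) ++ [e]
  else (T.filter fun x => !decide (x = e)) ++ [y]

/-- the pairs of connectivity one: foldl step over the rows -/
def pairStep (t : Tab) (l : List (ℕ × ℕ)) (b : ℕ) : List (ℕ × ℕ) :=
  if l.any fun p => decide (p.1 = b) || decide (p.2 = b) then l
  else l ++ (((gr t).filter fun a => !decide (a = b) &&
    (!(l.any fun p => decide (p.1 = a) || decide (p.2 = a)) && lam1 t [a, b])).take 1).map
      fun a => (a, b)

/-- the pairs -/
def pairsOf (t : Tab) : List (ℕ × ℕ) := t.1.1.foldl (pairStep t) []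

/-- information on a candidate: (possible, new basis, new ground set, pairs) -/
abbrev Info : Type := Bool × (List ℕ × (List ℕ × List (ℕ × ℕ)))

/-- the new basis for the candidate `(d, y)` -/
def pivT (t : Tab) (T : List ℕ) (d : Bool) (y : ℕ) : Bool × List ℕ :=
  let t' := if d then swT t else t
  let c := (t'.2.1.filter fun p => decide (p.1 = y)).map fun p => p.2
  if y ∈ t'.1.1 then (!c.isEmpty, swp T y (c.headD 0)) else (true, T)

/-- one candidate: remove `y` (delete it in the view `d`) and contract one element of each pair -/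
def candInfo (X : Oracle) (E T S : List ℕ) (d : Bool) (y : ℕ) : Info :=
  let p := pivT (table X E T S) T d y
  let S₁ := S.filter fun e => !decide (e = y)
  let t := table X E p.2 S₁
  let ps := pairsOf (if d then swT t else t)
  let S₂ := S₁.filter fun e => !decide (e ∈ ps.map fun q => q.2)
  let t₂ := resT t S₂
  (p.1 && (test3 t₂ && nonbin X E p.2 t₂), (p.2, (S₂, ps)))

/-- state of the chain: basis, ground set, records (the last one first) -/
abbrev Ch : Type := List ℕ × (List ℕ × List (Bool × (ℕ × List (ℕ × ℕ))))

/-- one step of the chain -/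
def chainStep (X : Oracle) (E : List ℕ) (s : Ch) : Ch :=
  if s.2.1.length ≤ 4 then s else
    let c := ((prd [false, true] s.2.1).map fun q => (q, candInfo X E s.1 s.2.1 q.1 q.2)).filter
      fun q => q.2.1
    if c.isEmpty then s else
      let q := c.headD ((false, 0), (false, ([], ([], []))))
      (q.2.2.1, (q.2.2.2.1, (q.1.1, (q.1.2, q.2.2.2.2)) :: s.2.2))

/-- the whole chain -/
def chain (X : Oracle) (E T S : List ℕ) : Ch := (chainStep X E)^[S.length] (T, (S, []))

/-- change of basis of the result -/
def toBase (T S : List ℕ) (s : St) : Mx :=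
  mk (nor S T) (dif S T) fun b n => val s.2.1 s.1.1 (fv s.2.1 s.1.1 (nor S T) b) n

/-- the matrix of a piece (small, binary, or 3-connected nonbinary) -/
def piece (X : Oracle) (E T S : List ℕ) : Mx :=
  let t := table X E T S
  if decide (S.length ≤ 3) || !nonbin X E T t then
    mk (nor S T) (dif S T) fun b n => if (b, n) ∈ t.2.1 then 1 else 0
  else
    let c := chain X E T S
    toBase T S (c.2.2.foldl (buildStep X (E, c.1)) (baseSt c.1 c.2.1))

/-! ## Decomposition and glueing -/

/-- a cut: kind (0, 1, 2), the set, the crossing edge -/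
abbrev Cut : Type := ℕ × (List ℕ × (ℕ × ℕ))

/-- a shortest list -/
def shortest (l : List (List ℕ)) : List ℕ :=
  l.foldl (fun s X => if X.length + 1 ≤ s.length then X else s) (l.headD [])

/-- the cut given by `X` -/
def cutOf (t : Tab) (X : List ℕ) : Cut :=
  let e₁ := t.2.1.filter fun p => !decide (p.1 ∈ X) && decide (p.2 ∈ X)
  let e₂ := t.2.1.filter fun p => decide (p.1 ∈ X) && !decide (p.2 ∈ X)
  if !e₁.isEmpty then (1, (X, e₁.headD (0, 0)))
  else if !e₂.isEmpty then (2, (X, e₂.headD (0, 0)))
  else (0, (X, (0, 0)))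

/-- the ground set of the piece cut off -/
def cutX (c : Cut) : List ℕ :=
  if c.1 = 1 then c.2.1 ++ [c.2.2.1] else if c.1 = 2 then c.2.1 ++ [c.2.2.2] else c.2.1

/-- the ground set of the rest -/
def cutY (S : List ℕ) (c : Cut) : List ℕ :=
  if c.1 = 1 then dif S c.2.1 ++ [c.2.2.2] else if c.1 = 2 then dif S c.2.1 ++ [c.2.2.1]
  else dif S c.2.1

/-- cut off one piece -/
def peelStep (s : Tab × List (Cut × List ℕ)) : Tab × List (Cut × List ℕ) :=
  if (seps s.1).isEmpty then s else
    let c := cutOf s.1 (shortest (seps s.1))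
    (resT s.1 (cutY (gr s.1) c), (c, cutY (gr s.1) c) :: s.2)

/-- the decomposition: table of the last piece and the cuts (the last one first), with the
ground sets of the rest -/
def peel (t : Tab) : Tab × List (Cut × List ℕ) := (peelStep)^[(gr t).length] (t, [])

/-- glue the matrix of the piece (`DX`) and the matrix of the rest (`DY`) -/
def glueM (T : List ℕ) (c : Cut) (SY : List ℕ) (DX DY : Mx) : Mx :=
  let S := c.2.1 ++ dif SY c.2.1
  let k : F4 := if c.1 = 0 then 1 else ent DX c.2.2.1 c.2.2.2 * (ent DY c.2.2.1 c.2.2.2)⁻¹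
  mk (nor S T) (dif S T) fun b n =>
    if b ∈ cutX c ∧ n ∈ cutX c then ent DX b n
    else if b ∈ SY ∧ n ∈ SY then k * ent DY b n
    else if c.1 = 1 ∧ ¬ b ∈ c.2.1 ∧ n ∈ c.2.1 then
      k * ent DY b c.2.2.2 * ent DX c.2.2.1 n * (ent DX c.2.2.1 c.2.2.2)⁻¹
    else if c.1 = 2 ∧ b ∈ c.2.1 ∧ ¬ n ∈ c.2.1 then
      ent DX b c.2.2.2 * (k * ent DY c.2.2.1 n) * (ent DX c.2.2.1 c.2.2.2)⁻¹
    else 0

/-- a basis, greedily -/
def greedy (X : Oracle) (E : List ℕ) : List ℕ :=
  E.foldl (fun T e => if X (word E (T ++ [e])) then T ++ [e] else T) []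

/-- the algorithm: input in unary, output the rows of a matrix -/
def alg (X : Oracle) (a : List Bool) : List (List F4) :=
  let E := List.range a.length
  let T := greedy X E
  let p := peel (table X E T E)
  let D := (p.2.map fun c => (c, piece X E T (cutX c.1))).foldl
    (fun D c => glueM T c.1.1 c.1.2 c.2 D) (piece X E T (gr p.1))
  T.map fun b => E.map fun e => cvb D T e b

end Pool.Agent.G4
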