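import Pool.Agent.G4.UPPiece

set_option autoImplicit false

/-!
# The algorithm is polynomial
-/

namespace Pool.Agent.G4

open Turing Function N487b59b3 N68a2faeb Pool.Agent.Helper22 Pool.Agent.Helper49.Cons
open Pool.Agent.Helper6.WB

/-! ## Decomposition -/

theorem sz_resT (t : Tab) (S : List ℕ) : sz (resT t S) ≤ sz t := by
  obtain ⟨⟨a, b⟩, c, d⟩ := t
  unfold resT
  have h1 := sz_filter_le (fun e => decide (e ∈ S)) a
  have h2 := sz_filter_le (fun e => decide (e ∈ S)) b
  have h3 := sz_filter_le (fun p : ℕ × ℕ => decide (p.1 ∈ S) && decide (p.2 ∈ S)) c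
  have h4 := sz_filter_le (fun p : (ℕ × ℕ) × (ℕ × ℕ) =>
    (decide (p.1.1 ∈ S) && decide (p.1.2 ∈ S)) && (decide (p.2.1 ∈ S) && decide (p.2.2 ∈ S))) d
  unfold nor
  simp only [sz_pair]
  omega

/-- the new record -/
def prec (t : Tab) : Cut × List ℕ :=
  (cutOf t (shortest (seps t)), cutY (gr t) (cutOf t (shortest (seps t))))

theorem fp_prec : FP prec := by unfold prec; fun_prop

theorem peelStep_eq (s : Tab × List (Cut × List ℕ)) : peelStep s =
    if (seps s.1).isEmpty then s else (resT s.1 (prec s.1).2, prec s.1 :: s.2) := rfl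

theorem peel_bound {B : ℕ → ℕ} (hBm : Monotone B) (hB : ∀ t, sz (prec t) ≤ B (sz t)) (t : Tab)
    (i : ℕ) (hi : i ≤ (gr t).length) :
    sz (peelStep^[i] (t, [])) ≤ 2 * sz t + 1 + sz t * (2 * B (sz t) + 1) := by
  have key := iterate_ind (P := fun i s => sz s.1 ≤ sz t ∧ s.2.length ≤ i ∧
      ∀ r ∈ s.2, sz r ≤ B (sz t)) (f := peelStep) (x := (t, [])) ⟨le_rfl, by simp, by simp⟩ (by
    rintro i s ⟨h1, h2, h3⟩
    rw [peelStep_eq]
    split
    · exact ⟨h1, by omega, h3⟩
    · refine ⟨(sz_resT _ _).trans h1, ?_, ?_⟩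
      · rw [List.length_cons]; omega
      · intro r hr
        rcases List.mem_cons.1 hr with rfl | hr
        · exact (hB _).trans (hBm h1)
        · exact h3 r hr) i
  obtain ⟨h1, h2, h3⟩ := key
  generalize peelStep^[i] (t, []) = s at *
  obtain ⟨a, b⟩ := s
  dsimp only at h1 h2 h3
  rw [sz_pair]
  have h4 := sz_le_length_mul h3
  have h5 : b.length * (2 * B (sz t) + 1) ≤ sz t * (2 * B (sz t) + 1) := by
    apply Nat.mul_le_mul_right
    have := length_le_sz (gr t)
    have := sz_gr t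
    omega
  omega

theorem fp_peel : FP peel := by
  obtain ⟨B, hB, hBm, hBle⟩ := fp_prec.bound
  unfold peel
  exact FP.iterA (f := fun (_ : Tab) s => peelStep s) (by fun_prop)
    (B := fun n => 2 * n + 1 + n * (2 * B n + 1)) (by fun_prop) (by fun_prop) (by fun_prop)
    fun t i hi => peel_bound hBm hBle t i hi

/-! ## A basis -/

theorem up_greedy : UP greedy := by
  unfold greedy
  have h1 : UP fun X (p : List ℕ × (List ℕ × ℕ)) =>
      if X (word p.1 (p.2.1 ++ [p.2.2])) then p.2.1 ++ [p.2.2] else p.2.1 :=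
    UP.ite (UP.ask' (UP.of_FP (by fun_prop))) (UP.of_FP (by fun_prop)) (UP.of_FP (by fun_prop))
  refine UP.foldA (g := fun X (E : List ℕ) (T : List ℕ) (e : ℕ) =>
    if X (word E (T ++ [e])) then T ++ [e] else T) (l := fun _ E => E) (x := fun _ _ => []) h1
    (B := fun n => n * (2 * n + 1)) (by fun_prop) UP.id (UP.const []) fun X E i hi => ?_
  have h2 := foldl_take_ind (P := fun i s => sz s ≤ i * (2 * sz E + 1))
    (g := fun (T : List ℕ) (e : ℕ) => if X (word E (T ++ [e])) then T ++ [e] else T) (l := E)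
    (x := []) (by simp) (by
      intro i s e he hs
      have h3 := sz_mem_le he
      have h5 : (i + 1) * (2 * sz E + 1) = i * (2 * sz E + 1) + (2 * sz E + 1) := by ring
      split
      · rw [sz_append, sz_cons, sz_nil]
        omega
      · omega) i hi
  exact h2.trans (Nat.mul_le_mul_right _ (hi.trans (length_le_sz E)))

/-! ## Glueing -/

theorem sz_mk (R C : List ℕ) (g : ℕ → ℕ → F4) (n : ℕ) (hR : sz R ≤ n) (hC : sz C ≤ n) :
    sz (mk R C g) ≤ (n * n) * (2 * (2 * (3 * n + 1) + 1 + 4) + 1) := by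
  refine (sz_le_length_mul (C := 2 * (3 * n + 1) + 1 + 4) ?_).trans (Nat.mul_le_mul_right _ ?_)
  · rintro ⟨⟨b, m⟩, x⟩ hp
    obtain ⟨h1, h2⟩ := mem_mk hp
    have h3 := (sz_mem_le h1).trans hR
    have h4 := (sz_mem_le h2).trans hC
    dsimp only at h3 h4
    simp only [sz_pair, sz_F4]
    omega
  · rw [length_mk]
    have h1 := length_le_sz R
    have h2 := length_le_sz C
    exact Nat.mul_le_mul (by omega) (by omega)

theorem sz_glueM (T : List ℕ) (c : Cut) (SY : List ℕ) (DX DY : Mx) (n : ℕ)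
    (h : sz c + sz SY ≤ n) :
    sz (glueM T c SY DX DY) ≤ (n * n) * (2 * (2 * (3 * n + 1) + 1 + 4) + 1) := by
  obtain ⟨a, X, e⟩ := c
  have h1 : sz (X ++ dif SY X) ≤ n := by
    have h2 := sz_filter_le (fun e => !decide (e ∈ X)) SY
    unfold dif
    simp only [sz_append, sz_pair] at h ⊢
    omega
  unfold glueM
  exact sz_mk _ _ _ n ((sz_filter_le _ _).trans h1) ((sz_filter_le _ _).trans h1)

/-- the glueing of all pieces: input `(T, (list, matrix))` -/
def glueAll (w : List ℕ × (List ((Cut × List ℕ) × Mx) × Mx)) : Mx :=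
  w.2.1.foldl (fun D c => glueM w.1 c.1.1 c.1.2 c.2 D) w.2.2

theorem fp_glueAll : FP glueAll := by
  unfold glueAll
  refine FP.foldA (g := fun (w : List ℕ × (List ((Cut × List ℕ) × Mx) × Mx)) (D : Mx)
    (c : (Cut × List ℕ) × Mx) => glueM w.1 c.1.1 c.1.2 c.2 D)
    (l := fun w => w.2.1) (x := fun w => w.2.2) (by fun_prop)
    (B := fun n => n + (n * n) * (2 * (2 * (3 * n + 1) + 1 + 4) + 1)) (by fun_prop)
    (by fun_prop) (by fun_prop) fun w i hi => ?_
  obtain ⟨T, l, D⟩ := w
  set n := sz (T, l, D) with hn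
  have hl : sz l ≤ n ∧ sz D ≤ n := by
    rw [hn]
    simp only [sz_pair]
    omega
  refine foldl_take_ind (P := fun _ s => sz s ≤ n + (n * n) * (2 * (2 * (3 * n + 1) + 1 + 4) + 1))
    (g := fun D c => glueM T c.1.1 c.1.2 c.2 D) (l := l) (x := D) ?_ ?_ i hi
  · omega
  · rintro i s ⟨⟨c, SY⟩, DX⟩ hc _
    have h1 := (sz_mem_le hc).trans hl.1
    simp only [sz_pair] at h1
    have h2 := sz_glueM T c SY DX s n (by omega)
    exact h2.trans (by omega)

/-! ## The algorithm -/

/-- ground set, basis -/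
def alET (X : Oracle) (a : List Bool) : List ℕ × List ℕ :=
  (List.range a.length, greedy X (List.range a.length))

theorem up_alET : UP alET := by
  have h1 : FP fun a : List Bool => List.range a.length := by fun_prop
  exact UP.pair (UP.of_FP h1) (up_greedy.comp (UP.of_FP h1))

/-- the decomposition -/
def alP (X : Oracle) (q : List ℕ × List ℕ) : Tab × List (Cut × List ℕ) :=
  peel (table X q.1 q.2 q.1)

theorem up_alP : UP alP :=
  UP.fp fp_peel (up_table (UP.of_FP (by fun_prop)) (UP.of_FP (by fun_prop))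
    (UP.of_FP (by fun_prop)))

/-- the matrices of the pieces cut off -/
def alL (X : Oracle) (v : (List ℕ × List ℕ) × (Tab × List (Cut × List ℕ))) :
    List ((Cut × List ℕ) × Mx) := v.2.2.map fun c => (c, piece X v.1.1 v.1.2 (cutX c.1))

theorem up_alL : UP alL := by
  unfold alL
  refine UP.mapA (h := fun X (v : (List ℕ × List ℕ) × (Tab × List (Cut × List ℕ)))
    (c : Cut × List ℕ) => (c, piece X v.1.1 v.1.2 (cutX c.1)))
    (l := fun _ v => v.2.2) (UP.pair (UP.of_FP (by fun_prop)) ?_) (UP.of_FP (by fun_prop))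
  exact up_piece.pre (f := fun v : ((List ℕ × List ℕ) × (Tab × List (Cut × List ℕ))) ×
    (Cut × List ℕ) => ((v.1.1.1, (v.1.1.2, cutX v.2.1)) : PIn)) (by fun_prop)

/-- the matrix of the last piece -/
def alD0 (X : Oracle) (v : (List ℕ × List ℕ) × (Tab × List (Cut × List ℕ))) : Mx :=
  piece X v.1.1 v.1.2 (gr v.2.1)

theorem up_alD0 : UP alD0 :=
  up_piece.pre (f := fun v : (List ℕ × List ℕ) × (Tab × List (Cut × List ℕ)) =>
    ((v.1.1, (v.1.2, gr v.2.1)) : PIn)) (by fun_prop)

/-- the matrix -/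
def alD (X : Oracle) (v : (List ℕ × List ℕ) × (Tab × List (Cut × List ℕ))) : Mx :=
  glueAll (v.1.2, (alL X v, alD0 X v))

theorem up_alD : UP alD :=
  UP.fp fp_glueAll (UP.pair (UP.of_FP (by fun_prop)) (UP.pair up_alL up_alD0))

/-- the output -/
def alOut (w : (List ℕ × List ℕ) × Mx) : List (List F4) :=
  w.1.2.map fun b => w.1.1.map fun e => cvb w.2 w.1.2 e b

theorem fp_alOut : FP alOut := by unfold alOut; fun_prop

/-- everything after the basis -/
def alAll (X : Oracle) (q : List ℕ × List ℕ) : List (List F4) := alOut (q, alD X (q, alP X q))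

theorem up_alAll : UP alAll := by
  have h1 : UP fun X (q : List ℕ × List ℕ) => alD X (q, alP X q) :=
    up_alD.comp (UP.pair UP.id up_alP)
  exact UP.fp fp_alOut (UP.pair UP.id h1)

theorem alg_eq (X : Oracle) (a : List Bool) : alg X a = alAll X (alET X a) := rfl

/-- the algorithm is a polynomial time oracle procedure -/
theorem alg_up : UP fun X (a : List Bool) => alg X a :=
  (up_alAll.comp up_alET).congr alg_eq

end Pool.Agent.G4
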