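import Pool.Agent.G4.Defs

set_option autoImplicit false

/-!
# The field with four elements: lemmas
-/

namespace Pool.Agent.G4

open F4 Finset

theorem conj_conj (x : F4) : conj (conj x) = x := by revert x; decide

theorem conj_add (x y : F4) : conj (x + y) = conj x + conj y := by revert x y; decide

theorem conj_mul (x y : F4) : conj (x * y) = conj x * conj y := by revert x y; decide

@[simp] theorem conj_zero : conj 0 = 0 := by decide

@[simp] theorem conj_one : conj 1 = 1 := by decide

theorem conj_eq_zero (x : F4) : conj x = 0 ↔ x = 0 := by revert x; decide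

theorem inv_eq_conj (x : F4) : x⁻¹ = conj x := rfl

theorem conj_inv (x : F4) : conj x⁻¹ = (conj x)⁻¹ := rfl

theorem conj_sum {ι : Type} (s : Finset ι) (f : ι → F4) : conj (∑ i ∈ s, f i) = ∑ i ∈ s, conj (f i) :=
  map_sum conjHom f s

theorem nm_eq (x : F4) : nm x = if x = 0 then 0 else 1 := by revert x; decide

theorem nm_mul (x y : F4) : nm (x * y) = nm x * nm y := by revert x y; decide

theorem tr_eq_zero (x : F4) : tr x = 0 ↔ x = 0 ∨ x = 1 := by revert x; decide

theorem tr_add (x y : F4) : tr (x + y) = tr x + tr y := by revert x y; decide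

theorem tr_conj (x : F4) : tr (conj x) = tr x := by revert x; decide

@[simp] theorem tr_zero : tr 0 = 0 := by decide

theorem tr_sum {ι : Type} (s : Finset ι) (f : ι → F4) : tr (∑ i ∈ s, f i) = ∑ i ∈ s, tr (f i) := by
  unfold tr
  rw [conj_sum, ← Finset.sum_add_distrib]

theorem tr_mul_inv (x y : F4) : tr (y * x⁻¹) = tr (y * conj x) := rfl

theorem nm_add (x y : F4) : nm (x + y) = nm x + nm y + tr (x * conj y) := by revert x y; decide

theorem tr_real_mul (c x : F4) (hc : c = 0 ∨ c = 1) : tr (c * x) = c * tr x := by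
  rcases hc with rfl | rfl
  · simp
  · simp

theorem eq_zero_of_tr (x : F4) (h : ∀ y, tr (y * x) = 0) : x = 0 := by revert x; decide

theorem mul_conj_self (x : F4) (hx : x ≠ 0) : x * conj x = 1 := by revert x; decide

/-- a nonzero vector and a second vector whose rank two form vanishes -/
theorem herm_rank_two (B : Finset ℕ) (w a : ℕ → F4) (ha : ∃ b ∈ B, a b ≠ 0)
    (h : ∀ i ∈ B, ∀ j ∈ B, two w a i j = 0) :
    ∃ c : F4, (c = 0 ∨ c = 1) ∧ ∀ b ∈ B, w b = c * a b := by
  obtain ⟨b, hb, hab⟩ := ha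
  have key : ∀ x y : F4, y ≠ 0 → x * conj y + y * conj x = 0 →
      (x * conj y = 0 ∨ x * conj y = 1) := by decide
  have hc := key (w b) (a b) hab (h b hb b hb)
  refine ⟨w b * conj (a b), hc, fun i hi => ?_⟩
  have h1 := h i hi b hb
  have key2 : ∀ x y z t : F4, y ≠ 0 → (z * conj y = 0 ∨ z * conj y = 1) →
      x * conj y + t * conj z = 0 → x = z * conj y * t := by decide
  exact key2 (w i) (a b) (w b) (a i) hab hc h1

theorem rank_one_eq (B : Finset ℕ) (v w : ℕ → F4)
    (h : ∀ i ∈ B, ∀ j ∈ B, v i * conj (v j) = w i * conj (w j)) :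
    ∃ c : F4, c ≠ 0 ∧ ∀ b ∈ B, w b = c * v b := by
  by_cases hw : ∃ b ∈ B, w b ≠ 0
  · obtain ⟨b, hb, hwb⟩ := hw
    have key : ∀ x y : F4, y ≠ 0 → x * conj x = y * conj y → x ≠ 0 := by decide
    have hvb := key (v b) (w b) hwb (h b hb b hb)
    refine ⟨w b * conj (v b), ?_, fun i hi => ?_⟩
    · intro h0
      rcases mul_eq_zero.1 h0 with h0 | h0
      · exact hwb h0
      · exact hvb ((conj_eq_zero _).1 h0)
    · have h1 := h i hi b hb
      have key2 : ∀ x y z t : F4, y ≠ 0 → z ≠ 0 → x * conj y = t * conj z → t = z * conj y * x := by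
        decide
      exact key2 (v i) (v b) (w b) (w i) hvb hwb h1
  · push Not at hw
    refine ⟨1, one_ne_zero, fun i hi => ?_⟩
    have h1 := h i hi i hi
    rw [hw i hi] at h1
    have key : ∀ x : F4, x * conj x = 0 * conj 0 → x = 0 := by decide
    rw [hw i hi, key _ h1, mul_zero]

theorem herm_two (w a : ℕ → F4) : Herm (two w a) := by
  intro i j
  unfold two
  rw [conj_add, conj_mul, conj_mul, conj_conj, conj_conj]
  ring

theorem qf_two (B : Finset ℕ) (w a f : ℕ → F4) :
    qf B (two w a) f = tr ((∑ b ∈ B, f b * w b) * conj (∑ b ∈ B, f b * a b)) := by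
  have h1 : ∀ x y : F4, tr (x * conj y) = x * conj y + y * conj x := by decide
  rw [h1, conj_sum, conj_sum, Finset.sum_mul_sum, Finset.sum_mul_sum, ← Finset.sum_add_distrib]
  unfold qf two
  refine Finset.sum_congr rfl fun i _ => ?_
  rw [← Finset.sum_add_distrib]
  refine Finset.sum_congr rfl fun j _ => ?_
  rw [conj_mul, conj_mul]
  ring

theorem qf_smul (B : Finset ℕ) (W : ℕ → ℕ → F4) (c : F4) (f : ℕ → F4) :
    qf B W (fun b => c * f b) = nm c * qf B W f := by
  unfold qf nm
  rw [Finset.mul_sum]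
  refine Finset.sum_congr rfl fun i _ => ?_
  rw [Finset.mul_sum]
  refine Finset.sum_congr rfl fun j _ => ?_
  rw [conj_mul]
  ring

theorem qf_congr (B : Finset ℕ) (W : ℕ → ℕ → F4) (f g : ℕ → F4) (h : ∀ b ∈ B, f b = g b) :
    qf B W f = qf B W g := by
  unfold qf
  refine Finset.sum_congr rfl fun i hi => Finset.sum_congr rfl fun j hj => ?_
  rw [h i hi, h j hj]

theorem qf_rank_one (B : Finset ℕ) (v f : ℕ → F4) :
    qf B (fun i j => v i * conj (v j)) f = nm (∑ b ∈ B, f b * v b) := by
  unfold qf nm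
  rw [conj_sum, Finset.sum_mul_sum]
  refine Finset.sum_congr rfl fun i _ => Finset.sum_congr rfl fun j _ => ?_
  rw [conj_mul]
  ring

/-! ## values of row vectors -/

variable (D : ℕ → ℕ → F4) (B : Finset ℕ)

theorem ev_mem (f : ℕ → F4) {e : ℕ} (he : e ∈ B) : ev D B f e = f e := by
  unfold ev col
  simp [he]

theorem ev_not_mem (f : ℕ → F4) {e : ℕ} (he : e ∉ B) : ev D B f e = ∑ b ∈ B, f b * D b e := by
  unfold ev col
  simp [he]

theorem ev_add (f g : ℕ → F4) (e : ℕ) :
    ev D B (fun b => f b + g b) e = ev D B f e + ev D B g e := by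
  unfold ev
  rw [← Finset.sum_add_distrib]
  exact Finset.sum_congr rfl fun b _ => by ring

theorem ev_smul (c : F4) (f : ℕ → F4) (e : ℕ) : ev D B (fun b => c * f b) e = c * ev D B f e := by
  unfold ev
  rw [Finset.mul_sum]
  exact Finset.sum_congr rfl fun b _ => by ring

theorem ev_congr {f g : ℕ → F4} (h : ∀ b ∈ B, f b = g b) (e : ℕ) : ev D B f e = ev D B g e := by
  unfold ev
  exact Finset.sum_congr rfl fun b hb => by rw [h b hb]

theorem ev_zero (e : ℕ) : ev D B (fun _ => 0) e = 0 := by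
  unfold ev
  simp

end Pool.Agent.G4
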