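import Pool.Agent.G4.R1
import Pool.Agent.G4.Fld

set_option autoImplicit false

/-!
# Module Br1: the rank function of a configuration of vectors

`rkv v P = finrank (span (v '' P))`.

* `isRk_rkv`: `empty`: the span of the empty set; `mono`: `Submodule.finrank_mono`; `unit`: the span of
  `insert e A` is `span {v e} ⊔ span (v '' A)`; `sub`: `Submodule.finrank_sup_add_finrank_inf_eq`,
  `span (v '' (A ∪ B)) = span (v '' A) ⊔ span (v '' B)`, `span (v '' (A ∩ B)) ≤ span .. ⊓ span ..`.
  (All spans are spans of finite sets, so finite dimensional: `FiniteDimensional.span_of_finite`.)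
* `ind_iff`: `linearIndependent_iff_card_eq_finrank_span` or `finrank_span_eq_card` and
  `linearIndependent_of_top_le_span_of_card_eq_finrank`-type lemmas (careful: `Set.range` of the
  family indexed by `↥P` is `v '' P`).
* `IsD.rk_S`: if `T ⊆ E` is independent and all `v e`, `e ∈ E`, are in the span of `v '' T` then
  `rkv v A = T.card` for `T ⊆ A ⊆ E`.
* `IsD.coord`: the coordinates of `v e` are unique, so `D t e = if e = t then 1 else 0` for
  `e, t ∈ T`.
-/

namespace Pool.Agent.G4

open F4 Finset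

section

variable {V : Type} [AddCommGroup V] [Module F4 V] {v : ℕ → V} {E T P A : Finset ℕ}
  {D : ℕ → ℕ → F4}

/-- all spans are finite dimensional -/
private theorem Br1_fd (v : ℕ → V) (P : Finset ℕ) :
    FiniteDimensional F4 (Submodule.span F4 (v '' (P : Set ℕ))) :=
  FiniteDimensional.span_of_finite F4 (P.finite_toSet.image v)

private theorem Br1_span_insert (v : ℕ → V) (e : ℕ) (A : Finset ℕ) :
    Submodule.span F4 (v '' ((insert e A : Finset ℕ) : Set ℕ)) =
      Submodule.span F4 {v e} ⊔ Submodule.span F4 (v '' (A : Set ℕ)) := by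
  rw [Finset.coe_insert, Set.image_insert_eq, Set.insert_eq, Submodule.span_union]

private theorem Br1_le (v : ℕ → V) {A B : Finset ℕ} (h : A ⊆ B) :
    Submodule.span F4 (v '' (A : Set ℕ)) ≤ Submodule.span F4 (v '' (B : Set ℕ)) :=
  Submodule.span_mono (Set.image_mono (Finset.coe_subset.2 h))

private theorem Br1_rk_mono (v : ℕ → V) {A B : Finset ℕ} (h : A ⊆ B) : rkv v A ≤ rkv v B := by
  have := Br1_fd v B
  unfold rkv
  exact_mod_cast Submodule.finrank_mono (Br1_le v h)

private theorem Br1_empty (v : ℕ → V) : rkv v ∅ = 0 := by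
  unfold rkv
  rw [Finset.coe_empty, Set.image_empty, Submodule.span_empty, finrank_bot]
  rfl

theorem isRk_rkv (v : ℕ → V) : IsRk (rkv v) := by
  refine ⟨?_, ?_, ?_, ?_⟩
  · exact Br1_empty v
  · intro A e
    exact Br1_rk_mono v (Finset.subset_insert e A)
  · intro A e
    have := Br1_fd v A
    have : FiniteDimensional F4 (Submodule.span F4 {v e}) :=
      FiniteDimensional.span_of_finite F4 (Set.finite_singleton _)
    unfold rkv
    rw [Br1_span_insert]
    have h1 := Submodule.finrank_add_le_finrank_add_finrank (Submodule.span F4 {v e})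
      (Submodule.span F4 (v '' (A : Set ℕ)))
    have h2 : Module.finrank F4 (Submodule.span F4 ({v e} : Set V)) ≤ 1 := by
      have := finrank_span_le_card (R := F4) ({v e} : Set V)
      simpa using this
    omega
  · intro A B
    have := Br1_fd v A
    have := Br1_fd v B
    have h1 := Submodule.finrank_sup_add_finrank_inf_eq (Submodule.span F4 (v '' (A : Set ℕ)))
      (Submodule.span F4 (v '' (B : Set ℕ)))
    have h2 : Submodule.span F4 (v '' ((A ∪ B : Finset ℕ) : Set ℕ)) =
        Submodule.span F4 (v '' (A : Set ℕ)) ⊔ Submodule.span F4 (v '' (B : Set ℕ)) := by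
      rw [Finset.coe_union, Set.image_union, Submodule.span_union]
    have h3 : Submodule.span F4 (v '' ((A ∩ B : Finset ℕ) : Set ℕ)) ≤
        Submodule.span F4 (v '' (A : Set ℕ)) ⊓ Submodule.span F4 (v '' (B : Set ℕ)) :=
      le_inf (Br1_le v Finset.inter_subset_left) (Br1_le v Finset.inter_subset_right)
    have h4 := Submodule.finrank_mono h3
    unfold rkv
    rw [h2]
    omega

private theorem Br1_ind_iff : ind v P ↔ LinearIndepOn F4 v (P : Set ℕ) := Iff.rfl

theorem ind_iff : ind v P ↔ rkv v P = (P.card : ℤ) := by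
  unfold ind rkv
  rw [linearIndependent_iff_card_eq_finrank_span, Fintype.card_coe, Set.finrank]
  have h1 : Set.range (fun e : P => v e) = v '' (P : Set ℕ) := by
    ext x
    simp
  rw [h1]
  constructor
  · intro h
    exact_mod_cast h.symm
  · intro h
    exact_mod_cast h.symm

theorem ind_mono (h : ind v P) (hA : A ⊆ P) : ind v A := by
  rw [Br1_ind_iff] at h ⊢
  exact h.mono (Finset.coe_subset.2 hA)

theorem ind_empty : ind v ∅ := by
  rw [ind_iff, Br1_empty, Finset.card_empty]
  rfl

private theorem Br1_mem (hD : IsD v E T D) {e : ℕ} (he : e ∈ E) :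
    v e ∈ Submodule.span F4 (v '' (T : Set ℕ)) := by
  rw [hD.2.2 e he]
  exact Submodule.sum_mem _ fun t ht =>
    Submodule.smul_mem _ _ (Submodule.subset_span (Set.mem_image_of_mem v (Finset.mem_coe.2 ht)))

private theorem Br1_span (hD : IsD v E T D) (h1 : T ⊆ A) (h2 : A ⊆ E) :
    Submodule.span F4 (v '' (A : Set ℕ)) = Submodule.span F4 (v '' (T : Set ℕ)) := by
  apply le_antisymm
  · rw [Submodule.span_le]
    rintro _ ⟨e, he, rfl⟩
    exact Br1_mem hD (h2 he)
  · exact Br1_le v h1

theorem IsD.rk_S (hD : IsD v E T D) (h1 : T ⊆ A) (h2 : A ⊆ E) : rkv v A = (T.card : ℤ) := by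
  have h3 : rkv v A = rkv v T := by
    unfold rkv
    rw [Br1_span hD h1 h2]
  rw [h3]
  exact ind_iff.1 hD.2.1

private theorem Br1_uniq {T : Finset ℕ} (hT : ind v T) (f g : ℕ → F4)
    (h : ∑ t ∈ T, f t • v t = ∑ t ∈ T, g t • v t) : ∀ t ∈ T, f t = g t := by
  have h1 : ∑ t ∈ T, (f t - g t) • v t = 0 := by
    simp only [sub_smul, Finset.sum_sub_distrib, h, sub_self]
  rw [Br1_ind_iff] at hT
  have h2 := linearIndepOn_finset_iff.1 hT (fun t => f t - g t) h1
  intro t ht
  exact sub_eq_zero.1 (h2 t ht)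

theorem IsD.coord (hD : IsD v E T D) {e t : ℕ} (he : e ∈ T) (ht : t ∈ T) :
    D t e = if e = t then 1 else 0 := by
  have h1 := hD.2.2 e (hD.1 he)
  have h2 : ∑ t ∈ T, (if e = t then (1 : F4) else 0) • v t = v e := by
    simp only [ite_smul, one_smul, zero_smul]
    rw [Finset.sum_ite_eq, if_pos he]
  exact Br1_uniq hD.2.1 (fun t => D t e) (fun t => if e = t then 1 else 0) (by rw [h2, ← h1]) t ht

private theorem Br1_isD (hT : T ⊆ E) (hi : ind v T)
    (h : ∀ e ∈ E, v e ∈ Submodule.span F4 (v '' (T : Set ℕ))) : ∃ D, IsD v E T D := by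
  have h1 : ∀ e : ℕ, ∃ c : ℕ → F4, e ∈ E → v e = ∑ t ∈ T, c t • v t := by
    intro e
    by_cases he : e ∈ E
    · obtain ⟨c, hc⟩ := Submodule.mem_span_image_finset_iff_exists_fun' F4 |>.1 (h e he)
      exact ⟨c, fun _ => hc.symm⟩
    · exact ⟨fun _ => 0, fun h => absurd h he⟩
  choose c hc using h1
  exact ⟨fun t e => c e t, hT, hi, fun e he => hc e he⟩

/-- an independent set with as many elements as the basis is a basis -/
theorem IsD.exists (hD : IsD v E T D) (hP : P ⊆ E) (hi : ind v P) (hc : P.card = T.card) :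
    ∃ D', IsD v E P D' := by
  apply Br1_isD hP hi
  intro e he
  have := Br1_fd v T
  have h1 : Submodule.span F4 (v '' (P : Set ℕ)) ≤ Submodule.span F4 (v '' (T : Set ℕ)) := by
    rw [Submodule.span_le]
    rintro _ ⟨e, he, rfl⟩
    exact Br1_mem hD (hP he)
  have h2 : Module.finrank F4 (Submodule.span F4 (v '' (P : Set ℕ))) =
      Module.finrank F4 (Submodule.span F4 (v '' (T : Set ℕ))) := by
    have h3 := ind_iff.1 hi
    have h4 := ind_iff.1 hD.2.1
    unfold rkv at h3 h4
    omega
  rw [Submodule.eq_of_le_of_finrank_eq h1 h2]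
  exact Br1_mem hD he

/-- a maximal independent set has a matrix -/
theorem exists_isD (hT : T ⊆ E) (hi : ind v T) (hm : ∀ e ∈ E, e ∉ T → ¬ ind v (insert e T)) :
    ∃ D, IsD v E T D := by
  apply Br1_isD hT hi
  intro e he
  by_cases heT : e ∈ T
  · exact Submodule.subset_span (Set.mem_image_of_mem v (Finset.mem_coe.2 heT))
  · by_contra hne
    apply hm e he heT
    rw [Br1_ind_iff, Finset.coe_insert, linearIndepOn_insert (by simpa using heT)]
    exact ⟨hi, hne⟩

/-- independent sets can be enlarged -/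
theorem IsD.extend (hD : IsD v E T D) (hP : P ⊆ E) (hi : ind v P) :
    P.card ≤ T.card ∧ ∃ P', P ⊆ P' ∧ P' ⊆ E ∧ P'.card = T.card ∧ ind v P' := by
  have hle : ∀ P ⊆ E, ind v P → P.card ≤ T.card := by
    intro P hP hi
    have h1 := ind_iff.1 hi
    have h2 := Br1_rk_mono v hP
    have h3 := hD.rk_S hD.1 (Finset.Subset.refl E)
    omega
  refine ⟨hle P hP hi, ?_⟩
  classical
  have hne : (E.powerset.filter fun Q => P ⊆ Q ∧ ind v Q).Nonempty :=
    ⟨P, Finset.mem_filter.2 ⟨Finset.mem_powerset.2 hP, Finset.Subset.refl P, hi⟩⟩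
  obtain ⟨Q, hQ, hmax⟩ := Finset.exists_max_image _ Finset.card hne
  rw [Finset.mem_filter, Finset.mem_powerset] at hQ
  obtain ⟨hQE, hPQ, hQi⟩ := hQ
  have hm : ∀ e ∈ E, e ∉ Q → ¬ ind v (insert e Q) := by
    intro e he heQ hie
    have h1 := hmax (insert e Q) (Finset.mem_filter.2 ⟨Finset.mem_powerset.2
      (Finset.insert_subset he hQE), hPQ.trans (Finset.subset_insert e Q), hie⟩)
    rw [Finset.card_insert_of_notMem heQ] at h1
    omega
  obtain ⟨D', hD'⟩ := exists_isD hQE hQi hm
  refine ⟨Q, hPQ, hQE, ?_, hQi⟩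
  have h1 := hD.rk_S hD.1 (Finset.Subset.refl E)
  have h2 := hD'.rk_S hD'.1 (Finset.Subset.refl E)
  omega

end

end Pool.Agent.G4
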