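import Pool.Agent.G4.Br1

set_option autoImplicit false

/-!
# Module Br2: ranks in the minor on `S` are ranks of blocks of the matrix

`S ⊆ E`, `T` a basis of `E`. PROOF of `rk_formula`: `(T \ S) ∪ X` spans the same space as the
independent set `T₀ = (T \ S) ∪ (X ∩ T)` together with the vectors `v n`, `n ∈ X \ T`. Modulo the span
of `T₀` the vectors `v t`, `t ∈ T \ T₀ = (T ∩ S) \ X`, are independent and
`v n = ∑_{t ∈ (T ∩ S) \ X} D t n • v t`. So the rank of `(T \ S) ∪ X` is
`T₀.card + rank of the matrix (D t n), t ∈ (T ∩ S) \ X, n ∈ X \ T`, and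
`rkv v (T \ S) = (T \ S).card` (`ind_iff`).
A way to do it: let `φ : (T →₀ F4) ≃ span (v '' T)` be the coordinates, or work with the linear map
`span (v '' E) → (((T ∩ S) \ X : Finset ℕ) → F4)`, coordinates at `(T ∩ S) \ X`: its kernel is
`span (v '' T₀)`, restricted to `span (v '' ((T \ S) ∪ X))` the image is the span of the columns, i.e.
of dimension `Matrix.rank` (`Matrix.rank_eq_finrank_span_cols`), and rank-nullity.
`brk_zero`: `Matrix.rank_eq_zero` (a matrix of rank zero is zero).
`brk_one`: `→`: if a 2x2 minor is not zero then `Matrix.rank` of the 2x2 submatrix is two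
(`Matrix.rank_submatrix_le`, careful with its hypotheses; or: two linearly independent columns in the
span of the columns). `←`: if some entry `D b₀ n₀ ≠ 0` then every column is
`(D b₀ n / D b₀ n₀) •` column `n₀`: the span of the columns is contained in a line.
-/

namespace Pool.Agent.G4

open F4 Finset

/-- rank of a block -/
noncomputable def brk (D : ℕ → ℕ → F4) (R C : Finset ℕ) : ℤ :=
  ((Matrix.of fun (b : R) (n : C) => D b n).rank : ℤ)

section

variable {V : Type} [AddCommGroup V] [Module F4 V] {v : ℕ → V} {E T S X R C : Finset ℕ}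
  {D : ℕ → ℕ → F4}

theorem brk_nonneg : 0 ≤ brk D R C := by
  unfold brk
  positivity

private theorem finrank_split {W U : Type} [AddCommGroup W] [Module F4 W] [Module.Finite F4 W]
    [AddCommGroup U] [Module F4 U] (f : W →ₗ[F4] U) (p : Submodule F4 W)
    (h : LinearMap.ker f ≤ p) :
    Module.finrank F4 p = Module.finrank F4 (p.map f) + Module.finrank F4 (LinearMap.ker f) := by
  have h1 := (f.domRestrict p).finrank_range_add_finrank_ker
  rw [LinearMap.range_domRestrict, LinearMap.ker_domRestrict,
    (Submodule.comapSubtypeEquivOfLe h).finrank_eq] at h1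
  exact h1.symm

theorem brk_zero : brk D R C ≤ 0 ↔ ∀ b ∈ R, ∀ n ∈ C, D b n = 0 := by
  unfold brk
  constructor
  · intro h
    have h1 : (Matrix.of fun (b : R) (n : C) => D b n).rank = 0 := by
      have : ((Matrix.of fun (b : R) (n : C) => D b n).rank : ℤ) ≤ 0 := h
      omega
    rw [Matrix.rank_eq_finrank_span_cols, Submodule.finrank_eq_zero, Submodule.span_eq_bot] at h1
    intro b hb n hn
    have := congrFun (h1 _ ⟨⟨n, hn⟩, rfl⟩) ⟨b, hb⟩
    simpa [Matrix.col] using this
  · intro h
    have : (Matrix.of fun (b : R) (n : C) => D b n) = 0 := by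
      ext b n
      simpa using h b b.2 n n.2
    rw [this, Matrix.rank_zero]
    simp

theorem brk_one : brk D R C ≤ 1 ↔ ∀ b ∈ R, ∀ b' ∈ R, ∀ n ∈ C, ∀ n' ∈ C,
    D b n * D b' n' = D b n' * D b' n := by
  unfold brk
  constructor
  · intro h
    have h1 : (Matrix.of fun (b : R) (n : C) => D b n).rank ≤ 1 := by exact_mod_cast h
    rw [Matrix.rank_eq_finrank_span_cols, Submodule.finrank_le_one_iff_isPrincipal] at h1
    obtain ⟨⟨a, ha⟩⟩ := h1
    have key : ∀ n ∈ C, ∃ c : F4, ∀ b (hb : b ∈ R), D b n = c * a ⟨b, hb⟩ := by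
      intro n hn
      have : (Matrix.of fun (b : R) (n : C) => D b n).col ⟨n, hn⟩ ∈
          Submodule.span F4 (Set.range (Matrix.of fun (b : R) (n : C) => D b n).col) :=
        Submodule.subset_span ⟨_, rfl⟩
      rw [ha, Submodule.mem_span_singleton] at this
      obtain ⟨c, hc⟩ := this
      refine ⟨c, fun b hb => ?_⟩
      have := congrFun hc ⟨b, hb⟩
      simpa [Matrix.col] using this.symm
    intro b hb b' hb' n hn n' hn'
    obtain ⟨c, hc⟩ := key n hn
    obtain ⟨c', hc'⟩ := key n' hn'
    rw [hc b hb, hc b' hb', hc' b hb, hc' b' hb']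
    ring
  · intro h
    have h1 : (Matrix.of fun (b : R) (n : C) => D b n).rank ≤ 1 := by
      by_cases h0 : ∀ b ∈ R, ∀ n ∈ C, D b n = 0
      · have : (Matrix.of fun (b : R) (n : C) => D b n) = 0 := by
          ext b n
          simpa using h0 b b.2 n n.2
        rw [this, Matrix.rank_zero]
        exact zero_le_one
      · push Not at h0
        obtain ⟨b₀, hb₀, n₀, hn₀, hne⟩ := h0
        have : (Matrix.of fun (b : R) (n : C) => D b n) =
            Matrix.vecMulVec (fun b : R => D b n₀ * (D b₀ n₀)⁻¹) (fun n : C => D b₀ n) := by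
          ext b n
          rw [Matrix.vecMulVec_apply]
          simp only [Matrix.of_apply]
          have := h b b.2 b₀ hb₀ n n.2 n₀ hn₀
          field_simp
          exact this
        rw [this]
        exact Matrix.rank_vecMulVec_le _ _
    exact_mod_cast h1

theorem rk_formula (hD : IsD v E T D) (hS : S ⊆ E) (hX : X ⊆ S) :
    ctr (rkv v) (T \ S) X = ((X ∩ T).card : ℤ) + brk D ((T ∩ S) \ X) (X \ T) := by
  classical
  obtain ⟨hTE, hTi, hv⟩ := id hD
  set R₀ : Finset ℕ := (T ∩ S) \ X with hR₀
  set P : Finset ℕ := (T \ S) ∪ X with hP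
  have hR₀T : R₀ ⊆ T := fun x hx => by
    rw [hR₀, Finset.mem_sdiff, Finset.mem_inter] at hx
    exact hx.1.1
  have hPE : P ⊆ E := by
    intro x hx
    rw [hP, Finset.mem_union, Finset.mem_sdiff] at hx
    rcases hx with hx | hx
    · exact hTE hx.1
    · exact hS (hX hx)
  -- coordinates
  let c : (T → F4) →ₗ[F4] V := Fintype.linearCombination F4 (fun t : T => v t)
  have hc : Function.Injective c := by
    rw [← LinearMap.ker_eq_bot, LinearMap.ker_eq_bot']
    intro g hg
    have h1 := Fintype.linearIndependent_iff.1 hTi g (by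
      rw [Fintype.linearCombination_apply] at hg
      exact hg)
    funext t
    exact h1 t
  let w : ℕ → (T → F4) := fun e t => D t e
  have hcw : ∀ e ∈ E, c (w e) = v e := by
    intro e he
    rw [Fintype.linearCombination_apply, hv e he]
    exact Finset.sum_coe_sort T (fun t => D t e • v t)
  have hwT : ∀ e (he : e ∈ T), w e = Pi.single (⟨e, he⟩ : T) 1 := by
    intro e he
    funext t
    show D t e = _
    rw [hD.coord he t.2, Pi.single_apply]
    congr 1
    rw [eq_iff_iff]
    constructor
    · intro h
      exact Subtype.ext h.symm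
    · intro h
      rw [h]
  let pi : (T → F4) →ₗ[F4] (R₀ → F4) := LinearMap.funLeft F4 F4 (fun x : R₀ => (⟨x.1, hR₀T x.2⟩ : T))
  have hpis : Function.Surjective pi := by
    apply LinearMap.funLeft_surjective_of_injective
    intro x y hxy
    have := congrArg Subtype.val hxy
    exact Subtype.ext this
  -- the span in coordinates
  let Q : Submodule F4 (T → F4) := Submodule.span F4 (w '' (P : Set ℕ))
  have hQ : Module.finrank F4 (Submodule.span F4 (v '' (P : Set ℕ))) = Module.finrank F4 Q := by
    have h1 : Submodule.span F4 (v '' (P : Set ℕ)) = Q.map c := by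
      rw [Submodule.map_span, Set.image_image]
      congr 1
      apply Set.image_congr
      intro e he
      exact (hcw e (hPE he)).symm
    rw [h1]
    exact (Submodule.equivMapOfInjective c hc Q).finrank_eq.symm
  have hker : LinearMap.ker pi ≤ Q := by
    intro f hf
    rw [LinearMap.mem_ker] at hf
    have hf2 : ∀ t (ht : t ∈ R₀), f ⟨t, hR₀T ht⟩ = 0 := by
      intro t ht
      exact congrFun hf ⟨t, ht⟩
    rw [pi_eq_sum_univ' f]
    apply Submodule.sum_mem
    intro t _
    by_cases ht : (t : ℕ) ∈ R₀
    · have h1 : f t = 0 := hf2 t ht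
      rw [h1, zero_smul]
      exact Submodule.zero_mem _
    · apply Submodule.smul_mem
      have h2 : (fun j : T => if j = t then (1 : F4) else 0) = w t := by
        rw [hwT t t.2]
        funext j
        rw [Pi.single_apply]
      have h3 : (t : ℕ) ∈ P := by
        rw [hP, Finset.mem_union, Finset.mem_sdiff]
        rw [hR₀, Finset.mem_sdiff, Finset.mem_inter] at ht
        by_cases h4 : (t : ℕ) ∈ S
        · right
          by_contra h5
          exact ht ⟨⟨t.2, h4⟩, h5⟩
        · exact Or.inl ⟨t.2, h4⟩
      have h4 : w t ∈ Q := Submodule.subset_span ⟨t, h3, rfl⟩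
      have h5 : (fun j : T => if t = j then (1 : F4) else 0) = w t := by
        rw [← h2]
        funext j
        exact if_congr eq_comm rfl rfl
      convert h4 using 1
      rw [← h5]
      funext j
      rw [Pi.single_apply]
      exact if_congr eq_comm rfl rfl
  have hmap : Q.map pi = Submodule.span F4
      (Set.range (Matrix.of fun (b : R₀) (n : (X \ T : Finset ℕ)) => D b n).col) := by
    rw [Submodule.map_span, Set.image_image]
    apply le_antisymm
    · rw [Submodule.span_le]
      rintro _ ⟨e, he, rfl⟩
      have he1 : e ∈ P := he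
      by_cases heT : e ∈ T
      · have h1 : pi (w e) = 0 := by
          rw [hwT e heT]
          funext b
          show (Pi.single (⟨e, heT⟩ : T) (1 : F4) : T → F4) ⟨b.1, hR₀T b.2⟩ = 0
          rw [Pi.single_apply, if_neg]
          intro h
          have h2 : (b : ℕ) = e := congrArg Subtype.val h
          have h3 : (b : ℕ) ∈ (T ∩ S) \ X := b.2
          rw [Finset.mem_sdiff, Finset.mem_inter, h2] at h3
          rw [hP, Finset.mem_union, Finset.mem_sdiff] at he1
          rcases he1 with h4 | h4
          · exact h4.2 h3.1.2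
          · exact h3.2 h4
        show pi (w e) ∈ _
        rw [h1]
        exact Submodule.zero_mem _
      · have heX : e ∈ X \ T := by
          rw [hP, Finset.mem_union, Finset.mem_sdiff] at he1
          rw [Finset.mem_sdiff]
          rcases he1 with h4 | h4
          · exact absurd h4.1 heT
          · exact ⟨h4, heT⟩
        exact Submodule.subset_span ⟨⟨e, heX⟩, rfl⟩
    · rw [Submodule.span_le]
      rintro _ ⟨n, rfl⟩
      refine Submodule.subset_span ⟨n, ?_, rfl⟩
      have := n.2
      rw [Finset.mem_sdiff] at this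
      show (n : ℕ) ∈ P
      rw [hP, Finset.mem_union]
      exact Or.inr this.1
  have hk : Module.finrank F4 (LinearMap.ker pi) + R₀.card = T.card := by
    have h1 := pi.finrank_range_add_finrank_ker
    rw [LinearMap.range_eq_top.2 hpis, finrank_top, Module.finrank_fintype_fun_eq_card,
      Module.finrank_fintype_fun_eq_card, Fintype.card_coe, Fintype.card_coe] at h1
    omega
  have hfin := finrank_split pi Q hker
  rw [hmap, ← Matrix.rank_eq_finrank_span_cols] at hfin
  have h1 : rkv v (T \ S) = ((T \ S).card : ℤ) :=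
    ind_iff.1 (ind_mono hTi Finset.sdiff_subset)
  have h2 : rkv v P = (((Matrix.of fun (b : R₀) (n : (X \ T : Finset ℕ)) => D b n).rank : ℕ) : ℤ) +
      (Module.finrank F4 (LinearMap.ker pi) : ℤ) := by
    show (Module.finrank F4 (Submodule.span F4 (v '' (P : Set ℕ))) : ℤ) = _
    rw [hQ, hfin]
    push_cast
    rfl
  have h3 : (T \ S).card + (T ∩ S).card = T.card := by
    rw [add_comm]
    exact Finset.card_inter_add_card_sdiff T S
  have h4 : ((T ∩ S) ∩ X).card + R₀.card = (T ∩ S).card :=
    Finset.card_inter_add_card_sdiff (T ∩ S) X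
  have h5 : (T ∩ S) ∩ X = X ∩ T := by
    ext x
    simp only [Finset.mem_inter]
    constructor
    · rintro ⟨⟨a, b⟩, c⟩
      exact ⟨c, a⟩
    · rintro ⟨a, b⟩
      exact ⟨⟨b, hX a⟩, a⟩
  rw [h5] at h4
  unfold ctr brk
  rw [← hP, h1, h2]
  omega

end

end Pool.Agent.G4
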