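import Pool.Agent.G4.R1b
import Pool.Agent.G4.Br1

set_option autoImplicit false

/-!
# Module C0: correct records

`T` a basis of the whole matroid, `S` a ground set, the minor on `S` has the rank function
`ctr (rkv v) (T \ S)`. A record `(d, (y, ps))` leads from `S` to `S₂ = (S - y) \ {p.2 : p ∈ ps}`: in the
view `d` (`d = true`: dual) `y` is deleted and the elements `p.2` are contracted.
* `RecOK.congr`: `S₂ ⊆ S.erase y ⊆ S`, so `T \ S = T' \ S`, `T \ S.erase y = T' \ S.erase y`; `y` and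
the `p.2` are not in `S₂`, so they are in `T` iff they are in `T'`.
* `Hist.sub`, `Hist.congr`: induction.
-/

namespace Pool.Agent.G4

open F4 Finset

/-- records -/
abbrev Rec : Type := Bool × (ℕ × List (ℕ × ℕ))

variable {V : Type} [AddCommGroup V] [Module F4 V]

/-- a correct record -/
structure RecOK (v : ℕ → V) (T S S₂ : Finset ℕ) (r : Rec) : Prop where
  y : r.2.1 ∈ S
  s2 : S₂ = S.erase r.2.1 \ (r.2.2.map fun p => p.2).toFinset
  fst : ∀ p ∈ r.2.2, p.1 ∈ S₂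
  snd : ∀ p ∈ r.2.2, p.2 ∈ S.erase r.2.1
  inj1 : (r.2.2.map fun p => p.1).Nodup
  inj2 : (r.2.2.map fun p => p.2).Nodup
  side : ∀ p ∈ r.2.2, (p.2 ∈ T ↔ r.1 = false)
  sidey : r.2.1 ∈ T ↔ r.1 = true
  sep : ∀ p ∈ r.2.2, lam (ctr (rkv v) (T \ S.erase r.2.1)) (S.erase r.2.1) {p.1, p.2} ≤ 1
  c3 : Conn3 (ctr (rkv v) (T \ S)) S
  c3' : Conn3 (ctr (rkv v) (T \ S₂)) S₂

/-- a correct history (the last record first) -/
inductive Hist (v : ℕ → V) (T S₀ : Finset ℕ) : Finset ℕ → List Rec → Prop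
  | nil : Hist v T S₀ S₀ []
  | cons {S S₂ : Finset ℕ} {l : List Rec} {r : Rec} (h : Hist v T S₀ S l)
      (hr : RecOK v T S S₂ r) : Hist v T S₀ S₂ (r :: l)

variable {v : ℕ → V} {T T' S S₂ S₀ : Finset ℕ} {r : Rec} {l : List Rec}

theorem RecOK.sub (h : RecOK v T S S₂ r) : S₂ ⊆ S := by
  rw [h.s2]
  exact sdiff_subset.trans (erase_subset _ _)

private theorem c0_sdiff {A : Finset ℕ} (hT : T \ S₂ = T' \ S₂) (hA : S₂ ⊆ A) :
    T \ A = T' \ A := by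
  ext e
  have h1 : e ∈ T \ S₂ ↔ e ∈ T' \ S₂ := by rw [hT]
  rw [mem_sdiff, mem_sdiff] at h1 ⊢
  constructor
  · rintro ⟨h2, h3⟩
    exact ⟨(h1.1 ⟨h2, fun h4 => h3 (hA h4)⟩).1, h3⟩
  · rintro ⟨h2, h3⟩
    exact ⟨(h1.2 ⟨h2, fun h4 => h3 (hA h4)⟩).1, h3⟩

private theorem c0_mem {e : ℕ} (hT : T \ S₂ = T' \ S₂) (he : e ∉ S₂) : e ∈ T' ↔ e ∈ T := by
  have h1 : e ∈ T \ S₂ ↔ e ∈ T' \ S₂ := by rw [hT]
  rw [mem_sdiff, mem_sdiff] at h1
  constructor
  · intro h2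
    exact (h1.2 ⟨h2, he⟩).1
  · intro h2
    exact (h1.1 ⟨h2, he⟩).1

theorem RecOK.congr (h : RecOK v T S S₂ r) (hT : T \ S₂ = T' \ S₂) : RecOK v T' S S₂ r := by
  have hsub : S₂ ⊆ S.erase r.2.1 := by
    rw [h.s2]
    exact sdiff_subset
  have e1 : T \ S = T' \ S := c0_sdiff hT h.sub
  have e2 : T \ S.erase r.2.1 = T' \ S.erase r.2.1 := c0_sdiff hT hsub
  have hy : r.2.1 ∉ S₂ := fun h1 => (mem_erase.1 (hsub h1)).1 rfl
  have hp : ∀ p ∈ r.2.2, p.2 ∉ S₂ := by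
    intro p hp h1
    rw [h.s2, mem_sdiff] at h1
    exact h1.2 (List.mem_toFinset.2 (List.mem_map.2 ⟨p, hp, rfl⟩))
  refine ⟨h.y, h.s2, h.fst, h.snd, h.inj1, h.inj2, ?_, ?_, ?_, ?_, ?_⟩
  · intro p h1
    rw [c0_mem hT (hp p h1)]
    exact h.side p h1
  · rw [c0_mem hT hy]
    exact h.sidey
  · intro p h1
    rw [← e2]
    exact h.sep p h1
  · rw [← e1]
    exact h.c3
  · rw [← hT]
    exact h.c3'

theorem Hist.sub (h : Hist v T S₀ S l) : S ⊆ S₀ := by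
  induction h with
  | nil => exact Subset.refl _
  | cons _ hr ih => exact hr.sub.trans ih

theorem Hist.congr (h : Hist v T S₀ S l) (hT : T \ S = T' \ S) : Hist v T' S₀ S l := by
  induction h with
  | nil => exact Hist.nil
  | cons _ hr ih => exact Hist.cons (ih (c0_sdiff hT hr.sub)) (hr.congr hT)

end Pool.Agent.G4
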