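import Pool.Agent.G4.T1

set_option autoImplicit false

/-!
# Module C1: the list of pairs

PROOF of `pairsOf_spec`: invariant of the fold over the rows (for the initial segment `m` of the rows
treated so far and the current list `l`): the first two statements, and: for `b ∈ m`, `a ∈ gr t`,
`a ≠ b`, `lam1 t [a, b]`: one of `a`, `b` occurs in a pair of `l`. Step: if `b` occurs in `l` nothing
changes. Otherwise either the filtered list is empty, then every `a ≠ b` with `lam1 t [a, b]` occurs in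
`l`; or its first element `a` gives the new pair `(a, b)`, and `a`, `b` do not occur in `l`, `a ≠ b`.
-/

namespace Pool.Agent.G4

open N487b59b3 F4

/-- the invariant of the fold -/
private def PInv (t : Tab) (m : List ℕ) (l : List (ℕ × ℕ)) : Prop :=
  (∀ p ∈ l, p.2 ∈ t.1.1 ∧ p.1 ∈ gr t ∧ p.1 ≠ p.2 ∧ lam1 t [p.1, p.2] = true) ∧
    (l.flatMap fun p => [p.1, p.2]).Nodup ∧
    (∀ b ∈ m, ∀ a ∈ gr t, a ≠ b → lam1 t [a, b] = true →
      ∃ p ∈ l, p.1 = a ∨ p.2 = a ∨ p.1 = b ∨ p.2 = b)

private theorem occ_iff {l : List (ℕ × ℕ)} {b : ℕ} :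
    (l.any fun p => decide (p.1 = b) || decide (p.2 = b)) = true ↔ ∃ p ∈ l, p.1 = b ∨ p.2 = b := by
  simp [List.any_eq_true]

private theorem step_inv (t : Tab) (m : List ℕ) (l : List (ℕ × ℕ)) (b : ℕ) (hb : b ∈ t.1.1)
    (h : PInv t m l) : PInv t (m ++ [b]) (pairStep t l b) := by
  obtain ⟨h1, h2, h3⟩ := h
  by_cases hc : (l.any fun p => decide (p.1 = b) || decide (p.2 = b)) = true
  · have hs : pairStep t l b = l := by
      unfold pairStep
      rw [if_pos hc]
    rw [hs]
    refine ⟨h1, h2, ?_⟩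
    intro b' hb' a ha hab hl
    rcases List.mem_append.1 hb' with hb' | hb'
    · exact h3 b' hb' a ha hab hl
    · rw [List.mem_singleton.1 hb']
      obtain ⟨p, hp, hp'⟩ := occ_iff.1 hc
      exact ⟨p, hp, Or.inr (Or.inr hp')⟩
  · have hb0 : ∀ p ∈ l, p.1 ≠ b ∧ p.2 ≠ b := by
      intro p hp
      constructor
      · intro h; exact hc (occ_iff.2 ⟨p, hp, Or.inl h⟩)
      · intro h; exact hc (occ_iff.2 ⟨p, hp, Or.inr h⟩)
    set L := (gr t).filter fun a => !decide (a = b) &&
      (!(l.any fun p => decide (p.1 = a) || decide (p.2 = a)) && lam1 t [a, b]) with hL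
    have hs : pairStep t l b = l ++ (L.take 1).map fun a => (a, b) := by
      unfold pairStep
      rw [if_neg hc]
    have hmem : ∀ a, a ∈ L ↔ a ∈ gr t ∧ a ≠ b ∧
        (¬ ∃ p ∈ l, p.1 = a ∨ p.2 = a) ∧ lam1 t [a, b] = true := by
      intro a
      rw [hL, List.mem_filter]
      refine and_congr_right fun _ => ?_
      rw [Bool.and_eq_true, Bool.and_eq_true, Bool.not_eq_true', Bool.not_eq_true', decide_eq_false_iff_not,
        ← occ_iff, Bool.not_eq_true]
    rw [hs]
    rcases hLL : L with _ | ⟨a, L'⟩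
    · simp only [List.take_nil, List.map_nil, List.append_nil]
      refine ⟨h1, h2, ?_⟩
      intro b' hb' a ha hab hl
      rcases List.mem_append.1 hb' with hb' | hb'
      · exact h3 b' hb' a ha hab hl
      · have hbb := List.mem_singleton.1 hb'
        subst hbb
        by_contra hcon
        have : a ∈ L := (hmem a).2 ⟨ha, hab, fun ⟨p, hp, hp'⟩ => hcon ⟨p, hp, by tauto⟩, hl⟩
        rw [hLL] at this
        exact List.not_mem_nil this
    · simp only [List.take_succ_cons, List.take_zero, List.map_cons, List.map_nil]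
      have ha : a ∈ L := by rw [hLL]; exact List.mem_cons_self
      obtain ⟨ha1, ha2, ha3, ha4⟩ := (hmem a).1 ha
      refine ⟨?_, ?_, ?_⟩
      · intro p hp
        rcases List.mem_append.1 hp with hp | hp
        · exact h1 p hp
        · rw [List.mem_singleton.1 hp]
          exact ⟨hb, ha1, ha2, ha4⟩
      · rw [List.flatMap_append, List.nodup_append]
        refine ⟨h2, ?_, ?_⟩
        · simp [ha2]
        · intro x hx y hy hxy
          subst hxy
          rw [List.mem_flatMap] at hx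
          obtain ⟨p, hp, hx⟩ := hx
          have hy' : x = a ∨ x = b := by simpa using hy
          have hx' : x = p.1 ∨ x = p.2 := by simpa using hx
          rcases hy' with rfl | rfl
          · exact ha3 ⟨p, hp, by rcases hx' with h | h <;> simp [h]⟩
          · rcases hx' with h | h
            · exact (hb0 p hp).1 h.symm
            · exact (hb0 p hp).2 h.symm
      · intro b' hb' a' ha' hab hl
        rcases List.mem_append.1 hb' with hb' | hb'
        · obtain ⟨p, hp, hp'⟩ := h3 b' hb' a' ha' hab hl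
          exact ⟨p, List.mem_append_left _ hp, hp'⟩
        · rw [List.mem_singleton.1 hb']
          exact ⟨(a, b), List.mem_append_right _ (List.mem_singleton.2 rfl), Or.inr (Or.inr (Or.inr rfl))⟩

private theorem fold_inv (t : Tab) (r : List ℕ) : ∀ (m : List ℕ) (l : List (ℕ × ℕ)),
    (∀ b ∈ r, b ∈ t.1.1) → PInv t m l → PInv t (m ++ r) (r.foldl (pairStep t) l) := by
  induction r with
  | nil => intro m l _ h; simpa using h
  | cons b r ih =>
    intro m l hr h
    have h1 := ih (m ++ [b]) (pairStep t l b) (fun x hx => hr x (List.mem_cons_of_mem _ hx))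
      (step_inv t m l b (hr b List.mem_cons_self) h)
    rw [List.append_assoc, List.singleton_append] at h1
    exact h1

theorem pairsOf_spec (t : Tab) :
    (∀ p ∈ pairsOf t, p.2 ∈ t.1.1 ∧ p.1 ∈ gr t ∧ p.1 ≠ p.2 ∧ lam1 t [p.1, p.2] = true) ∧
    ((pairsOf t).flatMap fun p => [p.1, p.2]).Nodup ∧
    (∀ b ∈ t.1.1, ∀ a ∈ gr t, a ≠ b → lam1 t [a, b] = true →
      ∃ p ∈ pairsOf t, p.1 = a ∨ p.2 = a ∨ p.1 = b ∨ p.2 = b) := by
  have h := fold_inv t t.1.1 [] [] (fun b hb => hb)
    ⟨fun p hp => absurd hp List.not_mem_nil, by simp, fun b hb => absurd hb List.not_mem_nil⟩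
  rw [List.nil_append] at h
  exact h

/-- consequences of the second statement -/
theorem pairs_nodup {l : List (ℕ × ℕ)} (h : (l.flatMap fun p => [p.1, p.2]).Nodup) :
    (l.map fun p => p.1).Nodup ∧ (l.map fun p => p.2).Nodup ∧
    (∀ p ∈ l, ∀ q ∈ l, p.1 ≠ q.2) ∧
    (∀ p ∈ l, ∀ q ∈ l, (p.1 = q.1 ∨ p.2 = q.2) → p = q) := by
  rw [List.nodup_flatMap] at h
  obtain ⟨h1, h2⟩ := h
  have h1' : ∀ p ∈ l, p.1 ≠ p.2 := fun p hp => by simpa using h1 p hp
  have h2' : l.Pairwise fun p q => p.1 ≠ q.1 ∧ p.1 ≠ q.2 ∧ p.2 ≠ q.1 ∧ p.2 ≠ q.2 := by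
    refine h2.imp ?_
    intro p q hpq
    have h3 : ∀ x, x ∈ [p.1, p.2] → x ∉ [q.1, q.2] := fun x hx hx' => hpq hx hx'
    have h4 := h3 p.1 (by simp)
    have h5 := h3 p.2 (by simp)
    simp only [List.mem_cons, List.not_mem_nil, or_false, not_or] at h4 h5
    exact ⟨h4.1, h4.2, h5.1, h5.2⟩
  have hall : ∀ p ∈ l, ∀ q ∈ l, p ≠ q → p.1 ≠ q.1 ∧ p.1 ≠ q.2 ∧ p.2 ≠ q.1 ∧ p.2 ≠ q.2 := by
    have : Std.Symm (fun p q : ℕ × ℕ => p.1 ≠ q.1 ∧ p.1 ≠ q.2 ∧ p.2 ≠ q.1 ∧ p.2 ≠ q.2) :=
      ⟨fun a b hab => ⟨hab.1.symm, hab.2.2.1.symm, hab.2.1.symm, hab.2.2.2.symm⟩⟩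
    intro p hp q hq hpq
    exact h2'.forall hp hq hpq
  refine ⟨?_, ?_, ?_, ?_⟩
  · rw [List.Nodup, List.pairwise_map]
    exact h2'.imp fun {a b} hab => hab.1
  · rw [List.Nodup, List.pairwise_map]
    exact h2'.imp fun {a b} hab => hab.2.2.2
  · intro p hp q hq
    by_cases hpq : p = q
    · subst hpq; exact h1' p hp
    · exact (hall p hp q hq hpq).2.1
  · intro p hp q hq hor
    by_contra hpq
    have := hall p hp q hq hpq
    rcases hor with h | h
    · exact this.1 h
    · exact this.2.2.2 h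

end Pool.Agent.G4
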