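import Pool.Agent.G4.Br4
import Pool.Agent.G4.R1b

set_option autoImplicit false

/-!
# Module N4: chordless cycles and minors `U_{2,4}`

`adjD D B N a b`: `a` and `b` are adjacent in the bipartite graph of the nonzero entries.
`Cyc D B N P`: the list `P` is a chordless cycle of length at least four.

* `isD_pivot`: `piv D b c` is the matrix of the basis `T - b + c`: from
`v c = ∑_t D t c • v t` (`b ∈ T`) `v b = (D b c)⁻¹ • (v c - ∑_{t ≠ b} D t c • v t)`, substitute in
`v e = ∑ D t e • v t`. Characteristic two: signs do not matter. Independence of `insert c (T.erase b)`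
by `entry_iff`.
* `u24_four`: `T` a basis of `E`, `S ⊆ E`, rows `a ≠ c` in `T ∩ S`, columns `b ≠ d` in `S \ T`, the four
entries nonzero and `ind v ((T \ {a, c}) ∪ {b, d})`. Witness `C = (T ∩ S) \ {a, c}`,
`Z = {a, b, c, d}`: for every two-element subset `Q` of `Z` the set `(T \ {a, c}) ∪ Q` is independent
(`{a, c}`: `T` itself; one row and one column: `entry_iff`; `{b, d}`: hypothesis), so subsets `X` of
`Z` with at most two elements give `ctr .. X = X.card`, and for the others the rank is at most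
`T.card` (`IsD.rk_S`, monotone), which is `(T \ {a, c}).card + 2`. Note
`(T \ S) ∪ C ∪ X = (T \ {a, c}) ∪ X`.
-/

namespace Pool.Agent.G4

open F4 Finset

/-- adjacent in the graph of the nonzero entries -/
def adjD (D : ℕ → ℕ → F4) (B N : Finset ℕ) (a b : ℕ) : Prop :=
  (a ∈ B ∧ b ∈ N ∧ D a b ≠ 0) ∨ (b ∈ B ∧ a ∈ N ∧ D b a ≠ 0)

/-- a chordless cycle (`P.getD i 0` is the `i`-th vertex) -/
structure Cyc (D : ℕ → ℕ → F4) (B N : Finset ℕ) (P : List ℕ) : Prop where
  nodup : P.Nodup
  four : 4 ≤ P.length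
  adj : ∀ i, i + 1 < P.length → adjD D B N (P.getD i 0) (P.getD (i + 1) 0)
  close : adjD D B N (P.getD 0 0) (P.getD (P.length - 1) 0)
  chord : ∀ i j, i < j → j < P.length → adjD D B N (P.getD i 0) (P.getD j 0) →
    j = i + 1 ∨ (i = 0 ∧ j = P.length - 1)

/-- pivot at the entry `(b, c)` -/
def piv (D : ℕ → ℕ → F4) (b c x y : ℕ) : F4 :=
  if x = c then D b y * (D b c)⁻¹ else D x y + D x c * D b y * (D b c)⁻¹

variable {V : Type} [AddCommGroup V] [Module F4 V] {v : ℕ → V} {E T S : Finset ℕ}
  {D : ℕ → ℕ → F4}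

theorem isD_pivot (hD : IsD v E T D) {b c : ℕ} (hb : b ∈ T) (hc : c ∈ E \ T) (h : D b c ≠ 0) :
    IsD v E (insert c (T.erase b)) (piv D b c) := by
  classical
  have hcT : c ∉ T := (Finset.mem_sdiff.1 hc).2
  have hcE : c ∈ E := (Finset.mem_sdiff.1 hc).1
  have hce : c ∉ T.erase b := fun h' => hcT (Finset.mem_of_mem_erase h')
  refine ⟨?_, ?_, ?_⟩
  · exact Finset.insert_subset hcE ((Finset.erase_subset _ _).trans hD.1)
  · have h1 := (entry_iff hD hb hc).2 h
    have h2 : (T \ {b}) ∪ {c} = insert c (T.erase b) := by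
      ext e
      simp only [Finset.mem_union, Finset.mem_sdiff, Finset.mem_singleton, Finset.mem_insert,
        Finset.mem_erase]
      tauto
    rw [← h2]
    exact h1
  · intro e he
    have two : ∀ x : V, x + x = 0 := by
      intro x
      have h1 : x + x = ((1 : F4) + 1) • x := by rw [add_smul, one_smul]
      rw [h1, add_self, zero_smul]
    have hvc := hD.2.2 c hcE
    have hve := hD.2.2 e he
    rw [← Finset.add_sum_erase T _ hb] at hvc hve
    rw [Finset.sum_insert hce]
    have h1 : ∑ t ∈ T.erase b, piv D b c t e • v t =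
        ∑ t ∈ T.erase b, D t e • v t + (D b e * (D b c)⁻¹) • ∑ t ∈ T.erase b, D t c • v t := by
      rw [Finset.smul_sum, ← Finset.sum_add_distrib]
      refine Finset.sum_congr rfl fun t ht => ?_
      have htc : t ≠ c := fun h' => hce (h' ▸ ht)
      unfold piv
      rw [if_neg htc, add_smul, smul_smul]
      congr 2
      ring
    have h2 : piv D b c c e = D b e * (D b c)⁻¹ := by
      unfold piv
      rw [if_pos rfl]
    rw [h1, h2]
    obtain ⟨w, hw⟩ : ∃ w, w = ∑ t ∈ T.erase b, D t c • v t := ⟨_, rfl⟩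
    rw [← hw] at hvc ⊢
    have h3 : (D b e * (D b c)⁻¹) • v c = D b e • v b + (D b e * (D b c)⁻¹) • w := by
      rw [hvc, smul_add, smul_smul, mul_assoc, inv_mul_cancel₀ h, mul_one]
    rw [h3, hve]
    have h4 := two ((D b e * (D b c)⁻¹) • w)
    rw [add_add_add_comm, add_comm ((D b e * (D b c)⁻¹) • w) ((D b e * (D b c)⁻¹) • w), h4,
      add_zero]

theorem u24_four (hD : IsD v E T D) (hS : S ⊆ E) {a b c d : ℕ} (ha : a ∈ T ∩ S) (hc : c ∈ T ∩ S)
    (hac : a ≠ c) (hb : b ∈ S \ T) (hd : d ∈ S \ T) (hbd : b ≠ d)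
    (h1 : D a b ≠ 0) (h2 : D a d ≠ 0) (h3 : D c b ≠ 0) (h4 : D c d ≠ 0)
    (hi : ind v ((T \ {a, c}) ∪ {b, d})) : U24 (ctr (rkv v) (T \ S)) S := by
  classical
  rw [Finset.mem_inter] at ha hc
  rw [Finset.mem_sdiff] at hb hd
  have hab : a ≠ b := fun h => hb.2 (h ▸ ha.1)
  have had : a ≠ d := fun h => hd.2 (h ▸ ha.1)
  have hcb : c ≠ b := fun h => hb.2 (h ▸ hc.1)
  have hcd : c ≠ d := fun h => hd.2 (h ▸ hc.1)
  have hbE : b ∈ E \ T := Finset.mem_sdiff.2 ⟨hS hb.1, hb.2⟩
  have hdE : d ∈ E \ T := Finset.mem_sdiff.2 ⟨hS hd.1, hd.2⟩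
  have hrk := isRk_rkv v
  obtain ⟨A, hA⟩ : ∃ A : Finset ℕ, A = T \ {a, c} := ⟨_, rfl⟩
  have hmA : ∀ e, e ∈ A ↔ e ∈ T ∧ e ≠ a ∧ e ≠ c := by
    intro e
    rw [hA, Finset.mem_sdiff, Finset.mem_insert, Finset.mem_singleton]
    tauto
  have hAC : (T \ S) ∪ ((T ∩ S) \ {a, c}) = A := by
    ext e
    rw [hmA]
    simp only [Finset.mem_union, Finset.mem_sdiff, Finset.mem_inter, Finset.mem_insert,
      Finset.mem_singleton]
    have k1 : e = a → e ∈ S := fun h => h ▸ ha.2
    have k2 : e = c → e ∈ S := fun h => h ▸ hc.2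
    tauto
  obtain ⟨Z, hZ⟩ : ∃ Z : Finset ℕ, Z = {a, b, c, d} := ⟨_, rfl⟩
  have hmZ : ∀ e, e ∈ Z ↔ e = a ∨ e = b ∨ e = c ∨ e = d := by
    intro e
    rw [hZ]
    simp only [Finset.mem_insert, Finset.mem_singleton]
  have hZ4 : Z.card = 4 := by
    rw [hZ, Finset.card_insert_of_notMem, Finset.card_insert_of_notMem,
      Finset.card_insert_of_notMem, Finset.card_singleton]
    · simp [hcd]
    · simp [hbd, hcb.symm]
    · simp [hab, hac, had]
  have hpair : ∀ x ∈ Z, ∀ y ∈ Z, x ≠ y → ind v (A ∪ {x, y}) := by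
    have e1 : A ∪ {a, c} = T := by
      ext e
      rw [Finset.mem_union, hmA, Finset.mem_insert, Finset.mem_singleton]
      have k1 : e = a → e ∈ T := fun h => h ▸ ha.1
      have k2 : e = c → e ∈ T := fun h => h ▸ hc.1
      tauto
    have e2 : ∀ z, A ∪ {a, z} = (T \ {c}) ∪ {z} := by
      intro z
      ext e
      rw [Finset.mem_union, hmA, Finset.mem_insert, Finset.mem_singleton, Finset.mem_union,
        Finset.mem_sdiff, Finset.mem_singleton, Finset.mem_singleton]
      have k1 : e = a → e ∈ T ∧ e ≠ c := fun h => ⟨h ▸ ha.1, h ▸ hac⟩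
      tauto
    have e3 : ∀ z, A ∪ {c, z} = (T \ {a}) ∪ {z} := by
      intro z
      ext e
      rw [Finset.mem_union, hmA, Finset.mem_insert, Finset.mem_singleton, Finset.mem_union,
        Finset.mem_sdiff, Finset.mem_singleton, Finset.mem_singleton]
      have k1 : e = c → e ∈ T ∧ e ≠ a := fun h => ⟨h ▸ hc.1, h ▸ hac.symm⟩
      tauto
    have iac : ind v (A ∪ {a, c}) := by
      rw [e1]
      exact hD.2.1
    have iab : ind v (A ∪ {a, b}) := by
      rw [e2]
      exact (entry_iff hD hc.1 hbE).2 h3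
    have iad : ind v (A ∪ {a, d}) := by
      rw [e2]
      exact (entry_iff hD hc.1 hdE).2 h4
    have icb : ind v (A ∪ {c, b}) := by
      rw [e3]
      exact (entry_iff hD ha.1 hbE).2 h1
    have icd : ind v (A ∪ {c, d}) := by
      rw [e3]
      exact (entry_iff hD ha.1 hdE).2 h2
    have ibd : ind v (A ∪ {b, d}) := by
      rw [hA]
      exact hi
    intro x hx y hy hxy
    rw [hmZ] at hx hy
    rcases hx with rfl | rfl | rfl | rfl
    · rcases hy with rfl | rfl | rfl | rfl
      · exact absurd rfl hxy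
      · exact iab
      · exact iac
      · exact iad
    · rcases hy with rfl | rfl | rfl | rfl
      · rw [Finset.pair_comm]
        exact iab
      · exact absurd rfl hxy
      · rw [Finset.pair_comm]
        exact icb
      · exact ibd
    · rcases hy with rfl | rfl | rfl | rfl
      · rw [Finset.pair_comm]
        exact iac
      · exact icb
      · exact absurd rfl hxy
      · exact icd
    · rcases hy with rfl | rfl | rfl | rfl
      · rw [Finset.pair_comm]
        exact iad
      · rw [Finset.pair_comm]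
        exact ibd
      · rw [Finset.pair_comm]
        exact icd
      · exact absurd rfl hxy
  have hdisj : ∀ X ⊆ Z, Disjoint A X := by
    intro X hX
    rw [Finset.disjoint_left]
    intro e he heX
    have h5 := (hmA e).1 he
    rcases (hmZ e).1 (hX heX) with h | h | h | h
    · exact h5.2.1 h
    · exact hb.2 (h ▸ h5.1)
    · exact h5.2.2 h
    · exact hd.2 (h ▸ h5.1)
  have hQ2 : ∀ Q ⊆ Z, Q.card = 2 → ind v (A ∪ Q) := by
    intro Q hQ hQc
    obtain ⟨x, y, hxy, rfl⟩ := Finset.card_eq_two.1 hQc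
    exact hpair x (hQ (by simp)) y (hQ (by simp)) hxy
  have hrA : rkv v A = (A.card : ℤ) := by
    refine ind_iff.1 (ind_mono hD.2.1 ?_)
    rw [hA]
    exact Finset.sdiff_subset
  have hAc : A.card + 2 = T.card := by
    have h5 : ({a, c} : Finset ℕ) ⊆ T := by
      intro e he
      rw [Finset.mem_insert, Finset.mem_singleton] at he
      rcases he with rfl | rfl
      · exact ha.1
      · exact hc.1
    have h6 := Finset.card_sdiff_add_card_eq_card h5
    rw [Finset.card_pair hac, ← hA] at h6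
    exact h6
  refine ⟨(T ∩ S) \ {a, c}, Z, ?_, ?_, ?_, hZ4, ?_⟩
  · exact Finset.sdiff_subset.trans Finset.inter_subset_right
  · intro e he
    rcases (hmZ e).1 he with h | h | h | h
    · exact h ▸ ha.2
    · exact h ▸ hb.1
    · exact h ▸ hc.2
    · exact h ▸ hd.1
  · refine Disjoint.mono_left ?_ (hdisj Z (Finset.Subset.refl _))
    rw [← hAC]
    exact Finset.subset_union_right
  · intro X hX
    rw [ctr_ctr, hAC]
    show rkv v (A ∪ X) - rkv v A = min (X.card : ℤ) 2
    rw [hrA]
    by_cases hX2 : X.card ≤ 2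
    · obtain ⟨Q, hXQ, hQZ, hQc⟩ := Finset.exists_subsuperset_card_eq hX hX2
        (by rw [hZ4]; norm_num)
      have h5 : ind v (A ∪ X) :=
        ind_mono (hQ2 Q hQZ hQc) (Finset.union_subset_union (Finset.Subset.refl _) hXQ)
      rw [ind_iff.1 h5, Finset.card_union_of_disjoint (hdisj X hX)]
      push_cast
      have : (X.card : ℤ) ≤ 2 := by exact_mod_cast hX2
      rw [min_eq_left this]
      ring
    · obtain ⟨Q, hQX, hQc⟩ := Finset.exists_subset_card_eq (s := X) (n := 2) (by omega)
      have h5 : ind v (A ∪ Q) := hQ2 Q (hQX.trans hX) hQc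
      have h6 : rkv v (A ∪ Q) = (A.card : ℤ) + 2 := by
        rw [ind_iff.1 h5, Finset.card_union_of_disjoint (hdisj Q (hQX.trans hX)), hQc]
        push_cast
        ring
      have h7 : rkv v (A ∪ Q) ≤ rkv v (A ∪ X) :=
        hrk.mono' (Finset.union_subset_union (Finset.Subset.refl _) hQX)
      have h8 : rkv v (A ∪ X) ≤ rkv v (T ∪ X) := by
        refine hrk.mono' (Finset.union_subset_union ?_ (Finset.Subset.refl _))
        rw [hA]
        exact Finset.sdiff_subset
      have hZE : Z ⊆ E := by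
        intro e he
        rcases (hmZ e).1 he with h | h | h | h
        · exact h ▸ hD.1 ha.1
        · exact h ▸ hS hb.1
        · exact h ▸ hD.1 hc.1
        · exact h ▸ hS hd.1
      have h9 : rkv v (T ∪ X) = (T.card : ℤ) :=
        hD.rk_S Finset.subset_union_left (Finset.union_subset hD.1 (hX.trans hZE))
      have h10 : (2 : ℤ) ≤ (X.card : ℤ) := by
        have : 2 ≤ X.card := by omega
        exact_mod_cast this
      rw [min_eq_right h10]
      have h11 : (A.card : ℤ) + 2 = T.card := by exact_mod_cast hAc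
      linarith

end Pool.Agent.G4
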