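import Pool.Agent.G4.T1
import Pool.Agent.G4.Conn2
import Pool.Agent.G4.N4

set_option autoImplicit false

/-!
# Module C2: the pivot before the removal of `y`

PROOF. View `d = false`: `t' = t`. If `y ∈ T` (then `y` is a row, `y ∈ nor S T`): the list of the
columns `n` with `D y n ≠ 0` is not empty (otherwise `{y}` satisfies `Sep1`, contradiction to `C3`), its
head `e` is in `S \ T` and the new basis is `T - y + e` (`isD_pivot`). If `y ∉ T` nothing changes.
View `d = true`: `t' = swT t`, rows of `t'` = columns of `t`. If `y ∉ T`: the list of the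
`b ∈ T ∩ S` with `D b y ≠ 0` is not empty, head `e`, new basis `T - e + y` (in `swp` the case `y ∉ T`). If
`y ∈ T` nothing changes. The other statements: `y, e ∈ S`, so the part outside `S` does not change.
-/

namespace Pool.Agent.G4

open N487b59b3 F4 Pool.Agent.Helper22

private theorem swap_spec {V : Type} [AddCommGroup V] [Module F4 V] {v : ℕ → V}
    {E T S : List ℕ} {D : ℕ → ℕ → F4} {x c : ℕ} (hD : IsD v E.toFinset T.toFinset D) (hT : T.Nodup)
    (hxT : x ∈ T) (hxS : x ∈ S) (hcE : c ∈ E) (hcT : c ∉ T) (hcS : c ∈ S) (h : D x c ≠ 0) :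
    (∃ D', IsD v E.toFinset ((T.filter fun z => !decide (z = x)) ++ [c]).toFinset D') ∧
    ((T.filter fun z => !decide (z = x)) ++ [c]).Nodup ∧
    ((T.filter fun z => !decide (z = x)) ++ [c]).toFinset \ S.toFinset =
      T.toFinset \ S.toFinset ∧
    x ∉ (T.filter fun z => !decide (z = x)) ++ [c] ∧
    c ∈ (T.filter fun z => !decide (z = x)) ++ [c] := by
  have hmem : ∀ z, z ∈ (T.filter fun z => !decide (z = x)) ++ [c] ↔ (z ∈ T ∧ z ≠ x) ∨ z = c := by
    intro z
    simp
  have hfs : ((T.filter fun z => !decide (z = x)) ++ [c]).toFinset =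
      insert c (T.toFinset.erase x) := by
    ext z
    rw [List.mem_toFinset, hmem, Finset.mem_insert, Finset.mem_erase, List.mem_toFinset]
    tauto
  refine ⟨?_, ?_, ?_, ?_, ?_⟩
  · rw [hfs]
    exact ⟨_, isD_pivot hD (List.mem_toFinset.2 hxT) (Finset.mem_sdiff.2
      ⟨List.mem_toFinset.2 hcE, fun h' => hcT (List.mem_toFinset.1 h')⟩) h⟩
  · rw [List.nodup_append]
    refine ⟨hT.filter _, List.nodup_singleton c, ?_⟩
    intro a ha b hb hab
    rw [List.mem_singleton] at hb
    exact hcT (hb ▸ hab ▸ (List.mem_filter.1 ha).1)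
  · ext z
    rw [Finset.mem_sdiff, Finset.mem_sdiff, List.mem_toFinset, List.mem_toFinset,
      List.mem_toFinset, hmem]
    constructor
    · rintro ⟨h1 | h1, h2⟩
      · exact ⟨h1.1, h2⟩
      · exact absurd (h1 ▸ hcS) h2
    · rintro ⟨h1, h2⟩
      exact ⟨Or.inl ⟨h1, fun h3 => h2 (h3 ▸ hxS)⟩, h2⟩
  · rw [hmem]
    rintro (h1 | h1)
    · exact h1.2 rfl
    · exact hcT (h1 ▸ hxT)
  · rw [hmem]
    exact Or.inr rfl

private theorem row_ne {D : ℕ → ℕ → F4} {B N : Finset ℕ} {y : ℕ} (h3 : C3 D B N)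
    (hd : Disjoint B N) (hy : y ∈ B) : ∃ n ∈ N, D y n ≠ 0 := by
  by_contra hcon
  push Not at hcon
  have hsep : Sep1 D B N {y} := by
    intro b hb n hn
    by_cases hby : b = y
    · right
      rw [hby]
      exact hcon n hn
    · left
      have hny : n ≠ y := fun h => Finset.disjoint_left.1 hd hy (h ▸ hn)
      simp [hby, hny]
  rcases h3.2.1 {y} (Finset.singleton_subset_iff.2 (Finset.mem_union_left _ hy)) hsep with h | h
  · exact Finset.singleton_ne_empty y h
  · have h4 := h3.1
    rw [← h, Finset.card_singleton] at h4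
    omega

theorem pivT_spec {V : Type} [AddCommGroup V] [Module F4 V] {v : ℕ → V} {X : Oracle}
    {E T S : List ℕ} {D : ℕ → ℕ → F4} {y : ℕ} (d : Bool) (hX : IsOrc X E v)
    (hD : IsD v E.toFinset T.toFinset D) (hT : T.Nodup) (hS : ∀ e ∈ S, e ∈ E) (hS' : S.Nodup)
    (h3 : C3 D (T.toFinset ∩ S.toFinset) (S.toFinset \ T.toFinset)) (hy : y ∈ S) :
    let p := pivT (table X E T S) T d y
    p.1 = true ∧ (∃ D', IsD v E.toFinset p.2.toFinset D') ∧ p.2.Nodup ∧
    p.2.toFinset \ S.toFinset = T.toFinset \ S.toFinset ∧ (y ∈ p.2 ↔ d = true) := by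
  intro p
  have htab : TabOK D (table X E T S) := tabOK_table hX hD hS hS'
  have hdj : Disjoint (T.toFinset ∩ S.toFinset) (S.toFinset \ T.toFinset) := by
    rw [Finset.disjoint_left]
    intro e h1 h2
    exact (Finset.mem_sdiff.1 h2).2 (Finset.mem_inter.1 h1).1
  have t11 : (table X E T S).1.1 = nor S T := rfl
  have t12 : (table X E T S).1.2 = dif S T := rfl
  cases d with
  | false =>
    by_cases hyT : y ∈ T
    · have hyN : y ∈ nor S T := mem_nor.2 ⟨hy, hyT⟩
      obtain ⟨c, hc⟩ : ∃ c, c = (((table X E T S).2.1.filter fun p => decide (p.1 = y)).map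
        fun p => p.2) := ⟨_, rfl⟩
      have hp : p = (!c.isEmpty, swp T y (c.headD 0)) := by
        rw [hc]
        show (if y ∈ nor S T then _ else _) = _
        rw [if_pos hyN]
        rfl
      have hcm : ∀ e, e ∈ c ↔ e ∈ dif S T ∧ D y e ≠ 0 := by
        intro e
        rw [hc, List.mem_map]
        constructor
        · rintro ⟨q, hq, rfl⟩
          rw [List.mem_filter, htab.one, decide_eq_true_eq] at hq
          exact ⟨hq.1.2.1, hq.2 ▸ hq.1.2.2⟩
        · rintro ⟨h1, h2⟩
          exact ⟨(y, e), by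
            rw [List.mem_filter, htab.one, decide_eq_true_eq]
            exact ⟨⟨hyN, h1, h2⟩, rfl⟩, rfl⟩
      obtain ⟨n, hn, hne⟩ := row_ne h3 hdj
        (Finset.mem_inter.2 ⟨List.mem_toFinset.2 hyT, List.mem_toFinset.2 hy⟩)
      rw [← dif_toFinset, List.mem_toFinset] at hn
      have hnc : n ∈ c := (hcm n).2 ⟨hn, hne⟩
      cases c with
      | nil => exact absurd hnc (List.not_mem_nil)
      | cons e l =>
        have he := (hcm e).1 (List.mem_cons_self)
        have he1 := mem_dif.1 he.1
        obtain ⟨k1, k2, k3, k4, k5⟩ := swap_spec hD hT hyT hy (hS e he1.1) he1.2 he1.1 he.2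
        have hs : p = (true, (T.filter fun z => !decide (z = y)) ++ [e]) := by
          rw [hp]
          simp [swp, hyT]
        rw [hs]
        exact ⟨rfl, k1, k2, k3, by simp only [Bool.false_eq_true, iff_false]; exact k4⟩
    · have hyN : y ∉ nor S T := fun h => hyT (mem_nor.1 h).2
      have hp : p = (true, T) := by
        show (if y ∈ nor S T then _ else _) = _
        rw [if_neg hyN]
      rw [hp]
      exact ⟨rfl, ⟨D, hD⟩, hT, rfl, by simp [hyT]⟩
  | true =>
    by_cases hyT : y ∈ T
    · have hyN : y ∉ dif S T := fun h => (mem_dif.1 h).2 hyT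
      have hp : p = (true, T) := by
        show (if y ∈ dif S T then _ else _) = _
        rw [if_neg hyN]
      rw [hp]
      exact ⟨rfl, ⟨D, hD⟩, hT, rfl, by simp [hyT]⟩
    · have hyN : y ∈ dif S T := mem_dif.2 ⟨hy, hyT⟩
      have htab' := tabOK_swT htab
      obtain ⟨c, hc⟩ : ∃ c, c = (((swT (table X E T S)).2.1.filter fun p => decide (p.1 = y)).map
        fun p => p.2) := ⟨_, rfl⟩
      have hp : p = (!c.isEmpty, swp T y (c.headD 0)) := by
        rw [hc]
        show (if y ∈ dif S T then _ else _) = _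
        rw [if_pos hyN]
        rfl
      have hcm : ∀ e, e ∈ c ↔ e ∈ nor S T ∧ D e y ≠ 0 := by
        intro e
        rw [hc, List.mem_map]
        constructor
        · rintro ⟨q, hq, rfl⟩
          rw [List.mem_filter, htab'.one, decide_eq_true_eq] at hq
          exact ⟨hq.1.2.1, hq.2 ▸ hq.1.2.2⟩
        · rintro ⟨h1, h2⟩
          exact ⟨(y, e), by
            rw [List.mem_filter, htab'.one, decide_eq_true_eq]
            exact ⟨⟨hyN, h1, h2⟩, rfl⟩, rfl⟩
      obtain ⟨n, hn, hne⟩ := row_ne (h3.trD) hdj.symm (y := y)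
        (Finset.mem_sdiff.2 ⟨List.mem_toFinset.2 hy, fun h => hyT (List.mem_toFinset.1 h)⟩)
      rw [← nor_toFinset, List.mem_toFinset] at hn
      have hnc : n ∈ c := (hcm n).2 ⟨hn, hne⟩
      cases c with
      | nil => exact absurd hnc (List.not_mem_nil)
      | cons e l =>
        have he := (hcm e).1 (List.mem_cons_self)
        have he1 := mem_nor.1 he.1
        obtain ⟨k1, k2, k3, k4, k5⟩ := swap_spec hD hT he1.2 he1.1 (hS y hy) hyT hy he.2
        have hs : p = (true, (T.filter fun z => !decide (z = e)) ++ [y]) := by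
          rw [hp]
          simp [swp, hyT]
        rw [hs]
        exact ⟨rfl, k1, k2, k3, by simp only [iff_true]; exact k5⟩

end Pool.Agent.G4
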