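import Pool.Agent.G4.N4

set_option autoImplicit false

/-!
# Module N4b: a chordless cycle whose cycle set is a basis gives a minor `U_{2,4}`

PROOF of `cyc_u24` by strong induction on the length of `P`, for all `T`, `D`, `S`. The vertices
alternate between rows (`T ∩ S`) and columns (`S \ T`), so the length is even (`close`).
Length 4, `P = [a, b, c, d]`: `a, c` rows and `b, d` columns or the other way round; all four entries
are nonzero; `(T \ P) ∪ (P \ T) = (T \ {a, c}) ∪ {b, d}`: `u24_four`.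
Length `≥ 6`, `P = a :: b :: c :: d :: rest`. Let `(r, s)` be `(b, c)` if `b` is a row, `(c, b)`
otherwise; `D r s ≠ 0`. `T' = insert s (T.erase r)`, `D' = piv D r s` (`isD_pivot`), `S' = S \ {b, c}`,
`P' = a :: d :: rest`. For `x, y ∈ S'`: `D' x y = D x y + D x s * D r y * (D r s)⁻¹`, and for
vertices `x` (row), `y` (column) of `P'`: `D x s ≠ 0` only for the neighbour of `s` in the cycle
different from `r`, `D r y ≠ 0` only for the neighbour of `r` different from `s`; these two are `a`
and `d` in some order, which are not adjacent for `D` (length `≥ 6`). So `D' = D` on `P'` except that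
`a` and `d` are now adjacent, and `P'` is a chordless cycle for `D'`, with rows `T' ∩ S' = (T ∩ S) \ {r}`
and columns `S' \ T' = (S \ T) \ {s}`. `(T' \ P') ∪ (P' \ T') = (T \ P) ∪ (P \ T)`. By induction
`U24 (ctr (rkv v) (T' \ S')) S'`; `T' \ S' = (T \ S) ∪ {s}`, so with `ctr_ctr` and `U24.of_minor`
`U24 (ctr (rkv v) (T \ S)) S`.
-/

namespace Pool.Agent.G4

open F4 Finset

private theorem adj_row {D : ℕ → ℕ → F4} {B N : Finset ℕ} (hd : Disjoint B N) {x y : ℕ} (hx : x ∈ B)
    (h : adjD D B N x y) : y ∈ N ∧ D x y ≠ 0 := by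
  rcases h with h | h
  · exact ⟨h.2.1, h.2.2⟩
  · exact absurd h.2.1 (Finset.disjoint_left.mp hd hx)

private theorem adj_col {D : ℕ → ℕ → F4} {B N : Finset ℕ} (hd : Disjoint B N) {x y : ℕ} (hx : x ∈ N)
    (h : adjD D B N x y) : y ∈ B ∧ D y x ≠ 0 := by
  rcases h with h | h
  · exact absurd hx (Finset.disjoint_left.mp hd h.1)
  · exact ⟨h.1, h.2.2⟩

private theorem adj_comm {D : ℕ → ℕ → F4} {B N : Finset ℕ} {x y : ℕ}
    (h : adjD D B N x y) : adjD D B N y x := Or.symm h

private theorem getD_inj {P : List ℕ} (hP : P.Nodup) {i j : ℕ} (hi : i < P.length) (hj : j < P.length)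
    (h : P.getD i 0 = P.getD j 0) : i = j := by
  rw [List.getD_eq_getElem _ _ hi, List.getD_eq_getElem _ _ hj] at h
  exact (List.Nodup.getElem_inj_iff hP).mp h

private theorem chord' {D : ℕ → ℕ → F4} {B N : Finset ℕ} (hd : Disjoint B N) {P : List ℕ}
    (hP : Cyc D B N P) {i j : ℕ} (hi : i < P.length) (hj : j < P.length)
    (h : adjD D B N (P.getD i 0) (P.getD j 0)) :
    i = j + 1 ∨ j = i + 1 ∨ (i = 0 ∧ j = P.length - 1) ∨ (j = 0 ∧ i = P.length - 1) := by
  rcases lt_trichotomy i j with h1 | h1 | h1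
  · rcases hP.chord i j h1 hj h with h2 | h2
    · exact Or.inr (Or.inl h2)
    · exact Or.inr (Or.inr (Or.inl h2))
  · subst h1
    rcases h with h | h
    · exact absurd h.2.1 (Finset.disjoint_left.mp hd h.1)
    · exact absurd h.2.1 (Finset.disjoint_left.mp hd h.1)
  · rcases hP.chord j i h1 hi (adj_comm h) with h2 | h2
    · exact Or.inl h2
    · exact Or.inr (Or.inr (Or.inr h2))

/-- the entries of the pivoted matrix on the shortened cycle -/
private theorem entry_step {D : ℕ → ℕ → F4} {B N : Finset ℕ} (hd : Disjoint B N) {P : List ℕ}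
    (hP : Cyc D B N P) (hl : 6 ≤ P.length) {r s : ℕ}
    (hrs : (r = P.getD 1 0 ∧ s = P.getD 2 0) ∨ (r = P.getD 2 0 ∧ s = P.getD 1 0)) (hr : r ∈ B) (hs : s ∈ N)
    (hne : D r s ≠ 0) {i j : ℕ} (hi : i < P.length) (hj : j < P.length) (hi1 : i ≠ 1) (hi2 : i ≠ 2)
    (hj1 : j ≠ 1) (hj2 : j ≠ 2) (hiB : P.getD i 0 ∈ B) (hjN : P.getD j 0 ∈ N) :
    piv D r s (P.getD i 0) (P.getD j 0) ≠ 0 ↔
      D (P.getD i 0) (P.getD j 0) ≠ 0 ∨ (i = 0 ∧ j = 3) ∨ (i = 3 ∧ j = 0) := by
  have hBN : ∀ x, x ∈ B → x ∈ N → False := fun x h1 h2 => Finset.disjoint_left.mp hd h1 h2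
  have his : P.getD i 0 ≠ s := fun h => hBN _ hiB (h ▸ hs)
  have a01 := hP.adj 0 (by omega)
  have a23 := hP.adj 2 (by omega)
  simp only [zero_add, Nat.reduceAdd] at a01 a23
  -- vertices 0 and 3 are not adjacent
  have n03 : ∀ {i j : ℕ}, (i = 0 ∧ j = 3) ∨ (i = 3 ∧ j = 0) → ¬ adjD D B N (P.getD i 0) (P.getD j 0) := by
    intro i j hij h
    have h1 := chord' hd hP (by omega) (by omega) h
    omega
  have hval : piv D r s (P.getD i 0) (P.getD j 0) =
      D (P.getD i 0) (P.getD j 0) + D (P.getD i 0) s * D r (P.getD j 0) * (D r s)⁻¹ := by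
    rw [piv, if_neg his]
  rw [hval]
  by_cases hx : D (P.getD i 0) s = 0
  · rw [hx, zero_mul, zero_mul, add_zero]
    constructor
    · exact fun h => Or.inl h
    · rintro (h | h)
      · exact h
      · exfalso
        rcases hrs with ⟨h1, h2⟩ | ⟨h1, h2⟩
        · -- r = P 1, s = P 2
          rcases h with ⟨rfl, rfl⟩ | ⟨rfl, rfl⟩
          · exact hBN _ hiB (adj_row hd (h1 ▸ hr) (adj_comm a01)).1
          · exact (adj_col hd (h2 ▸ hs) a23).2 (h2 ▸ hx)
        · rcases h with ⟨rfl, rfl⟩ | ⟨rfl, rfl⟩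
          · exact (adj_col hd (h2 ▸ hs) (adj_comm a01)).2 (h2 ▸ hx)
          · exact hBN _ hiB (adj_row hd (h1 ▸ hr) a23).1
  · by_cases hy : D r (P.getD j 0) = 0
    · rw [hy, mul_zero, zero_mul, add_zero]
      constructor
      · exact fun h => Or.inl h
      · rintro (h | h)
        · exact h
        · exfalso
          rcases hrs with ⟨h1, h2⟩ | ⟨h1, h2⟩
          · rcases h with ⟨rfl, rfl⟩ | ⟨rfl, rfl⟩
            · exact hBN _ hiB (adj_row hd (h1 ▸ hr) (adj_comm a01)).1
            · exact (adj_row hd (h1 ▸ hr) (adj_comm a01)).2 (h1 ▸ hy)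
          · rcases h with ⟨rfl, rfl⟩ | ⟨rfl, rfl⟩
            · exact (adj_row hd (h1 ▸ hr) a23).2 (h1 ▸ hy)
            · exact hBN _ hiB (adj_row hd (h1 ▸ hr) a23).1
    · have hax : adjD D B N (P.getD i 0) s := Or.inl ⟨hiB, hs, hx⟩
      have hay : adjD D B N r (P.getD j 0) := Or.inl ⟨hr, hjN, hy⟩
      have hij : (i = 0 ∧ j = 3) ∨ (i = 3 ∧ j = 0) := by
        rcases hrs with ⟨h1, h2⟩ | ⟨h1, h2⟩
        · rw [h2] at hax
          rw [h1] at hay
          have c1 := chord' hd hP hi (by omega) hax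
          have c2 := chord' hd hP (by omega) hj hay
          omega
        · rw [h2] at hax
          rw [h1] at hay
          have c1 := chord' hd hP hi (by omega) hax
          have c2 := chord' hd hP (by omega) hj hay
          omega
      have h0 : D (P.getD i 0) (P.getD j 0) = 0 := by
        by_contra h0
        exact n03 hij (Or.inl ⟨hiB, hjN, h0⟩)
      rw [h0, zero_add]
      constructor
      · exact fun _ => Or.inr hij
      · intro _
        exact mul_ne_zero (mul_ne_zero hx hy) (inv_ne_zero hne)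

private theorem mem_getD {P : List ℕ} {i : ℕ} (hi : i < P.length) : P.getD i 0 ∈ P := by
  rw [List.getD_eq_getElem _ _ hi]
  exact List.getElem_mem hi

private theorem vert {D : ℕ → ℕ → F4} {B N : Finset ℕ} {P : List ℕ}
    (hP : Cyc D B N P) {i : ℕ} (hi : i < P.length) : P.getD i 0 ∈ B ∨ P.getD i 0 ∈ N := by
  have h4 := hP.four
  by_cases h : i + 1 < P.length
  · rcases hP.adj i h with h1 | h1
    · exact Or.inl h1.1
    · exact Or.inr h1.2.1
  · have h2 : P.length - 1 = i := by omega
    have h3 := hP.close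
    rw [h2] at h3
    rcases h3 with h1 | h1
    · exact Or.inr h1.2.1
    · exact Or.inl h1.1

/-- adjacency in the pivoted matrix -/
private theorem adj_step {D : ℕ → ℕ → F4} {B N : Finset ℕ} (hd : Disjoint B N) {P : List ℕ}
    (hP : Cyc D B N P) (hl : 6 ≤ P.length) {r s : ℕ}
    (hrs : (r = P.getD 1 0 ∧ s = P.getD 2 0) ∨ (r = P.getD 2 0 ∧ s = P.getD 1 0)) (hr : r ∈ B) (hs : s ∈ N)
    (hne : D r s ≠ 0) {i j : ℕ} (hi : i < P.length) (hj : j < P.length) (hi1 : i ≠ 1) (hi2 : i ≠ 2)
    (hj1 : j ≠ 1) (hj2 : j ≠ 2) :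
    adjD (piv D r s) (B.erase r) (N.erase s) (P.getD i 0) (P.getD j 0) ↔
      adjD D B N (P.getD i 0) (P.getD j 0) ∨ (i = 0 ∧ j = 3) ∨ (i = 3 ∧ j = 0) := by
  have hBN : ∀ x, x ∈ B → x ∈ N → False := fun x h1 h2 => Finset.disjoint_left.mp hd h1 h2
  have hir : ∀ {k : ℕ}, k < P.length → k ≠ 1 → k ≠ 2 → P.getD k 0 ≠ r := by
    intro k hk hk1 hk2 h
    rcases hrs with ⟨h1, _⟩ | ⟨h1, _⟩
    · exact hk1 (getD_inj hP.nodup hk (by omega) (h.trans h1))
    · exact hk2 (getD_inj hP.nodup hk (by omega) (h.trans h1))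
  have his : ∀ {k : ℕ}, k < P.length → k ≠ 1 → k ≠ 2 → P.getD k 0 ≠ s := by
    intro k hk hk1 hk2 h
    rcases hrs with ⟨_, h1⟩ | ⟨_, h1⟩
    · exact hk2 (getD_inj hP.nodup hk (by omega) (h.trans h1))
    · exact hk1 (getD_inj hP.nodup hk (by omega) (h.trans h1))
  have a01 := hP.adj 0 (by omega)
  have a23 := hP.adj 2 (by omega)
  simp only [zero_add, Nat.reduceAdd] at a01 a23
  -- vertices 0 and 3 are on different sides
  have s03 : (P.getD 0 0 ∈ B ∧ P.getD 3 0 ∈ N) ∨ (P.getD 0 0 ∈ N ∧ P.getD 3 0 ∈ B) := by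
    rcases hrs with ⟨h1, h2⟩ | ⟨h1, h2⟩
    · exact Or.inr ⟨(adj_row hd (h1 ▸ hr) (adj_comm a01)).1, (adj_col hd (h2 ▸ hs) a23).1⟩
    · exact Or.inl ⟨(adj_col hd (h2 ▸ hs) (adj_comm a01)).1, (adj_row hd (h1 ▸ hr) a23).1⟩
  constructor
  · rintro (⟨h1, h2, h3⟩ | ⟨h1, h2, h3⟩)
    · have h1' := Finset.mem_of_mem_erase h1
      have h2' := Finset.mem_of_mem_erase h2
      rcases (entry_step hd hP hl hrs hr hs hne hi hj hi1 hi2 hj1 hj2 h1' h2').mp h3 with h4 | h4
      · exact Or.inl (Or.inl ⟨h1', h2', h4⟩)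
      · exact Or.inr h4
    · have h1' := Finset.mem_of_mem_erase h1
      have h2' := Finset.mem_of_mem_erase h2
      rcases (entry_step hd hP hl hrs hr hs hne hj hi hj1 hj2 hi1 hi2 h1' h2').mp h3 with h4 | h4
      · exact Or.inl (Or.inr ⟨h1', h2', h4⟩)
      · refine Or.inr ?_
        omega
  · intro h
    rcases h with (⟨h1, h2, h3⟩ | ⟨h1, h2, h3⟩) | h
    · exact Or.inl ⟨Finset.mem_erase.mpr ⟨hir hi hi1 hi2, h1⟩, Finset.mem_erase.mpr ⟨his hj hj1 hj2, h2⟩,
        (entry_step hd hP hl hrs hr hs hne hi hj hi1 hi2 hj1 hj2 h1 h2).mpr (Or.inl h3)⟩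
    · exact Or.inr ⟨Finset.mem_erase.mpr ⟨hir hj hj1 hj2, h1⟩, Finset.mem_erase.mpr ⟨his hi hi1 hi2, h2⟩,
        (entry_step hd hP hl hrs hr hs hne hj hi hj1 hj2 hi1 hi2 h1 h2).mpr (Or.inl h3)⟩
    · have hs' : (P.getD i 0 ∈ B ∧ P.getD j 0 ∈ N) ∨ (P.getD j 0 ∈ B ∧ P.getD i 0 ∈ N) := by
        rcases h with ⟨rfl, rfl⟩ | ⟨rfl, rfl⟩
        · rcases s03 with h4 | h4
          · exact Or.inl h4
          · exact Or.inr ⟨h4.2, h4.1⟩
        · rcases s03 with h4 | h4
          · exact Or.inr h4
          · exact Or.inl ⟨h4.2, h4.1⟩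
      rcases hs' with ⟨h1, h2⟩ | ⟨h1, h2⟩
      · exact Or.inl ⟨Finset.mem_erase.mpr ⟨hir hi hi1 hi2, h1⟩, Finset.mem_erase.mpr ⟨his hj hj1 hj2, h2⟩,
          (entry_step hd hP hl hrs hr hs hne hi hj hi1 hi2 hj1 hj2 h1 h2).mpr (Or.inr h)⟩
      · exact Or.inr ⟨Finset.mem_erase.mpr ⟨hir hj hj1 hj2, h1⟩, Finset.mem_erase.mpr ⟨his hi hi1 hi2, h2⟩,
          (entry_step hd hP hl hrs hr hs hne hj hi hj1 hj2 hi1 hi2 h1 h2).mpr (Or.inr (by omega))⟩

private theorem cyc_step {D : ℕ → ℕ → F4} {B N : Finset ℕ} (hd : Disjoint B N) {a b c d e f : ℕ} {l : List ℕ}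
    (hP : Cyc D B N (a :: b :: c :: d :: e :: f :: l)) {r s : ℕ}
    (hrs : (r = b ∧ s = c) ∨ (r = c ∧ s = b)) (hr : r ∈ B) (hs : s ∈ N) (hne : D r s ≠ 0) :
    Cyc (piv D r s) (B.erase r) (N.erase s) (a :: d :: e :: f :: l) := by
  set P := a :: b :: c :: d :: e :: f :: l with hPdef
  have hlen : P.length = l.length + 6 := by simp [hPdef]
  have hlen' : (a :: d :: e :: f :: l).length = l.length + 4 := by simp
  have g0 : (a :: d :: e :: f :: l).getD 0 0 = P.getD 0 0 := rfl
  have gs : ∀ j, (a :: d :: e :: f :: l).getD (j + 1) 0 = P.getD (j + 3) 0 := fun j => rfl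
  have hrs' : (r = P.getD 1 0 ∧ s = P.getD 2 0) ∨ (r = P.getD 2 0 ∧ s = P.getD 1 0) := hrs
  have key : ∀ {i j : ℕ}, i < P.length → j < P.length → i ≠ 1 → i ≠ 2 → j ≠ 1 → j ≠ 2 →
      (adjD (piv D r s) (B.erase r) (N.erase s) (P.getD i 0) (P.getD j 0) ↔
        adjD D B N (P.getD i 0) (P.getD j 0) ∨ (i = 0 ∧ j = 3) ∨ (i = 3 ∧ j = 0)) :=
    fun hi hj hi1 hi2 hj1 hj2 => adj_step hd hP (by omega) hrs' hr hs hne hi hj hi1 hi2 hj1 hj2
  refine ⟨?_, by simp, ?_, ?_, ?_⟩
  · have h1 := hP.nodup
    have h2 : (a :: d :: e :: f :: l).Sublist P := by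
      refine List.Sublist.cons_cons a ?_
      exact (List.sublist_cons_self _ _).trans (List.sublist_cons_self _ _)
    exact h2.nodup h1
  · intro i hi
    rw [hlen'] at hi
    rcases Nat.eq_zero_or_pos i with h0 | h0
    · subst h0
      rw [g0, gs 0]
      exact (key (by omega) (by omega) (by omega) (by omega) (by omega) (by omega)).mpr
        (Or.inr (Or.inl ⟨rfl, rfl⟩))
    · obtain ⟨k, rfl⟩ : ∃ k, i = k + 1 := ⟨i - 1, by omega⟩
      rw [gs k, gs (k + 1)]
      exact (key (by omega) (by omega) (by omega) (by omega) (by omega) (by omega)).mpr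
        (Or.inl (hP.adj (k + 3) (by omega)))
  · rw [hlen']
    have h1 : l.length + 4 - 1 = (l.length + 2) + 1 := by omega
    rw [h1, g0, gs (l.length + 2)]
    refine (key (by omega) (by omega) (by omega) (by omega) (by omega) (by omega)).mpr (Or.inl ?_)
    have h2 := hP.close
    rw [hlen] at h2
    exact h2
  · intro i j hij hj h
    rw [hlen'] at hj ⊢
    obtain ⟨k, rfl⟩ : ∃ k, j = k + 1 := ⟨j - 1, by omega⟩
    rcases Nat.eq_zero_or_pos i with h0 | h0
    · subst h0
      rw [g0, gs k] at h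
      rcases (key (by omega) (by omega) (by omega) (by omega) (by omega) (by omega)).mp h with h1 | h1
      · have h2 := chord' hd hP (by omega) (by omega) h1
        rw [hlen] at h2
        omega
      · omega
    · obtain ⟨m, rfl⟩ : ∃ m, i = m + 1 := ⟨i - 1, by omega⟩
      rw [gs m, gs k] at h
      rcases (key (by omega) (by omega) (by omega) (by omega) (by omega) (by omega)).mp h with h1 | h1
      · have h2 := chord' hd hP (by omega) (by omega) h1
        rw [hlen] at h2
        omega
      · omega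

variable {V : Type} [AddCommGroup V] [Module F4 V] {v : ℕ → V} {E T S : Finset ℕ}
  {D : ℕ → ℕ → F4}

private theorem cyc_aux (n : ℕ) : ∀ (T S : Finset ℕ) (D : ℕ → ℕ → F4) (P : List ℕ), P.length ≤ n →
    IsD v E T D → S ⊆ E → Cyc D (T ∩ S) (S \ T) P →
    ind v ((T \ P.toFinset) ∪ (P.toFinset \ T)) → U24 (ctr (rkv v) (T \ S)) S := by
  induction n with
  | zero =>
    intro T S D P hl _ _ hP _
    have := hP.four
    omega
  | succ n ih =>
    intro T S D P hl hD hS hP hi
    have hd : Disjoint (T ∩ S) (S \ T) := by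
      rw [Finset.disjoint_left]
      intro x h1 h2
      exact (Finset.mem_sdiff.mp h2).2 (Finset.mem_inter.mp h1).1
    have h4 := hP.four
    match P, hP, hi, hl, h4 with
    | [a, b, c, d], hP, hi, hl, h4 =>
      have n1 := hP.nodup
      simp only [List.nodup_cons, List.mem_cons, List.not_mem_nil, or_false, not_or, List.nodup_nil,
        and_true, not_false_eq_true] at n1
      obtain ⟨⟨hab, hac, had⟩, ⟨hbc, hbd⟩, hcd⟩ := n1
      have a01 : adjD D (T ∩ S) (S \ T) a b := hP.adj 0 (by simp)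
      have a12 : adjD D (T ∩ S) (S \ T) b c := hP.adj 1 (by simp)
      have a23 : adjD D (T ∩ S) (S \ T) c d := hP.adj 2 (by simp)
      have a03 : adjD D (T ∩ S) (S \ T) a d := hP.close
      have hset : ([a, b, c, d] : List ℕ).toFinset = {a, b, c, d} := by simp
      rw [hset] at hi
      rcases a01 with ⟨ha, hb, h1⟩ | ⟨hb, ha, h1⟩
      · obtain ⟨hc, h2⟩ := adj_col hd hb a12
        obtain ⟨hd', h3⟩ := adj_row hd hc a23
        obtain ⟨_, h5⟩ := adj_row hd ha a03
        refine u24_four hD hS ha hc hac hb hd' hbd h1 h5 h2 h3 ?_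
        have e1 : (T \ {a, b, c, d}) ∪ ({a, b, c, d} \ T) = (T \ {a, c}) ∪ {b, d} := by
          have ha' := (Finset.mem_inter.mp ha).1
          have hc' := (Finset.mem_inter.mp hc).1
          have hb' := (Finset.mem_sdiff.mp hb).2
          have hd'' := (Finset.mem_sdiff.mp hd').2
          ext x
          simp only [Finset.mem_union, Finset.mem_sdiff, Finset.mem_insert, Finset.mem_singleton]
          constructor
          · rintro (⟨h6, h7⟩ | ⟨h6, h7⟩)
            · left
              exact ⟨h6, fun h8 => h7 (by tauto)⟩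
            · rcases h6 with rfl | rfl | rfl | rfl
              · exact absurd ha' h7
              · right; left; rfl
              · exact absurd hc' h7
              · right; right; rfl
          · rintro (⟨h6, h7⟩ | h6)
            · left
              refine ⟨h6, ?_⟩
              rintro (rfl | rfl | rfl | rfl)
              · exact h7 (Or.inl rfl)
              · exact hb' h6
              · exact h7 (Or.inr rfl)
              · exact hd'' h6
            · right
              rcases h6 with rfl | rfl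
              · exact ⟨by tauto, hb'⟩
              · exact ⟨by tauto, hd''⟩
        rw [e1] at hi
        exact hi
      · obtain ⟨hc, h2⟩ := adj_row hd hb a12
        obtain ⟨hd', h3⟩ := adj_col hd hc a23
        obtain ⟨_, h5⟩ := adj_col hd ha a03
        refine u24_four hD hS hb hd' hbd ha hc hac h1 h2 h5 h3 ?_
        have e1 : (T \ {a, b, c, d}) ∪ ({a, b, c, d} \ T) = (T \ {b, d}) ∪ {a, c} := by
          have ha' := (Finset.mem_inter.mp hb).1
          have hc' := (Finset.mem_inter.mp hd').1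
          have hb' := (Finset.mem_sdiff.mp ha).2
          have hd'' := (Finset.mem_sdiff.mp hc).2
          ext x
          simp only [Finset.mem_union, Finset.mem_sdiff, Finset.mem_insert, Finset.mem_singleton]
          constructor
          · rintro (⟨h6, h7⟩ | ⟨h6, h7⟩)
            · left
              exact ⟨h6, fun h8 => h7 (by tauto)⟩
            · rcases h6 with rfl | rfl | rfl | rfl
              · right; left; rfl
              · exact absurd ha' h7
              · right; right; rfl
              · exact absurd hc' h7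
          · rintro (⟨h6, h7⟩ | h6)
            · left
              refine ⟨h6, ?_⟩
              rintro (rfl | rfl | rfl | rfl)
              · exact hb' h6
              · exact h7 (Or.inl rfl)
              · exact hd'' h6
              · exact h7 (Or.inr rfl)
            · right
              rcases h6 with rfl | rfl
              · exact ⟨by tauto, hb'⟩
              · exact ⟨by tauto, hd''⟩
        rw [e1] at hi
        exact hi
    | [a, b, c, d, e], hP, hi, hl, h4 =>
      exfalso
      have a01 : adjD D (T ∩ S) (S \ T) a b := hP.adj 0 (by simp)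
      have a12 : adjD D (T ∩ S) (S \ T) b c := hP.adj 1 (by simp)
      have a23 : adjD D (T ∩ S) (S \ T) c d := hP.adj 2 (by simp)
      have a34 : adjD D (T ∩ S) (S \ T) d e := hP.adj 3 (by simp)
      have a04 : adjD D (T ∩ S) (S \ T) a e := hP.close
      rcases a01 with ⟨ha, hb, h1⟩ | ⟨hb, ha, h1⟩
      · have hc := (adj_col hd hb a12).1
        have hd' := (adj_row hd hc a23).1
        have he := (adj_col hd hd' a34).1
        exact Finset.disjoint_left.mp hd he (adj_row hd ha a04).1
      · have hc := (adj_row hd hb a12).1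
        have hd' := (adj_col hd hc a23).1
        have he := (adj_row hd hd' a34).1
        exact Finset.disjoint_left.mp hd (adj_col hd ha a04).1 he
    | a :: b :: c :: d :: e :: f :: l, hP, hi, hl, h4 =>
      have a12 : adjD D (T ∩ S) (S \ T) b c := hP.adj 1 (by simp)
      obtain ⟨r, s, hrs, hr, hs, hne⟩ : ∃ r s, ((r = b ∧ s = c) ∨ (r = c ∧ s = b)) ∧ r ∈ T ∩ S ∧ s ∈ S \ T ∧
          D r s ≠ 0 := by
        rcases a12 with ⟨h1, h2, h3⟩ | ⟨h1, h2, h3⟩
        · exact ⟨b, c, Or.inl ⟨rfl, rfl⟩, h1, h2, h3⟩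
        · exact ⟨c, b, Or.inr ⟨rfl, rfl⟩, h1, h2, h3⟩
      have hrT := (Finset.mem_inter.mp hr).1
      have hrS := (Finset.mem_inter.mp hr).2
      have hsS := (Finset.mem_sdiff.mp hs).1
      have hsT := (Finset.mem_sdiff.mp hs).2
      have hrs' : r ≠ s := fun h => hsT (h ▸ hrT)
      have hD' : IsD v E (insert s (T.erase r)) (piv D r s) :=
        isD_pivot hD hrT (Finset.mem_sdiff.mpr ⟨hS hsS, hsT⟩) hne
      have hcyc := cyc_step hd hP hrs hr hs hne
      -- the sets
      have e1 : insert s (T.erase r) ∩ (S \ {r, s}) = (T ∩ S).erase r := by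
        ext x
        simp only [Finset.mem_inter, Finset.mem_insert, Finset.mem_erase, Finset.mem_sdiff, Finset.mem_singleton]
        constructor
        · rintro ⟨h1 | h1, h2, h3⟩
          · exact absurd (Or.inr h1) h3
          · exact ⟨h1.1, h1.2, h2⟩
        · rintro ⟨h1, h2, h3⟩
          refine ⟨Or.inr ⟨h1, h2⟩, h3, ?_⟩
          rintro (h5 | h5)
          · exact h1 h5
          · exact hsT (h5 ▸ h2)
      have e2 : (S \ {r, s}) \ insert s (T.erase r) = (S \ T).erase s := by
        ext x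
        simp only [Finset.mem_insert, Finset.mem_erase, Finset.mem_sdiff, Finset.mem_singleton]
        constructor
        · rintro ⟨⟨h1, h2⟩, h3⟩
          refine ⟨fun h5 => h2 (Or.inr h5), h1, fun h5 => ?_⟩
          exact h3 (Or.inr ⟨fun h6 => h2 (Or.inl h6), h5⟩)
        · rintro ⟨h1, h2, h3⟩
          refine ⟨⟨h2, ?_⟩, ?_⟩
          · rintro (h5 | h5)
            · exact h3 (h5 ▸ hrT)
            · exact h1 h5
          · rintro (h5 | h5)
            · exact h1 h5
            · exact h3 h5.2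
      have e3 : insert s (T.erase r) \ (S \ {r, s}) = (T \ S) ∪ {s} := by
        ext x
        simp only [Finset.mem_union, Finset.mem_insert, Finset.mem_erase, Finset.mem_sdiff, Finset.mem_singleton]
        constructor
        · rintro ⟨h1 | h1, h2⟩
          · exact Or.inr h1
          · by_cases h3 : x = s
            · exact Or.inr h3
            · refine Or.inl ⟨h1.2, fun h5 => h2 ⟨h5, ?_⟩⟩
              rintro (h6 | h6)
              · exact h1.1 h6
              · exact h3 h6
        · rintro (⟨h1, h2⟩ | h1)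
          · refine ⟨Or.inr ⟨fun h3 => h2 (h3 ▸ hrS), h1⟩, fun h5 => h2 h5.1⟩
          · exact ⟨Or.inl h1, fun h5 => h5.2 (Or.inr h1)⟩
      have hnd := hP.nodup
      have hbc : b ∉ (a :: d :: e :: f :: l) ∧ c ∉ (a :: d :: e :: f :: l) := by
        simp only [List.nodup_cons, List.mem_cons, not_or] at hnd ⊢
        tauto
      have hrP : r ∉ (a :: d :: e :: f :: l).toFinset := by
        rw [List.mem_toFinset]
        rcases hrs with ⟨h1, _⟩ | ⟨h1, _⟩
        · rw [h1]; exact hbc.1
        · rw [h1]; exact hbc.2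
      have hsP : s ∉ (a :: d :: e :: f :: l).toFinset := by
        rw [List.mem_toFinset]
        rcases hrs with ⟨_, h1⟩ | ⟨_, h1⟩
        · rw [h1]; exact hbc.2
        · rw [h1]; exact hbc.1
      have hPP : (a :: b :: c :: d :: e :: f :: l).toFinset = (a :: d :: e :: f :: l).toFinset ∪ {r, s} := by
        ext x
        simp only [List.mem_toFinset, List.mem_cons, Finset.mem_union, Finset.mem_insert, Finset.mem_singleton]
        rcases hrs with ⟨rfl, rfl⟩ | ⟨rfl, rfl⟩ <;> tauto
      have e4 : (insert s (T.erase r) \ (a :: d :: e :: f :: l).toFinset) ∪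
          ((a :: d :: e :: f :: l).toFinset \ insert s (T.erase r)) =
          (T \ (a :: b :: c :: d :: e :: f :: l).toFinset) ∪
          ((a :: b :: c :: d :: e :: f :: l).toFinset \ T) := by
        rw [hPP]
        generalize (a :: d :: e :: f :: l).toFinset = Q at hrP hsP
        ext x
        simp only [Finset.mem_union, Finset.mem_insert, Finset.mem_erase, Finset.mem_sdiff, Finset.mem_singleton]
        by_cases hxr : x = r
        · subst hxr
          simp [hrT, hrs', hrP]
        · by_cases hxs : x = s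
          · subst hxs
            simp [hsT, hsP]
          · simp [hxr, hxs]
      have hind : ind v ((insert s (T.erase r) \ (a :: d :: e :: f :: l).toFinset) ∪
          ((a :: d :: e :: f :: l).toFinset \ insert s (T.erase r))) := by
        rw [e4]; exact hi
      have hU := ih (insert s (T.erase r)) (S \ {r, s}) (piv D r s) (a :: d :: e :: f :: l)
        (by simp only [List.length_cons] at hl ⊢; omega) hD' (Finset.sdiff_subset.trans hS)
        (by rw [e1, e2]; exact hcyc) hind
      rw [e3] at hU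
      have hfun : ctr (rkv v) ((T \ S) ∪ {s}) = ctr (ctr (rkv v) (T \ S)) {s} := by
        funext X
        exact (ctr_ctr _ _ X).symm
      rw [hfun] at hU
      refine U24.of_minor hU ?_ Finset.sdiff_subset ?_
      · intro x hx
        rw [Finset.mem_singleton.mp hx]
        exact hsS
      · rw [Finset.disjoint_left]
        intro x hx hx2
        rw [Finset.mem_singleton.mp hx] at hx2
        exact (Finset.mem_sdiff.mp hx2).2 (by simp)

theorem cyc_u24 (hD : IsD v E T D) (hS : S ⊆ E) {P : List ℕ} (hP : Cyc D (T ∩ S) (S \ T) P)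
    (hi : ind v ((T \ P.toFinset) ∪ (P.toFinset \ T))) : U24 (ctr (rkv v) (T \ S)) S :=
  cyc_aux P.length T S D P le_rfl hD hS hP hi

end Pool.Agent.G4
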