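import Pool.Agent.G4.Br2
import Pool.Agent.G4.R1b

set_option autoImplicit false

/-!
# Module N5: a binary minor has no minor `U_{2,4}`

PROOF. Let `ρ`, `κ` be as in `Bin`. Let `W = span (v '' (T \ S))`. Put `u t = (ρ t)⁻¹ • v t` for
`t ∈ T ∩ S` and `u n = κ n • v n` for `n ∈ S \ T`; then modulo `W`
`u n = ∑_{t ∈ T ∩ S} (ρ t * D t n * κ n) • u t` with coefficients `0` or `1`. So for `e ∈ S` the
coordinates `x e : T ∩ S → F4` of `u e` modulo `W` are `0` or `1`, i.e. fixed by `conj`, and for
`A ⊆ S` `ctr (rkv v) (T \ S) A` is the dimension of the span of the `x e`, `e ∈ A` (`u e` is a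
nonzero multiple of `v e`).
Let `(C, Z)` be a witness of `U24`, `Z = {z₁, z₂, z₃, z₄}`, `Q = span {x c : c ∈ C}`: `x z₁`, `x z₂` are
independent modulo `Q` and `x z₃ = α x z₁ + β x z₂ + q`, `q ∈ Q`. Apply `conj` to all coordinates:
`x z₃ = (conj α) x z₁ + (conj β) x z₂ + q'` with `q' ∈ Q` (`Q` is spanned by vectors fixed by
`conj`). So `α = conj α`, `β = conj β`, i.e. `α, β ∈ {0, 1}`; `α = 0` would make `z₂, z₃` parallel
modulo `Q` (rank of `C ∪ {z₂, z₃}` is rank of `C` plus two), so `α = β = 1`. In the same way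
`x z₄ = x z₁ + x z₂ + q''`. So `x z₃ - x z₄ ∈ Q`: contradiction to the rank of `C ∪ {z₃, z₄}`.
-/

namespace Pool.Agent.G4

open F4 Finset

variable {V : Type} [AddCommGroup V] [Module F4 V] {v : ℕ → V} {E T S : Finset ℕ}
  {D : ℕ → ℕ → F4}

private theorem n5_J (hD : IsD v E T D) (hS : S ⊆ E) (ρ κ : ℕ → F4)
    (hn : ∀ e, ρ e ≠ 0 ∧ κ e ≠ 0)
    (hb : ∀ b ∈ T ∩ S, ∀ n ∈ S \ T, ρ b * D b n * κ n = 0 ∨ ρ b * D b n * κ n = 1) :
    ∃ (J : V → V) (s : ℕ → F4), (∀ x y, J (x + y) = J x + J y) ∧
      (∀ (a : F4) x, J (a • x) = conj a • J x) ∧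
      (∀ e ∈ S, s e ≠ 0 ∧
        J (s e • v e) - s e • v e ∈ Submodule.span F4 (v '' ((T \ S : Finset ℕ) : Set ℕ))) ∧
      ∀ e ∈ T \ S, J (v e) ∈ Submodule.span F4 (v '' ((T \ S : Finset ℕ) : Set ℕ)) := by
  classical
  have hli : LinearIndependent F4 fun e : T => v e := hD.2.1
  obtain ⟨g, hg⟩ := LinearMap.exists_leftInverse_of_injective
    (Finsupp.linearCombination F4 fun e : T => v e) (LinearMap.ker_eq_bot.2 hli)
  have hgv : ∀ t : T, g (v t) = Finsupp.single t 1 := by
    intro t
    have h1 := LinearMap.congr_fun hg (Finsupp.single t 1)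
    rw [LinearMap.comp_apply, Finsupp.linearCombination_single, one_smul, LinearMap.id_apply] at h1
    exact h1
  obtain ⟨J, hJ⟩ : ∃ J : V → V, ∀ x, J x =
      ∑ t : T, ((ρ t)⁻¹ * conj (ρ t * (g x) t)) • v t := ⟨_, fun _ => rfl⟩
  have hadd : ∀ x y, J (x + y) = J x + J y := by
    intro x y
    rw [hJ, hJ, hJ, ← Finset.sum_add_distrib]
    refine Finset.sum_congr rfl fun t _ => ?_
    rw [map_add, Finsupp.add_apply, mul_add, conj_add, mul_add, add_smul]
  have hsm : ∀ (a : F4) x, J (a • x) = conj a • J x := by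
    intro a x
    rw [hJ, hJ, Finset.smul_sum]
    refine Finset.sum_congr rfl fun t _ => ?_
    rw [map_smul, Finsupp.smul_apply, smul_eq_mul, smul_smul, conj_mul, conj_mul, conj_mul]
    congr 1
    ring
  have hJt : ∀ e (he : e ∈ T), J (v e) = ((ρ e)⁻¹ * conj (ρ e)) • v e := by
    intro e he
    have h1 := hgv ⟨e, he⟩
    rw [hJ, Finset.sum_eq_single (⟨e, he⟩ : T)]
    · have h2 : (g (v e)) (⟨e, he⟩ : T) = 1 := by
        show (g (v ((⟨e, he⟩ : T) : ℕ))) (⟨e, he⟩ : T) = 1
        rw [h1, Finsupp.single_eq_same]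
      rw [h2, mul_one]
    · intro t _ hte
      have h2 : (g (v e)) t = 0 := by
        show (g (v ((⟨e, he⟩ : T) : ℕ))) t = 0
        rw [h1, Finsupp.single_eq_of_ne hte]
      rw [h2, mul_zero, conj_zero, mul_zero, zero_smul]
    · intro h
      exact absurd (Finset.mem_univ _) h
  refine ⟨J, fun e => if e ∈ T then (ρ e)⁻¹ else κ e, hadd, hsm, ?_, ?_⟩
  · intro e heS
    by_cases heT : e ∈ T
    · simp only [if_pos heT]
      refine ⟨inv_ne_zero (hn e).1, ?_⟩
      rw [hsm, hJt e heT, smul_smul]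
      have k : ∀ r : F4, r ≠ 0 → conj r⁻¹ * (r⁻¹ * conj r) = r⁻¹ := by decide
      rw [k _ (hn e).1, sub_self]
      exact Submodule.zero_mem _
    · simp only [if_neg heT]
      refine ⟨(hn e).2, ?_⟩
      have hve : v e = ∑ t : T, D t e • v t := by
        rw [hD.2.2 e (hS heS)]
        exact (Finset.sum_coe_sort T (fun t => D t e • v t)).symm
      have hge : ∀ t : T, (g (κ e • v e)) t = κ e * D t e := by
        intro t
        rw [map_smul, hve, map_sum, Finsupp.smul_apply, Finsupp.finsetSum_apply, smul_eq_mul,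
          Finset.sum_eq_single t]
        · rw [map_smul, hgv, Finsupp.smul_apply, Finsupp.single_eq_same, smul_eq_mul, mul_one]
        · intro t' _ h
          rw [map_smul, hgv, Finsupp.smul_apply, Finsupp.single_eq_of_ne (Ne.symm h), smul_zero]
        · intro h
          exact absurd (Finset.mem_univ _) h
      have h1 : J (κ e • v e) - κ e • v e =
          ∑ t : T, ((ρ t)⁻¹ * conj (ρ t * (κ e * D t e)) - κ e * D t e) • v t := by
        have h2 : κ e • v e = ∑ t : T, (κ e * D t e) • v t := by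
          rw [hve, Finset.smul_sum]
          exact Finset.sum_congr rfl fun t _ => smul_smul _ _ _
        rw [hJ]
        simp only [hge]
        rw [h2, ← Finset.sum_sub_distrib]
        exact Finset.sum_congr rfl fun t _ => (sub_smul _ _ _).symm
      rw [h1]
      refine Submodule.sum_mem _ fun t _ => ?_
      by_cases htS : (t : ℕ) ∈ S
      · have h3 := hb t (Finset.mem_inter.2 ⟨t.2, htS⟩) e (Finset.mem_sdiff.2 ⟨heS, heT⟩)
        have k : ∀ r d k : F4, r ≠ 0 → (r * d * k = 0 ∨ r * d * k = 1) →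
            r⁻¹ * conj (r * (k * d)) - k * d = 0 := by decide
        rw [k _ _ _ (hn t).1 h3, zero_smul]
        exact Submodule.zero_mem _
      · refine Submodule.smul_mem _ _ (Submodule.subset_span ⟨t, ?_, rfl⟩)
        exact Finset.mem_coe.2 (Finset.mem_sdiff.2 ⟨t.2, htS⟩)
  · intro e he
    rw [hJt e (Finset.mem_sdiff.1 he).1]
    exact Submodule.smul_mem _ _ (Submodule.subset_span ⟨e, Finset.mem_coe.2 he, rfl⟩)

private theorem n5_rk_eq (A B : Finset ℕ) (hAB : A ⊆ B)
    (h : ∀ e ∈ B, v e ∈ Submodule.span F4 (v '' (A : Set ℕ))) : rkv v B = rkv v A := by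
  have h1 : Submodule.span F4 (v '' (B : Set ℕ)) = Submodule.span F4 (v '' (A : Set ℕ)) := by
    apply le_antisymm
    · rw [Submodule.span_le]
      rintro _ ⟨e, he, rfl⟩
      exact h e (Finset.mem_coe.1 he)
    · exact Submodule.span_mono (Set.image_mono (Finset.coe_subset.2 hAB))
  unfold rkv
  rw [h1]

private theorem n5_mem (A B : Finset ℕ) (hAB : A ⊆ B) (h : rkv v B = rkv v A) :
    ∀ e ∈ B, v e ∈ Submodule.span F4 (v '' (A : Set ℕ)) := by
  have h0 : Submodule.span F4 (v '' (A : Set ℕ)) ≤ Submodule.span F4 (v '' (B : Set ℕ)) :=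
    Submodule.span_mono (Set.image_mono (Finset.coe_subset.2 hAB))
  have : FiniteDimensional F4 (Submodule.span F4 (v '' (B : Set ℕ))) :=
    FiniteDimensional.span_of_finite F4 ((Finset.finite_toSet B).image v)
  have h1 : Module.finrank F4 (Submodule.span F4 (v '' (A : Set ℕ))) =
      Module.finrank F4 (Submodule.span F4 (v '' (B : Set ℕ))) := by
    unfold rkv at h
    exact_mod_cast h.symm
  have h2 := Submodule.eq_of_le_of_finrank_eq h0 h1
  intro e he
  rw [h2]
  exact Submodule.subset_span ⟨e, Finset.mem_coe.2 he, rfl⟩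

theorem bin_not_u24 (hD : IsD v E T D) (hS : S ⊆ E) (hB : Bin D (T ∩ S) (S \ T)) :
    ¬ U24 (ctr (rkv v) (T \ S)) S := by
  classical
  rintro ⟨C, Z, hCS, hZS, hCZ, hZ4, hU⟩
  obtain ⟨ρ, κ, hn, hb⟩ := hB
  obtain ⟨J, s, hadd, hsm, hJs, hJt⟩ := n5_J hD hS ρ κ hn hb
  obtain ⟨A, hA⟩ : ∃ A : Finset ℕ, A = (T \ S) ∪ C := ⟨_, rfl⟩
  have hU' : ∀ X ⊆ Z, rkv v (A ∪ X) - rkv v A = min (X.card : ℤ) 2 := by
    intro X hX
    have h := hU X hX
    rw [ctr_ctr, ← hA] at h
    exact h
  obtain ⟨Q, hQ⟩ : ∃ Q : Submodule F4 V, Q = Submodule.span F4 (v '' (A : Set ℕ)) := ⟨_, rfl⟩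
  have hWQ : Submodule.span F4 (v '' ((T \ S : Finset ℕ) : Set ℕ)) ≤ Q := by
    rw [hQ]
    refine Submodule.span_mono (Set.image_mono (Finset.coe_subset.2 ?_))
    rw [hA]
    exact Finset.subset_union_left
  have hJQ : ∀ x ∈ Q, J x ∈ Q := by
    intro x hx
    rw [hQ] at hx
    induction hx using Submodule.span_induction with
    | mem x hx =>
      obtain ⟨e, he, rfl⟩ := hx
      rw [Finset.mem_coe, hA, Finset.mem_union] at he
      rcases he with he | he
      · exact hWQ (hJt e he)
      · obtain ⟨hs, h1⟩ := hJs e (hCS he)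
        have h2 : v e ∈ Q := by
          rw [hQ]
          refine Submodule.subset_span ⟨e, Finset.mem_coe.2 ?_, rfl⟩
          rw [hA]
          exact Finset.mem_union_right _ he
        have h3 : J (s e • v e) ∈ Q := by
          have h4 := Submodule.add_mem _ (hWQ h1) (Submodule.smul_mem Q (s e) h2)
          rwa [sub_add_cancel] at h4
        rw [hsm] at h3
        have h5 : conj (s e) ≠ 0 := fun h => hs ((conj_eq_zero _).1 h)
        have h6 := Submodule.smul_mem Q (conj (s e))⁻¹ h3
        rwa [smul_smul, inv_mul_cancel₀ h5, one_smul] at h6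
    | zero =>
      have h1 := hsm 0 0
      rw [zero_smul, conj_zero, zero_smul] at h1
      rw [h1]
      exact Submodule.zero_mem _
    | add x y _ _ hx hy =>
      rw [hadd]
      exact Submodule.add_mem _ hx hy
    | smul a x _ hx =>
      rw [hsm]
      exact Submodule.smul_mem _ _ hx
  have hind : ∀ a ∈ Z, ∀ b ∈ Z, a ≠ b → ∀ α β : F4, α • v a + β • v b ∈ Q → β = 0 := by
    intro a ha b hbZ hab α β h
    by_contra hβ
    have h1 : v b ∈ Submodule.span F4 (v '' ((insert a A : Finset ℕ) : Set ℕ)) := by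
      have h2 : v b = β⁻¹ • ((α • v a + β • v b) - α • v a) := by
        rw [add_sub_cancel_left, smul_smul, inv_mul_cancel₀ hβ, one_smul]
      rw [h2]
      refine Submodule.smul_mem _ _ (Submodule.sub_mem _ ?_ (Submodule.smul_mem _ _ ?_))
      · rw [hQ] at h
        refine Submodule.span_mono (Set.image_mono (Finset.coe_subset.2 ?_)) h
        exact Finset.subset_insert _ _
      · exact Submodule.subset_span ⟨a, Finset.mem_coe.2 (Finset.mem_insert_self _ _), rfl⟩
    have h3 : rkv v (insert b (insert a A)) = rkv v (insert a A) := by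
      refine n5_rk_eq _ _ (Finset.subset_insert _ _) fun e he => ?_
      rcases Finset.mem_insert.1 he with rfl | he
      · exact h1
      · exact Submodule.subset_span ⟨e, Finset.mem_coe.2 he, rfl⟩
    have h4 := hU' {a} (Finset.singleton_subset_iff.2 ha)
    have h5 := hU' {a, b} (Finset.insert_subset ha (Finset.singleton_subset_iff.2 hbZ))
    rw [Finset.card_singleton] at h4
    rw [Finset.card_pair hab] at h5
    have h6 : A ∪ {a} = insert a A := by
      ext e
      simp [or_comm]
    have h7 : A ∪ {a, b} = insert b (insert a A) := by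
      ext e
      simp only [Finset.mem_union, Finset.mem_insert, Finset.mem_singleton]
      tauto
    rw [h6] at h4
    rw [h7, h3] at h5
    norm_num at h4 h5
    omega
  have hdep : ∀ a ∈ Z, ∀ b ∈ Z, ∀ c ∈ Z, a ≠ b → a ≠ c → b ≠ c →
      s c • v c - (s a • v a + s b • v b) ∈ Q := by
    intro a ha b hbZ c hc hab hac hbc
    have h5 := hU' {a, b} (Finset.insert_subset ha (Finset.singleton_subset_iff.2 hbZ))
    have h8 := hU' {a, b, c} (Finset.insert_subset ha (Finset.insert_subset hbZ
      (Finset.singleton_subset_iff.2 hc)))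
    rw [Finset.card_pair hab] at h5
    rw [Finset.card_eq_three.2 ⟨a, b, c, hab, hac, hbc, rfl⟩] at h8
    have h7 : A ∪ {a, b} = insert a (insert b A) := by
      ext e
      simp only [Finset.mem_union, Finset.mem_insert, Finset.mem_singleton]
      tauto
    have h9 : A ∪ {a, b, c} = insert c (insert a (insert b A)) := by
      ext e
      simp only [Finset.mem_union, Finset.mem_insert, Finset.mem_singleton]
      tauto
    rw [h7] at h5
    rw [h9] at h8
    norm_num at h5 h8
    have h10 := n5_mem (insert a (insert b A)) (insert c (insert a (insert b A)))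
      (Finset.subset_insert _ _) (by linarith) c (Finset.mem_insert_self _ _)
    rw [Finset.coe_insert, Finset.coe_insert, Set.image_insert_eq, Set.image_insert_eq,
      Submodule.mem_span_insert] at h10
    obtain ⟨α, x, hx, h11⟩ := h10
    rw [Submodule.mem_span_insert] at hx
    obtain ⟨β, q, hq, h12⟩ := hx
    rw [← hQ] at hq
    obtain ⟨hsa, hJa⟩ := hJs a (hZS ha)
    obtain ⟨hsb, hJb⟩ := hJs b (hZS hbZ)
    obtain ⟨hsc, hJc⟩ := hJs c (hZS hc)
    -- scaled relation
    obtain ⟨α', hα'⟩ : ∃ α' : F4, α' = s c * α * (s a)⁻¹ := ⟨_, rfl⟩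
    obtain ⟨β', hβ'⟩ : ∃ β' : F4, β' = s c * β * (s b)⁻¹ := ⟨_, rfl⟩
    have h13 : s c • v c - (α' • (s a • v a) + β' • (s b • v b)) ∈ Q := by
      have h14 : s c • v c - (α' • (s a • v a) + β' • (s b • v b)) = s c • q := by
        rw [h11, h12, hα', hβ', smul_smul, smul_smul, inv_mul_cancel_right₀ hsa,
          inv_mul_cancel_right₀ hsb, smul_add, smul_add, smul_smul, smul_smul]
        abel
      rw [h14]
      exact Submodule.smul_mem _ _ hq
    have hneg : ∀ x : V, J (-x) = -J x := by
      intro x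
      have h1 := hsm (-1) x
      have h2 : conj (-1 : F4) = -1 := by decide
      rw [h2, neg_smul, neg_smul, one_smul, one_smul] at h1
      exact h1
    have h15 := hJQ _ h13
    rw [sub_eq_add_neg, hadd, hneg, hadd, hsm α', hsm β'] at h15
    -- difference
    have h16 : (α' - conj α') • (s a • v a) + (β' - conj β') • (s b • v b) ∈ Q := by
      have h17 : (α' - conj α') • (s a • v a) + (β' - conj β') • (s b • v b) =
          (J (s c • v c) + -(conj α' • J (s a • v a) + conj β' • J (s b • v b))) -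
          (s c • v c - (α' • (s a • v a) + β' • (s b • v b))) -
          (J (s c • v c) - s c • v c) + conj α' • (J (s a • v a) - s a • v a) +
          conj β' • (J (s b • v b) - s b • v b) := by
        rw [sub_smul, sub_smul, smul_sub, smul_sub]
        abel
      rw [h17]
      refine Submodule.add_mem _ (Submodule.add_mem _ (Submodule.sub_mem _
        (Submodule.sub_mem _ h15 h13) (hWQ hJc)) (Submodule.smul_mem _ _ (hWQ hJa)))
        (Submodule.smul_mem _ _ (hWQ hJb))
    rw [smul_smul, smul_smul] at h16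
    have h18 := hind a ha b hbZ hab _ _ h16
    have h19 := hind b hbZ a ha (Ne.symm hab) _ _ (by rw [add_comm]; exact h16)
    have k : ∀ x y : F4, y ≠ 0 → (x - conj x) * y = 0 → x = 0 ∨ x = 1 := by decide
    have hβ1 : β' = 1 := by
      rcases k _ _ hsb h18 with h | h
      · exfalso
        rw [h, zero_smul, add_zero, smul_smul] at h13
        have h20 := hind a ha c hc hac (-(α' * s a)) (s c) (by
          rw [neg_smul, add_comm, ← sub_eq_add_neg]
          exact h13)
        exact hsc h20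
      · exact h
    have hα1 : α' = 1 := by
      rcases k _ _ hsa h19 with h | h
      · exfalso
        rw [h, zero_smul, zero_add, smul_smul] at h13
        have h20 := hind b hbZ c hc hbc (-(β' * s b)) (s c) (by
          rw [neg_smul, add_comm, ← sub_eq_add_neg]
          exact h13)
        exact hsc h20
      · exact h
    rw [hα1, hβ1, one_smul, one_smul] at h13
    exact h13
  have hZne : Z.Nonempty := by
    rw [← Finset.card_pos]
    omega
  obtain ⟨a, ha⟩ := hZne
  have h3 : (Z.erase a).card = 3 := by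
    rw [Finset.card_erase_of_mem ha, hZ4]
  obtain ⟨b, c, d, hbc, hbd, hcd, hZe⟩ := Finset.card_eq_three.1 h3
  have hb' : b ∈ Z.erase a := by rw [hZe]; simp
  have hc' : c ∈ Z.erase a := by rw [hZe]; simp
  have hd' : d ∈ Z.erase a := by rw [hZe]; simp
  rw [Finset.mem_erase] at hb' hc' hd'
  have h4 := hdep a ha b hb'.2 c hc'.2 (Ne.symm hb'.1) (Ne.symm hc'.1) hbc
  have h5 := hdep a ha b hb'.2 d hd'.2 (Ne.symm hb'.1) (Ne.symm hd'.1) hbd
  have h6 := Submodule.sub_mem _ h4 h5
  have h7 : s c • v c - (s a • v a + s b • v b) - (s d • v d - (s a • v a + s b • v b)) =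
      (-(s d)) • v d + s c • v c := by
    rw [neg_smul]
    abel
  rw [h7] at h6
  exact (hJs c (hZS hc'.2)).1 (hind d hd'.2 c hc'.2 (Ne.symm hcd) _ _ h6)

end Pool.Agent.G4
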