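import Pool.Agent.G4.N3
import Pool.Agent.G4.N4b
import Pool.Agent.G4.N5
import Pool.Agent.G4.T1

set_option autoImplicit false

/-!
# Module N6: the test `nonbin`

Let `t` be a table of `D` with rows `T ∩ S` and columns `S \ T`.
PROOF of `bin_of_false`: invariant of `(cycStep G (gr t))^[i] ([], [])` (`G = t.2.1`), state `(H, out)`:
`H ⊆ G`; `out` consists of chordless cycles `P` and (if all `P ∈ out` satisfy
`X (word E (dif T P ++ dif P T)) = false`) there is a scaling `Scal D ρ κ H`; and
`min i (number of different elements of G) ≤` number of different elements of `G` which are in `H`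
(each step adds an element of `G \ H` if there is one), so after `G.length` steps all elements of `G`
are in `H`. Step: if the filtered list `c` is not empty: `head_cyc`, `scal_cyc`; if it is empty and
`rest = (b, n) :: _`: no walk in `H` has the ends `(b, n)` (`paths_spec`, third part: all vertices of
such a walk are in `gr t`; a walk `q` with `ends q = (b, n)` has at least two vertices, `b ≠ n`, and
its vertices are ends of edges of `H ⊆ G`), `scal_add`; if `rest = []` nothing changes (then
`c = []`). At the end `Scal D ρ κ G` and the entries outside `G` are zero: `Bin`.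
PROOF of `nonbin_iff`: `nonbin = false` gives `Bin` (every cycle of `cycs t` fails the test). If
`nonbin = true` there is a chordless cycle `P` in `cycs t` (invariant) with
`ind v ((T \ P) ∪ (P \ T))`, `cyc_u24` gives `U24`, and `bin_not_u24` says `¬ Bin`.
`bin_iff`: `U24 → ¬ Bin` (`bin_not_u24`), `¬ Bin → nonbin = true → U24`.
-/

namespace Pool.Agent.G4

open N487b59b3 F4 Pool.Agent.Helper22 Finset

private theorem walk_mem {H : List (ℕ × ℕ)} {q : List ℕ} (h : Walk H q) (hl : 2 ≤ q.length) :
    ∀ a ∈ q, ∃ e ∈ H, a = e.1 ∨ a = e.2 := by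
  have hc := h.2
  rw [List.isChain_iff_getElem] at hc
  intro a ha
  obtain ⟨i, hi, rfl⟩ := List.getElem_of_mem ha
  by_cases h1 : i + 1 < q.length
  · rcases hc i h1 with h2 | h2
    · exact ⟨_, h2, Or.inl rfl⟩
    · exact ⟨_, h2, Or.inr rfl⟩
  · obtain ⟨k, rfl⟩ : ∃ k, i = k + 1 := ⟨i - 1, by omega⟩
    rcases hc k hi with h2 | h2
    · exact ⟨_, h2, Or.inr rfl⟩
    · exact ⟨_, h2, Or.inl rfl⟩

private theorem cyc_vert {D : ℕ → ℕ → F4} {B N : Finset ℕ} {P : List ℕ} (hP : Cyc D B N P) :
    ∀ a ∈ P, a ∈ B ∨ a ∈ N := by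
  have key : ∀ i, i < P.length → P.getD i 0 ∈ B ∨ P.getD i 0 ∈ N := by
    intro i hi
    have h4 := hP.four
    by_cases h : i + 1 < P.length
    · rcases hP.adj i h with h1 | h1
      · exact Or.inl h1.1
      · exact Or.inr h1.2.1
    · have h2 : P.length - 1 = i := by omega
      have h3 := hP.close
      rw [h2] at h3
      rcases h3 with h1 | h1
      · exact Or.inr h1.2.1
      · exact Or.inl h1.1
  intro a ha
  obtain ⟨i, hi, rfl⟩ := List.getElem_of_mem ha
  have := key i hi
  rwa [List.getD_eq_getElem _ _ hi] at this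

variable {V : Type} [AddCommGroup V] [Module F4 V] {v : ℕ → V} {X : Oracle} {E T S : List ℕ}
  {D : ℕ → ℕ → F4} {t : Tab}

private theorem cycs_inv' (hD : IsD v E.toFinset T.toFinset D)
    (hS : ∀ e ∈ S, e ∈ E) (ht : TabOK D t) (h1 : t.1.1.toFinset = T.toFinset ∩ S.toFinset)
    (h2 : t.1.2.toFinset = S.toFinset \ T.toFinset) (i : ℕ) :
    (∀ e ∈ ((cycStep t.2.1 (gr t))^[i] ([], [])).1, e ∈ t.2.1) ∧
    (∀ P ∈ ((cycStep t.2.1 (gr t))^[i] ([], [])).2, Cyc D (T.toFinset ∩ S.toFinset) (S.toFinset \ T.toFinset) P) ∧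
    (min i (t.2.1.toFinset.card) ≤ (((cycStep t.2.1 (gr t))^[i] ([], [])).1.toFinset).card) ∧
    ((∀ P ∈ ((cycStep t.2.1 (gr t))^[i] ([], [])).2,
        ¬ ind v ((T.toFinset \ P.toFinset) ∪ (P.toFinset \ T.toFinset))) →
      ∃ ρ κ : ℕ → F4, Scal D ρ κ ((cycStep t.2.1 (gr t))^[i] ([], [])).1) := by
  have hd : Disjoint (T.toFinset ∩ S.toFinset) (S.toFinset \ T.toFinset) := by
    rw [Finset.disjoint_left]
    intro x h1 h2
    exact (Finset.mem_sdiff.mp h2).2 (Finset.mem_inter.mp h1).1
  have hSE : S.toFinset ⊆ E.toFinset := by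
    intro x hx
    rw [List.mem_toFinset] at hx ⊢
    exact hS x hx
  have hG : IsG D (T.toFinset ∩ S.toFinset) (S.toFinset \ T.toFinset) t.2.1 := by
    intro p
    rw [ht.one p, ← h1, ← h2, List.mem_toFinset, List.mem_toFinset]
  have hgr : ∀ e, e ∈ gr t ↔ e ∈ (T.toFinset ∩ S.toFinset) ∪ (S.toFinset \ T.toFinset) := by
    intro e
    rw [mem_gr, ← h1, ← h2, Finset.mem_union, List.mem_toFinset, List.mem_toFinset]
  induction i with
  | zero =>
    refine ⟨by simp, by simp, by simp, fun _ => ⟨fun _ => 1, fun _ => 1, fun _ => ⟨one_ne_zero, one_ne_zero⟩, ?_⟩⟩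
    intro p hp
    simp at hp
  | succ i ih =>
    rw [Function.iterate_succ_apply']
    generalize (cycStep t.2.1 (gr t))^[i] ([], []) = s at ih ⊢
    obtain ⟨H, out⟩ := s
    obtain ⟨i1, i2, i3, i4⟩ := ih
    simp only at i1 i2 i3 i4
    have hH' : ∀ e ∈ H, e.1 ∈ T.toFinset ∩ S.toFinset ∧ e.2 ∈ S.toFinset \ T.toFinset := fun e he =>
      ⟨((hG e).mp (i1 e he)).1, ((hG e).mp (i1 e he)).2.1⟩
    have hcard : ∀ e, e ∈ t.2.1 → e ∉ H →
        min (i + 1) (t.2.1.toFinset.card) ≤ ((H ++ [e]).toFinset).card := by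
      intro e _ he
      have e1 : (H ++ [e]).toFinset = insert e H.toFinset := by
        ext x
        simp [or_comm]
      rw [e1, Finset.card_insert_of_notMem (by rwa [List.mem_toFinset])]
      omega
    have hstep : cycStep t.2.1 (gr t) (H, out) =
        if ((paths H (gr t)).filter fun p => decide (ends p ∈ t.2.1.filter fun e => !decide (e ∈ H))).isEmpty
        then (H ++ (t.2.1.filter fun e => !decide (e ∈ H)).take 1, out)
        else (H ++ [ends (((paths H (gr t)).filter fun p =>
            decide (ends p ∈ t.2.1.filter fun e => !decide (e ∈ H))).headD [])],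
          out ++ [((paths H (gr t)).filter fun p =>
            decide (ends p ∈ t.2.1.filter fun e => !decide (e ∈ H))).headD []]) := rfl
    rw [hstep]
    cases hc : ((paths H (gr t)).filter fun p => decide (ends p ∈ t.2.1.filter fun e => !decide (e ∈ H))) with
    | nil =>
      simp only [List.isEmpty_nil, if_true]
      cases hr : (t.2.1.filter fun e => !decide (e ∈ H)) with
      | nil =>
        simp only [List.take_nil, List.append_nil]
        refine ⟨i1, i2, ?_, i4⟩
        have hsub : t.2.1.toFinset ⊆ H.toFinset := by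
          intro e he
          rw [List.mem_toFinset] at he ⊢
          by_contra hne
          have : e ∈ (t.2.1.filter fun e => !decide (e ∈ H)) := by
            rw [List.mem_filter]
            exact ⟨he, by simp [hne]⟩
          rw [hr] at this
          simp at this
        exact (min_le_right _ _).trans (Finset.card_le_card hsub)
      | cons e l =>
        have heG : e ∈ t.2.1 ∧ e ∉ H := by
          have : e ∈ (t.2.1.filter fun e => !decide (e ∈ H)) := by rw [hr]; exact List.mem_cons_self
          rw [List.mem_filter] at this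
          exact ⟨this.1, by simpa using this.2⟩
        have htk : (e :: l).take 1 = [e] := rfl
        simp only [htk]
        refine ⟨?_, i2, hcard e heG.1 heG.2, ?_⟩
        · intro x hx
          rcases List.mem_append.mp hx with hx | hx
          · exact i1 x hx
          · rw [List.mem_singleton.mp hx]; exact heG.1
        · intro hind
          obtain ⟨ρ, κ, hsc⟩ := i4 hind
          have hG' := (hG e).mp heG.1
          obtain ⟨b, n⟩ := e
          refine scal_add hsc hd hH' hG'.1 hG'.2.1 hG'.2.2 ?_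
          intro q hq hends
          have hl2 : 2 ≤ q.length := by
            by_contra hlt
            have hne := hq.1
            match q, hne, hlt with
            | [], hne, _ => exact hne rfl
            | [w], _, _ =>
              have h5 : (w, w) = (b, n) := hends
              have h6 : w = b := congrArg Prod.fst h5
              have h7 : w = n := congrArg Prod.snd h5
              have h8 : b ∈ T.toFinset ∩ S.toFinset := hG'.1
              have h9 : n ∈ S.toFinset \ T.toFinset := hG'.2.1
              rw [← h6] at h8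
              rw [← h7] at h9
              exact Finset.disjoint_left.mp hd h8 h9
            | a :: b :: l, _, hlt => simp at hlt
          have hmem : ∀ a ∈ q, a ∈ gr t := by
            intro a ha
            obtain ⟨e, he, h5⟩ := walk_mem hq hl2 a ha
            rw [hgr, Finset.mem_union]
            rcases h5 with rfl | rfl
            · exact Or.inl (hH' e he).1
            · exact Or.inr (hH' e he).2
          obtain ⟨p, hp, hpe⟩ := (paths_spec H (gr t) ht.gr_nodup).2.2 q hq hmem
          have : p ∈ ((paths H (gr t)).filter fun p =>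
              decide (ends p ∈ t.2.1.filter fun e => !decide (e ∈ H))) := by
            rw [List.mem_filter]
            refine ⟨hp, ?_⟩
            rw [decide_eq_true_eq, hpe, hends, List.mem_filter]
            exact ⟨heG.1, by simpa using heG.2⟩
          rw [hc] at this
          simp at this
    | cons P l =>
      simp only [List.isEmpty_cons, Bool.false_eq_true, if_false, List.headD_cons]
      obtain ⟨c1, c2, c3, c4⟩ := head_cyc hd hG i1 ht.gr_nodup hgr hc
      refine ⟨?_, ?_, hcard _ c3 c4, ?_⟩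
      · intro x hx
        rcases List.mem_append.mp hx with hx | hx
        · exact i1 x hx
        · rw [List.mem_singleton.mp hx]; exact c3
      · intro Q hQ
        rcases List.mem_append.mp hQ with hQ | hQ
        · exact i2 Q hQ
        · rw [List.mem_singleton.mp hQ]; exact c1
      · intro hind
        obtain ⟨ρ, κ, hsc⟩ := i4 fun Q hQ => hind Q (List.mem_append.mpr (Or.inl hQ))
        have hG' := (hG _).mp c3
        exact ⟨ρ, κ, scal_cyc hD hSE hsc hH' c1 c2 ⟨hG'.1, hG'.2.1⟩
          (hind P (List.mem_append.mpr (Or.inr (List.mem_singleton.mpr rfl))))⟩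

theorem cycs_inv (hD : IsD v E.toFinset T.toFinset D)
    (hS : ∀ e ∈ S, e ∈ E) (ht : TabOK D t) (h1 : t.1.1.toFinset = T.toFinset ∩ S.toFinset)
    (h2 : t.1.2.toFinset = S.toFinset \ T.toFinset) (i : ℕ) :
    let s := (cycStep t.2.1 (gr t))^[i] ([], [])
    (∀ e ∈ s.1, e ∈ t.2.1) ∧
    (∀ P ∈ s.2, Cyc D (T.toFinset ∩ S.toFinset) (S.toFinset \ T.toFinset) P) ∧
    (min i (t.2.1.toFinset.card) ≤ (s.1.toFinset).card) ∧
    ((∀ P ∈ s.2, ¬ ind v ((T.toFinset \ P.toFinset) ∪ (P.toFinset \ T.toFinset))) →
      ∃ ρ κ : ℕ → F4, Scal D ρ κ s.1) :=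
  cycs_inv' hD hS ht h1 h2 i

private theorem orc_iff (hX : IsOrc X E v) (hD : IsD v E.toFinset T.toFinset D)
    (hS : ∀ e ∈ S, e ∈ E) {P : List ℕ}
    (hP : Cyc D (T.toFinset ∩ S.toFinset) (S.toFinset \ T.toFinset) P) :
    X (word E (dif T P ++ dif P T)) = true ↔
      ind v ((T.toFinset \ P.toFinset) ∪ (P.toFinset \ T.toFinset)) := by
  rw [hX, List.toFinset_append, dif_toFinset, dif_toFinset]
  intro e he
  rcases List.mem_append.mp he with h | h
  · have h3 := hD.1 (List.mem_toFinset.mpr (mem_dif.mp h).1)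
    exact List.mem_toFinset.mp h3
  · rcases cyc_vert hP e (mem_dif.mp h).1 with h3 | h3
    · exact hS e (List.mem_toFinset.mp (Finset.mem_inter.mp h3).2)
    · exact hS e (List.mem_toFinset.mp (Finset.mem_sdiff.mp h3).1)

theorem nonbin_u24 (hX : IsOrc X E v) (hD : IsD v E.toFinset T.toFinset D)
    (hS : ∀ e ∈ S, e ∈ E) (ht : TabOK D t) (h1 : t.1.1.toFinset = T.toFinset ∩ S.toFinset)
    (h2 : t.1.2.toFinset = S.toFinset \ T.toFinset) (h : nonbin X E T t = true) :
    U24 (ctr (rkv v) (T.toFinset \ S.toFinset)) S.toFinset := by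
  have hSE : S.toFinset ⊆ E.toFinset := by
    intro x hx
    rw [List.mem_toFinset] at hx ⊢
    exact hS x hx
  rw [nonbin, List.any_eq_true] at h
  obtain ⟨P, hP, hX'⟩ := h
  have hc := (cycs_inv' hD hS ht h1 h2 t.2.1.length).2.1 P hP
  exact cyc_u24 hD hSE hc ((orc_iff hX hD hS hc).mp hX')

theorem bin_of_false (hX : IsOrc X E v) (hD : IsD v E.toFinset T.toFinset D)
    (hS : ∀ e ∈ S, e ∈ E) (ht : TabOK D t) (h1 : t.1.1.toFinset = T.toFinset ∩ S.toFinset)
    (h2 : t.1.2.toFinset = S.toFinset \ T.toFinset) (h : nonbin X E T t = false) :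
    Bin D (T.toFinset ∩ S.toFinset) (S.toFinset \ T.toFinset) := by
  obtain ⟨i1, i2, i3, i4⟩ := cycs_inv' hD hS ht h1 h2 t.2.1.length
  have hnot : ∀ P ∈ ((cycStep t.2.1 (gr t))^[t.2.1.length] ([], [])).2,
      ¬ ind v ((T.toFinset \ P.toFinset) ∪ (P.toFinset \ T.toFinset)) := by
    intro P hP hi
    rw [nonbin, List.any_eq_false] at h
    exact h P hP ((orc_iff hX hD hS (i2 P hP)).mpr hi)
  obtain ⟨ρ, κ, hsc⟩ := i4 hnot
  have hmin : min t.2.1.length t.2.1.toFinset.card = t.2.1.toFinset.card :=
    min_eq_right (List.toFinset_card_le _)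
  rw [hmin] at i3
  have hsub : ((cycStep t.2.1 (gr t))^[t.2.1.length] ([], [])).1.toFinset ⊆ t.2.1.toFinset := by
    intro e he
    rw [List.mem_toFinset] at he ⊢
    exact i1 e he
  have heq := Finset.eq_of_subset_of_card_le hsub i3
  refine ⟨ρ, κ, hsc.1, fun b hb n hn => ?_⟩
  by_cases h0 : D b n = 0
  · left
    rw [h0, mul_zero, zero_mul]
  · right
    have hG : (b, n) ∈ t.2.1 := by
      rw [ht.one (b, n)]
      exact ⟨List.mem_toFinset.mp (h1 ▸ hb), List.mem_toFinset.mp (h2 ▸ hn), h0⟩
    have hH : (b, n) ∈ ((cycStep t.2.1 (gr t))^[t.2.1.length] ([], [])).1 := by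
      rw [← List.mem_toFinset, heq, List.mem_toFinset]
      exact hG
    exact hsc.2 (b, n) hH

theorem nonbin_iff (hX : IsOrc X E v) (hD : IsD v E.toFinset T.toFinset D)
    (hS : ∀ e ∈ S, e ∈ E) (ht : TabOK D t) (h1 : t.1.1.toFinset = T.toFinset ∩ S.toFinset)
    (h2 : t.1.2.toFinset = S.toFinset \ T.toFinset) :
    (nonbin X E T t = true ↔ U24 (ctr (rkv v) (T.toFinset \ S.toFinset)) S.toFinset) ∧
    (nonbin X E T t = true ↔ ¬ Bin D (T.toFinset ∩ S.toFinset) (S.toFinset \ T.toFinset)) := by
  have hSE : S.toFinset ⊆ E.toFinset := by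
    intro x hx
    rw [List.mem_toFinset] at hx ⊢
    exact hS x hx
  refine ⟨⟨nonbin_u24 hX hD hS ht h1 h2, fun hU => ?_⟩, ⟨fun h hB => ?_, fun hB => ?_⟩⟩
  · by_contra hne
    exact bin_not_u24 hD hSE (bin_of_false hX hD hS ht h1 h2 (by simpa using hne)) hU
  · exact bin_not_u24 hD hSE hB (nonbin_u24 hX hD hS ht h1 h2 h)
  · by_contra hne
    exact hB (bin_of_false hX hD hS ht h1 h2 (by simpa using hne))

end Pool.Agent.G4
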