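import Pool.Agent.G4.T3

set_option autoImplicit false

/-!
# Module T4: soundness and completeness of `seps`, the test `test3`

* `seps_sound`: the elements of `seps t` are `comp t x` (`comp_spec`), or `clos t b₀ c₀ x₁` with
`(b₀, c₀) ∈ t.2.1`, `x₁ ≠ c₀` (`clos_spec`: contains `c₀ ≠ x₁`, so length at least two; `sep2_iff`), or the
same for `swT t` (`tabOK_swT`, `gr (swT t)` has the same elements and the same length;
`Sep2 (trD D) N B X ↔ Sep2 D B N X`, `sep2_trD`).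
* `seps_complete1`: take `x ∈ Z`: `comp t x ⊆ Z`, and `Z ≠ B ∪ N`.
* `seps_complete2`: if also `Sep1`: `seps_complete1`. Otherwise by `sep2_iff` `One D B N Z` or
`One D B N ((B ∪ N) \ Z)`. In the first case, as `Sep1` fails, there are `b₀ ∉ Z`, `c₀ ∈ Z` with
`D b₀ c₀ ≠ 0`; choose `x₁ ∈ Z`, `x₁ ≠ c₀`; `clos t b₀ c₀ x₁ ⊆ Z` by `clos_spec`, so its length is at most
`Z.card` and it passes the filter. The second case is the first one for the transpose:
`One (trD D) N B Z` is `One D B N ((B ∪ N) \ Z)`.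
* `test3_iff`, `seps_nil`.
-/

namespace Pool.Agent.G4

open N487b59b3 F4

variable {D : ℕ → ℕ → F4} {t : Tab}

theorem gr_toFinset (t : Tab) : (gr t).toFinset = t.1.1.toFinset ∪ t.1.2.toFinset := by
  simp [gr]

private theorem gr_card (h : TabOK D t) :
    (t.1.1.toFinset ∪ t.1.2.toFinset).card = (gr t).length := by
  rw [← gr_toFinset, List.toFinset_card_of_nodup h.gr_nodup]

private theorem mem_gr_iff {t : Tab} {e : ℕ} :
    e ∈ gr t ↔ e ∈ t.1.1.toFinset ∪ t.1.2.toFinset := by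
  rw [← gr_toFinset, List.mem_toFinset]

private theorem len_le_card {X : List ℕ} (hn : X.Nodup) {Z : Finset ℕ} (h : ∀ e ∈ X, e ∈ Z) :
    X.length ≤ Z.card := by
  rw [← List.toFinset_card_of_nodup hn]
  exact Finset.card_le_card fun e he => h e (List.mem_toFinset.1 he)

private theorem two_le_len {X : List ℕ} {a b : ℕ} (ha : a ∈ X) (hb : b ∈ X) (hab : a ≠ b) :
    2 ≤ X.length := by
  rcases X with _ | ⟨x, _ | ⟨y, X⟩⟩
  · simp at ha
  · simp only [List.mem_singleton] at ha hb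
    exact absurd (ha.trans hb.symm) hab
  · simp

private theorem mem_seps2 {t : Tab} {X : List ℕ} : X ∈ seps2 t ↔
    (∃ p ∈ t.2.1, ∃ x ∈ gr t, x ≠ p.1 ∧ x ≠ p.2 ∧ clos t p.1 p.2 x = X) ∧
      X.length + 2 ≤ (gr t).length := by
  unfold seps2
  rw [List.mem_filter, List.mem_flatMap]
  simp only [List.mem_map, List.mem_filter, Bool.and_eq_true, Bool.not_eq_true',
    decide_eq_false_iff_not, decide_eq_true_eq]
  constructor
  · rintro ⟨⟨p, hp, x, ⟨hx, h1, h2⟩, rfl⟩, h3⟩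
    exact ⟨⟨p, hp, x, hx, h1, h2, rfl⟩, h3⟩
  · rintro ⟨⟨p, hp, x, hx, h1, h2, rfl⟩, h3⟩
    exact ⟨⟨p, hp, x, ⟨hx, h1, h2⟩, rfl⟩, h3⟩

private theorem mem_seps {t : Tab} {X : List ℕ} : X ∈ seps t ↔
    ((∃ x ∈ gr t, comp t x = X) ∧ X.length + 1 ≤ (gr t).length) ∨ X ∈ seps2 t ∨
      X ∈ seps2 (swT t) := by
  unfold seps
  rw [List.mem_append, List.mem_append, List.mem_filter, List.mem_map]
  simp only [decide_eq_true_eq]

private theorem seps2_sound (h : TabOK D t) {X : List ℕ} (hX : X ∈ seps2 t) :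
    X.Nodup ∧ X ≠ [] ∧ (∀ e ∈ X, e ∈ gr t) ∧ One D t.1.1.toFinset t.1.2.toFinset X.toFinset ∧
      2 ≤ X.length ∧ X.length + 2 ≤ (gr t).length := by
  obtain ⟨⟨p, hp, x, hx, h1, h2, rfl⟩, h3⟩ := mem_seps2.1 hX
  obtain ⟨c1, c2, c3, c4, c5, _⟩ := clos_spec h (b₀ := p.1) (c₀ := p.2) hp hx
  refine ⟨c1, List.ne_nil_of_mem c2, c4, c5, two_le_len c2 c3 (Ne.symm h2), h3⟩

private theorem gr_swT_len (t : Tab) : (gr (swT t)).length = (gr t).length := by
  simp [gr, swT, Nat.add_comm]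

private theorem mem_gr_swT {t : Tab} {e : ℕ} : e ∈ gr (swT t) ↔ e ∈ gr t := by
  simp [gr, swT, or_comm]

theorem seps_sound (h : TabOK D t) {X : List ℕ} (hX : X ∈ seps t) :
    X.Nodup ∧ X ≠ [] ∧ (∀ e ∈ X, e ∈ gr t) ∧ X.length + 1 ≤ (gr t).length ∧
    (Sep1 D t.1.1.toFinset t.1.2.toFinset X.toFinset ∨
      (Sep2 D t.1.1.toFinset t.1.2.toFinset X.toFinset ∧ 2 ≤ X.length ∧
        X.length + 2 ≤ (gr t).length)) := by
  rcases mem_seps.1 hX with ⟨⟨x, hx, rfl⟩, hl⟩ | hX | hX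
  · obtain ⟨c1, c2, c3, c4, _⟩ := comp_spec h hx
    exact ⟨c1, List.ne_nil_of_mem c2, c3, hl, Or.inl c4⟩
  · obtain ⟨c1, c2, c3, c4, c5, c6⟩ := seps2_sound h hX
    exact ⟨c1, c2, c3, by omega, Or.inr ⟨sep2_iff.2 (Or.inl c4), c5, c6⟩⟩
  · obtain ⟨c1, c2, c3, c4, c5, c6⟩ := seps2_sound (tabOK_swT h) hX
    rw [gr_swT_len] at c6
    refine ⟨c1, c2, fun e he => mem_gr_swT.1 (c3 e he), by omega, Or.inr ⟨?_, c5, c6⟩⟩
    exact sep2_trD.1 (sep2_iff.2 (Or.inl c4))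

theorem seps_complete1 (h : TabOK D t) {Z : Finset ℕ}
    (hZ : Z ⊆ t.1.1.toFinset ∪ t.1.2.toFinset) (h1 : Z.Nonempty)
    (h2 : Z ≠ t.1.1.toFinset ∪ t.1.2.toFinset)
    (hs : Sep1 D t.1.1.toFinset t.1.2.toFinset Z) : ∃ X ∈ seps t, X.length ≤ Z.card := by
  obtain ⟨x, hx⟩ := h1
  have hx' : x ∈ gr t := mem_gr_iff.2 (hZ hx)
  obtain ⟨c1, c2, c3, c4, c5⟩ := comp_spec h hx'
  have hlen : (comp t x).length ≤ Z.card := len_le_card c1 (c5 Z hs hx)
  have hlt : Z.card < (gr t).length := by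
    rw [← gr_card h]
    exact Finset.card_lt_card (Finset.ssubset_iff_subset_ne.2 ⟨hZ, h2⟩)
  exact ⟨comp t x, mem_seps.2 (Or.inl ⟨⟨x, hx', rfl⟩, by omega⟩), hlen⟩

private theorem seps2_complete (h : TabOK D t) {Z : Finset ℕ}
    (hZ : Z ⊆ t.1.1.toFinset ∪ t.1.2.toFinset) (h1 : 2 ≤ Z.card)
    (h2 : 2 ≤ ((t.1.1.toFinset ∪ t.1.2.toFinset) \ Z).card)
    (hs : One D t.1.1.toFinset t.1.2.toFinset Z)
    (hn : ¬ Sep1 D t.1.1.toFinset t.1.2.toFinset Z) : ∃ X ∈ seps2 t, X.length ≤ Z.card := by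
  unfold Sep1 at hn
  push Not at hn
  obtain ⟨b, hb, n, hn', hbn, hne⟩ := hn
  have hbZ : b ∉ Z ∧ n ∈ Z := by
    by_cases hb' : b ∈ Z
    · have : n ∉ Z := fun h' => by
        rcases hbn with ⟨_, h3⟩ | ⟨h3, _⟩
        · exact h3 h'
        · exact h3 hb'
      exact absurd (hs.1 b hb n hn' hb' this) hne
    · refine ⟨hb', ?_⟩
      rcases hbn with ⟨h3, _⟩ | ⟨_, h3⟩
      · exact absurd h3 hb'
      · exact h3
  obtain ⟨x, hxZ, hxn⟩ := Finset.exists_mem_ne (by omega : 1 < Z.card) n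
  have hxb : x ≠ b := fun h' => hbZ.1 (h' ▸ hxZ)
  have hmem : (b, n) ∈ t.2.1 := (h.one (b, n)).2
    ⟨List.mem_toFinset.1 hb, List.mem_toFinset.1 hn', hne⟩
  have hx' : x ∈ gr t := mem_gr_iff.2 (hZ hxZ)
  obtain ⟨c1, c2, c3, c4, c5, c6⟩ := clos_spec h hmem hx'
  have hlen : (clos t b n x).length ≤ Z.card := len_le_card c1 (c6 Z hs hbZ.1 hbZ.2 hxZ)
  have hcard : Z.card + 2 ≤ (gr t).length := by
    rw [← gr_card h]
    have := Finset.card_sdiff_add_card_eq_card hZ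
    omega
  exact ⟨clos t b n x, mem_seps2.2 ⟨⟨(b, n), hmem, x, hx', hxb, hxn, rfl⟩, by omega⟩, hlen⟩

private theorem one_trD {B N Z : Finset ℕ} (hs : One D B N ((B ∪ N) \ Z)) :
    One (trD D) N B Z := by
  obtain ⟨h1, h2⟩ := hs
  constructor
  · intro n hn b hb hnZ hbZ
    exact h1 b hb n hn (Finset.mem_sdiff.2 ⟨Finset.mem_union_left _ hb, hbZ⟩)
      (fun h' => (Finset.mem_sdiff.1 h').2 hnZ)
  · intro n hn n' hn' b hb b' hb' hnZ hnZ' hbZ hbZ'
    have := h2 b hb b' hb' n hn n' hn' (fun h' => (Finset.mem_sdiff.1 h').2 hbZ)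
      (fun h' => (Finset.mem_sdiff.1 h').2 hbZ')
      (Finset.mem_sdiff.2 ⟨Finset.mem_union_right _ hn, hnZ⟩)
      (Finset.mem_sdiff.2 ⟨Finset.mem_union_right _ hn', hnZ'⟩)
    simp only [trD]
    rw [this, mul_comm]

theorem seps_complete2 (h : TabOK D t) {Z : Finset ℕ}
    (hZ : Z ⊆ t.1.1.toFinset ∪ t.1.2.toFinset) (h1 : 2 ≤ Z.card)
    (h2 : 2 ≤ ((t.1.1.toFinset ∪ t.1.2.toFinset) \ Z).card)
    (hs : Sep2 D t.1.1.toFinset t.1.2.toFinset Z) : ∃ X ∈ seps t, X.length ≤ Z.card := by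
  by_cases hs1 : Sep1 D t.1.1.toFinset t.1.2.toFinset Z
  · refine seps_complete1 h hZ (Finset.card_pos.1 (by omega)) ?_ hs1
    rintro rfl
    simp at h2
  · rcases sep2_iff.1 hs with ho | ho
    · obtain ⟨X, hX, hl⟩ := seps2_complete h hZ h1 h2 ho hs1
      exact ⟨X, mem_seps.2 (Or.inr (Or.inl hX)), hl⟩
    · have ho' := one_trD ho
      have hZ' : Z ⊆ (swT t).1.1.toFinset ∪ (swT t).1.2.toFinset := by
        intro e he
        have := hZ he
        simp only [swT]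
        rwa [Finset.union_comm]
      have h2' : 2 ≤ (((swT t).1.1.toFinset ∪ (swT t).1.2.toFinset) \ Z).card := by
        simp only [swT]
        rwa [Finset.union_comm]
      obtain ⟨X, hX, hl⟩ := seps2_complete (tabOK_swT h) hZ' h1 h2' ho'
        (fun h' => hs1 (sep1_trD.1 h'))
      exact ⟨X, mem_seps.2 (Or.inr (Or.inr hX)), hl⟩

theorem test3_iff (h : TabOK D t) : test3 t = true ↔ C3 D t.1.1.toFinset t.1.2.toFinset := by
  unfold test3
  rw [Bool.and_eq_true, decide_eq_true_eq, List.isEmpty_iff]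
  constructor
  · rintro ⟨h4, he⟩
    refine ⟨by rw [gr_card h]; exact h4, ?_, ?_⟩
    · intro X hX hs
      by_contra hc
      push Not at hc
      obtain ⟨Y, hY, _⟩ := seps_complete1 h hX hc.1 hc.2 hs
      rw [he] at hY
      simp at hY
    · intro X hX hs
      by_contra hc
      push Not at hc
      obtain ⟨Y, hY, _⟩ := seps_complete2 h hX (by omega) (by omega) hs
      rw [he] at hY
      simp at hY
  · rintro ⟨h4, hA, hB⟩
    refine ⟨by rw [← gr_card h]; exact h4, ?_⟩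
    rw [List.eq_nil_iff_forall_not_mem]
    intro X hX
    obtain ⟨c1, c2, c3, c4, c5⟩ := seps_sound h hX
    have hsub : X.toFinset ⊆ t.1.1.toFinset ∪ t.1.2.toFinset := by
      intro e he
      exact mem_gr_iff.1 (c3 e (List.mem_toFinset.1 he))
    have hcard := List.toFinset_card_of_nodup c1
    have hlen : X.length ≠ 0 := fun h' => c2 (List.length_eq_zero_iff.1 h')
    have hgr := gr_card h
    rcases c5 with hs | ⟨hs, h5, h6⟩
    · rcases hA _ hsub hs with h7 | h7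
      · rw [h7] at hcard
        simp at hcard
        omega
      · rw [h7] at hcard
        omega
    · have h8 := Finset.card_sdiff_add_card_eq_card hsub
      rcases hB _ hsub hs with h7 | h7
      · omega
      · omega

theorem seps_nil (h : TabOK D t) (hs : seps t = []) :
    (gr t).length ≤ 3 ∨ C3 D t.1.1.toFinset t.1.2.toFinset := by
  by_cases h4 : 4 ≤ (gr t).length
  · right
    rw [← test3_iff h]
    simp [test3, hs, h4]
  · left
    omega

end Pool.Agent.G4
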