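import Pool.Agent.G4.C0
import Pool.Agent.G4.C1
import Pool.Agent.G4.C2
import Pool.Agent.G4.T4
import Pool.Agent.G4.N6
import Pool.Agent.G4.Br3

set_option autoImplicit false

/-!
# Module C3m: an accepted candidate gives a correct record

PROOF. `c3_iff_conn3` turns `h3` into `C3` for `D`. `pivT_spec`: the new basis `T'`, `D'`, with
`T' \ S = T \ S`, `y ∈ T' ↔ d`. `S₁ = S - y`, `t = table X E T' S₁` (`tabOK_table`), `t'` its view,
`ps = pairsOf t'` (`pairsOf_spec`, `pairs_nodup`), `S₂ = S₁` without the `p.2`, `t₂ = resT t S₂`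
(`tabOK_resT`), whose rows and columns are (as finsets) `T' ∩ S₂`, `S₂ \ T'`.
`RecOK`: `fst`: `p.1 ∈ gr t' = S₁` and `p.1 ≠ q.2` for all `q` (`pairs_nodup`). `side`: `p.2` is a row of
`t'`: in `T'` iff `d = false`. `sep`: `lam1 t' [p.1, p.2]` gives (`lam1_iff`, for `d = true` with
`tabOK_swT` and `sep2_trD`) `Sep2 D' (T' ∩ S₁) (S₁ \ T') {p.1, p.2}`, and `sep2_iff_lam`. `c3`: `h3` with
`T' \ S = T \ S`. `c3'`: `test3_iff` and `c3_iff_conn3`. `U24`: `nonbin_iff`.
`S₂.length < S.length` because `y` is missing.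
-/

namespace Pool.Agent.G4

open N487b59b3 F4 Pool.Agent.Helper22

theorem candInfo_sound {V : Type} [AddCommGroup V] [Module F4 V] {v : ℕ → V} {X : Oracle}
    {E T S : List ℕ} {D : ℕ → ℕ → F4} {y : ℕ} (d : Bool) (hX : IsOrc X E v)
    (hD : IsD v E.toFinset T.toFinset D) (hT : T.Nodup) (hS : ∀ e ∈ S, e ∈ E) (hS' : S.Nodup)
    (h3 : Conn3 (ctr (rkv v) (T.toFinset \ S.toFinset)) S.toFinset) (hy : y ∈ S)
    (h : (candInfo X E T S d y).1 = true) :
    let q := candInfo X E T S d y
    (∃ D', IsD v E.toFinset q.2.1.toFinset D') ∧ q.2.1.Nodup ∧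
    q.2.1.toFinset \ S.toFinset = T.toFinset \ S.toFinset ∧
    q.2.2.1.Nodup ∧ (∀ e ∈ q.2.2.1, e ∈ S) ∧ q.2.2.1.length < S.length ∧
    RecOK v q.2.1.toFinset S.toFinset q.2.2.1.toFinset (d, (y, q.2.2.2)) ∧
    U24 (ctr (rkv v) (q.2.1.toFinset \ q.2.2.1.toFinset)) q.2.2.1.toFinset := by
  classical
  have hSE : S.toFinset ⊆ E.toFinset := fun x hx => by
    rw [List.mem_toFinset] at hx ⊢
    exact hS x hx
  have h3' := (c3_iff_conn3 hD hSE).2 h3
  obtain ⟨hp1, ⟨D', hD'⟩, hTn, hTS, hyT⟩ := pivT_spec d hX hD hT hS hS' h3' hy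
  unfold candInfo at h ⊢
  simp only [hp1, Bool.true_and, Bool.and_eq_true] at h
  simp only
  generalize hTT : (pivT (table X E T S) T d y).2 = T' at *
  generalize hS1 : (S.filter fun e => !decide (e = y)) = S₁ at *
  have mS1 : ∀ e, e ∈ S₁ ↔ e ∈ S ∧ e ≠ y := fun e => by
    rw [← hS1, List.mem_filter]
    simp
  have nS1 : S₁.Nodup := by
    rw [← hS1]
    exact hS'.filter _
  have fS1 : S₁.toFinset = S.toFinset.erase y := by
    ext e
    rw [List.mem_toFinset, mS1, Finset.mem_erase, List.mem_toFinset, and_comm]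
  have eS1 : ∀ e ∈ S₁, e ∈ E := fun e he => hS e ((mS1 e).1 he).1
  have ht : TabOK D' (table X E T' S₁) := tabOK_table hX hD' eS1 nS1
  have hr : (table X E T' S₁).1.1 = nor S₁ T' := rfl
  have hc : (table X E T' S₁).1.2 = dif S₁ T' := rfl
  generalize table X E T' S₁ = t at *
  generalize hps : pairsOf (if d then swT t else t) = ps at *
  generalize hS2 : (S₁.filter fun e => !decide (e ∈ ps.map fun q => q.2)) = S₂ at *
  have mS2 : ∀ e, e ∈ S₂ ↔ e ∈ S₁ ∧ e ∉ ps.map fun q => q.2 := fun e => by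
    rw [← hS2, List.mem_filter]
    simp
  have nS2 : S₂.Nodup := by
    rw [← hS2]
    exact nS1.filter _
  have fS2 : S₂.toFinset = S.toFinset.erase y \ (ps.map fun q => q.2).toFinset := by
    ext e
    rw [List.mem_toFinset, mS2, Finset.mem_sdiff, ← fS1, List.mem_toFinset, List.mem_toFinset]
  have eS2 : ∀ e ∈ S₂, e ∈ E := fun e he => eS1 e ((mS2 e).1 he).1
  have ht2 : TabOK D' (resT t S₂) := tabOK_resT ht S₂
  have r2 : (resT t S₂).1.1.toFinset = T'.toFinset ∩ S₂.toFinset := by
    show (nor t.1.1 S₂).toFinset = _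
    ext e
    rw [List.mem_toFinset, mem_nor, hr, mem_nor, Finset.mem_inter, List.mem_toFinset,
      List.mem_toFinset, mS2]
    tauto
  have c2 : (resT t S₂).1.2.toFinset = S₂.toFinset \ T'.toFinset := by
    show (nor t.1.2 S₂).toFinset = _
    ext e
    rw [List.mem_toFinset, mem_nor, hc, mem_dif, Finset.mem_sdiff, List.mem_toFinset,
      List.mem_toFinset, mS2]
    tauto
  obtain ⟨q1, q2, -⟩ := pairsOf_spec (if d then swT t else t)
  rw [hps] at q1 q2
  obtain ⟨n1, n2, n3, -⟩ := pairs_nodup q2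
  have hS2E : S₂.toFinset ⊆ E.toFinset := fun x hx => by
    rw [List.mem_toFinset] at hx ⊢
    exact eS2 x hx
  have hS1E : S.toFinset.erase y ⊆ E.toFinset := (Finset.erase_subset _ _).trans hSE
  have hgr : ∀ e, e ∈ gr (if d then swT t else t) → e ∈ S₁ := by
    intro e he
    rw [mem_gr] at he
    cases d with
    | false =>
      simp only [Bool.false_eq_true, if_false] at he
      rw [hr, hc, mem_nor, mem_dif] at he
      rcases he with he | he
      · exact he.1
      · exact he.1
    | true =>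
      simp only [if_true] at he
      have he' : e ∈ t.1.2 ∨ e ∈ t.1.1 := he
      rw [hr, hc, mem_nor, mem_dif] at he'
      rcases he' with he | he
      · exact he.1
      · exact he.1
  refine ⟨⟨D', hD'⟩, hTn, hTS, nS2, fun e he => ((mS1 e).1 ((mS2 e).1 he).1).1, ?_, ?_, ?_⟩
  · have h1 : S₂.length ≤ S₁.length := by
      rw [← hS2]
      exact List.length_filter_le _ _
    have h2 : S₁.length < S.length := by
      rw [← List.toFinset_card_of_nodup nS1, ← List.toFinset_card_of_nodup hS', fS1]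
      exact Finset.card_erase_lt_of_mem (List.mem_toFinset.2 hy)
    omega
  · refine ⟨List.mem_toFinset.2 hy, fS2, ?_, ?_, n1, n2, ?_, ?_, ?_, ?_, ?_⟩
    · intro p hp
      rw [List.mem_toFinset, mS2]
      refine ⟨hgr _ (q1 p hp).2.1, fun h1 => ?_⟩
      obtain ⟨q, hq, hqe⟩ := List.mem_map.1 h1
      exact n3 p hp q hq hqe.symm
    · intro p hp
      show p.2 ∈ S.toFinset.erase y
      rw [← fS1, List.mem_toFinset]
      exact hgr _ (mem_gr.2 (Or.inl (q1 p hp).1))
    · intro p hp
      have h1 := (q1 p hp).1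
      rw [List.mem_toFinset]
      cases d with
      | false =>
        simp only [Bool.false_eq_true, if_false] at h1
        rw [hr, mem_nor] at h1
        simp [h1.2]
      | true =>
        simp only [if_true] at h1
        have h1' : p.2 ∈ t.1.2 := h1
        rw [hc, mem_dif] at h1'
        simp [h1'.2]
    · show y ∈ T'.toFinset ↔ d = true
      rw [List.mem_toFinset]
      exact hyT
    · intro p hp
      show lam (ctr (rkv v) (T'.toFinset \ S.toFinset.erase y)) (S.toFinset.erase y)
        {p.1, p.2} ≤ 1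
      have h1 := (q1 p hp).2.2.2
      have hr' : t.1.1.toFinset = T'.toFinset ∩ S.toFinset.erase y := by
        rw [hr, nor_toFinset, fS1]
      have hc' : t.1.2.toFinset = S.toFinset.erase y \ T'.toFinset := by
        rw [hc, dif_toFinset, fS1]
      have hX2 : ({p.1, p.2} : Finset ℕ) ⊆ S.toFinset.erase y := by
        intro x hx
        rw [← fS1, List.mem_toFinset]
        rcases Finset.mem_insert.1 hx with rfl | hx
        · exact hgr _ (q1 p hp).2.1
        · rw [Finset.mem_singleton.1 hx]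
          exact hgr _ (mem_gr.2 (Or.inl (q1 p hp).1))
      have hXe : ([p.1, p.2] : List ℕ).toFinset = ({p.1, p.2} : Finset ℕ) := by simp
      have h2 : Sep2 D' t.1.1.toFinset t.1.2.toFinset {p.1, p.2} := by
        cases d with
        | false =>
          simp only [Bool.false_eq_true, if_false] at h1
          rw [lam1_iff ht, hXe] at h1
          exact h1
        | true =>
          simp only [if_true] at h1
          rw [lam1_iff (tabOK_swT ht), hXe] at h1
          exact sep2_trD.1 h1
      rw [hr', hc'] at h2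
      exact (sep2_iff_lam hD' hS1E hX2).1 h2
    · rw [hTS]
      exact h3
    · have h1 := (test3_iff ht2).1 h.1
      rw [r2, c2] at h1
      exact (c3_iff_conn3 hD' hS2E).1 h1
  · exact nonbin_u24 hX hD' eS2 ht2 r2 c2 h.2

end Pool.Agent.G4
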