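import Pool.Agent.G4.R7c

set_option autoImplicit false

/-!
# Module R7d: the simplification is 3-connected (dual of `co_conn3`)

PROOF. Let `q = dualR r S`. `dual_ctr`: on the subsets of `S \ {y}` (which is `S.erase y`) the
function `dualR (ctr r {y}) (S.erase y)` agrees with `q`. So (`Nice.dual`, `Rep1.dual`, congruence)
`Nice q (S.erase y)`, `Rep1 q (S.erase y) R`, `Conn3 q S`. By `co_conn3` for `q`:
`Conn3 (ctr q R) (S.erase y \ R)`, `U24 (ctr q R) (S.erase y \ R)`. On the subsets `X` of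
`S.erase y \ R`: `ctr q R X = q (R ∪ X) - q R`, which is
`ctr (dualR (ctr r {y}) (S.erase y)) R X = dualR (ctr r {y}) (S.erase y \ R) X` (`ctr_dual`). Now
`Conn3.of_dual`, `U24.of_dual` for `ctr r {y}`.
-/

namespace Pool.Agent.G4

open Finset

variable {r : Finset ℕ → ℤ} {S R : Finset ℕ} {y : ℕ}

theorem si_conn3 (hr : IsRk r) (hS : Conn3 r S) (hy : y ∈ S) (hN : Nice (ctr r {y}) (S.erase y))
    (hR : Rep1 (ctr r {y}) (S.erase y) R) :
    Conn3 (ctr r {y}) (S.erase y \ R) ∧ U24 (ctr r {y}) (S.erase y \ R) := by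
  have hs : IsRk (ctr r {y}) := hr.ctr {y}
  have hq : IsRk (dualR r S) := hr.dual S
  have heq : ∀ X ⊆ S.erase y, dualR (ctr r {y}) (S.erase y) X = dualR r S X := by
    intro X hX
    rw [← Finset.sdiff_singleton_eq_erase] at hX ⊢
    exact dual_ctr (Finset.singleton_subset_iff.2 hy) hX
  have hN' : Nice (dualR r S) (S.erase y) := (Nice.congr heq).1 (hN.dual hs)
  have hR' : Rep1 (dualR r S) (S.erase y) R := (Rep1.congr heq).1 (hR.dual hs)
  obtain ⟨h1, h2⟩ := co_conn3 hq (hS.dual hr) hy hN' hR'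
  have hRS : R ⊆ S.erase y := hR.1
  have heq2 : ∀ X ⊆ S.erase y \ R, ctr (dualR r S) R X =
      dualR (ctr r {y}) (S.erase y \ R) X := by
    intro X hX
    have h3 : ctr (dualR r S) R X = ctr (dualR (ctr r {y}) (S.erase y)) R X := by
      unfold ctr
      have h4 := heq (R ∪ X) (Finset.union_subset hRS (hX.trans Finset.sdiff_subset))
      have h5 := heq R hRS
      unfold ctr at h4 h5
      rw [h4, h5]
    rw [h3]
    exact ctr_dual hRS hX
  exact ⟨((Conn3.congr heq2).1 h1).of_dual hs, ((U24.congr heq2).1 h2).of_dual hs⟩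

end Pool.Agent.G4
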