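import Pool.Agent.G4.C1
import Pool.Agent.G4.C2
import Pool.Agent.G4.T4
import Pool.Agent.G4.N6
import Pool.Agent.G4.Br3
import Pool.Agent.G4.Br5
import Pool.Agent.G4.R7d

set_option autoImplicit false

/-!
# Module C4: a nice candidate is accepted

Notation as in C3m: `T'`, `S₁ = S - y`, `t = table X E T' S₁`, view `t'`, `ps`, `R = {p.2 : p ∈ ps}`,
`S₂ = S₁ \ R`. `r = ctr (rkv v) (T \ S)`, and `r₁ = r` if `d = false`, `r₁ = ctr r {y}` if `d = true`. Then
`ctr (rkv v) (T' \ S₁) = r₁` (`T' \ S₁ = T \ S`, respectively `(T \ S) ∪ {y}`; `ctr_ctr`).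
PROOF of `rep1_pairs`: `Rep1 r₁ S₁ R`. `R ⊆ S₁`. For `b = p.2 ∈ R` the partner is `p.1`
(`pairs_nodup`: `p.1 ∉ R`; `lam ≤ 1` from `lam1_iff`, `sep2_iff_lam`). Let `a ≠ b` in `S₁` with
`lam r₁ S₁ {a, b} ≤ 1`, i.e. `Sep2` for the matrix `D'` on `S₁`, and for its view `D''` (`trD D'` if
`d = true`). By `no_cols` (`D''` with rows `B'`, columns `N` and the column `y`; `C3` for `S` and the basis
`T'`, `c3_iff_conn3`, `C3.trD`) one of `a`, `b` is a row of the view, say `b` (symmetric). By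
`pairsOf_spec` there is a pair `p ∈ ps` which contains `a` or `b`. If `p = {b, c}` as a set then
`c = a` by the last part of `Nice` (`a - b - c`; all different would be a chain), so
`{a, b} = {p.1, p.2}` and `p.2 ∈ R` is `a` or `b`. The same if `p` contains `a`.
PROOF of `candInfo_complete`: `d = false`: `co_conn3`: `Conn3 (ctr r R) S₂`, `U24 (ctr r R) S₂`;
`R ⊆ T'`, so `T' \ S₂ = (T \ S) ∪ R` and `ctr (rkv v) (T' \ S₂) = ctr r R`. `d = true`: `si_conn3`; `R` is
disjoint from `T'`, so `T' \ S₂ = (T \ S) ∪ {y}` and `ctr (rkv v) (T' \ S₂) = ctr r {y}`. Then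
`c3_iff_conn3`, `test3_iff`, `nonbin_iff`, and `pivT_spec` for the first component.
-/

namespace Pool.Agent.G4

open N487b59b3 F4 Pool.Agent.Helper22

variable {V : Type} [AddCommGroup V] [Module F4 V] {v : ℕ → V} {X : Oracle}
    {E T S : List ℕ} {D : ℕ → ℕ → F4} {y : ℕ}

private theorem C4_filter (S : List ℕ) (y : ℕ) :
    (S.filter fun e => !decide (e = y)).toFinset = S.toFinset.erase y := by
  ext x
  simp [and_comm]

/-- the situation after the pivot -/
private theorem C4_pivot (d : Bool) (hX : IsOrc X E v)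
    (hD : IsD v E.toFinset T.toFinset D) (hT : T.Nodup) (hS : ∀ e ∈ S, e ∈ E) (hS' : S.Nodup)
    (h3 : Conn3 (ctr (rkv v) (T.toFinset \ S.toFinset)) S.toFinset) (hy : y ∈ S) :
    (pivT (table X E T S) T d y).1 = true ∧ ∃ D', IsD v E.toFinset (pivT (table X E T S) T d y).2.toFinset D' ∧
      (pivT (table X E T S) T d y).2.toFinset \ S.toFinset = T.toFinset \ S.toFinset ∧
      (y ∈ (pivT (table X E T S) T d y).2 ↔ d = true) ∧
      C3 D' ((pivT (table X E T S) T d y).2.toFinset ∩ S.toFinset)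
        (S.toFinset \ (pivT (table X E T S) T d y).2.toFinset) := by
  have hSE : S.toFinset ⊆ E.toFinset := by
    intro x hx
    rw [List.mem_toFinset] at hx ⊢
    exact hS x hx
  have hc3 : C3 D (T.toFinset ∩ S.toFinset) (S.toFinset \ T.toFinset) := (c3_iff_conn3 hD hSE).2 h3
  obtain ⟨h1, ⟨D', hD'⟩, -, h4, h5⟩ := pivT_spec d hX hD hT hS hS' hc3 hy
  refine ⟨h1, D', hD', h4, h5, ?_⟩
  rw [c3_iff_conn3 hD' hSE, h4]
  exact h3

private theorem C4_ed {A B : Finset ℕ} {y : ℕ} (h : y ∉ A) : A ∩ B.erase y = A ∩ B := by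
  ext x
  simp only [Finset.mem_inter, Finset.mem_erase]
  constructor
  · rintro ⟨h1, -, h2⟩
    exact ⟨h1, h2⟩
  · rintro ⟨h1, h2⟩
    exact ⟨h1, fun e => h (e ▸ h1), h2⟩

private theorem C4_core {T' : List ℕ} {D' : ℕ → ℕ → F4} (d : Bool) (hX : IsOrc X E v)
    (hD' : IsD v E.toFinset T'.toFinset D') (hS : ∀ e ∈ S, e ∈ E) (hS' : S.Nodup) (hy : y ∈ S)
    (hyd : y ∈ T' ↔ d = true)
    (hc : C3 D' (T'.toFinset ∩ S.toFinset) (S.toFinset \ T'.toFinset)) :
    let S₁ := S.filter fun e => !decide (e = y)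
    let t := table X E T' S₁
    let t' := if d then swT t else t
    let r₁ := ctr (rkv v) (T'.toFinset \ S.toFinset.erase y)
    TabOK D' t ∧
    (∀ a ∈ S.toFinset.erase y, ∀ b ∈ S.toFinset.erase y,
      (lam1 t' [a, b] = true ↔ lam r₁ (S.toFinset.erase y) {a, b} ≤ 1)) ∧
    (∀ a, a ∈ gr t' ↔ a ∈ S.toFinset.erase y) ∧
    (∀ b ∈ t'.1.1, (b ∈ T' ↔ d = false)) ∧
    (∀ a ∈ t'.1.2, ∀ b ∈ t'.1.2, a ≠ b → ¬ lam r₁ (S.toFinset.erase y) {a, b} ≤ 1) := by
  intro S₁ t t' r₁
  have hSf : S₁.toFinset = S.toFinset.erase y := C4_filter S y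
  have hS1 : ∀ e ∈ S₁, e ∈ E := fun e he => hS e (List.mem_of_mem_filter he)
  have hS1' : S₁.Nodup := hS'.filter _
  have hSE : S.toFinset.erase y ⊆ E.toFinset := by
    intro x hx
    rw [List.mem_toFinset]
    exact hS x (List.mem_toFinset.1 (Finset.mem_of_mem_erase hx))
  have ht : TabOK D' t := tabOK_table hX hD' hS1 hS1'
  have hr : t.1.1 = nor S₁ T' := rfl
  have hcl : t.1.2 = dif S₁ T' := rfl
  have hrf : t.1.1.toFinset = T'.toFinset ∩ S.toFinset.erase y := by
    rw [hr, nor_toFinset, hSf]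
  have hcf : t.1.2.toFinset = S.toFinset.erase y \ T'.toFinset := by
    rw [hcl, dif_toFinset, hSf]
  have hun : ∀ a, (a ∈ t.1.1 ∨ a ∈ t.1.2) ↔ a ∈ S.toFinset.erase y := by
    intro a
    rw [hr, hcl, mem_nor, mem_dif, ← hSf, List.mem_toFinset]
    tauto
  have hab : ∀ a b : ℕ, ([a, b] : List ℕ).toFinset = ({a, b} : Finset ℕ) := by
    intro a b
    simp
  have hsub : ∀ a ∈ S.toFinset.erase y, ∀ b ∈ S.toFinset.erase y,
      ({a, b} : Finset ℕ) ⊆ S.toFinset.erase y := by
    intro a ha b hb x hx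
    rcases Finset.mem_insert.1 hx with rfl | hx
    · exact ha
    · rw [Finset.mem_singleton.1 hx]
      exact hb
  have hyS : y ∈ S.toFinset := List.mem_toFinset.2 hy
  cases d with
  | false =>
    have hyT : y ∉ T'.toFinset := by
      rw [List.mem_toFinset]
      intro h
      exact absurd (hyd.1 h) (by simp)
    have ht' : t' = t := rfl
    rw [ht']
    have hsep : ∀ a ∈ S.toFinset.erase y, ∀ b ∈ S.toFinset.erase y,
        (Sep2 D' t.1.1.toFinset t.1.2.toFinset {a, b} ↔ lam r₁ (S.toFinset.erase y) {a, b} ≤ 1) := by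
      intro a ha b hb
      rw [hrf, hcf]
      exact sep2_iff_lam hD' hSE (hsub a ha b hb)
    refine ⟨ht, ?_, ?_, ?_, ?_⟩
    · intro a ha b hb
      rw [lam1_iff ht, hab]
      exact hsep a ha b hb
    · intro a
      rw [mem_gr]
      exact hun a
    · intro b hb
      rw [hr, mem_nor] at hb
      simp [hb.2]
    · intro a ha b hb hne hle
      have ha' := (hun a).1 (Or.inr ha)
      have hb' := (hun b).1 (Or.inr hb)
      rw [← hsep a ha' b hb'] at hle
      have e1 : t.1.1.toFinset = T'.toFinset ∩ S.toFinset := by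
        rw [hrf, C4_ed hyT]
      have e2 : insert y t.1.2.toFinset = S.toFinset \ T'.toFinset := by
        rw [hcf]
        ext x
        simp only [Finset.mem_insert, Finset.mem_sdiff, Finset.mem_erase]
        constructor
        · rintro (rfl | ⟨⟨-, h1⟩, h2⟩)
          · exact ⟨hyS, hyT⟩
          · exact ⟨h1, h2⟩
        · rintro ⟨h1, h2⟩
          by_cases hxy : x = y
          · exact Or.inl hxy
          · exact Or.inr ⟨⟨hxy, h1⟩, h2⟩
      rw [← e1, ← e2] at hc
      have hdj : Disjoint t.1.1.toFinset (insert y t.1.2.toFinset) := by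
        rw [e1, e2, Finset.disjoint_left]
        intro x h1 h2
        exact (Finset.mem_sdiff.1 h2).2 (Finset.mem_inter.1 h1).1
      have hyN : y ∉ t.1.2.toFinset := by
        rw [hcf]
        simp
      exact no_cols hdj hyN hc (List.mem_toFinset.2 ha) (List.mem_toFinset.2 hb) hne hle
  | true =>
    have hyT : y ∈ T'.toFinset := by
      rw [List.mem_toFinset]
      exact hyd.2 rfl
    have ht' : t' = swT t := rfl
    rw [ht']
    have hsw := tabOK_swT ht
    have s1 : (swT t).1.1 = t.1.2 := rfl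
    have s2 : (swT t).1.2 = t.1.1 := rfl
    have hsep : ∀ a ∈ S.toFinset.erase y, ∀ b ∈ S.toFinset.erase y,
        (Sep2 (trD D') (swT t).1.1.toFinset (swT t).1.2.toFinset {a, b} ↔
          lam r₁ (S.toFinset.erase y) {a, b} ≤ 1) := by
      intro a ha b hb
      rw [s1, s2, sep2_trD, hrf, hcf]
      exact sep2_iff_lam hD' hSE (hsub a ha b hb)
    refine ⟨ht, ?_, ?_, ?_, ?_⟩
    · intro a ha b hb
      rw [lam1_iff hsw, hab]
      exact hsep a ha b hb
    · intro a
      rw [mem_gr, s1, s2, or_comm]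
      exact hun a
    · intro b hb
      rw [s1, hcl, mem_dif] at hb
      simp [hb.2]
    · intro a ha b hb hne hle
      rw [s2] at ha hb
      have ha' := (hun a).1 (Or.inl ha)
      have hb' := (hun b).1 (Or.inl hb)
      rw [← hsep a ha' b hb', s1, s2] at hle
      have e1 : t.1.2.toFinset = S.toFinset \ T'.toFinset := by
        rw [hcf]
        ext x
        simp only [Finset.mem_sdiff, Finset.mem_erase]
        constructor
        · rintro ⟨⟨-, h1⟩, h2⟩
          exact ⟨h1, h2⟩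
        · rintro ⟨h1, h2⟩
          exact ⟨⟨fun e => h2 (e ▸ hyT), h1⟩, h2⟩
      have e2 : insert y t.1.1.toFinset = T'.toFinset ∩ S.toFinset := by
        rw [hrf]
        ext x
        simp only [Finset.mem_insert, Finset.mem_inter, Finset.mem_erase]
        constructor
        · rintro (rfl | ⟨h2, -, h1⟩)
          · exact ⟨hyT, hyS⟩
          · exact ⟨h2, h1⟩
        · rintro ⟨h1, h2⟩
          by_cases hxy : x = y
          · exact Or.inl hxy
          · exact Or.inr ⟨h1, hxy, h2⟩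
      rw [← e1, ← e2] at hc
      have hdj : Disjoint t.1.2.toFinset (insert y t.1.1.toFinset) := by
        rw [e1, e2, Finset.disjoint_left]
        intro x h1 h2
        exact (Finset.mem_sdiff.1 h1).2 (Finset.mem_inter.1 h2).1
      have hyN : y ∉ t.1.1.toFinset := by
        rw [hrf]
        simp
      exact no_cols hdj hyN hc.trD (List.mem_toFinset.2 ha) (List.mem_toFinset.2 hb) hne hle

private theorem C4_rep {t' : Tab} {S₁ : Finset ℕ} {r₁ : Finset ℕ → ℤ}
    (h1 : ∀ a ∈ S₁, ∀ b ∈ S₁, (lam1 t' [a, b] = true ↔ lam r₁ S₁ {a, b} ≤ 1))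
    (h2 : ∀ a, a ∈ gr t' ↔ a ∈ S₁)
    (h3 : ∀ a ∈ t'.1.2, ∀ b ∈ t'.1.2, a ≠ b → ¬ lam r₁ S₁ {a, b} ≤ 1)
    (hN : Nice r₁ S₁) :
    Rep1 r₁ S₁ ((pairsOf t').map fun p => p.2).toFinset := by
  obtain ⟨p1, p2, p3⟩ := pairsOf_spec t'
  obtain ⟨-, -, q3, -⟩ := pairs_nodup p2
  have hmem : ∀ b, b ∈ ((pairsOf t').map fun p => p.2).toFinset ↔ ∃ p ∈ pairsOf t', p.2 = b := by
    intro b
    rw [List.mem_toFinset, List.mem_map]
  have hS1 : ∀ p ∈ pairsOf t', p.1 ∈ S₁ := fun p hp => (h2 _).1 (p1 p hp).2.1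
  have hS2 : ∀ p ∈ pairsOf t', p.2 ∈ S₁ := fun p hp => (h2 _).1 (mem_gr.2 (Or.inl (p1 p hp).1))
  have hlam : ∀ p ∈ pairsOf t', lam r₁ S₁ {p.1, p.2} ≤ 1 := fun p hp =>
    (h1 _ (hS1 p hp) _ (hS2 p hp)).1 (p1 p hp).2.2.2
  refine ⟨?_, ?_, ?_⟩
  · intro b hb
    obtain ⟨p, hp, rfl⟩ := (hmem b).1 hb
    exact hS2 p hp
  · intro b hb
    obtain ⟨p, hp, rfl⟩ := (hmem b).1 hb
    refine ⟨p.1, hS1 p hp, (p1 p hp).2.2.1, ?_, hlam p hp⟩
    intro h
    obtain ⟨q, hq, hqp⟩ := (hmem _).1 h
    exact q3 p hp q hq hqp.symm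
  · have key : ∀ a ∈ S₁, ∀ b ∈ t'.1.1, b ∈ S₁ → a ≠ b → lam r₁ S₁ {a, b} ≤ 1 →
        a ∈ ((pairsOf t').map fun p => p.2).toFinset ∨ b ∈ ((pairsOf t').map fun p => p.2).toFinset := by
      intro a ha b hb hb' hne hle
      obtain ⟨p, hp, hc⟩ := p3 b hb a ((h2 a).2 ha) hne ((h1 a ha b hb').2 hle)
      rcases hc with hc | hc | hc | hc
      · by_cases h5 : p.2 = b
        · exact Or.inr ((hmem b).2 ⟨p, hp, h5⟩)
        · exfalso
          refine hN.2.2.2 p.2 (hS2 p hp) a ha b hb' (by rw [← hc]; exact (p1 p hp).2.2.1.symm) hne h5 ⟨?_, hle⟩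
          rw [Finset.pair_comm, ← hc]
          exact hlam p hp
      · exact Or.inl ((hmem a).2 ⟨p, hp, hc⟩)
      · by_cases h5 : p.2 = a
        · exact Or.inl ((hmem a).2 ⟨p, hp, h5⟩)
        · exfalso
          refine hN.2.2.2 p.2 (hS2 p hp) b hb' a ha (by rw [← hc]; exact (p1 p hp).2.2.1.symm) hne.symm h5 ⟨?_, ?_⟩
          · rw [Finset.pair_comm, ← hc]
            exact hlam p hp
          · rw [Finset.pair_comm]
            exact hle
      · exact Or.inr ((hmem b).2 ⟨p, hp, hc⟩)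
    intro a ha b hb hne hle
    rcases mem_gr.1 ((h2 b).2 hb) with hb1 | hb1
    · exact key a ha b hb1 hb hne hle
    · rcases mem_gr.1 ((h2 a).2 ha) with ha1 | ha1
      · exact (key b hb a ha1 ha hne.symm (by rw [Finset.pair_comm]; exact hle)).symm
      · exact absurd hle (h3 a ha1 b hb1 hne)

theorem rep1_pairs (d : Bool) (hX : IsOrc X E v)
    (hD : IsD v E.toFinset T.toFinset D) (hT : T.Nodup) (hS : ∀ e ∈ S, e ∈ E) (hS' : S.Nodup)
    (h3 : Conn3 (ctr (rkv v) (T.toFinset \ S.toFinset)) S.toFinset) (hy : y ∈ S)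
    (hN : Nice (ctr (rkv v) ((candInfo X E T S d y).2.1.toFinset \ S.toFinset.erase y))
      (S.toFinset.erase y)) :
    Rep1 (ctr (rkv v) ((candInfo X E T S d y).2.1.toFinset \ S.toFinset.erase y))
      (S.toFinset.erase y) (((candInfo X E T S d y).2.2.2).map fun p => p.2).toFinset := by
  obtain ⟨-, D', hD', -, h5, h6⟩ := C4_pivot d hX hD hT hS hS' h3 hy
  obtain ⟨-, c1, c2, -, c3⟩ := C4_core d hX hD' hS hS' hy h5 h6
  exact C4_rep c1 c2 c3 hN

theorem candInfo_complete (d : Bool) (hX : IsOrc X E v)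
    (hD : IsD v E.toFinset T.toFinset D) (hT : T.Nodup) (hS : ∀ e ∈ S, e ∈ E) (hS' : S.Nodup)
    (h3 : Conn3 (ctr (rkv v) (T.toFinset \ S.toFinset)) S.toFinset) (hy : y ∈ S)
    (hN : Nice (if d then ctr (ctr (rkv v) (T.toFinset \ S.toFinset)) {y}
      else ctr (rkv v) (T.toFinset \ S.toFinset)) (S.toFinset.erase y)) :
    (candInfo X E T S d y).1 = true := by
  obtain ⟨h0, D', hD', h4, h5, h6⟩ := C4_pivot d hX hD hT hS hS' h3 hy
  obtain ⟨c0, c1, c2, c4, c3⟩ := C4_core d hX hD' hS hS' hy h5 h6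
  set T' := (pivT (table X E T S) T d y).2 with hT'
  set S₁ := S.filter fun e => !decide (e = y) with hS₁
  set t := table X E T' S₁ with ht
  set t' := if d then swT t else t with ht'
  set R := ((pairsOf t').map fun p => p.2).toFinset with hR
  set S₂ := S₁.filter fun e => !decide (e ∈ (pairsOf t').map fun q => q.2) with hS₂
  have hyS : y ∈ S.toFinset := List.mem_toFinset.2 hy
  have hSf : S₁.toFinset = S.toFinset.erase y := C4_filter S y
  have hS2f : S₂.toFinset = S.toFinset.erase y \ R := by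
    rw [← hSf, hR, hS₂]
    ext x
    simp only [List.mem_toFinset, List.mem_filter, Finset.mem_sdiff, Bool.not_eq_true',
      decide_eq_false_iff_not]
  -- the two descriptions of the rank function
  have hr1 : ctr (rkv v) (T'.toFinset \ S.toFinset.erase y) =
      (if d then ctr (ctr (rkv v) (T.toFinset \ S.toFinset)) {y}
      else ctr (rkv v) (T.toFinset \ S.toFinset)) := by
    cases d with
    | false =>
      have hyT : y ∉ T'.toFinset := by
        rw [List.mem_toFinset]
        intro h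
        exact absurd (h5.1 h) (by simp)
      rw [if_neg (by simp), ← h4]
      congr 1
      ext x
      simp only [Finset.mem_sdiff, Finset.mem_erase, not_and]
      constructor
      · rintro ⟨h7, h8⟩
        exact ⟨h7, h8 fun e => hyT (e ▸ h7)⟩
      · rintro ⟨h7, h8⟩
        exact ⟨h7, fun _ => h8⟩
    | true =>
      have hyT : y ∈ T'.toFinset := by
        rw [List.mem_toFinset]
        exact h5.2 rfl
      rw [if_pos rfl]
      funext Z
      rw [ctr_ctr, ← h4]
      congr 1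
      ext x
      simp only [Finset.mem_sdiff, Finset.mem_erase, Finset.mem_union, Finset.mem_singleton, not_and]
      constructor
      · rintro ⟨h7, h8⟩
        by_cases hxy : x = y
        · exact Or.inr hxy
        · exact Or.inl ⟨h7, h8 hxy⟩
      · rintro (⟨h7, h8⟩ | rfl)
        · exact ⟨h7, fun _ => h8⟩
        · exact ⟨hyT, fun h => absurd rfl h⟩
  rw [← hr1] at hN
  have hrep : Rep1 (ctr (rkv v) (T'.toFinset \ S.toFinset.erase y)) (S.toFinset.erase y) R :=
    C4_rep c1 c2 c3 hN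
  have hrk : IsRk (ctr (rkv v) (T.toFinset \ S.toFinset)) := (isRk_rkv v).ctr _
  have hRrow : ∀ x ∈ R, (x ∈ T' ↔ d = false) := by
    intro x hx
    rw [hR, List.mem_toFinset, List.mem_map] at hx
    obtain ⟨p, hp, rfl⟩ := hx
    exact c4 _ ((pairsOf_spec t').1 p hp).1
  -- connectivity of the result
  have hmain : Conn3 (ctr (rkv v) (T'.toFinset \ S₂.toFinset)) S₂.toFinset ∧
      U24 (ctr (rkv v) (T'.toFinset \ S₂.toFinset)) S₂.toFinset := by
    rw [hS2f]
    cases d with
    | false =>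
      have hyT : y ∉ T'.toFinset := by
        rw [List.mem_toFinset]
        intro h
        exact absurd (h5.1 h) (by simp)
      rw [if_neg (by simp)] at hr1
      rw [hr1] at hrep hN
      have h7 := co_conn3 hrk h3 hyS hN hrep
      have h8 : ctr (rkv v) (T'.toFinset \ (S.toFinset.erase y \ R)) =
          ctr (ctr (rkv v) (T.toFinset \ S.toFinset)) R := by
        funext Z
        rw [ctr_ctr, ← h4]
        congr 1
        ext x
        simp only [Finset.mem_sdiff, Finset.mem_erase, Finset.mem_union, not_and, not_not]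
        constructor
        · rintro ⟨h9, h10⟩
          by_cases hxR : x ∈ R
          · exact Or.inr hxR
          · left
            refine ⟨h9, fun hxS => hxR (h10 ⟨?_, hxS⟩)⟩
            rintro rfl
            exact hyT h9
        · rintro (⟨h9, h10⟩ | h9)
          · exact ⟨h9, fun hxS => absurd hxS.2 h10⟩
          · exact ⟨List.mem_toFinset.2 ((hRrow x h9).2 rfl), fun _ => h9⟩
      rw [h8]
      exact h7
    | true =>
      have hyT : y ∈ T'.toFinset := by
        rw [List.mem_toFinset]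
        exact h5.2 rfl
      rw [if_pos rfl] at hr1
      have h8 : T'.toFinset \ (S.toFinset.erase y \ R) = T'.toFinset \ S.toFinset.erase y := by
        ext x
        simp only [Finset.mem_sdiff, Finset.mem_erase, not_and, not_not]
        constructor
        · rintro ⟨h9, h10⟩
          refine ⟨h9, fun h11 h12 => ?_⟩
          have h13 := (hRrow x (h10 ⟨h11, h12⟩)).1 (List.mem_toFinset.1 h9)
          exact absurd h13 (by simp)
        · rintro ⟨h9, h10⟩
          exact ⟨h9, fun h11 => absurd h11.2 (h10 h11.1)⟩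
      rw [h8, hr1]
      rw [hr1] at hrep hN
      exact si_conn3 hrk h3 hyS hN hrep
  -- the tests
  have hS2E : ∀ e ∈ S₂, e ∈ E := fun e he => hS e (List.mem_of_mem_filter (List.mem_of_mem_filter he))
  have hS2Ef : S₂.toFinset ⊆ E.toFinset := by
    intro x hx
    rw [List.mem_toFinset] at hx ⊢
    exact hS2E x hx
  have ht2 : TabOK D' (resT t S₂) := tabOK_resT c0 S₂
  have hr : (resT t S₂).1.1 = nor (nor S₁ T') S₂ := rfl
  have hcl : (resT t S₂).1.2 = nor (dif S₁ T') S₂ := rfl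
  have hS21 : ∀ e ∈ S₂, e ∈ S₁ := fun e he => List.mem_of_mem_filter he
  have e1 : (resT t S₂).1.1.toFinset = T'.toFinset ∩ S₂.toFinset := by
    rw [hr]
    ext x
    rw [List.mem_toFinset, mem_nor, mem_nor, Finset.mem_inter, List.mem_toFinset, List.mem_toFinset]
    constructor
    · rintro ⟨⟨-, h7⟩, h8⟩
      exact ⟨h7, h8⟩
    · rintro ⟨h7, h8⟩
      exact ⟨⟨hS21 x h8, h7⟩, h8⟩
  have e2 : (resT t S₂).1.2.toFinset = S₂.toFinset \ T'.toFinset := by
    rw [hcl]
    ext x
    rw [List.mem_toFinset, mem_nor, mem_dif, Finset.mem_sdiff, List.mem_toFinset, List.mem_toFinset]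
    constructor
    · rintro ⟨⟨-, h7⟩, h8⟩
      exact ⟨h8, h7⟩
    · rintro ⟨h7, h8⟩
      exact ⟨⟨hS21 x h7, h8⟩, h7⟩
  have a1 : test3 (resT t S₂) = true := by
    rw [test3_iff ht2, e1, e2, c3_iff_conn3 hD' hS2Ef]
    exact hmain.1
  have a2 : nonbin X E T' (resT t S₂) = true :=
    (nonbin_iff hX hD' hS2E ht2 e1 e2).1.2 hmain.2
  show ((pivT (table X E T S) T d y).1 && (test3 (resT t S₂) && nonbin X E T' (resT t S₂))) = true
  rw [h0, a1, a2]
  rfl

end Pool.Agent.G4
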