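import Pool.Agent.G4.R4

set_option autoImplicit false

/-!
# Module R4b: consequences of `u24_keep`

* `u24_side`: `Z ∩ X`, `Z ∩ Y`: `k = ctr r C`: `k (Z ∩ X) + k (Z ∩ Y) - k Z ≤ lam r (X ∪ Y) X ≤ 1`
  (monotonicity of `lam` under minors: submodularity, `r (C ∪ A) + ...`; in detail with
  `C_X = C ∩ X`, `C_Y = C ∩ Y`: `r X + r Y - r (X ∪ Y) ≥
  r (C ∪ (Z ∩ X)) + r (C ∪ (Z ∩ Y)) - r (C ∪ Z) - r C` by submodularity in the steps
  `r X - r (X ∪ Y)` ...; an easy way: `lam (ctr r C) ((X ∪ Y) \ C) (X \ C) ≤ lam r (X ∪ Y) X` and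
  `lam_erase` for the deletion), and if both parts of `Z` had two elements this would be
  `2 + 2 - 2 = 2`. So one of them has at least three.
* `u24_keep_del`: `u24_keep` with `Y' = Y.erase y`.
* `u24_keep_ctr`: duality. `U24.dual` moves the witness `(C, Z)` to `((S \ C) \ Z, Z)`
  (`S = X ∪ Y`; repeat the computation in the header of R1b), `lam_dual`; `dual_ctr` says that
  `dualR (ctr r {y}) (S \ {y})` agrees with `dualR r S` on the subsets of `S \ {y}`; apply `u24_keep`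
  to `dualR r S` with `Y' = Y.erase y`, then `U24.congr` and `U24.of_dual`.
-/

namespace Pool.Agent.G4

open Finset

variable {r : Finset ℕ → ℤ} {X Y C Z : Finset ℕ} {y : ℕ}

theorem u24_side (hr : IsRk r) (hd : Disjoint X Y)
    (hC : C ⊆ X ∪ Y) (hZ : Z ⊆ X ∪ Y) (hCZ : Disjoint C Z) (h4 : Z.card = 4)
    (hu : ∀ A ⊆ Z, ctr r C A = min (A.card : ℤ) 2) (h1 : lam r (X ∪ Y) X ≤ 1) :
    3 ≤ (Z ∩ X).card ∨ 3 ≤ (Z ∩ Y).card := by
  by_contra hcon
  push Not at hcon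
  have hcard : (Z ∩ X).card + (Z ∩ Y).card = 4 := by
    rw [← h4, ← card_union_of_disjoint
      (disjoint_of_subset_left inter_subset_right (disjoint_of_subset_right inter_subset_right hd)),
      ← inter_union_distrib_left, inter_eq_left.2 hZ]
  have hX2 : (Z ∩ X).card = 2 := by omega
  have hY2 : (Z ∩ Y).card = 2 := by omega
  have u1 := hu (Z ∩ X) inter_subset_left
  have u2 := hu (Z ∩ Y) inter_subset_left
  have u3 := hu Z subset_rfl
  rw [hX2] at u1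
  rw [hY2] at u2
  rw [h4] at u3
  norm_num at u1 u2 u3
  unfold ctr at u1 u2 u3
  have e0 : (X ∪ Y) \ X = Y := by
    ext x
    have := fun h : x ∈ X => disjoint_left.1 hd h
    simp only [mem_sdiff, mem_union]
    tauto
  unfold lam at h1
  rw [e0] at h1
  have s1 := hr.sub X C
  have s2 := hr.sub Y C
  have s3 := hr.sub (X ∩ C) (Y ∩ C)
  have e3 : X ∩ C ∪ Y ∩ C = C := by
    ext x
    have := @hC x
    simp only [mem_union, mem_inter] at this ⊢
    tauto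
  have e3' : X ∩ C ∩ (Y ∩ C) = ∅ := by
    ext x
    have := fun h : x ∈ X => disjoint_left.1 hd h
    simp only [mem_inter, notMem_empty, iff_false]
    tauto
  rw [e3, e3', hr.empty] at s3
  have s4 := hr.sub (C ∪ X) (C ∪ Z)
  have e4 : (C ∪ X) ∩ (C ∪ Z) = C ∪ (Z ∩ X) := by
    ext x
    simp only [mem_inter, mem_union]
    tauto
  rw [e4] at s4
  have s5 := hr.sub (C ∪ Y) (C ∪ X ∪ (C ∪ Z))
  have e5 : (C ∪ Y) ∪ (C ∪ X ∪ (C ∪ Z)) = X ∪ Y := by
    ext x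
    have h5 := @hC x
    have h6 := @hZ x
    simp only [mem_union] at h5 h6 ⊢
    tauto
  have e5' : (C ∪ Y) ∩ (C ∪ X ∪ (C ∪ Z)) = C ∪ (Z ∩ Y) := by
    ext x
    have := fun h : x ∈ X => disjoint_left.1 hd h
    simp only [mem_inter, mem_union]
    tauto
  rw [e5, e5'] at s5
  rw [union_comm X C] at s1
  rw [union_comm Y C] at s2
  linarith

theorem erase_union' (hd : Disjoint X Y) (hy : y ∈ Y) : X ∪ Y.erase y = (X ∪ Y).erase y := by
  have hyX : y ∉ X := fun h => disjoint_left.1 hd h hy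
  ext x
  simp only [mem_union, mem_erase]
  constructor
  · rintro (h | h)
    · exact ⟨fun h1 => hyX (h1 ▸ h), Or.inl h⟩
    · exact ⟨h.1, Or.inr h.2⟩
  · tauto

theorem u24_keep_del (hr : IsRk r) (hd : Disjoint X Y) (hy : y ∈ Y)
    (hC : C ⊆ X ∪ Y) (hZ : Z ⊆ X ∪ Y) (hCZ : Disjoint C Z) (h4 : Z.card = 4)
    (hu : ∀ A ⊆ Z, ctr r C A = min (A.card : ℤ) 2) (h3 : 3 ≤ (Z ∩ X).card)
    (h1 : lam r (X ∪ Y) X ≤ 1) (h2 : 1 ≤ lam r ((X ∪ Y).erase y) X) :
    U24 r ((X ∪ Y).erase y) := by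
  rw [← erase_union' hd hy] at h2 ⊢
  exact u24_keep hr hd (erase_subset _ _) hC hZ hCZ h4 hu h3 h1 h2

theorem u24_keep_ctr (hr : IsRk r) (hd : Disjoint X Y) (hy : y ∈ Y)
    (hC : C ⊆ X ∪ Y) (hZ : Z ⊆ X ∪ Y) (hCZ : Disjoint C Z) (h4 : Z.card = 4)
    (hu : ∀ A ⊆ Z, ctr r C A = min (A.card : ℤ) 2) (h3 : 3 ≤ (Z ∩ X).card)
    (h1 : lam r (X ∪ Y) X ≤ 1) (h2 : 1 ≤ lam (ctr r {y}) ((X ∪ Y).erase y) X) :
    U24 (ctr r {y}) ((X ∪ Y).erase y) := by
  set S := X ∪ Y with hS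
  have hyS : ({y} : Finset ℕ) ⊆ S := singleton_subset_iff.2 (mem_union_right X hy)
  have hyX : y ∉ X := fun h => disjoint_left.1 hd h hy
  have hXS : X ⊆ S := subset_union_left
  have hXe : X ⊆ S.erase y := subset_erase.2 ⟨hXS, hyX⟩
  have hdc : ∀ A ⊆ S.erase y, dualR (ctr r {y}) (S.erase y) A = dualR r S A := by
    intro A hA
    rw [← sdiff_singleton_eq_erase] at hA ⊢
    exact dual_ctr hyS hA
  apply U24.of_dual (hr.ctr {y})
  rw [U24.congr hdc, hS, ← erase_union' hd hy]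
  refine u24_keep (hr.dual S) hd (erase_subset _ _) (C := (S \ C) \ Z) (Z := Z)
    (sdiff_subset.trans sdiff_subset) hZ sdiff_disjoint h4
    (fun A hA => dual_wit hC hZ hCZ h4 hu hA) h3 ?_ ?_
  · rw [← hS, lam_dual hr hXS]
    exact h1
  · rw [erase_union' hd hy, ← hS, ← lam_congr' hdc hXe, lam_dual (hr.ctr {y}) hXe]
    exact h2

end Pool.Agent.G4
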