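import Pool.Agent.G4.R1b

set_option autoImplicit false

/-!
# Module R5: a series triple

PROOF. `S = X ∪ Y`, `lam r S X = 1` (`≥ 1` by `hconn`, `X`, `Y` nonempty), i.e.
`r X + r Y = r S + 1`. For all `y ∈ S` `r {y} = 1`, and `r (S.erase y) = r S` (`hconn` for `{y}`).
* Deletion case: `lam r (S.erase y) X ≤ 0` means `r X + r (Y.erase y) ≤ r S`, so
`r (Y.erase y) ≤ r Y - 1`.
* Contraction case: `r (insert y X) - 1 + r Y - 1 - (r S - 1) ≤ 0` (`y ∈ Y`), so
`r (insert y X) ≤ r X`.
Two different elements `y, y'` of the contraction case: `r (X ∪ {y, y'}) ≤ r X` (submodularity), so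
`k(X, {y, y'}) = r X + r {y, y'} - r (X ∪ {y, y'}) ≥ 2`, but `k(X, {y, y'}) ≤ k(X, Y) = 1`
(submodularity), contradiction. If `y` is in the contraction case and `y' ≠ y` in the deletion case:
`k(X, Y.erase y') ≥ k(X, {y}) ≥ 1` but `k(X, Y.erase y') = r X + r (Y.erase y') - r (S.erase y') ≤ 0`.
As `3 ≤ Y.card`, all elements of `Y` are in the deletion case, so `r (A) = A.card` for `A ⊆ Y`
(each element of `Y` is a coloop of `Y`; induction), in particular for `a ≠ b` in `Y`:
`r (S \ {a, b}) ≤ r X + r (Y \ {a, b}) = r X + r Y - 2 = r S - 1` and `lam r S {a, b} ≤ 1`. Take any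
three elements.
-/

namespace Pool.Agent.G4

open Finset

variable {r : Finset ℕ → ℤ} {S X Y : Finset ℕ}

theorem triple_of_killers (hr : IsRk r) (hS : X ∪ Y = S) (hd : Disjoint X Y) (hX : X.Nonempty)
    (hY : 3 ≤ Y.card)
    (hconn : ∀ A ⊆ S, A.Nonempty → (S \ A).Nonempty → 1 ≤ lam r S A)
    (hsimple : ∀ a ∈ S, ∀ b ∈ S, a ≠ b → r {a, b} = 2)
    (h1 : lam r S X ≤ 1)
    (hk : ∀ y ∈ Y, lam r (S.erase y) X ≤ 0 ∨ lam (ctr r {y}) (S.erase y) X ≤ 0) :
    ∃ a ∈ Y, ∃ b ∈ Y, ∃ c ∈ Y, a ≠ b ∧ b ≠ c ∧ a ≠ c ∧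
      lam r S {a, b} ≤ 1 ∧ lam r S {b, c} ≤ 1 := by
  have hYS : Y ⊆ S := hS ▸ Finset.subset_union_right
  have hXS : X ⊆ S := hS ▸ Finset.subset_union_left
  have hXY : ∀ x, x ∈ X → x ∉ Y := fun x hx => Finset.disjoint_left.1 hd hx
  have hmS : ∀ x, x ∈ S ↔ x ∈ X ∨ x ∈ Y := fun x => by rw [← hS, mem_union]
  have hSX : S \ X = Y := by
    ext x
    rw [mem_sdiff, hmS]
    have := hXY x
    tauto
  have hoth : ∀ y ∈ Y, ∃ y' ∈ Y, y' ≠ y := fun y _ =>
    Finset.exists_mem_ne (by omega) y
  -- ranks of singletons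
  have hone : ∀ y ∈ Y, r {y} = 1 := by
    intro y hy
    obtain ⟨y', hy', hne⟩ := hoth y hy
    have h2 := hsimple y' (hYS hy') y (hYS hy) hne
    have h3 := hr.unit {y} y'
    have h4 := hr.unit ∅ y
    have h5 := hr.empty
    have e1 : insert y (∅ : Finset ℕ) = {y} := rfl
    have e2 : insert y' ({y} : Finset ℕ) = {y', y} := rfl
    rw [e1] at h4
    rw [e2] at h3
    omega
  have hXY1 : r X + r Y = r S + 1 := by
    obtain ⟨y, hy⟩ : Y.Nonempty := Finset.card_pos.1 (by omega)
    have h2 := hconn X hXS hX (by rw [hSX]; exact ⟨y, hy⟩)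
    unfold lam at h1 h2
    rw [hSX] at h1 h2
    omega
  have her : ∀ y ∈ Y, r S ≤ r (S.erase y) := by
    intro y hy
    obtain ⟨y', hy', hne⟩ := hoth y hy
    have h2 := hconn {y} (Finset.singleton_subset_iff.2 (hYS hy)) ⟨y, Finset.mem_singleton_self y⟩
      ⟨y', by rw [mem_sdiff, mem_singleton]; exact ⟨hYS hy', hne⟩⟩
    unfold lam at h2
    rw [hone y hy, Finset.sdiff_singleton_eq_erase] at h2
    omega
  have hk' : ∀ y ∈ Y, r (Y.erase y) ≤ r Y - 1 ∨ r (insert y X) ≤ r X := by
    intro y hy
    have hyX : y ∉ X := fun h => hXY y h hy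
    have e1 : S.erase y \ X = Y.erase y := by
      ext x
      rw [mem_sdiff, mem_erase, mem_erase, hmS]
      have := hXY x
      tauto
    rcases hk y hy with h | h
    · left
      unfold lam at h
      rw [e1] at h
      have h3 : r (S.erase y) ≤ r S := hr.mono' (Finset.erase_subset y S)
      omega
    · right
      unfold lam ctr at h
      rw [e1] at h
      have e2 : {y} ∪ X = insert y X := rfl
      have e3 : {y} ∪ Y.erase y = Y := Finset.insert_erase hy
      have e4 : {y} ∪ S.erase y = S := Finset.insert_erase (hYS hy)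
      rw [e2, e3, e4, hone y hy] at h
      omega
  -- all elements of `Y` are in the first case
  have hall : ∀ y ∈ Y, r (Y.erase y) ≤ r Y - 1 := by
    intro y hy
    rcases hk' y hy with h | h
    · exact h
    exfalso
    obtain ⟨y', hy', hne⟩ := hoth y hy
    rcases hk' y' hy' with h' | h'
    · have hs := hr.sub (insert y X) (Y.erase y')
      have e1 : insert y X ∪ Y.erase y' = S.erase y' := by
        ext x
        rw [mem_union, mem_insert, mem_erase, mem_erase, hmS]
        constructor
        · rintro ((rfl | hx) | hx)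
          · exact ⟨hne.symm, Or.inr hy⟩
          · exact ⟨fun e => hXY x hx (e ▸ hy'), Or.inl hx⟩
          · exact ⟨hx.1, Or.inr hx.2⟩
        · rintro ⟨h3, h4 | h4⟩
          · exact Or.inl (Or.inr h4)
          · exact Or.inr ⟨h3, h4⟩
      have e2 : insert y X ∩ Y.erase y' = {y} := by
        ext x
        rw [mem_inter, mem_insert, mem_erase, mem_singleton]
        constructor
        · rintro ⟨hx | hx, h3⟩
          · exact hx
          · exact absurd h3.2 (hXY x hx)
        · rintro rfl
          exact ⟨Or.inl rfl, hne.symm, hy⟩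
      rw [e1, e2, hone y hy] at hs
      have h5 := her y' hy'
      omega
    · have hs := hr.sub (insert y X) (insert y' X)
      have e1 : r X ≤ r (insert y X ∩ insert y' X) := hr.mono' (by
        intro x hx
        rw [mem_inter, mem_insert, mem_insert]
        exact ⟨Or.inr hx, Or.inr hx⟩)
      have hs2 := hr.sub (insert y X ∪ insert y' X) Y
      have e2 : (insert y X ∪ insert y' X) ∪ Y = S := by
        ext x
        rw [mem_union, mem_union, mem_insert, mem_insert, hmS]
        constructor
        · rintro (((rfl | hx) | (rfl | hx)) | hx)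
          · exact Or.inr hy
          · exact Or.inl hx
          · exact Or.inr hy'
          · exact Or.inl hx
          · exact Or.inr hx
        · rintro (hx | hx)
          · exact Or.inl (Or.inl (Or.inr hx))
          · exact Or.inr hx
      have e3 : (insert y X ∪ insert y' X) ∩ Y = {y', y} := by
        ext x
        rw [mem_inter, mem_union, mem_insert, mem_insert, mem_insert, mem_singleton]
        constructor
        · rintro ⟨((hx | hx) | (hx | hx)), h3⟩
          · exact Or.inr hx
          · exact absurd h3 (hXY x hx)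
          · exact Or.inl hx
          · exact absurd h3 (hXY x hx)
        · rintro (rfl | rfl)
          · exact ⟨Or.inr (Or.inl rfl), hy'⟩
          · exact ⟨Or.inl (Or.inl rfl), hy⟩
      rw [e2, e3, hsimple y' (hYS hy') y (hYS hy) hne] at hs2
      omega
  -- pairs
  have hpair : ∀ a ∈ Y, ∀ b ∈ Y, a ≠ b → lam r S {a, b} ≤ 1 := by
    intro a ha b hb hab
    have hs := hr.sub (Y.erase a) (Y.erase b)
    have e1 : Y.erase a ∪ Y.erase b = Y := by
      ext x
      rw [mem_union, mem_erase, mem_erase]
      constructor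
      · rintro (h | h)
        · exact h.2
        · exact h.2
      · intro h
        by_cases hxa : x = a
        · exact Or.inr ⟨fun e => hab (hxa ▸ e), h⟩
        · exact Or.inl ⟨hxa, h⟩
    have e2 : Y.erase a ∩ Y.erase b = Y \ {a, b} := by
      ext x
      rw [mem_inter, mem_erase, mem_erase, mem_sdiff, mem_insert, mem_singleton]
      tauto
    rw [e1, e2] at hs
    have h3 := hall a ha
    have h4 := hall b hb
    have hs2 := hr.sub X (Y \ {a, b})
    have e3 : X ∪ Y \ {a, b} = S \ {a, b} := by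
      ext x
      rw [mem_union, mem_sdiff, mem_sdiff, mem_insert, mem_singleton, hmS]
      constructor
      · rintro (h | h)
        · refine ⟨Or.inl h, ?_⟩
          rintro (rfl | rfl)
          · exact hXY _ h ha
          · exact hXY _ h hb
        · exact ⟨Or.inr h.1, h.2⟩
      · rintro ⟨h | h, h'⟩
        · exact Or.inl h
        · exact Or.inr ⟨h, h'⟩
    rw [e3] at hs2
    have h5 := hr.nonneg (X ∩ (Y \ {a, b}))
    unfold lam
    rw [hsimple a (hYS ha) b (hYS hb) hab]
    omega
  obtain ⟨a, ha, b, hb, c, hc, hab, hac, hbc⟩ := Finset.two_lt_card.1 (by omega : 2 < Y.card)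
  exact ⟨a, ha, b, hb, c, hc, hab, hbc, hac, hpair a ha b hb hab, hpair b hb c hc hbc⟩

end Pool.Agent.G4
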