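import Pool.Agent.G4.R1b

set_option autoImplicit false

/-!
# Module R7a: contraction of one element of a series pair keeps a `U_{2,4}` minor

PROOF. For `F ⊆ S \ {a, b}`: `r (insert a F) = r F + 1` (`a` is not in the closure of `S \ {a, b}`,
because `r (S.erase b) = r S > r (S \ {a, b})`; `IsRk.submod`), the same for `b`. So exchanging `a`
and `b` (`τ = Equiv.swap a b`) does not change the rank of subsets of `S`:
`r (F.map τ) = r F` for `F ⊆ S` (a set which contains both or none is mapped to itself).
Let `(C, Z)` be a witness. Let `K = (C ∪ Z) ∩ {a, b}`.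
(i) If `C` contains neither `a` nor `b` and `Z` contains `a` or `b`: submodularity for `C ∪ Z` and
`S \ {a, b}`: `r (C ∪ Z) + r (S \ {a, b}) ≥ r ((C ∪ Z) ∪ (S \ {a, b})) + r ((C ∪ Z) \ {a, b})`, and
`(C ∪ Z) ∪ (S \ {a, b})` is `S`, `S.erase a` or `S.erase b`, of rank `r S`. So
`r ((C ∪ Z) \ {a, b}) ≤ r (C ∪ Z) - 1`, i.e. `ctr r C (Z \ {a, b}) ≤ ctr r C Z - 1 = 1`, but
`Z \ {a, b}` has at least two elements. Contradiction.
(ii) `b ∈ C`: witness `(C.erase b, Z)` for `ctr r {b}` (`ctr_ctr`).
(iii) `a ∈ C`, `b ∉ C`: the witness `(C.map τ, Z.map τ)` for `r` is in case (ii).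
(iv) `a, b ∉ C ∪ Z`: the witness `(C, Z)` works for `ctr r {b}`: for `F ⊆ S \ {a, b}`
`ctr r {b} F = r F + 1 - r {b} = r F` (`r {b} = r ∅ + 1 = 1`).
-/

namespace Pool.Agent.G4

open Finset

variable {r : Finset ℕ → ℤ} {S : Finset ℕ} {a b : ℕ}

private theorem series_rk (hr : IsRk r) (ha : a ∈ S) (hb : b ∈ S) (hab : a ≠ b)
    (h1 : r (S \ {a, b}) < r S) (h3 : r (S.erase b) = r S) {F : Finset ℕ}
    (hF : F ⊆ S \ {a, b}) : r (insert a F) = r F + 1 := by
  have hx : Disjoint ({a} : Finset ℕ) (S \ {a, b}) := by
    rw [Finset.disjoint_singleton_left]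
    simp
  have h4 := hr.submod hF hx
  have e1 : (S \ {a, b}) ∪ {a} = S.erase b := by
    ext x
    simp only [mem_union, mem_sdiff, mem_insert, mem_singleton, mem_erase]
    constructor
    · rintro (⟨hx, h⟩ | rfl)
      · exact ⟨fun h' => h (Or.inr h'), hx⟩
      · exact ⟨hab, ha⟩
    · rintro ⟨h, hx⟩
      by_cases hxa : x = a
      · exact Or.inr hxa
      · exact Or.inl ⟨hx, by tauto⟩
  have e2 : F ∪ {a} = insert a F := by
    rw [Finset.union_comm]
    rfl
  rw [e1, h3, e2] at h4
  have h5 := hr.unit F a
  omega

theorem u24_series (hr : IsRk r) (ha : a ∈ S) (hb : b ∈ S) (hab : a ≠ b)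
    (h1 : r (S \ {a, b}) < r S) (h2 : r (S.erase a) = r S) (h3 : r (S.erase b) = r S)
    (hU : U24 r S) : U24 (ctr r {b}) (S.erase b) := by
  obtain ⟨C, Z, hC, hZ, hd, hcard, hX⟩ := hU
  have kA : ∀ F ⊆ S \ {a, b}, r (insert a F) = r F + 1 := fun F hF =>
    series_rk hr ha hb hab h1 h3 hF
  have kB : ∀ F ⊆ S \ {a, b}, r (insert b F) = r F + 1 := fun F hF => by
    refine series_rk (S := S) (b := a) hr hb ha hab.symm ?_ h2 ?_
    · rwa [Finset.pair_comm]
    · rwa [Finset.pair_comm]
  by_cases hbC : b ∈ C
  · -- (ii)
    have hbZ : b ∉ Z := fun h => Finset.disjoint_left.1 hd hbC h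
    refine ⟨C.erase b, Z, Finset.erase_subset_erase b hC, ?_, ?_, hcard, ?_⟩
    · intro x hx
      rw [mem_erase]
      exact ⟨fun h => hbZ (h ▸ hx), hZ hx⟩
    · exact Finset.disjoint_of_subset_left (Finset.erase_subset b C) hd
    · intro X hXZ
      rw [ctr_ctr]
      have e1 : {b} ∪ C.erase b = C := Finset.insert_erase hbC
      rw [e1]
      exact hX X hXZ
  by_cases haC : a ∈ C
  · -- (iii)
    have haZ : a ∉ Z := fun h => Finset.disjoint_left.1 hd haC h
    have hC0 : C.erase a ⊆ S \ {a, b} := by
      intro x hx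
      rw [mem_erase] at hx
      simp only [mem_sdiff, mem_insert, mem_singleton]
      exact ⟨hC hx.2, fun h => h.elim hx.1 fun h => hbC (h ▸ hx.2)⟩
    have hCa : insert a (C.erase a) = C := Finset.insert_erase haC
    have hrC : r C = r (C.erase a) + 1 := by
      have := kA _ hC0
      rwa [hCa] at this
    have hrC' : r (insert b (C.erase a)) = r (C.erase a) + 1 := kB _ hC0
    -- the sets not containing a, b
    have hkey : ∀ F : Finset ℕ, F ⊆ Z → b ∉ F →
        ctr r (insert b (C.erase a)) F = ctr r C F := by
      intro F hF hbF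
      have hsub : C.erase a ∪ F ⊆ S \ {a, b} := by
        refine Finset.union_subset hC0 ?_
        intro x hx
        simp only [mem_sdiff, mem_insert, mem_singleton]
        exact ⟨hZ (hF hx), fun h => h.elim (fun h => haZ (h ▸ hF hx)) fun h => hbF (h ▸ hx)⟩
      have e1 : insert b (C.erase a) ∪ F = insert b (C.erase a ∪ F) := Finset.insert_union _ _ _
      have e2 : C ∪ F = insert a (C.erase a ∪ F) := by
        rw [← Finset.insert_union, hCa]
      unfold ctr
      rw [e1, e2, kA _ hsub, kB _ hsub, hrC, hrC']
    have hbC' : b ∉ C.erase a := fun h => hbC (Finset.mem_of_mem_erase h)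
    by_cases hbZ : b ∈ Z
    · refine ⟨C.erase a, insert a (Z.erase b), ?_, ?_, ?_, ?_, ?_⟩
      · intro x hx
        rw [mem_erase]
        exact ⟨fun h => hbC' (h ▸ hx), hC (Finset.mem_of_mem_erase hx)⟩
      · intro x hx
        rw [mem_insert, mem_erase] at hx
        rw [mem_erase]
        rcases hx with rfl | hx
        · exact ⟨hab, ha⟩
        · exact ⟨hx.1, hZ hx.2⟩
      · rw [Finset.disjoint_left]
        intro x hx hx'
        rw [mem_insert, mem_erase] at hx'
        rw [mem_erase] at hx
        rcases hx' with h | h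
        · exact hx.1 h
        · exact Finset.disjoint_left.1 hd hx.2 h.2
      · rw [Finset.card_insert_of_notMem, Finset.card_erase_of_mem hbZ, hcard]
        intro h
        exact haZ (Finset.mem_of_mem_erase h)
      · intro X hXZ
        rw [ctr_ctr]
        have e0 : {b} ∪ C.erase a = insert b (C.erase a) := rfl
        rw [e0]
        by_cases haX : a ∈ X
        · have hX0 : X.erase a ⊆ Z.erase b := by
            intro x hx
            rw [mem_erase] at hx
            have := hXZ hx.2
            rw [mem_insert] at this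
            exact this.resolve_left hx.1
          have hbX : b ∉ X.erase a := fun h => (Finset.notMem_erase b Z) (hX0 h)
          have h5 := hX (insert b (X.erase a)) (by
            intro x hx
            rw [mem_insert] at hx
            rcases hx with rfl | hx
            · exact hbZ
            · exact Finset.mem_of_mem_erase (hX0 hx))
          have hc : (insert b (X.erase a)).card = X.card := by
            rw [Finset.card_insert_of_notMem hbX, Finset.card_erase_of_mem haX]
            have : 0 < X.card := Finset.card_pos.2 ⟨a, haX⟩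
            omega
          rw [hc] at h5
          rw [← h5]
          unfold ctr
          rw [hrC, hrC']
          congr 2
          ext x
          simp only [mem_union, mem_insert, mem_erase]
          constructor
          · rintro ((h | ⟨h, h'⟩) | h)
            · exact Or.inr (Or.inl h)
            · exact Or.inl h'
            · by_cases hxa : x = a
              · exact Or.inl (hxa ▸ haC)
              · exact Or.inr (Or.inr ⟨hxa, h⟩)
          · rintro (h | h | ⟨h, h'⟩)
            · by_cases hxa : x = a
              · exact Or.inr (hxa ▸ haX)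
              · exact Or.inl (Or.inr ⟨hxa, h⟩)
            · exact Or.inl (Or.inl h)
            · exact Or.inr h'
        · have hX0 : X ⊆ Z.erase b := by
            intro x hx
            have := hXZ hx
            rw [mem_insert] at this
            exact this.resolve_left fun h => haX (h ▸ hx)
          rw [hkey X (hX0.trans (Finset.erase_subset _ _)) fun h => Finset.notMem_erase b Z (hX0 h)]
          exact hX X (hX0.trans (Finset.erase_subset _ _))
    · refine ⟨C.erase a, Z, ?_, ?_, ?_, hcard, ?_⟩
      · intro x hx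
        rw [mem_erase]
        exact ⟨fun h => hbC' (h ▸ hx), hC (Finset.mem_of_mem_erase hx)⟩
      · intro x hx
        rw [mem_erase]
        exact ⟨fun h => hbZ (h ▸ hx), hZ hx⟩
      · exact Finset.disjoint_of_subset_left (Finset.erase_subset a C) hd
      · intro X hXZ
        rw [ctr_ctr]
        have e0 : {b} ∪ C.erase a = insert b (C.erase a) := rfl
        rw [e0, hkey X hXZ fun h => hbZ (hXZ h)]
        exact hX X hXZ
  have hC0 : C ⊆ S \ {a, b} := by
    intro x hx
    simp only [mem_sdiff, mem_insert, mem_singleton]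
    exact ⟨hC hx, fun h => h.elim (fun h => haC (h ▸ hx)) fun h => hbC (h ▸ hx)⟩
  by_cases hab' : a ∈ Z ∨ b ∈ Z
  · -- (i)
    exfalso
    have hbig : r S ≤ r ((C ∪ Z) ∪ (S \ {a, b})) := by
      rcases hab' with h | h
      · rw [← h3]
        refine hr.mono' ?_
        intro x hx
        rw [mem_erase] at hx
        simp only [mem_union, mem_sdiff, mem_insert, mem_singleton]
        by_cases hxa : x = a
        · exact Or.inl (Or.inr (hxa ▸ h))
        · exact Or.inr ⟨hx.2, fun h' => h'.elim hxa hx.1⟩
      · rw [← h2]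
        refine hr.mono' ?_
        intro x hx
        rw [mem_erase] at hx
        simp only [mem_union, mem_sdiff, mem_insert, mem_singleton]
        by_cases hxb : x = b
        · exact Or.inl (Or.inr (hxb ▸ h))
        · exact Or.inr ⟨hx.2, fun h' => h'.elim hx.1 hxb⟩
    have hsub := hr.sub (C ∪ Z) (S \ {a, b})
    have hint : (C ∪ Z) ∩ (S \ {a, b}) = C ∪ (Z \ {a, b}) := by
      ext x
      simp only [mem_inter, mem_union, mem_sdiff, mem_insert, mem_singleton]
      constructor
      · rintro ⟨h | h, h'⟩
        · exact Or.inl h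
        · exact Or.inr ⟨h, h'.2⟩
      · rintro (h | h)
        · have := hC0 h
          simp only [mem_sdiff, mem_insert, mem_singleton] at this
          exact ⟨Or.inl h, this⟩
        · exact ⟨Or.inr h.1, hZ h.1, h.2⟩
    rw [hint] at hsub
    have h6 := hX Z (Finset.Subset.refl Z)
    have h7 := hX (Z \ {a, b}) Finset.sdiff_subset
    have h8 : 2 ≤ (Z \ {a, b}).card := by
      have := Finset.le_card_sdiff ({a, b} : Finset ℕ) Z
      have h9 : ({a, b} : Finset ℕ).card ≤ 2 := Finset.card_le_two
      omega
    have h10 : ((Z \ {a, b}).card : ℤ) ≥ 2 := by exact_mod_cast h8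
    rw [min_eq_right h10] at h7
    rw [hcard] at h6
    unfold ctr at h6 h7
    norm_num at h6
    omega
  · -- (iv)
    have haZ : a ∉ Z := fun h => hab' (Or.inl h)
    have hbZ : b ∉ Z := fun h => hab' (Or.inr h)
    have hZ0 : Z ⊆ S \ {a, b} := by
      intro x hx
      simp only [mem_sdiff, mem_insert, mem_singleton]
      exact ⟨hZ hx, fun h => h.elim (fun h => haZ (h ▸ hx)) fun h => hbZ (h ▸ hx)⟩
    refine ⟨C, Z, ?_, ?_, hd, hcard, ?_⟩
    · intro x hx
      rw [mem_erase]
      exact ⟨fun h => hbC (h ▸ hx), hC hx⟩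
    · intro x hx
      rw [mem_erase]
      exact ⟨fun h => hbZ (h ▸ hx), hZ hx⟩
    · intro X hXZ
      rw [ctr_ctr]
      have e0 : {b} ∪ C = insert b C := rfl
      rw [e0, ← hX X hXZ]
      unfold ctr
      rw [Finset.insert_union, kB _ hC0, kB _ (Finset.union_subset hC0 (hXZ.trans hZ0))]
      ring

end Pool.Agent.G4
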