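import Pool.Agent.G4.R3
import Pool.Agent.G4.R7a

set_option autoImplicit false

/-!
# Module R6a: from a deletion without large 2-separations to a nice minor

PROOF of `nice_of_del`. `S' = S.erase y`. `Conn3.conn_erase` gives the second part of `Nice r S'`,
`hno` the third. If the fourth part holds we are done. Otherwise there are different
`a, b, c ∈ S'` with `lam r S' {a, b} ≤ 1`, `lam r S' {b, c} ≤ 1`. By `conn3_ctr_of_triple`
`Conn3 (ctr r {a}) (S.erase a)`. The pair `{b, a}` is a series pair of `S'` (as in the header of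
R7b: `r {a, b} = 2`, `r (S'.erase a) = r S'`, ... by `Conn3.conn_erase` for `{a}`), so `u24_series`
gives `U24 (ctr r {a}) (S'.erase a)` and `U24.mono` `U24 (ctr r {a}) (S.erase a)`. A function with
`Conn3` and `U24` is `Nice` (`nice_of_conn3`), so `Nice (ctr r {a}) (S.erase a)`.
PROOF of `nice_of_ctr`: apply `nice_of_del` to `dualR r S` (`Conn3.dual`; on subsets of
`S \ {y}` the function `dualR r S` agrees with `dualR (ctr r {y}) (S \ {y})`, `dual_ctr`,
`S.erase y = S \ {y}`; `U24.dual`, `lam_dual` and congruence). `Nice (dualR r S) (S.erase y)` gives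
`Nice (dualR (ctr r {y}) (S.erase y)) (S.erase y)`, so `Nice.of_dual`; and
`Nice (ctr (dualR r S) {a}) (S.erase a)` gives by `ctr_dual` `Nice (dualR r (S.erase a)) (S.erase a)`,
so `Nice r (S.erase a)`.
-/

namespace Pool.Agent.G4

open Finset

variable {r : Finset ℕ → ℤ} {S : Finset ℕ} {y : ℕ}

theorem nice_of_conn3 (h : Conn3 r S) (hU : U24 r S) : Nice r S := by
  obtain ⟨h4, h⟩ := h
  refine ⟨hU, fun X hX h1 h2 => (h X hX h1 h2).1, fun X hX h1 => ?_, fun a ha b hb c _ hab _ _ h1 => ?_⟩
  · by_contra hc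
    push Not at hc
    obtain ⟨c1, c2⟩ := hc
    have h3 := (h X hX (card_pos.1 (by omega)) (card_pos.1 (by omega))).2 (by omega) (by omega)
    omega
  · have hs : ({a, b} : Finset ℕ) ⊆ S := by
      intro x hx
      rw [mem_insert, mem_singleton] at hx
      rcases hx with rfl | rfl
      · exact ha
      · exact hb
    have hc : ({a, b} : Finset ℕ).card = 2 := card_pair hab
    have hc2 : (S \ {a, b}).card = S.card - 2 := by rw [card_sdiff_of_subset hs, hc]
    have h3 := (h _ hs (card_pos.1 (by omega)) (card_pos.1 (by omega))).2 (by omega) (by omega)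
    have := h1.1
    omega

theorem nice_of_del (hr : IsRk r) (hS : Conn3 r S) (h5 : 5 ≤ S.card) (hy : y ∈ S)
    (hU : U24 r (S.erase y))
    (hno : ∀ X ⊆ S.erase y, lam r (S.erase y) X ≤ 1 → X.card ≤ 2 ∨ (S.erase y \ X).card ≤ 2) :
    Nice r (S.erase y) ∨ ∃ a ∈ S, Nice (ctr r {a}) (S.erase a) := by
  by_cases h4 : ∀ a ∈ S.erase y, ∀ b ∈ S.erase y, ∀ c ∈ S.erase y, a ≠ b → b ≠ c → a ≠ c →
      ¬ (lam r (S.erase y) {a, b} ≤ 1 ∧ lam r (S.erase y) {b, c} ≤ 1)
  · exact Or.inl ⟨hU, fun X hX h1 h2 => hS.conn_erase hr hy hX h1 h2, hno, h4⟩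
  · right
    push Not at h4
    obtain ⟨a, ha, b, hb, c, hc, hab, hbc, hac, h1, h2⟩ := h4
    have haS : a ∈ S := mem_of_mem_erase ha
    have hbS : b ∈ S := mem_of_mem_erase hb
    have hT := conn3_ctr_of_triple hr hS h5 hy ha hb hc hab hbc hac h1 h2
    have hone : ∀ x ∈ S.erase y, r ((S.erase y).erase x) = r (S.erase y) := by
      intro x hx
      have hne : (S.erase y \ {x}).Nonempty := by
        apply card_pos.1
        rw [card_sdiff_of_subset (singleton_subset_iff.2 hx), card_singleton, card_erase_of_mem hy]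
        omega
      have e1 := hS.conn_erase hr hy (singleton_subset_iff.2 hx) (singleton_nonempty x) hne
      have e2 := hS.rank_one hr (mem_of_mem_erase hx)
      unfold lam at e1
      rw [e2, sdiff_singleton_eq_erase] at e1
      have e3 := hr.mono' (erase_subset x (S.erase y))
      omega
    have hU2 : U24 (ctr r {a}) ((S.erase y).erase a) := by
      refine u24_series hr hb ha (Ne.symm hab) ?_ (hone b hb) (hone a ha) hU
      have e1 := hS.rank_two hr haS hbS hab
      unfold lam at h1
      rw [e1] at h1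
      rw [pair_comm b a]
      omega
    refine ⟨a, haS, nice_of_conn3 hT (hU2.mono ?_)⟩
    exact erase_subset_erase a (erase_subset y S)

theorem nice_of_ctr (hr : IsRk r) (hS : Conn3 r S) (h5 : 5 ≤ S.card) (hy : y ∈ S)
    (hU : U24 (ctr r {y}) (S.erase y))
    (hno : ∀ X ⊆ S.erase y, lam (ctr r {y}) (S.erase y) X ≤ 1 →
      X.card ≤ 2 ∨ (S.erase y \ X).card ≤ 2) :
    Nice (ctr r {y}) (S.erase y) ∨ ∃ a ∈ S, Nice r (S.erase a) := by
  have hsd : ∀ x, S \ {x} = S.erase x := fun x => sdiff_singleton_eq_erase x S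
  have hD : ∀ X ⊆ S.erase y, dualR (ctr r {y}) (S.erase y) X = dualR r S X := by
    intro X hX
    have := dual_ctr (r := r) (S := S) (C := {y}) (X := X) (singleton_subset_iff.2 hy)
      (by rw [hsd]; exact hX)
    rwa [hsd] at this
  have hl : ∀ X ⊆ S.erase y, lam (dualR r S) (S.erase y) X = lam (ctr r {y}) (S.erase y) X := by
    intro X hX
    rw [← lam_dual (hr.ctr {y}) hX]
    unfold lam
    rw [hD X hX, hD _ sdiff_subset, hD _ (Subset.refl _)]
  rcases nice_of_del (hr.dual S) (hS.dual hr) h5 hy ((U24.congr hD).1 hU.dual)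
    (fun X hX h1 => hno X hX (by rw [← hl X hX]; exact h1)) with h | ⟨a, ha, h⟩
  · exact Or.inl (Nice.of_dual (hr.ctr {y}) ((Nice.congr hD).2 h))
  · right
    refine ⟨a, ha, Nice.of_dual hr ((Nice.congr fun X hX => ?_).1 h)⟩
    have := ctr_dual (r := r) (S := S) (C := {a}) (X := X) (singleton_subset_iff.2 ha)
      (by rw [hsd]; exact hX)
    rwa [hsd] at this

end Pool.Agent.G4
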