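import Pool.Agent.G4.R2
import Pool.Agent.G4.R4b
import Pool.Agent.G4.R5
import Pool.Agent.G4.R6a

set_option autoImplicit false

/-!
# Module R6b: the chain lemma

PROOF of `nice_of_both`: by `bixby` one of `r` on `S.erase y` and `ctr r {y}` on `S.erase y` has no
2-separation with both sides of size at least three; use `nice_of_del` or `nice_of_ctr`.

PROOF of `chain_del` (the minor `M \ e` has a minor `U_{2,4}`): `S' = S.erase e`. If `S'` has no
2-separation with both sides of size at least three: `nice_of_del`. Otherwise let `(X, Y)` be one,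
and `(C, Z)` the witness of `U24 r S'`. By `u24_side` we may assume `3 ≤ (Z ∩ X).card` (the situation
is symmetric: `lam_compl`). For `y ∈ Y` with `1 ≤ lam r (S'.erase y) X` and
`1 ≤ lam (ctr r {y}) (S'.erase y) X` the lemmas `u24_keep_del`, `u24_keep_ctr` give
`U24 r (S'.erase y)` and `U24 (ctr r {y}) (S'.erase y)`, so `U24 r (S.erase y)`,
`U24 (ctr r {y}) (S.erase y)` (`U24.mono`) and `nice_of_both` applies. Otherwise every `y ∈ Y`
satisfies the hypothesis `hk` of `triple_of_killers` for `S'` (`hconn`: `Conn3.conn_erase`,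
`hsimple`: `Conn3.rank_two`), and there are `a, b, c` with `lam r S' {a, b} ≤ 1`,
`lam r S' {b, c} ≤ 1`: `Conn3 (ctr r {a}) (S.erase a)` (`conn3_ctr_of_triple`) and
`U24 (ctr r {a}) (S.erase a)` as in the proof of `nice_of_del` (`u24_series`), so
`Nice (ctr r {a}) (S.erase a)` (`nice_of_conn3`).

PROOF of `chain_lemma`. Let `(C, Z)` be the witness of `U24 r S`. As `5 ≤ S.card` there is
`e ∈ S \ Z`. If `e ∉ C` then `U24 r (S.erase e)`: `chain_del`. If `e ∈ C` then
`U24 (ctr r {e}) (S.erase e)` (witness `(C.erase e, Z)`); apply `chain_del` to `dualR r S`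
(`U24 (dualR r S) (S.erase e)` by `U24.dual` and `dual_ctr`) and translate back as in the header of
R6a.
-/

namespace Pool.Agent.G4

open Finset

variable {r : Finset ℕ → ℤ} {S : Finset ℕ} {y e : ℕ}

theorem nice_of_both (hr : IsRk r) (hS : Conn3 r S) (h5 : 5 ≤ S.card) (hy : y ∈ S)
    (hU : U24 r (S.erase y)) (hU' : U24 (ctr r {y}) (S.erase y)) :
    ∃ y ∈ S, Nice r (S.erase y) ∨ Nice (ctr r {y}) (S.erase y) := by
  by_cases hno : ∀ X ⊆ S.erase y, lam r (S.erase y) X ≤ 1 →
      X.card ≤ 2 ∨ (S.erase y \ X).card ≤ 2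
  · rcases nice_of_del hr hS h5 hy hU hno with h | ⟨a, ha, h⟩
    · exact ⟨y, hy, Or.inl h⟩
    · exact ⟨a, ha, Or.inr h⟩
  · have hno' : ∀ X ⊆ S.erase y, lam (ctr r {y}) (S.erase y) X ≤ 1 →
        X.card ≤ 2 ∨ (S.erase y \ X).card ≤ 2 := by
      intro U hUs hlam
      by_contra hcon
      push Not at hcon hno
      obtain ⟨X, hX, h1, h2, h3⟩ := hno
      exact bixby hr hS hy (X := X) (Y := S.erase y \ X) (U := U) (W := S.erase y \ U)
        (union_sdiff_of_subset hX) disjoint_sdiff h2 h3 h1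
        (union_sdiff_of_subset hUs) disjoint_sdiff hcon.1 hcon.2 hlam
    rcases nice_of_ctr hr hS h5 hy hU' hno' with h | ⟨a, ha, h⟩
    · exact ⟨y, hy, Or.inr h⟩
    · exact ⟨a, ha, Or.inl h⟩

theorem chain_del (hr : IsRk r) (hS : Conn3 r S) (h5 : 5 ≤ S.card) (he : e ∈ S)
    (hU : U24 r (S.erase e)) :
    ∃ y ∈ S, Nice r (S.erase y) ∨ Nice (ctr r {y}) (S.erase y) := by
  by_cases hno : ∀ X ⊆ S.erase e, lam r (S.erase e) X ≤ 1 →
      X.card ≤ 2 ∨ (S.erase e \ X).card ≤ 2
  · rcases nice_of_del hr hS h5 he hU hno with h | ⟨a, ha, h⟩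
    · exact ⟨e, he, Or.inl h⟩
    · exact ⟨a, ha, Or.inr h⟩
  push Not at hno
  obtain ⟨X₀, hX₀, hlam₀, hc1, hc2⟩ := hno
  obtain ⟨C, Z, hC, hZ, hCZ, hZ4, hu⟩ := hU
  have hUU : U24 r (S.erase e) := ⟨C, Z, hC, hZ, hCZ, hZ4, hu⟩
  have claim : ∀ X ⊆ S.erase e, lam r (S.erase e) X ≤ 1 → 3 ≤ X.card →
      3 ≤ (S.erase e \ X).card → 3 ≤ (Z ∩ X).card →
      ∃ y ∈ S, Nice r (S.erase y) ∨ Nice (ctr r {y}) (S.erase y) := by
    intro X hX hlam hXc hYc hZX
    have hXY : X ∪ (S.erase e \ X) = S.erase e := union_sdiff_of_subset hX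
    have hd : Disjoint X (S.erase e \ X) := disjoint_sdiff
    by_cases hall : ∃ y ∈ S.erase e \ X, 1 ≤ lam r ((S.erase e).erase y) X ∧
        1 ≤ lam (ctr r {y}) ((S.erase e).erase y) X
    · obtain ⟨y, hy, h1, h2⟩ := hall
      have hyS' : y ∈ S.erase e := (mem_sdiff.1 hy).1
      have hyS : y ∈ S := mem_of_mem_erase hyS'
      have k1 := u24_keep_del (Z := Z) (C := C) hr hd hy (by rw [hXY]; exact hC)
        (by rw [hXY]; exact hZ) hCZ hZ4 hu hZX (by rw [hXY]; exact hlam) (by rw [hXY]; exact h1)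
      have k2 := u24_keep_ctr (Z := Z) (C := C) hr hd hy (by rw [hXY]; exact hC)
        (by rw [hXY]; exact hZ) hCZ hZ4 hu hZX (by rw [hXY]; exact hlam) (by rw [hXY]; exact h2)
      rw [hXY] at k1 k2
      have hsub : (S.erase e).erase y ⊆ S.erase y := erase_subset_erase _ (erase_subset _ _)
      exact nice_of_both hr hS h5 hyS (k1.mono hsub) (k2.mono hsub)
    · have hk : ∀ y ∈ S.erase e \ X, lam r ((S.erase e).erase y) X ≤ 0 ∨
          lam (ctr r {y}) ((S.erase e).erase y) X ≤ 0 := by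
        intro y hy
        by_contra hcon
        push Not at hcon
        exact hall ⟨y, hy, by omega, by omega⟩
      have hconn : ∀ A ⊆ S.erase e, A.Nonempty → (S.erase e \ A).Nonempty →
          1 ≤ lam r (S.erase e) A := fun A hA h1 h2 => hS.conn_erase hr he hA h1 h2
      obtain ⟨a, ha, b, hb, c, hc, hab, hbc, hac, l1, l2⟩ :=
        triple_of_killers hr hXY hd (card_pos.1 (by omega)) hYc hconn
          (fun a ha b hb hab => hS.rank_two hr (mem_of_mem_erase ha) (mem_of_mem_erase hb) hab)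
          hlam hk
      have ha' : a ∈ S.erase e := (mem_sdiff.1 ha).1
      have hb' : b ∈ S.erase e := (mem_sdiff.1 hb).1
      have hc' : c ∈ S.erase e := (mem_sdiff.1 hc).1
      have haS : a ∈ S := mem_of_mem_erase ha'
      have hbS : b ∈ S := mem_of_mem_erase hb'
      have hC3 : Conn3 (ctr r {a}) (S.erase a) :=
        conn3_ctr_of_triple hr hS h5 he ha' hb' hc' hab hbc hac l1 l2
      have hone : ∀ x ∈ S.erase e, r ((S.erase e).erase x) = r (S.erase e) := by
        intro x hx
        have hne : (S.erase e \ {x}).Nonempty := by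
          rw [← card_pos, card_sdiff_of_subset (singleton_subset_iff.2 hx), card_singleton,
            card_erase_of_mem he]
          omega
        have h1 := hconn {x} (singleton_subset_iff.2 hx) (singleton_nonempty x) hne
        unfold lam at h1
        rw [sdiff_singleton_eq_erase] at h1
        have h2 := hS.rank_one hr (mem_of_mem_erase hx)
        have h3 := hr.mono' (erase_subset x (S.erase e))
        linarith
      have hser : r (S.erase e \ {b, a}) < r (S.erase e) := by
        have h1 := l1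
        unfold lam at h1
        have h2 := hS.rank_two hr haS hbS hab
        rw [pair_comm a b] at h1 h2
        linarith
      have hU1 := u24_series hr hb' ha' hab.symm hser (hone b hb') (hone a ha') hUU
      have hU2 : U24 (ctr r {a}) (S.erase a) :=
        hU1.mono (erase_subset_erase _ (erase_subset _ _))
      exact ⟨a, haS, Or.inr (nice_of_conn3 hC3 hU2)⟩
  have hXY₀ : X₀ ∪ (S.erase e \ X₀) = S.erase e := union_sdiff_of_subset hX₀
  rcases u24_side hr (X := X₀) (Y := S.erase e \ X₀) disjoint_sdiff (by rw [hXY₀]; exact hC)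
    (by rw [hXY₀]; exact hZ) hCZ hZ4 hu (by rw [hXY₀]; exact hlam₀) with h | h
  · exact claim X₀ hX₀ hlam₀ hc1 hc2 h
  · refine claim (S.erase e \ X₀) sdiff_subset ?_ hc2 ?_ h
    · rw [lam_compl hX₀]; exact hlam₀
    · rw [Finset.sdiff_sdiff_eq_self hX₀]; exact hc1

theorem chain_lemma (hr : IsRk r) (hS : Conn3 r S) (h5 : 5 ≤ S.card) (hU : U24 r S) :
    ∃ y ∈ S, Nice r (S.erase y) ∨ Nice (ctr r {y}) (S.erase y) := by
  obtain ⟨C, Z, hC, hZ, hCZ, hZ4, hu⟩ := hU
  have hne : (S \ Z).Nonempty := by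
    rw [← card_pos, card_sdiff_of_subset hZ]
    omega
  obtain ⟨e, he⟩ := hne
  obtain ⟨heS, heZ⟩ := mem_sdiff.1 he
  by_cases heC : e ∈ C
  · have hsing : ({e} : Finset ℕ) ⊆ S := singleton_subset_iff.2 heS
    have hU1 : U24 (ctr r {e}) (S.erase e) := by
      refine ⟨C.erase e, Z, erase_subset_erase _ hC, ?_, ?_, hZ4, ?_⟩
      · exact fun x hx => mem_erase.2 ⟨fun h => heZ (h ▸ hx), hZ hx⟩
      · exact disjoint_of_subset_left (erase_subset _ _) hCZ
      · intro X hX
        rw [ctr_ctr]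
        have : ({e} : Finset ℕ) ∪ C.erase e = C := by
          rw [← insert_eq, insert_erase heC]
        rw [this]
        exact hu X hX
    have hU2 : U24 (dualR r S) (S.erase e) := by
      refine (U24.congr ?_).1 hU1.dual
      intro X hX
      rw [← sdiff_singleton_eq_erase] at hX ⊢
      exact dual_ctr hsing hX
    obtain ⟨y, hy, h | h⟩ := chain_del (hr.dual S) (hS.dual hr) h5 heS hU2
    · refine ⟨y, hy, Or.inr ?_⟩
      refine Nice.of_dual (hr.ctr {y}) ?_
      refine (Nice.congr ?_).1 h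
      intro X hX
      rw [← sdiff_singleton_eq_erase] at hX ⊢
      exact (dual_ctr (singleton_subset_iff.2 hy) hX).symm
    · refine ⟨y, hy, Or.inl ?_⟩
      refine Nice.of_dual hr ?_
      refine (Nice.congr ?_).1 h
      intro X hX
      rw [← sdiff_singleton_eq_erase] at hX ⊢
      exact ctr_dual (singleton_subset_iff.2 hy) hX
  · refine chain_del hr hS h5 heS ⟨C, Z, ?_, ?_, hCZ, hZ4, hu⟩
    · exact fun x hx => mem_erase.2 ⟨fun h => heC (h ▸ hx), hC hx⟩
    · exact fun x hx => mem_erase.2 ⟨fun h => heZ (h ▸ hx), hZ hx⟩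

end Pool.Agent.G4
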