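import Pool.Agent.G4.C3m
import Pool.Agent.G4.C4
import Pool.Agent.G4.R6b

set_option autoImplicit false

/-!
# Module C5: the chain ends with four elements

PROOF. Invariant of `(chainStep X E)^[i] (T, (S, []))`, state `(T', (S', l))`: `T'` is a basis without
repetitions, `T' \ S = T \ S` (as finsets, `S` the start), `S'` without repetitions, `S' ⊆ S`,
`Hist v T' S S' l`, `Conn3` and `U24` for `ctr (rkv v) (T' \ S')` on `S'`, and
`S'.length ≤ 4` or `S'.length + i ≤ S.length`. Step: `S'.length ≤ 4`: nothing changes. Otherwise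
`chain_lemma` (rank function `isRk_rkv`, `IsRk.ctr`; `5 ≤ S'.card`) gives `y` and (deletion: `d = false`,
contraction: `d = true`) `candInfo_complete`, so the filtered list is not empty; its head is an
accepted candidate `(d, y)`, `candInfo_sound`; the history: `Hist.congr` for the old records (the new
basis `T''` satisfies `T'' \ S' = T' \ S'`), then `Hist.cons`. At the end `S'.length ≤ 4`, and `Conn3`
gives `4 ≤`.
-/

namespace Pool.Agent.G4

open N487b59b3 F4 Pool.Agent.Helper22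

/-- the invariant of the chain -/
private structure ChInv {V : Type} [AddCommGroup V] [Module F4 V] (v : ℕ → V) (E T S : List ℕ)
    (i : ℕ) (s : Ch) : Prop where
  base : ∃ D', IsD v E.toFinset s.1.toFinset D'
  ndT : s.1.Nodup
  out : s.1.toFinset \ S.toFinset = T.toFinset \ S.toFinset
  ndS : s.2.1.Nodup
  sub : ∀ e ∈ s.2.1, e ∈ S
  hist : Hist v s.1.toFinset S.toFinset s.2.1.toFinset s.2.2
  c3 : Conn3 (ctr (rkv v) (s.1.toFinset \ s.2.1.toFinset)) s.2.1.toFinset
  u24 : U24 (ctr (rkv v) (s.1.toFinset \ s.2.1.toFinset)) s.2.1.toFinset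
  len : s.2.1.length ≤ 4 ∨ s.2.1.length + i ≤ S.length

private theorem mem_prd_c5 {α β : Type} {l : List α} {m : List β} {p : α × β} :
    p ∈ prd l m ↔ p.1 ∈ l ∧ p.2 ∈ m := by
  obtain ⟨a, b⟩ := p
  simp only [prd, List.mem_flatMap, List.mem_map, Prod.mk.injEq]
  constructor
  · rintro ⟨a', ha', b', hb', rfl, rfl⟩
    exact ⟨ha', hb'⟩
  · rintro ⟨h1, h2⟩
    exact ⟨a, h1, b, h2, rfl, rfl⟩

private theorem chainStep_inv {V : Type} [AddCommGroup V] [Module F4 V] {v : ℕ → V} {X : Oracle}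
    {E T S : List ℕ} (hX : IsOrc X E v) (hS : ∀ e ∈ S, e ∈ E) (i : ℕ) (s : Ch)
    (h : ChInv v E T S i s) : ChInv v E T S (i + 1) (chainStep X E s) := by
  by_cases h4 : s.2.1.length ≤ 4
  · have e1 : chainStep X E s = s := by
      unfold chainStep
      rw [if_pos h4]
    rw [e1]
    exact ⟨h.base, h.ndT, h.out, h.ndS, h.sub, h.hist, h.c3, h.u24, Or.inl h4⟩
  obtain ⟨D, hD⟩ := h.base
  have hSE : ∀ e ∈ s.2.1, e ∈ E := fun e he => hS e (h.sub e he)
  have hcard : s.2.1.toFinset.card = s.2.1.length := List.toFinset_card_of_nodup h.ndS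
  have hex : ∃ (d : Bool) (y : ℕ), y ∈ s.2.1 ∧ (candInfo X E s.1 s.2.1 d y).1 = true := by
    obtain ⟨y, hy, hN | hN⟩ := chain_lemma ((isRk_rkv v).ctr _) h.c3 (by omega) h.u24
    · exact ⟨false, y, List.mem_toFinset.1 hy, candInfo_complete false hX hD h.ndT hSE h.ndS h.c3
        (List.mem_toFinset.1 hy) hN⟩
    · exact ⟨true, y, List.mem_toFinset.1 hy, candInfo_complete true hX hD h.ndT hSE h.ndS h.c3
        (List.mem_toFinset.1 hy) hN⟩
  obtain ⟨d, y, hy, hdy⟩ := hex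
  set c := ((prd [false, true] s.2.1).map fun q => (q, candInfo X E s.1 s.2.1 q.1 q.2)).filter
      fun q => q.2.1 with hc
  have hmem : ∀ q ∈ c, q.1.2 ∈ s.2.1 ∧ q.2 = candInfo X E s.1 s.2.1 q.1.1 q.1.2 ∧
      (candInfo X E s.1 s.2.1 q.1.1 q.1.2).1 = true := by
    intro q hq
    rw [hc, List.mem_filter, List.mem_map] at hq
    obtain ⟨⟨p, hp, rfl⟩, hq2⟩ := hq
    rw [mem_prd_c5] at hp
    exact ⟨hp.2, rfl, hq2⟩
  have hin : ((d, y), candInfo X E s.1 s.2.1 d y) ∈ c := by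
    rw [hc, List.mem_filter, List.mem_map]
    refine ⟨⟨(d, y), ?_, rfl⟩, hdy⟩
    rw [mem_prd_c5]
    exact ⟨by cases d <;> simp, hy⟩
  have hne : c.isEmpty = false := by
    rw [List.isEmpty_eq_false_iff]
    intro h0
    rw [h0] at hin
    exact absurd hin List.not_mem_nil
  set q := c.headD ((false, 0), (false, ([], ([], [])))) with hq
  have hqc : q ∈ c := by
    rw [hq]
    cases hcc : c with
    | nil => rw [hcc] at hin; exact absurd hin List.not_mem_nil
    | cons a l => simp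
  obtain ⟨hy', hq2, hacc⟩ := hmem q hqc
  have e1 : chainStep X E s =
      (q.2.2.1, (q.2.2.2.1, (q.1.1, (q.1.2, q.2.2.2.2)) :: s.2.2)) := by
    have e2 : chainStep X E s = if s.2.1.length ≤ 4 then s else
        if c.isEmpty then s else
          (q.2.2.1, (q.2.2.2.1, (q.1.1, (q.1.2, q.2.2.2.2)) :: s.2.2)) := rfl
    rw [e2, if_neg h4, hne]
    simp
  rw [e1, hq2]
  obtain ⟨k1, k2, k3, k4, k5, k6, k7, k8⟩ :=
    candInfo_sound q.1.1 hX hD h.ndT hSE h.ndS h.c3 hy' hacc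
  have hsubF : s.2.1.toFinset ⊆ S.toFinset := fun e he =>
    List.mem_toFinset.2 (h.sub e (List.mem_toFinset.1 he))
  refine ⟨k1, k2, ?_, k4, fun e he => h.sub e (k5 e he), ?_, k7.c3', k8, ?_⟩
  · rw [← h.out]
    ext e
    have k3e := Finset.ext_iff.1 k3 e
    rw [Finset.mem_sdiff, Finset.mem_sdiff] at k3e ⊢
    constructor
    · rintro ⟨h1, h2⟩
      exact ⟨(k3e.1 ⟨h1, fun h3 => h2 (hsubF h3)⟩).1, h2⟩
    · rintro ⟨h1, h2⟩
      exact ⟨(k3e.2 ⟨h1, fun h3 => h2 (hsubF h3)⟩).1, h2⟩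
  · exact Hist.cons (h.hist.congr k3.symm) k7
  · refine Or.inr ?_
    have h5 := h.len.resolve_left h4
    show (candInfo X E s.1 s.2.1 q.1.1 q.1.2).2.2.1.length + (i + 1) ≤ S.length
    omega

theorem chain_spec {V : Type} [AddCommGroup V] [Module F4 V] {v : ℕ → V} {X : Oracle}
    {E T S : List ℕ} {D : ℕ → ℕ → F4} (hX : IsOrc X E v)
    (hD : IsD v E.toFinset T.toFinset D) (hT : T.Nodup) (hS : ∀ e ∈ S, e ∈ E) (hS' : S.Nodup)
    (h3 : Conn3 (ctr (rkv v) (T.toFinset \ S.toFinset)) S.toFinset)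
    (hU : U24 (ctr (rkv v) (T.toFinset \ S.toFinset)) S.toFinset) :
    let c := chain X E T S
    (∃ D', IsD v E.toFinset c.1.toFinset D') ∧ c.1.Nodup ∧
    c.1.toFinset \ S.toFinset = T.toFinset \ S.toFinset ∧
    c.2.1.Nodup ∧ (∀ e ∈ c.2.1, e ∈ S) ∧ c.2.1.length = 4 ∧
    Hist v c.1.toFinset S.toFinset c.2.1.toFinset c.2.2 ∧
    Conn3 (ctr (rkv v) (c.1.toFinset \ c.2.1.toFinset)) c.2.1.toFinset := by
  have hinv : ∀ i, ChInv v E T S i ((chainStep X E)^[i] (T, (S, []))) := by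
    intro i
    induction i with
    | zero =>
      exact ⟨⟨D, hD⟩, hT, rfl, hS', fun e he => he, Hist.nil, h3, hU, Or.inr (by simp)⟩
    | succ i ih =>
      rw [Function.iterate_succ_apply']
      exact chainStep_inv hX hS i _ ih
  have h := hinv S.length
  refine ⟨h.base, h.ndT, h.out, h.ndS, h.sub, ?_, h.hist, h.c3⟩
  have h1 : ((chainStep X E)^[S.length] (T, (S, []))).2.1.length ≤ 4 := by
    rcases h.len with h2 | h2
    · exact h2
    · omega
  have h2 := h.c3.1
  rw [List.toFinset_card_of_nodup h.ndS] at h2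
  exact le_antisymm h1 h2

end Pool.Agent.G4
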