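import Pool.Agent.G4.Alg

set_option autoImplicit false

/-!
# Matroids of matrices over the field with four elements: definitions
-/

namespace Pool.Agent.G4

open F4 Finset

/-- transpose -/
def trD (D : ℕ → ℕ → F4) : ℕ → ℕ → F4 := fun b n => D n b

/-- coordinate `b` of the column `e` in the basis `B` -/
def col (D : ℕ → ℕ → F4) (B : Finset ℕ) (e b : ℕ) : F4 :=
  if e ∈ B then (if e = b then 1 else 0) else D b e

/-- value at `e` of the row vector with coordinates `f` on `B` -/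
def ev (D : ℕ → ℕ → F4) (B : Finset ℕ) (f : ℕ → F4) (e : ℕ) : F4 := ∑ b ∈ B, f b * col D B e b

/-- `T` is a basis of the matroid on `B ∪ N` represented by the matrix `D` with rows `B`, columns
`N` (identity matrix on `B`) -/
def IsBase (D : ℕ → ℕ → F4) (B N T : Finset ℕ) : Prop :=
  T ⊆ B ∪ N ∧ T.card = B.card ∧ ∀ f : ℕ → F4, (∀ t ∈ T, ev D B f t = 0) → ∀ b ∈ B, f b = 0

/-- `f` is the row vector with value one at `z` and zero at the other elements of the basis `T` -/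
def IsF (D : ℕ → ℕ → F4) (B N T : Finset ℕ) (z : ℕ) (f : ℕ → F4) : Prop :=
  IsBase D B N T ∧ z ∈ T ∧ ∀ t ∈ T, ev D B f t = if t = z then 1 else 0

/-- Hermitian matrices -/
def Herm (W : ℕ → ℕ → F4) : Prop := ∀ i j, W j i = conj (W i j)

/-- value of a Hermitian form -/
def qf (B : Finset ℕ) (W : ℕ → ℕ → F4) (f : ℕ → F4) : F4 :=
  ∑ i ∈ B, ∑ j ∈ B, f i * W i j * conj (f j)

/-- `L` is a set of marked bases whose cocircuit vectors `f` have the property that the Hermitian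
forms are determined by their values at them -/
def SpanH (D : ℕ → ℕ → F4) (B N : Finset ℕ) (L : Set (Finset ℕ × ℕ)) : Prop :=
  (∀ p ∈ L, IsBase D B N p.1 ∧ p.2 ∈ p.1) ∧
  ∀ W, Herm W → (∀ p ∈ L, ∀ f, IsF D B N p.1 p.2 f → qf B W f = 0) →
    ∀ i ∈ B, ∀ j ∈ B, W i j = 0

/-- `P` is a set of doubly marked bases `(T, (z, x))`, the pairs (cocircuit of `z`, circuit of `x`)
of which determine the linear maps up to the trivial ones -/
def SpanP (D : ℕ → ℕ → F4) (B N : Finset ℕ) (P : Set (Finset ℕ × (ℕ × ℕ))) : Prop :=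
  (∀ p ∈ P, IsBase D B N p.1 ∧ p.2.1 ∈ p.1 ∧ p.2.2 ∈ (B ∪ N) \ p.1 ∧
    IsBase D B N (insert p.2.2 (p.1.erase p.2.1))) ∧
  ∀ Φ : ℕ → ℕ → F4,
    (∀ p ∈ P, ∀ f c, IsF D B N p.1 p.2.1 f → IsF (trD D) N B ((B ∪ N) \ p.1) p.2.2 c →
      tr ((∑ b ∈ B, ∑ n ∈ N, f b * Φ b n * c n) * (ev D B f p.2.2)⁻¹) = 0) →
    ∃ l : ℕ → F4, (∀ e, l e = 0 ∨ l e = 1) ∧ ∀ b ∈ B, ∀ n ∈ N, Φ b n = (l b + l n) * D b n

/-- `X` is a union of components -/
def Sep1 (D : ℕ → ℕ → F4) (B N X : Finset ℕ) : Prop :=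
  ∀ b ∈ B, ∀ n ∈ N, (b ∈ X ↔ n ∈ X) ∨ D b n = 0

/-- the connectivity of `X` is at most one -/
def Sep2 (D : ℕ → ℕ → F4) (B N X : Finset ℕ) : Prop :=
  ∃ u w : ℕ → F4, ∀ b ∈ B, ∀ n ∈ N, (if (b ∈ X ↔ n ∈ X) then 0 else D b n) = u b * w n

/-- 3-connected with at least four elements -/
def C3 (D : ℕ → ℕ → F4) (B N : Finset ℕ) : Prop :=
  4 ≤ (B ∪ N).card ∧
  (∀ X ⊆ B ∪ N, Sep1 D B N X → X = ∅ ∨ X = B ∪ N) ∧
  ∀ X ⊆ B ∪ N, Sep2 D B N X → X.card ≤ 1 ∨ ((B ∪ N) \ X).card ≤ 1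

/-- equal up to scaling of rows and columns and conjugation -/
def Eqv (D D' : ℕ → ℕ → F4) (B N : Finset ℕ) : Prop :=
  ∃ ρ κ : ℕ → F4, (∀ e, ρ e ≠ 0 ∧ κ e ≠ 0) ∧
    ((∀ b ∈ B, ∀ n ∈ N, D' b n = ρ b * D b n * κ n) ∨
      (∀ b ∈ B, ∀ n ∈ N, D' b n = ρ b * conj (D b n) * κ n))

/-- the same bases -/
def EqM (D D' : ℕ → ℕ → F4) (B N : Finset ℕ) : Prop :=
  ∀ T, IsBase D B N T ↔ IsBase D' B N T

/-- the matrix can be scaled to a matrix with entries zero and one -/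
def Bin (D : ℕ → ℕ → F4) (B N : Finset ℕ) : Prop :=
  ∃ ρ κ : ℕ → F4, (∀ e, ρ e ≠ 0 ∧ κ e ≠ 0) ∧
    ∀ b ∈ B, ∀ n ∈ N, ρ b * D b n * κ n = 0 ∨ ρ b * D b n * κ n = 1

/-! ## One step: new rows in series with old elements, and a new column -/

/-- data of one step: new rows `p.2` (`p ∈ P`) in series with `p.1`, new column `y` -/
structure Stp (D : ℕ → ℕ → F4) (B N : Finset ℕ) (P : Finset (ℕ × ℕ)) (y : ℕ) : Prop where
  disj : Disjoint B N
  mem : ∀ p ∈ P, p.1 ∈ B ∪ N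
  new : ∀ p ∈ P, p.2 ∉ B ∪ N
  inj1 : ∀ p ∈ P, ∀ q ∈ P, p.1 = q.1 → p = q
  inj2 : ∀ p ∈ P, ∀ q ∈ P, p.2 = q.2 → p = q
  ynew : y ∉ B ∪ N
  yne : ∀ p ∈ P, y ≠ p.2
  row : ∀ p ∈ P, ∀ n ∈ N, D p.2 n = if p.1 ∈ B then D p.1 n else if n = p.1 then 1 else 0

/-- the new set of rows -/
def nB (B : Finset ℕ) (P : Finset (ℕ × ℕ)) : Finset ℕ := B ∪ P.image fun p => p.2

/-- the new set of columns -/
def nN (N : Finset ℕ) (y : ℕ) : Finset ℕ := insert y N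

/-- the row vector over the new rows with `B`-part `g` and coordinates `t` at the pairs -/
def lft (B : Finset ℕ) (P : Finset (ℕ × ℕ)) (g t : ℕ → F4) (b : ℕ) : F4 :=
  if b ∈ B then g b + ∑ p ∈ P with p.1 = b, t p.2 else t b

/-- coordinate of the new column at a pair -/
def sco (D : ℕ → ℕ → F4) (B : Finset ℕ) (y : ℕ) (p : ℕ × ℕ) : F4 :=
  D p.2 y + if p.1 ∈ B then D p.1 y else 0

/-- coordinates at the pairs of the lift of `f` swapped at `U` -/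
def tU (D : ℕ → ℕ → F4) (B : Finset ℕ) (U : Finset (ℕ × ℕ)) (f : ℕ → F4) (b : ℕ) : F4 :=
  ∑ p ∈ U with p.2 = b, ev D B f p.1

/-- the swapped lift of `f` -/
def lfU (D : ℕ → ℕ → F4) (B : Finset ℕ) (P U : Finset (ℕ × ℕ)) (f : ℕ → F4) : ℕ → F4 :=
  lft B P f (tU D B U f)

/-- the hyperplane basis: `T - z` and one element of every pair -/
def hypF (P : Finset (ℕ × ℕ)) (T : Finset ℕ) (z : ℕ) (U : Finset (ℕ × ℕ)) : Finset ℕ :=
  T.erase z ∪ P.image fun p => if p ∈ U then p.1 else p.2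

/-- the Hermitian form of two vectors -/
def two (w a : ℕ → F4) (i j : ℕ) : F4 := w i * conj (a j) + a i * conj (w j)

/-! ## Configurations of vectors -/

section

variable {V : Type} [AddCommGroup V] [Module F4 V]

/-- independent sets -/
def ind (v : ℕ → V) (P : Finset ℕ) : Prop := LinearIndependent F4 fun e : P => v e

/-- rank -/
noncomputable def rkv (v : ℕ → V) (P : Finset ℕ) : ℤ :=
  (Module.finrank F4 (Submodule.span F4 (v '' (P : Set ℕ))) : ℤ)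

/-- `T` is a basis of `E` and `D` is the matrix of coordinates -/
def IsD (v : ℕ → V) (E T : Finset ℕ) (D : ℕ → ℕ → F4) : Prop :=
  T ⊆ E ∧ ind v T ∧ ∀ e ∈ E, v e = ∑ t ∈ T, D t e • v t

/-- the oracle answers the question whether a set is independent -/
def IsOrc (X : Pool.Agent.Helper22.Oracle) (E : List ℕ) (v : ℕ → V) : Prop :=
  ∀ T : List ℕ, (∀ t ∈ T, t ∈ E) → (X (word E T) = true ↔ ind v T.toFinset)

end

/-! ## Rank functions -/

/-- a matroid rank function on the finite sets of natural numbers -/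
structure IsRk (r : Finset ℕ → ℤ) : Prop where
  empty : r ∅ = 0
  mono : ∀ A e, r A ≤ r (insert e A)
  unit : ∀ A e, r (insert e A) ≤ r A + 1
  sub : ∀ A B, r (A ∪ B) + r (A ∩ B) ≤ r A + r B

/-- contraction -/
def ctr (r : Finset ℕ → ℤ) (C X : Finset ℕ) : ℤ := r (C ∪ X) - r C

/-- connectivity -/
def lam (r : Finset ℕ → ℤ) (S X : Finset ℕ) : ℤ := r X + r (S \ X) - r S

/-- dual rank function on `S` -/
def dualR (r : Finset ℕ → ℤ) (S X : Finset ℕ) : ℤ := ((X ∩ S).card : ℤ) + r (S \ X) - r S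

/-- 3-connected with at least four elements -/
def Conn3 (r : Finset ℕ → ℤ) (S : Finset ℕ) : Prop :=
  4 ≤ S.card ∧ ∀ X ⊆ S, X.Nonempty → (S \ X).Nonempty →
    1 ≤ lam r S X ∧ (2 ≤ X.card → 2 ≤ (S \ X).card → 2 ≤ lam r S X)

/-- there is a minor `U_{2,4}` -/
def U24 (r : Finset ℕ → ℤ) (S : Finset ℕ) : Prop :=
  ∃ C Z : Finset ℕ, C ⊆ S ∧ Z ⊆ S ∧ Disjoint C Z ∧ Z.card = 4 ∧
    ∀ X ⊆ Z, ctr r C X = min (X.card : ℤ) 2

/-- connected, has a minor `U_{2,4}`, 2-separations are pairs, and the pairs are disjoint -/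
def Nice (r : Finset ℕ → ℤ) (S : Finset ℕ) : Prop :=
  U24 r S ∧ (∀ X ⊆ S, X.Nonempty → (S \ X).Nonempty → 1 ≤ lam r S X) ∧
  (∀ X ⊆ S, lam r S X ≤ 1 → X.card ≤ 2 ∨ (S \ X).card ≤ 2) ∧
  ∀ a ∈ S, ∀ b ∈ S, ∀ c ∈ S, a ≠ b → b ≠ c → a ≠ c →
    ¬ (lam r S {a, b} ≤ 1 ∧ lam r S {b, c} ≤ 1)

/-- `R` contains exactly one element of each pair of connectivity one, and nothing else -/
def Rep1 (r : Finset ℕ → ℤ) (S R : Finset ℕ) : Prop :=
  R ⊆ S ∧ (∀ b ∈ R, ∃ a ∈ S, a ≠ b ∧ a ∉ R ∧ lam r S {a, b} ≤ 1) ∧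
  ∀ a ∈ S, ∀ b ∈ S, a ≠ b → lam r S {a, b} ≤ 1 → a ∈ R ∨ b ∈ R

end Pool.Agent.G4
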