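import Mathlib
import Pool.Prelude.Def_H_e9e0c647

set_option autoImplicit false

/-!
# The field with four elements
-/

namespace Pool.Agent.G4

open N487b59b3

/-- the field with four elements: the pair `(a, b)` stands for `a + b ω` with `ω ^ 2 = ω + 1` -/
def F4 : Type := Bool × Bool

namespace F4

instance : DecidableEq F4 := inferInstanceAs (DecidableEq (Bool × Bool))
instance : Fintype F4 := inferInstanceAs (Fintype (Bool × Bool))
instance : Inhabited F4 := ⟨((false, false) : Bool × Bool)⟩
instance : N487b59b3 F4 := inferInstanceAs (N487b59b3 (Bool × Bool))
instance : Repr F4 := inferInstanceAs (Repr (Bool × Bool))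

/-- addition -/
def add (x y : F4) : F4 := ((xor x.1 y.1, xor x.2 y.2) : Bool × Bool)

/-- multiplication -/
def mul (x y : F4) : F4 :=
  ((xor (x.1 && y.1) (x.2 && y.2), xor (xor (x.1 && y.2) (x.2 && y.1)) (x.2 && y.2)) : Bool × Bool)

/-- the Frobenius automorphism, which is also the inverse -/
def conj (x : F4) : F4 := ((xor x.1 x.2, x.2) : Bool × Bool)

instance : Zero F4 := ⟨((false, false) : Bool × Bool)⟩
instance : One F4 := ⟨((true, false) : Bool × Bool)⟩
instance : Add F4 := ⟨add⟩
instance : Mul F4 := ⟨mul⟩
instance : Neg F4 := ⟨fun x => x⟩
instance : Sub F4 := ⟨add⟩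
instance : Inv F4 := ⟨conj⟩

/-- the element `ω` -/
def om : F4 := ((false, true) : Bool × Bool)

instance : CommRing F4 where
  add_assoc := by decide
  zero_add := by decide
  add_zero := by decide
  add_comm := by decide
  neg_add_cancel := by decide
  sub_eq_add_neg := by decide
  mul_assoc := by decide
  one_mul := by decide
  mul_one := by decide
  mul_comm := by decide
  left_distrib := by decide
  right_distrib := by decide
  zero_mul := by decide
  mul_zero := by decide
  nsmul := nsmulRec
  zsmul := zsmulRec

instance : Field F4 where
  exists_pair_ne := ⟨0, 1, by decide⟩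
  mul_inv_cancel := by decide
  inv_zero := by decide
  nnqsmul := _
  qsmul := _

theorem card_F4 : Fintype.card F4 = 4 := by decide

instance : CharP F4 2 := by
  refine CharTwo.of_one_ne_zero_of_two_eq_zero (by decide) (by decide)

@[simp] theorem add_self (x : F4) : x + x = 0 := by revert x; decide

/-- conjugation as a ring homomorphism -/
def conjHom : F4 →+* F4 where
  toFun := conj
  map_one' := by decide
  map_mul' := by decide
  map_zero' := by decide
  map_add' := by decide

/-- the trace to the prime field, as an element of `F4` (zero or one) -/
def tr (x : F4) : F4 := x + conj x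

/-- the norm to the prime field, as an element of `F4` (zero or one) -/
def nm (x : F4) : F4 := x * conj x

end F4

end Pool.Agent.G4
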