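import Pool.Agent.G4.A2

set_option autoImplicit false

/-!
# Transport to an arbitrary field with four elements
-/

namespace Pool.Agent.G4

open N487b59b3 F4 Finset Pool.Agent.Helper22

/-- the element `a + b ω` -/
def toK (K : Type) [Field K] (ω : K) (x : Bool × Bool) : K :=
  (if x.1 then 1 else 0) + (if x.2 then ω else 0)

section

variable {K : Type} [Field K] [Fintype K] {ω : K}

theorem two_eq_zero (hK : Fintype.card K = 4) : (2 : K) = 0 := by
  have h : ((Fintype.card K : ℕ) : K) = 0 := FiniteField.cast_card_eq_zero K
  rw [hK] at h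
  have h2 : (2 : K) * 2 = 0 := by
    have : ((4 : ℕ) : K) = 2 * 2 := by norm_num
    rw [← this, h]
  rcases mul_eq_zero.1 h2 with h3 | h3 <;> exact h3

/-- the homomorphism of fields -/
def homK (hK : Fintype.card K = 4) (hω : ω ^ 2 + ω + 1 = 0) : F4 →+* K where
  toFun x := toK K ω x
  map_one' := by
    change toK K ω ((true, false) : Bool × Bool) = 1
    simp [toK]
  map_zero' := by
    change toK K ω ((false, false) : Bool × Bool) = 0
    simp [toK]
  map_add' := by
    have h2 : (2 : K) = 0 := two_eq_zero hK
    rintro ⟨a, b⟩ ⟨c, d⟩
    change toK K ω (xor a c, xor b d) = toK K ω (a, b) + toK K ω (c, d)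
    cases a <;> cases b <;> cases c <;> cases d <;> simp [toK] <;> grind
  map_mul' := by
    have h2 : (2 : K) = 0 := two_eq_zero hK
    rintro ⟨a, b⟩ ⟨c, d⟩
    change toK K ω (xor (a && c) (b && d), xor (xor (a && d) (b && c)) (b && d)) =
      toK K ω (a, b) * toK K ω (c, d)
    cases a <;> cases b <;> cases c <;> cases d <;> simp [toK] <;> grind

theorem homK_bij (hK : Fintype.card K = 4) (hω : ω ^ 2 + ω + 1 = 0) :
    Function.Bijective (homK hK hω) := by
  rw [Fintype.bijective_iff_injective_and_card]
  exact ⟨(homK hK hω).injective, by rw [hK]; exact card_F4⟩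

/-- the isomorphism of fields -/
noncomputable def isoK (hK : Fintype.card K = 4) (hω : ω ^ 2 + ω + 1 = 0) : F4 ≃+* K :=
  RingEquiv.ofBijective (homK hK hω) (homK_bij hK hω)

theorem isoK_apply (hK : Fintype.card K = 4) (hω : ω ^ 2 + ω + 1 = 0) (x : F4) :
    isoK hK hω x = toK K ω x := rfl

omit [Fintype K] in
/-- linear independence is transported by an isomorphism of fields -/
theorem li_iff (φ : F4 ≃+* K) {ι κ : Type} (w : ι → κ → F4) :
    (LinearIndependent F4 w ↔ LinearIndependent K fun i => fun k => φ (w i k)) := by
  constructor
  · intro h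
    exact h.map_of_injective_injective (R' := K) (M' := κ → K) φ.symm
      (AddMonoidHom.compLeft φ.toRingHom.toAddMonoidHom κ)
      (fun r hr => by simpa using hr)
      (fun m hm => by
        funext k
        have := congrFun hm k
        simpa using this)
      (fun r m => by
        funext k
        simp)
  · intro h
    have := h.map_of_injective_injective (R' := F4) (M' := κ → F4) φ
      (AddMonoidHom.compLeft φ.symm.toRingHom.toAddMonoidHom κ)
      (fun r hr => by simpa using hr)
      (fun m hm => by
        funext k
        have := congrFun hm k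
        simpa using this)
      (fun r m => by
        funext k
        simp)
    have e : (AddMonoidHom.compLeft φ.symm.toRingHom.toAddMonoidHom κ) ∘
        (fun i => fun k => φ (w i k)) = w := by
      funext i k
      simp
    rw [e] at this
    exact this

end

/-- correctness of the algorithm over an arbitrary field with four elements -/
theorem alg_correct (K : Type) [Field K] [Fintype K] (hK : Fintype.card K = 4) (ω : K)
    (hω : ω ^ 2 + ω + 1 = 0) (m n : ℕ) (A : Matrix (Fin m) (Fin n) K) (X : Oracle)
    (hX : ∀ J : Finset (Fin n), X (List.ofFn fun i => decide (i ∈ J)) = true ↔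
      LinearIndependent K fun j : J => fun i => A i j)
    (a : List Bool) (ha : a.length = n) :
    (∀ r ∈ alg X a, r.length = n) ∧
    ∀ J : Finset (Fin n),
      (LinearIndependent K (fun j : J => fun i : Fin (alg X a).length =>
        toK K ω (((alg X a).get i).getD (j : Fin n) ((false, false) : Bool × Bool))) ↔
      LinearIndependent K fun j : J => fun i => A i j) := by
  set φ := isoK hK hω with hφ
  let v : ℕ → (Fin m → F4) := fun e => if h : e < n then fun i => φ.symm (A i ⟨e, h⟩) else 0
  have hv : ∀ j : Fin n, v j = fun i => φ.symm (A i j) := fun j => by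
    simp only [v, dif_pos j.2]
  -- independence of sets
  have hind : ∀ J : Finset (Fin n), ind v (J.image fun j : Fin n => (j : ℕ)) ↔
      LinearIndependent K fun j : J => fun i => A i j := by
    intro J
    have h1 : ind v (J.image fun j : Fin n => (j : ℕ)) ↔
        LinearIndependent F4 fun j : J => fun i => φ.symm (A i (j : Fin n)) := by
      let e : J ≃ (J.image fun j : Fin n => (j : ℕ) : Finset ℕ) :=
        { toFun := fun j => ⟨(j : Fin n), Finset.mem_image.2 ⟨j, j.2, rfl⟩⟩
          invFun := fun k => ⟨⟨k, by
            obtain ⟨j, -, hj⟩ := Finset.mem_image.1 k.2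
            rw [← hj]; exact j.2⟩, by
            obtain ⟨j, hj, hjk⟩ := Finset.mem_image.1 k.2
            convert hj
            exact hjk.symm⟩
          left_inv := fun j => rfl
          right_inv := fun k => rfl }
      unfold ind
      rw [← linearIndependent_equiv e]
      have : ((fun k : (J.image fun j : Fin n => (j : ℕ) : Finset ℕ) => v k) ∘ e) =
          fun j : J => fun i => φ.symm (A i (j : Fin n)) := by
        funext j
        exact hv j
      rw [this]
    rw [h1, li_iff φ]
    simp
  have hX' : IsOrc X (List.range n) v := by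
    intro T hT
    have hT' : ∀ t ∈ T, t < n := fun t ht => List.mem_range.1 (hT t ht)
    have h1 : word (List.range n) T =
        List.ofFn fun i : Fin n => decide (i ∈ (Finset.univ.filter fun i : Fin n => (i : ℕ) ∈ T)) := by
      unfold word
      apply List.ext_getElem
      · simp
      · intro i h1 h2
        simp
    rw [h1, hX, ← hind]
    have : ((Finset.univ.filter fun i : Fin n => (i : ℕ) ∈ T).image fun j : Fin n => (j : ℕ)) =
        T.toFinset := by
      ext e
      simp only [Finset.mem_image, Finset.mem_filter, Finset.mem_univ, true_and, List.mem_toFinset]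
      constructor
      · rintro ⟨j, hj, rfl⟩; exact hj
      · intro he; exact ⟨⟨e, hT' e he⟩, he, rfl⟩
    rw [this]
  obtain ⟨hlen, hspec⟩ := alg_spec hX' a ha
  refine ⟨hlen, fun J => ?_⟩
  rw [← hind]
  have hJ : (J.image fun j : Fin n => (j : ℕ)) ⊆ (List.range n).toFinset := by
    intro e he
    obtain ⟨j, -, rfl⟩ := Finset.mem_image.1 he
    simp
  rw [← hspec _ hJ]
  let e : J ≃ (J.image fun j : Fin n => (j : ℕ) : Finset ℕ) :=
    { toFun := fun j => ⟨(j : Fin n), Finset.mem_image.2 ⟨j, j.2, rfl⟩⟩
      invFun := fun k => ⟨⟨k, by
        obtain ⟨j, -, hj⟩ := Finset.mem_image.1 k.2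
        rw [← hj]; exact j.2⟩, by
        obtain ⟨j, hj, hjk⟩ := Finset.mem_image.1 k.2
        convert hj
        exact hjk.symm⟩
      left_inv := fun j => rfl
      right_inv := fun k => rfl }
  rw [← linearIndependent_equiv e, li_iff φ]
  rfl

end Pool.Agent.G4
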