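import Pool.Agent.G4.Dual
import Pool.Agent.G4.Conn

set_option autoImplicit false

/-!
# Module G1: bases and 2-separations

PROOF of `block1`. `B_X = B ∩ X`, `B_Y = B \ X` (contains `b₀`), `SX = insert b₀ X`,
`SY = (S \ X) ∪ {c₀}` with `S = B ∪ N`. The matrix on `SX` has the rows `B_X ∪ {b₀}` and the columns
`N ∩ X`; the matrix on `SY` has the rows `B_Y` and the columns `(N \ X) ∪ {c₀}`. A row vector `f` is
`(f_X, f_Y)`. By `One`: for a column `e ∈ X`: `∑_{b ∈ B_Y} f b * D b e = τ * D b₀ e` with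
`τ = (∑_{b ∈ B_Y} f b * D b c₀) * (D b₀ c₀)⁻¹`, so for `e ∈ X` `ev D B f e` is the value at `e` of
the row vector `(f_X, τ at b₀)` of the matrix `SX`; for `e ∈ S \ X` it is the value of `f_Y` in the
matrix `SY`; and `τ = (value of f_Y at c₀ in SY) / D b₀ c₀`.
So `f` vanishes on `P` iff `f_Y` vanishes on `P \ X` and `(f_X, τ)` vanishes on `P ∩ X`.
`(←)`, first case: `f_Y = 0`, so `τ = 0`, and `(f_X, 0)` vanishes on `insert b₀ (P ∩ X)`, `f_X = 0`.
Second case: `(f_X, τ) = 0`, so `f_Y` vanishes on `insert c₀ (P \ X)`, `f_Y = 0`.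
`(→)`: let `P` be a basis, `a = (P ∩ X).card`, `m = B_X.card`.
- `a < m`: there is `f_X ≠ 0` with `(f_X, 0)` vanishing on `P ∩ X` (fewer conditions than unknowns),
  `f = (f_X, 0)` contradicts `IsBase`.
- `a > m + 1`: `(P \ X).card ≤ B_Y.card - 2`, so there is `f_Y ≠ 0` vanishing on `P \ X` and at `c₀`;
  `f = (0, f_Y)`, contradiction.
- `a = m`: if `(f_X, 0)` vanishes on `P ∩ X` then `f_X = 0`, so `insert b₀ (P ∩ X)` is a basis of `SX`
  (cardinality `m + 1`). If `f_Y ≠ 0` vanishes on `P \ X`: choose `g` on `B_X ∪ {b₀}` with value `τ` at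
  `b₀` and zero on `P ∩ X` (`exists_val`); `(g_X, f_Y)` vanishes on `P`, contradiction.
- `a = m + 1`: `(P \ X).card = B_Y.card - 1`. If `f_Y ≠ 0` vanishes on `P \ X` and at `c₀` then
  `(0, f_Y)` is a contradiction; so `insert c₀ (P \ X)` is a basis of `SY` (`c₀ ∉ P \ X`), and there is
  `f_Y` vanishing on `P \ X` with any prescribed value at `c₀` (`exists_val`). If
  `(g_X, σ) ≠ 0` vanishes on `P ∩ X` take `f_Y` with `τ = σ`: `(g_X, f_Y)` vanishes on `P` and is not
  zero, contradiction.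
`block0`: `f = (f_X, f_Y)`, values on `X` depend only on `f_X`, values outside only on `f_Y`.
-/

namespace Pool.Agent.G4

open F4 Finset

variable {D D' : ℕ → ℕ → F4} {B N X P : Finset ℕ} {b₀ c₀ : ℕ}

/-- fewer conditions than unknowns -/
private theorem exists_dep (D : ℕ → ℕ → F4) {A T : Finset ℕ} (h : T.card < A.card) :
    ∃ f : ℕ → F4, (∀ b, b ∉ A → f b = 0) ∧ (∃ b ∈ A, f b ≠ 0) ∧ ∀ t ∈ T, ev D A f t = 0 := by
  let L : (A → F4) →ₗ[F4] (T → F4) :=
    { toFun := fun f t => ∑ b : A, f b * col D A t b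
      map_add' := fun f g => by
        funext t
        simp only [Pi.add_apply, add_mul, Finset.sum_add_distrib]
      map_smul' := fun c f => by
        funext t
        simp only [Pi.smul_apply, smul_eq_mul, mul_assoc, Finset.mul_sum, RingHom.id_apply] }
  have hfr : Module.finrank F4 (T → F4) < Module.finrank F4 (A → F4) := by
    rw [Module.finrank_fintype_fun_eq_card, Module.finrank_fintype_fun_eq_card,
      Fintype.card_coe, Fintype.card_coe]
    exact h
  have hker : LinearMap.ker L ≠ ⊥ := LinearMap.ker_ne_bot_of_finrank_lt hfr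
  obtain ⟨f, hf, hf0⟩ := (Submodule.ne_bot_iff _).1 hker
  rw [LinearMap.mem_ker] at hf
  refine ⟨fun b => if hb : b ∈ A then f ⟨b, hb⟩ else 0, fun b hb => by simp only [hb, dif_neg,
    not_false_eq_true], ?_, fun t ht => ?_⟩
  · obtain ⟨b, hb⟩ := Function.ne_iff.1 hf0
    refine ⟨b, b.2, ?_⟩
    simp only [b.2, dif_pos]
    exact hb
  · have h1 := congrFun hf ⟨t, ht⟩
    have h2 : ev D A (fun b => if hb : b ∈ A then f ⟨b, hb⟩ else 0) t = L f ⟨t, ht⟩ := by
      unfold ev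
      rw [← Finset.sum_coe_sort]
      refine Finset.sum_congr rfl fun b _ => ?_
      simp only [b.2, dif_pos]
    rw [h2, h1]
    rfl

private theorem evX (hd : Disjoint B N) (hX : X ⊆ B ∪ N) (h : One D B N X) (hb : b₀ ∈ B \ X)
    (hc : c₀ ∈ N ∩ X) (hne : D b₀ c₀ ≠ 0) (f g : ℕ → F4) (hg : ∀ b ∈ B ∩ X, g b = f b)
    (hg0 : g b₀ * D b₀ c₀ = ∑ b ∈ B \ X, f b * D b c₀) {e : ℕ} (he : e ∈ X) :
    ev D (insert b₀ (B ∩ X)) g e = ev D B f e := by
  rw [mem_sdiff] at hb
  rw [mem_inter] at hc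
  rcases mem_union.1 (hX he) with heB | heN
  · rw [ev_mem D B f heB, ev_mem D _ g (mem_insert_of_mem (mem_inter.2 ⟨heB, he⟩)),
      hg e (mem_inter.2 ⟨heB, he⟩)]
  · have heB : e ∉ B := fun hB => disjoint_left.1 hd hB heN
    have he1 : e ∉ insert b₀ (B ∩ X) := by
      intro h1
      rcases mem_insert.1 h1 with h2 | h2
      · exact hb.2 (h2 ▸ he)
      · exact heB (mem_inter.1 h2).1
    have hbX : b₀ ∉ B ∩ X := fun h1 => hb.2 (mem_inter.1 h1).2
    rw [ev_not_mem D B f heB, ev_not_mem D _ g he1, sum_insert hbX,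
      ← Finset.sum_inter_add_sum_sdiff B X (fun b => f b * D b e), add_comm]
    congr 1
    · exact Finset.sum_congr rfl fun b hb => by rw [hg b hb]
    · have h3 : g b₀ = (∑ b ∈ B \ X, f b * D b c₀) * (D b₀ c₀)⁻¹ := by
        rw [← hg0, mul_assoc, mul_inv_cancel₀ hne, mul_one]
      rw [h3, Finset.sum_mul, Finset.sum_mul]
      refine Finset.sum_congr rfl fun b hbb => ?_
      rw [mem_sdiff] at hbb
      have h4 := h.2 b hbb.1 b₀ hb.1 c₀ hc.1 e heN hbb.2 hb.2 hc.2 he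
      calc f b * D b c₀ * (D b₀ c₀)⁻¹ * D b₀ e = f b * (D b c₀ * D b₀ e) * (D b₀ c₀)⁻¹ := by ring
        _ = f b * (D b e * D b₀ c₀) * (D b₀ c₀)⁻¹ := by rw [h4]
        _ = f b * D b e * (D b₀ c₀ * (D b₀ c₀)⁻¹) := by ring
        _ = f b * D b e := by rw [mul_inv_cancel₀ hne, mul_one]

private theorem evY (h : One D B N X) (f g : ℕ → F4) (hg : ∀ b ∈ B \ X, g b = f b)
    {e : ℕ} (he : e ∈ (B ∪ N) \ X) : ev D (B \ X) g e = ev D B f e := by
  rw [mem_sdiff] at he
  by_cases heB : e ∈ B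
  · rw [ev_mem D B f heB, ev_mem D _ g (mem_sdiff.2 ⟨heB, he.2⟩), hg e (mem_sdiff.2 ⟨heB, he.2⟩)]
  · have heN : e ∈ N := (mem_union.1 he.1).resolve_left heB
    rw [ev_not_mem D B f heB, ev_not_mem D _ g (fun h1 => heB (mem_sdiff.1 h1).1),
      ← Finset.sum_inter_add_sum_sdiff B X (fun b => f b * D b e)]
    have h1 : ∑ b ∈ B ∩ X, f b * D b e = 0 := Finset.sum_eq_zero fun b hb => by
      rw [mem_inter] at hb
      rw [h.1 b hb.1 e heN hb.2 he.2, mul_zero]
    rw [h1, zero_add]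
    exact Finset.sum_congr rfl fun b hb => by rw [hg b hb]

private theorem evc (hd : Disjoint B N) (hc : c₀ ∈ N ∩ X) (g : ℕ → F4) :
    ev D (B \ X) g c₀ = ∑ b ∈ B \ X, g b * D b c₀ := by
  rw [mem_inter] at hc
  rw [ev_not_mem D _ g (fun h1 => (mem_sdiff.1 h1).2 hc.2)]

theorem block1 (hd : Disjoint B N) (hX : X ⊆ B ∪ N) (h : One D B N X) (hb : b₀ ∈ B \ X)
    (hc : c₀ ∈ N ∩ X) (hne : D b₀ c₀ ≠ 0) (hP : P ⊆ B ∪ N) (hPc : P.card = B.card) :
    IsBase D B N P ↔
      ((P ∩ X).card = (B ∩ X).card ∧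
        IsBase D (B ∩ insert b₀ X) (N ∩ insert b₀ X) (insert b₀ (P ∩ X)) ∧
        IsBase D (B ∩ insert c₀ ((B ∪ N) \ X)) (N ∩ insert c₀ ((B ∪ N) \ X)) (P \ X)) ∨
      ((P ∩ X).card = (B ∩ X).card + 1 ∧
        IsBase D (B ∩ insert b₀ X) (N ∩ insert b₀ X) (P ∩ X) ∧
        IsBase D (B ∩ insert c₀ ((B ∪ N) \ X)) (N ∩ insert c₀ ((B ∪ N) \ X))
          (insert c₀ (P \ X))) := by
  have hb' := mem_sdiff.1 hb
  have hc' := mem_inter.1 hc
  have hbN : b₀ ∉ N := fun h1 => disjoint_left.1 hd hb'.1 h1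
  have hcB : c₀ ∉ B := fun h1 => disjoint_left.1 hd h1 hc'.1
  have e1 : B ∩ insert b₀ X = insert b₀ (B ∩ X) := by
    ext x
    simp only [mem_inter, mem_insert]
    constructor
    · rintro ⟨h1, h2 | h2⟩
      · exact Or.inl h2
      · exact Or.inr ⟨h1, h2⟩
    · rintro (h1 | ⟨h1, h2⟩)
      · exact ⟨h1 ▸ hb'.1, Or.inl h1⟩
      · exact ⟨h1, Or.inr h2⟩
  have e2 : N ∩ insert b₀ X = N ∩ X := by
    ext x
    simp only [mem_inter, mem_insert]
    constructor
    · rintro ⟨h1, h2 | h2⟩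
      · exact absurd (h2 ▸ h1) hbN
      · exact ⟨h1, h2⟩
    · rintro ⟨h1, h2⟩
      exact ⟨h1, Or.inr h2⟩
  have e3 : B ∩ insert c₀ ((B ∪ N) \ X) = B \ X := by
    ext x
    simp only [mem_inter, mem_insert, mem_sdiff, mem_union]
    constructor
    · rintro ⟨h1, h2 | h2⟩
      · exact absurd (h2 ▸ h1) hcB
      · exact ⟨h1, h2.2⟩
    · rintro ⟨h1, h2⟩
      exact ⟨h1, Or.inr ⟨Or.inl h1, h2⟩⟩
  have e4 : N ∩ insert c₀ ((B ∪ N) \ X) = insert c₀ (N \ X) := by
    ext x
    simp only [mem_inter, mem_insert, mem_sdiff, mem_union]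
    constructor
    · rintro ⟨h1, h2 | h2⟩
      · exact Or.inl h2
      · exact Or.inr ⟨h1, h2.2⟩
    · rintro (h1 | ⟨h1, h2⟩)
      · exact ⟨h1 ▸ hc'.1, Or.inl h1⟩
      · exact ⟨h1, Or.inr ⟨Or.inr h1, h2⟩⟩
  rw [e1, e2, e3, e4]
  have hbBX : b₀ ∉ B ∩ X := fun h1 => hb'.2 (mem_inter.1 h1).2
  have hbPX : b₀ ∉ P ∩ X := fun h1 => hb'.2 (mem_inter.1 h1).2
  have hcPX : c₀ ∉ P \ X := fun h1 => (mem_sdiff.1 h1).2 hc'.2
  have hcardB : (B ∩ X).card + (B \ X).card = B.card := Finset.card_inter_add_card_sdiff B X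
  have hcardP : (P ∩ X).card + (P \ X).card = P.card := Finset.card_inter_add_card_sdiff P X
  have hcX : (insert b₀ (B ∩ X)).card = (B ∩ X).card + 1 := card_insert_of_notMem hbBX
  -- glueing
  have glue : ∀ g fY : ℕ → F4, (∑ b ∈ B \ X, fY b * D b c₀) = g b₀ * D b₀ c₀ →
      (∀ t ∈ P ∩ X, ev D (insert b₀ (B ∩ X)) g t = 0) → (∀ t ∈ P \ X, ev D (B \ X) fY t = 0) →
      ∀ t ∈ P, ev D B (fun b => if b ∈ X then g b else fY b) t = 0 := by
    intro g fY h1 h2 h3 t ht
    by_cases htX : t ∈ X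
    · rw [← evX hd hX h hb hc hne (fun b => if b ∈ X then g b else fY b) g
        (fun b hbb => (if_pos (mem_inter.1 hbb).2).symm) ?_ htX]
      · exact h2 t (mem_inter.2 ⟨ht, htX⟩)
      · rw [← h1]
        exact Finset.sum_congr rfl fun b hbb => by rw [if_neg (mem_sdiff.1 hbb).2]
    · rw [← evY h (fun b => if b ∈ X then g b else fY b) fY
        (fun b hbb => (if_neg (mem_sdiff.1 hbb).2).symm) (mem_sdiff.2 ⟨hP ht, htX⟩)]
      exact h3 t (mem_sdiff.2 ⟨ht, htX⟩)
  have hsubX : P ∩ X ⊆ insert b₀ (B ∩ X) ∪ N ∩ X := by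
    intro t ht
    rw [mem_inter] at ht
    rcases mem_union.1 (hP ht.1) with h1 | h1
    · exact mem_union_left _ (mem_insert_of_mem (mem_inter.2 ⟨h1, ht.2⟩))
    · exact mem_union_right _ (mem_inter.2 ⟨h1, ht.2⟩)
  have hsubY : P \ X ⊆ B \ X ∪ insert c₀ (N \ X) := by
    intro t ht
    rw [mem_sdiff] at ht
    rcases mem_union.1 (hP ht.1) with h1 | h1
    · exact mem_union_left _ (mem_sdiff.2 ⟨h1, ht.2⟩)
    · exact mem_union_right _ (mem_insert_of_mem (mem_sdiff.2 ⟨h1, ht.2⟩))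
  constructor
  · intro hB
    -- consequences of injectivity for glued vectors
    have inj : ∀ g fY : ℕ → F4, (∑ b ∈ B \ X, fY b * D b c₀) = g b₀ * D b₀ c₀ →
        (∀ t ∈ P ∩ X, ev D (insert b₀ (B ∩ X)) g t = 0) →
        (∀ t ∈ P \ X, ev D (B \ X) fY t = 0) →
        (∀ b ∈ insert b₀ (B ∩ X), g b = 0) ∧ ∀ b ∈ B \ X, fY b = 0 := by
      intro g fY h1 h2 h3
      have h4 := hB.2.2 _ (glue g fY h1 h2 h3)
      have h5 : ∀ b ∈ B \ X, fY b = 0 := fun b hbb => by
        have h6 := h4 b (mem_sdiff.1 hbb).1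
        rwa [if_neg (mem_sdiff.1 hbb).2] at h6
      refine ⟨fun b hbb => ?_, h5⟩
      rcases mem_insert.1 hbb with h6 | h6
      · rw [h6]
        rw [Finset.sum_eq_zero (fun b hbb => by rw [h5 b hbb, zero_mul])] at h1
        exact (mul_eq_zero.1 h1.symm).resolve_right hne
      · have h7 := h4 b (mem_inter.1 h6).1
        rwa [if_pos (mem_inter.1 h6).2] at h7
    have a1 : (B ∩ X).card ≤ (P ∩ X).card := by
      by_contra hlt
      push Not at hlt
      obtain ⟨g, hg1, ⟨b, hbb, hgb⟩, hg2⟩ := exists_dep D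
        (A := insert b₀ (B ∩ X)) (T := insert b₀ (P ∩ X)) (by
          rw [hcX, card_insert_of_notMem hbPX]; omega)
      have hg0 : g b₀ = 0 := by
        have h1 := hg2 b₀ (mem_insert_self _ _)
        rwa [ev_mem _ _ _ (mem_insert_self _ _)] at h1
      refine hgb ((inj g (fun _ => 0) ?_ (fun t ht => hg2 t (mem_insert_of_mem ht)) ?_).1 b hbb)
      · rw [hg0, zero_mul]
        exact Finset.sum_eq_zero fun b _ => zero_mul _
      · intro t _
        exact ev_zero _ _ _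
    have a2 : (P ∩ X).card ≤ (B ∩ X).card + 1 := by
      by_contra hlt
      push Not at hlt
      obtain ⟨f, hf1, ⟨b, hbb, hfb⟩, hf2⟩ := exists_dep D
        (A := B \ X) (T := insert c₀ (P \ X)) (by
          rw [card_insert_of_notMem hcPX]; omega)
      refine hfb ((inj (fun _ => 0) f ?_ ?_ (fun t ht => hf2 t (mem_insert_of_mem ht))).2 b hbb)
      · rw [zero_mul, ← evc hd hc]
        exact hf2 c₀ (mem_insert_self _ _)
      · intro t _
        exact ev_zero _ _ _
    rcases Nat.lt_or_ge (B ∩ X).card (P ∩ X).card with ha | ha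
    · -- second case
      right
      have ha' : (P ∩ X).card = (B ∩ X).card + 1 := by omega
      have IY : IsBase D (B \ X) (insert c₀ (N \ X)) (insert c₀ (P \ X)) := by
        refine ⟨?_, ?_, fun f hf => ?_⟩
        · intro t ht
          rcases mem_insert.1 ht with h1 | h1
          · exact mem_union_right _ (h1 ▸ mem_insert_self _ _)
          · exact hsubY h1
        · rw [card_insert_of_notMem hcPX]; omega
        · refine (inj (fun _ => 0) f ?_ ?_ (fun t ht => hf t (mem_insert_of_mem ht))).2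
          · rw [zero_mul, ← evc hd hc]
            exact hf c₀ (mem_insert_self _ _)
          · intro t _
            exact ev_zero _ _ _
      refine ⟨ha', ⟨hsubX, by rw [ha', hcX], fun g hg => ?_⟩, IY⟩
      obtain ⟨f, hf⟩ := exists_val IY fun t => if t = c₀ then g b₀ * D b₀ c₀ else 0
      refine (inj g f ?_ hg ?_).1
      · rw [← evc hd hc, hf c₀ (mem_insert_self _ _), if_pos rfl]
      · intro t ht
        rw [hf t (mem_insert_of_mem ht), if_neg]
        rintro rfl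
        exact hcPX ht
    · left
      have ha' : (P ∩ X).card = (B ∩ X).card := by omega
      have IX : IsBase D (insert b₀ (B ∩ X)) (N ∩ X) (insert b₀ (P ∩ X)) := by
        refine ⟨?_, ?_, fun g hg => ?_⟩
        · intro t ht
          rcases mem_insert.1 ht with h1 | h1
          · exact mem_union_left _ (h1 ▸ mem_insert_self _ _)
          · exact hsubX h1
        · rw [card_insert_of_notMem hbPX, hcX, ha']
        · have hg0 : g b₀ = 0 := by
            have h1 := hg b₀ (mem_insert_self _ _)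
            rwa [ev_mem _ _ _ (mem_insert_self _ _)] at h1
          refine (inj g (fun _ => 0) ?_ (fun t ht => hg t (mem_insert_of_mem ht)) ?_).1
          · rw [hg0, zero_mul]
            exact Finset.sum_eq_zero fun b _ => zero_mul _
          · intro t _
            exact ev_zero _ _ _
      refine ⟨ha', IX, hsubY, by omega, fun f hf => ?_⟩
      obtain ⟨g, hg⟩ := exists_val IX fun t => if t = b₀ then
        (∑ b ∈ B \ X, f b * D b c₀) * (D b₀ c₀)⁻¹ else 0
      have hg0 : g b₀ = (∑ b ∈ B \ X, f b * D b c₀) * (D b₀ c₀)⁻¹ := by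
        have h1 := hg b₀ (mem_insert_self _ _)
        rwa [ev_mem _ _ _ (mem_insert_self _ _), if_pos rfl] at h1
      refine (inj g f ?_ ?_ hf).2
      · rw [hg0, mul_assoc, inv_mul_cancel₀ hne, mul_one]
      · intro t ht
        rw [hg t (mem_insert_of_mem ht), if_neg]
        rintro rfl
        exact hbPX ht
  · rintro (⟨ha, hIX, hIY⟩ | ⟨ha, hIX, hIY⟩)
    · refine ⟨hP, hPc, fun f hf => ?_⟩
      have h1 : ∀ b ∈ B \ X, f b = 0 := hIY.2.2 f fun t ht => by
        rw [evY h f f (fun _ _ => rfl) (mem_sdiff.2 ⟨hP (mem_sdiff.1 ht).1, (mem_sdiff.1 ht).2⟩)]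
        exact hf t (mem_sdiff.1 ht).1
      have h2 : ∑ b ∈ B \ X, f b * D b c₀ = 0 := Finset.sum_eq_zero fun b hbb => by
        rw [h1 b hbb, zero_mul]
      have h3 : ∀ b ∈ insert b₀ (B ∩ X), (fun b => if b = b₀ then 0 else f b) b = 0 :=
        hIX.2.2 (fun b => if b = b₀ then 0 else f b) fun t ht => by
          rcases mem_insert.1 ht with h4 | h4
          · rw [h4, ev_mem _ _ _ (mem_insert_self _ _), if_pos rfl]
          · rw [evX hd hX h hb hc hne f (fun b => if b = b₀ then 0 else f b) ?_ ?_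
              (mem_inter.1 h4).2]
            · exact hf t (mem_inter.1 h4).1
            · intro b hbb
              rw [if_neg]
              rintro rfl
              exact hbBX hbb
            · rw [if_pos rfl, zero_mul, h2]
      intro b hbB
      by_cases hbX : b ∈ X
      · have h4 := h3 b (mem_insert_of_mem (mem_inter.2 ⟨hbB, hbX⟩))
        simp only at h4
        rwa [if_neg] at h4
        rintro rfl
        exact hb'.2 hbX
      · exact h1 b (mem_sdiff.2 ⟨hbB, hbX⟩)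
    · refine ⟨hP, hPc, fun f hf => ?_⟩
      have h3 : ∀ b ∈ insert b₀ (B ∩ X), (fun b => if b = b₀ then
          (∑ b ∈ B \ X, f b * D b c₀) * (D b₀ c₀)⁻¹ else f b) b = 0 :=
        hIX.2.2 (fun b => if b = b₀ then
          (∑ b ∈ B \ X, f b * D b c₀) * (D b₀ c₀)⁻¹ else f b) fun t ht => by
          rw [evX hd hX h hb hc hne f (fun b => if b = b₀ then
            (∑ b ∈ B \ X, f b * D b c₀) * (D b₀ c₀)⁻¹ else f b) ?_ ?_ (mem_inter.1 ht).2]
          · exact hf t (mem_inter.1 ht).1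
          · intro b hbb
            rw [if_neg]
            rintro rfl
            exact hbBX hbb
          · rw [if_pos rfl, mul_assoc, inv_mul_cancel₀ hne, mul_one]
      have h4 : ∑ b ∈ B \ X, f b * D b c₀ = 0 := by
        have h5 := h3 b₀ (mem_insert_self _ _)
        simp only [if_pos rfl] at h5
        exact (mul_eq_zero.1 h5).resolve_right (inv_ne_zero hne)
      have h1 : ∀ b ∈ B \ X, f b = 0 := hIY.2.2 f fun t ht => by
        rcases mem_insert.1 ht with h5 | h5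
        · rw [h5, evc hd hc, h4]
        · rw [evY h f f (fun _ _ => rfl)
            (mem_sdiff.2 ⟨hP (mem_sdiff.1 h5).1, (mem_sdiff.1 h5).2⟩)]
          exact hf t (mem_sdiff.1 h5).1
      intro b hbB
      by_cases hbX : b ∈ X
      · have h5 := h3 b (mem_insert_of_mem (mem_inter.2 ⟨hbB, hbX⟩))
        simp only at h5
        rwa [if_neg] at h5
        rintro rfl
        exact hb'.2 hbX
      · exact h1 b (mem_sdiff.2 ⟨hbB, hbX⟩)

private theorem evS {Z : Finset ℕ} (h : Sep1 D B N X)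
    (hZ : (Z = X) ∨ (Z = (B ∪ N) \ X)) (f g : ℕ → F4)
    (hg : ∀ b ∈ B ∩ Z, g b = f b) {e : ℕ} (heS : e ∈ B ∪ N) (he : e ∈ Z) :
    ev D (B ∩ Z) g e = ev D B f e := by
  by_cases heB : e ∈ B
  · rw [ev_mem D B f heB, ev_mem D _ g (mem_inter.2 ⟨heB, he⟩), hg e (mem_inter.2 ⟨heB, he⟩)]
  · have heN : e ∈ N := (mem_union.1 heS).resolve_left heB
    rw [ev_not_mem D B f heB, ev_not_mem D _ g (fun h1 => heB (mem_inter.1 h1).1),
      ← Finset.sum_inter_add_sum_sdiff B Z (fun b => f b * D b e)]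
    have h1 : ∑ b ∈ B \ Z, f b * D b e = 0 := Finset.sum_eq_zero fun b hb => by
      rw [mem_sdiff] at hb
      rcases h b hb.1 e heN with h2 | h2
      · exfalso
        rcases hZ with rfl | rfl
        · exact hb.2 (h2.2 he)
        · rw [mem_sdiff] at he
          refine hb.2 (mem_sdiff.2 ⟨mem_union_left _ hb.1, fun h3 => he.2 (h2.1 h3)⟩)
      · rw [h2, mul_zero]
    rw [h1, add_zero]
    exact Finset.sum_congr rfl fun b hb => by rw [hg b hb]

theorem block0 (hX : X ⊆ B ∪ N) (h : Sep1 D B N X) (hP : P ⊆ B ∪ N) :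
    IsBase D B N P ↔
      IsBase D (B ∩ X) (N ∩ X) (P ∩ X) ∧
      IsBase D (B ∩ ((B ∪ N) \ X)) (N ∩ ((B ∪ N) \ X)) (P \ X) := by
  have hcardB : (B ∩ X).card + (B ∩ ((B ∪ N) \ X)).card = B.card := by
    have : B ∩ ((B ∪ N) \ X) = B \ X := by
      ext x
      simp only [mem_inter, mem_sdiff, mem_union]
      tauto
    rw [this]
    exact Finset.card_inter_add_card_sdiff B X
  have hcardP : (P ∩ X).card + (P \ X).card = P.card := Finset.card_inter_add_card_sdiff P X
  have glue : ∀ g k : ℕ → F4,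
      (∀ t ∈ P ∩ X, ev D (B ∩ X) g t = 0) →
      (∀ t ∈ P \ X, ev D (B ∩ ((B ∪ N) \ X)) k t = 0) →
      ∀ t ∈ P, ev D B (fun b => if b ∈ X then g b else k b) t = 0 := by
    intro g k h2 h3 t ht
    by_cases htX : t ∈ X
    · rw [← evS h (Or.inl rfl) (fun b => if b ∈ X then g b else k b) g
        (fun b hbb => (if_pos (mem_inter.1 hbb).2).symm) (hP ht) htX]
      exact h2 t (mem_inter.2 ⟨ht, htX⟩)
    · rw [← evS h (Or.inr rfl) (fun b => if b ∈ X then g b else k b) k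
        (fun b hbb => (if_neg (mem_sdiff.1 (mem_inter.1 hbb).2).2).symm) (hP ht)
        (mem_sdiff.2 ⟨hP ht, htX⟩)]
      exact h3 t (mem_sdiff.2 ⟨ht, htX⟩)
  constructor
  · intro hB
    have inj : ∀ g k : ℕ → F4,
        (∀ t ∈ P ∩ X, ev D (B ∩ X) g t = 0) →
        (∀ t ∈ P \ X, ev D (B ∩ ((B ∪ N) \ X)) k t = 0) →
        (∀ b ∈ B ∩ X, g b = 0) ∧ ∀ b ∈ B ∩ ((B ∪ N) \ X), k b = 0 := by
      intro g k h2 h3
      have h4 := hB.2.2 _ (glue g k h2 h3)
      refine ⟨fun b hbb => ?_, fun b hbb => ?_⟩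
      · have h6 := h4 b (mem_inter.1 hbb).1
        rwa [if_pos (mem_inter.1 hbb).2] at h6
      · have h6 := h4 b (mem_inter.1 hbb).1
        rwa [if_neg (mem_sdiff.1 (mem_inter.1 hbb).2).2] at h6
    have hPc := hB.2.1
    have a1 : (B ∩ X).card ≤ (P ∩ X).card := by
      by_contra hlt
      push Not at hlt
      obtain ⟨g, hg1, ⟨b, hbb, hgb⟩, hg2⟩ := exists_dep D (A := B ∩ X) (T := P ∩ X) hlt
      exact hgb ((inj g (fun _ => 0) hg2 (fun t _ => ev_zero _ _ _)).1 b hbb)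
    have a2 : (B ∩ ((B ∪ N) \ X)).card ≤ (P \ X).card := by
      by_contra hlt
      push Not at hlt
      obtain ⟨g, hg1, ⟨b, hbb, hgb⟩, hg2⟩ := exists_dep D
        (A := B ∩ ((B ∪ N) \ X)) (T := P \ X) hlt
      exact hgb ((inj (fun _ => 0) g (fun t _ => ev_zero _ _ _) hg2).2 b hbb)
    refine ⟨⟨?_, by omega, fun g hg => (inj g (fun _ => 0) hg (fun t _ => ev_zero _ _ _)).1⟩,
      ⟨?_, by omega, fun g hg => (inj (fun _ => 0) g (fun t _ => ev_zero _ _ _) hg).2⟩⟩
    · intro t ht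
      rw [mem_inter] at ht
      rcases mem_union.1 (hP ht.1) with h1 | h1
      · exact mem_union_left _ (mem_inter.2 ⟨h1, ht.2⟩)
      · exact mem_union_right _ (mem_inter.2 ⟨h1, ht.2⟩)
    · intro t ht
      rw [mem_sdiff] at ht
      have h2 : t ∈ (B ∪ N) \ X := mem_sdiff.2 ⟨hP ht.1, ht.2⟩
      rcases mem_union.1 (hP ht.1) with h1 | h1
      · exact mem_union_left _ (mem_inter.2 ⟨h1, h2⟩)
      · exact mem_union_right _ (mem_inter.2 ⟨h1, h2⟩)
  · rintro ⟨hIX, hIY⟩
    refine ⟨hP, ?_, fun f hf b hbB => ?_⟩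
    · have h1 := hIX.2.1
      have h2 := hIY.2.1
      omega
    · by_cases hbX : b ∈ X
      · refine hIX.2.2 f (fun t ht => ?_) b (mem_inter.2 ⟨hbB, hbX⟩)
        rw [evS h (Or.inl rfl) f f (fun _ _ => rfl) (hP (mem_inter.1 ht).1) (mem_inter.1 ht).2]
        exact hf t (mem_inter.1 ht).1
      · refine hIY.2.2 f (fun t ht => ?_) b
          (mem_inter.2 ⟨hbB, mem_sdiff.2 ⟨mem_union_left _ hbB, hbX⟩⟩)
        rw [evS h (Or.inr rfl) f f (fun _ _ => rfl) (hP (mem_sdiff.1 ht).1)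
          (mem_sdiff.2 ⟨hP (mem_sdiff.1 ht).1, (mem_sdiff.1 ht).2⟩)]
        exact hf t (mem_sdiff.1 ht).1

end Pool.Agent.G4
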