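import Pool.Agent.G4.G1

set_option autoImplicit false

/-!
# Module G2: glueing

* `EqM.trD`: `isBase_dual`. (A `T` not contained in `B ∪ N` is a basis of neither.)
* `EqM.entry`: `D b n ≠ 0` iff `insert n (B.erase b)` is a basis (`exchange` with `T = B`, the vector of
`(B, b)` is the unit vector).
* `eqM_glue1`: `block1` for `D` and for `D'` (a basis has the right cardinality and is a subset).
* `eqM_glue2`: transpose: `One (trD D) N B X` is `One D B N ((B ∪ N) \ X)`, apply `eqM_glue1` to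
`trD D`, `trD D'`, `N`, `B`, with `c₀` in the role of `b₀` and conversely.
* `eqM_smul`: multiplication of all entries by `k ≠ 0` (row scaling): `ev (k D) B f e` for `f`
corresponds to `ev D B f e` up to ... (`Eqv.eqM` with `ρ = 1`, `κ = k` does it, but this module does
not import `Eqv`; you may import it).
-/

namespace Pool.Agent.G4

open F4 Finset

variable {D D' : ℕ → ℕ → F4} {B N X P : Finset ℕ} {b₀ c₀ : ℕ}

theorem EqM.trD (hd : Disjoint B N) (h : EqM D D' B N) : EqM (trD D) (trD D') N B := by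
  intro T
  by_cases hT : T ⊆ B ∪ N
  · have hT' : (B ∪ N) \ T ⊆ B ∪ N := Finset.sdiff_subset
    have e : T = (B ∪ N) \ ((B ∪ N) \ T) := by
      rw [Finset.sdiff_sdiff_eq_self hT]
    rw [e, isBase_dual hd hT', isBase_dual hd hT']
    exact h _
  · rw [Finset.union_comm] at hT
    constructor
    · intro h1
      exact absurd h1.1 hT
    · intro h1
      exact absurd h1.1 hT

private theorem entry_iff' (hd : Disjoint B N) {b n : ℕ} (hb : b ∈ B) (hn : n ∈ N) :
    IsBase D B N (insert n (B.erase b)) ↔ D b n ≠ 0 := by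
  have hnB : n ∉ B := fun h' => (Finset.disjoint_left.1 hd) h' hn
  have hf : IsF D B N B b (fun i => if i = b then 1 else 0) := by
    refine ⟨isBase_self, hb, ?_⟩
    intro t ht
    rw [ev_mem D B _ ht]
  have hx : n ∈ (B ∪ N) \ B := Finset.mem_sdiff.2 ⟨Finset.mem_union_right _ hn, hnB⟩
  rw [exchange hf hx, ev_not_mem D B _ hnB]
  have : ∑ b' ∈ B, (if b' = b then (1 : F4) else 0) * D b' n = D b n := by
    rw [Finset.sum_eq_single b]
    · simp
    · intro c _ hc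
      simp [hc]
    · intro h'
      exact absurd hb h'
  rw [this]

theorem EqM.entry (hd : Disjoint B N) (h : EqM D D' B N) {b n : ℕ} (hb : b ∈ B) (hn : n ∈ N) :
    D b n ≠ 0 ↔ D' b n ≠ 0 := by
  rw [← entry_iff' hd hb hn, ← entry_iff' (D := D') hd hb hn]
  exact h _

theorem eqM_glue1 (hd : Disjoint B N) (hX : X ⊆ B ∪ N) (h : One D B N X) (h' : One D' B N X)
    (hb : b₀ ∈ B \ X) (hc : c₀ ∈ N ∩ X) (hne : D b₀ c₀ ≠ 0) (hne' : D' b₀ c₀ ≠ 0)
    (h1 : EqM D D' (B ∩ insert b₀ X) (N ∩ insert b₀ X))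
    (h2 : EqM D D' (B ∩ insert c₀ ((B ∪ N) \ X)) (N ∩ insert c₀ ((B ∪ N) \ X))) :
    EqM D D' B N := by
  intro T
  by_cases hT : T ⊆ B ∪ N ∧ T.card = B.card
  · rw [block1 hd hX h hb hc hne hT.1 hT.2, block1 hd hX h' hb hc hne' hT.1 hT.2,
      h1 _, h2 _, h1 _, h2 _]
  · constructor
    · intro h3
      exact absurd ⟨h3.1, h3.2.1⟩ hT
    · intro h3
      exact absurd ⟨h3.1, h3.2.1⟩ hT

private theorem one_trD' (hs : One D B N ((B ∪ N) \ X)) : One (trD D) N B X := by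
  obtain ⟨h1, h2⟩ := hs
  constructor
  · intro n hn b hb hnZ hbZ
    exact h1 b hb n hn (Finset.mem_sdiff.2 ⟨Finset.mem_union_left _ hb, hbZ⟩)
      (fun h' => (Finset.mem_sdiff.1 h').2 hnZ)
  · intro n hn n' hn' b hb b' hb' hnZ hnZ' hbZ hbZ'
    have := h2 b hb b' hb' n hn n' hn' (fun h' => (Finset.mem_sdiff.1 h').2 hbZ)
      (fun h' => (Finset.mem_sdiff.1 h').2 hbZ')
      (Finset.mem_sdiff.2 ⟨Finset.mem_union_right _ hn, hnZ⟩)
      (Finset.mem_sdiff.2 ⟨Finset.mem_union_right _ hn', hnZ'⟩)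
    simp only [trD]
    rw [this, mul_comm]

theorem eqM_glue2 (hd : Disjoint B N) (hX : X ⊆ B ∪ N) (h : One D B N ((B ∪ N) \ X))
    (h' : One D' B N ((B ∪ N) \ X))
    (hb : b₀ ∈ B ∩ X) (hc : c₀ ∈ N \ X) (hne : D b₀ c₀ ≠ 0) (hne' : D' b₀ c₀ ≠ 0)
    (h1 : EqM D D' (B ∩ insert c₀ X) (N ∩ insert c₀ X))
    (h2 : EqM D D' (B ∩ insert b₀ ((B ∪ N) \ X)) (N ∩ insert b₀ ((B ∪ N) \ X))) :
    EqM D D' B N := by
  have k1 : EqM (trD D) (trD D') (N ∩ insert c₀ X) (B ∩ insert c₀ X) :=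
    EqM.trD (hd.mono Finset.inter_subset_left Finset.inter_subset_left) h1
  have k2 : EqM (trD D) (trD D') (N ∩ insert b₀ ((N ∪ B) \ X)) (B ∩ insert b₀ ((N ∪ B) \ X)) := by
    rw [Finset.union_comm N B]
    exact EqM.trD (hd.mono Finset.inter_subset_left Finset.inter_subset_left) h2
  have k3 : EqM (trD D) (trD D') N B :=
    eqM_glue1 hd.symm (by rwa [Finset.union_comm]) (one_trD' h) (one_trD' h') hc hb hne hne' k1 k2
  exact EqM.trD hd.symm k3

theorem eqM_glue0 (hX : X ⊆ B ∪ N) (h : Sep1 D B N X) (h' : Sep1 D' B N X)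
    (h1 : EqM D D' (B ∩ X) (N ∩ X))
    (h2 : EqM D D' (B ∩ ((B ∪ N) \ X)) (N ∩ ((B ∪ N) \ X))) : EqM D D' B N := by
  intro T
  by_cases hT : T ⊆ B ∪ N
  · rw [block0 hX h hT, block0 hX h' hT, h1 _, h2 _]
  · constructor
    · intro h3
      exact absurd h3.1 hT
    · intro h3
      exact absurd h3.1 hT

end Pool.Agent.G4
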