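import Pool.Agent.G4.Fld

set_option autoImplicit false

/-!
# Module LA1: echelon lists

`dot u v = ∑ u_i v_i` (`foldl`), all lists have length `m`. `lead u v` is the entry of `v` at the place
of the first nonzero entry of `u` (`0` if `u` is zero).
Invariant `Ech m E`: every `q ∈ E` has `q.1.length = m`, `lead q.1 q.1 = 1`, and for `q` before `q'` in
the list `lead q.1 q'.1 = 0` (the vectors added later vanish at the leading places of the earlier
ones).
* `dot` lemmas: bilinearity for lists of equal length; `dot_axpy : dot (axpy c u v) w = dot v w +
c * dot u w`.
* `reduce E p`: for `Ech m E`: the result vanishes at all leading places of `E` (clearing the place of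
`q` by subtracting a multiple of `q.1` does not destroy the zeros at the places of the earlier
vectors, because `q.1` vanishes there), and it differs from `p` by a linear combination of `E`:
(a) `dot` form: for every `w` of length `m` with `dot q.1 w = q.2` for all `q ∈ E`:
`dot (reduce E p).1 w + (reduce E p).2 = dot p.1 w + p.2`;
(b) `dot (reduce E p).1 w = dot p.1 w` if `dot q.1 w = 0` for all `q ∈ E`.
* `Ech` is preserved by appending `nrm (reduce E p)` if `lead (reduce E p).1 (reduce E p).1 ≠ 0`
(`lead u u` is the first nonzero entry, `lead u (c u') = c lead u u'`), and if it is zero the vector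
`(reduce E p).1` is zero.
* `ech_length`: `E.length ≤ m` (the leading places are different).
* `ech_zero`: if `Ech m E`, `u.length = m` and `u ≠ 0`, `lead q.1 u = 0` for all `q ∈ E`, then there is
`w` with `dot q.1 w = 0` for all `q ∈ E` and `dot u w ≠ 0` (triangular system: choose `w` zero outside
the leading places of `E` and of `u`, `w = 1` at the leading place of `u`, and determine the values at the leading
places of `E` from the last vector to the first; or: the vectors of `E` and `u` are linearly
independent).
-/

namespace Pool.Agent.G4

open F4

private theorem foldl_shift (l : List F4) (c : F4) :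
    l.foldl (fun s a => s + a) c = c + l.foldl (fun s a => s + a) 0 := by
  induction l generalizing c with
  | nil => simp
  | cons a l ih =>
    simp only [List.foldl_cons, zero_add]
    rw [ih (c + a), ih a, add_assoc]

theorem dot_nil (v : List F4) : dot [] v = 0 := by
  simp [dot]

theorem dot_cons (a b : F4) (u v : List F4) : dot (a :: u) (b :: v) = a * b + dot u v := by
  unfold dot
  rw [List.zipWith_cons_cons, List.foldl_cons, foldl_shift, zero_add]

private theorem dot_comm' (u v : List F4) : dot u v = dot v u := by
  induction u generalizing v with
  | nil =>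
    rw [dot_nil]
    cases v <;> simp [dot]
  | cons a u ih =>
    cases v with
    | nil => simp [dot]
    | cons b v => rw [dot_cons, dot_cons, ih, mul_comm]

theorem dot_axpy (c : F4) {u v w : List F4} {m : ℕ} (hu : u.length = m) (hv : v.length = m)
    (hw : w.length = m) : dot (axpy c u v) w = dot v w + c * dot u w := by
  induction m generalizing u v w with
  | zero =>
    rw [List.length_eq_zero_iff] at hu hv hw
    subst hu hv hw
    simp [dot, axpy]
  | succ m ih =>
    obtain ⟨a, u, rfl⟩ := List.exists_cons_of_length_eq_add_one hu
    obtain ⟨b, v, rfl⟩ := List.exists_cons_of_length_eq_add_one hv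
    obtain ⟨d, w, rfl⟩ := List.exists_cons_of_length_eq_add_one hw
    have h1 : axpy c (a :: u) (b :: v) = (b + c * a) :: axpy c u v := by
      simp [axpy]
    rw [h1, dot_cons, dot_cons, dot_cons, ih (by simpa using hu) (by simpa using hv) (by simpa using hw)]
    ring

theorem dot_map_mul (c : F4) (u w : List F4) : dot (u.map fun a => c * a) w = c * dot u w := by
  induction u generalizing w with
  | nil => simp [dot_nil]
  | cons a u ih =>
    cases w with
    | nil => simp [dot]
    | cons b w =>
      rw [List.map_cons, dot_cons, dot_cons, ih]
      ring

theorem dot_append {u v u' v' : List F4} (h : u.length = u'.length) :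
    dot (u ++ v) (u' ++ v') = dot u u' + dot v v' := by
  induction u generalizing u' with
  | nil =>
    have : u' = [] := by simpa using h.symm
    subst this
    simp [dot_nil]
  | cons a u ih =>
    cases u' with
    | nil => simp at h
    | cons b u' =>
      rw [List.cons_append, List.cons_append, dot_cons, dot_cons, ih (by simpa using h)]
      ring

theorem dot_map_map {α : Type} [DecidableEq α] (I : List α) (hI : I.Nodup) (f g : α → F4) :
    dot (I.map f) (I.map g) = ∑ i ∈ I.toFinset, f i * g i := by
  induction I with
  | nil => simp [dot_nil]
  | cons a I ih =>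
    rw [List.nodup_cons] at hI
    rw [List.map_cons, List.map_cons, dot_cons, ih hI.2, List.toFinset_cons, Finset.sum_insert]
    rw [List.mem_toFinset]
    exact hI.1

/-- echelon lists -/
def Ech (m : ℕ) (E : List (List F4 × F4)) : Prop :=
  (∀ q ∈ E, q.1.length = m ∧ lead q.1 q.1 = 1) ∧ E.Pairwise fun q q' => lead q.1 q'.1 = 0

variable {m : ℕ} {E : List (List F4 × F4)} {p : List F4 × F4}

private theorem lead_nil (v : List F4) : lead [] v = 0 := by simp [lead]

private theorem lead_cons (a b : F4) (u v : List F4) :
    lead (a :: u) (b :: v) = if a = 0 then lead u v else b := by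
  unfold lead
  rw [List.zip_cons_cons, List.filter_cons]
  by_cases h : a = 0 <;> simp [h]

private theorem axpy_length (c : F4) {u v : List F4} {m : ℕ} (hu : u.length = m) (hv : v.length = m) :
    (axpy c u v).length = m := by
  simp [axpy, hu, hv]

private theorem lead_axpy (c : F4) {u x y : List F4} {m : ℕ} (hu : u.length = m) (hx : x.length = m)
    (hy : y.length = m) : lead u (axpy c x y) = lead u y + c * lead u x := by
  induction m generalizing u x y with
  | zero =>
    rw [List.length_eq_zero_iff] at hu hx hy
    subst hu hx hy
    simp [lead_nil]
  | succ m ih =>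
    obtain ⟨a, u, rfl⟩ := List.exists_cons_of_length_eq_add_one hu
    obtain ⟨b, x, rfl⟩ := List.exists_cons_of_length_eq_add_one hx
    obtain ⟨d, y, rfl⟩ := List.exists_cons_of_length_eq_add_one hy
    have h1 : axpy c (b :: x) (d :: y) = (d + c * b) :: axpy c x y := by
      simp [axpy]
    rw [h1, lead_cons, lead_cons, lead_cons, ih (by simpa using hu) (by simpa using hx) (by simpa using hy)]
    by_cases h : a = 0 <;> simp [h]

private theorem lead_map_right (c : F4) (u v : List F4) :
    lead u (v.map fun a => c * a) = c * lead u v := by
  induction u generalizing v with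
  | nil => simp [lead_nil]
  | cons a u ih =>
    cases v with
    | nil => simp [lead]
    | cons b v =>
      rw [List.map_cons, lead_cons, lead_cons, ih]
      by_cases h : a = 0 <;> simp [h]

private theorem lead_map_left {c : F4} (hc : c ≠ 0) (u v : List F4) :
    lead (u.map fun a => c * a) v = lead u v := by
  induction u generalizing v with
  | nil => simp [lead_nil]
  | cons a u ih =>
    cases v with
    | nil => simp [lead]
    | cons b v =>
      rw [List.map_cons, lead_cons, lead_cons, ih]
      by_cases h : a = 0 <;> simp [h, hc]

private theorem ech_init {q : List F4 × F4} (h : Ech m (E ++ [q])) : Ech m E := by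
  refine ⟨fun r hr => h.1 r (List.mem_append_left _ hr), ?_⟩
  exact (List.pairwise_append.1 h.2).1

private theorem reduce_snoc (E : List (List F4 × F4)) (q p : List F4 × F4) :
    reduce (E ++ [q]) p = red (reduce E p) q := by
  simp [reduce]

theorem reduce_length (hE : Ech m E) (hp : p.1.length = m) : (reduce E p).1.length = m := by
  induction E using List.reverseRecOn with
  | nil => simpa [reduce] using hp
  | append_singleton E q ih =>
    rw [reduce_snoc]
    unfold red
    exact axpy_length _ (hE.1 q (by simp)).1 (ih (ech_init hE))

theorem reduce_lead (hE : Ech m E) (hp : p.1.length = m) :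
    ∀ q ∈ E, lead q.1 (reduce E p).1 = 0 := by
  induction E using List.reverseRecOn with
  | nil => simp
  | append_singleton E q ih =>
    intro r hr
    rw [reduce_snoc]
    have hq := hE.1 q (by simp)
    have hl := reduce_length (ech_init hE) hp
    have hr1 := (hE.1 r hr).1
    unfold red
    rw [lead_axpy _ hr1 hq.1 hl]
    rcases List.mem_append.1 hr with h | h
    · rw [ih (ech_init hE) r h]
      have : lead r.1 q.1 = 0 := (List.pairwise_append.1 hE.2).2.2 r h q (by simp)
      rw [this]
      simp
    · have : r = q := by simpa using h
      subst this
      rw [hq.2, mul_one, F4.add_self]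

theorem reduce_dot (hE : Ech m E) (hp : p.1.length = m) {w : List F4} (hw : w.length = m)
    (h : ∀ q ∈ E, dot q.1 w = q.2) :
    dot (reduce E p).1 w + (reduce E p).2 = dot p.1 w + p.2 := by
  induction E using List.reverseRecOn with
  | nil => simp [reduce]
  | append_singleton E q ih =>
    rw [reduce_snoc]
    have hq := hE.1 q (by simp)
    have hl := reduce_length (ech_init hE) hp
    have h1 := ih (ech_init hE) (fun r hr => h r (List.mem_append_left _ hr))
    unfold red
    simp only
    rw [dot_axpy _ hq.1 hl hw, h q (by simp), ← h1]
    have : ∀ a b c : F4, a + c + (b + c) = a + b := by decide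
    exact this _ _ _

theorem reduce_dot0 (hE : Ech m E) (hp : p.1.length = m) {w : List F4} (hw : w.length = m)
    (h : ∀ q ∈ E, dot q.1 w = 0) : dot (reduce E p).1 w = dot p.1 w := by
  induction E using List.reverseRecOn with
  | nil => simp [reduce]
  | append_singleton E q ih =>
    rw [reduce_snoc]
    have hq := hE.1 q (by simp)
    have hl := reduce_length (ech_init hE) hp
    have h1 := ih (ech_init hE) (fun r hr => h r (List.mem_append_left _ hr))
    unfold red
    simp only
    rw [dot_axpy _ hq.1 hl hw, h q (by simp), h1, mul_zero, add_zero]

theorem lead_self_zero {u : List F4} (h : lead u u = 0) {w : List F4} : dot u w = 0 := by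
  induction u generalizing w with
  | nil => exact dot_nil w
  | cons a u ih =>
    rw [lead_cons] at h
    by_cases ha : a = 0
    · rw [if_pos ha] at h
      cases w with
      | nil => simp [dot]
      | cons b w => rw [dot_cons, ha, zero_mul, zero_add, ih h]
    · rw [if_neg ha] at h
      exact absurd h ha

theorem ech_append (hE : Ech m E) (hp : p.1.length = m)
    (h : lead (reduce E p).1 (reduce E p).1 ≠ 0) : Ech m (E ++ [nrm (reduce E p)]) := by
  have hl := reduce_length hE hp
  refine ⟨?_, ?_⟩
  · intro q hq
    rcases List.mem_append.1 hq with h1 | h1
    · exact hE.1 q h1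
    · have : q = nrm (reduce E p) := by simpa using h1
      subst this
      refine ⟨by simp [nrm, hl], ?_⟩
      unfold nrm
      simp only
      rw [lead_map_right, lead_map_left (inv_ne_zero h), inv_mul_cancel₀ h]
  · rw [List.pairwise_append]
    refine ⟨hE.2, by simp, ?_⟩
    intro q hq r hr
    have : r = nrm (reduce E p) := by simpa using hr
    subst this
    unfold nrm
    simp only
    rw [lead_map_right, reduce_lead hE hp q hq, mul_zero]

/-- the place of the first nonzero entry -/
private def pl : List F4 → ℕ
  | [] => 0
  | a :: u => if a = 0 then pl u + 1 else 0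

private theorem lead_pl {u v : List F4} (h : u.length = v.length) : lead u v = v.getD (pl u) 0 := by
  induction u generalizing v with
  | nil =>
    have : v = [] := by simpa using h.symm
    subst this
    simp [lead_nil, pl]
  | cons a u ih =>
    cases v with
    | nil => simp at h
    | cons b v =>
      rw [lead_cons, pl]
      by_cases ha : a = 0
      · rw [if_pos ha, if_pos ha, ih (by simpa using h), List.getD_cons_succ]
      · rw [if_neg ha, if_neg ha, List.getD_cons_zero]

theorem ech_length (hE : Ech m E) : E.length ≤ m := by
  have h1 : (E.map fun q => pl q.1).Nodup := by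
    rw [List.nodup_iff_pairwise_ne, List.pairwise_map]
    refine hE.2.imp_of_mem ?_
    intro q q' hq hq' h0 heq
    have l1 := (hE.1 q hq).1
    have l2 := hE.1 q' hq'
    rw [lead_pl (l1.trans l2.1.symm), heq] at h0
    have l3 := l2.2
    rw [lead_pl rfl, h0] at l3
    exact zero_ne_one l3
  have h2 : ∀ x ∈ (E.map fun q => pl q.1), x ∈ List.range m := by
    intro x hx
    obtain ⟨q, hq, rfl⟩ := List.mem_map.1 hx
    rw [List.mem_range]
    by_contra hlt
    push Not at hlt
    have l1 := hE.1 q hq
    have l3 := l1.2
    rw [lead_pl rfl, List.getD_eq_default _ _ (by rw [l1.1]; exact hlt)] at l3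
    exact zero_ne_one l3
  have h3 := (h1.subperm h2).length_le
  simpa using h3

/-- the unit vector at the place of the first nonzero entry -/
private def one1 : List F4 → List F4
  | [] => []
  | a :: u => if a = 0 then 0 :: one1 u else 1 :: u.map fun _ => 0

private theorem one1_length (u : List F4) : (one1 u).length = u.length := by
  induction u with
  | nil => rfl
  | cons a u ih =>
    rw [one1]
    by_cases ha : a = 0
    · rw [if_pos ha]
      simp [ih]
    · rw [if_neg ha]
      simp

private theorem dot_zero_map {α : Type} (v : List F4) (u : List α) : dot v (u.map fun _ => 0) = 0 := by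
  induction u generalizing v with
  | nil => cases v <;> simp [dot]
  | cons a u ih =>
    cases v with
    | nil => simp [dot]
    | cons b v => rw [List.map_cons, dot_cons, ih, mul_zero, zero_add]

private theorem dot_one1 {u v : List F4} (h : u.length = v.length) : dot v (one1 u) = lead u v := by
  induction u generalizing v with
  | nil =>
    have : v = [] := by simpa using h.symm
    subst this
    simp [lead_nil, dot_nil]
  | cons a u ih =>
    cases v with
    | nil => simp at h
    | cons b v =>
      rw [lead_cons, one1]
      by_cases ha : a = 0
      · rw [if_pos ha, if_pos ha, dot_cons, ih (by simpa using h), mul_zero, zero_add]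
      · rw [if_neg ha, if_neg ha, dot_cons, dot_zero_map, mul_one, add_zero]

private theorem dot_axpy_right (c : F4) {u v w : List F4} {m : ℕ} (hu : u.length = m)
    (hv : v.length = m) (hw : w.length = m) : dot w (axpy c u v) = dot w v + c * dot w u := by
  rw [dot_comm', dot_axpy c hu hv hw, dot_comm' v, dot_comm' u]

theorem ech_zero (hE : Ech m E) {u : List F4} (hu : u.length = m) (h0 : lead u u ≠ 0)
    (h : ∀ q ∈ E, lead q.1 u = 0) :
    ∃ w : List F4, w.length = m ∧ (∀ q ∈ E, dot q.1 w = 0) ∧ dot u w ≠ 0 := by
  induction E with
  | nil =>
    refine ⟨one1 u, by rw [one1_length, hu], by simp, ?_⟩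
    rw [dot_one1 rfl]
    exact h0
  | cons q E ih =>
    have hE' : Ech m E := ⟨fun r hr => hE.1 r (List.mem_cons_of_mem _ hr),
      (List.pairwise_cons.1 hE.2).2⟩
    obtain ⟨w, hw, h1, h2⟩ := ih hE' (fun r hr => h r (List.mem_cons_of_mem _ hr))
    have hq := hE.1 q (by simp)
    have hlo : (one1 q.1).length = m := by rw [one1_length, hq.1]
    refine ⟨axpy (dot q.1 w) (one1 q.1) w, axpy_length _ hlo hw, ?_, ?_⟩
    · intro r hr
      rcases List.mem_cons.1 hr with rfl | hr
      · rw [dot_axpy_right _ hlo hw hq.1, dot_one1 rfl, hq.2, mul_one, F4.add_self]
      · have hr1 := (hE'.1 r hr).1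
        rw [dot_axpy_right _ hlo hw hr1, dot_one1 (hq.1.trans hr1.symm), h1 r hr,
          (List.pairwise_cons.1 hE.2).1 r hr, mul_zero, add_zero]
    · rw [dot_axpy_right _ hlo hw hu, dot_one1 (hq.1.trans hu.symm), h q (by simp), mul_zero, add_zero]
      exact h2

end Pool.Agent.G4
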