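import Pool.Agent.G4.SH2a

set_option autoImplicit false

/-!
# Module S6a: the new column is determined by the answers

PROOF of `learn`. For a candidate `(v, s)` let `k(g, t) = ∑_{b ∈ B} g b * v b + ∑_p t p.2 * s p.2`;
the true one is `ev (lft g t) y = ∑_b g b * D b y + ∑_p t p.2 * sco p`. Let `v', s'` be coordinates
on `nB`: there is `vy : ℕ → F4` with `k(g, t) = ∑_{b ∈ nB} (lft g t) b * vy b` (`vy b = v b` on `B`,
`vy p.2 = s p.2 + [p.1 ∈ B] v p.1`). `W i j = vy i * conj (vy j) + D i y * conj (D j y)` is Hermitian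
and `qf W (lft g t) = nm (k(g, t)) + nm (ev (lft g t) y)` (`qf_rank_one`, `ev_not_mem`). By `h` (and
`lfU_filter` for `U` with zero values) it vanishes at all `lfU U f`, and at `lft 0 [p.2]` its value
is `nm (s p.2) + nm (sco p) = 1 + 1 = 0`. `hnplus`: `nm (k(g,t)) + nm (ev (lft g t) y) =
∑_p l p * tr (ev g p.1 * conj (t p.2))`. Comparing coefficients:
 (i) `g`-`g`: `v i * conj (v j) = D i y * conj (D j y)` on `B`;
 (ii) `t`-`t`, `p ≠ q`: `s p * conj (s q) = sco p * conj (sco q)`;
 (iii) `g`-`t`: `v b * conj (s p) + D b y * conj (sco p) = l p * col D B p.1 b`.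
If `P = ∅`: `rank_one_eq` gives `v b = κ D b y`. If `P ≠ ∅`: by (ii) there is `κ ≠ 0` with
`s p.2 = κ * sco p` for all `p` (fix `p₀`, `κ = s p₀ / sco p₀`; `nm = 1`), and (i) gives
`v b = d * κ * D b y` with `d ≠ 0`, so (iii):
`(d + 1) * D b y * conj (sco p) = l p * col D B p.1 b` (`κ conj κ = 1`). If `d = 1` done. If `D · y`
is zero on `B` done. Otherwise `d ≠ 1`, all `l p = 1` and `D b y = e_p * col p.1 b` with `e_p ≠ 0`; by
`C3.indep2` `P = {p}`. Then `X = {p.1, p.2, y}` satisfies `Sep2 D (nB) (nN)` and has three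
elements, the complement at least two (`hM : 4 ≤ card`, but `hN : 4 ≤ (B ∪ N).card` gives
`(nB ∪ nN).card ≥ 6`), contradiction.
-/

namespace Pool.Agent.G4

open F4 Finset

variable {D : ℕ → ℕ → F4} {B N : Finset ℕ} {P : Finset (ℕ × ℕ)} {y : ℕ}

/-- the value of the lift of `f` at the candidate `(v, s)` -/
def kval (D : ℕ → ℕ → F4) (B : Finset ℕ) (v s : ℕ → F4) (f : ℕ → F4) (U : Finset (ℕ × ℕ)) : F4 :=
  ∑ b ∈ B, f b * v b + ∑ p ∈ U, ev D B f p.1 * s p.2

private theorem sum_nB (st : Stp D B N P y) (F : ℕ → F4) :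
    ∑ b ∈ nB B P, F b = ∑ b ∈ B, F b + ∑ p ∈ P, F p.2 := by
  unfold nB
  rw [Finset.sum_union, Finset.sum_image]
  · exact fun p hp q hq h => st.inj2 p hp q hq h
  · rw [Finset.disjoint_left]
    intro b hb hb'
    obtain ⟨p, hp, rfl⟩ := Finset.mem_image.1 hb'
    exact st.new p hp (Finset.mem_union_left _ hb)

private theorem y_notin (st : Stp D B N P y) : y ∉ nB B P := by
  unfold nB
  rw [Finset.mem_union, not_or]
  refine ⟨fun h => st.ynew (Finset.mem_union_left _ h), fun h => ?_⟩
  obtain ⟨p, hp, hpy⟩ := Finset.mem_image.1 h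
  exact st.yne p hp hpy.symm

/-- coordinates of the candidate on the new rows -/
private def vy (B : Finset ℕ) (P : Finset (ℕ × ℕ)) (v s : ℕ → F4) (b : ℕ) : F4 :=
  if b ∈ B then v b else s b + ∑ p ∈ P with p.2 = b, (if p.1 ∈ B then v p.1 else 0)

private def kk (B : Finset ℕ) (P : Finset (ℕ × ℕ)) (v s g t : ℕ → F4) : F4 :=
  ∑ b ∈ B, g b * v b + ∑ p ∈ P, t p.2 * s p.2

private theorem kk_eq (st : Stp D B N P y) (v s g t : ℕ → F4) :
    ∑ b ∈ nB B P, lft B P g t b * vy B P v s b = kk B P v s g t := by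
  rw [sum_nB st]
  have h1 : ∑ b ∈ B, lft B P g t b * vy B P v s b =
      ∑ b ∈ B, g b * v b + ∑ p ∈ P, (if p.1 ∈ B then t p.2 * v p.1 else 0) := by
    have h3 : ∀ b ∈ B, lft B P g t b * vy B P v s b =
        g b * v b + ∑ p ∈ P, (if p.1 = b then t p.2 * v b else 0) := by
      intro b hb
      unfold lft vy
      rw [if_pos hb, if_pos hb, add_mul, Finset.sum_mul, Finset.sum_filter]
    rw [Finset.sum_congr rfl h3, Finset.sum_add_distrib, Finset.sum_comm]
    congr 1
    refine Finset.sum_congr rfl fun p _ => ?_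
    rw [Finset.sum_ite_eq]
  have h2 : ∑ p ∈ P, lft B P g t p.2 * vy B P v s p.2 =
      ∑ p ∈ P, t p.2 * s p.2 + ∑ p ∈ P, (if p.1 ∈ B then t p.2 * v p.1 else 0) := by
    rw [← Finset.sum_add_distrib]
    refine Finset.sum_congr rfl fun p hp => ?_
    have hpB : p.2 ∉ B := fun h => st.new p hp (Finset.mem_union_left _ h)
    unfold lft vy
    rw [if_neg hpB, if_neg hpB, Finset.sum_filter, Finset.sum_eq_single p]
    · rw [if_pos rfl, mul_add]
      congr 1
      split_ifs <;> simp
    · intro q hq hqp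
      rw [if_neg (fun h => hqp (st.inj2 q hq p hp h))]
    · intro h
      exact absurd hp h
  rw [h1, h2]
  unfold kk
  have h4 : ∀ a b c : F4, a + c + (b + c) = a + b := by decide
  exact h4 _ _ _

private def WW (D : ℕ → ℕ → F4) (B : Finset ℕ) (P : Finset (ℕ × ℕ)) (y : ℕ) (v s : ℕ → F4)
    (i j : ℕ) : F4 := vy B P v s i * conj (vy B P v s j) + D i y * conj (D j y)

private theorem qf_WW (st : Stp D B N P y) (v s g t : ℕ → F4) :
    qf (nB B P) (WW D B P y v s) (lft B P g t) =
      nm (kk B P v s g t) + nm (ev D (nB B P) (lft B P g t) y) := by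
  rw [← kk_eq st, ev_not_mem D (nB B P) _ (y_notin st), ← qf_rank_one, ← qf_rank_one]
  unfold qf WW
  rw [← Finset.sum_add_distrib]
  refine Finset.sum_congr rfl fun i _ => ?_
  rw [← Finset.sum_add_distrib]
  refine Finset.sum_congr rfl fun j _ => ?_
  ring

private theorem key_lem {x z a b l c : F4} (hx : nm x = nm z) (hy : nm a = nm b)
    (hl : l = 0 ∨ l = 1) (h : ∀ r : F4, nm (r * x + a) + nm (r * z + b) = l * tr (r * c)) :
    x * conj a + z * conj b = l * c := by
  have h1 : x * conj a + z * conj b + l * c = 0 := by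
    apply eq_zero_of_tr
    intro r
    have h2 := h r
    rw [nm_add, nm_add, nm_mul, nm_mul, hx, hy] at h2
    have h3 : ∀ p q m n : F4, (p + q + m) + (p + q + n) = m + n := by decide
    rw [h3, ← tr_add, ← tr_real_mul l _ hl] at h2
    have e : r * (x * conj a + z * conj b + l * c) =
        (r * x * conj a + r * z * conj b) + l * (r * c) := by ring
    rw [e, tr_add, h2]
    exact add_self _
  have h4 : ∀ p q : F4, p + q = 0 → p = q := by decide
  exact h4 _ _ h1

private theorem sum_t (st : Stp D B N P y) {p : ℕ × ℕ} (hp : p ∈ P) (a : F4) (x : ℕ × ℕ → F4) :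
    ∑ r ∈ P, (if r.2 = p.2 then a else 0) * x r = a * x p := by
  rw [Finset.sum_eq_single p]
  · rw [if_pos rfl]
  · intro q hq hqp
    rw [if_neg (fun h => hqp (st.inj2 q hq p hp h)), zero_mul]
  · intro h
    exact absurd hp h

private theorem tri (st : Stp D B N P y) (hN : C3 D B N) (hM : C3 D (nB B P) (nN N y))
    {p : ℕ × ℕ} (hp : p ∈ P) (hP : P = {p}) (e : F4)
    (h : ∀ b ∈ B, D b y = e * col D B p.1 b) : False := by
  have hnB : ∀ b, b ∈ nB B P ↔ b ∈ B ∨ b = p.2 := by
    intro b
    unfold nB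
    rw [hP]
    simp [or_comm]
  have hnN : ∀ n, n ∈ nN N y ↔ n = y ∨ n ∈ N := by
    intro n
    unfold nN
    rw [Finset.mem_insert]
  have hp2B : p.2 ∉ B := fun h => st.new p hp (Finset.mem_union_left _ h)
  have hp2N : p.2 ∉ N := fun h => st.new p hp (Finset.mem_union_right _ h)
  have hyB : y ∉ B := fun h => st.ynew (Finset.mem_union_left _ h)
  have hyN : y ∉ N := fun h => st.ynew (Finset.mem_union_right _ h)
  have hyp2 : y ≠ p.2 := st.yne p hp
  have hp1 := st.mem p hp
  have hp12 : p.1 ≠ p.2 := fun h => st.new p hp (h ▸ hp1)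
  have hp1y : p.1 ≠ y := fun h => st.ynew (h ▸ hp1)
  have hX : ({p.1, p.2, y} : Finset ℕ) ⊆ nB B P ∪ nN N y := by
    intro x hx
    simp only [Finset.mem_insert, Finset.mem_singleton] at hx
    rw [Finset.mem_union, hnB, hnN]
    rw [Finset.mem_union] at hp1
    rcases hx with rfl | rfl | rfl
    · rcases hp1 with h1 | h1
      · exact Or.inl (Or.inl h1)
      · exact Or.inr (Or.inr h1)
    · exact Or.inl (Or.inr rfl)
    · exact Or.inr (Or.inl rfl)
  have hmem : ∀ x, x ∈ ({p.1, p.2, y} : Finset ℕ) ↔ x = p.1 ∨ x = p.2 ∨ x = y := by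
    intro x
    simp only [Finset.mem_insert, Finset.mem_singleton]
  have hsep : Sep2 D (nB B P) (nN N y) {p.1, p.2, y} := by
    by_cases hpB : p.1 ∈ B
    · have hpN : p.1 ∉ N := fun h => Finset.disjoint_left.1 st.disj hpB h
      refine ⟨fun b => if b = p.1 ∨ b = p.2 then 1 else 0, fun n => if n = y then 0 else D p.1 n, ?_⟩
      intro b hb n hn
      rw [hnB] at hb
      rw [hnN] at hn
      have hby : b ≠ y := by
        rcases hb with hb | rfl
        · exact fun h => hyB (h ▸ hb)
        · exact hyp2.symm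
      dsimp only
      by_cases hbX : b = p.1 ∨ b = p.2
      · have hbX' : b ∈ ({p.1, p.2, y} : Finset ℕ) := (hmem b).2 (by tauto)
        rw [if_pos hbX, one_mul]
        by_cases hny : n = y
        · have hnX : n ∈ ({p.1, p.2, y} : Finset ℕ) := (hmem n).2 (by tauto)
          rw [if_pos (iff_of_true hbX' hnX), if_pos hny]
        · have hnN' : n ∈ N := hn.resolve_left hny
          have hnX : n ∉ ({p.1, p.2, y} : Finset ℕ) := by
            rw [hmem]
            rintro (rfl | rfl | rfl)
            · exact hpN hnN'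
            · exact hp2N hnN'
            · exact hny rfl
          rw [if_neg (fun h => hnX (h.1 hbX')), if_neg hny]
          rcases hbX with h1 | h1
          · rw [h1]
          · rw [h1, st.row p hp n hnN', if_pos hpB]
      · have hbX' : b ∉ ({p.1, p.2, y} : Finset ℕ) := by rw [hmem]; tauto
        rw [if_neg hbX, zero_mul]
        by_cases hny : n = y
        · have hnX : n ∈ ({p.1, p.2, y} : Finset ℕ) := (hmem n).2 (by tauto)
          have hbB : b ∈ B := hb.resolve_right (fun h => hbX (Or.inr h))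
          rw [if_neg (fun h => hbX' (h.2 hnX)), hny, h b hbB, col, if_pos hpB,
            if_neg (fun h => hbX (Or.inl h.symm)), mul_zero]
        · have hnN' : n ∈ N := hn.resolve_left hny
          have hnX : n ∉ ({p.1, p.2, y} : Finset ℕ) := by
            rw [hmem]
            rintro (rfl | rfl | rfl)
            · exact hpN hnN'
            · exact hp2N hnN'
            · exact hny rfl
          rw [if_pos (iff_of_false hbX' hnX)]
    · have hpN : p.1 ∈ N := by
        rw [Finset.mem_union] at hp1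
        exact hp1.resolve_left hpB
      refine ⟨fun b => if b = p.2 then 0 else D b p.1,
        fun n => if n = p.1 then 1 else if n = y then e else 0, ?_⟩
      intro b hb n hn
      rw [hnB] at hb
      rw [hnN] at hn
      dsimp only
      by_cases hbX : b = p.2
      · have hbX' : b ∈ ({p.1, p.2, y} : Finset ℕ) := (hmem b).2 (by tauto)
        rw [if_pos hbX, zero_mul]
        by_cases hnX : n ∈ ({p.1, p.2, y} : Finset ℕ)
        · rw [if_pos (iff_of_true hbX' hnX)]
        · have hn1 : n ≠ p.1 := fun h => hnX ((hmem n).2 (by tauto))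
          have hny : n ≠ y := fun h => hnX ((hmem n).2 (by tauto))
          have hnN' : n ∈ N := hn.resolve_left hny
          rw [if_neg (fun h => hnX (h.1 hbX')), hbX, st.row p hp n hnN', if_neg hpB, if_neg hn1]
      · have hbB : b ∈ B := hb.resolve_right hbX
        have hbX' : b ∉ ({p.1, p.2, y} : Finset ℕ) := by
          rw [hmem]
          rintro (rfl | rfl | rfl)
          · exact hpB hbB
          · exact hbX rfl
          · exact hyB hbB
        rw [if_neg hbX]
        by_cases hn1 : n = p.1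
        · have hnX : n ∈ ({p.1, p.2, y} : Finset ℕ) := (hmem n).2 (by tauto)
          rw [if_neg (fun h => hbX' (h.2 hnX)), if_pos hn1, mul_one, hn1]
        · by_cases hny : n = y
          · have hnX : n ∈ ({p.1, p.2, y} : Finset ℕ) := (hmem n).2 (by tauto)
            rw [if_neg (fun h => hbX' (h.2 hnX)), if_neg hn1, if_pos hny, hny, h b hbB, col,
              if_neg hpB, mul_comm]
          · have hnN' : n ∈ N := hn.resolve_left hny
            have hnX : n ∉ ({p.1, p.2, y} : Finset ℕ) := by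
              rw [hmem]
              rintro (rfl | rfl | rfl)
              · exact hn1 rfl
              · exact hp2N hnN'
              · exact hny rfl
            rw [if_pos (iff_of_false hbX' hnX), if_neg hn1, if_neg hny, mul_zero]
  rcases hM.2.2 _ hX hsep with h1 | h1
  · have h2 : ({p.1, p.2} : Finset ℕ) ⊆ {p.1, p.2, y} := by
      intro x hx
      simp only [Finset.mem_insert, Finset.mem_singleton] at hx ⊢
      tauto
    have h3 := Finset.card_le_card h2
    rw [Finset.card_pair hp12] at h3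
    omega
  · have h2 : (B ∪ N).erase p.1 ⊆ (nB B P ∪ nN N y) \ {p.1, p.2, y} := by
      intro x hx
      rw [Finset.mem_erase] at hx
      rw [Finset.mem_sdiff, hmem, Finset.mem_union, hnB, hnN]
      obtain ⟨hx1, hx2⟩ := hx
      refine ⟨?_, ?_⟩
      · rw [Finset.mem_union] at hx2
        tauto
      · rintro (rfl | rfl | rfl)
        · exact hx1 rfl
        · exact st.new p hp hx2
        · exact st.ynew hx2
    have h3 := Finset.card_le_card h2
    rw [Finset.card_erase_of_mem hp1] at h3
    have h4 := hN.1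
    omega

theorem learn (st : Stp D B N P y) (hN : C3 D B N) (hM : C3 D (nB B P) (nN N y))
    {L : Set (Finset ℕ × ℕ)} (hL : SpanH D B N L) (v s : ℕ → F4) (hs : ∀ p ∈ P, s p.2 ≠ 0)
    (h : ∀ q ∈ L, ∀ f, IsF D B N q.1 q.2 f → ∀ U ⊆ P, U.card ≤ 2 →
      (∀ p ∈ U, ev D B f p.1 ≠ 0) →
      (kval D B v s f U = 0 ↔ ev D (nB B P) (lfU D B P U f) y = 0)) :
    ∃ κ : F4, κ ≠ 0 ∧ (∀ b ∈ B, v b = κ * D b y) ∧ ∀ p ∈ P, s p.2 = κ * sco D B y p := by
  classical
  have hsc : ∀ p ∈ P, sco D B y p ≠ 0 := fun p hp => sco_ne st hN hM hp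
  have hyB : y ∉ B := fun h => st.ynew (Finset.mem_union_left _ h)
  -- the values of the form
  have hval : ∀ q ∈ L, ∀ f, IsF D B N q.1 q.2 f → ∀ U ⊆ P, U.card ≤ 2 →
      qf (nB B P) (WW D B P y v s) (lfU D B P U f) = 0 := by
    intro q hq f hf U hU hc
    have hU' : (U.filter fun p => ev D B f p.1 ≠ 0) ⊆ P := (Finset.filter_subset _ _).trans hU
    rw [← qf_congr _ _ _ _ (lfU_filter st hU f)]
    have e1 : qf (nB B P) (WW D B P y v s) (lfU D B P (U.filter fun p => ev D B f p.1 ≠ 0) f) =
        nm (kk B P v s f (tU D B (U.filter fun p => ev D B f p.1 ≠ 0) f)) +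
          nm (ev D (nB B P) (lfU D B P (U.filter fun p => ev D B f p.1 ≠ 0) f) y) :=
      qf_WW st v s f (tU D B (U.filter fun p => ev D B f p.1 ≠ 0) f)
    have e2 : kk B P v s f (tU D B (U.filter fun p => ev D B f p.1 ≠ 0) f) =
        kval D B v s f (U.filter fun p => ev D B f p.1 ≠ 0) := by
      unfold kk kval
      congr 1
      have e3 : ∀ p ∈ P, tU D B (U.filter fun p => ev D B f p.1 ≠ 0) f p.2 * s p.2 =
          if p ∈ (U.filter fun p => ev D B f p.1 ≠ 0) then ev D B f p.1 * s p.2 else 0 := by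
        intro p hp
        rw [tU_mem st hU' f hp]
        split_ifs <;> simp
      rw [Finset.sum_congr rfl e3, ← Finset.sum_filter]
      refine Finset.sum_congr ?_ fun _ _ => rfl
      ext p
      rw [Finset.mem_filter]
      exact ⟨fun h => h.2, fun h => ⟨hU' h, h⟩⟩
    have e4 := h q hq f hf _ hU' ((Finset.card_filter_le _ _).trans hc)
      (fun p hp => (Finset.mem_filter.1 hp).2)
    rw [e1, e2, nm_eq, nm_eq]
    by_cases h0 : kval D B v s f (U.filter fun p => ev D B f p.1 ≠ 0) = 0
    · rw [if_pos h0, if_pos (e4.1 h0), add_zero]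
    · rw [if_neg h0, if_neg (fun h' => h0 (e4.2 h'))]
      exact add_self 1
  have hpair : ∀ p ∈ P, qf (nB B P) (WW D B P y v s)
      (lft B P (fun _ => 0) fun b => if b = p.2 then 1 else 0) = 0 := by
    intro p hp
    rw [qf_WW st, ev_lft_y st]
    have e1 : kk B P v s (fun _ => 0) (fun b => if b = p.2 then 1 else 0) = s p.2 := by
      unfold kk
      rw [sum_t st hp 1 (fun r => s r.2)]
      simp
    have e2 : ev D B (fun _ => 0) y + ∑ r ∈ P, (if r.2 = p.2 then (1 : F4) else 0) * sco D B y r =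
        sco D B y p := by
      rw [sum_t st hp 1 (fun r => sco D B y r), ev_zero, zero_add, one_mul]
    rw [e1, e2, nm_eq, nm_eq, if_neg (hs p hp), if_neg (hsc p hp)]
    exact add_self 1
  have hHerm : Herm (WW D B P y v s) := by
    intro i j
    unfold WW
    rw [conj_add, conj_mul, conj_mul, conj_conj, conj_conj]
    ring
  obtain ⟨l, hl, hq⟩ := hnplus st hN hL hHerm hval hpair
  -- (i)
  have h1 : ∀ i ∈ B, ∀ j ∈ B, D i y * conj (D j y) = v i * conj (v j) := by
    have hW : Herm (fun i j => v i * conj (v j) + D i y * conj (D j y)) := by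
      intro i j
      simp only
      rw [conj_add, conj_mul, conj_mul, conj_conj, conj_conj]
      ring
    have h3 := hL.2 _ hW (by
      intro q hqL f hf
      have e1 : qf B (fun i j => v i * conj (v j) + D i y * conj (D j y)) f =
          nm (∑ b ∈ B, f b * v b) + nm (∑ b ∈ B, f b * D b y) := by
        rw [← qf_rank_one, ← qf_rank_one]
        unfold qf
        rw [← Finset.sum_add_distrib]
        refine Finset.sum_congr rfl fun i _ => ?_
        rw [← Finset.sum_add_distrib]
        refine Finset.sum_congr rfl fun j _ => ?_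
        ring
      have e2 := h q hqL f hf ∅ (Finset.empty_subset _) (by simp) (by simp)
      rw [ev_lfU_y st (Finset.empty_subset _), ev_not_mem D B f hyB] at e2
      unfold kval at e2
      simp only [Finset.sum_empty, add_zero] at e2
      rw [e1, nm_eq, nm_eq]
      by_cases h0 : ∑ b ∈ B, f b * v b = 0
      · rw [if_pos h0, if_pos (e2.1 h0), add_zero]
      · rw [if_neg h0, if_neg (fun h' => h0 (e2.2 h'))]
        exact add_self 1)
    intro i hi j hj
    have h5 := h3 i hi j hj
    have h6 : ∀ a b : F4, a + b = 0 → b = a := by decide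
    exact h6 _ _ h5
  have hstar : ∀ g t : ℕ → F4, nm (kk B P v s g t) +
      nm (∑ b ∈ B, g b * D b y + ∑ p ∈ P, t p.2 * sco D B y p) =
      ∑ p ∈ P, l p * tr (ev D B g p.1 * conj (t p.2)) := by
    intro g t
    rw [← hq g t, qf_WW st, ev_lft_y st, ev_not_mem D B g hyB]
  have h4 : ∀ x y : F4, x + y = 0 → x = y := by decide
  -- (ii)
  have h2 : ∀ p ∈ P, ∀ q ∈ P, p ≠ q → s p.2 * conj (s q.2) = sco D B y p * conj (sco D B y q) := by
    intro p hp q hq' hpq
    have h5 : s p.2 * conj (s q.2) + sco D B y p * conj (sco D B y q) = (0 : F4) * 0 := by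
      refine key_lem (by rw [nm_eq, nm_eq, if_neg (hs p hp), if_neg (hsc p hp)])
        (by rw [nm_eq, nm_eq, if_neg (hs q hq'), if_neg (hsc q hq')]) (Or.inl rfl) fun r => ?_
      have h6 := hstar (fun _ => 0) (fun b => (if b = p.2 then r else 0) + (if b = q.2 then 1 else 0))
      have e1 : kk B P v s (fun _ => 0)
          (fun b => (if b = p.2 then r else 0) + (if b = q.2 then 1 else 0)) =
          r * s p.2 + s q.2 := by
        unfold kk
        simp only [add_mul, Finset.sum_add_distrib, zero_mul, Finset.sum_const_zero, zero_add]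
        rw [sum_t st hp r (fun r => s r.2), sum_t st hq' 1 (fun r => s r.2), one_mul]
      have e2 : ∑ b ∈ B, (0 : F4) * D b y + ∑ x ∈ P, ((if x.2 = p.2 then r else 0) +
          (if x.2 = q.2 then 1 else 0)) * sco D B y x = r * sco D B y p + sco D B y q := by
        simp only [add_mul, Finset.sum_add_distrib, zero_mul, Finset.sum_const_zero, zero_add]
        rw [sum_t st hp r (fun r => sco D B y r), sum_t st hq' 1 (fun r => sco D B y r), one_mul]
      rw [e1, e2] at h6
      rw [h6, zero_mul]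
      refine Finset.sum_eq_zero fun x _ => ?_
      rw [ev_zero, zero_mul, tr_zero, mul_zero]
    rw [zero_mul] at h5
    exact h4 _ _ h5
  -- (iii)
  have h3 : ∀ p ∈ P, ∀ b ∈ B, v b * conj (s p.2) + D b y * conj (sco D B y p) =
      l p * col D B p.1 b := by
    intro p hp b hb
    refine key_lem (by
      have := h1 b hb b hb
      unfold nm
      exact this.symm) (by rw [nm_eq, nm_eq, if_neg (hs p hp), if_neg (hsc p hp)]) (hl p) fun r => ?_
    have h6 := hstar (fun i => if i = b then r else 0) (fun i => if i = p.2 then 1 else 0)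
    have e1 : kk B P v s (fun i => if i = b then r else 0) (fun i => if i = p.2 then 1 else 0) =
        r * v b + s p.2 := by
      unfold kk
      rw [sum_t st hp 1 (fun r => s r.2), one_mul]
      congr 1
      simp only [ite_mul, zero_mul]
      rw [Finset.sum_ite_eq' B b, if_pos hb]
    have e2 : ∑ i ∈ B, (if i = b then r else 0) * D i y + ∑ x ∈ P, (if x.2 = p.2 then (1 : F4) else 0) *
        sco D B y x = r * D b y + sco D B y p := by
      rw [sum_t st hp 1 (fun r => sco D B y r), one_mul]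
      congr 1
      simp only [ite_mul, zero_mul]
      rw [Finset.sum_ite_eq' B b, if_pos hb]
    rw [e1, e2] at h6
    rw [h6, Finset.sum_eq_single p]
    · rw [if_pos rfl, conj_one, mul_one]
      congr 2
      unfold ev
      simp only [ite_mul, zero_mul]
      rw [Finset.sum_ite_eq' B b, if_pos hb]
    · intro x hx hxp
      rw [if_neg (fun h => hxp (st.inj2 x hx p hp h)), conj_zero, mul_zero, tr_zero, mul_zero]
    · intro h
      exact absurd hp h
  obtain ⟨c, hc, hvc⟩ := rank_one_eq B (fun b => D b y) v h1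
  rcases P.eq_empty_or_nonempty with hP | ⟨p₀, hp₀⟩
  · refine ⟨c, hc, hvc, ?_⟩
    rw [hP]
    simp
  set κ := s p₀.2 * conj (sco D B y p₀) with hκ
  have hκ0 : κ ≠ 0 := mul_ne_zero (hs p₀ hp₀) (fun h => hsc p₀ hp₀ ((conj_eq_zero _).1 h))
  have hsκ : ∀ p ∈ P, s p.2 = κ * sco D B y p := by
    intro p hp
    by_cases hpp : p = p₀
    · subst hpp
      rw [hκ]
      have h5 : ∀ a b : F4, b ≠ 0 → a = a * conj b * b := by decide
      exact h5 _ _ (hsc p hp)
    · have h6 := h2 p hp p₀ hp₀ hpp
      rw [hκ]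
      have h5 : ∀ a b c d : F4, b ≠ 0 → c ≠ 0 → d ≠ 0 → a * conj b = c * conj d →
          a = b * conj d * c := by decide
      exact h5 _ _ _ _ (hs p₀ hp₀) (hsc p hp) (hsc p₀ hp₀) h6
  refine ⟨κ, hκ0, ?_, hsκ⟩
  by_cases hcκ : c = κ
  · rw [← hcκ]
    exact hvc
  by_cases hD0 : ∃ b₀ ∈ B, D b₀ y ≠ 0
  swap
  · intro b hb
    have h5 : D b y = 0 := by
      by_contra h6
      exact hD0 ⟨b, hb, h6⟩
    rw [hvc b hb, h5, mul_zero, mul_zero]
  exfalso
  obtain ⟨b₀, hb₀, hb₀D⟩ := hD0
  -- the common factor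
  have h5 : ∀ p ∈ P, ∃ e : F4, e ≠ 0 ∧ ∀ b ∈ B, D b y = e * col D B p.1 b := by
    intro p hp
    have key1 : ∀ c κ x d l w : F4, κ ≠ 0 → c ≠ 0 → c ≠ κ → x ≠ 0 → (l = 0 ∨ l = 1) →
        c * d * conj (κ * x) + d * conj x = l * w →
        d = l * (x * conj (c * conj κ + 1)) * w := by
      intro c κ x d l w h1 h2 h3 h4 h5 h6
      have h7 : ∀ c κ x : F4, κ ≠ 0 → c ≠ 0 → c ≠ κ → x ≠ 0 →
          (c * conj (κ * x) + conj x) * (x * conj (c * conj κ + 1)) = 1 := by decide
      have h8 := h7 c κ x h1 h2 h3 h4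
      calc d = d * ((c * conj (κ * x) + conj x) * (x * conj (c * conj κ + 1))) := by
            rw [h8, mul_one]
        _ = (c * d * conj (κ * x) + d * conj x) * (x * conj (c * conj κ + 1)) := by ring
        _ = l * (x * conj (c * conj κ + 1)) * w := by rw [h6]; ring
    have hb : ∀ b ∈ B, D b y = l p * (sco D B y p * conj (c * conj κ + 1)) * col D B p.1 b := by
      intro b hb
      have h6 := h3 p hp b hb
      rw [hvc b hb, hsκ p hp] at h6
      exact key1 c κ _ _ _ _ hκ0 hc hcκ (hsc p hp) (hl p) h6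
    refine ⟨_, ?_, hb⟩
    intro h0
    apply hb₀D
    rw [hb b₀ hb₀, h0, zero_mul]
  obtain ⟨e₀, he₀, hcol₀⟩ := h5 p₀ hp₀
  have hPs : P = {p₀} := by
    rw [Finset.eq_singleton_iff_unique_mem]
    refine ⟨hp₀, fun q hq' => ?_⟩
    by_contra hne
    obtain ⟨e₁, he₁, hcol₁⟩ := h5 q hq'
    have h6 : q.1 ≠ p₀.1 := fun h => hne (st.inj1 q hq' p₀ hp₀ h)
    have h7 := hN.indep2 st.disj (st.mem q hq') (st.mem p₀ hp₀) h6 e₁ e₀ (fun b hb => by
      rw [← hcol₀ b hb, ← hcol₁ b hb]
      exact add_self _)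
    exact he₁ h7.1
  exact tri st hN hM hp₀ hPs e₀ hcol₀

end Pool.Agent.G4
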