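import Pool.Agent.G4.Learn

set_option autoImplicit false

/-!
# Module S6b: the coordinate of the new column at a second pair

PROOF of `learn2`: for `q ∈ L`, `f`, with `σ = sco p`, `A₀ = ev f y`, `t₁ = ev f p₁.1`,
`t₂ = ev f p.1`: the conditions for `U = {p}` and `U = {p₁, p}` say (`nm_add`, `nm (t₂ σ) =
nm (t₂ τ)`) `tr (A₀ * conj (t₂ (σ + τ))) = 0` and `tr ((A₀ + t₁) * conj (t₂ (σ + τ))) = 0` (if
`t₁ = 0` or `t₂ = 0` the wanted equation is trivial), so `tr (t₁ * conj (t₂ * (σ + τ))) = 0`, i.e.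
`qf (two (col p₁.1) ((σ + τ) col p.1)) f = 0` for all `q ∈ L`; `herm_rank_two` and `C3.indep2` give
`σ + τ = 0`.
-/

namespace Pool.Agent.G4

open F4 Finset

variable {D : ℕ → ℕ → F4} {B N : Finset ℕ} {P : Finset (ℕ × ℕ)} {y : ℕ}

private theorem key2 : ∀ A t₁ t₂ σ τ : F4, t₁ ≠ 0 → t₂ ≠ 0 → σ ≠ 0 → τ ≠ 0 →
    (A + t₂ * τ = 0 ↔ A + t₂ * σ = 0) → (A + (t₁ + t₂ * τ) = 0 ↔ A + (t₁ + t₂ * σ) = 0) →
    tr (t₁ * conj ((σ + τ) * t₂)) = 0 := by decide

theorem learn2 (st : Stp D B N P y) (hN : C3 D B N)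
    {L : Set (Finset ℕ × ℕ)} (hL : SpanH D B N L) {p₁ p : ℕ × ℕ} (hp₁ : p₁ ∈ P) (hp : p ∈ P)
    (hne : p ≠ p₁) (h₁ : sco D B y p₁ = 1) (h₂ : sco D B y p ≠ 0) (τ : F4) (hτ : τ ≠ 0)
    (h : ∀ q ∈ L, ∀ f, IsF D B N q.1 q.2 f → ∀ U ⊆ ({p₁, p} : Finset (ℕ × ℕ)),
      (∀ r ∈ U, ev D B f r.1 ≠ 0) →
      (kval D B (fun b => D b y) (fun b => if b = p₁.2 then 1 else τ) f U = 0 ↔
        ev D (nB B P) (lfU D B P U f) y = 0)) : τ = sco D B y p := by
  have hyB : y ∉ B := fun hy => st.ynew (Finset.mem_union_left _ hy)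
  have h21 : p.2 ≠ p₁.2 := fun e => hne (st.inj2 p hp p₁ hp₁ e)
  have h11 : p₁.1 ≠ p.1 := fun e => hne (st.inj1 p hp p₁ hp₁ e.symm)
  set σ := sco D B y p with hσ
  have hfun : ∀ q ∈ L, ∀ f, IsF D B N q.1 q.2 f →
      tr (ev D B f p₁.1 * conj ((σ + τ) * ev D B f p.1)) = 0 := by
    intro q hq f hf
    by_cases ht1 : ev D B f p₁.1 = 0
    · rw [ht1, zero_mul, tr_zero]
    by_cases ht2 : ev D B f p.1 = 0
    · rw [ht2, mul_zero, conj_zero, mul_zero, tr_zero]
    have hA : ∑ b ∈ B, f b * D b y = ev D B f y := (ev_not_mem D B f hyB).symm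
    refine key2 (ev D B f y) (ev D B f p₁.1) (ev D B f p.1) σ τ ht1 ht2 h₂ hτ ?_ ?_
    · have h3 := h q hq f hf {p} (by simp) (by
        intro r hr
        rw [Finset.mem_singleton] at hr
        rw [hr]; exact ht2)
      rw [ev_lfU_y st (by simpa using hp)] at h3
      unfold kval at h3
      simp only [Finset.sum_singleton, if_neg h21] at h3
      rw [hA] at h3
      exact h3
    · have h3 := h q hq f hf {p₁, p} (Finset.Subset.refl _) (by
        intro r hr
        rw [Finset.mem_insert, Finset.mem_singleton] at hr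
        rcases hr with rfl | rfl
        · exact ht1
        · exact ht2)
      have hsub : ({p₁, p} : Finset (ℕ × ℕ)) ⊆ P := by
        intro r hr
        rw [Finset.mem_insert, Finset.mem_singleton] at hr
        rcases hr with rfl | rfl
        · exact hp₁
        · exact hp
      rw [ev_lfU_y st hsub] at h3
      unfold kval at h3
      rw [Finset.sum_pair hne.symm, Finset.sum_pair hne.symm] at h3
      simp only [if_neg h21, if_true] at h3
      rw [hA, h₁, mul_one] at h3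
      exact h3
  by_contra hcon
  have hst : σ + τ ≠ 0 := by
    have key : ∀ x y : F4, x + y = 0 → y = x := by decide
    exact fun h0 => hcon (key _ _ h0)
  have hW := hL.2 (two (fun b => col D B p₁.1 b) fun b => (σ + τ) * col D B p.1 b)
    (herm_two _ _) (fun q hq f hf => by
      rw [qf_two]
      have h3 : ∑ b ∈ B, f b * ((σ + τ) * col D B p.1 b) = (σ + τ) * ev D B f p.1 := by
        unfold ev
        rw [Finset.mul_sum]
        exact Finset.sum_congr rfl fun b _ => by ring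
      rw [h3]
      exact hfun q hq f hf)
  obtain ⟨b, hb, hcb⟩ := hN.col_ne st.disj (st.mem p hp)
  obtain ⟨c, -, hc⟩ := herm_rank_two B _ _ ⟨b, hb, mul_ne_zero hst hcb⟩ hW
  have h4 := hN.indep2 st.disj (st.mem p₁ hp₁) (st.mem p hp) h11 1 (c * (σ + τ)) (fun i hi => by
    rw [hc i hi]
    have key : ∀ x : F4, x + x = 0 := by decide
    have h5 : c * (σ + τ) * col D B p.1 i = 1 * (c * ((σ + τ) * col D B p.1 i)) := by ring
    rw [h5]
    exact key _)
  exact one_ne_zero h4.1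

end Pool.Agent.G4
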