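import Pool.Agent.G4.Base

set_option autoImplicit false

/-!
# Module B6a: lifts of row vectors to the new rows

All are direct computations with `Stp.row`: for `n ∈ N`,
`ev (lft g t) n = ∑_{b ∈ B} (g b + ∑_{p.1 = b} t p.2) D b n + ∑_p t p.2 * D p.2 n`, and the terms
with `p.1 ∈ B` cancel (characteristic two), the terms with `p.1 = n` remain. The sum over
`nB B P = B ∪ P.image (p.2)` splits (`Stp.new`, `Stp.inj2`, `Finset.sum_union`, `sum_image`).
-/

namespace Pool.Agent.G4

open F4 Finset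

variable {D : ℕ → ℕ → F4} {B N : Finset ℕ} {P U : Finset (ℕ × ℕ)} {y : ℕ}

private theorem new_notB (h : Stp D B N P y) {p : ℕ × ℕ} (hp : p ∈ P) : p.2 ∉ B :=
  fun hb => h.new p hp (mem_union_left _ hb)

private theorem mem_nB (p : ℕ × ℕ) (hp : p ∈ P) : p.2 ∈ nB B P :=
  mem_union_right _ (mem_image_of_mem (fun p : ℕ × ℕ => p.2) hp)

private theorem sum_nB (h : Stp D B N P y) (F : ℕ → F4) :
    ∑ b ∈ nB B P, F b = ∑ b ∈ B, F b + ∑ p ∈ P, F p.2 := by
  have hd : Disjoint B (P.image fun p => p.2) := by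
    rw [Finset.disjoint_left]
    intro b hb hb'
    obtain ⟨p, hp, rfl⟩ := mem_image.1 hb'
    exact new_notB h hp hb
  rw [nB, sum_union hd, sum_image fun p hp q hq hpq => h.inj2 p hp q hq hpq]

private theorem sum_filt (t : ℕ → F4) (W : ℕ → F4) :
    ∑ b ∈ B, (∑ p ∈ P with p.1 = b, t p.2) * W b =
      ∑ p ∈ P, if p.1 ∈ B then t p.2 * W p.1 else 0 := by
  have h1 : ∀ b, (∑ p ∈ P with p.1 = b, t p.2) * W b =
      ∑ p ∈ P, if p.1 = b then t p.2 * W p.1 else 0 := by
    intro b
    rw [sum_filter, sum_mul]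
    refine sum_congr rfl fun p _ => ?_
    split_ifs with hb
    · rw [hb]
    · rw [zero_mul]
  simp only [h1]
  rw [sum_comm]
  refine sum_congr rfl fun p _ => ?_
  rw [sum_ite_eq]

theorem lft_surj (h : Stp D B N P y) (f : ℕ → F4) :
    ∃ g t : ℕ → F4, ∀ b ∈ nB B P, f b = lft B P g t b := by
  refine ⟨fun b => f b + ∑ p ∈ P with p.1 = b, f p.2, f, fun b _ => ?_⟩
  unfold lft
  split_ifs with hb
  · rw [add_assoc, F4.add_self, add_zero]
  · rfl

theorem lft_congr (h : Stp D B N P y) {g g' t t' : ℕ → F4} (hg : ∀ b ∈ B, g b = g' b)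
    (ht : ∀ p ∈ P, t p.2 = t' p.2) : ∀ b ∈ nB B P, lft B P g t b = lft B P g' t' b := by
  intro b hb
  unfold lft
  split_ifs with hbB
  · rw [hg b hbB]
    congr 1
    exact sum_congr rfl fun p hp => ht p (mem_filter.1 hp).1
  · rcases mem_union.1 hb with hb | hb
    · exact absurd hb hbB
    · obtain ⟨p, hp, rfl⟩ := mem_image.1 hb
      exact ht p hp

theorem lft_add (g g' t t' : ℕ → F4) (b : ℕ) :
    lft B P (fun i => g i + g' i) (fun i => t i + t' i) b = lft B P g t b + lft B P g' t' b := by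
  unfold lft
  split_ifs with hb
  · rw [sum_add_distrib]
    ring
  · rfl

theorem lft_smul (c : F4) (g t : ℕ → F4) (b : ℕ) :
    lft B P (fun i => c * g i) (fun i => c * t i) b = c * lft B P g t b := by
  unfold lft
  split_ifs with hb
  · rw [mul_add, mul_sum]
  · rfl

theorem ev_lft_old (h : Stp D B N P y) (g t : ℕ → F4) {e : ℕ} (he : e ∈ B ∪ N) :
    ev D (nB B P) (lft B P g t) e = ev D B g e + ∑ p ∈ P with p.1 = e, t p.2 := by
  by_cases heB : e ∈ B
  · rw [ev_mem D (nB B P) _ (mem_union_left _ heB), ev_mem D B _ heB, lft, if_pos heB]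
  · have heN : e ∈ N := (mem_union.1 he).resolve_left heB
    have heB' : e ∉ nB B P := by
      intro h1
      rcases mem_union.1 h1 with h1 | h1
      · exact heB h1
      · obtain ⟨p, hp, rfl⟩ := mem_image.1 h1
        exact h.new p hp he
    rw [ev_not_mem D (nB B P) _ heB', ev_not_mem D B _ heB, sum_nB h]
    have h1 : ∑ b ∈ B, lft B P g t b * D b e =
        ∑ b ∈ B, g b * D b e + ∑ p ∈ P, if p.1 ∈ B then t p.2 * D p.1 e else 0 := by
      rw [← sum_filt (B := B) t (fun b => D b e), ← sum_add_distrib]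
      refine sum_congr rfl fun b hb => ?_
      rw [lft, if_pos hb, add_mul]
    have h2 : ∑ p ∈ P, lft B P g t p.2 * D p.2 e =
        ∑ p ∈ P, t p.2 * (if p.1 ∈ B then D p.1 e else if e = p.1 then 1 else 0) := by
      refine sum_congr rfl fun p hp => ?_
      rw [lft, if_neg (new_notB h hp), h.row p hp e heN]
    rw [h1, h2, add_assoc, ← sum_add_distrib, sum_filter]
    congr 1
    refine sum_congr rfl fun p _ => ?_
    by_cases hpB : p.1 ∈ B
    · have h3 : p.1 ≠ e := fun h3 => heB (h3 ▸ hpB)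
      rw [if_pos hpB, if_pos hpB, F4.add_self, if_neg h3]
    · rw [if_neg hpB, if_neg hpB, zero_add]
      by_cases hpe : p.1 = e
      · rw [if_pos hpe, if_pos hpe.symm, mul_one]
      · rw [if_neg hpe, if_neg (fun h3 => hpe h3.symm), mul_zero]

theorem ev_lft_new (h : Stp D B N P y) (g t : ℕ → F4) {p : ℕ × ℕ} (hp : p ∈ P) :
    ev D (nB B P) (lft B P g t) p.2 = t p.2 := by
  rw [ev_mem D (nB B P) _ (mem_nB p hp), lft, if_neg (new_notB h hp)]

theorem ev_lft_y (h : Stp D B N P y) (g t : ℕ → F4) :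
    ev D (nB B P) (lft B P g t) y = ev D B g y + ∑ p ∈ P, t p.2 * sco D B y p := by
  have hyB : y ∉ B := fun h1 => h.ynew (mem_union_left _ h1)
  have hyB' : y ∉ nB B P := by
    intro h1
    rcases mem_union.1 h1 with h1 | h1
    · exact hyB h1
    · obtain ⟨p, hp, h2⟩ := mem_image.1 h1
      exact h.yne p hp h2.symm
  rw [ev_not_mem D (nB B P) _ hyB', ev_not_mem D B _ hyB, sum_nB h]
  have h1 : ∑ b ∈ B, lft B P g t b * D b y =
      ∑ b ∈ B, g b * D b y + ∑ p ∈ P, if p.1 ∈ B then t p.2 * D p.1 y else 0 := by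
    rw [← sum_filt (B := B) t (fun b => D b y), ← sum_add_distrib]
    refine sum_congr rfl fun b hb => ?_
    rw [lft, if_pos hb, add_mul]
  have h2 : ∑ p ∈ P, lft B P g t p.2 * D p.2 y = ∑ p ∈ P, t p.2 * D p.2 y := by
    refine sum_congr rfl fun p hp => ?_
    rw [lft, if_neg (new_notB h hp)]
  rw [h1, h2, add_assoc, ← sum_add_distrib]
  congr 1
  refine sum_congr rfl fun p _ => ?_
  rw [sco]
  split_ifs with hpB
  · ring
  · ring

/-- values of the swapped coordinates -/
theorem tU_mem (h : Stp D B N P y) (hU : U ⊆ P) (f : ℕ → F4) {p : ℕ × ℕ} (hp : p ∈ P) :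
    tU D B U f p.2 = if p ∈ U then ev D B f p.1 else 0 := by
  unfold tU
  split_ifs with hpU
  · have h1 : (U.filter fun q => q.2 = p.2) = {p} := by
      ext q
      rw [mem_filter, mem_singleton]
      constructor
      · rintro ⟨hq, hqp⟩
        exact h.inj2 q (hU hq) p hp hqp
      · rintro rfl
        exact ⟨hpU, rfl⟩
    rw [h1, sum_singleton]
  · refine sum_eq_zero fun q hq => ?_
    obtain ⟨hq, hqp⟩ := mem_filter.1 hq
    exact absurd (h.inj2 q (hU hq) p hp hqp ▸ hq) hpU

theorem ev_lfU_y (h : Stp D B N P y) (hU : U ⊆ P) (f : ℕ → F4) :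
    ev D (nB B P) (lfU D B P U f) y = ev D B f y + ∑ p ∈ U, ev D B f p.1 * sco D B y p := by
  rw [lfU, ev_lft_y h]
  congr 1
  rw [← sum_subset hU (f := fun p => tU D B U f p.2 * sco D B y p)]
  · refine sum_congr rfl fun p hp => ?_
    rw [tU_mem h hU f (hU hp), if_pos hp]
  · intro p hp hpU
    rw [tU_mem h hU f hp, if_neg hpU, zero_mul]

/-- dropping pairs at which the value is zero does not change the lift -/
theorem lfU_filter (h : Stp D B N P y) (hU : U ⊆ P) (f : ℕ → F4) :
    ∀ b ∈ nB B P, lfU D B P (U.filter fun p => ev D B f p.1 ≠ 0) f b = lfU D B P U f b := by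
  refine lft_congr h (fun b _ => rfl) fun p hp => ?_
  rw [tU_mem h ((filter_subset _ _).trans hU) f hp, tU_mem h hU f hp]
  by_cases hpU : p ∈ U
  · by_cases h0 : ev D B f p.1 = 0
    · rw [if_pos hpU, h0, if_neg]
      intro h1
      exact (mem_filter.1 h1).2 h0
    · rw [if_pos hpU, if_pos (mem_filter.2 ⟨hpU, h0⟩)]
  · rw [if_neg hpU, if_neg fun h1 => hpU (mem_filter.1 h1).1]

end Pool.Agent.G4
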