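import Pool.Agent.G4.Lift

set_option autoImplicit false

/-!
# Module B6c: the cocircuit of a pair, bases `T ∪ {p.2}`

* `pair_isF`: let `e_p = lft 0 [p.2]`; by `ev_lft_old`, `ev_lft_new` its value at an element of
  `nB ∪ N` is one at `p.1` and at `p.2` (if `p.1 = p.1'` for another pair `p'` then `p = p'`) and zero
  at the other elements. So it has value one at `p.2` and zero at the other elements of `T'`.
* `base_union`: the cardinality is clear; let `f` on `nB` vanish on `T ∪ {p.2}`; `lft_surj`:
  `f = lft g t`, `t p.2 = 0` (`ev_lft_new`), so `ev g` vanishes on `T`, `g = 0` on `B`, `f = 0`.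
* `isF_union`: `ev_lft_old`, `ev_lft_new` with `t = 0`.
-/

namespace Pool.Agent.G4

open F4 Finset

variable {D : ℕ → ℕ → F4} {B N : Finset ℕ} {P U : Finset (ℕ × ℕ)} {y : ℕ}

variable {T : Finset ℕ} {z : ℕ} {f : ℕ → F4}

/-- the cocircuit of a pair in the matroid without `y` -/
theorem pair_isF (h : Stp D B N P y) {p : ℕ × ℕ} (hp : p ∈ P) {T' : Finset ℕ}
    (hT' : IsBase D (nB B P) (nN N y) T') (hsub : T' ⊆ nB B P ∪ N) (h1 : p.1 ∉ T')
    (h2 : p.2 ∈ T') :
    IsF D (nB B P) (nN N y) T' p.2
      (lft B P (fun _ => 0) fun b => if b = p.2 then 1 else 0) := by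
  refine ⟨hT', h2, fun t ht => ?_⟩
  have hnew := h.new p hp
  by_cases htE : t ∈ B ∪ N
  · have htp : t ≠ p.2 := fun h3 => hnew (h3 ▸ htE)
    rw [ev_lft_old h _ _ htE, ev_zero, if_neg htp, zero_add]
    refine Finset.sum_eq_zero fun q hq => ?_
    rw [Finset.mem_filter] at hq
    rw [if_neg]
    intro h3
    have h4 := h.inj2 q hq.1 p hp h3
    subst h4
    exact h1 (hq.2 ▸ ht)
  · have h3 := hsub ht
    have h4 : t ∈ P.image fun p => p.2 := by
      rcases Finset.mem_union.mp h3 with h5 | h5
      · rcases Finset.mem_union.mp h5 with h6 | h6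
        · exact absurd (Finset.mem_union_left _ h6) htE
        · exact h6
      · exact absurd (Finset.mem_union_right _ h5) htE
    obtain ⟨q, hq, rfl⟩ := Finset.mem_image.mp h4
    rw [ev_lft_new h _ _ hq]

/-- the basis `T ∪ {p.2}` -/
theorem base_union (h : Stp D B N P y) (hT : IsBase D B N T) :
    IsBase D (nB B P) (nN N y) (T ∪ P.image fun p => p.2) := by
  obtain ⟨hT1, hT2, hT3⟩ := hT
  have hdT : Disjoint T (P.image fun p => p.2) := by
    rw [Finset.disjoint_left]
    intro e he he2
    obtain ⟨q, hq, rfl⟩ := Finset.mem_image.mp he2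
    exact h.new q hq (hT1 he)
  have hdB : Disjoint B (P.image fun p => p.2) := by
    rw [Finset.disjoint_left]
    intro e he he2
    obtain ⟨q, hq, rfl⟩ := Finset.mem_image.mp he2
    exact h.new q hq (Finset.mem_union_left _ he)
  refine ⟨?_, ?_, ?_⟩
  · intro e he
    rcases Finset.mem_union.mp he with he | he
    · rcases Finset.mem_union.mp (hT1 he) with h1 | h1
      · exact Finset.mem_union_left _ (Finset.mem_union_left _ h1)
      · exact Finset.mem_union_right _ (Finset.mem_insert_of_mem h1)
    · exact Finset.mem_union_left _ (Finset.mem_union_right _ he)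
  · rw [nB, Finset.card_union_of_disjoint hdT, Finset.card_union_of_disjoint hdB, hT2]
  · intro f hf b hb
    obtain ⟨g, t, hgt⟩ := lft_surj h f
    have hev : ∀ e, ev D (nB B P) f e = ev D (nB B P) (lft B P g t) e := fun e => ev_congr _ _ hgt e
    have ht0 : ∀ p ∈ P, t p.2 = 0 := by
      intro p hp
      have h1 := hf p.2 (Finset.mem_union_right _ (Finset.mem_image_of_mem _ hp))
      rw [hev, ev_lft_new h _ _ hp] at h1
      exact h1
    have hg0 : ∀ b ∈ B, g b = 0 := by
      refine hT3 g fun e he => ?_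
      have h1 := hf e (Finset.mem_union_left _ he)
      rw [hev, ev_lft_old h _ _ (hT1 he)] at h1
      have h2 : ∑ p ∈ P with p.1 = e, t p.2 = 0 :=
        Finset.sum_eq_zero fun q hq => ht0 q (Finset.mem_filter.mp hq).1
      rw [h2, add_zero] at h1
      exact h1
    rw [hgt b hb, lft]
    by_cases hbB : b ∈ B
    · rw [if_pos hbB, hg0 b hbB, zero_add]
      exact Finset.sum_eq_zero fun q hq => ht0 q (Finset.mem_filter.mp hq).1
    · rw [if_neg hbB]
      rcases Finset.mem_union.mp hb with h1 | h1
      · exact absurd h1 hbB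
      · obtain ⟨q, hq, rfl⟩ := Finset.mem_image.mp h1
        exact ht0 q hq

/-- its cocircuit vectors at the old elements -/
theorem isF_union (h : Stp D B N P y) (hf : IsF D B N T z f) :
    IsF D (nB B P) (nN N y) (T ∪ P.image fun p => p.2) z (lft B P f fun _ => 0) := by
  refine ⟨base_union h hf.1, Finset.mem_union_left _ hf.2.1, fun t ht => ?_⟩
  rcases Finset.mem_union.mp ht with h1 | h1
  · rw [ev_lft_old h _ _ (hf.1.1 h1), Finset.sum_const_zero, add_zero]
    exact hf.2.2 t h1
  · obtain ⟨q, hq, rfl⟩ := Finset.mem_image.mp h1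
    rw [ev_lft_new h _ _ hq, if_neg]
    intro h2
    exact h.new q hq (h2 ▸ hf.1.1 hf.2.1)

end Pool.Agent.G4
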