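import Pool.Agent.G4.Alg

set_option autoImplicit false

/-!
# Module N1: the list of shortest paths

`Walk H q`: `q` is a nonempty list of consecutively adjacent vertices. A walk `q` has the ends
`ends q = (first vertex, last vertex)`; `extend H p` are the walks `w :: p`, `w` adjacent to the
first vertex of `p`.

PROOF of `paths_inv` by induction on `i` (number of rounds), `l_i = (pathStep H)^[i] (S.map [·])`:
 (a) every `p ∈ l_i` is a walk, `p.length ≤ i + 1`, its last vertex is in `S`;
 (b) for every walk `q` with `q.length ≤ i + 1` and last vertex in `S` there is `p ∈ l_i` with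
 `ends p = ends q` and `p.length ≤ q.length`;
 (c) different elements of the list have different ends (`Pairwise`; uses `S.Nodup` for `i = 0`);
 (d) the lengths are nondecreasing.
Step: `pathStep H l = (l.flatMap (extend H)).foldl insP l`: `insP` appends `p` only if no element has
the same ends. General facts on the fold `m.foldl insP l`: it is `l ++ l'` with `l' ⊆ m`, the elements
of `l'` have ends different from each other and from those of `l`, and every `p ∈ m` has its ends
among the ends of the result. (b) for `i + 1` and `q.length = i + 2`: `q = w :: q'`, by (b) for `q'`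
there is `p' ∈ l_i` with the same ends and `p'.length ≤ i + 1`; `w :: p'` is in the flatMap, with
`ends (w :: p') = ends q`; the element of the result with these ends is in `l_i` (length `≤ i + 1`) or
in the flatMap (length `≤ i + 2`). (d): an inserted `p` has `p.length = i + 2`: otherwise
`p.length ≤ i + 1` and by (b) its ends would occur in `l_i`.
`paths_spec`: `i = S.length`. The last statement: let `q` be a walk with all vertices in `S`; a walk
with the same ends and minimal length has no repeated vertex, so its length is at most `S.length`.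
-/

namespace Pool.Agent.G4

open N487b59b3

/-- a walk in the graph with the edges `H` -/
def Walk (H : List (ℕ × ℕ)) (q : List ℕ) : Prop :=
  q ≠ [] ∧ q.IsChain fun a b => (a, b) ∈ H ∨ (b, a) ∈ H

private theorem isChain_cons' {H : List (ℕ × ℕ)} {w : ℕ} {q : List ℕ} (h : Walk H (w :: q))
    (hq : q ≠ []) : ((w, q.headD 0) ∈ H ∨ (q.headD 0, w) ∈ H) ∧ Walk H q := by
  obtain ⟨-, h2⟩ := h
  cases q with
  | nil => exact absurd rfl hq
  | cons a q =>
    rw [List.isChain_cons_cons] at h2
    exact ⟨h2.1, hq, h2.2⟩

private theorem walk_cons {H : List (ℕ × ℕ)} {w : ℕ} {q : List ℕ} (h : Walk H q)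
    (ha : (w, q.headD 0) ∈ H ∨ (q.headD 0, w) ∈ H) : Walk H (w :: q) := by
  obtain ⟨h1, h2⟩ := h
  cases q with
  | nil => exact absurd rfl h1
  | cons a q =>
    refine ⟨by simp, ?_⟩
    rw [List.isChain_cons_cons]
    exact ⟨ha, h2⟩

private theorem ends_cons {w : ℕ} {q : List ℕ} (hq : q ≠ []) : ends (w :: q) = (w, (ends q).2) := by
  unfold ends
  simp only [List.headD_cons, List.reverse_cons, Prod.mk.injEq, true_and]
  have : q.reverse ≠ [] := by simpa using hq
  cases h : q.reverse with
  | nil => exact absurd h this
  | cons a t => simp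

private theorem ends_snd {q : List ℕ} (hq : q ≠ []) : (ends q).2 = q.getLast hq := by
  have h1 : q.reverse ≠ [] := by simpa using hq
  have : q.getLast hq = q.reverse.head h1 := by
    simp
  rw [this]
  have key : ∀ (r : List ℕ) (hr : r ≠ []), r.headD 0 = r.head hr := by
    intro r hr
    cases r with
    | nil => exact absurd rfl hr
    | cons a t => rfl
  exact key _ h1

private theorem pw_ne {l : List (List ℕ)} (h : l.Pairwise fun p q => ends p ≠ ends q) :
    ∀ {x y : List ℕ}, x ∈ l → y ∈ l → x ≠ y → ends x ≠ ends y := by
  induction l with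
  | nil =>
    intro x y hx
    simp at hx
  | cons a l ih =>
    intro x y hx hy hne
    rw [List.pairwise_cons] at h
    rcases List.mem_cons.1 hx with hx1 | hx1
    · rcases List.mem_cons.1 hy with hy1 | hy1
      · exact absurd (hx1.trans hy1.symm) hne
      · rw [hx1]
        exact h.1 y hy1
    · rcases List.mem_cons.1 hy with hy1 | hy1
      · rw [hy1]
        exact (h.1 x hx1).symm
      · exact ih h.2 hx1 hy1 hne

private theorem mem_extend {H : List (ℕ × ℕ)} {p x : List ℕ} :
    x ∈ extend H p ↔ ∃ w, x = w :: p ∧ ((w, p.headD 0) ∈ H ∨ (p.headD 0, w) ∈ H) := by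
  unfold extend
  rw [List.mem_flatMap]
  constructor
  · rintro ⟨e, he, hx⟩
    rw [List.mem_append] at hx
    rcases hx with hx | hx
    · split_ifs at hx with h
      · rw [List.mem_singleton] at hx
        refine ⟨e.2, hx, Or.inr ?_⟩
        rw [h]
        exact he
      · simp at hx
    · split_ifs at hx with h
      · rw [List.mem_singleton] at hx
        refine ⟨e.1, hx, Or.inl ?_⟩
        rw [h]
        exact he
      · simp at hx
  · rintro ⟨w, hx, h | h⟩
    · refine ⟨_, h, ?_⟩
      rw [List.mem_append]
      right
      simp [hx]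
    · refine ⟨_, h, ?_⟩
      rw [List.mem_append]
      left
      simp [hx]

private theorem fold_insP (m : List (List ℕ)) : ∀ l : List (List ℕ),
    ∃ l', m.foldl insP l = l ++ l' ∧ (∀ p ∈ l', p ∈ m) ∧
      l'.Pairwise (fun p q => ends p ≠ ends q) ∧ (∀ p ∈ l, ∀ q ∈ l', ends p ≠ ends q) ∧
      ∀ p ∈ m, ∃ q ∈ l ++ l', ends q = ends p := by
  induction m with
  | nil =>
    intro l
    exact ⟨[], by simp⟩
  | cons a m ih =>
    intro l
    rw [List.foldl_cons]
    by_cases h : (l.any fun q => decide (ends q = ends a)) = true
    · have h1 : insP l a = l := by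
        unfold insP
        rw [if_pos h]
      rw [h1]
      obtain ⟨l', e1, e2, e3, e4, e5⟩ := ih l
      refine ⟨l', e1, fun p hp => List.mem_cons_of_mem _ (e2 p hp), e3, e4, ?_⟩
      intro p hp
      rcases List.mem_cons.1 hp with rfl | hp
      · rw [List.any_eq_true] at h
        obtain ⟨q, hq, hq2⟩ := h
        exact ⟨q, List.mem_append_left _ hq, by simpa using hq2⟩
      · exact e5 p hp
    · have h1 : insP l a = l ++ [a] := by
        unfold insP
        rw [if_neg h]
      rw [h1]
      obtain ⟨l', e1, e2, e3, e4, e5⟩ := ih (l ++ [a])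
      refine ⟨a :: l', by rw [e1]; simp, ?_, ?_, ?_, ?_⟩
      · intro p hp
        rcases List.mem_cons.1 hp with rfl | hp
        · exact List.mem_cons_self
        · exact List.mem_cons_of_mem _ (e2 p hp)
      · rw [List.pairwise_cons]
        exact ⟨fun q hq => e4 a (by simp) q hq, e3⟩
      · intro p hp q hq
        rcases List.mem_cons.1 hq with rfl | hq
        · intro hc
          apply h
          rw [List.any_eq_true]
          exact ⟨p, hp, by simpa using hc⟩
        · exact e4 p (List.mem_append_left _ hp) q hq
      · intro p hp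
        rcases List.mem_cons.1 hp with rfl | hp
        · exact ⟨p, by simp, rfl⟩
        · obtain ⟨q, hq, hq2⟩ := e5 p hp
          refine ⟨q, ?_, hq2⟩
          simpa using hq

theorem paths_inv (H : List (ℕ × ℕ)) (S : List ℕ) (hS : S.Nodup) (i : ℕ) :
    (∀ p ∈ (pathStep H)^[i] (S.map fun v => [v]), Walk H p ∧ p.length ≤ i + 1 ∧ (ends p).2 ∈ S) ∧
    (∀ q, Walk H q → q.length ≤ i + 1 → (ends q).2 ∈ S →
      ∃ p ∈ (pathStep H)^[i] (S.map fun v => [v]), ends p = ends q ∧ p.length ≤ q.length) ∧
    ((pathStep H)^[i] (S.map fun v => [v])).Pairwise (fun p q => ends p ≠ ends q) ∧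
    ((pathStep H)^[i] (S.map fun v => [v])).Pairwise (fun p q => p.length ≤ q.length) := by
  induction i with
  | zero =>
    simp only [Function.iterate_zero, id_eq, Nat.zero_add]
    refine ⟨?_, ?_, ?_, ?_⟩
    · intro p hp
      rw [List.mem_map] at hp
      obtain ⟨v, hv, rfl⟩ := hp
      exact ⟨⟨by simp, List.isChain_singleton _⟩, by simp, by simpa [ends] using hv⟩
    · intro q hq hl hS2
      obtain ⟨h1, -⟩ := hq
      obtain ⟨v, rfl⟩ : ∃ v, q = [v] := by
        cases q with
        | nil => exact absurd rfl h1
        | cons a t =>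
          cases t with
          | nil => exact ⟨a, rfl⟩
          | cons b t => simp at hl
      refine ⟨[v], ?_, rfl, le_refl _⟩
      rw [List.mem_map]
      exact ⟨v, by simpa [ends] using hS2, rfl⟩
    · rw [List.pairwise_map]
      refine hS.imp ?_
      intro a b hab h
      apply hab
      simpa [ends] using h
    · rw [List.pairwise_map]
      rw [List.pairwise_iff_getElem]
      intro a b ha hb hab
      simp
  | succ i ih =>
    rw [Function.iterate_succ_apply']
    obtain ⟨a1, a2, a3, a4⟩ := ih
    set l := (pathStep H)^[i] (S.map fun v => [v]) with hl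
    have hstep : pathStep H l = (l.flatMap fun p => extend H p).foldl insP l := rfl
    obtain ⟨l', e1, e2, e3, e4, e5⟩ := fold_insP (l.flatMap fun p => extend H p) l
    rw [hstep, e1]
    have hnew : ∀ x ∈ l', ∃ w, ∃ p ∈ l, x = w :: p ∧ ((w, p.headD 0) ∈ H ∨ (p.headD 0, w) ∈ H) := by
      intro x hx
      have := e2 x hx
      rw [List.mem_flatMap] at this
      obtain ⟨p, hp, hx2⟩ := this
      obtain ⟨w, hw, hw2⟩ := mem_extend.1 hx2
      exact ⟨w, p, hp, hw, hw2⟩
    have hnew2 : ∀ x ∈ l', Walk H x ∧ x.length ≤ i + 2 ∧ (ends x).2 ∈ S := by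
      intro x hx
      obtain ⟨w, p, hp, rfl, hw⟩ := hnew x hx
      obtain ⟨b1, b2, b3⟩ := a1 p hp
      refine ⟨walk_cons b1 hw, by simp only [List.length_cons]; omega, ?_⟩
      rw [ends_cons b1.1]
      exact b3
    have hnew3 : ∀ x ∈ l', x.length = i + 2 := by
      intro x hx
      obtain ⟨b1, b2, b3⟩ := hnew2 x hx
      by_contra hc
      obtain ⟨p, hp, hp2, -⟩ := a2 x b1 (by omega) b3
      exact e4 p hp x hx hp2
    refine ⟨?_, ?_, ?_, ?_⟩
    · intro p hp
      rcases List.mem_append.1 hp with hp | hp
      · obtain ⟨b1, b2, b3⟩ := a1 p hp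
        exact ⟨b1, by omega, b3⟩
      · obtain ⟨b1, b2, b3⟩ := hnew2 p hp
        exact ⟨b1, by omega, b3⟩
    · intro q hq hlen hqS
      by_cases hc : q.length ≤ i + 1
      · obtain ⟨p, hp, hp2, hp3⟩ := a2 q hq hc hqS
        exact ⟨p, List.mem_append_left _ hp, hp2, hp3⟩
      · cases q with
        | nil => exact absurd rfl hq.1
        | cons w q =>
          have hq0 : q ≠ [] := by
            rintro rfl
            simp at hc
          obtain ⟨c1, c2⟩ := isChain_cons' hq hq0
          simp only [List.length_cons] at hlen hc
          rw [ends_cons hq0] at hqS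
          obtain ⟨p, hp, hp2, hp3⟩ := a2 q c2 (by omega) hqS
          have hpn := (a1 p hp).1.1
          have hhd : p.headD 0 = q.headD 0 := congrArg Prod.fst hp2
          obtain ⟨x, hx, hx2⟩ := e5 (w :: p) (by
            rw [List.mem_flatMap]
            exact ⟨p, hp, mem_extend.2 ⟨w, rfl, by rw [hhd]; exact c1⟩⟩)
          refine ⟨x, hx, ?_, ?_⟩
          · rw [hx2, ends_cons hpn, ends_cons hq0, hp2]
          · simp only [List.length_cons]
            rcases List.mem_append.1 hx with hx | hx
            · have := (a1 x hx).2.1
              omega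
            · have := (hnew2 x hx).2.1
              omega
    · rw [List.pairwise_append]
      exact ⟨a3, e3, e4⟩
    · rw [List.pairwise_append]
      refine ⟨a4, ?_, ?_⟩
      · rw [List.pairwise_iff_getElem]
        intro a b ha hb hab
        rw [hnew3 _ (List.getElem_mem ha), hnew3 _ (List.getElem_mem hb)]
      · intro x hx y hy
        have := (a1 x hx).2.1
        rw [hnew3 y hy]
        omega

private theorem walk_nodup_aux (H : List (ℕ × ℕ)) (q : List ℕ) : Walk H q →
    ∃ p, Walk H p ∧ p.Nodup ∧ ends p = ends q ∧ p ⊆ q ∧ p.length ≤ q.length ∧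
      (¬ q.Nodup → p.length < q.length) ∧ (q.Nodup → p = q) := by
  induction q with
  | nil =>
    intro h
    exact absurd rfl h.1
  | cons w q ih =>
    intro h
    by_cases hq : q = []
    · subst hq
      exact ⟨[w], h, by simp, rfl, by simp, by simp, by simp, by simp⟩
    · obtain ⟨c1, c2⟩ := isChain_cons' h hq
      obtain ⟨p, p1, p2, p3, p4, p5, p6, p7⟩ := ih c2
      by_cases hw : w ∈ p
      · obtain ⟨s, t, hst⟩ := List.append_of_mem hw
        have hqn : ¬ (w :: q).Nodup := by
          rw [List.nodup_cons]
          rintro ⟨hc, -⟩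
          exact hc (p4 hw)
        have hlen : (w :: t).length ≤ p.length := by
          rw [hst]
          simp
        have hwalk : Walk H (w :: t) := by
          refine ⟨by simp, ?_⟩
          have := p1.2
          rw [hst] at this
          exact this.right_of_append
        refine ⟨w :: t, hwalk, ?_, ?_, ?_, ?_, ?_, ?_⟩
        · rw [hst] at p2
          exact p2.of_append_right
        · rw [ends_cons hq, ← p3]
          have e1 : (ends (w :: t)).2 = (ends p).2 := by
            rw [ends_snd (by simp), ends_snd p1.1]
            simp only [hst]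
            rw [List.getLast_append_of_ne_nil]
          rw [← e1]
          rfl
        · intro x hx
          rcases List.mem_cons.1 hx with rfl | hx
          · exact List.mem_cons_self
          · apply List.mem_cons_of_mem
            apply p4
            rw [hst]
            simp [hx]
        · simp only [List.length_cons] at hlen ⊢
          omega
        · intro _
          simp only [List.length_cons] at hlen ⊢
          omega
        · intro hc
          exact absurd hc hqn
      · have hhd : p.headD 0 = q.headD 0 := congrArg Prod.fst p3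
        refine ⟨w :: p, walk_cons p1 (by rw [hhd]; exact c1), ?_, ?_, ?_, ?_, ?_, ?_⟩
        · rw [List.nodup_cons]
          exact ⟨hw, p2⟩
        · rw [ends_cons p1.1, ends_cons hq, p3]
        · intro x hx
          rcases List.mem_cons.1 hx with rfl | hx
          · exact List.mem_cons_self
          · exact List.mem_cons_of_mem _ (p4 hx)
        · simp only [List.length_cons]
          omega
        · intro hc
          simp only [List.length_cons]
          by_cases hn : q.Nodup
          · exfalso
            apply hc
            rw [List.nodup_cons]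
            have := p7 hn
            rw [← this]
            exact ⟨hw, p2⟩
          · have := p6 hn
            omega
        · intro hc
          rw [List.nodup_cons] at hc
          rw [p7 hc.2]

/-- a walk can be replaced by one without repeated vertices -/
theorem walk_nodup (H : List (ℕ × ℕ)) (q : List ℕ) (h : Walk H q) :
    ∃ p, Walk H p ∧ p.Nodup ∧ ends p = ends q ∧ p ⊆ q ∧ p.length ≤ q.length ∧
      (¬ q.Nodup → p.length < q.length) := by
  obtain ⟨p, p1, p2, p3, p4, p5, p6, -⟩ := walk_nodup_aux H q h
  exact ⟨p, p1, p2, p3, p4, p5, p6⟩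

theorem paths_spec (H : List (ℕ × ℕ)) (S : List ℕ) (hS : S.Nodup) :
    (∀ p ∈ paths H S, Walk H p ∧ (ends p).2 ∈ S ∧
      ∀ q, Walk H q → ends q = ends p → p.length ≤ q.length) ∧
    (paths H S).Pairwise (fun p q => p.length ≤ q.length) ∧
    (∀ q, Walk H q → (∀ a ∈ q, a ∈ S) → ∃ p ∈ paths H S, ends p = ends q) := by
  obtain ⟨a1, a2, a3, a4⟩ := paths_inv H S hS S.length
  change (∀ p ∈ paths H S, _) at a1
  refine ⟨?_, a4, ?_⟩
  · intro p hp
    obtain ⟨b1, b2, b3⟩ := a1 p hp
    refine ⟨b1, b3, ?_⟩
    intro q hq he
    by_cases hc : q.length ≤ S.length + 1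
    · obtain ⟨x, hx, hx2, hx3⟩ := a2 q hq hc (by rw [he]; exact b3)
      have : x = p := by
        by_contra hne
        exact pw_ne a3 hx hp hne (hx2.trans he)
      rw [← this]
      exact hx3
    · omega
  · intro q hq hqS
    obtain ⟨p, p1, p2, p3, p4, p5, -⟩ := walk_nodup H q hq
    have hps : ∀ a ∈ p, a ∈ S := fun a ha => hqS a (p4 ha)
    have hlen : p.length ≤ S.length := (p2.subperm hps).length_le
    obtain ⟨x, hx, hx2, -⟩ := a2 p p1 (by omega) (by
      rw [ends_snd p1.1]
      exact hps _ (List.getLast_mem _))
    exact ⟨x, hx, hx2.trans p3⟩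

end Pool.Agent.G4
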