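import Pool.Agent.G4.N1
import Pool.Agent.G4.N4

set_option autoImplicit false

/-!
# Module N2: the chosen path closes a chordless cycle

`G` is the list of the pairs `(b, n)`, `b ∈ B` (row), `n ∈ N` (column), `D b n ≠ 0`; `H ⊆ G`; `S` lists
`B ∪ N`. PROOF of `head_cyc`. Let `P` be the first element of the filtered list, `ends P = (b, n)`, an
edge of `G` not in `H`. `P` is a walk in `H`, a shortest one between its ends (`paths_spec`), and by
the order of `paths` its length is minimal among all walks in `H` (with vertices in `S`) whose ends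
(in the order row, column) are an edge of `G \ H`.
* `P.Nodup`: `walk_nodup`.
* Length: the walk alternates between rows and columns (edges of `H` join a row and a column; `B` and
`N` are disjoint), it starts with the row `b` and ends with the column `n`, so the length is even;
length two would mean `(b, n) ∈ H`. So `≥ 4`.
* `adj`: edges of `H ⊆ G`. `close`: `(b, n) ∈ G`.
* `chord`: let `i < j`, `P i`, `P j` adjacent in `G` by the edge `f`. If `f ∈ H` then
`P.take (i + 1) ++ P.drop j` is a walk in `H` with the same ends, so `j = i + 1`. If `f ∉ H` the part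
`P i, ..., P j` of the walk (or its reverse, if `P i` is the column) is a walk in `H` with ends `f`; so
its length `j - i + 1` is at least `P.length` by the minimality, i.e. `i = 0` and `j = P.length - 1`.
(`ends p ∈ rest` for the list `rest = G.filter (· ∉ H)`.)
-/

namespace Pool.Agent.G4

open N487b59b3 F4

/-- `G` lists the nonzero entries -/
def IsG (D : ℕ → ℕ → F4) (B N : Finset ℕ) (G : List (ℕ × ℕ)) : Prop :=
  ∀ p : ℕ × ℕ, p ∈ G ↔ p.1 ∈ B ∧ p.2 ∈ N ∧ D p.1 p.2 ≠ 0

private theorem headD_eq (q : List ℕ) : q.headD 0 = q.getD 0 0 := by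
  cases q with
  | nil => rfl
  | cons a t => rfl

private theorem ends_eq (q : List ℕ) (h : q ≠ []) : ends q = (q.getD 0 0, q.getD (q.length - 1) 0) := by
  have hpos : 0 < q.length := List.length_pos_iff.2 h
  have h2 : q.reverse.headD 0 = q.getD (q.length - 1) 0 := by
    rw [headD_eq, List.getD_eq_getElem _ _ (by simpa using hpos), List.getElem_reverse,
      List.getD_eq_getElem _ _ (by omega)]
    simp
  rw [ends, headD_eq, h2]

private theorem walk_adj {H : List (ℕ × ℕ)} {q : List ℕ} (h : Walk H q) {i : ℕ} (hi : i + 1 < q.length) :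
    (q.getD i 0, q.getD (i + 1) 0) ∈ H ∨ (q.getD (i + 1) 0, q.getD i 0) ∈ H := by
  have h1 := List.isChain_iff_getElem.1 h.2 i hi
  have e1 : q.getD i 0 = q[i] := List.getD_eq_getElem _ _ (by omega)
  have e2 : q.getD (i + 1) 0 = q[i + 1] := List.getD_eq_getElem _ _ hi
  rw [e1, e2]
  exact h1

/-- the list `f 0, ..., f k` -/
private theorem walk_map {H : List (ℕ × ℕ)} (f : ℕ → ℕ) (k : ℕ)
    (h : ∀ t, t < k → (f t, f (t + 1)) ∈ H ∨ (f (t + 1), f t) ∈ H) :
    Walk H ((List.range (k + 1)).map f) ∧ ends ((List.range (k + 1)).map f) = (f 0, f k) ∧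
      ((List.range (k + 1)).map f).length = k + 1 := by
  have hl : ((List.range (k + 1)).map f).length = k + 1 := by simp
  have hne : (List.range (k + 1)).map f ≠ [] := by
    intro h0
    rw [h0] at hl
    simp at hl
  refine ⟨⟨hne, ?_⟩, ?_, hl⟩
  · rw [List.isChain_map, List.isChain_range_succ]
    intro m hm
    exact h m hm
  · rw [ends_eq _ hne, hl]
    have e1 : ((List.range (k + 1)).map f).getD 0 0 = f 0 := by
      rw [List.getD_eq_getElem _ _ (by simp)]
      simp
    have e2 : ((List.range (k + 1)).map f).getD (k + 1 - 1) 0 = f k := by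
      rw [List.getD_eq_getElem _ _ (by simp)]
      simp
    rw [e1, e2]

theorem head_cyc {D : ℕ → ℕ → F4} {B N : Finset ℕ} (hd : Disjoint B N) {G H : List (ℕ × ℕ)}
    (hG : IsG D B N G) (hH : ∀ e ∈ H, e ∈ G) {S : List ℕ} (hS : S.Nodup)
    (hS' : ∀ e, e ∈ S ↔ e ∈ B ∪ N) {P : List ℕ} {l : List (List ℕ)}
    (hP : ((paths H S).filter fun p => decide (ends p ∈ G.filter fun e => !decide (e ∈ H))) =
      P :: l) :
    Cyc D B N P ∧ Walk H P ∧ ends P ∈ G ∧ ends P ∉ H := by
  obtain ⟨hA, hB, hC⟩ := paths_spec H S hS
  have hPm : P ∈ (paths H S).filter fun p => decide (ends p ∈ G.filter fun e => !decide (e ∈ H)) := by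
    rw [hP]; exact List.mem_cons_self
  have hPm' := List.mem_filter.1 hPm
  have hPends : ends P ∈ G ∧ ends P ∉ H := by
    have h1 := of_decide_eq_true hPm'.2
    have h2 := List.mem_filter.1 h1
    refine ⟨h2.1, ?_⟩
    simpa using h2.2
  obtain ⟨hW, hlast, hmin⟩ := hA P hPm'.1
  -- the length of `P` is minimal
  have hmin2 : ∀ q, Walk H q → (∀ a ∈ q, a ∈ S) → ends q ∈ G → ends q ∉ H → P.length ≤ q.length := by
    intro q hq hqS hqG hqH
    obtain ⟨p, hp, hpe⟩ := hC q hq hqS
    have h1 : p.length ≤ q.length := (hA p hp).2.2 q hq hpe.symm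
    have h2 : p ∈ (paths H S).filter fun p => decide (ends p ∈ G.filter fun e => !decide (e ∈ H)) := by
      rw [List.mem_filter]
      refine ⟨hp, ?_⟩
      rw [decide_eq_true_eq, List.mem_filter]
      refine ⟨by rw [hpe]; exact hqG, ?_⟩
      rw [hpe]
      simpa using hqH
    have h3 : ((paths H S).filter fun p =>
        decide (ends p ∈ G.filter fun e => !decide (e ∈ H))).Pairwise (fun p q => p.length ≤ q.length) :=
      hB.filter _
    rw [hP] at h2 h3
    rcases List.mem_cons.1 h2 with rfl | h4
    · exact h1
    · exact (List.rel_of_pairwise_cons h3 h4).trans h1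
  have hee := ends_eq P hW.1
  have hpos : 0 < P.length := List.length_pos_iff.2 hW.1
  have hGP := (hG _).1 hPends.1
  rw [hee] at hGP
  simp only at hGP
  obtain ⟨hb, hn, hbn⟩ := hGP
  have hdis : ∀ a, a ∈ B → a ∈ N → False := fun a h1 h2 => Finset.disjoint_left.1 hd h1 h2
  -- adjacency
  have hadj : ∀ i, i + 1 < P.length → adjD D B N (P.getD i 0) (P.getD (i + 1) 0) := by
    intro i hi
    rcases walk_adj hW hi with h1 | h1
    · exact Or.inl ((hG _).1 (hH _ h1))
    · exact Or.inr ((hG _).1 (hH _ h1))
  -- alternation
  have halt : ∀ i, i < P.length → (i % 2 = 0 → P.getD i 0 ∈ B) ∧ (i % 2 = 1 → P.getD i 0 ∈ N) := by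
    intro i
    induction i with
    | zero => intro _; exact ⟨fun _ => hb, fun h => absurd h (by norm_num)⟩
    | succ i ih =>
      intro hi
      obtain ⟨ih1, ih2⟩ := ih (by omega)
      have h1 := hadj i hi
      constructor
      · intro h2
        have h3 := ih2 (by omega)
        rcases h1 with h1 | h1
        · exact (hdis _ h1.1 h3).elim
        · exact h1.1
      · intro h2
        have h3 := ih1 (by omega)
        rcases h1 with h1 | h1
        · exact h1.2.1
        · exact (hdis _ h3 h1.2.1).elim
  have hPS : ∀ i, i < P.length → P.getD i 0 ∈ S := by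
    intro i hi
    rw [hS', Finset.mem_union]
    rcases Nat.mod_two_eq_zero_or_one i with h | h
    · exact Or.inl ((halt i hi).1 h)
    · exact Or.inr ((halt i hi).2 h)
  have hlen : 4 ≤ P.length := by
    have h1 : (P.length - 1) % 2 = 1 := by
      rcases Nat.mod_two_eq_zero_or_one (P.length - 1) with h | h
      · exact (hdis _ ((halt _ (by omega)).1 h) hn).elim
      · exact h
    by_contra h2
    have h3 : P.length = 2 := by omega
    have h4 := walk_adj hW (i := 0) (by omega)
    rw [h3] at hn hee
    rcases h4 with h4 | h4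
    · exact hPends.2 (by rw [hee]; exact h4)
    · exact hdis _ ((hG _).1 (hH _ h4)).1 hn
  refine ⟨⟨?_, hlen, hadj, Or.inl ⟨hb, hn, hbn⟩, ?_⟩, hW, hPends.1, hPends.2⟩
  · by_contra h1
    obtain ⟨p, hp, -, hpe, -, -, hpl⟩ := walk_nodup H P hW
    have h2 := hpl h1
    have h3 := hmin p hp hpe
    omega
  · intro i j hij hj hch
    -- the sublist from `i` to `j`
    have hsub : ∀ t, t < j - i → (P.getD (i + t) 0, P.getD (i + (t + 1)) 0) ∈ H ∨
        (P.getD (i + (t + 1)) 0, P.getD (i + t) 0) ∈ H := by
      intro t ht
      have h1 := walk_adj hW (i := i + t) (by omega)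
      rw [show i + (t + 1) = i + t + 1 by ring]
      exact h1
    have hshort : ((P.getD i 0, P.getD j 0) ∈ H ∨ (P.getD j 0, P.getD i 0) ∈ H) → j = i + 1 := by
      intro hf
      obtain ⟨w1, w2, w3⟩ := walk_map (H := H)
        (fun t => if t ≤ i then P.getD t 0 else P.getD (t - (i + 1) + j) 0)
        (i + (P.length - j)) (by
          intro t ht
          by_cases h1 : t + 1 ≤ i
          · simp only [if_pos h1, if_pos (show t ≤ i by omega)]
            exact walk_adj hW (by omega)
          · by_cases h2 : t ≤ i
            · have h3 : t = i := by omega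
              subst h3
              simp only [le_refl, if_true, if_neg h1]
              rw [show t + 1 - (t + 1) + j = j by omega]
              exact hf
            · simp only [if_neg h1, if_neg h2]
              rw [show t + 1 - (i + 1) + j = (t - (i + 1) + j) + 1 by omega]
              exact walk_adj hW (by omega))
      have h4 : ends ((List.range (i + (P.length - j) + 1)).map
          (fun t => if t ≤ i then P.getD t 0 else P.getD (t - (i + 1) + j) 0)) = ends P := by
        rw [w2, hee]
        simp only [Nat.zero_le, if_true]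
        rw [if_neg (by omega : ¬ (i + (P.length - j) ≤ i))]
        rw [show i + (P.length - j) - (i + 1) + j = P.length - 1 by omega]
      have h5 := hmin _ w1 h4
      rw [w3] at h5
      omega
    by_cases hf : (P.getD i 0, P.getD j 0) ∈ H ∨ (P.getD j 0, P.getD i 0) ∈ H
    · exact Or.inl (hshort hf)
    · push Not at hf
      right
      rcases hch with hch | hch
      · obtain ⟨w1, w2, w3⟩ := walk_map (H := H) (fun t => P.getD (i + t) 0) (j - i) hsub
        simp only [Nat.add_zero] at w2
        rw [show i + (j - i) = j by omega] at w2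
        have h1 := hmin2 _ w1 (by
          intro a ha
          obtain ⟨t, ht, rfl⟩ := List.mem_map.1 ha
          rw [List.mem_range] at ht
          exact hPS _ (by omega)) (by rw [w2]; exact (hG _).2 hch) (by rw [w2]; exact hf.1)
        rw [w3] at h1
        omega
      · obtain ⟨w1, w2, w3⟩ := walk_map (H := H) (fun t => P.getD (j - t) 0) (j - i) (by
          intro t ht
          have h1 := walk_adj hW (i := j - (t + 1)) (by omega)
          rw [show j - (t + 1) + 1 = j - t by omega] at h1
          exact h1.symm)
        simp only [Nat.sub_zero] at w2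
        rw [show j - (j - i) = i by omega] at w2
        have h1 := hmin2 _ w1 (by
          intro a ha
          obtain ⟨t, ht, rfl⟩ := List.mem_map.1 ha
          rw [List.mem_range] at ht
          exact hPS _ (by omega)) (by rw [w2]; exact (hG _).2 hch) (by rw [w2]; exact hf.2)
        rw [w3] at h1
        omega

end Pool.Agent.G4
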