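import Pool.Agent.G4.N2
import Pool.Agent.G4.Br4

set_option autoImplicit false

/-!
# Module N3: scaling along the graph

`Scal D H`: the matrix can be scaled such that the entries at the pairs of `H` are one.
* `scal_add`: `(b, n)` an edge such that no walk in `H` joins `b` and `n`. PROOF: let `K` be the set
of the vertices `w` such that there is a walk in `H` from `w` to `n`; `b ∉ K`. Let
`μ = ρ b * D b n * κ n` (nonzero). Multiply `κ e` by `μ⁻¹` and `ρ e` by `μ` for `e ∈ K`. For
`(b', n') ∈ H` both ends are in `K` or both are not, so the product does not change; for `(b, n)` it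
becomes one.
* `scal_cyc`: `P` a chordless cycle, a walk in `H` with ends `(b, n)`, `Scal D H`, and the cycle set is
not a basis: then the scaling also has the value one at `(b, n)`. PROOF: by `isBase_iff` for the minor
on `P` (`P ⊆ S ⊆ E`; the cardinalities of `P ∩ T` and `P \ T` are equal, because the vertices
alternate and `P.length` is even, or because of the bijection `P i ↦ P (i + 1)` from rows to columns)
there is `f` on `T ∩ P` not zero with `ev D (T ∩ P) f c = 0` for all columns `c ∈ P \ T`. Put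
`g r = f r * (ρ r)⁻¹` (rows `r` of `P`). A column `c` of `P` is adjacent exactly to its two neighbours in the cycle
(chordless). If `c ≠ n`: both entries are scaled to one: `g r + g r' = 0`, so `g` has the same value
at the rows `P 0, P 2, ...` along the path, this value is not zero. For the last column `n`, its
neighbours are the last but one vertex `r` of `P` (edge in `H`) and `b`:
`g r * 1 + g b * (ρ b * D b n * κ n) = 0`, so `ρ b * D b n * κ n = 1`.
-/

namespace Pool.Agent.G4

open N487b59b3 F4 Finset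

/-- the scaling `ρ`, `κ` makes the entries at `H` equal to one -/
def Scal (D : ℕ → ℕ → F4) (ρ κ : ℕ → F4) (H : List (ℕ × ℕ)) : Prop :=
  (∀ e, ρ e ≠ 0 ∧ κ e ≠ 0) ∧ ∀ p ∈ H, ρ p.1 * D p.1 p.2 * κ p.2 = 1

private theorem n3_ends_snd {q : List ℕ} (hq : q ≠ []) : (ends q).2 = q.getLast hq := by
  have h1 : q.reverse ≠ [] := by simpa using hq
  have h2 : q.getLast hq = q.reverse.head h1 := by simp
  rw [h2]
  have key : ∀ (r : List ℕ) (hr : r ≠ []), r.headD 0 = r.head hr := by
    intro r hr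
    cases r with
    | nil => exact absurd rfl hr
    | cons a t => rfl
  exact key _ h1

private theorem n3_walk_cons {H : List (ℕ × ℕ)} {w : ℕ} {q : List ℕ} (h : Walk H q)
    (ha : (w, q.headD 0) ∈ H ∨ (q.headD 0, w) ∈ H) : Walk H (w :: q) := by
  obtain ⟨h1, h2⟩ := h
  cases q with
  | nil => exact absurd rfl h1
  | cons a q =>
    refine ⟨by simp, ?_⟩
    rw [List.isChain_cons_cons]
    exact ⟨ha, h2⟩

private theorem n3_step {H : List (ℕ × ℕ)} {w u n : ℕ} (hu : (w, u) ∈ H ∨ (u, w) ∈ H)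
    (h : ∃ q, Walk H q ∧ ends q = (u, n)) : ∃ q, Walk H q ∧ ends q = (w, n) := by
  obtain ⟨q, hq, he⟩ := h
  have hh : q.headD 0 = u := congrArg Prod.fst he
  refine ⟨w :: q, n3_walk_cons hq (by rw [hh]; exact hu), ?_⟩
  have h2 : (ends q).2 = n := congrArg Prod.snd he
  apply Prod.ext
  · rfl
  · rw [n3_ends_snd (by simp), List.getLast_cons hq.1, ← n3_ends_snd hq.1, h2]

theorem scal_add {D : ℕ → ℕ → F4} {ρ κ : ℕ → F4} {H : List (ℕ × ℕ)} (h : Scal D ρ κ H)
    {B N : Finset ℕ} (hd : Disjoint B N) (hH : ∀ e ∈ H, e.1 ∈ B ∧ e.2 ∈ N)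
    {b n : ℕ} (hb : b ∈ B) (hn : n ∈ N) (hne : D b n ≠ 0)
    (hw : ∀ q, Walk H q → ends q ≠ (b, n)) :
    ∃ ρ' κ' : ℕ → F4, Scal D ρ' κ' (H ++ [(b, n)]) := by
  classical
  obtain ⟨h1, h2⟩ := h
  have hμ : ρ b * D b n * κ n ≠ 0 := mul_ne_zero (mul_ne_zero (h1 b).1 hne) (h1 n).2
  refine ⟨fun e => if (∃ q, Walk H q ∧ ends q = (e, n)) then ρ e * (ρ b * D b n * κ n) else ρ e,
    fun e => if (∃ q, Walk H q ∧ ends q = (e, n)) then κ e * (ρ b * D b n * κ n)⁻¹ else κ e,
    fun e => ?_, fun p hp => ?_⟩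
  · constructor
    · show (if _ then _ else _) ≠ (0 : F4)
      split_ifs
      · exact mul_ne_zero (h1 e).1 hμ
      · exact (h1 e).1
    · show (if _ then _ else _) ≠ (0 : F4)
      split_ifs
      · exact mul_ne_zero (h1 e).2 (inv_ne_zero hμ)
      · exact (h1 e).2
  · show (if _ then _ else _) * D p.1 p.2 * (if _ then _ else _) = (1 : F4)
    rcases List.mem_append.1 hp with hp | hp
    · have h3 := h2 p hp
      by_cases hK : ∃ q, Walk H q ∧ ends q = (p.1, n)
      · have hK2 : ∃ q, Walk H q ∧ ends q = (p.2, n) := n3_step (Or.inr hp) hK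
        rw [if_pos hK, if_pos hK2]
        have e1 : ρ p.1 * (ρ b * D b n * κ n) * D p.1 p.2 * (κ p.2 * (ρ b * D b n * κ n)⁻¹) =
            (ρ p.1 * D p.1 p.2 * κ p.2) * ((ρ b * D b n * κ n) * (ρ b * D b n * κ n)⁻¹) := by ring
        rw [e1, h3, mul_inv_cancel₀ hμ, mul_one]
      · have hK2 : ¬ ∃ q, Walk H q ∧ ends q = (p.2, n) := fun hc => hK (n3_step (Or.inl hp) hc)
        rw [if_neg hK, if_neg hK2, h3]
    · rw [List.mem_singleton] at hp
      subst hp
      have hK : ¬ ∃ q, Walk H q ∧ ends q = (b, n) := by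
        rintro ⟨q, hq, he⟩
        exact hw q hq he
      have hK2 : ∃ q, Walk H q ∧ ends q = (n, n) :=
        ⟨[n], ⟨by simp, List.isChain_singleton _⟩, rfl⟩
      show (if (∃ q, Walk H q ∧ ends q = (b, n)) then _ else _) * D b n *
        (if (∃ q, Walk H q ∧ ends q = (n, n)) then _ else _) = (1 : F4)
      rw [if_neg hK, if_pos hK2]
      have e1 : ρ b * D b n * (κ n * (ρ b * D b n * κ n)⁻¹) =
          (ρ b * D b n * κ n) * (ρ b * D b n * κ n)⁻¹ := by ring
      rw [e1, mul_inv_cancel₀ hμ]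

variable {V : Type} [AddCommGroup V] [Module F4 V] {v : ℕ → V} {E T S : Finset ℕ}
  {D : ℕ → ℕ → F4}

theorem scal_cyc (hD : IsD v E T D) (hS : S ⊆ E) {ρ κ : ℕ → F4} {H : List (ℕ × ℕ)}
    (h : Scal D ρ κ H) (hH : ∀ e ∈ H, e.1 ∈ T ∩ S ∧ e.2 ∈ S \ T) {P : List ℕ} (hP : Cyc D (T ∩ S) (S \ T) P)
    (hw : Walk H P) (he : (ends P).1 ∈ T ∩ S ∧ (ends P).2 ∈ S \ T)
    (hi : ¬ ind v ((T \ P.toFinset) ∪ (P.toFinset \ T))) :
    Scal D ρ κ (H ++ [ends P]) := by
  classical
  obtain ⟨h1, h2⟩ := h
  refine ⟨h1, fun q hq => ?_⟩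
  rcases List.mem_append.1 hq with hq | hq
  · exact h2 q hq
  rw [List.mem_singleton] at hq
  subst hq
  have hP0 : P ≠ [] := hw.1
  have hlen := hP.four
  set m := P.length with hm
  -- indexing
  have hg : ∀ i (hi : i < P.length), P.getD i 0 = P[i] := fun i hi => by
    rw [List.getD_eq_getElem _ _ hi]
  have hinj : ∀ i j, i < m → j < m → P.getD i 0 = P.getD j 0 → i = j := by
    intro i j hi' hj' hij
    rw [hg i hi', hg j hj'] at hij
    exact (List.Nodup.getElem_inj_iff hP.nodup).1 hij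
  have hmem : ∀ x, x ∈ P ↔ ∃ i, i < m ∧ P.getD i 0 = x := by
    intro x
    rw [List.mem_iff_getElem]
    constructor
    · rintro ⟨i, hi', hx⟩
      exact ⟨i, hi', by rw [hg i hi', hx]⟩
    · rintro ⟨i, hi', hx⟩
      exact ⟨i, hi', by rw [← hg i hi', hx]⟩
  have hend1 : (ends P).1 = P.getD 0 0 := by
    show P.headD 0 = P.getD 0 0
    cases hPc : P with
    | nil => exact absurd hPc hP0
    | cons a t => rfl
  have hend2 : (ends P).2 = P.getD (m - 1) 0 := by
    rw [n3_ends_snd hP0, hg (m - 1) (by omega), List.getLast_eq_getElem]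
  -- alternation
  have halt : ∀ i, i < m → (i % 2 = 0 → P.getD i 0 ∈ T ∩ S) ∧ (i % 2 = 1 → P.getD i 0 ∈ S \ T) := by
    intro i
    induction i with
    | zero =>
      intro _
      refine ⟨fun _ => ?_, fun hc => by omega⟩
      rw [← hend1]
      exact he.1
    | succ i ih =>
      intro hi'
      have ih' := ih (by omega)
      have ha := hP.adj i hi'
      refine ⟨fun hc => ?_, fun hc => ?_⟩
      · have h3 := ih'.2 (by omega)
        rcases ha with ⟨h4, -, -⟩ | ⟨h4, -, -⟩
        · exact absurd (mem_inter.1 h4).1 (mem_sdiff.1 h3).2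
        · exact h4
      · have h3 := ih'.1 (by omega)
        rcases ha with ⟨-, h4, -⟩ | ⟨-, h4, -⟩
        · exact h4
        · exact absurd (mem_inter.1 h3).1 (mem_sdiff.1 h4).2
  have heven : m % 2 = 0 := by
    by_contra hc
    have h3 := (halt (m - 1) (by omega)).1 (by omega)
    rw [← hend2] at h3
    exact (mem_sdiff.1 he.2).2 (mem_inter.1 h3).1
  -- edges of the walk
  have hwk : ∀ i, i + 1 < m → (P.getD i 0, P.getD (i + 1) 0) ∈ H ∨
      (P.getD (i + 1) 0, P.getD i 0) ∈ H := by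
    intro i hi'
    have h3 := List.isChain_iff_getElem.1 hw.2 i hi'
    rw [hg i (by omega), hg (i + 1) hi']
    exact h3
  have hev : ∀ j, 2 * j + 1 < m → (P.getD (2 * j) 0, P.getD (2 * j + 1) 0) ∈ H := by
    intro j hj
    rcases hwk (2 * j) hj with h3 | h3
    · exact h3
    · exfalso
      have h4 := (hH _ h3).1
      have h5 := (halt (2 * j + 1) hj).2 (by omega)
      exact (mem_sdiff.1 h5).2 (mem_inter.1 h4).1
  have hod : ∀ j, 2 * j + 2 < m → (P.getD (2 * (j + 1)) 0, P.getD (2 * j + 1) 0) ∈ H := by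
    intro j hj
    rcases hwk (2 * j + 1) hj with h3 | h3
    · exfalso
      have h4 := (hH _ h3).1
      have h5 := (halt (2 * j + 1) (by omega)).2 (by omega)
      exact (mem_sdiff.1 h5).2 (mem_inter.1 h4).1
    · exact h3
  -- the two parts of the cycle
  have hR : T ∩ P.toFinset = (range (m / 2)).image fun j => P.getD (2 * j) 0 := by
    ext x
    rw [mem_inter, List.mem_toFinset, hmem, mem_image]
    constructor
    · rintro ⟨hx, i, hi', rfl⟩
      have h3 : i % 2 = 0 := by
        by_contra hc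
        exact (mem_sdiff.1 ((halt i hi').2 (by omega))).2 hx
      refine ⟨i / 2, mem_range.2 (by omega), ?_⟩
      show P.getD (2 * (i / 2)) 0 = P.getD i 0
      rw [show 2 * (i / 2) = i by omega]
    · rintro ⟨j, hj, rfl⟩
      rw [mem_range] at hj
      exact ⟨(mem_inter.1 ((halt (2 * j) (by omega)).1 (by omega))).1, 2 * j, by omega, rfl⟩
  have hC : P.toFinset \ T = (range (m / 2)).image fun j => P.getD (2 * j + 1) 0 := by
    ext x
    rw [mem_sdiff, List.mem_toFinset, hmem, mem_image]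
    constructor
    · rintro ⟨⟨i, hi', rfl⟩, hx⟩
      have h3 : i % 2 = 1 := by
        by_contra hc
        exact hx (mem_inter.1 ((halt i hi').1 (by omega))).1
      refine ⟨i / 2, mem_range.2 (by omega), ?_⟩
      show P.getD (2 * (i / 2) + 1) 0 = P.getD i 0
      rw [show 2 * (i / 2) + 1 = i by omega]
    · rintro ⟨j, hj, rfl⟩
      rw [mem_range] at hj
      exact ⟨⟨2 * j + 1, by omega, rfl⟩, (mem_sdiff.1 ((halt (2 * j + 1) (by omega)).2 (by omega))).2⟩
  have hRinj : Set.InjOn (fun j => P.getD (2 * j) 0) (range (m / 2) : Set ℕ) := by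
    intro i hi' j hj hij
    have hi2 := mem_range.1 (mem_coe.1 hi')
    have hj2 := mem_range.1 (mem_coe.1 hj)
    have := hinj (2 * i) (2 * j) (by omega) (by omega) hij
    omega
  have hCinj : Set.InjOn (fun j => P.getD (2 * j + 1) 0) (range (m / 2) : Set ℕ) := by
    intro i hi' j hj hij
    have hi2 := mem_range.1 (mem_coe.1 hi')
    have hj2 := mem_range.1 (mem_coe.1 hj)
    have := hinj (2 * i + 1) (2 * j + 1) (by omega) (by omega) hij
    omega
  have hcardR : (T ∩ P.toFinset).card = m / 2 := by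
    rw [hR, card_image_of_injOn hRinj, card_range]
  have hcardC : (P.toFinset \ T).card = m / 2 := by
    rw [hC, card_image_of_injOn hCinj, card_range]
  have hPS : P.toFinset ⊆ S := by
    intro x hx
    rw [List.mem_toFinset, hmem] at hx
    obtain ⟨i, hi', rfl⟩ := hx
    rcases Nat.mod_two_eq_zero_or_one i with h3 | h3
    · exact (mem_inter.1 ((halt i hi').1 h3)).2
    · exact (mem_sdiff.1 ((halt i hi').2 h3)).1
  -- a row vector vanishing at the columns
  have hnb : ¬ IsBase D (T ∩ P.toFinset) (P.toFinset \ T) (P.toFinset \ T) := by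
    rw [isBase_iff hD (hPS.trans hS) sdiff_subset (by rw [hcardR, hcardC])]
    exact hi
  have hex : ∃ f : ℕ → F4, (∀ t ∈ P.toFinset \ T, ev D (T ∩ P.toFinset) f t = 0) ∧
      ∃ b ∈ T ∩ P.toFinset, f b ≠ 0 := by
    by_contra hc
    apply hnb
    refine ⟨subset_union_right, by rw [hcardR, hcardC], fun f hf b hb => ?_⟩
    by_contra hne
    exact hc ⟨f, hf, b, hb, hne⟩
  obtain ⟨f, hf, b₀, hb₀, hfb₀⟩ := hex
  have hcol : ∀ j, j < m / 2 →
      ∑ i ∈ range (m / 2), f (P.getD (2 * i) 0) * D (P.getD (2 * i) 0) (P.getD (2 * j + 1) 0) = 0 := by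
    intro j hj
    have hc : P.getD (2 * j + 1) 0 ∈ P.toFinset \ T := by
      rw [hC]
      exact mem_image_of_mem (fun j => P.getD (2 * j + 1) 0) (mem_range.2 hj)
    have h3 := hf _ hc
    rw [ev_not_mem D _ f (fun h4 => (mem_sdiff.1 hc).2 (mem_inter.1 h4).1), hR,
      sum_image hRinj] at h3
    exact h3
  have hzero : ∀ i j, i < m / 2 → j < m / 2 → i ≠ j → i ≠ j + 1 →
      ¬ (i = 0 ∧ 2 * j + 1 = m - 1) → D (P.getD (2 * i) 0) (P.getD (2 * j + 1) 0) = 0 := by
    intro i j hi' hj hij hij' hc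
    by_contra hne
    have hr := (halt (2 * i) (by omega)).1 (by omega)
    have hcc := (halt (2 * j + 1) (by omega)).2 (by omega)
    rcases lt_or_gt_of_ne (show 2 * i ≠ 2 * j + 1 by omega) with h3 | h3
    · have h4 := hP.chord (2 * i) (2 * j + 1) h3 (by omega) (Or.inl ⟨hr, hcc, hne⟩)
      omega
    · have h4 := hP.chord (2 * j + 1) (2 * i) h3 (by omega) (Or.inr ⟨hr, hcc, hne⟩)
      omega
  -- constant along the path
  have hconst : ∀ j, 2 * j < m → f (P.getD (2 * j) 0) * (ρ (P.getD (2 * j) 0))⁻¹ =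
      f (P.getD 0 0) * (ρ (P.getD 0 0))⁻¹ := by
    intro j
    induction j with
    | zero => intro _; rfl
    | succ j ih =>
      intro hj
      rw [← ih (by omega)]
      have hs := hcol j (by omega)
      rw [Finset.sum_eq_add_of_mem j (j + 1) (mem_range.2 (by omega)) (mem_range.2 (by omega))
        (by omega) (fun i hi' hne => by
          rw [hzero i j (mem_range.1 hi') (by omega) hne.1 hne.2 (by omega), mul_zero])] at hs
      have e1 := h2 _ (hev j (by omega))
      have e2 := h2 _ (hod j (by omega))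
      simp only at e1 e2
      have key : ∀ x y r r' d d' k : F4, r ≠ 0 → r' ≠ 0 → x * d + y * d' = 0 → r * d * k = 1 →
          r' * d' * k = 1 → y * r'⁻¹ = x * r⁻¹ := by
        intro x y r r' d d' k hr hr' hxy hd1 hd2
        have hk : k ≠ 0 := by
          rintro rfl
          simp at hd1
        have hd : d = r⁻¹ * k⁻¹ := by
          field_simp
          rw [mul_comm, ← mul_assoc] at hd1
          rw [← hd1]; ring
        have hd' : d' = r'⁻¹ * k⁻¹ := by
          field_simp
          rw [mul_comm, ← mul_assoc] at hd2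
          rw [← hd2]; ring
        rw [hd, hd'] at hxy
        have h5 : (x * r⁻¹ + y * r'⁻¹) * k⁻¹ = 0 := by
          rw [← hxy]; ring
        have h6 : x * r⁻¹ + y * r'⁻¹ = 0 := by
          rcases mul_eq_zero.1 h5 with h6 | h6
          · exact h6
          · exact absurd h6 (inv_ne_zero hk)
        have key2 : ∀ a b : F4, a + b = 0 → b = a := by decide
        exact key2 _ _ h6
      exact key _ _ _ _ _ _ _ (h1 _).1 (h1 _).1 hs e1 e2
  have hγ : f (P.getD 0 0) * (ρ (P.getD 0 0))⁻¹ ≠ 0 := by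
    intro hc
    rw [hR, mem_image] at hb₀
    obtain ⟨j, hj, rfl⟩ := hb₀
    have h3 := hconst j (by have := mem_range.1 hj; omega)
    rw [hc] at h3
    rcases mul_eq_zero.1 h3 with h4 | h4
    · exact hfb₀ h4
    · exact inv_ne_zero (h1 _).1 h4
  -- the last column
  have hlast := hcol (m / 2 - 1) (by omega)
  rw [Finset.sum_eq_add_of_mem 0 (m / 2 - 1) (mem_range.2 (by omega)) (mem_range.2 (by omega))
    (by omega) (fun i hi' hne => by
      have := mem_range.1 hi'
      rw [hzero i (m / 2 - 1) this (by omega) hne.2 (by omega) (by omega), mul_zero])] at hlast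
  have hc1 := hconst (m / 2 - 1) (by omega)
  have e1 := h2 _ (hev (m / 2 - 1) (by omega))
  simp only at e1
  rw [hend1, hend2]
  have e2 : 2 * (m / 2 - 1) + 1 = m - 1 := by omega
  rw [e2] at hlast e1
  rw [mul_zero] at hlast
  have key : ∀ x y r r' d d' k : F4, r ≠ 0 → r' ≠ 0 → x * d + y * d' = 0 →
      r' * d' * k = 1 → y * r'⁻¹ = x * r⁻¹ → x * r⁻¹ ≠ 0 → r * d * k = 1 := by
    intro x y r r' d d' k hr hr' hxy hd2 hc hne
    have hk : k ≠ 0 := by
      rintro rfl
      simp at hd2
    have hd' : d' = r'⁻¹ * k⁻¹ := by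
      field_simp
      rw [mul_comm, ← mul_assoc] at hd2
      rw [← hd2]; ring
    have hx : x = (x * r⁻¹) * r := by
      rw [mul_assoc, inv_mul_cancel₀ hr, mul_one]
    have h5 : (x * r⁻¹) * (r * d * k + 1) = 0 := by
      have : (x * r⁻¹) * (r * d * k + 1) = ((x * r⁻¹) * r * d + (x * r⁻¹) * k⁻¹) * k := by
        rw [add_mul, mul_assoc (x * r⁻¹) k⁻¹ k, inv_mul_cancel₀ hk]; ring
      rw [this, ← hx, ← hc, mul_assoc y r'⁻¹ k⁻¹, ← hd', hxy, zero_mul]
    have h6 : r * d * k + 1 = 0 := by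
      rcases mul_eq_zero.1 h5 with h6 | h6
      · exact absurd h6 hne
      · exact h6
    have key2 : ∀ a : F4, a + 1 = 0 → a = 1 := by decide
    exact key2 _ h6
  exact key _ _ _ _ _ _ _ (h1 _).1 (h1 _).1 hlast e1 hc1 hγ

end Pool.Agent.G4
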