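import Pool.Agent.G4.Defs

set_option autoImplicit false

/-!
# Module R1: rank functions, contraction, duality

Everything is elementary from `IsRk`.

* `mono'`, `le_card`, `union_le`: induction on the finset.
* `submod`: `IsRk.sub` in the form used most often.
* `ctr`: for `unit` and `sub` use `C ∪ (A ∪ B) = (C ∪ A) ∪ (C ∪ B)`,
  `C ∪ (A ∩ B) = (C ∪ A) ∩ (C ∪ B)`.
* `dual`: `dualR r S X = |X ∩ S| + r (S \ X) - r S`. `mono`: adding `e ∈ S \ X` increases the
  cardinality by one and decreases `r (S \ X)` by at most one; `sub`: modularity of the cardinality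
  and `S \ (A ∪ B) = (S \ A) ∩ (S \ B)`, `S \ (A ∩ B) = (S \ A) ∪ (S \ B)`.
* `dual_ctr`: `dualR (ctr r C) (S \ C) X = |X| + r (C ∪ ((S \ C) \ X)) - r (C ∪ (S \ C))` and
  `C ∪ ((S \ C) \ X) = S \ X` for `C ⊆ S`, `X ⊆ S \ C`.
* `lam_erase`: `r X ≤ ..`, `r (S \ X) - 1 ≤ r ((S \ X).erase e) ≤ r (S \ X)`, the same for `S`; the
  upper bound `lam r (S.erase e) X ≤ lam r S X` is submodularity of `(S \ X).erase e ∪ {e}`:
  `r ((S \ X).erase e) - r (S \ X) ≤ r (S.erase e) - r S`.
-/

namespace Pool.Agent.G4

open Finset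

variable {r r' : Finset ℕ → ℤ} {S X Y A B C : Finset ℕ} {e : ℕ}

theorem IsRk.mono' (h : IsRk r) (hAB : A ⊆ B) : r A ≤ r B := by
  have key : ∀ Z : Finset ℕ, r A ≤ r (A ∪ Z) := by
    intro Z
    induction Z using Finset.induction_on with
    | empty => rw [union_empty]
    | insert e Z _ ih =>
      rw [union_insert]
      exact ih.trans (h.mono _ _)
  have h1 := key B
  rwa [union_eq_right.2 hAB] at h1

theorem IsRk.nonneg (h : IsRk r) (A : Finset ℕ) : 0 ≤ r A := by
  rw [← h.empty]
  exact h.mono' (empty_subset A)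

theorem IsRk.union_le (h : IsRk r) (A B : Finset ℕ) : r (A ∪ B) ≤ r A + (B.card : ℤ) := by
  induction B using Finset.induction_on with
  | empty => simp
  | insert e Z he ih =>
    rw [union_insert, card_insert_of_notMem he]
    have := h.unit (A ∪ Z) e
    push_cast
    omega

theorem IsRk.le_card (h : IsRk r) (A : Finset ℕ) : r A ≤ (A.card : ℤ) := by
  have := h.union_le ∅ A
  rw [empty_union, h.empty, zero_add] at this
  exact this

/-- adding elements to a larger set gives less -/
theorem IsRk.submod (h : IsRk r) {A B X : Finset ℕ} (hAB : A ⊆ B) (hX : Disjoint X B) :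
    r (B ∪ X) - r B ≤ r (A ∪ X) - r A := by
  have h1 := h.sub B (A ∪ X)
  have e1 : B ∪ (A ∪ X) = B ∪ X := by
    rw [← union_assoc, union_eq_left.2 hAB]
  have e2 : B ∩ (A ∪ X) = A := by
    rw [inter_union_distrib_left, inter_eq_right.2 hAB, inter_comm B X,
      disjoint_iff_inter_eq_empty.1 hX, union_empty]
  rw [e1, e2] at h1
  omega

theorem IsRk.ctr (h : IsRk r) (C : Finset ℕ) : IsRk (ctr r C) where
  empty := by
    unfold Pool.Agent.G4.ctr
    rw [union_empty]
    omega
  mono := by
    intro A e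
    unfold Pool.Agent.G4.ctr
    rw [union_insert]
    have := h.mono (C ∪ A) e
    omega
  unit := by
    intro A e
    unfold Pool.Agent.G4.ctr
    rw [union_insert]
    have := h.unit (C ∪ A) e
    omega
  sub := by
    intro A B
    unfold Pool.Agent.G4.ctr
    rw [union_union_distrib_left, union_inter_distrib_left]
    have := h.sub (C ∪ A) (C ∪ B)
    omega

theorem IsRk.dual (h : IsRk r) (S : Finset ℕ) : IsRk (dualR r S) where
  empty := by
    unfold dualR
    rw [empty_inter, sdiff_empty, card_empty]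
    push_cast
    omega
  mono := by
    intro A e
    unfold dualR
    by_cases he : e ∈ S ∧ e ∉ A
    · have e1 : (insert e A ∩ S) = insert e (A ∩ S) := by
        rw [insert_inter_of_mem he.1]
      have e2 : (insert e (A ∩ S)).card = (A ∩ S).card + 1 :=
        card_insert_of_notMem fun hc => he.2 (mem_inter.1 hc).1
      have e3 : S \ A = insert e (S \ insert e A) := by
        ext x
        simp only [mem_sdiff, mem_insert, not_or]
        constructor
        · rintro ⟨h1, h2⟩
          by_cases hx : x = e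
          · exact Or.inl hx
          · exact Or.inr ⟨h1, hx, h2⟩
        · rintro (rfl | ⟨h1, h2, h3⟩)
          · exact he
          · exact ⟨h1, h3⟩
      have h1 := h.unit (S \ insert e A) e
      rw [← e3] at h1
      rw [e1, e2]
      push_cast
      omega
    · have e1 : (insert e A ∩ S) = A ∩ S := by
        ext x
        simp only [mem_inter, mem_insert]
        constructor
        · rintro ⟨rfl | h1, h2⟩
          · exact ⟨by_contra fun hc => he ⟨h2, hc⟩, h2⟩
          · exact ⟨h1, h2⟩
        · rintro ⟨h1, h2⟩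
          exact ⟨Or.inr h1, h2⟩
      have e2 : S \ insert e A = S \ A := by
        ext x
        simp only [mem_sdiff, mem_insert, not_or]
        constructor
        · rintro ⟨h1, h2, h3⟩
          exact ⟨h1, h3⟩
        · rintro ⟨h1, h2⟩
          refine ⟨h1, ?_, h2⟩
          rintro rfl
          exact he ⟨h1, h2⟩
      rw [e1, e2]
  unit := by
    intro A e
    unfold dualR
    have h1 : (insert e A ∩ S).card ≤ (A ∩ S).card + 1 := by
      refine (card_le_card ?_).trans (card_insert_le e (A ∩ S))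
      intro x hx
      rw [mem_inter, mem_insert] at hx
      rw [mem_insert, mem_inter]
      rcases hx with ⟨rfl | h1, h2⟩
      · exact Or.inl rfl
      · exact Or.inr ⟨h1, h2⟩
    have h2 : r (S \ insert e A) ≤ r (S \ A) :=
      h.mono' (sdiff_subset_sdiff (Subset.refl _) (subset_insert _ _))
    omega
  sub := by
    intro A B
    unfold dualR
    have e1 : S \ (A ∪ B) = (S \ A) ∩ (S \ B) := by
      ext x
      simp only [mem_sdiff, mem_union, mem_inter, not_or]
      tauto
    have e2 : S \ (A ∩ B) = (S \ A) ∪ (S \ B) := by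
      ext x
      simp only [mem_sdiff, mem_union, mem_inter]
      tauto
    have e3 : (A ∪ B) ∩ S = (A ∩ S) ∪ (B ∩ S) := union_inter_distrib_right _ _ _
    have e4 : (A ∩ B) ∩ S = (A ∩ S) ∩ (B ∩ S) := by
      ext x
      simp only [mem_inter]
      tauto
    have h1 := h.sub (S \ A) (S \ B)
    have h2 := card_union_add_card_inter (A ∩ S) (B ∩ S)
    rw [e1, e2, e3, e4]
    omega

theorem ctr_empty (h : IsRk r) (X : Finset ℕ) : Pool.Agent.G4.ctr r ∅ X = r X := by
  unfold Pool.Agent.G4.ctr
  rw [empty_union, h.empty, sub_zero]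

theorem ctr_ctr (C C' X : Finset ℕ) :
    Pool.Agent.G4.ctr (Pool.Agent.G4.ctr r C) C' X = Pool.Agent.G4.ctr r (C ∪ C') X := by
  unfold Pool.Agent.G4.ctr
  rw [union_assoc]
  omega

theorem lam_compl (hX : X ⊆ S) : lam r S (S \ X) = lam r S X := by
  unfold lam
  rw [Finset.sdiff_sdiff_eq_self hX]
  omega

theorem lam_nonneg (h : IsRk r) (hX : X ⊆ S) : 0 ≤ lam r S X := by
  unfold lam
  have h1 := h.sub X (S \ X)
  rw [union_sdiff_of_subset hX, Finset.inter_sdiff_self, h.empty] at h1
  omega

theorem lam_erase (h : IsRk r) (he : e ∈ S) (hX : X ⊆ S.erase e) :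
    lam r (S.erase e) X ≤ lam r S X ∧ lam r S X ≤ lam r (S.erase e) X + 1 := by
  unfold lam
  have heX : e ∉ X := fun hc => (mem_erase.1 (hX hc)).1 rfl
  have e1 : S = insert e (S.erase e) := (insert_erase he).symm
  have e2 : S \ X = insert e (S.erase e \ X) := by
    ext x
    simp only [mem_sdiff, mem_insert, mem_erase]
    constructor
    · rintro ⟨h1, h2⟩
      by_cases hx : x = e
      · exact Or.inl hx
      · exact Or.inr ⟨⟨hx, h1⟩, h2⟩
    · rintro (rfl | ⟨⟨h1, h2⟩, h3⟩)
      · exact ⟨he, heX⟩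
      · exact ⟨h2, h3⟩
  have h1 := h.unit (S.erase e \ X) e
  have h2 := h.mono (S.erase e) e
  have h3 := h.submod (A := S.erase e \ X) (B := S.erase e) (X := {e}) sdiff_subset
    (disjoint_singleton_left.2 (notMem_erase e S))
  have e3 : S.erase e ∪ {e} = S := by
    rw [union_comm, ← insert_eq, insert_erase he]
  have e4 : S.erase e \ X ∪ {e} = S \ X := by
    rw [e2, union_comm, ← insert_eq]
  rw [← e2] at h1
  rw [← e1] at h2
  rw [e3, e4] at h3
  constructor <;> omega

theorem lam_dual (h : IsRk r) (hX : X ⊆ S) : lam (dualR r S) S X = lam r S X := by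
  unfold lam dualR
  rw [inter_eq_left.2 hX, inter_eq_left.2 (sdiff_subset : S \ X ⊆ S), inter_self,
    Finset.sdiff_sdiff_eq_self hX, Finset.sdiff_self, h.empty]
  have h1 := card_sdiff_add_card_eq_card hX
  omega

theorem dualR_empty : dualR r S ∅ = 0 := by
  unfold dualR
  rw [empty_inter, sdiff_empty, card_empty]
  push_cast
  omega

theorem dual_dual (h : IsRk r) (hX : X ⊆ S) : dualR (dualR r S) S X = r X := by
  unfold dualR
  rw [inter_eq_left.2 hX, inter_eq_left.2 (sdiff_subset : S \ X ⊆ S), inter_self,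
    Finset.sdiff_sdiff_eq_self hX, Finset.sdiff_self, h.empty]
  have h1 := card_sdiff_add_card_eq_card hX
  omega

theorem dual_ctr (hC : C ⊆ S) (hX : X ⊆ S \ C) :
    dualR (Pool.Agent.G4.ctr r C) (S \ C) X = dualR r S X := by
  unfold dualR Pool.Agent.G4.ctr
  have hXS : X ⊆ S := hX.trans sdiff_subset
  rw [inter_eq_left.2 hX, inter_eq_left.2 hXS, union_sdiff_of_subset hC]
  have e1 : C ∪ ((S \ C) \ X) = S \ X := by
    ext x
    simp only [mem_union, mem_sdiff]
    constructor
    · rintro (h1 | ⟨⟨h1, h2⟩, h3⟩)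
      · exact ⟨hC h1, fun h2 => (mem_sdiff.1 (hX h2)).2 h1⟩
      · exact ⟨h1, h3⟩
    · rintro ⟨h1, h2⟩
      by_cases hx : x ∈ C
      · exact Or.inl hx
      · exact Or.inr ⟨⟨h1, hx⟩, h2⟩
  rw [e1]
  omega

theorem ctr_dual (hC : C ⊆ S) (hX : X ⊆ S \ C) :
    Pool.Agent.G4.ctr (dualR r S) C X = dualR r (S \ C) X := by
  unfold Pool.Agent.G4.ctr dualR
  have hXS : X ⊆ S := hX.trans sdiff_subset
  have hd : Disjoint C X := by
    rw [disjoint_left]
    intro x h1 h2
    exact (mem_sdiff.1 (hX h2)).2 h1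
  rw [inter_eq_left.2 hX, inter_eq_left.2 hC, inter_eq_left.2 (union_subset hC hXS),
    card_union_of_disjoint hd]
  have e1 : S \ (C ∪ X) = (S \ C) \ X := by
    rw [sdiff_sdiff_left]
    rfl
  rw [e1]
  push_cast
  omega

end Pool.Agent.G4
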