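import Pool.Agent.G4.R1b

set_option autoImplicit false

/-!
# Module R2: uncrossing (Bixby's lemma in a strong form)

PROOF. Let `(X, Y)` and `(U, W)` be partitions of `S - e` into sets with at least three elements,
`lam r (S - e) X ≤ 1` and `lam (ctr r {e}) (S - e) U ≤ 1`. Since `r {e} = 1` and
`r (S - e) = r S` (`Conn3.rank_one`, `Conn3.corank` with `a = b = e`):
`r X + r Y ≤ r S + 1` and `r (insert e U) + r (insert e W) ≤ r S + 2`.
Submodularity: `r X + r (U + e) ≥ r (X ∪ U + e) + r (X ∩ U)`,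
`r Y + r (W + e) ≥ r (Y ∪ W + e) + r (Y ∩ W)`. The complement of `Y ∩ W` in `S` is `X ∪ U + e` and
the complement of `X ∩ U` is `Y ∪ W + e`, so
`lam r S (Y ∩ W) + lam r S (X ∩ U) ≤ (r S + 1) + (r S + 2) - 2 r S = 3`, and one of them is `≤ 1`.
By `Conn3` `(Y ∩ W).card ≤ 1` or `(X ∩ U).card ≤ 1` (the complements contain `X` respectively `Y`
and have at least three elements; the empty set has cardinality zero). With `U` and `W` exchanged
(the hypothesis is symmetric: `lam_compl`): `(Y ∩ U).card ≤ 1` or `(X ∩ W).card ≤ 1`. Each of the four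
combinations contradicts `3 ≤` the cardinality of one of `Y`, `W`, `U`, `X` (for example
`Y = (Y ∩ W) ∪ (Y ∩ U)`).
-/

namespace Pool.Agent.G4

open Finset

variable {r : Finset ℕ → ℤ} {S X Y U W : Finset ℕ} {e : ℕ}

/-- membership facts of a partition of `S - e` -/
private theorem r2_mem (h : X ∪ Y = S.erase e) (hd : Disjoint X Y) (a : ℕ) :
    ((a ∈ X ∨ a ∈ Y) ↔ (a ≠ e ∧ a ∈ S)) ∧ ¬(a ∈ X ∧ a ∈ Y) := by
  refine ⟨?_, fun h => Finset.disjoint_left.1 hd h.1 h.2⟩
  rw [← Finset.mem_union, h, Finset.mem_erase]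

private theorem r2_compl (h : X ∪ Y = S.erase e) (hd : Disjoint X Y) : S.erase e \ X = Y := by
  ext a
  have := r2_mem h hd a
  rw [Finset.mem_sdiff, Finset.mem_erase]
  tauto

private theorem r2_cross (hr : IsRk r) (hS : Conn3 r S) (he : e ∈ S)
    (hXY : X ∪ Y = S.erase e) (hd : Disjoint X Y) (hX : 3 ≤ X.card) (hY : 3 ≤ Y.card)
    (h1 : r X + r Y ≤ r S + 1)
    (hUW : U ∪ W = S.erase e) (hd' : Disjoint U W)
    (h2 : r (insert e U) + r (insert e W) ≤ r S + 2) :
    (Y ∩ W).card ≤ 1 ∨ (X ∩ U).card ≤ 1 := by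
  have e1 : X ∩ insert e U = X ∩ U := by
    ext a
    have := r2_mem hXY hd a
    rw [Finset.mem_inter, Finset.mem_inter, Finset.mem_insert]
    constructor
    · rintro ⟨h3, rfl | h4⟩
      · exact absurd rfl (this.1.1 (Or.inl h3)).1
      · exact ⟨h3, h4⟩
    · rintro ⟨h3, h4⟩
      exact ⟨h3, Or.inr h4⟩
  have e2 : Y ∩ insert e W = Y ∩ W := by
    ext a
    have := r2_mem hXY hd a
    rw [Finset.mem_inter, Finset.mem_inter, Finset.mem_insert]
    constructor
    · rintro ⟨h3, rfl | h4⟩
      · exact absurd rfl (this.1.1 (Or.inr h3)).1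
      · exact ⟨h3, h4⟩
    · rintro ⟨h3, h4⟩
      exact ⟨h3, Or.inr h4⟩
  have e3 : S \ (Y ∩ W) = X ∪ insert e U := by
    ext a
    have m1 := r2_mem hXY hd a
    have m2 := r2_mem hUW hd' a
    rw [Finset.mem_sdiff, Finset.mem_inter, Finset.mem_union, Finset.mem_insert]
    by_cases hae : a = e
    · have := he
      rw [← hae] at this
      tauto
    · tauto
  have e4 : S \ (X ∩ U) = Y ∪ insert e W := by
    ext a
    have m1 := r2_mem hXY hd a
    have m2 := r2_mem hUW hd' a
    rw [Finset.mem_sdiff, Finset.mem_inter, Finset.mem_union, Finset.mem_insert]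
    by_cases hae : a = e
    · have := he
      rw [← hae] at this
      tauto
    · tauto
  have s1 := hr.sub X (insert e U)
  have s2 := hr.sub Y (insert e W)
  rw [e1] at s1
  rw [e2] at s2
  have hsub1 : Y ∩ W ⊆ S := fun a ha =>
    (((r2_mem hXY hd a).1.1 (Or.inr (Finset.mem_inter.1 ha).1))).2
  have hsub2 : X ∩ U ⊆ S := fun a ha =>
    (((r2_mem hXY hd a).1.1 (Or.inl (Finset.mem_inter.1 ha).1))).2
  have c1 : 3 ≤ (S \ (Y ∩ W)).card := by
    rw [e3]
    exact hX.trans (Finset.card_le_card Finset.subset_union_left)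
  have c2 : 3 ≤ (S \ (X ∩ U)).card := by
    rw [e4]
    exact hY.trans (Finset.card_le_card Finset.subset_union_left)
  by_contra hcon
  push Not at hcon
  obtain ⟨g1, g2⟩ := hcon
  have l1 := (hS.2 _ hsub1 (Finset.card_pos.1 (by omega)) (Finset.card_pos.1 (by omega))).2
    (by omega) (by omega)
  have l2 := (hS.2 _ hsub2 (Finset.card_pos.1 (by omega)) (Finset.card_pos.1 (by omega))).2
    (by omega) (by omega)
  unfold lam at l1 l2
  rw [e3] at l1
  rw [e4] at l2
  omega

private theorem r2_card (hXY : X ⊆ S.erase e) (hUW : U ∪ W = S.erase e) (hd' : Disjoint U W) :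
    X.card = (X ∩ U).card + (X ∩ W).card := by
  rw [← Finset.card_union_of_disjoint]
  · rw [← Finset.inter_union_distrib_left, hUW, Finset.inter_eq_left.2 hXY]
  · exact hd'.mono Finset.inter_subset_right Finset.inter_subset_right

theorem bixby (hr : IsRk r) (hS : Conn3 r S) (he : e ∈ S)
    (hXY : X ∪ Y = S.erase e) (hd : Disjoint X Y) (hX : 3 ≤ X.card) (hY : 3 ≤ Y.card)
    (h1 : lam r (S.erase e) X ≤ 1)
    (hUW : U ∪ W = S.erase e) (hd' : Disjoint U W) (hU : 3 ≤ U.card) (hW : 3 ≤ W.card)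
    (h2 : lam (ctr r {e}) (S.erase e) U ≤ 1) : False := by
  have hre : r {e} = 1 := hS.rank_one hr he
  have hrS : r (S.erase e) = r S := by
    have := hS.corank hr he he
    rwa [Finset.pair_eq_singleton, Finset.sdiff_singleton_eq_erase] at this
  have h1' : r X + r Y ≤ r S + 1 := by
    unfold lam at h1
    rw [r2_compl hXY hd, hrS] at h1
    linarith
  have h2' : r (insert e U) + r (insert e W) ≤ r S + 2 := by
    unfold lam ctr at h2
    rw [r2_compl hUW hd', hre, ← Finset.insert_eq, ← Finset.insert_eq, ← Finset.insert_eq,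
      Finset.insert_erase he] at h2
    linarith
  have k1 := r2_cross hr hS he hXY hd hX hY h1' hUW hd' h2'
  have k2 := r2_cross (U := W) (W := U) hr hS he hXY hd hX hY h1'
    (by rw [Finset.union_comm]; exact hUW) hd'.symm (by linarith)
  have sX : X ⊆ S.erase e := by rw [← hXY]; exact Finset.subset_union_left
  have sY : Y ⊆ S.erase e := by rw [← hXY]; exact Finset.subset_union_right
  have sU : U ⊆ S.erase e := by rw [← hUW]; exact Finset.subset_union_left
  have sW : W ⊆ S.erase e := by rw [← hUW]; exact Finset.subset_union_right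
  have q1 := r2_card sX hUW hd'
  have q2 := r2_card sY hUW hd'
  have q3 := r2_card sU hXY hd
  have q4 := r2_card sW hXY hd
  rw [Finset.inter_comm U X, Finset.inter_comm U Y] at q3
  rw [Finset.inter_comm W X, Finset.inter_comm W Y] at q4
  omega

end Pool.Agent.G4
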