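import Pool.Agent.G4.R1b

set_option autoImplicit false

/-!
# Module R3: contraction of an element of a series triple

PROOF. `r {a, b} = 2` (`Conn3.rank_two`), so `lam r (S - e) {a, b} ≤ 1` gives
`r (S \ {a, b, e}) ≤ r (S - e) - 1 ≤ r S - 1`, and in the same way `r (S \ {b, c, e}) ≤ r S - 1`. The
union of these two sets is `S \ {b, e}`, of rank `r S` (`Conn3.corank`), so by submodularity the
intersection `S \ {a, b, c, e}` has rank at most `r S - 2`.
For two different elements `u, w` of `{b, c, e}`: `r (S \ {a, u, w}) ≤ r (S \ {a, b, c, e}) + 1 ≤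
r S - 1` (one element added), and `r (S \ {u, w}) = r S` (`Conn3.corank`); so (`IsRk.submod`) for
every `X ⊆ S \ {a, u, w}`: `r (insert a X) ≥ r X + 1`.  (*)
Let `(X, Y)` be a partition of `S - a` into nonempty sets. Since `r {a} = 1`:
`lam (ctr r {a}) (S - a) X = r (X + a) + r (Y + a) - r S - 1`. Two of `b`, `c`, `e` are in `X` or
two are in `Y`. If two are in `Y` then (*) for `X` gives
`lam r S X = r X + r (Y + a) - r S ≤ lam (ctr r {a}) (S - a) X`; by `Conn3` the left side is `≥ 1`,
and `≥ 2` if `X` and `Y` have at least two elements. If two are in `X` use `Y` instead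
(`lam r S Y = r Y + r (X + a) - r S`).
`4 ≤ (S.erase a).card` from `5 ≤ S.card`.
-/

namespace Pool.Agent.G4

open Finset

variable {r : Finset ℕ → ℤ} {S : Finset ℕ} {a b c e : ℕ}

theorem conn3_ctr_of_triple (hr : IsRk r) (hS : Conn3 r S) (h5 : 5 ≤ S.card) (he : e ∈ S)
    (ha : a ∈ S.erase e) (hb : b ∈ S.erase e) (hc : c ∈ S.erase e)
    (hab : a ≠ b) (hbc : b ≠ c) (hac : a ≠ c)
    (h1 : lam r (S.erase e) {a, b} ≤ 1) (h2 : lam r (S.erase e) {b, c} ≤ 1) :
    Conn3 (ctr r {a}) (S.erase a) := by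
  obtain ⟨hae, haS⟩ := mem_erase.1 ha
  obtain ⟨hbe, hbS⟩ := mem_erase.1 hb
  obtain ⟨hce, hcS⟩ := mem_erase.1 hc
  have r1 := hS.rank_two hr haS hbS hab
  have r2 := hS.rank_two hr hbS hcS hbc
  have ra := hS.rank_one hr haS
  unfold lam at h1 h2
  have m1 : r (S.erase e) ≤ r S := hr.mono' (erase_subset _ _)
  -- the intersection
  have hT : r (S \ {a, b, c, e}) ≤ r S - 2 := by
    have hsub := hr.sub (S.erase e \ {a, b}) (S.erase e \ {b, c})
    have e1 : S.erase e \ {a, b} ∪ S.erase e \ {b, c} = S \ {b, e} := by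
      ext x
      simp only [mem_union, mem_sdiff, mem_erase, mem_insert, mem_singleton]
      constructor
      · tauto
      · rintro ⟨h3, h4⟩
        by_cases hxa : x = a
        · subst hxa
          right
          tauto
        · left
          tauto
    have e2 : (S.erase e \ {a, b}) ∩ (S.erase e \ {b, c}) = S \ {a, b, c, e} := by
      ext x
      simp only [mem_inter, mem_sdiff, mem_erase, mem_insert, mem_singleton]
      tauto
    rw [e1, e2, hS.corank hr hbS he] at hsub
    linarith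
  -- property (*)
  have star : ∀ u w : ℕ, u ≠ w → (u = b ∨ u = c ∨ u = e) → (w = b ∨ w = c ∨ w = e) →
      ∀ X : Finset ℕ, X ⊆ S.erase a → u ∉ X → w ∉ X → r X + 1 ≤ r (insert a X) := by
    intro u w huw hu hw X hX huX hwX
    have huS : u ∈ S ∧ u ≠ a := by
      rcases hu with rfl | rfl | rfl
      · exact ⟨hbS, hab.symm⟩
      · exact ⟨hcS, hac.symm⟩
      · exact ⟨he, hae.symm⟩
    have hwS : w ∈ S ∧ w ≠ a := by
      rcases hw with rfl | rfl | rfl
      · exact ⟨hbS, hab.symm⟩
      · exact ⟨hcS, hac.symm⟩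
      · exact ⟨he, hae.symm⟩
    have hv : ∃ v, S \ {a, u, w} ⊆ insert v (S \ {a, b, c, e}) := by
      rcases hu with rfl | rfl | rfl <;> rcases hw with rfl | rfl | rfl
      · exact absurd rfl huw
      · exact ⟨e, fun x => by simp only [mem_insert, mem_sdiff, mem_singleton]; tauto⟩
      · exact ⟨c, fun x => by simp only [mem_insert, mem_sdiff, mem_singleton]; tauto⟩
      · exact ⟨e, fun x => by simp only [mem_insert, mem_sdiff, mem_singleton]; tauto⟩
      · exact absurd rfl huw
      · exact ⟨b, fun x => by simp only [mem_insert, mem_sdiff, mem_singleton]; tauto⟩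
      · exact ⟨c, fun x => by simp only [mem_insert, mem_sdiff, mem_singleton]; tauto⟩
      · exact ⟨b, fun x => by simp only [mem_insert, mem_sdiff, mem_singleton]; tauto⟩
      · exact absurd rfl huw
    obtain ⟨v, hv⟩ := hv
    have h3 : r (S \ {a, u, w}) ≤ r S - 1 := by
      have h4 := hr.mono' hv
      have h5 := hr.unit (S \ {a, b, c, e}) v
      linarith
    have h4 : X ⊆ S \ {a, u, w} := by
      intro x hx
      have hx1 := mem_erase.1 (hX hx)
      rw [mem_sdiff, mem_insert, mem_insert, mem_singleton]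
      refine ⟨hx1.2, ?_⟩
      rintro (h6 | h6 | h6)
      · exact hx1.1 h6
      · exact huX (h6 ▸ hx)
      · exact hwX (h6 ▸ hx)
    have h6 : Disjoint ({a} : Finset ℕ) (S \ {a, u, w}) := by
      rw [disjoint_singleton_left, mem_sdiff]
      intro h7
      exact h7.2 (mem_insert_self _ _)
    have h7 := hr.submod h4 h6
    have h8 : S \ {a, u, w} ∪ {a} = S \ {u, w} := by
      ext x
      simp only [mem_union, mem_sdiff, mem_insert, mem_singleton]
      constructor
      · rintro (h9 | h9)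
        · tauto
        · subst h9
          exact ⟨haS, fun h10 => by
            rcases h10 with h10 | h10
            · exact huS.2 h10.symm
            · exact hwS.2 h10.symm⟩
      · rintro ⟨h9, h10⟩
        by_cases hxa : x = a
        · exact Or.inr hxa
        · left
          tauto
    rw [h8, hS.corank hr huS.1 hwS.1, union_comm X, ← insert_eq] at h7
    linarith
  -- one side contains two elements of the triple
  have side : ∀ X Y : Finset ℕ, X ∪ Y = S.erase a → Disjoint X Y → X.Nonempty → Y.Nonempty →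
      (∃ u w : ℕ, u ≠ w ∧ (u = b ∨ u = c ∨ u = e) ∧ (w = b ∨ w = c ∨ w = e) ∧ u ∈ Y ∧ w ∈ Y) →
      1 ≤ r (insert a X) + r (insert a Y) - r S - 1 ∧ (2 ≤ X.card → 2 ≤ Y.card →
        2 ≤ r (insert a X) + r (insert a Y) - r S - 1) := by
    rintro X Y hXY hd hX hY ⟨u, w, huw, hu, hw, huY, hwY⟩
    have hXs : X ⊆ S.erase a := hXY ▸ subset_union_left
    have h3 := star u w huw hu hw X hXs (fun h4 => disjoint_left.1 hd h4 huY)
      (fun h4 => disjoint_left.1 hd h4 hwY)
    have h4 : S \ X = insert a Y := by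
      ext x
      have h5 : x ∈ X ∪ Y ↔ x ∈ S.erase a := by rw [hXY]
      have h6 : x ∈ X → x ∉ Y := fun h7 => disjoint_left.1 hd h7
      rw [mem_union, mem_erase] at h5
      rw [mem_sdiff, mem_insert]
      by_cases hxa : x = a
      · subst hxa
        have h7 : x ∉ X := fun h8 => (mem_erase.1 (hXs h8)).1 rfl
        tauto
      · tauto
    have haY : a ∉ Y := fun h6 => by
      have h7 : a ∈ S.erase a := hXY ▸ mem_union_right X h6
      exact (mem_erase.1 h7).1 rfl
    have h5 := hS.2 X (hXs.trans (erase_subset _ _)) hX (by rw [h4]; exact insert_nonempty _ _)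
    unfold lam at h5
    rw [h4] at h5
    refine ⟨by linarith [h5.1], fun h6 h7 => ?_⟩
    have h8 : 2 ≤ (insert a Y).card := by
      rw [card_insert_of_notMem haY]
      omega
    linarith [h5.2 h6 h8]
  refine ⟨by rw [card_erase_of_mem haS]; omega, fun X hX hX1 hX2 => ?_⟩
  have hlam : lam (ctr r {a}) (S.erase a) X =
      r (insert a X) + r (insert a (S.erase a \ X)) - r S - 1 := by
    unfold lam Pool.Agent.G4.ctr
    rw [ra, ← insert_eq, ← insert_eq, ← insert_eq, insert_erase haS]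
    ring
  rw [hlam]
  have hXY : X ∪ (S.erase a \ X) = S.erase a := union_sdiff_of_subset hX
  have hYX : (S.erase a \ X) ∪ X = S.erase a := by rw [union_comm, hXY]
  have hd : Disjoint X (S.erase a \ X) := disjoint_sdiff
  have hmem : ∀ x, (x = b ∨ x = c ∨ x = e) → x ∈ X ∨ x ∈ S.erase a \ X := by
    intro x hx
    rw [← mem_union, hXY, mem_erase]
    rcases hx with rfl | rfl | rfl
    · exact ⟨hab.symm, hbS⟩
    · exact ⟨hac.symm, hcS⟩
    · exact ⟨hae.symm, he⟩
  have hsw : (∃ u w : ℕ, u ≠ w ∧ (u = b ∨ u = c ∨ u = e) ∧ (w = b ∨ w = c ∨ w = e) ∧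
      u ∈ S.erase a \ X ∧ w ∈ S.erase a \ X) ∨
      (∃ u w : ℕ, u ≠ w ∧ (u = b ∨ u = c ∨ u = e) ∧ (w = b ∨ w = c ∨ w = e) ∧ u ∈ X ∧ w ∈ X) := by
    rcases hmem b (Or.inl rfl) with hb' | hb' <;> rcases hmem c (Or.inr (Or.inl rfl)) with hc' | hc' <;>
      rcases hmem e (Or.inr (Or.inr rfl)) with he' | he'
    · exact Or.inr ⟨b, c, hbc, Or.inl rfl, Or.inr (Or.inl rfl), hb', hc'⟩
    · exact Or.inr ⟨b, c, hbc, Or.inl rfl, Or.inr (Or.inl rfl), hb', hc'⟩
    · exact Or.inr ⟨b, e, hbe, Or.inl rfl, Or.inr (Or.inr rfl), hb', he'⟩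
    · exact Or.inl ⟨c, e, hce, Or.inr (Or.inl rfl), Or.inr (Or.inr rfl), hc', he'⟩
    · exact Or.inr ⟨c, e, hce, Or.inr (Or.inl rfl), Or.inr (Or.inr rfl), hc', he'⟩
    · exact Or.inl ⟨b, e, hbe, Or.inl rfl, Or.inr (Or.inr rfl), hb', he'⟩
    · exact Or.inl ⟨b, c, hbc, Or.inl rfl, Or.inr (Or.inl rfl), hb', hc'⟩
    · exact Or.inl ⟨b, c, hbc, Or.inl rfl, Or.inr (Or.inl rfl), hb', hc'⟩
  rcases hsw with hsw | hsw
  · exact side X _ hXY hd hX1 hX2 hsw
  · have h3 := side _ X hYX hd.symm hX2 hX1 hsw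
    refine ⟨by linarith [h3.1], fun h6 h7 => by linarith [h3.2 h7 h6]⟩

end Pool.Agent.G4
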