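import Pool.Agent.G4.R1b

set_option autoImplicit false

/-!
# Module R4: moving the part of a `U_{2,4}` minor on the small side of a 2-separation

Write `k(A, A') = r A + r A' - r (A ∪ A')`. It is nonnegative, monotone in both arguments, and for
`A₁ ⊆ A`, `A₁' ⊆ A'`:  `k(A, A₁') + k(A₁, A') ≤ k(A, A') + k(A₁, A₁')`  (**)
(this is `r (A ∪ A') + r (A₁ ∪ A₁') ≤ r (A ∪ A₁') + r (A₁ ∪ A')`: submodularity and monotonicity).
`h1`: `k(X, Y) ≤ 1`; `h2`: `k(X, Y') ≥ 1`; so both are `1`.
Put `π A = k(A, Y)` for `A ⊆ X` (zero or one). If `Q ⊆ Y` and `k(X, Q) = 1` then `k(A, Q) = π A` for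
all `A ⊆ X` (`≤` monotone, `≥` by (**) with `A₁ = A`, `A₁' = Q`). If `k(X, Q) = 0` then
`k(A, Q) = 0`.
1. Choose `C' ⊆ Y'` maximal with `k(X, C') = 0` (`∅` is one); `C' ≠ Y'`, so there is
`z' ∈ Y' \ C'`, and `k(X, C' + z') = 1`. Then `r (C' + z') = r C' + 1` (otherwise `C'` and
`C' + z'` have the same `k` with `X`: `r (X ∪ C' + z') ≥ r (X ∪ C')`).
2. Let `(C, Z)` be the witness, `C_X = C ∩ X`, `C_Y = C ∩ Y`. At most one element of `Z` is in `Y`.
 (a) `Z ⊆ X`, `k(X, C_Y) = 0`: the witness `(C_X, Z)` works, since for `A ⊆ X`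
 `r (A ∪ C_Y) = r A + r C_Y`.
 (b) `Z ⊆ X`, `k(X, C_Y) = 1`: the witness `(C_X ∪ C' + z', Z)` works: for `A ⊆ X`
 `r (A ∪ Q) = r A + r Q - π A` for `Q = C_Y` and for `Q = C' + z'`, so
 `ctr r (C_X ∪ Q) A = r (C_X ∪ A) - r C_X - π (C_X ∪ A) + π C_X` is the same for both `Q`.
 (c) `Z ∩ Y = {z₄}`: `k(X, C_Y) = 0` and `k(X, C_Y + z₄) = 1`, because otherwise
 `k(A, C_Y)` and `k(A, C_Y + z₄)` are the same function of `A ⊆ X` (zero or `π`), so
 `r (A ∪ C_Y + z₄) - r (A ∪ C_Y)` does not depend on `A ⊆ X`; but for `A = C_X` it is `1` and for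
 `A = C_X ∪ (Z ∩ X)` it is `0` (`ctr r C` of `∅`, `{z₄}`, `Z ∩ X`, `Z` is `0, 1, 2, 2`). So for
 `A ⊆ X`: `r (A ∪ C_Y) = r A + r C_Y`, `r (A ∪ C_Y + z₄) = r A + r (C_Y + z₄) - π A`; with `A = C_X`:
 `1 = r (C_Y + z₄) - r C_Y - π C_X`, so `π C_X = 0` and `r (C_Y + z₄) = r C_Y + 1`. Therefore
 `ctr r C A = r (C_X ∪ A) - r C_X` and `ctr r C (A + z₄) = r (C_X ∪ A) - r C_X + 1 - π (C_X ∪ A)`
 for `A ⊆ Z ∩ X`, and the same formulas hold for the witness `(C_X ∪ C', (Z ∩ X) + z')`.
-/

namespace Pool.Agent.G4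

open Finset

variable {r : Finset ℕ → ℤ} {X Y Y' C Z : Finset ℕ}

private theorem sub4 (hr : IsRk r) {P Q U V : Finset ℕ} (hU : U = P ∪ Q) (hV : V ⊆ P ∩ Q) :
    r U + r V ≤ r P + r Q := by
  have h1 := hr.sub P Q
  have h2 := hr.mono' hV
  rw [hU]
  linarith

private theorem k_nonneg (hr : IsRk r) (A B : Finset ℕ) : r (A ∪ B) ≤ r A + r B := by
  have := sub4 hr (P := A) (Q := B) (U := A ∪ B) (V := ∅) rfl (by simp)
  have h0 := hr.empty
  linarith

/-- monotone in the second argument -/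
private theorem k_mono (hr : IsRk r) {A B B' : Finset ℕ} (h : B ⊆ B') :
    r A + r B - r (A ∪ B) ≤ r A + r B' - r (A ∪ B') := by
  have := sub4 hr (P := B') (Q := A ∪ B) (U := A ∪ B') (V := B)
    (by ext x; simp only [mem_union]; constructor
        · rintro (h1 | h1)
          · exact Or.inr (Or.inl h1)
          · exact Or.inl h1
        · rintro (h1 | h1 | h1)
          · exact Or.inr h1
          · exact Or.inl h1
          · exact Or.inr (h h1))
    (by intro x hx; simp only [mem_inter, mem_union]; exact ⟨h hx, Or.inr hx⟩)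
  linarith

/-- monotone in the first argument -/
private theorem k_mono1 (hr : IsRk r) {A A' B : Finset ℕ} (h : A ⊆ A') :
    r A + r B - r (A ∪ B) ≤ r A' + r B - r (A' ∪ B) := by
  have := k_mono hr (A := B) h
  rw [union_comm A B, union_comm A' B]
  linarith

private theorem k_star (hr : IsRk r) {A A₁ B B₁ : Finset ℕ} (hA : A₁ ⊆ A) (hB : B₁ ⊆ B) :
    (r A + r B₁ - r (A ∪ B₁)) + (r A₁ + r B - r (A₁ ∪ B)) ≤
      (r A + r B - r (A ∪ B)) + (r A₁ + r B₁ - r (A₁ ∪ B₁)) := by
  have := sub4 hr (P := A ∪ B₁) (Q := A₁ ∪ B) (U := A ∪ B) (V := A₁ ∪ B₁)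
    (by ext x; simp only [mem_union]; constructor
        · rintro (h1 | h1)
          · exact Or.inl (Or.inl h1)
          · exact Or.inr (Or.inr h1)
        · rintro ((h1 | h1) | (h1 | h1))
          · exact Or.inl h1
          · exact Or.inr (hB h1)
          · exact Or.inl (hA h1)
          · exact Or.inr h1)
    (by intro x hx; simp only [mem_inter, mem_union] at hx ⊢
        rcases hx with h1 | h1
        · exact ⟨Or.inl (hA h1), Or.inl h1⟩
        · exact ⟨Or.inr h1, Or.inr (hB h1)⟩)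
  linarith

/-- the function `k(A, Q)` for `A ⊆ X` is zero if `k(X, Q) = 0` -/
private theorem k_zero (hr : IsRk r) {Q A : Finset ℕ} (hA : A ⊆ X)
    (h : r X + r Q - r (X ∪ Q) = 0) : r (A ∪ Q) = r A + r Q := by
  have h1 := k_mono1 hr (B := Q) hA
  have h2 := k_nonneg hr A Q
  linarith

/-- the function `k(A, Q)` for `A ⊆ X` is `k(A, Y)` if `k(X, Q) = 1` -/
private theorem k_one (hr : IsRk r) {Q A : Finset ℕ} (hQ : Q ⊆ Y) (hA : A ⊆ X)
    (h1 : r X + r Y - r (X ∪ Y) ≤ 1)
    (h : r X + r Q - r (X ∪ Q) = 1) :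
    r (A ∪ Q) = r A + r Q - (r A + r Y - r (A ∪ Y)) := by
  have h2 := k_mono hr (A := A) hQ
  have h3 := k_star hr hA hQ
  linarith

private theorem k_or (hr : IsRk r) {Q : Finset ℕ} (hQ : Q ⊆ Y)
    (h1 : r X + r Y - r (X ∪ Y) ≤ 1) :
    r X + r Q - r (X ∪ Q) = 0 ∨ r X + r Q - r (X ∪ Q) = 1 := by
  have h2 := k_mono hr (A := X) hQ
  have h3 := k_nonneg hr X Q
  omega

private theorem exists_flat (hr : IsRk r) (h1 : r X + r Y - r (X ∪ Y) ≤ 1) :
    ∀ Y' : Finset ℕ, Y' ⊆ Y → r X + r Y' - r (X ∪ Y') = 1 →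
      ∃ C' ⊆ Y', ∃ z ∈ Y', z ∉ C' ∧ r X + r C' - r (X ∪ C') = 0 ∧
        r X + r (insert z C') - r (X ∪ insert z C') = 1 := by
  intro Y'
  induction Y' using Finset.induction_on with
  | empty =>
    intro _ h
    have := hr.empty
    simp [this] at h
  | insert a s has ih =>
    intro hY' h
    have hs : s ⊆ Y := (subset_insert a s).trans hY'
    rcases k_or hr hs h1 with h0 | h0
    · exact ⟨s, subset_insert a s, a, mem_insert_self a s, has, h0, h⟩
    · obtain ⟨C', hC', z, hz, h2, h3, h4⟩ := ih hs h0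
      exact ⟨C', hC'.trans (subset_insert a s), z, mem_insert_of_mem hz, h2, h3, h4⟩

private theorem rk_ins (hr : IsRk r) {Q : Finset ℕ} {z : ℕ}
    (h0 : r X + r Q - r (X ∪ Q) = 0)
    (h1 : r X + r (insert z Q) - r (X ∪ insert z Q) = 1) : r (insert z Q) = r Q + 1 := by
  have h2 := hr.unit Q z
  have h3 : r (X ∪ Q) ≤ r (X ∪ insert z Q) :=
    hr.mono' (union_subset_union_right (subset_insert z Q))
  linarith

theorem u24_keep (hr : IsRk r) (hd : Disjoint X Y) (hY' : Y' ⊆ Y)
    (hC : C ⊆ X ∪ Y) (hZ : Z ⊆ X ∪ Y) (hCZ : Disjoint C Z) (h4 : Z.card = 4)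
    (hu : ∀ A ⊆ Z, ctr r C A = min (A.card : ℤ) 2) (h3 : 3 ≤ (Z ∩ X).card)
    (h1 : lam r (X ∪ Y) X ≤ 1) (h2 : 1 ≤ lam r (X ∪ Y') X) : U24 r (X ∪ Y') := by
  have hd' : Disjoint X Y' := disjoint_of_subset_right hY' hd
  have e1 : (X ∪ Y) \ X = Y := by
    rw [union_sdiff_left]; exact sdiff_eq_self_of_disjoint hd.symm
  have e2 : (X ∪ Y') \ X = Y' := by
    rw [union_sdiff_left]; exact sdiff_eq_self_of_disjoint hd'.symm
  have h1' : r X + r Y - r (X ∪ Y) ≤ 1 := by
    have := h1
    unfold lam at this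
    rwa [e1] at this
  have h2' : r X + r Y' - r (X ∪ Y') = 1 := by
    have h5 := h2
    unfold lam at h5
    rw [e2] at h5
    have h6 := k_mono hr (A := X) hY'
    linarith
  obtain ⟨C', hC', z, hz, hzC, h5, h6⟩ := exists_flat hr h1' Y' hY' h2'
  have hC'Y : C' ⊆ Y := hC'.trans hY'
  have hzC' : insert z C' ⊆ Y' := insert_subset hz hC'
  have hzCY : insert z C' ⊆ Y := hzC'.trans hY'
  have h7 : r (insert z C') = r C' + 1 := rk_ins hr h5 h6
  -- the decomposition of `C`
  have eC : C = (C ∩ X) ∪ (C ∩ Y) := by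
    rw [← inter_union_distrib_left]; exact (inter_eq_left.2 hC).symm
  have hCX : C ∩ X ⊆ X := inter_subset_right
  have hCY : C ∩ Y ⊆ Y := inter_subset_right
  have hCZX : Disjoint (C ∩ X) Z := disjoint_of_subset_left inter_subset_left hCZ
  have hzX : z ∉ X := fun h => (disjoint_left.1 hd' h) hz
  have key : ∀ A : Finset ℕ, C ∪ A = ((C ∩ X) ∪ A) ∪ (C ∩ Y) := by
    intro A
    conv_lhs => rw [eC]
    ext x
    simp only [mem_union]
    tauto
  by_cases hZX : Z ⊆ X
  · have hAX : ∀ A ⊆ Z, (C ∩ X) ∪ A ⊆ X := fun A hA => union_subset hCX (hA.trans hZX)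
    rcases k_or hr hCY h1' with h8 | h8
    · -- case (a)
      refine ⟨C ∩ X, Z, hCX.trans subset_union_left, hZX.trans subset_union_left, hCZX, h4, ?_⟩
      intro A hA
      have h9 := hu A hA
      unfold ctr at h9 ⊢
      have h10 := k_zero hr (hAX A hA) h8
      have h11 := k_zero hr (A := C ∩ X) hCX h8
      rw [key A, h10] at h9
      rw [← eC] at h11
      rw [h11] at h9
      linarith
    · -- case (b)
      refine ⟨(C ∩ X) ∪ insert z C', Z, union_subset_union hCX hzC', hZX.trans subset_union_left,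
        ?_, h4, ?_⟩
      · rw [disjoint_union_left]
        refine ⟨hCZX, ?_⟩
        exact disjoint_of_subset_right hZX (disjoint_of_subset_left hzC' hd'.symm)
      · intro A hA
        have h9 := hu A hA
        unfold ctr at h9 ⊢
        have h10 := k_one hr hCY (hAX A hA) h1' h8
        have h11 := k_one hr hCY (A := C ∩ X) hCX h1' h8
        have h12 := k_one hr hzCY (hAX A hA) h1' h6
        have h13 := k_one hr hzCY (A := C ∩ X) hCX h1' h6
        rw [key A, h10] at h9
        rw [← eC] at h11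
        rw [h11] at h9
        have e3 : (C ∩ X) ∪ insert z C' ∪ A = ((C ∩ X) ∪ A) ∪ insert z C' := by
          rw [union_assoc, union_comm (insert z C') A, ← union_assoc]
        rw [e3, h12, h13]
        linarith
  · -- case (c)
    obtain ⟨w, hwZ, hwX⟩ := not_subset.1 hZX
    have hwY : w ∈ Y := by
      rcases mem_union.1 (hZ hwZ) with h | h
      · exact absurd h hwX
      · exact h
    have hwZX : w ∉ Z ∩ X := fun h => hwX (mem_inter.1 h).2
    have hwC : w ∉ C := fun h => (disjoint_left.1 hCZ h) hwZ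
    have hsub : insert w (Z ∩ X) ⊆ Z := insert_subset hwZ inter_subset_left
    have hcard : (insert w (Z ∩ X)).card = (Z ∩ X).card + 1 := card_insert_of_notMem hwZX
    have hle := card_le_card hsub
    have hZX3 : (Z ∩ X).card = 3 := by omega
    have hZe : insert w (Z ∩ X) = Z := eq_of_subset_of_card_le hsub (by omega)
    have hwCY : insert w (C ∩ Y) ⊆ Y := insert_subset hwY hCY
    have hAX : ∀ A ⊆ Z ∩ X, (C ∩ X) ∪ A ⊆ X := fun A hA =>
      union_subset hCX (hA.trans inter_subset_right)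
    have key2 : ∀ A : Finset ℕ, C ∪ insert w A = ((C ∩ X) ∪ A) ∪ insert w (C ∩ Y) := by
      intro A
      conv_lhs => rw [eC]
      ext x
      simp only [mem_union, mem_insert]
      tauto
    have eC' : C = (C ∩ X) ∪ (C ∩ Y) := eC
    have u1 : r (((C ∩ X) ∪ ∅) ∪ insert w (C ∩ Y)) - r C = 1 := by
      have h9 := hu (insert w ∅) (insert_subset hwZ (empty_subset _))
      unfold ctr at h9
      rw [key2 ∅] at h9
      simpa using h9
    have u2 : r (((C ∩ X) ∪ (Z ∩ X)) ∪ insert w (C ∩ Y)) - r C = 2 := by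
      have h9 := hu (insert w (Z ∩ X)) hsub
      unfold ctr at h9
      rw [key2 (Z ∩ X), hcard, hZX3] at h9
      simpa using h9
    have u3 : r (((C ∩ X) ∪ (Z ∩ X)) ∪ (C ∩ Y)) - r C = 2 := by
      have h9 := hu (Z ∩ X) inter_subset_left
      unfold ctr at h9
      rw [key (Z ∩ X), hZX3] at h9
      simpa using h9
    rw [union_empty] at u1
    have c0 : r X + r (C ∩ Y) - r (X ∪ (C ∩ Y)) = 0 := by
      rcases k_or hr hCY h1' with h | h
      · exact h
      · exfalso
        have h' : r X + r (insert w (C ∩ Y)) - r (X ∪ insert w (C ∩ Y)) = 1 := by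
          rcases k_or hr hwCY h1' with h0 | h0
          · have := k_mono hr (A := X) (subset_insert w (C ∩ Y))
            linarith
          · exact h0
        have a1 := k_one hr hCY (A := C ∩ X) hCX h1' h
        have a2 := k_one hr hCY (A := (C ∩ X) ∪ (Z ∩ X)) (hAX _ (Subset.refl _)) h1' h
        have a3 := k_one hr hwCY (A := C ∩ X) hCX h1' h'
        have a4 := k_one hr hwCY (A := (C ∩ X) ∪ (Z ∩ X)) (hAX _ (Subset.refl _)) h1' h'
        rw [← eC] at a1
        linarith
    have c1 : r X + r (insert w (C ∩ Y)) - r (X ∪ insert w (C ∩ Y)) = 1 := by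
      rcases k_or hr hwCY h1' with h0 | h0
      · exfalso
        have a1 := k_zero hr (A := C ∩ X) hCX c0
        have a2 := k_zero hr (A := (C ∩ X) ∪ (Z ∩ X)) (hAX _ (Subset.refl _)) c0
        have a3 := k_zero hr (A := C ∩ X) hCX h0
        have a4 := k_zero hr (A := (C ∩ X) ∪ (Z ∩ X)) (hAX _ (Subset.refl _)) h0
        rw [← eC] at a1
        linarith
      · exact h0
    have b1 := k_zero hr (A := C ∩ X) hCX c0
    rw [← eC] at b1
    have b2 := k_one hr hwCY (A := C ∩ X) hCX h1' c1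
    have b3 := k_nonneg hr (C ∩ X) Y
    have b4 : r (insert w (C ∩ Y)) = r (C ∩ Y) + 1 := rk_ins hr c0 c1
    have b5 : r (C ∩ X) + r Y - r (C ∩ X ∪ Y) = 0 := by linarith
    refine ⟨(C ∩ X) ∪ C', insert z (Z ∩ X), union_subset_union hCX hC',
      insert_subset (mem_union_right _ hz) (inter_subset_right.trans subset_union_left), ?_, ?_, ?_⟩
    · rw [disjoint_insert_right, disjoint_union_left]
      refine ⟨?_, disjoint_of_subset_right inter_subset_left hCZX, ?_⟩
      · rw [mem_union]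
        rintro (h | h)
        · exact hzX (mem_inter.1 h).2
        · exact hzC h
      · exact disjoint_of_subset_right inter_subset_right (disjoint_of_subset_left hC' hd'.symm)
    · rw [card_insert_of_notMem (fun h => hzX (mem_inter.1 h).2), hZX3]
    · have d0 := k_zero hr (A := C ∩ X) hCX h5
      have main0 : ∀ A ⊆ Z ∩ X, ctr r ((C ∩ X) ∪ C') A = min (A.card : ℤ) 2 := by
        intro A hA
        have h9 := hu A (hA.trans inter_subset_left)
        unfold ctr at h9 ⊢
        have h10 := k_zero hr (hAX A hA) c0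
        have h11 := k_zero hr (hAX A hA) h5
        rw [key A, h10] at h9
        have e3 : (C ∩ X) ∪ C' ∪ A = ((C ∩ X) ∪ A) ∪ C' := by
          rw [union_assoc, union_comm C' A, ← union_assoc]
        rw [e3, h11, d0]
        linarith
      have main1 : ∀ A ⊆ Z ∩ X, ctr r ((C ∩ X) ∪ C') (insert z A) = min ((A.card : ℤ) + 1) 2 := by
        intro A hA
        have hwA : w ∉ A := fun h => hwZX (hA h)
        have h9 := hu (insert w A) ((insert_subset_insert w hA).trans hsub)
        rw [card_insert_of_notMem hwA] at h9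
        unfold ctr at h9 ⊢
        have h10 := k_one hr hwCY (hAX A hA) h1' c1
        have h11 := k_one hr hzCY (hAX A hA) h1' h6
        rw [key2 A, h10] at h9
        have e3 : (C ∩ X) ∪ C' ∪ insert z A = ((C ∩ X) ∪ A) ∪ insert z C' := by
          ext x
          simp only [mem_union, mem_insert]
          tauto
        rw [e3, h11, d0]
        push_cast at h9
        linarith
      intro A hA
      by_cases hzA : z ∈ A
      · have hA' : A.erase z ⊆ Z ∩ X := by
          intro x hx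
          rcases mem_insert.1 (hA (mem_of_mem_erase hx)) with h | h
          · exact absurd h (ne_of_mem_erase hx)
          · exact h
        have h12 := main1 _ hA'
        rw [insert_erase hzA] at h12
        rw [h12]
        have h13 := card_erase_add_one hzA
        congr 1
        exact_mod_cast h13
      · refine main0 A ?_
        intro x hx
        rcases mem_insert.1 (hA hx) with h | h
        · exact absurd (h ▸ hx) hzA
        · exact h

end Pool.Agent.G4
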