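import Pool.Agent.G4.R7a

set_option autoImplicit false

/-!
# Module R7b: contraction of one element of each series pair

`IsSer r S R`: every element `b` of `R` has a partner `a ∈ S \ R` such that `{a, b}` is a series
pair of `r` on `S`.
* `isSer_of_nice`: `S' = S.erase y`. `r {a, b} = 2` (`Conn3.rank_two`), so
  `lam r S' {a, b} ≤ 1` gives `r (S' \ {a, b}) ≤ r S' - 1`; `r (S'.erase a) = r S'` because
  `1 ≤ lam r S' {a} = r {a} + r (S' \ {a}) - r S'` (second part of `Nice`) and `r {a} = 1`
  (`Conn3.rank_one`).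
* `u24_ser`: induction on `R` (generalising `r`, `S`): take `b ∈ R`, partner `a`; `u24_series` gives
  `U24 (ctr r {b}) (S.erase b)`, and `R.erase b` satisfies `IsSer` for `ctr r {b}` and `S.erase b`:
  for `b' ∈ R.erase b` with partner `a'` (`a' ≠ b` because `a' ∉ R`): `ctr r {b} F = r (F + b) - r {b}`
  for `F = S.erase b`, `(S.erase b) \ {a', b'}`, ... and `F + b = S`, `S \ {a', b'}`, ....
  Then `ctr_ctr` and `(S.erase b) \ (R.erase b) = S \ R`, `{b} ∪ R.erase b = R`.
-/

namespace Pool.Agent.G4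

open Finset

variable {r : Finset ℕ → ℤ} {S R : Finset ℕ} {y : ℕ}

/-- every element of `R` is in a series pair with an element outside `R` -/
def IsSer (r : Finset ℕ → ℤ) (S R : Finset ℕ) : Prop :=
  R ⊆ S ∧ ∀ b ∈ R, ∃ a ∈ S \ R, r (S \ {a, b}) < r S ∧ r (S.erase a) = r S ∧ r (S.erase b) = r S

theorem isSer_of_nice (hr : IsRk r) (hS : Conn3 r S) (hy : y ∈ S) (hN : Nice r (S.erase y))
    (hR : Rep1 r (S.erase y) R) : IsSer r (S.erase y) R := by
  refine ⟨hR.1, fun b hb => ?_⟩
  obtain ⟨a, ha, hab, haR, hl⟩ := hR.2.1 b hb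
  have hbS' : b ∈ S.erase y := hR.1 hb
  have haS : a ∈ S := mem_of_mem_erase ha
  have hbS : b ∈ S := mem_of_mem_erase hbS'
  have h2 : r {a, b} = 2 := Conn3.rank_two hr hS haS hbS hab
  have key : ∀ c ∈ S.erase y, ∀ d ∈ S.erase y, d ≠ c → r ((S.erase y).erase c) = r (S.erase y) := by
    intro c hc d hd hdc
    have h1 : r {c} = 1 := Conn3.rank_one hr hS (mem_of_mem_erase hc)
    have h3 := hN.2.1 {c} (singleton_subset_iff.2 hc) (singleton_nonempty c)
      ⟨d, mem_sdiff.2 ⟨hd, fun h => hdc (mem_singleton.1 h)⟩⟩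
    unfold lam at h3
    rw [h1, sdiff_singleton_eq_erase] at h3
    have h4 := hr.mono' (erase_subset c (S.erase y))
    omega
  refine ⟨a, mem_sdiff.2 ⟨ha, haR⟩, ?_, key a ha b hbS' (Ne.symm hab), key b hbS' a ha hab⟩
  unfold lam at hl
  rw [h2] at hl
  omega

theorem u24_ser (hr : IsRk r) (hR : IsSer r S R) (hU : U24 r S) : U24 (ctr r R) (S \ R) := by
  induction R using Finset.induction_on generalizing r S with
  | empty =>
    rw [sdiff_empty]
    exact (U24.congr fun X _ => ctr_empty hr X).2 hU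
  | insert b R hb ih =>
    obtain ⟨hRS, hP⟩ := hR
    have hbS : b ∈ S := hRS (mem_insert_self b R)
    obtain ⟨a, ha, h1, h2, h3⟩ := hP b (mem_insert_self b R)
    rw [mem_sdiff] at ha
    have hab : a ≠ b := fun h => ha.2 (h ▸ mem_insert_self b R)
    have hU' := u24_series hr ha.1 hbS hab h1 h2 h3 hU
    have hSer : IsSer (ctr r {b}) (S.erase b) R := by
      refine ⟨fun x hx => mem_erase.2 ⟨fun h => hb (h ▸ hx), hRS (mem_insert_of_mem hx)⟩,
        fun b' hb' => ?_⟩
      obtain ⟨a', ha', h1', h2', h3'⟩ := hP b' (mem_insert_of_mem hb')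
      rw [mem_sdiff] at ha'
      have ha'b : a' ≠ b := fun h => ha'.2 (h ▸ mem_insert_self b R)
      have hb'b : b' ≠ b := fun h => hb (h ▸ hb')
      have e1 : {b} ∪ S.erase b = S := insert_erase hbS
      have e2 : {b} ∪ (S.erase b \ {a', b'}) = S \ {a', b'} := by
        ext x
        simp only [mem_union, mem_singleton, mem_sdiff, mem_erase, mem_insert]
        constructor
        · rintro (rfl | h)
          · exact ⟨hbS, fun h => h.elim (fun h => ha'b h.symm) fun h => hb'b h.symm⟩
          · exact ⟨h.1.2, h.2⟩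
        · intro h
          by_cases hx : x = b
          · exact Or.inl hx
          · exact Or.inr ⟨⟨hx, h.1⟩, h.2⟩
      have e3 : ∀ c, c ≠ b → {b} ∪ (S.erase b).erase c = S.erase c := by
        intro c hc
        ext x
        simp only [mem_union, mem_singleton, mem_erase]
        constructor
        · rintro (rfl | h)
          · exact ⟨Ne.symm hc, hbS⟩
          · exact ⟨h.1, h.2.2⟩
        · intro h
          by_cases hx : x = b
          · exact Or.inl hx
          · exact Or.inr ⟨h.1, hx, h.2⟩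
      refine ⟨a', mem_sdiff.2 ⟨mem_erase.2 ⟨ha'b, ha'.1⟩, fun h => ha'.2 (mem_insert_of_mem h)⟩,
        ?_, ?_, ?_⟩
      · unfold ctr
        rw [e1, e2]
        omega
      · unfold ctr
        rw [e1, e3 a' ha'b, h2']
      · unfold ctr
        rw [e1, e3 b' hb'b, h3']
    have h4 := ih (hr.ctr {b}) hSer hU'
    have e4 : S.erase b \ R = S \ insert b R := by
      ext x
      simp only [mem_sdiff, mem_erase, mem_insert, not_or]
      tauto
    rw [e4] at h4
    refine (U24.congr fun X _ => ?_).1 h4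
    exact ctr_ctr {b} R X

end Pool.Agent.G4
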