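import Pool.Agent.G4.R7b

set_option autoImplicit false

/-!
# Module R7c: the cosimplification is 3-connected

PROOF. `S' = S.erase y`, `S₂ = S' \ R`, for `b ∈ R` let `π b ∈ S₂` be a partner (`isSer_of_nice`).
1. For `b ∈ R` and `F ⊆ S' \ {π b, b}`: `r (insert b F) = r F + 1` (`r (S'.erase (π b)) = r S' >
r (S' \ {π b, b})`, `IsRk.submod`).
2. So for `R₀ ⊆ R` and `F ⊆ S'` with `F ∩ R₀ = ∅`, `π b ∉ F` for `b ∈ R₀`:
`r (F ∪ R₀) = r F + R₀.card` (induction on `R₀`; `π b ∉ R`). In particular `r R = R.card`.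
3. Let `(X, Y)` be a partition of `S₂`, `X⁺ = X ∪ {b ∈ R : π b ∈ X}`, `Y⁺ = Y ∪ {b ∈ R : π b ∈ Y}`, a
partition of `S'`. By 2. `r (X ∪ R) = r X⁺ + card {b : π b ∈ Y}`,
`r (Y ∪ R) = r Y⁺ + card {b : π b ∈ X}`, so
`lam (ctr r R) S₂ X = r (X ∪ R) + r (Y ∪ R) - r S' - R.card = lam r S' X⁺`.
4. `X`, `Y` nonempty: this is `≥ 1` by the second part of `Nice`. If it is `≤ 1` and `X`, `Y` have at
least two elements then by the third part of `Nice` (say) `X⁺.card ≤ 2`, so `X⁺ = X` has two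
elements `u ≠ w`, `lam r S' {u, w} ≤ 1` and by `Rep1` one of them is in `R`, contradiction
(`X ⊆ S₂`). The case `Y⁺.card ≤ 2` is the same (`lam_compl`).
5. `4 ≤ S₂.card` because of the set `Z` of the `U24` minor (`u24_ser`).
-/

namespace Pool.Agent.G4

open Finset

variable {r : Finset ℕ → ℤ} {S R : Finset ℕ} {y : ℕ}

/-- the element `b` is a coloop of `F ∪ {b}` for `F ⊆ S \ {a, b}` -/
private theorem step1 (hr : IsRk r) {a b : ℕ} {F : Finset ℕ} (hab : a ≠ b) (hb : b ∈ S)
    (h1 : r (S \ {a, b}) < r S) (h2 : r (S.erase a) = r S) (hF : F ⊆ S \ {a, b}) :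
    r (insert b F) = r F + 1 := by
  have h3 := hr.unit F b
  have hd : Disjoint ({b} : Finset ℕ) (S \ {a, b}) := by
    rw [Finset.disjoint_singleton_left]
    simp
  have h4 := hr.submod hF hd
  have h5 : (S \ {a, b}) ∪ {b} = S.erase a := by
    ext x
    simp only [Finset.mem_union, Finset.mem_sdiff, Finset.mem_insert, Finset.mem_singleton,
      Finset.mem_erase]
    constructor
    · rintro (⟨h6, h7⟩ | rfl)
      · exact ⟨fun h8 => h7 (Or.inl h8), h6⟩
      · exact ⟨fun h8 => hab h8.symm, hb⟩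
    · rintro ⟨h6, h7⟩
      by_cases h8 : x = b
      · exact Or.inr h8
      · exact Or.inl ⟨h7, fun h9 => h9.elim h6 h8⟩
  have h6 : F ∪ {b} = insert b F := by
    rw [Finset.union_comm, ← Finset.insert_eq]
  rw [h5, h2, h6] at h4
  omega

/-- the elements of `R₀` are coloops -/
private theorem step2 (hr : IsRk r) {p : ℕ → ℕ} (hRS : R ⊆ S)
    (hp : ∀ b ∈ R, p b ∈ S \ R ∧ r (S \ {p b, b}) < r S ∧ r (S.erase (p b)) = r S)
    {F R₀ : Finset ℕ} (hR₀ : R₀ ⊆ R) (hF : F ⊆ S) (hd : ∀ b ∈ R₀, b ∉ F ∧ p b ∉ F) :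
    r (F ∪ R₀) = r F + (R₀.card : ℤ) := by
  induction R₀ using Finset.induction_on with
  | empty => simp
  | insert b R₁ hb ih =>
    have h1 := ih (fun x hx => hR₀ (Finset.mem_insert_of_mem hx))
      (fun x hx => hd x (Finset.mem_insert_of_mem hx))
    have hbR : b ∈ R := hR₀ (Finset.mem_insert_self _ _)
    obtain ⟨k1, k2, k3⟩ := hp b hbR
    rw [Finset.mem_sdiff] at k1
    have hab : p b ≠ b := fun h => k1.2 (by rw [h]; exact hbR)
    obtain ⟨hbF, hpF⟩ := hd b (Finset.mem_insert_self _ _)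
    have h2 : F ∪ R₁ ⊆ S \ {p b, b} := by
      intro x hx
      rw [Finset.mem_sdiff, Finset.mem_insert, Finset.mem_singleton]
      rcases Finset.mem_union.1 hx with hx | hx
      · refine ⟨hF hx, ?_⟩
        rintro (rfl | rfl)
        · exact hpF hx
        · exact hbF hx
      · have hxR : x ∈ R := hR₀ (Finset.mem_insert_of_mem hx)
        refine ⟨hRS hxR, ?_⟩
        rintro (rfl | rfl)
        · exact k1.2 hxR
        · exact hb hx
    have h3 := step1 hr hab (hRS hbR) k2 k3 h2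
    have h4 : F ∪ insert b R₁ = insert b (F ∪ R₁) := by
      rw [Finset.union_insert]
    rw [h4, h3, h1, Finset.card_insert_of_notMem hb]
    push_cast
    ring

/-- connectivity of `S \ R` in the contraction -/
private theorem step3 (hr : IsRk r) {p : ℕ → ℕ} (hRS : R ⊆ S)
    (hp : ∀ b ∈ R, p b ∈ S \ R ∧ r (S \ {p b, b}) < r S ∧ r (S.erase (p b)) = r S)
    {X : Finset ℕ} (hX : X ⊆ S \ R) :
    lam (ctr r R) (S \ R) X = lam r S (X ∪ R.filter fun b => p b ∈ X) ∧
    S \ (X ∪ R.filter fun b => p b ∈ X) =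
      ((S \ R) \ X) ∪ R.filter fun b => p b ∈ (S \ R) \ X := by
  have hX1 : ∀ x ∈ X, x ∈ S ∧ x ∉ R := fun x hx => Finset.mem_sdiff.1 (hX hx)
  have hpR : ∀ b ∈ R, p b ∈ S ∧ p b ∉ R := fun b hb => Finset.mem_sdiff.1 (hp b hb).1
  have hcomp : S \ (X ∪ R.filter fun b => p b ∈ X) =
      ((S \ R) \ X) ∪ R.filter fun b => p b ∈ (S \ R) \ X := by
    ext x
    simp only [Finset.mem_union, Finset.mem_sdiff, Finset.mem_filter]
    constructor
    · rintro ⟨h1, h2⟩
      by_cases hxR : x ∈ R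
      · right
        exact ⟨hxR, hpR x hxR, fun h3 => h2 (Or.inr ⟨hxR, h3⟩)⟩
      · left
        exact ⟨⟨h1, hxR⟩, fun h3 => h2 (Or.inl h3)⟩
    · rintro (⟨⟨h1, h2⟩, h3⟩ | ⟨h1, ⟨h2, h3⟩, h4⟩)
      · exact ⟨h1, fun h5 => h5.elim h3 (fun h6 => h2 h6.1)⟩
      · exact ⟨hRS h1, fun h5 => h5.elim (fun h6 => (hX1 x h6).2 h1) (fun h6 => h4 h6.2)⟩
  refine ⟨?_, hcomp⟩
  have hR : r R = (R.card : ℤ) := by
    have h1 := step2 hr hRS hp (F := ∅) (R₀ := R) (Finset.Subset.refl R) (Finset.empty_subset _)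
      (fun b _ => ⟨Finset.notMem_empty _, Finset.notMem_empty _⟩)
    rw [Finset.empty_union, hr.empty, zero_add] at h1
    exact h1
  -- the set `X ∪ R`
  have e1 : r (X ∪ R) = r (X ∪ R.filter fun b => p b ∈ X) + ((R.filter fun b => p b ∉ X).card : ℤ) := by
    have h1 : X ∪ R = (X ∪ R.filter fun b => p b ∈ X) ∪ R.filter fun b => p b ∉ X := by
      rw [Finset.union_assoc, Finset.filter_union_filter_not_eq]
    rw [h1]
    refine step2 hr hRS hp (Finset.filter_subset _ _) ?_ ?_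
    · intro x hx
      rcases Finset.mem_union.1 hx with hx | hx
      · exact (hX1 x hx).1
      · exact hRS (Finset.mem_filter.1 hx).1
    · intro b hb
      obtain ⟨hb1, hb2⟩ := Finset.mem_filter.1 hb
      constructor
      · intro h3
        rcases Finset.mem_union.1 h3 with h3 | h3
        · exact (hX1 b h3).2 hb1
        · exact hb2 (Finset.mem_filter.1 h3).2
      · intro h3
        rcases Finset.mem_union.1 h3 with h3 | h3
        · exact hb2 h3
        · exact (hpR b hb1).2 (Finset.mem_filter.1 h3).1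
  have e2 : r (((S \ R) \ X) ∪ R) = r (((S \ R) \ X) ∪ R.filter fun b => p b ∈ (S \ R) \ X) +
      ((R.filter fun b => p b ∉ (S \ R) \ X).card : ℤ) := by
    have h1 : ((S \ R) \ X) ∪ R = (((S \ R) \ X) ∪ R.filter fun b => p b ∈ (S \ R) \ X) ∪
        R.filter fun b => p b ∉ (S \ R) \ X := by
      rw [Finset.union_assoc, Finset.filter_union_filter_not_eq]
    rw [h1]
    refine step2 hr hRS hp (Finset.filter_subset _ _) ?_ ?_
    · intro x hx
      rcases Finset.mem_union.1 hx with hx | hx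
      · exact (Finset.mem_sdiff.1 (Finset.mem_sdiff.1 hx).1).1
      · exact hRS (Finset.mem_filter.1 hx).1
    · intro b hb
      obtain ⟨hb1, hb2⟩ := Finset.mem_filter.1 hb
      constructor
      · intro h3
        rcases Finset.mem_union.1 h3 with h3 | h3
        · exact (Finset.mem_sdiff.1 (Finset.mem_sdiff.1 h3).1).2 hb1
        · exact hb2 (Finset.mem_filter.1 h3).2
      · intro h3
        rcases Finset.mem_union.1 h3 with h3 | h3
        · exact hb2 h3
        · exact (hpR b hb1).2 (Finset.mem_filter.1 h3).1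
  have e3 : (R.filter fun b => p b ∉ (S \ R) \ X) = R.filter fun b => p b ∈ X := by
    ext x
    simp only [Finset.mem_filter, Finset.mem_sdiff]
    constructor
    · rintro ⟨h1, h2⟩
      refine ⟨h1, ?_⟩
      by_contra h3
      exact h2 ⟨hpR x h1, h3⟩
    · rintro ⟨h1, h2⟩
      exact ⟨h1, fun h3 => h3.2 h2⟩
  have e4 : ((R.filter fun b => p b ∈ X).card : ℤ) + ((R.filter fun b => p b ∉ X).card : ℤ) = R.card := by
    exact_mod_cast Finset.card_filter_add_card_filter_not (s := R) (fun b => p b ∈ X)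
  have e5 : R ∪ (S \ R) = S := Finset.union_sdiff_of_subset hRS
  rw [e3] at e2
  simp only [lam, ctr]
  rw [hcomp, e5, Finset.union_comm R X, Finset.union_comm R ((S \ R) \ X), e1, e2, hR]
  linarith

/-- two elements outside `R` are not a pair of connectivity one -/
private theorem step4 {T : Finset ℕ} (hR : Rep1 r T R) {X Z : Finset ℕ} (hX : X ⊆ T \ R)
    (h2 : 2 ≤ X.card) (hZ : X ⊆ Z) (hZc : Z.card ≤ 2) (hl : lam r T Z ≤ 1) : False := by
  have h1 : X = Z := Finset.eq_of_subset_of_card_le hZ (by omega)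
  subst h1
  have h3 : X.card = 2 := le_antisymm hZc h2
  obtain ⟨u, w, huw, rfl⟩ := Finset.card_eq_two.1 h3
  have hu := Finset.mem_sdiff.1 (hX (Finset.mem_insert_self u {w}))
  have hw := Finset.mem_sdiff.1 (hX (Finset.mem_insert_of_mem (Finset.mem_singleton_self w)))
  rcases hR.2.2 u hu.1 w hw.1 huw hl with h | h
  · exact hu.2 h
  · exact hw.2 h

theorem co_conn3 (hr : IsRk r) (hS : Conn3 r S) (hy : y ∈ S) (hN : Nice r (S.erase y))
    (hR : Rep1 r (S.erase y) R) :
    Conn3 (ctr r R) (S.erase y \ R) ∧ U24 (ctr r R) (S.erase y \ R) := by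
  have hSer := isSer_of_nice hr hS hy hN hR
  have hU := u24_ser hr hSer hN.1
  refine ⟨⟨?_, ?_⟩, hU⟩
  · obtain ⟨C, Z, -, hZ, -, hc, -⟩ := hU
    rw [← hc]
    exact Finset.card_le_card hZ
  · have hex : ∀ b, ∃ a, b ∈ R → a ∈ S.erase y \ R ∧ r (S.erase y \ {a, b}) < r (S.erase y) ∧
        r ((S.erase y).erase a) = r (S.erase y) := by
      intro b
      by_cases hb : b ∈ R
      · obtain ⟨a, ha, h1, h2, -⟩ := hSer.2 b hb
        exact ⟨a, fun _ => ⟨ha, h1, h2⟩⟩
      · exact ⟨0, fun h => absurd h hb⟩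
    choose p hp using hex
    intro X hX hXn hYn
    obtain ⟨h1, h2⟩ := step3 hr hSer.1 hp hX
    rw [h1]
    have hsub : X ∪ (R.filter fun b => p b ∈ X) ⊆ S.erase y := by
      intro x hx
      rcases Finset.mem_union.1 hx with hx | hx
      · exact (Finset.mem_sdiff.1 (hX hx)).1
      · exact hSer.1 (Finset.mem_filter.1 hx).1
    refine ⟨?_, ?_⟩
    · refine hN.2.1 _ hsub (hXn.mono Finset.subset_union_left) ?_
      rw [h2]
      exact hYn.mono Finset.subset_union_left
    · intro hX2 hY2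
      by_contra h3
      have h4 : lam r (S.erase y) (X ∪ R.filter fun b => p b ∈ X) ≤ 1 := by omega
      rcases hN.2.2.1 _ hsub h4 with h5 | h5
      · exact step4 hR hX hX2 Finset.subset_union_left h5 h4
      · rw [← lam_compl hsub, h2] at h4
        rw [h2] at h5
        exact step4 hR Finset.sdiff_subset hY2 Finset.subset_union_left h5 h4

end Pool.Agent.G4
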