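import Pool.Agent.G4.Lift2
import Pool.Agent.G4.Lift3
import Pool.Agent.G4.Conn2

set_option autoImplicit false

/-!
# Module S1: Hermitian forms on the matroid with the new rows, without the new column

PROOF. Write `e_p = lft 0 (1 at p.2)` and `h(f, f') = ∑_{i,j ∈ nB} f i * W i j * conj (f' j)`;
then `lft g t = lft g 0 + ∑_{p ∈ P} t p.2 * e_p` (on `nB`), and with
`h(f', f) = conj (h(f, f'))` one gets
`qf (lft g t) = qf (lft g 0) + ∑_p tr (conj (t p) * h(lft g 0, e_p)) + ∑_p nm (t p) * qf e_p +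
 ∑_{p < q} tr (t p * conj (t q) * h(e_p, e_q))`.
1. `h1` with `U = ∅` and `hL` applied to the restriction of `W` to `B` (note `lft f 0 = f` on `B`
   and `0` at the new rows; `qf (nB) W (lft f 0) = qf B W f`): `W i j = 0` for `i, j ∈ B`.
2. `qf e_p = 0` by `h2`.
3. `U = {p}`: `tr (conj (ev f p.1) * φ_p f) = 0` for all `(T, z) ∈ L`, where
   `φ_p g = h(lft g 0, e_p) = ∑_{b ∈ B} g b * w b`, `w b = W b p.2` (because `W b b' = 0` on `B`).
   So `qf B (two w (col D B p.1)) f = 0` (`qf_two`), so by `hL.2` (`herm_two`) `two w (col p.1) = 0`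
   on `B`, and `herm_rank_two` (`C3.col_ne`) gives `w = l p * col D B p.1` on `B`, `l p ∈ {0, 1}`.
4. `U = {p, q}`, `p ≠ q`, `κ = h(e_p, e_q)`: `tr (ev f p.1 * conj (ev f q.1) * κ) = 0` for all
   `(T, z) ∈ L`, i.e. `two (κ col p.1) (col q.1)` vanishes on `B`, so `κ col p.1 = c col q.1`, and
   `C3.indep2` gives `κ = 0`.
5. Put together: `qf (lft g t) = ∑_p tr (conj (t p) * l p * ev g p.1)`.
-/

namespace Pool.Agent.G4

open F4 Finset

/-- the sesquilinear form of `W` -/
private def hf (C : Finset ℕ) (W : ℕ → ℕ → F4) (f g : ℕ → F4) : F4 :=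
  ∑ i ∈ C, ∑ j ∈ C, f i * W i j * conj (g j)

private theorem hf_self (C : Finset ℕ) (W : ℕ → ℕ → F4) (f : ℕ → F4) : hf C W f f = qf C W f := rfl

private theorem hf_congr (C : Finset ℕ) (W : ℕ → ℕ → F4) {f f' g g' : ℕ → F4}
    (h : ∀ b ∈ C, f b = f' b) (h' : ∀ b ∈ C, g b = g' b) : hf C W f g = hf C W f' g' := by
  unfold hf
  refine Finset.sum_congr rfl fun i hi => Finset.sum_congr rfl fun j hj => ?_
  rw [h i hi, h' j hj]

private theorem hf_add_left (C : Finset ℕ) (W : ℕ → ℕ → F4) (f f' g : ℕ → F4) :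
    hf C W (fun b => f b + f' b) g = hf C W f g + hf C W f' g := by
  unfold hf
  rw [← Finset.sum_add_distrib]
  refine Finset.sum_congr rfl fun i _ => ?_
  rw [← Finset.sum_add_distrib]
  refine Finset.sum_congr rfl fun j _ => ?_
  ring

private theorem hf_symm (C : Finset ℕ) {W : ℕ → ℕ → F4} (hW : Herm W) (f g : ℕ → F4) :
    hf C W g f = conj (hf C W f g) := by
  unfold hf
  rw [conj_sum]
  simp only [conj_sum]
  rw [Finset.sum_comm]
  refine Finset.sum_congr rfl fun i _ => Finset.sum_congr rfl fun j _ => ?_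
  rw [conj_mul, conj_mul, conj_conj, hW i j]
  ring

private theorem hf_add_right (C : Finset ℕ) {W : ℕ → ℕ → F4} (hW : Herm W) (f g g' : ℕ → F4) :
    hf C W f (fun b => g b + g' b) = hf C W f g + hf C W f g' := by
  rw [hf_symm C hW, hf_add_left, conj_add, ← hf_symm C hW, ← hf_symm C hW]

private theorem hf_sum_left (C : Finset ℕ) (W : ℕ → ℕ → F4) (P : Finset (ℕ × ℕ))
    (c : ℕ × ℕ → F4) (e : ℕ × ℕ → ℕ → F4) (g : ℕ → F4) :
    hf C W (fun b => ∑ p ∈ P, c p * e p b) g = ∑ p ∈ P, c p * hf C W (e p) g := by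
  unfold hf
  have h1 : ∀ i ∈ C, ∑ j ∈ C, (∑ p ∈ P, c p * e p i) * W i j * conj (g j) =
      ∑ p ∈ P, c p * ∑ j ∈ C, e p i * W i j * conj (g j) := by
    intro i _
    simp only [Finset.mul_sum]
    rw [Finset.sum_comm]
    refine Finset.sum_congr rfl fun j _ => ?_
    rw [Finset.sum_mul, Finset.sum_mul]
    refine Finset.sum_congr rfl fun p _ => ?_
    ring
  rw [Finset.sum_congr rfl h1, Finset.sum_comm]
  refine Finset.sum_congr rfl fun p _ => ?_
  rw [Finset.mul_sum]

private theorem hf_sum_right (C : Finset ℕ) {W : ℕ → ℕ → F4} (hW : Herm W) (P : Finset (ℕ × ℕ))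
    (c : ℕ × ℕ → F4) (e : ℕ × ℕ → ℕ → F4) (f : ℕ → F4) :
    hf C W f (fun b => ∑ p ∈ P, c p * e p b) = ∑ p ∈ P, conj (c p) * hf C W f (e p) := by
  rw [hf_symm C hW, hf_sum_left, conj_sum]
  refine Finset.sum_congr rfl fun p _ => ?_
  rw [conj_mul, ← hf_symm C hW]

/-- the vector of a pair -/
private def ep (B : Finset ℕ) (P : Finset (ℕ × ℕ)) (p : ℕ × ℕ) : ℕ → F4 :=
  lft B P (fun _ => 0) fun b => if b = p.2 then 1 else 0

private theorem lft_expand {D : ℕ → ℕ → F4} {B N : Finset ℕ} {P : Finset (ℕ × ℕ)} {y : ℕ}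
    (st : Stp D B N P y) (g t : ℕ → F4) : ∀ b ∈ nB B P,
      lft B P g t b = lft B P g (fun _ => 0) b + ∑ p ∈ P, t p.2 * ep B P p b := by
  intro b hb
  unfold ep lft
  by_cases hbB : b ∈ B
  · simp only [if_pos hbB, Finset.sum_const_zero, add_zero, zero_add]
    congr 1
    rw [Finset.sum_filter]
    refine Finset.sum_congr rfl fun p hp => ?_
    by_cases h : p.1 = b
    · rw [if_pos h]
      have h1 : (∑ q ∈ P with q.1 = b, if q.2 = p.2 then (1 : F4) else 0) = 1 := by
        rw [Finset.sum_eq_single p]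
        · rw [if_pos rfl]
        · intro q hq hqp
          rw [if_neg]
          intro h2
          exact hqp (st.inj2 q (Finset.mem_filter.1 hq).1 p hp h2)
        · intro h2
          exact absurd (Finset.mem_filter.2 ⟨hp, h⟩) h2
      rw [h1, mul_one]
    · rw [if_neg h]
      have h1 : (∑ q ∈ P with q.1 = b, if q.2 = p.2 then (1 : F4) else 0) = 0 := by
        refine Finset.sum_eq_zero fun q hq => ?_
        rw [if_neg]
        intro h2
        have h3 := st.inj2 q (Finset.mem_filter.1 hq).1 p hp h2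
        rw [h3] at hq
        exact h (Finset.mem_filter.1 hq).2
      rw [h1, mul_zero]
  · simp only [if_neg hbB, zero_add]
    unfold nB at hb
    rcases Finset.mem_union.1 hb with h | h
    · exact absurd h hbB
    · obtain ⟨q, hq, rfl⟩ := Finset.mem_image.1 h
      symm
      rw [Finset.sum_eq_single q]
      · rw [if_pos rfl, mul_one]
      · intro p hp hpq
        rw [if_neg, mul_zero]
        intro h2
        exact hpq (st.inj2 p hp q hq h2.symm)
      · intro h2
        exact absurd hq h2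

/-- the expansion of the form -/
private theorem qf_expand {D : ℕ → ℕ → F4} {B N : Finset ℕ} {P : Finset (ℕ × ℕ)} {y : ℕ}
    (st : Stp D B N P y) {W : ℕ → ℕ → F4} (hW : Herm W) (g t : ℕ → F4) :
    qf (nB B P) W (lft B P g t) = qf (nB B P) W (lft B P g fun _ => 0) +
      ∑ p ∈ P, tr (conj (t p.2) * hf (nB B P) W (lft B P g fun _ => 0) (ep B P p)) +
      ∑ p ∈ P, ∑ q ∈ P, t p.2 * conj (t q.2) * hf (nB B P) W (ep B P p) (ep B P q) := by
  have h1 := lft_expand st g t
  rw [← hf_self, hf_congr (nB B P) W h1 h1, hf_add_left, hf_add_right _ hW, hf_add_right _ hW,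
    hf_self, hf_sum_right _ hW, hf_sum_left]
  have h2 : ∑ p ∈ P, t p.2 * hf (nB B P) W (ep B P p) (lft B P g fun _ => 0) =
      ∑ p ∈ P, t p.2 * conj (hf (nB B P) W (lft B P g fun _ => 0) (ep B P p)) :=
    Finset.sum_congr rfl fun p _ => by rw [← hf_symm _ hW]
  have h3 : hf (nB B P) W (fun b => ∑ p ∈ P, t p.2 * ep B P p b)
      (fun b => ∑ p ∈ P, t p.2 * ep B P p b) =
      ∑ p ∈ P, ∑ q ∈ P, t p.2 * conj (t q.2) * hf (nB B P) W (ep B P p) (ep B P q) := by
    rw [hf_sum_left]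
    refine Finset.sum_congr rfl fun p _ => ?_
    rw [hf_sum_right _ hW, Finset.mul_sum]
    exact Finset.sum_congr rfl fun q _ => by ring
  rw [h2, h3]
  have h4 : ∑ p ∈ P, tr (conj (t p.2) * hf (nB B P) W (lft B P g fun _ => 0) (ep B P p)) =
      ∑ p ∈ P, conj (t p.2) * hf (nB B P) W (lft B P g fun _ => 0) (ep B P p) +
      ∑ p ∈ P, t p.2 * conj (hf (nB B P) W (lft B P g fun _ => 0) (ep B P p)) := by
    rw [← Finset.sum_add_distrib]
    refine Finset.sum_congr rfl fun p _ => ?_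
    unfold tr
    rw [conj_mul, conj_conj]
  rw [h4]
  ring

/-- the expansion of the form at a swapped lift -/
private theorem qf_expandU {D : ℕ → ℕ → F4} {B N : Finset ℕ} {P : Finset (ℕ × ℕ)} {y : ℕ}
    (st : Stp D B N P y) {W : ℕ → ℕ → F4} (hW : Herm W) (f : ℕ → F4) {U : Finset (ℕ × ℕ)}
    (hU : U ⊆ P) :
    qf (nB B P) W (lfU D B P U f) = qf (nB B P) W (lft B P f fun _ => 0) +
      ∑ p ∈ U, tr (conj (ev D B f p.1) * hf (nB B P) W (lft B P f fun _ => 0) (ep B P p)) +
      ∑ p ∈ U, ∑ q ∈ U, ev D B f p.1 * conj (ev D B f q.1) *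
        hf (nB B P) W (ep B P p) (ep B P q) := by
  unfold lfU
  rw [qf_expand st hW]
  have ht : ∀ p ∈ P, tU D B U f p.2 = if p ∈ U then ev D B f p.1 else 0 := fun p hp =>
    tU_mem st hU f hp
  congr 1
  · congr 1
    symm
    refine (Finset.sum_congr rfl fun p hp => ?_).trans (Finset.sum_subset hU fun p hp hpU => ?_)
    · rw [ht p (hU hp), if_pos hp]
    · rw [ht p hp, if_neg hpU, conj_zero, zero_mul, tr_zero]
  · symm
    refine (Finset.sum_congr rfl fun p hp => ?_).trans (Finset.sum_subset hU fun p hp hpU => ?_)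
    · refine (Finset.sum_congr rfl fun q hq => ?_).trans (Finset.sum_subset hU fun q hq hqU => ?_)
      · rw [ht p (hU hp), if_pos hp, ht q (hU hq), if_pos hq]
      · rw [ht q hq, if_neg hqU, conj_zero, mul_zero, zero_mul]
    · refine Finset.sum_eq_zero fun q _ => ?_
      rw [ht p hp, if_neg hpU, zero_mul, zero_mul]

theorem hnplus {D : ℕ → ℕ → F4} {B N : Finset ℕ} {P : Finset (ℕ × ℕ)} {y : ℕ}
    (st : Stp D B N P y) (hN : C3 D B N) {L : Set (Finset ℕ × ℕ)} (hL : SpanH D B N L)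
    {W : ℕ → ℕ → F4} (hW : Herm W)
    (h1 : ∀ p ∈ L, ∀ f, IsF D B N p.1 p.2 f → ∀ U ⊆ P, U.card ≤ 2 →
      qf (nB B P) W (lfU D B P U f) = 0)
    (h2 : ∀ p ∈ P, qf (nB B P) W (lft B P (fun _ => 0) fun b => if b = p.2 then 1 else 0) = 0) :
    ∃ l : ℕ × ℕ → F4, (∀ p, l p = 0 ∨ l p = 1) ∧ ∀ g t : ℕ → F4,
      qf (nB B P) W (lft B P g t) = ∑ p ∈ P, l p * tr (ev D B g p.1 * conj (t p.2)) := by
  classical
  have hnew : ∀ p ∈ P, p.2 ∉ B := fun p hp h => st.new p hp (Finset.mem_union_left _ h)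
  -- sums over the new rows of functions supported on the old rows
  have hsub : B ⊆ nB B P := Finset.subset_union_left
  have hG : ∀ g : ℕ → F4, ∀ b ∈ nB B P, lft B P g (fun _ => 0) b = if b ∈ B then g b else 0 := by
    intro g b _
    unfold lft
    by_cases h : b ∈ B
    · rw [if_pos h, if_pos h, Finset.sum_const_zero, add_zero]
    · rw [if_neg h, if_neg h]
  have hsum : ∀ F : ℕ → F4, (∀ b ∈ nB B P, b ∉ B → F b = 0) → ∑ b ∈ nB B P, F b = ∑ b ∈ B, F b :=
    fun F hF => (Finset.sum_subset hsub fun b hb hbB => hF b hb hbB).symm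
  have hqG : ∀ g : ℕ → F4, qf (nB B P) W (lft B P g fun _ => 0) = qf B W g := by
    intro g
    rw [qf_congr _ W _ _ (hG g)]
    unfold qf
    beta_reduce
    rw [hsum _ fun b _ hb => by
      refine Finset.sum_eq_zero fun j _ => ?_
      rw [if_neg hb, zero_mul, zero_mul]]
    refine Finset.sum_congr rfl fun i hi => ?_
    rw [hsum _ fun b _ hb => by rw [if_neg hb, conj_zero, mul_zero]]
    refine Finset.sum_congr rfl fun j hj => ?_
    rw [if_pos hi, if_pos hj]
  -- step 1
  have hW0 : ∀ i ∈ B, ∀ j ∈ B, W i j = 0 := by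
    refine hL.2 W hW fun p hp f hf => ?_
    have h3 := h1 p hp f hf ∅ (Finset.empty_subset _) (by simp)
    rw [qf_expandU st hW f (Finset.empty_subset _)] at h3
    simpa [hqG] using h3
  have hB0 : ∀ g : ℕ → F4, qf (nB B P) W (lft B P g fun _ => 0) = 0 := by
    intro g
    rw [hqG]
    unfold qf
    refine Finset.sum_eq_zero fun i hi => Finset.sum_eq_zero fun j hj => ?_
    rw [hW0 i hi j hj, mul_zero, zero_mul]
  -- step 2
  have hee : ∀ p ∈ P, hf (nB B P) W (ep B P p) (ep B P p) = 0 := fun p hp => h2 p hp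
  -- step 3
  set w : ℕ × ℕ → ℕ → F4 := fun p i => ∑ j ∈ nB B P, W i j * conj (ep B P p j) with hw
  have hφ : ∀ (g : ℕ → F4) (p : ℕ × ℕ), hf (nB B P) W (lft B P g fun _ => 0) (ep B P p) =
      ∑ b ∈ B, g b * w p b := by
    intro g p
    have e1 : hf (nB B P) W (lft B P g fun _ => 0) (ep B P p) =
        ∑ b ∈ nB B P, (if b ∈ B then g b else 0) * w p b := by
      unfold hf
      refine Finset.sum_congr rfl fun i hi => ?_
      rw [hw, Finset.mul_sum]
      refine Finset.sum_congr rfl fun j _ => ?_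
      rw [hG g i hi]
      ring
    rw [e1, hsum _ fun b _ hb => by rw [if_neg hb, zero_mul]]
    exact Finset.sum_congr rfl fun b hb => by rw [if_pos hb]
  have hcol : ∀ p ∈ P, ∃ c : F4, (c = 0 ∨ c = 1) ∧ ∀ b ∈ B, w p b = c * col D B p.1 b := by
    intro p hp
    refine herm_rank_two B (w p) (col D B p.1) (hN.col_ne st.disj (st.mem p hp)) ?_
    refine hL.2 _ (herm_two _ _) fun q hq f hf => ?_
    have hU : ({p} : Finset (ℕ × ℕ)) ⊆ P := Finset.singleton_subset_iff.2 hp
    have h3 := h1 q hq f hf {p} hU (by simp)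
    rw [qf_expandU st hW f hU, hB0, Finset.sum_singleton, Finset.sum_singleton,
      Finset.sum_singleton, hee p hp, mul_zero, add_zero, zero_add, hφ] at h3
    rw [qf_two, mul_comm]
    exact h3
  have hl : ∃ l : ℕ × ℕ → F4, (∀ p, l p = 0 ∨ l p = 1) ∧
      ∀ p ∈ P, ∀ b ∈ B, w p b = l p * col D B p.1 b := by
    refine ⟨fun p => if h : p ∈ P then (hcol p h).choose else 0, fun p => ?_, fun p hp => ?_⟩
    · by_cases h : p ∈ P
      · simp only [dif_pos h]
        exact (hcol p h).choose_spec.1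
      · simp only [dif_neg h]
        exact Or.inl trivial
    · simp only [dif_pos hp]
      exact (hcol p hp).choose_spec.2
  obtain ⟨l, hl01, hlw⟩ := hl
  have hφ2 : ∀ (g : ℕ → F4), ∀ p ∈ P, hf (nB B P) W (lft B P g fun _ => 0) (ep B P p) =
      l p * ev D B g p.1 := by
    intro g p hp
    rw [hφ]
    unfold ev
    rw [Finset.mul_sum]
    refine Finset.sum_congr rfl fun b hb => ?_
    rw [hlw p hp b hb]
    ring
  have hreal : ∀ p, conj (l p) = l p := fun p => by
    rcases hl01 p with h | h <;> rw [h] <;> decide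
  have htrl : ∀ (p : ℕ × ℕ) (x : F4), tr (conj x * (l p * x)) = 0 := by
    intro p x
    rcases hl01 p with h | h <;> rw [h] <;> revert x <;> decide
  -- step 4
  have hpq : ∀ p ∈ P, ∀ q ∈ P, p ≠ q → hf (nB B P) W (ep B P p) (ep B P q) = 0 := by
    intro p hp q hq hne
    obtain ⟨κ, hκ⟩ : ∃ κ, κ = hf (nB B P) W (ep B P p) (ep B P q) := ⟨_, rfl⟩
    have hκ' : hf (nB B P) W (ep B P q) (ep B P p) = conj κ := by rw [hκ, ← hf_symm _ hW]
    rw [← hκ]
    have h3 : ∀ i ∈ B, ∀ j ∈ B, two (fun b => κ * col D B p.1 b) (col D B q.1) i j = 0 := by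
      refine hL.2 _ (herm_two _ _) fun r hr f hf' => ?_
      have hU : ({p, q} : Finset (ℕ × ℕ)) ⊆ P := by
        intro x hx
        rcases Finset.mem_insert.1 hx with rfl | hx
        · exact hp
        · rw [Finset.mem_singleton.1 hx]; exact hq
      have h3 := h1 r hr f hf' {p, q} hU (by rw [Finset.card_pair hne])
      rw [qf_expandU st hW f hU, hB0, Finset.sum_pair hne, Finset.sum_pair hne,
        Finset.sum_pair hne, Finset.sum_pair hne, hee p hp, hee q hq, hφ2 f p hp, hφ2 f q hq,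
        htrl, htrl, ← hκ, hκ'] at h3
      rw [qf_two]
      have e1 : ∑ b ∈ B, f b * (κ * col D B p.1 b) = κ * ev D B f p.1 := by
        unfold ev
        rw [Finset.mul_sum]
        exact Finset.sum_congr rfl fun b _ => by ring
      rw [e1]
      change tr (κ * ev D B f p.1 * conj (ev D B f q.1)) = 0
      unfold tr
      rw [conj_mul, conj_mul, conj_conj, ← h3]
      ring
    obtain ⟨c, -, hc⟩ := herm_rank_two B _ (col D B q.1) (hN.col_ne st.disj (st.mem q hq)) h3
    refine (hN.indep2 st.disj (st.mem p hp) (st.mem q hq) (fun h => hne (st.inj1 p hp q hq h))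
      κ c fun b hb => ?_).1
    rw [hc b hb, add_self]
  -- step 5
  refine ⟨l, hl01, fun g t => ?_⟩
  rw [qf_expand st hW, hB0, zero_add]
  have h3 : ∑ p ∈ P, ∑ q ∈ P, t p.2 * conj (t q.2) * hf (nB B P) W (ep B P p) (ep B P q) = 0 := by
    refine Finset.sum_eq_zero fun p hp => Finset.sum_eq_zero fun q hq => ?_
    by_cases h : p = q
    · subst h
      rw [hee p hp, mul_zero]
    · rw [hpq p hp q hq h, mul_zero]
  rw [h3, add_zero]
  refine Finset.sum_congr rfl fun p hp => ?_
  rw [hφ2 g p hp, ← tr_real_mul _ _ (hl01 p)]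
  congr 1
  ring

end Pool.Agent.G4
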