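import Pool.Agent.G4.SH2a

set_option autoImplicit false

/-!
# Module S2b: Hermitian forms on the new matroid, core

PROOF of `stepH_core`. By `hnplus`, `qf (lft g t) = ∑_p l p * tr (ev g p.1 * conj (t p.2))`.
Suppose `l p = 1` for some `p ∈ P`. For `q ∈ L` with vector `f`, `ev f p.1 ≠ 0`, `U ⊆ P.erase p`,
`U.card ≤ 1`, the vector `lft f t` with `t r.2 = tU U f r.2` for `r ≠ p` and
`t p.2 = (ev f y + ∑_{r ∈ U} ev f r.1 * sco r) * (sco p)⁻¹` vanishes at `y` (`ev_lft_y`), and the
value of the form is `tr (ev f p.1 * conj (t p.2))` (the terms of `r ∈ U` are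
`l r * tr (nm ..) = 0`, `r ∉ U` have `t r.2 = 0`). So by `h3`
`tr (ev f p.1 * conj ((ev f y + ∑_U ..) * (sco p)⁻¹)) = 0`, also if `ev f p.1 = 0`. With the
vector `v_U b = D b y + ∑_{r ∈ U} sco r * col D B r.1 b` on `B` (`ev f y = ∑ f b * D b y`, `y ∉ B`)
this is `qf B (two (col p.1) ((sco p)⁻¹ v_U)) f = 0`, so `hL.2` and `herm_rank_two` give
`v_U = c * sco p * col p.1` on `B` with `c ∈ {0, 1}`.
(`sco p ≠ 0`: lemma `sco_ne`.) Taking `U = ∅` and `U = {r}`: if there is `r ≠ p` in `P` then
`sco r * col r.1` is a multiple of `col p.1`, contradiction with `C3.indep2` for `N`. If `P = {p}`: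
`c = 0` gives `D b y = 0` on `B`, so `col D (nB) y` is `sco p` times the unit vector of `p.2`:
contradiction with `C3.indep2` for `M` (elements `y`, `p.2`); `c = 1` gives
`D b y = sco p * col p.1 b` on `B` and then `col D (nB) y = sco p * col D (nB) p.1`
(check the coordinate `p.2`: if `p.1 ∈ B` it is `D p.2 y = sco p + D p.1 y = sco p + sco p = 0`,
and if `p.1 ∈ N` it is `sco p` and `D p.2 p.1 = 1`), contradiction again. So all `l p = 0`,
`qf (lft g t) = 0` for all `g`, `t`, and by `lft_surj` and polarisation `W = 0` on `nB`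
(`Herm W`; for `i = j` unit vectors, for `i ≠ j` the vectors `x e_i + e_j`, `eq_zero_of_tr`).
-/

namespace Pool.Agent.G4

open F4 Finset

variable {D : ℕ → ℕ → F4} {B N : Finset ℕ} {P : Finset (ℕ × ℕ)} {y : ℕ}

private theorem sh2b_key (st : Stp D B N P y) (hN : C3 D B N) (hM : C3 D (nB B P) (nN N y))
    {L : Set (Finset ℕ × ℕ)} (hL : SpanH D B N L) {W : ℕ → ℕ → F4}
    (h3 : ∀ q ∈ L, ∀ f, IsF D B N q.1 q.2 f → ∀ p ∈ P, ∀ U ⊆ P.erase p, U.card ≤ 1 →
      ev D B f p.1 ≠ 0 → ∀ t : ℕ → F4, (∀ r ∈ P, r ≠ p → t r.2 = tU D B U f r.2) →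
      ev D (nB B P) (lft B P f t) y = 0 → qf (nB B P) W (lft B P f t) = 0)
    {l : ℕ × ℕ → F4}
    (hq : ∀ g t : ℕ → F4, qf (nB B P) W (lft B P g t) =
      ∑ p ∈ P, l p * tr (ev D B g p.1 * conj (t p.2)))
    {p : ℕ × ℕ} (hp : p ∈ P) (hlp : l p = 1) (U : Finset (ℕ × ℕ)) (hU : U ⊆ P.erase p)
    (hUc : U.card ≤ 1) :
    ∃ c : F4, (c = 0 ∨ c = 1) ∧ ∀ b ∈ B, D b y + ∑ r ∈ U, sco D B y r * col D B r.1 b =
      c * sco D B y p * col D B p.1 b := by
  have hs := sco_ne st hN hM hp
  have hUP : U ⊆ P := hU.trans (Finset.erase_subset _ _)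
  have hpU : p ∉ U := fun h => Finset.notMem_erase p P (hU h)
  have hyB : y ∉ B := fun h => st.ynew (Finset.mem_union_left _ h)
  -- the sum over the row vector
  have hsum : ∀ f : ℕ → F4, ∑ b ∈ B, f b * ((sco D B y p)⁻¹ *
      (D b y + ∑ r ∈ U, sco D B y r * col D B r.1 b)) =
      (ev D B f y + ∑ r ∈ U, ev D B f r.1 * sco D B y r) * (sco D B y p)⁻¹ := by
    intro f
    rw [ev_not_mem D B f hyB]
    have e1 : ∑ r ∈ U, ev D B f r.1 * sco D B y r =
        ∑ b ∈ B, f b * ∑ r ∈ U, sco D B y r * col D B r.1 b := by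
      simp_rw [ev, Finset.sum_mul, Finset.mul_sum]
      rw [Finset.sum_comm]
      exact Finset.sum_congr rfl fun b _ => Finset.sum_congr rfl fun r _ => by ring
    rw [e1, ← Finset.sum_add_distrib, Finset.sum_mul]
    exact Finset.sum_congr rfl fun b _ => by ring
  have hzero : ∀ q ∈ L, ∀ f, IsF D B N q.1 q.2 f →
      qf B (two (fun b => (sco D B y p)⁻¹ * (D b y + ∑ r ∈ U, sco D B y r * col D B r.1 b))
        (fun b => col D B p.1 b)) f = 0 := by
    intro q hqL f hf
    rw [qf_two, hsum f]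
    have e2 : ∑ b ∈ B, f b * col D B p.1 b = ev D B f p.1 := rfl
    rw [e2]
    obtain ⟨X, hX⟩ : ∃ X : F4, X = (ev D B f y + ∑ r ∈ U, ev D B f r.1 * sco D B y r) *
      (sco D B y p)⁻¹ := ⟨_, rfl⟩
    rw [← hX]
    by_cases hev : ev D B f p.1 = 0
    · rw [hev]; simp
    -- the test vector
    obtain ⟨t, ht⟩ : ∃ t : ℕ → F4, t = fun b => if b = p.2 then X else tU D B U f b := ⟨_, rfl⟩
    have htp : t p.2 = X := by rw [ht]; simp
    have htr : ∀ r ∈ P, r ≠ p → t r.2 = tU D B U f r.2 := by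
      intro r hr hrp
      rw [ht]
      have : r.2 ≠ p.2 := fun h => hrp (st.inj2 r hr p hp h)
      simp [this]
    have htr' : ∀ r ∈ P.erase p, t r.2 = if r ∈ U then ev D B f r.1 else 0 := by
      intro r hr
      have hrP := Finset.mem_of_mem_erase hr
      rw [htr r hrP (Finset.ne_of_mem_erase hr), tU_mem st hUP f hrP]
    have hy0 : ev D (nB B P) (lft B P f t) y = 0 := by
      rw [ev_lft_y st, ← Finset.add_sum_erase P (fun r => t r.2 * sco D B y r) hp]
      have e3 : ∑ r ∈ P.erase p, t r.2 * sco D B y r = ∑ r ∈ U, ev D B f r.1 * sco D B y r := by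
        have e4 : ∑ r ∈ P.erase p, t r.2 * sco D B y r =
            ∑ r ∈ P.erase p, if r ∈ U then ev D B f r.1 * sco D B y r else 0 := by
          refine Finset.sum_congr rfl fun r hr => ?_
          rw [htr' r hr]
          split_ifs <;> simp
        rw [e4, ← Finset.sum_filter]
        congr 1
        ext r
        constructor
        · intro h; exact (Finset.mem_filter.1 h).2
        · intro h; exact Finset.mem_filter.2 ⟨hU h, h⟩
      rw [e3, htp, hX, mul_assoc, inv_mul_cancel₀ hs, mul_one]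
      generalize ev D B f y = a1
      generalize ∑ r ∈ U, ev D B f r.1 * sco D B y r = a2
      revert a1 a2
      decide
    have h5 := h3 q hqL f hf p hp U hU hUc hev t htr hy0
    rw [hq, ← Finset.add_sum_erase P (fun r => l r * tr (ev D B f r.1 * conj (t r.2))) hp] at h5
    have h6 : ∑ r ∈ P.erase p, l r * tr (ev D B f r.1 * conj (t r.2)) = 0 := by
      refine Finset.sum_eq_zero fun r hr => ?_
      rw [htr' r hr]
      have key : ∀ x : F4, tr (x * conj x) = 0 := by decide
      split_ifs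
      · rw [key, mul_zero]
      · simp
    rw [h6, add_zero, hlp, one_mul, htp] at h5
    have key2 : ∀ x z : F4, tr (x * conj z) = 0 → tr (z * conj x) = 0 := by decide
    exact key2 _ _ h5
  have hvan := hL.2 _ (herm_two _ _) hzero
  obtain ⟨c, hc, hcb⟩ := herm_rank_two B _ _ (hN.col_ne st.disj (st.mem p hp)) hvan
  refine ⟨c, hc, fun b hb => ?_⟩
  have h7 := hcb b hb
  have h8 : sco D B y p * ((sco D B y p)⁻¹ * (D b y + ∑ r ∈ U, sco D B y r * col D B r.1 b)) =
      sco D B y p * (c * col D B p.1 b) := by rw [h7]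
  rw [← mul_assoc, mul_inv_cancel₀ hs, one_mul] at h8
  rw [h8]
  ring

private theorem sh2b_pol {S : Finset ℕ} {W : ℕ → ℕ → F4} (hW : Herm W)
    (h : ∀ f : ℕ → F4, qf S W f = 0) : ∀ i ∈ S, ∀ j ∈ S, W i j = 0 := by
  have hd : ∀ i ∈ S, W i i = 0 := by
    intro i hi
    have h1 := h (fun b => if b = i then 1 else 0)
    unfold qf at h1
    rw [Finset.sum_eq_single i, Finset.sum_eq_single i] at h1
    · simpa using h1
    · intro b _ hb
      simp [hb]
    · intro hc; exact absurd hi hc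
    · intro b _ hb
      refine Finset.sum_eq_zero fun j _ => ?_
      simp [hb]
    · intro hc; exact absurd hi hc
  intro i hi j hj
  by_cases hij : i = j
  · rw [← hij]; exact hd i hi
  apply eq_zero_of_tr
  intro x
  have h1 := h (fun b => if b = i then x else if b = j then 1 else 0)
  unfold qf at h1
  have hsub : ({i, j} : Finset ℕ) ⊆ S := by
    intro b hb
    rcases Finset.mem_insert.1 hb with hb | hb
    · rw [hb]; exact hi
    · rw [Finset.mem_singleton.1 hb]; exact hj
  have hin : ∀ a : ℕ, ∑ b ∈ S, (if a = i then x else if a = j then 1 else 0) * W a b *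
      conj (if b = i then x else if b = j then 1 else 0) =
      ∑ b ∈ ({i, j} : Finset ℕ), (if a = i then x else if a = j then 1 else 0) * W a b *
      conj (if b = i then x else if b = j then 1 else 0) := by
    intro a
    refine (Finset.sum_subset hsub fun b _ hb => ?_).symm
    have hb1 : b ≠ i := fun h => hb (by rw [h]; simp)
    have hb2 : b ≠ j := fun h => hb (by rw [h]; simp)
    simp [hb1, hb2]
  simp_rw [hin] at h1
  rw [← Finset.sum_subset hsub] at h1
  · rw [Finset.sum_pair hij, Finset.sum_pair hij, Finset.sum_pair hij] at h1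
    have hji : j ≠ i := fun h => hij h.symm
    simp only [if_true, if_neg hji, hd i hi, hd j hj, hW i j] at h1
    have key : ∀ x z : F4, x * 0 * conj x + x * z * conj 1 + (1 * conj z * conj x + 1 * 0 * conj 1) = 0 →
        tr (x * z) = 0 := by decide
    exact key x (W i j) h1
  · intro b _ hb
    have hb1 : b ≠ i := fun h => hb (by rw [h]; simp)
    have hb2 : b ≠ j := fun h => hb (by rw [h]; simp)
    refine Finset.sum_eq_zero fun a _ => ?_
    simp [hb1, hb2]

theorem stepH_core (st : Stp D B N P y) (hN : C3 D B N) (hM : C3 D (nB B P) (nN N y))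
    {L : Set (Finset ℕ × ℕ)} (hL : SpanH D B N L) {W : ℕ → ℕ → F4} (hW : Herm W)
    (h1 : ∀ p ∈ L, ∀ f, IsF D B N p.1 p.2 f → ∀ U ⊆ P, U.card ≤ 2 →
      qf (nB B P) W (lfU D B P U f) = 0)
    (h2 : ∀ p ∈ P, qf (nB B P) W (lft B P (fun _ => 0) fun b => if b = p.2 then 1 else 0) = 0)
    (h3 : ∀ q ∈ L, ∀ f, IsF D B N q.1 q.2 f → ∀ p ∈ P, ∀ U ⊆ P.erase p, U.card ≤ 1 →
      ev D B f p.1 ≠ 0 → ∀ t : ℕ → F4, (∀ r ∈ P, r ≠ p → t r.2 = tU D B U f r.2) →
      ev D (nB B P) (lft B P f t) y = 0 → qf (nB B P) W (lft B P f t) = 0) :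
    ∀ i ∈ nB B P, ∀ j ∈ nB B P, W i j = 0 := by
  obtain ⟨l, hl, hq⟩ := hnplus st hN hL hW h1 h2
  -- all coefficients vanish
  have hl0 : ∀ p ∈ P, l p = 0 := by
    intro p hp
    rcases hl p with h | hlp
    · exact h
    exfalso
    obtain ⟨c0, hc0, hb0⟩ := sh2b_key st hN hM hL h3 hq hp hlp ∅ (Finset.empty_subset _) (by simp)
    by_cases hex : ∃ r ∈ P, r ≠ p
    · obtain ⟨r, hr, hrp⟩ := hex
      obtain ⟨c1, hc1, hb1⟩ := sh2b_key st hN hM hL h3 hq hp hlp {r}
        (by
          intro x hx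
          rw [Finset.mem_singleton.1 hx]
          exact Finset.mem_erase.2 ⟨hrp, hr⟩) (by simp)
      have hne : r.1 ≠ p.1 := fun h => hrp (st.inj1 r hr p hp h)
      have h9 := hN.indep2 st.disj (st.mem r hr) (st.mem p hp) hne (sco D B y r)
        ((c0 + c1) * sco D B y p) (by
          intro b hb
          have e0 := hb0 b hb
          have e1 := hb1 b hb
          rw [Finset.sum_empty, add_zero] at e0
          rw [Finset.sum_singleton] at e1
          rw [e0] at e1
          have e2 : (c0 + c1) * sco D B y p * col D B p.1 b =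
            c0 * sco D B y p * col D B p.1 b + c1 * sco D B y p * col D B p.1 b := by ring
          rw [e2]
          have key : ∀ a x z : F4, x + a = z → a + (x + z) = 0 := by decide
          exact key _ _ _ e1)
      exact sco_ne st hN hM hr h9.1
    · push Not at hex
      have hP : P = {p} := Finset.eq_singleton_iff_unique_mem.2 ⟨hp, hex⟩
      refine no_triangle st hN hM hp c0 hc0 (fun b hb => ?_) hP
      have e0 := hb0 b hb
      rwa [Finset.sum_empty, add_zero] at e0
  have hall : ∀ f : ℕ → F4, qf (nB B P) W f = 0 := by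
    intro f
    obtain ⟨g, t, hgt⟩ := lft_surj st f
    rw [qf_congr (nB B P) W f _ hgt, hq]
    refine Finset.sum_eq_zero fun p hp => ?_
    rw [hl0 p hp, zero_mul]
  exact sh2b_pol hW hall

end Pool.Agent.G4
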