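import Pool.Agent.G4.SH2b

set_option autoImplicit false

/-!
# Module S2c: the marked bases of the new matroid determine the Hermitian forms

PROOF of `stepH` from `stepH_core`: `h1`: for `U` let `U' = U.filter (ev f p.1 ≠ 0)`
(`lfU_filter`); `m1` gives `z'` with `(insert z' (hypF ..), z') ∈ L'`, `z' ∉ hypF` because the
value at `z'` is not zero (`hyp_zero`), and `hyp_base` says that its vector is a multiple of `lfU`
(`qf_smul`; the vector is unique on `nB`, `eq_of_ev`, `qf_congr`). `h2`: `pair_isF`. `h3`: let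
`U' = U.filter (ev f r.1 ≠ 0)`. If `ev (lfU U' f) y = 0` then `t p.2 = 0` (as `sco p ≠ 0`), the
vector is `lfU U' f` and `h1` applies. Otherwise `m3` gives `(insert y (hypF ..), p.2) ∈ L'`; this
is a basis, the vector `lft f t` vanishes on `(insert y (hypF ..)).erase p.2` (as in `hyp_zero`,
`p ∉ U'`) and at `p.2` its value is `t p.2 ≠ 0`; so it is a multiple of the `IsF` vector.
-/

namespace Pool.Agent.G4

open F4 Finset

variable {D : ℕ → ℕ → F4} {B N : Finset ℕ} {P : Finset (ℕ × ℕ)} {y : ℕ}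

private theorem sh2c_add_self (x : F4) : x + x = 0 := by revert x; decide

private theorem sh2c_nm {c x : F4} (hc : c ≠ 0) (h : nm c * x = 0) : x = 0 := by
  rw [nm_eq, if_neg hc, one_mul] at h
  exact h

/-- the form vanishes at the lifts -/
private theorem sh2c_h1 (st : Stp D B N P y)
    {L L' : Set (Finset ℕ × ℕ)} {W : ℕ → ℕ → F4}
    (hv : ∀ p ∈ L', IsBase D (nB B P) (nN N y) p.1 ∧ p.2 ∈ p.1)
    (hW0 : ∀ p ∈ L', ∀ f, IsF D (nB B P) (nN N y) p.1 p.2 f → qf (nB B P) W f = 0)
    (m1 : ∀ q ∈ L, ∀ f, IsF D B N q.1 q.2 f → ∀ U ⊆ P, U.card ≤ 2 →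
      (∀ p ∈ U, ev D B f p.1 ≠ 0) →
      ∃ z, ev D (nB B P) (lfU D B P U f) z ≠ 0 ∧ (insert z (hypF P q.1 q.2 U), z) ∈ L') :
    ∀ p ∈ L, ∀ f, IsF D B N p.1 p.2 f → ∀ U ⊆ P, U.card ≤ 2 →
      qf (nB B P) W (lfU D B P U f) = 0 := by
  intro q hq f hf U hU hc
  have hU' : (U.filter fun p => ev D B f p.1 ≠ 0) ⊆ P := (Finset.filter_subset _ _).trans hU
  have hne : ∀ p ∈ U.filter (fun p => ev D B f p.1 ≠ 0), ev D B f p.1 ≠ 0 :=
    fun p hp => (Finset.mem_filter.1 hp).2
  have hc' : (U.filter fun p => ev D B f p.1 ≠ 0).card ≤ 2 := (Finset.card_filter_le _ _).trans hc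
  rw [← qf_congr _ W _ _ (lfU_filter st hU f)]
  obtain ⟨z, hz, hzL⟩ := m1 q hq f hf _ hU' hc' hne
  have hz1 : z ∉ hypF P q.1 q.2 (U.filter fun p => ev D B f p.1 ≠ 0) := fun h =>
    hz (hyp_zero st hf hU' hne z h)
  have hz2 : z ∈ nB B P ∪ nN N y := (hv _ hzL).1.1 (Finset.mem_insert_self _ _)
  have h1 := (hyp_base st hf hU' hne z (Finset.mem_sdiff.2 ⟨hz2, hz1⟩)).2 hz
  have h2 := hW0 _ hzL _ h1
  rw [qf_smul] at h2
  refine sh2c_nm ?_ h2
  intro h3
  exact hz ((conj_eq_zero _).1 h3)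

theorem stepH (st : Stp D B N P y) (hN : C3 D B N) (hM : C3 D (nB B P) (nN N y))
    {L L' : Set (Finset ℕ × ℕ)} (hL : SpanH D B N L)
    (hv : ∀ p ∈ L', IsBase D (nB B P) (nN N y) p.1 ∧ p.2 ∈ p.1)
    (m1 : ∀ q ∈ L, ∀ f, IsF D B N q.1 q.2 f → ∀ U ⊆ P, U.card ≤ 2 →
      (∀ p ∈ U, ev D B f p.1 ≠ 0) →
      ∃ z, ev D (nB B P) (lfU D B P U f) z ≠ 0 ∧ (insert z (hypF P q.1 q.2 U), z) ∈ L')
    (m2 : ∀ p ∈ P, ∃ T' ⊆ nB B P ∪ N, p.1 ∉ T' ∧ (T', p.2) ∈ L')
    (m3 : ∀ q ∈ L, ∀ f, IsF D B N q.1 q.2 f → ∀ p ∈ P, ∀ U ⊆ P.erase p, U.card ≤ 1 →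
      (∀ r ∈ U, ev D B f r.1 ≠ 0) → ev D B f p.1 ≠ 0 →
      ev D (nB B P) (lfU D B P U f) y ≠ 0 → (insert y (hypF P q.1 q.2 U), p.2) ∈ L') :
    SpanH D (nB B P) (nN N y) L' := by
  refine ⟨hv, fun W hW hW0 => ?_⟩
  have h1 := sh2c_h1 (W := W) st hv hW0 m1
  refine stepH_core st hN hM hL hW h1 ?_ ?_
  · intro p hp
    obtain ⟨T', hT', hp1, hpL⟩ := m2 p hp
    exact hW0 _ hpL _ (pair_isF st hp (hv _ hpL).1 hT' hp1 (hv _ hpL).2)
  · intro q hq f hf p hp U hU hc hfp t ht hy
    have hUP : (U.filter fun r => ev D B f r.1 ≠ 0) ⊆ P.erase p :=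
      (Finset.filter_subset _ _).trans hU
    have hUP' : (U.filter fun r => ev D B f r.1 ≠ 0) ⊆ P := hUP.trans (Finset.erase_subset _ _)
    have hne : ∀ r ∈ U.filter (fun r => ev D B f r.1 ≠ 0), ev D B f r.1 ≠ 0 :=
      fun r hr => (Finset.mem_filter.1 hr).2
    have hc' : (U.filter fun r => ev D B f r.1 ≠ 0).card ≤ 1 := (Finset.card_filter_le _ _).trans hc
    have hpU : p ∉ U.filter (fun r => ev D B f r.1 ≠ 0) := fun h =>
      (Finset.mem_erase.1 (hUP h)).1 rfl
    -- the coordinates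
    have ht' : ∀ r ∈ P, r ≠ p → t r.2 =
        if r ∈ U.filter (fun r => ev D B f r.1 ≠ 0) then ev D B f r.1 else 0 := by
      intro r hr hrp
      rw [ht r hr hrp, tU_mem st (hU.trans (Finset.erase_subset _ _)) f hr]
      by_cases hrU : r ∈ U
      · by_cases he : ev D B f r.1 = 0
        · rw [if_pos hrU, if_neg (by simp [he]), he]
        · rw [if_pos hrU, if_pos (Finset.mem_filter.2 ⟨hrU, he⟩)]
      · rw [if_neg hrU, if_neg (fun h => hrU (Finset.mem_filter.1 h).1)]
    by_cases hyz : ev D (nB B P) (lfU D B P (U.filter fun r => ev D B f r.1 ≠ 0) f) y = 0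
    · -- `t p.2 = 0`
      have htp : t p.2 = 0 := by
        rw [ev_lfU_y st hUP' f] at hyz
        rw [ev_lft_y st, ← Finset.add_sum_erase _ _ hp] at hy
        have e1 : ∑ r ∈ P.erase p, t r.2 * sco D B y r =
            ∑ r ∈ U.filter (fun r => ev D B f r.1 ≠ 0), ev D B f r.1 * sco D B y r := by
          rw [← Finset.sum_subset hUP (f := fun r => t r.2 * sco D B y r)]
          · refine Finset.sum_congr rfl fun r hr => ?_
            have hrP := hUP hr
            rw [ht' r (Finset.mem_of_mem_erase hrP) (Finset.ne_of_mem_erase hrP), if_pos hr]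
          · intro r hr hrU
            rw [ht' r (Finset.mem_of_mem_erase hr) (Finset.ne_of_mem_erase hr), if_neg hrU, zero_mul]
        rw [e1] at hy
        have key : ∀ a b c : F4, a + c = 0 → a + (b + c) = 0 → b = 0 := by decide
        have h2 := key _ _ _ hyz hy
        exact (mul_eq_zero.1 h2).resolve_right (sco_ne st hN hM hp)
      have e2 : ∀ b ∈ nB B P, lft B P f t b =
          lfU D B P (U.filter fun r => ev D B f r.1 ≠ 0) f b := by
        refine lft_congr st (fun _ _ => rfl) fun r hr => ?_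
        rw [tU_mem st hUP' f hr]
        by_cases hrp : r = p
        · rw [hrp, if_neg hpU, htp]
        · exact ht' r hr hrp
      rw [qf_congr _ W _ _ e2]
      exact h1 q hq f hf _ hUP' (hc'.trans (by norm_num))
    · have hL' := m3 q hq f hf p hp _ hUP hc' hne hfp hyz
      obtain ⟨hb, hpm⟩ := hv _ hL'
      obtain ⟨F, hF⟩ := exists_isF hb hpm
      have hz : ∀ e ∈ (insert y (hypF P q.1 q.2 (U.filter fun r => ev D B f r.1 ≠ 0))).erase p.2,
          ev D (nB B P) (lft B P f t) e = 0 := by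
        intro e he
        obtain ⟨hep, he⟩ := Finset.mem_erase.1 he
        rcases Finset.mem_insert.1 he with rfl | he
        · exact hy
        rcases Finset.mem_union.1 he with he | he
        · obtain ⟨hez, heT⟩ := Finset.mem_erase.1 he
          have hfe : ev D B f e = 0 := by
            rw [hf.2.2 e heT, if_neg hez]
          rw [ev_lft_old st f t (hf.1.1 heT), hfe, zero_add]
          refine Finset.sum_eq_zero fun r hr => ?_
          obtain ⟨hrP, hre⟩ := Finset.mem_filter.1 hr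
          have hrp : r ≠ p := by
            rintro rfl
            rw [hre] at hfp
            exact hfp hfe
          rw [ht' r hrP hrp]
          split_ifs
          · rw [hre, hfe]
          · rfl
        · obtain ⟨r, hr, hre⟩ := Finset.mem_image.1 he
          by_cases hrU : r ∈ U.filter (fun r => ev D B f r.1 ≠ 0)
          · rw [if_pos hrU] at hre
            rw [← hre, ev_lft_old st f t (st.mem r hr)]
            have e3 : (P.filter fun p => p.1 = r.1) = {r} := by
              ext s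
              rw [Finset.mem_filter, Finset.mem_singleton]
              constructor
              · rintro ⟨hs, hsr⟩
                exact st.inj1 s hs r hr hsr
              · rintro rfl
                exact ⟨hr, rfl⟩
            rw [e3, Finset.sum_singleton, ht' r hr (Finset.ne_of_mem_erase (hUP hrU)), if_pos hrU]
            exact sh2c_add_self _
          · rw [if_neg hrU] at hre
            rw [← hre, ev_lft_new st f t hr]
            have hrp : r ≠ p := by
              rintro rfl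
              exact hep hre.symm
            rw [ht' r hr hrp, if_neg hrU]
      rw [qf_congr _ W _ _ (mul_of_zero hF hz), qf_smul, hW0 _ hL' _ hF, mul_zero]

end Pool.Agent.G4
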