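import Pool.Agent.G4.Dual

set_option autoImplicit false

/-!
# Module S3a: the trivial maps

PROOF of `trivial_map` (the trivial maps satisfy all conditions): for `Φ b n = (l b + l n) D b n`,
`∑_{b,n} f b Φ b n c n = ∑_b l b f b (∑_n D b n c n) + ∑_n l n c n (∑_b f b D b n)
 = ∑_{e ∈ B ∪ N} l e * ev f e * ev (trD D) c e`. The common elements of the supports of `ev f` and
`ev c` are `z` and `x` (`ev f` vanishes on `T - z`, `ev c` vanishes on `(B ∪ N) \ T - x`), so this is
`l z * ev c z + l x * ev f x = (l z + l x) * ev f x` by `circ_val` (`ev f z = 1`, `ev c x = 1`), and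
after multiplication by `(ev f x)⁻¹` it is `0` or `1`.
-/

namespace Pool.Agent.G4

open F4 Finset

variable {D : ℕ → ℕ → F4} {B N : Finset ℕ}

theorem trivial_map (hd : Disjoint B N) {T : Finset ℕ} {z x : ℕ} {f c : ℕ → F4}
    (hf : IsF D B N T z f) (hx : x ∈ (B ∪ N) \ T)
    (hc : IsF (trD D) N B ((B ∪ N) \ T) x c)
    (l : ℕ → F4) (hl : ∀ e, l e = 0 ∨ l e = 1) :
    tr ((∑ b ∈ B, ∑ n ∈ N, f b * ((l b + l n) * D b n) * c n) * (ev D B f x)⁻¹) = 0 := by
  have hbN : ∀ b ∈ B, b ∉ N := fun b hb hn => (Finset.disjoint_left.mp hd) hb hn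
  have hnB : ∀ n ∈ N, n ∉ B := fun n hn hb => (Finset.disjoint_left.mp hd) hb hn
  have e1 : ∀ b ∈ B, l b * (ev D B f b * ev (trD D) N c b) = ∑ n ∈ N, f b * (l b * D b n) * c n := by
    intro b hb
    rw [ev_mem _ _ f hb, ev_not_mem _ _ c (hbN b hb), Finset.mul_sum, Finset.mul_sum]
    refine Finset.sum_congr rfl fun n _ => ?_
    show l b * (f b * (c n * D b n)) = f b * (l b * D b n) * c n
    ring
  have e2 : ∀ n ∈ N, l n * (ev D B f n * ev (trD D) N c n) = ∑ b ∈ B, f b * (l n * D b n) * c n := by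
    intro n hn
    rw [ev_mem _ _ c hn, ev_not_mem _ _ f (hnB n hn), Finset.sum_mul, Finset.mul_sum]
    refine Finset.sum_congr rfl fun b _ => ?_
    ring
  have e3 : ∑ b ∈ B, ∑ n ∈ N, f b * ((l b + l n) * D b n) * c n =
      ∑ e ∈ B ∪ N, l e * (ev D B f e * ev (trD D) N c e) := by
    rw [Finset.sum_union hd, Finset.sum_congr rfl e1, Finset.sum_congr rfl e2, Finset.sum_comm (s := N),
      ← Finset.sum_add_distrib]
    refine Finset.sum_congr rfl fun b _ => ?_
    rw [← Finset.sum_add_distrib]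
    refine Finset.sum_congr rfl fun n _ => ?_
    ring
  have hzT : z ∈ T := hf.2.1
  have hzE : z ∈ B ∪ N := hf.1.1 hzT
  have hxE : x ∈ B ∪ N := (Finset.mem_sdiff.mp hx).1
  have hxT : x ∉ T := (Finset.mem_sdiff.mp hx).2
  have hzx : z ≠ x := fun h => hxT (h ▸ hzT)
  have hfz : ev D B f z = 1 := by
    have := hf.2.2 z hzT
    simpa using this
  have hcx : ev (trD D) N c x = 1 := by
    have := hc.2.2 x hx
    simpa using this
  have hcz : ev (trD D) N c z = ev D B f x := circ_val hd hf hc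
  have e4 : ∑ e ∈ B ∪ N, l e * (ev D B f e * ev (trD D) N c e) = (l z + l x) * ev D B f x := by
    have hsub : ({z, x} : Finset ℕ) ⊆ B ∪ N := by
      intro e he
      rcases Finset.mem_insert.mp he with rfl | he
      · exact hzE
      · rw [Finset.mem_singleton.mp he]; exact hxE
    rw [← Finset.sum_subset hsub, Finset.sum_pair hzx, hfz, hcx, hcz]
    · ring
    · intro e he hne
      have hez : e ≠ z := fun h => hne (by rw [h]; exact Finset.mem_insert_self _ _)
      have hex : e ≠ x := fun h => hne (by rw [h]; exact Finset.mem_insert_of_mem (Finset.mem_singleton_self _))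
      by_cases heT : e ∈ T
      · have := hf.2.2 e heT
        rw [if_neg hez] at this
        rw [this]; ring
      · have := hc.2.2 e (Finset.mem_sdiff.mpr ⟨he, heT⟩)
        rw [if_neg hex] at this
        rw [this]; ring
  rw [e3, e4]
  by_cases h0 : ev D B f x = 0
  · rw [h0, mul_zero, zero_mul]
    exact tr_zero
  · rw [mul_assoc, mul_inv_cancel₀ h0, mul_one, tr_eq_zero]
    rcases hl z with h1 | h1 <;> rcases hl x with h2 | h2 <;> rw [h1, h2] <;> simp

end Pool.Agent.G4
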