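import Pool.Agent.G4.Lift3
import Pool.Agent.G4.Conn2
import Pool.Agent.G4.Dual

set_option autoImplicit false

/-!
# Module S3b: linear maps on the matroid with the new rows, without the new column

PROOF of `pnplus`. 1. By `h1` and `SpanP` there is `l` with `Φ b n = (l b + l n) D b n` on `B x N`.
2. For `p ∈ P` put `ψ n = Φ p.2 n + (if p.1 ∈ B then Φ p.1 n else 0) + (l p.1 + l n) * D p.2 n` ...
more precisely, let `Φ' b n = Φ b n + (l' b + l' n) D b n` with `l' = l` on `B ∪ N` and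
`l' p.2 = l p.1`; it vanishes on `B x N`. The condition `h2` for `Φ'`: since `D p.2 n` is
`D p.1 n` (`p.1 ∈ B`) or `[n = p.1]`, the sum
`∑_n ((l' p.2 + l' n) D p.2 n + [p.1 ∈ B] (l p.1 + l n) D p.1 n) c n` is `0` if `p.1 ∈ B` (the two
terms are equal) and `(l p.1 + l p.1) c p.1 = 0` if `p.1 ∈ N`. So
`tr ((∑_n Φ' p.2 n * c n) * (ev c p.1)⁻¹) = 0` for all `(T*, x) ∈ Lc` with vector `c`,
`ev c p.1 ≠ 0`; by `tr_mul_inv` `qf N (two (Φ' p.2) (col (trD D) N p.1)) c = 0` (also if
`ev c p.1 = 0`), so by `hc.2` and `herm_rank_two` `Φ' p.2 n = m p * col (trD D) N p.1 n =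
m p * D p.2 n` with `m p ∈ {0, 1}` (`Stp.row`; `col (trD D) N p.1 n` is `D p.1 n` if `p.1 ∈ B` and
`[p.1 = n]` if `p.1 ∈ N`).
3. The map `l'' = l'` on `B ∪ N`, `l'' p.2 = l' p.2 + m p` does it.
-/

namespace Pool.Agent.G4

open F4 Finset

variable {D : ℕ → ℕ → F4} {B N : Finset ℕ}

theorem pnplus {P : Finset (ℕ × ℕ)} {y : ℕ} (st : Stp D B N P y) (hN : C3 D B N)
    {Lc : Set (Finset ℕ × ℕ)} {LP : Set (Finset ℕ × (ℕ × ℕ))}
    (hc : SpanH (trD D) N B Lc) (hp : SpanP D B N LP) (Φ : ℕ → ℕ → F4)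
    (h1 : ∀ p ∈ LP, ∀ f c, IsF D B N p.1 p.2.1 f →
      IsF (trD D) N B ((B ∪ N) \ p.1) p.2.2 c →
      tr ((∑ b ∈ B, ∑ n ∈ N, f b * Φ b n * c n) * (ev D B f p.2.2)⁻¹) = 0)
    (h2 : ∀ q ∈ Lc, ∀ c, IsF (trD D) N B q.1 q.2 c → ∀ p ∈ P, ev (trD D) N c p.1 ≠ 0 →
      tr ((∑ n ∈ N, (Φ p.2 n + if p.1 ∈ B then Φ p.1 n else 0) * c n) *
        (ev (trD D) N c p.1)⁻¹) = 0) :
    ∃ l : ℕ → F4, (∀ e, l e = 0 ∨ l e = 1) ∧
      ∀ b ∈ nB B P, ∀ n ∈ N, Φ b n = (l b + l n) * D b n := by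
  classical
  obtain ⟨l, hl, hΦ⟩ := hp.2 Φ h1
  have hchar : ∀ x : F4, x + x = 0 := by decide
  have hdN : ∀ p ∈ P, p.1 ∈ B → p.1 ∉ N := fun p _ hb hn => (Finset.disjoint_left.1 st.disj hb) hn
  -- the column at the pair
  have ha : ∀ p ∈ P, ∀ n ∈ N, col (trD D) N p.1 n = D p.2 n := by
    intro p hpP n hn
    rw [st.row p hpP n hn]
    unfold col trD
    by_cases hb : p.1 ∈ B
    · rw [if_neg (hdN p hpP hb), if_pos hb]
    · have hn1 : p.1 ∈ N := by
        rcases Finset.mem_union.1 (st.mem p hpP) with h | h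
        · exact absurd h hb
        · exact h
      rw [if_pos hn1, if_neg hb]
      by_cases h : p.1 = n
      · rw [if_pos h, if_pos h.symm]
      · rw [if_neg h, if_neg (fun h' => h h'.symm)]
  have hane : ∀ p ∈ P, ∃ n ∈ N, col (trD D) N p.1 n ≠ 0 := by
    intro p hpP
    by_cases hb : p.1 ∈ B
    · by_contra hcon
      push Not at hcon
      have h0 : ∀ n ∈ N, D p.1 n = 0 := by
        intro n hn
        have h3 := hcon n hn
        rw [ha p hpP n hn, st.row p hpP n hn, if_pos hb] at h3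
        exact h3
      have hsep : Sep1 D B N {p.1} := by
        intro b hbB n hn
        by_cases hbp : b = p.1
        · right
          rw [hbp]
          exact h0 n hn
        · left
          constructor
          · intro h
            exact absurd (Finset.mem_singleton.1 h) hbp
          · intro h
            have h4 := Finset.mem_singleton.1 h
            rw [h4] at hn
            exact absurd hn (hdN p hpP hb)
      rcases hN.2.1 {p.1} (Finset.singleton_subset_iff.2 (st.mem p hpP)) hsep with h | h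
      · exact Finset.singleton_ne_empty _ h
      · have h5 := hN.1
        rw [← h, Finset.card_singleton] at h5
        omega
    · have hn1 : p.1 ∈ N := by
        rcases Finset.mem_union.1 (st.mem p hpP) with h | h
        · exact absurd h hb
        · exact h
      refine ⟨p.1, hn1, ?_⟩
      rw [ha p hpP _ hn1, st.row p hpP _ hn1, if_neg hb, if_pos rfl]
      exact one_ne_zero
  -- the difference
  have hw : ∀ p ∈ P, ∀ n ∈ N, (Φ p.2 n + if p.1 ∈ B then Φ p.1 n else 0) =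
      Φ p.2 n + (l p.1 + l n) * D p.2 n := by
    intro p hpP n hn
    rw [st.row p hpP n hn]
    by_cases hb : p.1 ∈ B
    · rw [if_pos hb, if_pos hb, hΦ p.1 hb n hn]
    · rw [if_neg hb, if_neg hb]
      by_cases h : n = p.1
      · rw [if_pos h, h, hchar]
        simp
      · rw [if_neg h]
        simp
  have hm : ∀ p ∈ P, ∃ m : F4, (m = 0 ∨ m = 1) ∧
      ∀ n ∈ N, Φ p.2 n + (l p.1 + l n) * D p.2 n = m * D p.2 n := by
    intro p hpP
    have h3 : ∀ i ∈ N, ∀ j ∈ N, two (fun n => Φ p.2 n + (l p.1 + l n) * D p.2 n)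
        (col (trD D) N p.1) i j = 0 := by
      apply hc.2 _ (herm_two _ _)
      intro q hq c hcF
      rw [qf_two]
      have h4 : ∑ b ∈ N, c b * col (trD D) N p.1 b = ev (trD D) N c p.1 := rfl
      rw [h4]
      by_cases h0 : ev (trD D) N c p.1 = 0
      · rw [h0, conj_zero, mul_zero, tr_zero]
      · have h5 := h2 q hq c hcF p hpP h0
        rw [tr_mul_inv] at h5
        rw [← h5]
        congr 2
        refine Finset.sum_congr rfl fun n hn => ?_
        rw [hw p hpP n hn, mul_comm]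
    obtain ⟨m, hm, hm2⟩ := herm_rank_two N _ _ (hane p hpP) h3
    refine ⟨m, hm, fun n hn => ?_⟩
    rw [← ha p hpP n hn]
    have h6 := hm2 n hn
    rw [← ha p hpP n hn] at h6
    exact h6
  choose! m hm1 hm2 using hm
  have h01 : ∀ x y : F4, (x = 0 ∨ x = 1) → (y = 0 ∨ y = 1) → (x + y = 0 ∨ x + y = 1) := by decide
  let l2 : ℕ → F4 := fun e => if h : ∃ p ∈ P, p.2 = e then l h.choose.1 + m h.choose else l e
  have hl2a : ∀ e ∈ B ∪ N, l2 e = l e := by
    intro e he
    have : ¬ ∃ p ∈ P, p.2 = e := by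
      rintro ⟨p, hpP, rfl⟩
      exact st.new p hpP he
    simp only [l2, dif_neg this]
  have hl2b : ∀ p ∈ P, l2 p.2 = l p.1 + m p := by
    intro p hpP
    have h : ∃ q ∈ P, q.2 = p.2 := ⟨p, hpP, rfl⟩
    have h7 : h.choose = p := st.inj2 _ h.choose_spec.1 _ hpP h.choose_spec.2
    simp only [l2, dif_pos h, h7]
  refine ⟨l2, ?_, ?_⟩
  · intro e
    by_cases h : ∃ p ∈ P, p.2 = e
    · obtain ⟨p, hpP, rfl⟩ := h
      rw [hl2b p hpP]
      exact h01 _ _ (hl _) (hm1 p hpP)
    · simp only [l2, dif_neg h]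
      exact hl e
  · intro b hb n hn
    rw [hl2a n (Finset.mem_union_right _ hn)]
    rcases Finset.mem_union.1 hb with hb | hb
    · rw [hl2a b (Finset.mem_union_left _ hb)]
      exact hΦ b hb n hn
    · obtain ⟨p, hpP, rfl⟩ := Finset.mem_image.1 hb
      rw [hl2b p hpP]
      have h8 := hm2 p hpP n hn
      have h9 : ∀ x u v : F4, x + u = v → x = v + u := by decide
      rw [h9 _ _ _ h8]
      ring

end Pool.Agent.G4
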