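import Pool.Agent.G4.Conn2
import Pool.Agent.G4.SP2a

set_option autoImplicit false

/-!
# States: definitions
-/

namespace Pool.Agent.G4

open N487b59b3 F4 Finset

/-- the marked bases of a list -/
def mkL (l : Lst) : Set (Finset ℕ × ℕ) := {p | ∃ q ∈ l, p = (q.1.toFinset, q.2)}

/-- the marked bases of the dual -/
def mkC (S : Finset ℕ) (l : Lst) : Set (Finset ℕ × ℕ) := {p | ∃ q ∈ l, p = (S \ q.1.toFinset, q.2)}

/-- the doubly marked bases of a list -/
def mkP (l : Lst2) : Set (Finset ℕ × (ℕ × ℕ)) := {p | ∃ q ∈ l, p = (q.1.toFinset, q.2)}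

/-- a correct state -/
structure GoodSt (s : St) : Prop where
  ndB : s.1.1.Nodup
  ndN : s.1.2.Nodup
  dj : Disjoint s.1.1.toFinset s.1.2.toFinset
  c3 : C3 (ent s.2.1) s.1.1.toFinset s.1.2.toFinset
  spL : SpanH (ent s.2.1) s.1.1.toFinset s.1.2.toFinset (mkL s.2.2.1)
  spC : SpanH (trD (ent s.2.1)) s.1.2.toFinset s.1.1.toFinset
    (mkC (s.1.1.toFinset ∪ s.1.2.toFinset) s.2.2.2.1)
  spP : SpanP (ent s.2.1) s.1.1.toFinset s.1.2.toFinset (mkP s.2.2.2.2)
  subC : ∀ q ∈ s.2.2.2.1, q.1.toFinset ⊆ s.1.1.toFinset ∪ s.1.2.toFinset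

/-- the state `s` describes the minor on `S`; `D` is the matrix of the basis `T` -/
def RepSt (D : ℕ → ℕ → F4) (T S : Finset ℕ) (s : St) : Prop :=
  GoodSt s ∧ s.1.1.toFinset = T ∩ S ∧ s.1.2.toFinset = S \ T ∧
    Eqv D (ent s.2.1) (T ∩ S) (S \ T)

/-- the situation of one step of the reconstruction: `D₁` is the matrix of the larger minor,
normalised such that it extends the known one, `ans` are the answers -/
structure StepCtx (s : St) (ps : List (ℕ × ℕ)) (y : ℕ) (D₁ : ℕ → ℕ → F4)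
    (ans : List (Desc × Bool)) : Prop where
  good : GoodSt s
  nd : ps.Nodup
  st : Stp D₁ s.1.1.toFinset s.1.2.toFinset ps.toFinset y
  old : ∀ b ∈ s.1.1, ∀ n ∈ s.1.2, D₁ b n = ent s.2.1 b n
  c3 : C3 D₁ (nB s.1.1.toFinset ps.toFinset) (nN s.1.2.toFinset y)
  ans : ∃ f : Desc → Bool, ans = (descs s ps).map (fun q => (q, f q)) ∧
    ∀ q ∈ descs s ps, (f q = true ↔
      IsBase D₁ (nB s.1.1.toFinset ps.toFinset) (nN s.1.2.toFinset y) (descSet ps y q).toFinset)

/-- the ground set of the new state as a list -/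
def newS (s : St) (ps : List (ℕ × ℕ)) (y : ℕ) : List ℕ :=
  (s.1.1 ++ ps.map fun p => p.2) ++ (s.1.2 ++ [y])

end Pool.Agent.G4
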