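import Pool.Agent.G4.T1
import Pool.Agent.G4.Conn

set_option autoImplicit false

/-!
# Module T2: connectivity at most one is read off from the table

`oneSide_iff`: unfold; the `List.all` statements with `TabOK.one`, `TabOK.two`; the 2x2 minors with
`b = b'` or `n = n'` vanish trivially. `lam1_iff`: `sep2_iff`, the finset of `dif (gr t) X` is
`(rows ∪ columns) \ X`.
-/

namespace Pool.Agent.G4

open N487b59b3 F4

variable {D : ℕ → ℕ → F4} {t : Tab}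

theorem oneSide_iff (h : TabOK D t) (X : List ℕ) :
    oneSide t X = true ↔ One D t.1.1.toFinset t.1.2.toFinset X.toFinset := by
  have e1 : oneSide t X = true ↔ (∀ p ∈ t.2.1, ¬(p.1 ∈ X ∧ p.2 ∉ X)) ∧
      ∀ q ∈ t.2.2, ¬((q.1.1 ∉ X ∧ q.1.2 ∉ X) ∧ (q.2.1 ∈ X ∧ q.2.2 ∈ X)) := by
    unfold oneSide
    rw [Bool.and_eq_true, List.all_eq_true, List.all_eq_true]
    refine and_congr (forall_congr' fun p => forall_congr' fun _ => ?_)
      (forall_congr' fun q => forall_congr' fun _ => ?_)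
    · by_cases h1 : p.1 ∈ X <;> by_cases h2 : p.2 ∈ X <;> simp [h1, h2]
    · by_cases h1 : q.1.1 ∈ X <;> by_cases h2 : q.1.2 ∈ X <;> by_cases h3 : q.2.1 ∈ X <;>
        by_cases h4 : q.2.2 ∈ X <;> simp [h1, h2, h3, h4]
  rw [e1]
  unfold One
  simp only [List.mem_toFinset]
  refine and_congr ⟨fun hh b hb n hn hbX hnX => ?_, fun hh p hp hc => ?_⟩
    ⟨fun hh b hb b' hb' n hn n' hn' hbX hbX' hnX hnX' => ?_, fun hh q hq hc => ?_⟩
  · by_contra h0
    exact hh (b, n) ((h.one (b, n)).2 ⟨hb, hn, h0⟩) ⟨hbX, hnX⟩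
  · obtain ⟨h1, h2, h3⟩ := (h.one p).1 hp
    exact h3 (hh p.1 h1 p.2 h2 hc.1 hc.2)
  · by_cases hbb : b = b'
    · subst hbb
      ring
    by_cases hnn : n = n'
    · subst hnn
      rfl
    by_contra h0
    exact hh ((b, b'), (n, n')) ((h.two ((b, b'), (n, n'))).2 ⟨⟨hb, hb', hbb⟩, ⟨hn, hn', hnn⟩, h0⟩)
      ⟨⟨hbX, hbX'⟩, hnX, hnX'⟩
  · obtain ⟨⟨h1, h2, -⟩, ⟨h3, h4, -⟩, h5⟩ := (h.two q).1 hq
    exact h5 (hh _ h1 _ h2 _ h3 _ h4 hc.1.1 hc.1.2 hc.2.1 hc.2.2)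

theorem lam1_iff (h : TabOK D t) (X : List ℕ) :
    lam1 t X = true ↔ Sep2 D t.1.1.toFinset t.1.2.toFinset X.toFinset := by
  unfold lam1
  rw [Bool.or_eq_true, oneSide_iff h, oneSide_iff h, sep2_iff, dif_toFinset]
  have e1 : (gr t).toFinset = t.1.1.toFinset ∪ t.1.2.toFinset := by
    ext e
    simp [mem_gr]
  rw [e1]

end Pool.Agent.G4
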