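import Pool.Agent.G4.T2

set_option autoImplicit false

/-!
# Module T3: the closures `clos`, `comp` and the list `seps`

Notation `B = t.1.1.toFinset`, `N = t.1.2.toFinset`, `n = (gr t).length`.
* `iter_closed`: if `F X = g.filter (P X)` where `P X e` holds for `e ∈ X` and `F` is monotone with
respect to inclusion, and all elements of `X₀` are in `g`, then `F^[g.length] X₀` contains `X₀`, is a
fixed set (`e ∈ F (F^[g.length] X₀) ↔ e ∈ F^[g.length] X₀`), and is contained in every list/set `Z`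
with `X₀ ⊆ Z` which is closed under `F` (`F Z ⊆ Z`). PROOF: the sets `F^[i] X₀` increase; as long as
they are not stable the cardinality of the finset increases, it is at most `g.length`, and
`X₀ ≠ []` gives at least one at the start (so `g.length` steps are enough; once stable, always stable).
* `clos_spec`: `X = clos t b₀ c₀ x₁` is closed under: `b ∈ X`, `D b e ≠ 0` ⟹ `e ∈ X`
(rows `b`, columns `e`); `x ∈ X` a column, `e` a row with the minor `(b₀, e; c₀, x)` nonzero ⟹ `e ∈ X`. So the block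
(rows in `X`) x (columns not in `X`) is zero, and for a row `e ∉ X`, a column `x ∈ X`:
`D b₀ c₀ * D e x = D b₀ x * D e c₀` (trivial if `e = b₀` or `x = c₀`), so all 2x2 minors of the block
(rows not in `X`) x (columns in `X`) vanish (`D b₀ c₀ ≠ 0`: every such row is a multiple of the row
`b₀` on the columns in `X`): `One D B N X`.
* `comp_spec`: closed under adjacency in both directions: `Sep1`.
* `seps_sound`: put together (`swT` for the third part: `One (trD D) N B X` is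
`One D B N ((B ∪ N) \ X)`, and `sep2_iff`).
-/

namespace Pool.Agent.G4

open N487b59b3 F4

variable {D : ℕ → ℕ → F4} {t : Tab}

private theorem it_sub (g : List ℕ) (P : List ℕ → ℕ → Bool) (X₀ : List ℕ)
    (hg : ∀ e ∈ X₀, e ∈ g) (i : ℕ) : ∀ e ∈ (fun X => g.filter (P X))^[i] X₀, e ∈ g := by
  cases i with
  | zero => exact hg
  | succ i =>
    intro e he
    rw [Function.iterate_succ_apply'] at he
    exact (List.mem_filter.1 he).1

private theorem it_mono (g : List ℕ) (P : List ℕ → ℕ → Bool)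
    (hP : ∀ X e, e ∈ X → P X e = true) (X₀ : List ℕ)
    (hg : ∀ e ∈ X₀, e ∈ g) (i : ℕ) : ∀ e ∈ (fun X => g.filter (P X))^[i] X₀,
      e ∈ (fun X => g.filter (P X))^[i + 1] X₀ := by
  intro e he
  rw [Function.iterate_succ_apply']
  exact List.mem_filter.2 ⟨it_sub g P X₀ hg i e he, hP _ _ he⟩

private theorem it_zero (g : List ℕ) (P : List ℕ → ℕ → Bool)
    (hP : ∀ X e, e ∈ X → P X e = true) (X₀ : List ℕ)
    (hg : ∀ e ∈ X₀, e ∈ g) (i : ℕ) : ∀ e ∈ X₀, e ∈ (fun X => g.filter (P X))^[i] X₀ := by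
  induction i with
  | zero => exact fun e he => he
  | succ i ih => exact fun e he => it_mono g P hP X₀ hg i e (ih e he)

private theorem it_min (g : List ℕ) (P : List ℕ → ℕ → Bool)
    (hm : ∀ X Y, (∀ e ∈ X, e ∈ Y) → ∀ e, P X e = true → P Y e = true) (X₀ : List ℕ)
    (Z : List ℕ) (hZ : ∀ e ∈ X₀, e ∈ Z) (hc : ∀ e ∈ g, P Z e = true → e ∈ Z) (i : ℕ) :
    ∀ e ∈ (fun X => g.filter (P X))^[i] X₀, e ∈ Z := by
  induction i with
  | zero => exact hZ
  | succ i ih =>
    intro e he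
    rw [Function.iterate_succ_apply'] at he
    have h1 := List.mem_filter.1 he
    exact hc e h1.1 (hm _ _ ih e h1.2)

private theorem it_stab (g : List ℕ) (P : List ℕ → ℕ → Bool)
    (hP : ∀ X e, e ∈ X → P X e = true)
    (hm : ∀ X Y, (∀ e ∈ X, e ∈ Y) → ∀ e, P X e = true → P Y e = true) (X₀ : List ℕ)
    (h0 : X₀ ≠ []) (hg : ∀ e ∈ X₀, e ∈ g) (i : ℕ) :
    (∀ e ∈ g, P ((fun X => g.filter (P X))^[i] X₀) e = true →
      e ∈ (fun X => g.filter (P X))^[i] X₀) ∨
    i + 1 ≤ ((fun X => g.filter (P X))^[i] X₀).toFinset.card := by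
  induction i with
  | zero =>
    right
    rw [Function.iterate_zero_apply, zero_add, Nat.one_le_iff_ne_zero, Ne, Finset.card_eq_zero]
    intro h
    exact h0 (by simpa using h)
  | succ i ih =>
    by_cases hc : ∀ e ∈ g, P ((fun X => g.filter (P X))^[i] X₀) e = true →
      e ∈ (fun X => g.filter (P X))^[i] X₀
    · left
      intro e he hPe
      rw [Function.iterate_succ_apply'] at hPe ⊢
      refine List.mem_filter.2 ⟨he, ?_⟩
      refine hm _ _ (fun x hx => ?_) e hPe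
      have h1 := List.mem_filter.1 hx
      exact hc x h1.1 h1.2
    · right
      rcases ih with ih | ih
      · exact absurd ih hc
      · push Not at hc
        obtain ⟨e, he, hPe, hne⟩ := hc
        have hlt : ((fun X => g.filter (P X))^[i] X₀).toFinset ⊂
            ((fun X => g.filter (P X))^[i + 1] X₀).toFinset := by
          rw [Finset.ssubset_iff_of_subset]
          · refine ⟨e, ?_, ?_⟩
            · rw [List.mem_toFinset, Function.iterate_succ_apply']
              exact List.mem_filter.2 ⟨he, hPe⟩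
            · rw [List.mem_toFinset]
              exact hne
          · intro x hx
            rw [List.mem_toFinset] at hx ⊢
            exact it_mono g P hP X₀ hg i x hx
        have := Finset.card_lt_card hlt
        omega

theorem iter_closed (g : List ℕ) (P : List ℕ → ℕ → Bool)
    (hP : ∀ X e, e ∈ X → P X e = true)
    (hm : ∀ X Y, (∀ e ∈ X, e ∈ Y) → ∀ e, P X e = true → P Y e = true)
    (X₀ : List ℕ) (h0 : X₀ ≠ []) (hg : ∀ e ∈ X₀, e ∈ g) :
    let X := (fun X => g.filter (P X))^[g.length] X₀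
    (∀ e ∈ X₀, e ∈ X) ∧ (∀ e ∈ X, e ∈ g) ∧ (∀ e ∈ g, P X e = true → e ∈ X) ∧
    (g.Nodup → X.Nodup) ∧
    ∀ Z : List ℕ, (∀ e ∈ X₀, e ∈ Z) → (∀ e ∈ g, P Z e = true → e ∈ Z) → ∀ e ∈ X, e ∈ Z := by
  intro X
  refine ⟨it_zero g P hP X₀ hg _, it_sub g P X₀ hg _, ?_, ?_,
    fun Z hZ hc => it_min g P hm X₀ Z hZ hc _⟩
  · rcases it_stab g P hP hm X₀ h0 hg g.length with h | h
    · exact h
    · exfalso
      have h1 : ((fun X => g.filter (P X))^[g.length] X₀).toFinset ⊆ g.toFinset := by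
        intro x hx
        rw [List.mem_toFinset] at hx ⊢
        exact it_sub g P X₀ hg _ x hx
      have h2 := Finset.card_le_card h1
      have h3 := List.toFinset_card_le g
      omega
  · intro hnd
    have hlen : g.length ≠ 0 := by
      intro h
      rw [List.length_eq_zero_iff] at h
      obtain ⟨x, hx⟩ := List.exists_mem_of_ne_nil _ h0
      have := hg x hx
      rw [h] at this
      exact absurd this List.not_mem_nil
    obtain ⟨k, hk⟩ := Nat.exists_eq_succ_of_ne_zero hlen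
    have hX : X = (fun X => g.filter (P X))^[k.succ] X₀ := by
      rw [← hk]
    rw [hX, Function.iterate_succ_apply']
    exact hnd.filter _

/-- the condition of `closStep` -/
private def cP (t : Tab) (b₀ c₀ : ℕ) (X : List ℕ) (e : ℕ) : Bool :=
  decide (e ∈ X) ||
    ((t.2.1.any fun p => decide (p.2 = e) && decide (p.1 ∈ X)) ||
     (t.2.2.any fun p => (decide (p.1.1 = b₀) && decide (p.1.2 = e)) &&
      (decide (p.2.1 = c₀) && decide (p.2.2 ∈ X))))

private theorem cP_iff {b₀ c₀ : ℕ} {X : List ℕ} {e : ℕ} : cP t b₀ c₀ X e = true ↔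
    e ∈ X ∨ (∃ b, (b, e) ∈ t.2.1 ∧ b ∈ X) ∨ ∃ x, ((b₀, e), (c₀, x)) ∈ t.2.2 ∧ x ∈ X := by
  unfold cP
  simp only [Bool.or_eq_true, Bool.and_eq_true, decide_eq_true_eq, List.any_eq_true]
  constructor
  · rintro (h | ⟨⟨b, n⟩, hp, rfl, hb⟩ | ⟨⟨⟨b, b'⟩, ⟨c, x⟩⟩, hp, ⟨rfl, rfl⟩, rfl, hx⟩)
    · exact Or.inl h
    · exact Or.inr (Or.inl ⟨b, hp, hb⟩)
    · exact Or.inr (Or.inr ⟨x, hp, hx⟩)
  · rintro (h | ⟨b, hp, hb⟩ | ⟨x, hp, hx⟩)
    · exact Or.inl h
    · exact Or.inr (Or.inl ⟨_, hp, rfl, hb⟩)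
    · exact Or.inr (Or.inr ⟨_, hp, ⟨rfl, rfl⟩, rfl, hx⟩)

theorem clos_spec (h : TabOK D t) {b₀ c₀ x₁ : ℕ} (he : (b₀, c₀) ∈ t.2.1) (hx : x₁ ∈ gr t) :
    (clos t b₀ c₀ x₁).Nodup ∧ c₀ ∈ clos t b₀ c₀ x₁ ∧ x₁ ∈ clos t b₀ c₀ x₁ ∧
    (∀ e ∈ clos t b₀ c₀ x₁, e ∈ gr t) ∧
    One D t.1.1.toFinset t.1.2.toFinset (clos t b₀ c₀ x₁).toFinset ∧
    ∀ Z : Finset ℕ, One D t.1.1.toFinset t.1.2.toFinset Z → b₀ ∉ Z → c₀ ∈ Z → x₁ ∈ Z →
      ∀ e ∈ clos t b₀ c₀ x₁, e ∈ Z := by
  have he' := (h.one _).1 he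
  simp only at he'
  obtain ⟨hb₀, hc₀, hd⟩ := he'
  have key := iter_closed (gr t) (cP t b₀ c₀)
    (fun X e hX => cP_iff.2 (Or.inl hX))
    (fun X Y hXY e hX => by
      rcases cP_iff.1 hX with h1 | ⟨b, h1, h2⟩ | ⟨x, h1, h2⟩
      · exact cP_iff.2 (Or.inl (hXY _ h1))
      · exact cP_iff.2 (Or.inr (Or.inl ⟨b, h1, hXY _ h2⟩))
      · exact cP_iff.2 (Or.inr (Or.inr ⟨x, h1, hXY _ h2⟩)))
    [c₀, x₁] (by simp) (by
      intro e hX
      rcases List.mem_pair.1 hX with rfl | rfl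
      · exact mem_gr.2 (Or.inr hc₀)
      · exact hx)
  have hcl : (fun X => (gr t).filter (cP t b₀ c₀ X))^[(gr t).length] [c₀, x₁] =
      clos t b₀ c₀ x₁ := rfl
  simp only [hcl] at key
  obtain ⟨k1, k2, k3, k4, k5⟩ := key
  refine ⟨k4 h.gr_nodup, k1 _ (by simp), k1 _ (by simp), k2, ⟨?_, ?_⟩, ?_⟩
  · intro b hb n hn hbX hnX
    rw [List.mem_toFinset] at hb hn hbX hnX
    by_contra hne
    exact hnX (k3 n (mem_gr.2 (Or.inr hn))
      (cP_iff.2 (Or.inr (Or.inl ⟨b, (h.one (b, n)).2 ⟨hb, hn, hne⟩, hbX⟩))))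
  · have hrow : ∀ e ∈ t.1.1, e ∉ clos t b₀ c₀ x₁ → ∀ x ∈ t.1.2, x ∈ clos t b₀ c₀ x₁ →
        D b₀ c₀ * D e x = D b₀ x * D e c₀ := by
      intro e heB heX x hxN hxX
      by_cases h1 : b₀ = e
      · subst h1
        exact mul_comm _ _
      by_cases h2 : c₀ = x
      · subst h2
        rfl
      by_contra hne
      exact heX (k3 e (mem_gr.2 (Or.inl heB)) (cP_iff.2 (Or.inr (Or.inr
        ⟨x, (h.two ((b₀, e), (c₀, x))).2 ⟨⟨hb₀, heB, h1⟩, ⟨hc₀, hxN, h2⟩, hne⟩, hxX⟩))))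
    intro b hb b' hb' n hn n' hn' hbX hbX' hnX hnX'
    rw [List.mem_toFinset] at hb hb' hn hn' hbX hbX' hnX hnX'
    have e1 := hrow b hb hbX n hn hnX
    have e2 := hrow b' hb' hbX' n' hn' hnX'
    have e3 := hrow b hb hbX n' hn' hnX'
    have e4 := hrow b' hb' hbX' n hn hnX
    have h5 : (D b₀ c₀ * D b₀ c₀) * (D b n * D b' n') =
        (D b₀ c₀ * D b₀ c₀) * (D b n' * D b' n) := by
      calc (D b₀ c₀ * D b₀ c₀) * (D b n * D b' n')
          = (D b₀ c₀ * D b n) * (D b₀ c₀ * D b' n') := by ring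
        _ = (D b₀ n * D b c₀) * (D b₀ n' * D b' c₀) := by rw [e1, e2]
        _ = (D b₀ n' * D b c₀) * (D b₀ n * D b' c₀) := by ring
        _ = (D b₀ c₀ * D b n') * (D b₀ c₀ * D b' n) := by rw [e3, e4]
        _ = (D b₀ c₀ * D b₀ c₀) * (D b n' * D b' n) := by ring
    exact mul_left_cancel₀ (mul_ne_zero hd hd) h5
  · intro Z hZ hbZ hcZ hxZ e heX
    have := k5 Z.toList (by
      intro e hX
      rcases List.mem_pair.1 hX with rfl | rfl
      · simpa using hcZ
      · simpa using hxZ) (by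
      intro e heg hPe
      rw [Finset.mem_toList]
      rcases cP_iff.1 hPe with h1 | ⟨b, h1, h2⟩ | ⟨x, h1, h2⟩
      · simpa using h1
      · rw [Finset.mem_toList] at h2
        obtain ⟨q1, q2, q3⟩ := (h.one _).1 h1
        by_contra hne
        exact q3 (hZ.1 b (List.mem_toFinset.2 q1) e (List.mem_toFinset.2 q2) h2 hne)
      · rw [Finset.mem_toList] at h2
        obtain ⟨⟨q1, q2, q3⟩, ⟨q4, q5, q6⟩, q7⟩ := (h.two _).1 h1
        by_contra hne
        exact q7 (hZ.2 b₀ (List.mem_toFinset.2 q1) e (List.mem_toFinset.2 q2)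
          c₀ (List.mem_toFinset.2 q4) x (List.mem_toFinset.2 q5) hbZ hne hcZ h2)) e heX
    simpa using this

/-- the condition of `compStep` -/
private def mP (t : Tab) (X : List ℕ) (e : ℕ) : Bool :=
  decide (e ∈ X) ||
    (t.2.1.any fun p => (decide (p.2 = e) && decide (p.1 ∈ X)) ||
      (decide (p.1 = e) && decide (p.2 ∈ X)))

private theorem mP_iff {X : List ℕ} {e : ℕ} : mP t X e = true ↔
    e ∈ X ∨ (∃ b, (b, e) ∈ t.2.1 ∧ b ∈ X) ∨ ∃ n, (e, n) ∈ t.2.1 ∧ n ∈ X := by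
  unfold mP
  simp only [Bool.or_eq_true, Bool.and_eq_true, decide_eq_true_eq, List.any_eq_true]
  constructor
  · rintro (h | ⟨⟨b, n⟩, hp, ⟨rfl, hb⟩ | ⟨rfl, hn⟩⟩)
    · exact Or.inl h
    · exact Or.inr (Or.inl ⟨b, hp, hb⟩)
    · exact Or.inr (Or.inr ⟨n, hp, hn⟩)
  · rintro (h | ⟨b, hp, hb⟩ | ⟨x, hp, hx⟩)
    · exact Or.inl h
    · exact Or.inr ⟨_, hp, Or.inl ⟨rfl, hb⟩⟩
    · exact Or.inr ⟨_, hp, Or.inr ⟨rfl, hx⟩⟩

theorem comp_spec (h : TabOK D t) {x : ℕ} (hx : x ∈ gr t) :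
    (comp t x).Nodup ∧ x ∈ comp t x ∧ (∀ e ∈ comp t x, e ∈ gr t) ∧
    Sep1 D t.1.1.toFinset t.1.2.toFinset (comp t x).toFinset ∧
    ∀ Z : Finset ℕ, Sep1 D t.1.1.toFinset t.1.2.toFinset Z → x ∈ Z → ∀ e ∈ comp t x, e ∈ Z := by
  have key := iter_closed (gr t) (mP t)
    (fun X e hX => mP_iff.2 (Or.inl hX))
    (fun X Y hXY e hX => by
      rcases mP_iff.1 hX with h1 | ⟨b, h1, h2⟩ | ⟨x, h1, h2⟩
      · exact mP_iff.2 (Or.inl (hXY _ h1))
      · exact mP_iff.2 (Or.inr (Or.inl ⟨b, h1, hXY _ h2⟩))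
      · exact mP_iff.2 (Or.inr (Or.inr ⟨x, h1, hXY _ h2⟩)))
    [x] (by simp) (by
      intro e hX
      rw [List.mem_singleton] at hX
      subst hX
      exact hx)
  have hcl : (fun X => (gr t).filter (mP t X))^[(gr t).length] [x] = comp t x := rfl
  simp only [hcl] at key
  obtain ⟨k1, k2, k3, k4, k5⟩ := key
  refine ⟨k4 h.gr_nodup, k1 _ (by simp), k2, ?_, ?_⟩
  · intro b hb n hn
    rw [List.mem_toFinset] at hb hn
    by_cases hne : D b n = 0
    · exact Or.inr hne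
    · left
      have h1 : (b, n) ∈ t.2.1 := (h.one (b, n)).2 ⟨hb, hn, hne⟩
      rw [List.mem_toFinset, List.mem_toFinset]
      constructor
      · intro hbX
        exact k3 n (mem_gr.2 (Or.inr hn)) (mP_iff.2 (Or.inr (Or.inl ⟨b, h1, hbX⟩)))
      · intro hnX
        exact k3 b (mem_gr.2 (Or.inl hb)) (mP_iff.2 (Or.inr (Or.inr ⟨n, h1, hnX⟩)))
  · intro Z hZ hxZ e heX
    have := k5 Z.toList (by
      intro e hX
      rw [List.mem_singleton] at hX
      subst hX
      simpa using hxZ) (by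
      intro e heg hPe
      rw [Finset.mem_toList]
      rcases mP_iff.1 hPe with h1 | ⟨b, h1, h2⟩ | ⟨n, h1, h2⟩
      · simpa using h1
      · rw [Finset.mem_toList] at h2
        obtain ⟨q1, q2, q3⟩ := (h.one _).1 h1
        rcases hZ b (List.mem_toFinset.2 q1) e (List.mem_toFinset.2 q2) with h4 | h4
        · exact h4.1 h2
        · exact absurd h4 q3
      · rw [Finset.mem_toList] at h2
        obtain ⟨q1, q2, q3⟩ := (h.one _).1 h1
        rcases hZ e (List.mem_toFinset.2 q1) n (List.mem_toFinset.2 q2) with h4 | h4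
        · exact h4.2 h2
        · exact absurd h4 q3) e heX
    simpa using this

end Pool.Agent.G4
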