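import Pool.Agent.G4.St
import Pool.Agent.G4.U1

set_option autoImplicit false

/-!
# Module U2: the vector of the new column, the list of questions

* `vecV_spec`: `solve_eq` for `I = idx2 B`, `w (i, j) = w i * conj (w j)`: the equation of an answer with
`U = []` and vector `B.map f` is `∑ f i w i conj (w j) conj (f j) = nm (∑ f i w i) = [answer]`
(`dot_phiH`, `nm_eq`), uniqueness by `h2`. So `ent W i j = w i * conj (w j)` for `i, j ∈ B` (the zip of
`idx2 B` with `(idx2 B).map ..`; `ent` looks up the key; it is `0` if the key does not occur). If some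
`w j ≠ 0`, `j ∈ B`: the chosen `j` has `w j ≠ 0` and the vector is `w i * conj (w j)`. Otherwise all
entries are zero, take `c = 1`.
* `smallU_spec`, `mem_descs`, `descSet_toFinset`: unfold.
-/

namespace Pool.Agent.G4

open N487b59b3 F4 Finset

private theorem u2_ent (l : List (ℕ × ℕ)) (g : ℕ × ℕ → F4) (i j : ℕ) :
    ent (l.map fun p => (p, g p)) i j = if (i, j) ∈ l then g (i, j) else 0 := by
  induction l with
  | nil => rfl
  | cons a l ih =>
    unfold ent at *
    rw [List.map_cons, List.filter_cons]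
    by_cases h : a = (i, j)
    · subst h
      simp
    · have h' : ¬ (i, j) = a := fun hc => h hc.symm
      simp only [h, decide_false, List.mem_cons, h', false_or]
      exact ih

private theorem u2_zip {α β : Type} (l : List α) (g : α → β) :
    l.zip (l.map g) = l.map fun p => (p, g p) := by
  induction l with
  | nil => rfl
  | cons a l ih => rw [List.map_cons, List.zip_cons_cons, ih, List.map_cons]

private theorem u2_sum (B : Finset ℕ) (f w : ℕ → F4) :
    ∑ i ∈ B, ∑ j ∈ B, f i * (w i * conj (w j)) * conj (f j) =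
      if ∑ b ∈ B, f b * w b = 0 then 0 else 1 := by
  rw [← nm_eq]
  unfold nm
  rw [conj_sum, Finset.sum_mul_sum]
  refine Finset.sum_congr rfl fun i _ => Finset.sum_congr rfl fun j _ => ?_
  rw [conj_mul]
  ring

theorem vecV_spec {B : List ℕ} (hB : B.Nodup) {ans : List (Desc × Bool)} (w : ℕ → F4)
    (h1 : ∀ a ∈ ans, a.1.2.2 = [] → ∃ f : ℕ → F4, a.1.2.1 = B.map f ∧
      (a.2 = true ↔ ∑ b ∈ B.toFinset, f b * w b ≠ 0))
    (h2 : ∀ W : ℕ → ℕ → F4, (∀ a ∈ ans, a.1.2.2 = [] → ∀ f : ℕ → F4, a.1.2.1 = B.map f →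
      ∑ i ∈ B.toFinset, ∑ j ∈ B.toFinset, f i * W i j * conj (f j) = 0) →
      ∀ i ∈ B, ∀ j ∈ B, W i j = 0) :
    ∃ c : F4, c ≠ 0 ∧ vecV B ans = B.map fun b => c * w b := by
  have hsol : solve (idx2 B) ((ans.filter fun a => a.1.2.2.isEmpty).map fun a =>
      (phiH a.1.2.1, if a.2 then (1 : F4) else 0)) =
      (idx2 B).map fun p => w p.1 * conj (w p.2) := by
    refine solve_eq (idx2 B) (idx2_nodup hB) _ ?_ (fun p => w p.1 * conj (w p.2)) ?_ ?_
    · intro p hp
      obtain ⟨a, ha, rfl⟩ := List.mem_map.1 hp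
      rw [List.mem_filter, List.isEmpty_iff] at ha
      obtain ⟨f, hf, -⟩ := h1 a ha.1 ha.2
      refine phiH_length _ B ?_
      rw [hf, List.length_map]
    · intro p hp
      obtain ⟨a, ha, rfl⟩ := List.mem_map.1 hp
      rw [List.mem_filter, List.isEmpty_iff] at ha
      obtain ⟨f, hf, hf2⟩ := h1 a ha.1 ha.2
      change dot (phiH a.1.2.1) _ = if a.2 then (1 : F4) else 0
      rw [hf, dot_phiH hB, u2_sum]
      by_cases h : ∑ b ∈ B.toFinset, f b * w b = 0
      · rw [if_pos h, if_neg]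
        intro hc
        exact hf2.1 hc h
      · rw [if_neg h, if_pos (hf2.2 h)]
    · intro u hu p hp
      have hp' := mem_idx2.1 hp
      refine h2 (fun i j => u (i, j)) ?_ p.1 hp'.1 p.2 hp'.2
      intro a ha hae f hf
      have h3 := hu (phiH a.1.2.1, if a.2 then (1 : F4) else 0) (List.mem_map.2 ⟨a, by
        rw [List.mem_filter, List.isEmpty_iff]
        exact ⟨ha, hae⟩, rfl⟩)
      change dot (phiH a.1.2.1) _ = 0 at h3
      rw [hf, dot_phiH hB] at h3
      exact h3
  have hent : ∀ i j, ent ((idx2 B).zip (solve (idx2 B)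
      ((ans.filter fun a => a.1.2.2.isEmpty).map fun a =>
        (phiH a.1.2.1, if a.2 then (1 : F4) else 0)))) i j =
      if i ∈ B ∧ j ∈ B then w i * conj (w j) else 0 := by
    intro i j
    rw [hsol, u2_zip, u2_ent]
    simp only [mem_idx2]
  unfold vecV
  simp only [hent]
  by_cases hw : ∃ b ∈ B, w b ≠ 0
  · obtain ⟨b, hb, hwb⟩ := hw
    set l := B.filter fun j => !decide ((if j ∈ B ∧ j ∈ B then w j * conj (w j) else 0) = 0)
      with hl
    have hbl : b ∈ l := by
      rw [hl, List.mem_filter]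
      refine ⟨hb, ?_⟩
      rw [if_pos ⟨hb, hb⟩]
      simp only [Bool.not_eq_eq_eq_not, Bool.not_true, decide_eq_false_iff_not]
      rw [mul_conj_self _ hwb]
      exact one_ne_zero
    have hhead : l.headD 0 ∈ l := by
      cases hc : l with
      | nil => rw [hc] at hbl; simp at hbl
      | cons a t => simp
    rw [hl, List.mem_filter, ← hl] at hhead
    obtain ⟨hj, hj2⟩ := hhead
    rw [if_pos ⟨hj, hj⟩] at hj2
    simp only [Bool.not_eq_eq_eq_not, Bool.not_true, decide_eq_false_iff_not] at hj2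
    refine ⟨conj (w (l.headD 0)), fun hc => hj2 (by rw [hc, mul_zero]), ?_⟩
    apply List.map_congr_left
    intro i hi
    rw [if_pos ⟨hi, hj⟩, mul_comm]
  · push Not at hw
    refine ⟨1, one_ne_zero, ?_⟩
    apply List.map_congr_left
    intro i hi
    rw [hw i hi, zero_mul, mul_zero, ite_self]

theorem smallU_spec {ps : List (ℕ × ℕ)} :
    (∀ U ∈ smallU ps, (∀ q ∈ U, q ∈ ps) ∧ U.Nodup ∧ U.length ≤ 2) ∧ [] ∈ smallU ps ∧
    ∀ U : Finset (ℕ × ℕ), U ⊆ ps.toFinset → U.card ≤ 2 → ∃ U' ∈ smallU ps, U'.toFinset = U := by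
  have hmem : ∀ U : List (ℕ × ℕ), U ∈ smallU ps ↔ U = [] ∨ (∃ p ∈ ps, U = [p]) ∨
      ∃ p ∈ ps, ∃ q ∈ ps, q ≠ p ∧ U = [p, q] := by
    intro U
    unfold smallU
    simp only [List.mem_append, List.mem_cons, List.not_mem_nil, or_false, List.mem_map,
      List.mem_flatMap, List.mem_filter, Bool.not_eq_eq_eq_not, Bool.not_true,
      decide_eq_false_iff_not]
    constructor
    · rintro ((h | ⟨p, hp, rfl⟩) | ⟨p, hp, q, ⟨hq, hqp⟩, rfl⟩)
      · exact Or.inl h
      · exact Or.inr (Or.inl ⟨p, hp, rfl⟩)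
      · exact Or.inr (Or.inr ⟨p, hp, q, hq, hqp, rfl⟩)
    · rintro (h | ⟨p, hp, rfl⟩ | ⟨p, hp, q, hq, hqp, rfl⟩)
      · exact Or.inl (Or.inl h)
      · exact Or.inl (Or.inr ⟨p, hp, rfl⟩)
      · exact Or.inr ⟨p, hp, q, ⟨hq, hqp⟩, rfl⟩
  refine ⟨?_, ?_, ?_⟩
  · intro U hU
    rcases (hmem U).1 hU with rfl | ⟨p, hp, rfl⟩ | ⟨p, hp, q, hq, hqp, rfl⟩
    · simp
    · simp [hp]
    · refine ⟨?_, ?_, by simp⟩
      · intro r hr
        simp only [List.mem_cons, List.not_mem_nil, or_false] at hr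
        rcases hr with rfl | rfl
        · exact hp
        · exact hq
      · simp only [List.nodup_cons, List.mem_cons, List.not_mem_nil, or_false, not_false_eq_true,
          List.nodup_nil, and_true]
        exact fun hc => hqp hc.symm
  · exact (hmem []).2 (Or.inl rfl)
  · intro U hU hc
    rcases Nat.lt_or_ge U.card 1 with h | h
    · have h0 : U = ∅ := Finset.card_eq_zero.1 (by omega)
      exact ⟨[], (hmem _).2 (Or.inl rfl), by rw [h0]; rfl⟩
    · rcases Nat.lt_or_ge U.card 2 with h' | h'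
      · obtain ⟨p, rfl⟩ := Finset.card_eq_one.1 (show U.card = 1 by omega)
        refine ⟨[p], (hmem _).2 (Or.inr (Or.inl ⟨p, ?_, rfl⟩)), by simp⟩
        exact List.mem_toFinset.1 (hU (Finset.mem_singleton_self p))
      · obtain ⟨p, q, hpq, rfl⟩ := Finset.card_eq_two.1 (show U.card = 2 by omega)
        refine ⟨[p, q], (hmem _).2 (Or.inr (Or.inr ⟨p, ?_, q, ?_, Ne.symm hpq, rfl⟩)), by simp⟩
        · exact List.mem_toFinset.1 (hU (by simp))
        · exact List.mem_toFinset.1 (hU (by simp))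

theorem mem_descs {s : St} {ps : List (ℕ × ℕ)} {a : Desc} :
    a ∈ descs s ps ↔ ∃ p ∈ s.2.2.1, ∃ U ∈ smallU ps,
      (∀ q ∈ U, val s.2.1 s.1.1 (fv s.2.1 s.1.1 p.1 p.2) q.1 ≠ 0) ∧
      a = (p, (fv s.2.1 s.1.1 p.1 p.2, U)) := by
  unfold descs
  simp only [List.mem_flatMap, List.mem_map, List.mem_filter, List.all_eq_true,
    Bool.not_eq_eq_eq_not, Bool.not_true, decide_eq_false_iff_not]
  constructor
  · rintro ⟨p, hp, U, ⟨hU, hU2⟩, rfl⟩
    exact ⟨p, hp, U, hU, hU2, rfl⟩
  · rintro ⟨p, hp, U, hU, hU2, rfl⟩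
    exact ⟨p, hp, U, ⟨hU, hU2⟩, rfl⟩

theorem hyp_toFinset (ps : List (ℕ × ℕ)) (T : List ℕ) (z : ℕ) (U : List (ℕ × ℕ)) :
    (hyp ps T z U).toFinset = hypF ps.toFinset T.toFinset z U.toFinset := by
  ext x
  unfold hyp hypF
  simp only [List.mem_toFinset, List.mem_append, List.mem_filter, List.mem_map, Finset.mem_union,
    Finset.mem_erase, Finset.mem_image, Bool.not_eq_eq_eq_not, Bool.not_true,
    decide_eq_false_iff_not, ne_eq]
  rw [and_comm]

theorem descSet_toFinset (ps : List (ℕ × ℕ)) (y : ℕ) (q : Desc) :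
    (descSet ps y q).toFinset =
      insert y (hypF ps.toFinset q.1.1.toFinset q.1.2 q.2.2.toFinset) := by
  unfold descSet
  rw [List.toFinset_append, hyp_toFinset]
  ext x
  simp only [Finset.mem_union, Finset.mem_insert, List.mem_toFinset, List.mem_cons,
    List.not_mem_nil, or_false]
  exact or_comm

end Pool.Agent.G4
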