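import Pool.Agent.G4.Conn2
import Pool.Agent.G4.Dual

set_option autoImplicit false

/-!
# Module S7a: the matroid `U_{2,4}`

Rows `b₀`, `b₁`, columns `n₀`, `n₁`, entries `1, 1, 1, ω`. The four columns
`(1,0), (0,1), (1,1), (1,ω)` are pairwise not proportional, so every set of two elements is a basis
(`u24_base`); the cocircuit vectors are (up to a scalar) the four row vectors `f` which vanish at one
element: `(0,1), (1,0), (1,1), (ω,1)` (on `(b₀, b₁)`). A Hermitian form on two coordinates vanishing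
at them is zero.
`u24_c3`: a set `X` with `2 ≤ X.card`, `2 ≤ ((B ∪ N) \ X).card` has two elements; all entries and the
determinant of `D` are nonzero, check the cases.
`u24_eqv`: `C3` gives: all entries of `D'` nonzero (if `D' b n = 0` then `{b', n}` or so is a
2-separation / use `C3.indep2`), determinant nonzero; scale to `1, 1, 1, x` with `x ≠ 0, 1`, so
`x = ω` or `x = conj ω`.
`c3_four`: if `B.card ≤ 1` then `Sep2` holds for every `X` with two elements (one row: the nonzero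
block has rank at most one), similarly for `N`.
-/

namespace Pool.Agent.G4

open F4 Finset

/-- all marked pairs -/
def allM (S : Finset ℕ) : Set (Finset ℕ × ℕ) := {p | p.1 ⊆ S ∧ p.1.card = 2 ∧ p.2 ∈ p.1}

/-- all doubly marked pairs -/
def allP (S : Finset ℕ) : Set (Finset ℕ × (ℕ × ℕ)) :=
  {p | p.1 ⊆ S ∧ p.1.card = 2 ∧ p.2.1 ∈ p.1 ∧ p.2.2 ∈ S \ p.1}

variable {D : ℕ → ℕ → F4} {b₀ b₁ n₀ n₁ : ℕ}

private theorem mem4 {e : ℕ} (h : e ∈ ({b₀, b₁} ∪ {n₀, n₁} : Finset ℕ)) :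
    e = b₀ ∨ e = b₁ ∨ e = n₀ ∨ e = n₁ := by
  rw [Finset.mem_union, Finset.mem_insert, Finset.mem_singleton, Finset.mem_insert,
    Finset.mem_singleton] at h
  tauto

private theorem nd (h : [b₀, b₁, n₀, n₁].Nodup) :
    b₀ ≠ b₁ ∧ b₀ ≠ n₀ ∧ b₀ ≠ n₁ ∧ b₁ ≠ n₀ ∧ b₁ ≠ n₁ ∧ n₀ ≠ n₁ := by
  simp only [List.nodup_cons, List.mem_cons, List.not_mem_nil, or_false, not_or, not_false_eq_true,
    List.nodup_nil, and_true] at h
  tauto

private theorem ev_b0 (f : ℕ → F4) : ev D {b₀, b₁} f b₀ = f b₀ := ev_mem D _ f (by simp)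

private theorem ev_b1 (f : ℕ → F4) : ev D {b₀, b₁} f b₁ = f b₁ := ev_mem D _ f (by simp)

private theorem ev_n0 (h : [b₀, b₁, n₀, n₁].Nodup) (h00 : D b₀ n₀ = 1) (h10 : D b₁ n₀ = 1)
    (f : ℕ → F4) : ev D {b₀, b₁} f n₀ = f b₀ + f b₁ := by
  obtain ⟨h1, h2, h3, h4, h5, h6⟩ := nd h
  rw [ev_not_mem D _ f (by simp [h2.symm, h4.symm]), Finset.sum_pair h1, h00, h10, mul_one, mul_one]

private theorem ev_n1 (h : [b₀, b₁, n₀, n₁].Nodup) (h01 : D b₀ n₁ = 1) (h11 : D b₁ n₁ = om)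
    (f : ℕ → F4) : ev D {b₀, b₁} f n₁ = f b₀ + f b₁ * om := by
  obtain ⟨h1, h2, h3, h4, h5, h6⟩ := nd h
  rw [ev_not_mem D _ f (by simp [h3.symm, h5.symm]), Finset.sum_pair h1, h01, h11, mul_one]

private theorem lin_facts : ∀ p q : F4,
    (p = 0 → p + q = 0 → p = 0 ∧ q = 0) ∧ (p = 0 → p + q * om = 0 → p = 0 ∧ q = 0) ∧
    (q = 0 → p + q = 0 → p = 0 ∧ q = 0) ∧ (q = 0 → p + q * om = 0 → p = 0 ∧ q = 0) ∧
    (p + q = 0 → p + q * om = 0 → p = 0 ∧ q = 0) := by decide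

theorem u24_base (h : [b₀, b₁, n₀, n₁].Nodup)
    (h00 : D b₀ n₀ = 1) (h01 : D b₀ n₁ = 1) (h10 : D b₁ n₀ = 1) (h11 : D b₁ n₁ = om)
    {T : Finset ℕ} (hT : T ⊆ {b₀, b₁} ∪ {n₀, n₁}) (h2 : T.card = 2) :
    IsBase D {b₀, b₁} {n₀, n₁} T := by
  obtain ⟨d1, d2, d3, d4, d5, d6⟩ := nd h
  refine ⟨hT, by rw [h2, Finset.card_pair d1], fun f hf => ?_⟩
  have key : f b₀ = 0 ∧ f b₁ = 0 := by
    obtain ⟨x, y, hxy, rfl⟩ := Finset.card_eq_two.1 h2
    have hx := hf x (by simp)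
    have hy := hf y (by simp)
    have hx' : x = b₀ ∨ x = b₁ ∨ x = n₀ ∨ x = n₁ := mem4 (hT (by simp))
    have hy' : y = b₀ ∨ y = b₁ ∨ y = n₀ ∨ y = n₁ := mem4 (hT (by simp))
    obtain ⟨l1, l2, l3, l4, l5⟩ := lin_facts (f b₀) (f b₁)
    rcases hx' with rfl | rfl | rfl | rfl <;> rcases hy' with rfl | rfl | rfl | rfl <;>
      first
      | exact absurd rfl hxy
      | (simp only [ev_b0, ev_b1, ev_n0 h h00 h10, ev_n1 h h01 h11] at hx hy
         first
         | exact ⟨hx, hy⟩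
         | exact ⟨hy, hx⟩
         | exact l1 hx hy
         | exact l1 hy hx
         | exact l2 hx hy
         | exact l2 hy hx
         | exact l3 hx hy
         | exact l3 hy hx
         | exact l4 hx hy
         | exact l4 hy hx
         | exact l5 hx hy
         | exact l5 hy hx)
  intro b hb
  rcases Finset.mem_insert.1 hb with rfl | hb
  · exact key.1
  · rw [Finset.mem_singleton.1 hb]
    exact key.2

private theorem card4 (h : [b₀, b₁, n₀, n₁].Nodup) :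
    (({b₀, b₁} ∪ {n₀, n₁} : Finset ℕ)).card = 4 := by
  obtain ⟨d1, d2, d3, d4, d5, d6⟩ := nd h
  rw [Finset.card_union_of_disjoint, Finset.card_pair d1, Finset.card_pair d6]
  simp [d2.symm, d3.symm, d4.symm, d5.symm]

/-- the 2-separations of a 2 x 2 matrix: two elements -/
private theorem two_two (h : [b₀, b₁, n₀, n₁].Nodup) {X : Finset ℕ}
    (hX : X ⊆ {b₀, b₁} ∪ {n₀, n₁}) (h1 : ¬ X.card ≤ 1)
    (h2 : ¬ ((({b₀, b₁} ∪ {n₀, n₁} : Finset ℕ)) \ X).card ≤ 1) :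
    X = {b₀, b₁} ∨ X = {n₀, n₁} ∨ X = {b₀, n₀} ∨ X = {b₁, n₁} ∨ X = {b₀, n₁} ∨ X = {b₁, n₀} := by
  have h3 : X.card = 2 := by
    have h4 := Finset.card_sdiff_add_card_eq_card hX
    rw [card4 h] at h4
    omega
  obtain ⟨x, y, hxy, rfl⟩ := Finset.card_eq_two.1 h3
  have hx' : x = b₀ ∨ x = b₁ ∨ x = n₀ ∨ x = n₁ := mem4 (hX (by simp))
  have hy' : y = b₀ ∨ y = b₁ ∨ y = n₀ ∨ y = n₁ := mem4 (hX (by simp))
  rcases hx' with rfl | rfl | rfl | rfl <;> rcases hy' with rfl | rfl | rfl | rfl <;>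
    first
    | exact absurd rfl hxy
    | simp only [true_or, or_true, Finset.pair_comm]
    | (rw [Finset.pair_comm]; simp only [true_or, or_true])

theorem u24_c3 (h : [b₀, b₁, n₀, n₁].Nodup)
    (h00 : D b₀ n₀ = 1) (h01 : D b₀ n₁ = 1) (h10 : D b₁ n₀ = 1) (h11 : D b₁ n₁ = om) :
    C3 D {b₀, b₁} {n₀, n₁} := by
  obtain ⟨d1, d2, d3, d4, d5, d6⟩ := nd h
  refine ⟨(card4 h).ge, fun X hX hs => ?_, fun X hX hs => ?_⟩
  · have k00 := (hs b₀ (by simp) n₀ (by simp)).resolve_right (by rw [h00]; exact one_ne_zero)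
    have k01 := (hs b₀ (by simp) n₁ (by simp)).resolve_right (by rw [h01]; exact one_ne_zero)
    have k10 := (hs b₁ (by simp) n₀ (by simp)).resolve_right (by rw [h10]; exact one_ne_zero)
    by_cases h0 : b₀ ∈ X
    · right
      refine Finset.Subset.antisymm hX fun e he => ?_
      have he' : e = b₀ ∨ e = b₁ ∨ e = n₀ ∨ e = n₁ := mem4 he
      rcases he' with rfl | rfl | rfl | rfl
      · exact h0
      · exact k10.2 (k00.1 h0)
      · exact k00.1 h0
      · exact k01.1 h0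
    · left
      refine Finset.eq_empty_of_forall_notMem fun e he => ?_
      have he' : e = b₀ ∨ e = b₁ ∨ e = n₀ ∨ e = n₁ := mem4 (hX he)
      rcases he' with rfl | rfl | rfl | rfl
      · exact h0 he
      · exact h0 (k00.2 (k10.1 he))
      · exact h0 (k00.2 he)
      · exact h0 (k01.2 he)
  · by_contra hc
    rw [not_or] at hc
    obtain ⟨u, w, hu⟩ := hs
    have e00 := hu b₀ (by simp) n₀ (by simp)
    have e01 := hu b₀ (by simp) n₁ (by simp)
    have e10 := hu b₁ (by simp) n₀ (by simp)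
    have e11 := hu b₁ (by simp) n₁ (by simp)
    rw [h00] at e00
    rw [h01] at e01
    rw [h10] at e10
    rw [h11] at e11
    have key : (u b₀ * w n₀) * (u b₁ * w n₁) = (u b₀ * w n₁) * (u b₁ * w n₀) := by ring
    rw [← e00, ← e01, ← e10, ← e11] at key
    rcases two_two h hX hc.1 hc.2 with rfl | rfl | rfl | rfl | rfl | rfl <;>
      simp [d1, d2, d3, d4, d5, d6, d1.symm, d2.symm, d3.symm, d4.symm, d5.symm, d6.symm] at key <;>
      revert key <;> decide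

private theorem mk_isF (h : [b₀, b₁, n₀, n₁].Nodup)
    (h00 : D b₀ n₀ = 1) (h01 : D b₀ n₁ = 1) (h10 : D b₁ n₀ = 1) (h11 : D b₁ n₁ = om)
    {x z : ℕ} (hx : x ∈ ({b₀, b₁} ∪ {n₀, n₁} : Finset ℕ)) (hz : z ∈ ({b₀, b₁} ∪ {n₀, n₁} : Finset ℕ))
    (hxz : x ≠ z) {f : ℕ → F4} (h0 : ev D {b₀, b₁} f x = 0) (h1 : ev D {b₀, b₁} f z = 1) :
    IsF D {b₀, b₁} {n₀, n₁} {x, z} z f ∧
      (({x, z}, z) : Finset ℕ × ℕ) ∈ allM ({b₀, b₁} ∪ {n₀, n₁}) := by
  have hs : ({x, z} : Finset ℕ) ⊆ {b₀, b₁} ∪ {n₀, n₁} := by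
    intro e he
    rcases Finset.mem_insert.1 he with rfl | he
    · exact hx
    · rw [Finset.mem_singleton.1 he]; exact hz
  refine ⟨⟨u24_base h h00 h01 h10 h11 hs (Finset.card_pair hxz), by simp, ?_⟩, hs,
    Finset.card_pair hxz, by simp⟩
  intro t ht
  rcases Finset.mem_insert.1 ht with rfl | ht
  · rw [h0, if_neg hxz]
  · rw [Finset.mem_singleton.1 ht, h1, if_pos rfl]

theorem u24_spanH (h : [b₀, b₁, n₀, n₁].Nodup)
    (h00 : D b₀ n₀ = 1) (h01 : D b₀ n₁ = 1) (h10 : D b₁ n₀ = 1) (h11 : D b₁ n₁ = om) :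
    SpanH D {b₀, b₁} {n₀, n₁} (allM ({b₀, b₁} ∪ {n₀, n₁})) := by
  obtain ⟨d1, d2, d3, d4, d5, d6⟩ := nd h
  refine ⟨fun p hp => ⟨u24_base h h00 h01 h10 h11 hp.1 hp.2.1, hp.2.2⟩, fun W hW hL => ?_⟩
  have m0 : b₀ ∈ ({b₀, b₁} ∪ {n₀, n₁} : Finset ℕ) := by simp
  have m1 : b₁ ∈ ({b₀, b₁} ∪ {n₀, n₁} : Finset ℕ) := by simp
  have m2 : n₀ ∈ ({b₀, b₁} ∪ {n₀, n₁} : Finset ℕ) := by simp
  have m3 : n₁ ∈ ({b₀, b₁} ∪ {n₀, n₁} : Finset ℕ) := by simp
  -- the values of the form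
  have hq : ∀ f : ℕ → F4, qf {b₀, b₁} W f = f b₀ * W b₀ b₀ * conj (f b₀) +
      f b₀ * W b₀ b₁ * conj (f b₁) + (f b₁ * W b₁ b₀ * conj (f b₀) +
      f b₁ * W b₁ b₁ * conj (f b₁)) := by
    intro f
    unfold qf
    rw [Finset.sum_pair d1, Finset.sum_pair d1, Finset.sum_pair d1]
  have key : ∀ (p q : F4) (x z : ℕ), x ∈ ({b₀, b₁} ∪ {n₀, n₁} : Finset ℕ) →
      z ∈ ({b₀, b₁} ∪ {n₀, n₁} : Finset ℕ) → x ≠ z →
      ev D {b₀, b₁} (fun b => if b = b₀ then p else q) x = 0 →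
      ev D {b₀, b₁} (fun b => if b = b₀ then p else q) z = 1 →
      p * W b₀ b₀ * conj p + p * W b₀ b₁ * conj q + (q * W b₁ b₀ * conj p +
        q * W b₁ b₁ * conj q) = 0 := by
    intro p q x z hx hz hxz h0 h1
    obtain ⟨k1, k2⟩ := mk_isF h h00 h01 h10 h11 hx hz hxz h0 h1
    have k3 := hL _ k2 _ k1
    rw [hq] at k3
    simpa [d1.symm] using k3
  have w11 := key 0 1 b₀ b₁ m0 m1 d1 (by rw [ev_b0]; simp) (by rw [ev_b1]; simp [d1.symm])
  have w00 := key 1 0 b₁ b₀ m1 m0 d1.symm (by rw [ev_b1]; simp [d1.symm]) (by rw [ev_b0]; simp)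
  have wa := key 1 1 n₀ b₀ m2 m0 d2.symm (by rw [ev_n0 h h00 h10]; simp) (by rw [ev_b0]; simp)
  have wb := key om 1 n₁ b₁ m3 m1 d5.symm (by rw [ev_n1 h h01 h11]; simp [d1.symm])
    (by rw [ev_b1]; simp [d1.symm])
  have hh : W b₁ b₀ = conj (W b₀ b₁) := hW b₀ b₁
  have v00 : W b₀ b₀ = 0 := by simpa using w00
  have v11 : W b₁ b₁ = 0 := by simpa using w11
  rw [v00, v11, hh] at wa wb
  have fin : ∀ t : F4, 1 * 0 * conj 1 + 1 * t * conj 1 + (1 * conj t * conj 1 + 1 * 0 * conj 1) = 0 →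
      om * 0 * conj om + om * t * conj 1 + (1 * conj t * conj om + 1 * 0 * conj 1) = 0 →
      t = 0 := by decide
  have v01 := fin _ wa wb
  have v10 : W b₁ b₀ = 0 := by rw [hh, v01]; decide
  intro i hi j hj
  have hi' : i = b₀ ∨ i = b₁ := by simpa using hi
  have hj' : j = b₀ ∨ j = b₁ := by simpa using hj
  rcases hi' with rfl | rfl <;> rcases hj' with rfl | rfl
  · exact v00
  · exact v01
  · exact v10
  · exact v11

private theorem rank1 (a b c d : F4) (h : a * d = b * c) :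
    ∃ u0 u1 w0 w1 : F4, a = u0 * w0 ∧ b = u0 * w1 ∧ c = u1 * w0 ∧ d = u1 * w1 := by
  by_cases ha : a = 0
  · subst ha
    rw [zero_mul] at h
    rcases mul_eq_zero.1 h.symm with hb | hc
    · exact ⟨0, 1, c, d, by simp, by simp [hb], by simp, by simp⟩
    · exact ⟨b, d, 0, 1, by simp, by simp, by simp [hc], by simp⟩
  · refine ⟨1, c * a⁻¹, a, b, by simp, by simp, ?_, ?_⟩
    · rw [mul_assoc, inv_mul_cancel₀ ha, mul_one]
    · have : d = (a * d) * a⁻¹ := by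
        rw [mul_comm a d, mul_assoc, mul_inv_cancel₀ ha, mul_one]
      rw [this, h]
      ring

private theorem sep2_of {D' : ℕ → ℕ → F4} (h : [b₀, b₁, n₀, n₁].Nodup) {X : Finset ℕ}
    (m : ℕ → ℕ → F4) (hm : ∀ b n, m b n = if (b ∈ X ↔ n ∈ X) then 0 else D' b n)
    (hd : m b₀ n₀ * m b₁ n₁ = m b₀ n₁ * m b₁ n₀) : Sep2 D' {b₀, b₁} {n₀, n₁} X := by
  obtain ⟨d1, d2, d3, d4, d5, d6⟩ := nd h
  obtain ⟨u0, u1, w0, w1, e0, e1, e2, e3⟩ := rank1 _ _ _ _ hd
  refine ⟨fun e => if e = b₀ then u0 else u1, fun e => if e = n₀ then w0 else w1, ?_⟩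
  intro b hb n hn
  have hb' : b = b₀ ∨ b = b₁ := by simpa using hb
  have hn' : n = n₀ ∨ n = n₁ := by simpa using hn
  rw [← hm]
  rcases hb' with rfl | rfl <;> rcases hn' with rfl | rfl
  · simp [e0]
  · simp [e1, d6.symm]
  · simp [e2, d1.symm]
  · simp [e3, d1.symm, d6.symm]

/-- every 3-connected matroid on four elements is equivalent to this one -/
theorem u24_eqv {D' : ℕ → ℕ → F4} (h : [b₀, b₁, n₀, n₁].Nodup)
    (h00 : D b₀ n₀ = 1) (h01 : D b₀ n₁ = 1) (h10 : D b₁ n₀ = 1) (h11 : D b₁ n₁ = om)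
    (h3 : C3 D' {b₀, b₁} {n₀, n₁}) : Eqv D' D {b₀, b₁} {n₀, n₁} := by
  obtain ⟨d1, d2, d3, d4, d5, d6⟩ := nd h
  have no : ∀ x y : ℕ, x ∈ ({b₀, b₁} ∪ {n₀, n₁} : Finset ℕ) → y ∈ ({b₀, b₁} ∪ {n₀, n₁} : Finset ℕ) →
      x ≠ y → ¬ Sep2 D' {b₀, b₁} {n₀, n₁} {x, y} := by
    intro x y hx hy hxy hs
    have hX : ({x, y} : Finset ℕ) ⊆ {b₀, b₁} ∪ {n₀, n₁} := by
      intro e he
      rcases Finset.mem_insert.1 he with rfl | he
      · exact hx
      · rw [Finset.mem_singleton.1 he]; exact hy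
    have h4 := Finset.card_sdiff_add_card_eq_card hX
    rw [card4 h, Finset.card_pair hxy] at h4
    rcases h3.2.2 _ hX hs with h5 | h5
    · rw [Finset.card_pair hxy] at h5
      omega
    · omega
  have n1 := no b₀ b₁ (by simp) (by simp) d1
  have n2 := no b₀ n₀ (by simp) (by simp) d2
  have n3 := no b₀ n₁ (by simp) (by simp) d3
  have hdet : D' b₀ n₀ * D' b₁ n₁ ≠ D' b₀ n₁ * D' b₁ n₀ := by
    intro hd
    refine n1 (sep2_of h _ (fun _ _ => rfl) ?_)
    simpa [d1, d2, d3, d4, d5, d6, d1.symm, d2.symm, d3.symm, d4.symm, d5.symm, d6.symm] using hd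
  have hbc : D' b₀ n₁ * D' b₁ n₀ ≠ 0 := by
    intro hd
    refine n2 (sep2_of h _ (fun _ _ => rfl) ?_)
    simpa [d1, d2, d3, d4, d5, d6, d1.symm, d2.symm, d3.symm, d4.symm, d5.symm, d6.symm,
      eq_comm (a := (0 : F4))] using hd
  have had : D' b₀ n₀ * D' b₁ n₁ ≠ 0 := by
    intro hd
    refine n3 (sep2_of h _ (fun _ _ => rfl) ?_)
    simpa [d1, d2, d3, d4, d5, d6, d1.symm, d2.symm, d3.symm, d4.symm, d5.symm, d6.symm] using hd
  obtain ⟨hb, hc⟩ := mul_ne_zero_iff.1 hbc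
  obtain ⟨ha, hd⟩ := mul_ne_zero_iff.1 had
  have fin : ∀ a b c d : F4, a ≠ 0 → b ≠ 0 → c ≠ 0 → d ≠ 0 → a * d ≠ b * c →
      a * conj c * d * conj b = om ∨ conj (a * conj c * d * conj b) = om := by decide
  have nz : ∀ a : F4, a ≠ 0 → conj a ≠ 0 := fun a ha h0 => ha ((conj_eq_zero a).1 h0)
  rcases fin _ _ _ _ ha hb hc hd hdet with hx | hx
  · refine ⟨fun e => if e = b₁ then D' b₀ n₀ * conj (D' b₁ n₀) else 1,
      fun e => if e = n₀ then conj (D' b₀ n₀) else conj (D' b₀ n₁), fun e => ⟨?_, ?_⟩,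
      Or.inl fun b hb' n hn' => ?_⟩
    · beta_reduce
      split_ifs
      · exact mul_ne_zero ha (nz _ hc)
      · exact one_ne_zero
    · beta_reduce
      split_ifs
      · exact nz _ ha
      · exact nz _ hb
    · have hb1 : b = b₀ ∨ b = b₁ := by simpa using hb'
      have hn1 : n = n₀ ∨ n = n₁ := by simpa using hn'
      rcases hb1 with rfl | rfl <;> rcases hn1 with rfl | rfl
      · rw [h00]
        simp [d1, mul_conj_self _ ha]
      · rw [h01]
        simp [d1, d6.symm, mul_conj_self _ hb]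
      · rw [h10]
        have e1 := mul_conj_self _ ha
        have e2 := mul_conj_self _ hc
        simp only [if_true]
        linear_combination (-(D' b n * conj (D' b n))) * e1 - e2
      · rw [h11, ← hx]
        simp only [if_true, if_neg d6.symm]
  · refine ⟨fun e => if e = b₁ then conj (D' b₀ n₀) * D' b₁ n₀ else 1,
      fun e => if e = n₀ then D' b₀ n₀ else D' b₀ n₁, fun e => ⟨?_, ?_⟩,
      Or.inr fun b hb' n hn' => ?_⟩
    · beta_reduce
      split_ifs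
      · exact mul_ne_zero (nz _ ha) hc
      · exact one_ne_zero
    · beta_reduce
      split_ifs
      · exact ha
      · exact hb
    · have hb1 : b = b₀ ∨ b = b₁ := by simpa using hb'
      have hn1 : n = n₀ ∨ n = n₁ := by simpa using hn'
      rcases hb1 with rfl | rfl <;> rcases hn1 with rfl | rfl
      · rw [h00]
        simp [d1, mul_comm (conj _), mul_conj_self _ ha]
      · rw [h01]
        simp [d1, d6.symm, mul_comm (conj _), mul_conj_self _ hb]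
      · rw [h10]
        have e1 := mul_conj_self _ ha
        have e2 := mul_conj_self _ hc
        simp only [if_true]
        linear_combination (-(D' b n * conj (D' b n))) * e1 - e2
      · rw [h11, ← hx]
        simp only [if_true, if_neg d6.symm]
        simp only [conj_mul, conj_conj]

private theorem c3_row {D' : ℕ → ℕ → F4} {B N : Finset ℕ} (h3 : C3 D' B N)
    (h4 : (B ∪ N).card = 4) : 2 ≤ B.card := by
  by_contra hB
  have hB1 : B.card ≤ 1 := by omega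
  obtain ⟨X, hX, hX2⟩ := Finset.exists_subset_card_eq (s := B ∪ N) (n := 2) (by omega)
  have hs : Sep2 D' B N X := by
    rcases B.eq_empty_or_nonempty with rfl | ⟨b, hb⟩
    · exact ⟨fun _ => 0, fun _ => 0, fun b hb => absurd hb (Finset.notMem_empty b)⟩
    · refine ⟨fun _ => 1, fun n => if (b ∈ X ↔ n ∈ X) then 0 else D' b n, fun b' hb' n _ => ?_⟩
      have : b' = b := Finset.card_le_one.1 hB1 b' hb' b hb
      rw [this, one_mul]
  have h5 := Finset.card_sdiff_add_card_eq_card hX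
  rcases h3.2.2 X hX hs with h6 | h6 <;> omega

/-- a 3-connected matroid on four elements has two rows and two columns -/
theorem c3_four {D' : ℕ → ℕ → F4} {B N : Finset ℕ} (hd : Disjoint B N) (h3 : C3 D' B N)
    (h4 : (B ∪ N).card = 4) : B.card = 2 ∧ N.card = 2 := by
  have h1 := c3_row h3 h4
  have h2 := c3_row h3.trD (by rw [Finset.union_comm]; exact h4)
  rw [Finset.card_union_of_disjoint hd] at h4
  omega

end Pool.Agent.G4
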