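import Pool.Agent.G4.U2
import Pool.Agent.G4.Lift2
import Pool.Agent.G4.Eqv

set_option autoImplicit false

/-!
# Module U3: the meaning of the answers

`B = s.1.1.toFinset`, `N = s.1.2.toFinset`, `P = ps.toFinset`.
* `ans_val`: `a ∈ ans` comes from a descriptor `(p, (fv .., U))` (`mem_descs`), `p ∈ s.2.2.1`; by `spL`
`IsBase (ent s.2.1) B N p.1.toFinset`, `p.2 ∈ p.1`, so there is `f` with `IsF (ent s.2.1) ..`
(`exists_isF`) and `fv .. = s.1.1.map f` (`fv_eq`); `val .. q.1 = ev .. f q.1` (`val_eq`). `D₁` and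
`ent s.2.1` have the same entries on `B x N`, so `ev D₁ B g e = ev (ent s.2.1) B g e` for `e ∈ B ∪ N` and
`IsF` is the same (`isF_congr`). The answer: `descSet_toFinset` and `hyp_base` with `e = y`
(`y ∉ hypF`, `y ∈ nN`).
* `ans_exists`: `smallU_spec`, `mem_descs`.
* `StepCtx.scale`: for `D'` with `D' = D₁` on the columns `N` and the column `y` multiplied by `κ ≠ 0`:
all fields of `Stp` and `old` concern the columns `N`; `C3` and `IsBase` are invariant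
(`Eqv D₁ D'` with `ρ = 1`, `κ y = κ`; `Eqv.c3`, `Eqv.eqM`).
-/

namespace Pool.Agent.G4

open N487b59b3 F4 Finset

private theorem ev_congr_D {D D' : ℕ → ℕ → F4} {B N : Finset ℕ}
    (h : ∀ b ∈ B, ∀ n ∈ N, D b n = D' b n) (f : ℕ → F4) {e : ℕ} (he : e ∈ B ∪ N) :
    ev D B f e = ev D' B f e := by
  unfold ev
  refine Finset.sum_congr rfl fun b hb => ?_
  unfold col
  by_cases heB : e ∈ B
  · rw [if_pos heB, if_pos heB]
  · rw [if_neg heB, if_neg heB, h b hb e ((mem_union.1 he).resolve_left heB)]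

theorem isF_congr {D D' : ℕ → ℕ → F4} {B N T : Finset ℕ} {z : ℕ} {f : ℕ → F4}
    (hd : Disjoint B N) (h : ∀ b ∈ B, ∀ n ∈ N, D b n = D' b n) (hf : IsF D B N T z f) :
    IsF D' B N T z f := by
  obtain ⟨⟨h1, h2, h3⟩, h4, h5⟩ := hf
  refine ⟨⟨h1, h2, fun g hg => h3 g fun t ht => ?_⟩, h4, fun t ht => ?_⟩
  · rw [ev_congr_D h g (h1 ht)]
    exact hg t ht
  · rw [← ev_congr_D h f (h1 ht)]
    exact h5 t ht

variable {s : St} {ps : List (ℕ × ℕ)} {y : ℕ} {D₁ : ℕ → ℕ → F4} {ans : List (Desc × Bool)}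

private theorem old' (h : StepCtx s ps y D₁ ans) :
    ∀ b ∈ s.1.1.toFinset, ∀ n ∈ s.1.2.toFinset, D₁ b n = ent s.2.1 b n :=
  fun b hb n hn => h.old b (List.mem_toFinset.1 hb) n (List.mem_toFinset.1 hn)

private theorem old'' (h : StepCtx s ps y D₁ ans) :
    ∀ b ∈ s.1.1.toFinset, ∀ n ∈ s.1.2.toFinset, ent s.2.1 b n = D₁ b n :=
  fun b hb n hn => (old' h b hb n hn).symm

/-- the meaning of one question -/
private theorem desc_val (h : StepCtx s ps y D₁ ans) {q : List ℕ × ℕ} {U : List (ℕ × ℕ)}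
    {f : ℕ → F4} (hf : IsF D₁ s.1.1.toFinset s.1.2.toFinset q.1.toFinset q.2 f)
    (hU : ∀ p ∈ U, p ∈ ps) (hne : ∀ p ∈ U, ev D₁ s.1.1.toFinset f p.1 ≠ 0) (g : List F4) :
    IsBase D₁ (nB s.1.1.toFinset ps.toFinset) (nN s.1.2.toFinset y)
      (descSet ps y (q, (g, U))).toFinset ↔
      ev D₁ (nB s.1.1.toFinset ps.toFinset)
        (lfU D₁ s.1.1.toFinset ps.toFinset U.toFinset f) y ≠ 0 := by
  rw [descSet_toFinset]
  have hU' : U.toFinset ⊆ ps.toFinset := by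
    intro p hp
    exact List.mem_toFinset.2 (hU p (List.mem_toFinset.1 hp))
  have hne' : ∀ p ∈ U.toFinset, ev D₁ s.1.1.toFinset f p.1 ≠ 0 :=
    fun p hp => hne p (List.mem_toFinset.1 hp)
  have hy : y ∈ (nB s.1.1.toFinset ps.toFinset ∪ nN s.1.2.toFinset y) \
      hypF ps.toFinset q.1.toFinset q.2 U.toFinset := by
    rw [mem_sdiff]
    refine ⟨mem_union_right _ (mem_insert_self _ _), fun hy => ?_⟩
    unfold hypF at hy
    rcases mem_union.1 hy with hy | hy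
    · exact h.st.ynew (hf.1.1 (mem_of_mem_erase hy))
    · obtain ⟨p, hp, hpy⟩ := mem_image.1 hy
      split_ifs at hpy with hpU
      · exact h.st.ynew (hpy ▸ h.st.mem p hp)
      · exact h.st.yne p hp hpy.symm
  exact (hyp_base h.st hf hU' hne' y hy).1

theorem ans_val (h : StepCtx s ps y D₁ ans) {a : Desc × Bool} (ha : a ∈ ans) :
    a.1.1 ∈ s.2.2.1 ∧ a.1.2.2 ∈ smallU ps ∧
    ∃ f : ℕ → F4, IsF D₁ s.1.1.toFinset s.1.2.toFinset a.1.1.1.toFinset a.1.1.2 f ∧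
      a.1.2.1 = s.1.1.map f ∧ (∀ q ∈ a.1.2.2, ev D₁ s.1.1.toFinset f q.1 ≠ 0) ∧
      (a.2 = true ↔ ev D₁ (nB s.1.1.toFinset ps.toFinset)
        (lfU D₁ s.1.1.toFinset ps.toFinset a.1.2.2.toFinset f) y ≠ 0) := by
  obtain ⟨F, hF1, hF2⟩ := h.ans
  rw [hF1] at ha
  obtain ⟨d, hd, rfl⟩ := List.mem_map.1 ha
  have hd' := hF2 d hd
  obtain ⟨p, hp, U, hU, hval, rfl⟩ := mem_descs.1 hd
  refine ⟨hp, hU, ?_⟩
  obtain ⟨hb, hz⟩ := h.good.spL.1 (p.1.toFinset, p.2) ⟨p, hp, rfl⟩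
  obtain ⟨f, hf⟩ := exists_isF hb hz
  have hfv : fv s.2.1 s.1.1 p.1 p.2 = s.1.1.map f := fv_eq h.good.ndB s.2.1 hf
  have hf1 : IsF D₁ s.1.1.toFinset s.1.2.toFinset p.1.toFinset p.2 f :=
    isF_congr h.good.dj (old'' h) hf
  have hUps := (smallU_spec.1 U hU).1
  have hne : ∀ q ∈ U, ev D₁ s.1.1.toFinset f q.1 ≠ 0 := by
    intro q hq
    have h1 := hval q hq
    rw [hfv, val_eq h.good.ndB] at h1
    rwa [ev_congr_D (old' h) f (h.st.mem q (List.mem_toFinset.2 (hUps q hq)))]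
  refine ⟨f, hf1, hfv, hne, ?_⟩
  exact hd'.trans (desc_val h hf1 hUps hne _)

theorem ans_exists (h : StepCtx s ps y D₁ ans) {q : List ℕ × ℕ} (hq : q ∈ s.2.2.1) {f : ℕ → F4}
    (hf : IsF D₁ s.1.1.toFinset s.1.2.toFinset q.1.toFinset q.2 f) {U : Finset (ℕ × ℕ)}
    (hU : U ⊆ ps.toFinset) (h2 : U.card ≤ 2) (hne : ∀ p ∈ U, ev D₁ s.1.1.toFinset f p.1 ≠ 0) :
    ∃ a ∈ ans, a.1.1 = q ∧ a.1.2.1 = s.1.1.map f ∧ a.1.2.2.toFinset = U ∧
      (a.2 = true ↔ ev D₁ (nB s.1.1.toFinset ps.toFinset)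
        (lfU D₁ s.1.1.toFinset ps.toFinset U f) y ≠ 0) := by
  obtain ⟨F, hF1, hF2⟩ := h.ans
  obtain ⟨U', hU', rfl⟩ := smallU_spec.2.2 U hU h2
  have hf1 : IsF (ent s.2.1) s.1.1.toFinset s.1.2.toFinset q.1.toFinset q.2 f :=
    isF_congr h.good.dj (old' h) hf
  have hfv : fv s.2.1 s.1.1 q.1 q.2 = s.1.1.map f := fv_eq h.good.ndB s.2.1 hf1
  have hUps := (smallU_spec.1 U' hU').1
  have hne' : ∀ p ∈ U', ev D₁ s.1.1.toFinset f p.1 ≠ 0 :=
    fun p hp => hne p (List.mem_toFinset.2 hp)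
  have hd : (q, (fv s.2.1 s.1.1 q.1 q.2, U')) ∈ descs s ps := by
    rw [mem_descs]
    refine ⟨q, hq, U', hU', fun p hp => ?_, rfl⟩
    rw [hfv, val_eq h.good.ndB,
      ← ev_congr_D (old' h) f (h.st.mem p (List.mem_toFinset.2 (hUps p hp)))]
    exact hne' p hp
  refine ⟨((q, (fv s.2.1 s.1.1 q.1 q.2, U')), F (q, (fv s.2.1 s.1.1 q.1 q.2, U'))), ?_, rfl,
    hfv, rfl, ?_⟩
  · rw [hF1]
    exact List.mem_map.2 ⟨_, hd, rfl⟩
  · exact (hF2 _ hd).trans (desc_val h hf hUps hne' _)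

theorem StepCtx.scale (h : StepCtx s ps y D₁ ans) {κ : F4} (hκ : κ ≠ 0) {D' : ℕ → ℕ → F4}
    (hD : ∀ b ∈ nB s.1.1.toFinset ps.toFinset, ∀ n ∈ nN s.1.2.toFinset y,
      D' b n = if n = y then κ * D₁ b y else D₁ b n) : StepCtx s ps y D' ans := by
  have hyN : ∀ n ∈ s.1.2.toFinset, n ≠ y := fun n hn hny =>
    h.st.ynew (mem_union_right _ (hny ▸ hn))
  have hN : ∀ b ∈ nB s.1.1.toFinset ps.toFinset, ∀ n ∈ s.1.2.toFinset, D' b n = D₁ b n := by
    intro b hb n hn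
    rw [hD b hb n (mem_insert_of_mem hn), if_neg (hyN n hn)]
  have hBs : ∀ b ∈ s.1.1.toFinset, b ∈ nB s.1.1.toFinset ps.toFinset :=
    fun b hb => mem_union_left _ hb
  have hpB : ∀ p ∈ ps.toFinset, p.2 ∈ nB s.1.1.toFinset ps.toFinset :=
    fun p hp => mem_union_right _ (mem_image_of_mem (fun p : ℕ × ℕ => p.2) hp)
  have hE : Eqv D₁ D' (nB s.1.1.toFinset ps.toFinset) (nN s.1.2.toFinset y) := by
    refine ⟨fun _ => 1, fun e => if e = y then κ else 1, fun e => ⟨one_ne_zero, ?_⟩,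
      Or.inl fun b hb n hn => ?_⟩
    · dsimp only
      split_ifs
      · exact hκ
      · exact one_ne_zero
    · rw [hD b hb n hn]
      dsimp only
      split_ifs with hny
      · rw [hny, one_mul, mul_comm]
      · rw [one_mul, mul_one]
  have hdj : Disjoint (nB s.1.1.toFinset ps.toFinset) (nN s.1.2.toFinset y) := by
    rw [Finset.disjoint_left]
    intro e he he'
    rcases mem_union.1 he with he | he
    · rcases mem_insert.1 he' with he' | he'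
      · exact h.st.ynew (mem_union_left _ (he' ▸ he))
      · exact (Finset.disjoint_left.1 h.st.disj) he he'
    · obtain ⟨p, hp, rfl⟩ := mem_image.1 he
      rcases mem_insert.1 he' with he' | he'
      · exact h.st.yne p hp he'.symm
      · exact h.st.new p hp (mem_union_right _ he')
  refine ⟨h.good, h.nd, ?_, ?_, ?_, ?_⟩
  · refine ⟨h.st.disj, h.st.mem, h.st.new, h.st.inj1, h.st.inj2, h.st.ynew, h.st.yne, ?_⟩
    intro p hp n hn
    rw [hN p.2 (hpB p hp) n hn, h.st.row p hp n hn]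
    split_ifs with h1 h2
    · rw [hN p.1 (hBs _ h1) n hn]
    · rfl
    · rfl
  · intro b hb n hn
    rw [hN b (hBs b (List.mem_toFinset.2 hb)) n (List.mem_toFinset.2 hn)]
    exact h.old b hb n hn
  · exact (hE.c3).1 h.c3
  · obtain ⟨F, hF1, hF2⟩ := h.ans
    refine ⟨F, hF1, fun q hq => (hF2 q hq).trans (hE.eqM hdj _)⟩

end Pool.Agent.G4
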