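import Pool.Agent.G4.U3
import Pool.Agent.G4.Learn2
import Pool.Agent.G4.Eqv

set_option autoImplicit false

/-!
# Module U4: the chosen column is correct up to a scalar

Notation: `B`, `N`, `P` finsets as in U3, `L = s.2.2.1`.
* `candVal_eq`: `dot_map_map`, `val_eq`, the fold is the sum over `U` (no repetitions, `smallU_spec`),
`ev (ent s.2.1) B f p.1 = ev D₁ B f p.1` (`p.1 ∈ B ∪ N`).
* `column_spec`. PROOF. 1. `P = ∅` or not. Let `p₁ = ps.headD (0, 0)`; if `ps ≠ []` let
`κ = (sco D₁ B y p₁)⁻¹` (`sco_ne`), otherwise `κ = 1`. By `StepCtx.scale` we may assume `κ = 1`, i.e.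
`sco D₁ B y p₁ = 1` if `ps ≠ []` (the statement is invariant under scaling of the column `y`).
2. `vecV_spec` with `w b = D₁ b y`: `h1` from `ans_val` (`U = []`: `lfU .. ∅ f`, `ev_lfU_y`:
`ev D₁ (nB) (lfU ∅ f) y = ev D₁ B f y = ∑ f b * D₁ b y`), `h2` from `span_all` for `mkL L` and
`ans_exists`. So `vecV B ans = B.map (c * w)`, and for the element `c' = c⁻¹` of `nz` the candidate has
the vector `v* = B.map w`.
3. For this candidate `coordS` at `p ≠ p₁` is `sco D₁ B y p`: the filtered list contains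
`t = sco D₁ B y p` (nonzero, so in `nz`; all answers with `U ⊆ {p₁, p}` are right because the
candidate value `kval` equals `ev (lfU U f) y`, `ev_lfU_y`), and by `learn2` every `t` in the filtered
list is equal to it (`hypotheses` of `learn2`: `ans_exists` gives the answers; `good` says
`candVal ≠ 0 ↔ a.2 = true`); `coordS` at `p₁` is `1`. So this candidate is `(v*, sco)` and it is good for
all answers.
4. So the filtered list of candidates is not empty; let `(v, l)` be its head, `v = B.map v'`. `learn`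
(with `s = look l`; the values `look l p.2` are nonzero: `1`, or an element of `nz`, or the default
`1`; `look` finds the entry because the `p.2` are different) gives `κ`.
-/

namespace Pool.Agent.G4

open N487b59b3 F4 Finset

variable {s : St} {ps : List (ℕ × ℕ)} {y : ℕ} {D₁ : ℕ → ℕ → F4} {ans : List (Desc × Bool)}

private theorem ev_old (h : StepCtx s ps y D₁ ans) (f : ℕ → F4) {e : ℕ}
    (he : e ∈ s.1.1.toFinset ∪ s.1.2.toFinset) :
    ev (ent s.2.1) s.1.1.toFinset f e = ev D₁ s.1.1.toFinset f e := by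
  unfold ev
  refine Finset.sum_congr rfl fun b hb => ?_
  congr 1
  unfold col
  by_cases h1 : e ∈ s.1.1.toFinset
  · rw [if_pos h1, if_pos h1]
  · rw [if_neg h1, if_neg h1]
    rw [Finset.mem_union] at he
    exact (h.old b (List.mem_toFinset.1 hb) e (List.mem_toFinset.1 (he.resolve_left h1))).symm

theorem candVal_eq (h : StepCtx s ps y D₁ ans) {a : Desc} {f : ℕ → F4}
    (hf : a.2.1 = s.1.1.map f) (hU : a.2.2 ∈ smallU ps) (v : ℕ → F4) (l : List (ℕ × F4)) :
    candVal s.2.1 s.1.1 (s.1.1.map v) l a =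
      kval D₁ s.1.1.toFinset v (look l) f a.2.2.toFinset := by
  obtain ⟨hU1, hU2, -⟩ := (smallU_spec (ps := ps)).1 a.2.2 hU
  unfold candVal kval
  rw [hf, dot_map_map s.1.1 h.good.ndB]
  congr 1
  have h1 : ∀ L : List F4, L.foldl (fun x y => x + y) 0 = L.sum := by
    intro L
    rw [List.sum_eq_foldl]
  rw [h1, ← List.sum_toFinset _ hU2]
  refine Finset.sum_congr rfl fun p hp => ?_
  rw [val_eq h.good.ndB, ev_old h]
  exact h.st.mem p (List.mem_toFinset.2 (hU1 p (List.mem_toFinset.1 hp)))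

theorem look_map {ps : List (ℕ × ℕ)} (hps : (ps.map fun p => p.2).Nodup) (g : ℕ × ℕ → F4)
    {p : ℕ × ℕ} (hp : p ∈ ps) : look (ps.map fun p => (p.2, g p)) p.2 = g p := by
  induction ps with
  | nil => cases hp
  | cons q ps ih =>
    unfold look at *
    rw [List.map_cons, List.filter_cons]
    rw [List.map_cons, List.nodup_cons] at hps
    by_cases h : q.2 = p.2
    · have hqp : q = p := by
        rcases List.mem_cons.1 hp with h1 | h1
        · exact h1.symm
        · exact absurd (List.mem_map.2 ⟨p, h1, h.symm⟩) hps.1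
      simp [hqp]
    · rcases List.mem_cons.1 hp with rfl | h1
      · exact absurd rfl h
      · simp only [h, decide_false]
        exact ih hps.2 h1

private theorem good_iff (h : StepCtx s ps y D₁ ans) {a : Desc × Bool} {f : ℕ → F4}
    (hf : a.1.2.1 = s.1.1.map f) (hU : a.1.2.2 ∈ smallU ps)
    (hiff : a.2 = true ↔ ev D₁ (nB s.1.1.toFinset ps.toFinset)
        (lfU D₁ s.1.1.toFinset ps.toFinset a.1.2.2.toFinset f) y ≠ 0)
    (v : ℕ → F4) (l : List (ℕ × F4)) :
    good s.2.1 s.1.1 (s.1.1.map v) l a = true ↔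
      (kval D₁ s.1.1.toFinset v (look l) f a.1.2.2.toFinset = 0 ↔
        ev D₁ (nB s.1.1.toFinset ps.toFinset)
          (lfU D₁ s.1.1.toFinset ps.toFinset a.1.2.2.toFinset f) y = 0) := by
  unfold good
  rw [candVal_eq h hf hU]
  by_cases h1 : kval D₁ s.1.1.toFinset v (look l) f a.1.2.2.toFinset = 0
  · by_cases h2 : ev D₁ (nB s.1.1.toFinset ps.toFinset)
        (lfU D₁ s.1.1.toFinset ps.toFinset a.1.2.2.toFinset f) y = 0
    · have h3 : a.2 = false := by
        rw [← Bool.not_eq_true, hiff]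
        exact fun h4 => h4 h2
      simp [h1, h2, h3]
    · have h3 : a.2 = true := hiff.2 h2
      simp [h1, h2, h3]
  · by_cases h2 : ev D₁ (nB s.1.1.toFinset ps.toFinset)
        (lfU D₁ s.1.1.toFinset ps.toFinset a.1.2.2.toFinset f) y = 0
    · have h3 : a.2 = false := by
        rw [← Bool.not_eq_true, hiff]
        exact fun h4 => h4 h2
      simp [h1, h2, h3]
    · have h3 : a.2 = true := hiff.2 h2
      simp [h1, h2, h3]

private theorem y_notB (h : StepCtx s ps y D₁ ans) : y ∉ s.1.1.toFinset := fun hy =>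
  h.st.ynew (Finset.mem_union_left _ hy)

private theorem spanD (h : StepCtx s ps y D₁ ans) :
    SpanH D₁ s.1.1.toFinset s.1.2.toFinset (mkL s.2.2.1) := by
  have h1 := h.good.spL
  rw [spanH_congr (D := D₁) (fun b hb n hn => (h.old b (List.mem_toFinset.1 hb) n
    (List.mem_toFinset.1 hn)).symm) h.good.dj]
  exact h1

private theorem c3D (h : StepCtx s ps y D₁ ans) : C3 D₁ s.1.1.toFinset s.1.2.toFinset := by
  have h1 := h.good.c3
  have h2 : Eqv D₁ (ent s.2.1) s.1.1.toFinset s.1.2.toFinset :=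
    Eqv.of_eq fun b hb n hn => (h.old b (List.mem_toFinset.1 hb) n (List.mem_toFinset.1 hn)).symm
  exact h2.c3.2 h1

private theorem vec_eq (h : StepCtx s ps y D₁ ans) :
    ∃ c : F4, c ≠ 0 ∧ vecV s.1.1 ans = s.1.1.map fun b => c * D₁ b y := by
  have h0 : ∀ f : ℕ → F4, ev D₁ (nB s.1.1.toFinset ps.toFinset)
      (lfU D₁ s.1.1.toFinset ps.toFinset ∅ f) y = ∑ b ∈ s.1.1.toFinset, f b * D₁ b y := by
    intro f
    rw [ev_lfU_y h.st (Finset.empty_subset _), Finset.sum_empty, add_zero,
      ev_not_mem D₁ _ f (y_notB h)]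
  refine vecV_spec h.good.ndB (fun b => D₁ b y) ?_ ?_
  · intro a ha hae
    obtain ⟨-, -, f, -, hf, -, hiff⟩ := ans_val h ha
    refine ⟨f, hf, ?_⟩
    rw [hiff, hae, List.toFinset_nil, h0]
  · intro W hW
    have key := span_all h.good.spL W ?_
    · intro i hi j hj
      exact key i (List.mem_toFinset.2 hi) j (List.mem_toFinset.2 hj)
    · rintro p ⟨q, hq, rfl⟩ f hf
      have hf' : IsF D₁ s.1.1.toFinset s.1.2.toFinset q.1.toFinset q.2 f :=
        isF_congr h.good.dj (fun b hb n hn => (h.old b (List.mem_toFinset.1 hb) n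
          (List.mem_toFinset.1 hn)).symm) hf
      obtain ⟨a, ha, -, haf, haU, -⟩ := ans_exists h hq hf' (Finset.empty_subset _)
        (by simp) (by simp)
      exact hW a ha (List.toFinset_eq_empty_iff _ |>.1 haU) f haf

private theorem look_two {a b : ℕ} (hab : b ≠ a) (x t : F4) :
    look [(a, x), (b, t)] a = x ∧ look [(a, x), (b, t)] b = t := by
  unfold look
  constructor
  · simp
  · simp [hab.symm]

private theorem head_cons {ps : List (ℕ × ℕ)} {p : ℕ × ℕ} (hp : p ∈ ps) :
    ps.headD (0, 0) ∈ ps.head? ∧ ps.headD (0, 0) ∈ ps := by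
  cases ps with
  | nil => cases hp
  | cons q ps => simp

private theorem mem_nz {t : F4} : t ∈ nz ↔ t ≠ 0 := by
  revert t
  decide

private theorem nodup2 (h : StepCtx s ps y D₁ ans) : (ps.map fun p => p.2).Nodup :=
  List.Nodup.map_on (fun p hp q hq hpq => h.st.inj2 p (List.mem_toFinset.2 hp) q
    (List.mem_toFinset.2 hq) hpq) h.nd

private theorem kval_congr {D : ℕ → ℕ → F4} {B : Finset ℕ} {v v' s s' f : ℕ → F4}
    {U : Finset (ℕ × ℕ)} (hv : ∀ b ∈ B, v b = v' b) (hs : ∀ p ∈ U, s p.2 = s' p.2) :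
    kval D B v s f U = kval D B v' s' f U := by
  unfold kval
  congr 1
  · exact Finset.sum_congr rfl fun b hb => by rw [hv b hb]
  · exact Finset.sum_congr rfl fun b hb => by rw [hs b hb]

private theorem kval_true (h : StepCtx s ps y D₁ ans) {f : ℕ → F4} {U : Finset (ℕ × ℕ)}
    (hU : U ⊆ ps.toFinset) {l : ℕ → F4} (hl : ∀ p ∈ U, l p.2 = sco D₁ s.1.1.toFinset y p) :
    kval D₁ s.1.1.toFinset (fun b => D₁ b y) l f U = ev D₁ (nB s.1.1.toFinset ps.toFinset)
        (lfU D₁ s.1.1.toFinset ps.toFinset U f) y := by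
  rw [ev_lfU_y h.st hU, ev_not_mem D₁ _ f (y_notB h)]
  unfold kval
  congr 1
  exact Finset.sum_congr rfl fun b hb => by rw [hl b hb]

private theorem coordS_eq (h : StepCtx s ps y D₁ ans)
    (h1 : ∀ p₁ ∈ ps.head?, sco D₁ s.1.1.toFinset y p₁ = 1) {p : ℕ × ℕ} (hp : p ∈ ps) :
    coordS s.2.1 s.1.1 (s.1.1.map fun b => D₁ b y) ans (ps.headD (0, 0)) p =
      sco D₁ s.1.1.toFinset y p := by
  obtain ⟨hp1, hp1'⟩ := head_cons hp
  generalize ps.headD (0, 0) = p₁ at hp1 hp1'
  have h11 := h1 p₁ hp1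
  unfold coordS
  by_cases hpp : p = p₁
  · rw [if_pos hpp, hpp, h11]
  rw [if_neg hpp]
  have hpP := List.mem_toFinset.2 hp
  have hp1P := List.mem_toFinset.2 hp1'
  have h21 : p.2 ≠ p₁.2 := fun e => hpp (h.st.inj2 p hpP p₁ hp1P e)
  have hsne : sco D₁ s.1.1.toFinset y p ≠ 0 := sco_ne h.st (c3D h) h.c3 hpP
  -- every element of the filtered list is equal to the true value
  have hall : ∀ t ∈ nz.filter fun t => (ans.filter fun a => a.1.2.2.all fun q =>
      decide (q = p₁) || decide (q = p)).all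
      fun a => good s.2.1 s.1.1 (s.1.1.map fun b => D₁ b y) [(p₁.2, 1), (p.2, t)] a,
      t = sco D₁ s.1.1.toFinset y p := by
    intro t ht
    rw [List.mem_filter] at ht
    obtain ⟨ht1, ht2⟩ := ht
    rw [List.all_eq_true] at ht2
    refine learn2 h.st (c3D h) (spanD h) hp1P hpP hpp h11 hsne t (mem_nz.1 ht1) ?_
    rintro _ ⟨q, hq, rfl⟩ f hf U hU hne
    have hUps : U ⊆ ps.toFinset := by
      intro r hr
      have h3 := hU hr
      rw [Finset.mem_insert, Finset.mem_singleton] at h3
      rcases h3 with rfl | rfl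
      · exact hp1P
      · exact hpP
    have hUc : U.card ≤ 2 := (Finset.card_le_card hU).trans Finset.card_le_two
    obtain ⟨a, ha, haq, haf, haU, hiff⟩ := ans_exists h hq hf hUps hUc hne
    have hg := ht2 a (by
      rw [List.mem_filter]
      refine ⟨ha, ?_⟩
      rw [List.all_eq_true]
      intro r hr
      have h3 := hU (haU ▸ List.mem_toFinset.2 hr)
      rw [Finset.mem_insert, Finset.mem_singleton] at h3
      simpa using h3)
    have haS := (ans_val h ha).2.1
    rw [good_iff h haf haS (by rw [haU]; exact hiff), haU] at hg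
    rw [← hg]
    have h4 : kval D₁ s.1.1.toFinset (fun b => D₁ b y) (fun b => if b = p₁.2 then 1 else t) f U =
        kval D₁ s.1.1.toFinset (fun b => D₁ b y) (look [(p₁.2, 1), (p.2, t)]) f U := by
      refine kval_congr (fun _ _ => rfl) fun r hr => ?_
      have h3 := hU hr
      rw [Finset.mem_insert, Finset.mem_singleton] at h3
      rcases h3 with rfl | rfl
      · rw [if_pos rfl, (look_two h21 1 t).1]
      · rw [if_neg h21, (look_two h21 1 t).2]
    rw [h4]
  have hmem : sco D₁ s.1.1.toFinset y p ∈ nz.filter fun t => (ans.filter fun a =>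
      a.1.2.2.all fun q => decide (q = p₁) || decide (q = p)).all
      fun a => good s.2.1 s.1.1 (s.1.1.map fun b => D₁ b y) [(p₁.2, 1), (p.2, t)] a := by
    rw [List.mem_filter]
    refine ⟨mem_nz.2 hsne, ?_⟩
    rw [List.all_eq_true]
    intro a ha
    rw [List.mem_filter, List.all_eq_true] at ha
    obtain ⟨ha, hall'⟩ := ha
    obtain ⟨-, haS, f, -, haf, -, hiff⟩ := ans_val h ha
    rw [good_iff h haf haS hiff]
    rw [kval_true h]
    · intro r hr
      have h3 := hall' r (List.mem_toFinset.1 hr)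
      simp only [Bool.or_eq_true, decide_eq_true_eq] at h3
      rcases h3 with rfl | rfl
      · exact hp1P
      · exact hpP
    · intro r hr
      have h3 := hall' r (List.mem_toFinset.1 hr)
      simp only [Bool.or_eq_true, decide_eq_true_eq] at h3
      rcases h3 with rfl | rfl
      · rw [(look_two h21 1 _).1, h11]
      · rw [(look_two h21 1 _).2]
  revert hall hmem
  generalize (nz.filter fun t => (ans.filter fun a =>
      a.1.2.2.all fun q => decide (q = p₁) || decide (q = p)).all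
      fun a => good s.2.1 s.1.1 (s.1.1.map fun b => D₁ b y) [(p₁.2, 1), (p.2, t)] a) = F
  intro hall hmem
  cases F with
  | nil => cases hmem
  | cons t F => exact hall t (by simp)

/-- the true candidate, if the coordinate at the first pair is one -/
theorem true_cand (h : StepCtx s ps y D₁ ans)
    (h1 : ∀ p₁ ∈ ps.head?, sco D₁ s.1.1.toFinset y p₁ = 1) :
    ∃ c ∈ cands s.2.1 s.1.1 ps ans, ∀ a ∈ ans, good s.2.1 s.1.1 c.1 c.2 a = true := by
  obtain ⟨c, hc, hv⟩ := vec_eq h
  have hv' : (vecV s.1.1 ans).map (fun x => c⁻¹ * x) = s.1.1.map fun b => D₁ b y := by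
    rw [hv, List.map_map]
    refine List.map_congr_left fun b _ => ?_
    change c⁻¹ * (c * D₁ b y) = D₁ b y
    rw [← mul_assoc, inv_mul_cancel₀ hc, one_mul]
  refine ⟨_, List.mem_map.2 ⟨c⁻¹, mem_nz.2 (inv_ne_zero hc), rfl⟩, ?_⟩
  intro a ha
  dsimp only
  rw [hv']
  obtain ⟨-, haS, f, -, haf, -, hiff⟩ := ans_val h ha
  rw [good_iff h haf haS hiff, kval_true h]
  · intro r hr
    exact List.mem_toFinset.2 (((smallU_spec (ps := ps)).1 _ haS).1 r (List.mem_toFinset.1 hr))
  · intro r hr
    have hr' := ((smallU_spec (ps := ps)).1 _ haS).1 r (List.mem_toFinset.1 hr)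
    rw [look_map (nodup2 h) _ hr']
    exact coordS_eq h h1 hr'

private theorem coordS_ne (D : Mx) (B : List ℕ) (v : List F4) (ans : List (Desc × Bool))
    (p₁ p : ℕ × ℕ) : coordS D B v ans p₁ p ≠ 0 := by
  unfold coordS
  by_cases h : p = p₁
  · rw [if_pos h]
    exact one_ne_zero
  rw [if_neg h]
  have key : ∀ F : List F4, (∀ t ∈ F, t ≠ 0) → F.headD 1 ≠ 0 := by
    intro F hF
    cases F with
    | nil => exact one_ne_zero
    | cons t F => exact hF t (by simp)
  apply key
  intro t ht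
  exact mem_nz.1 (List.mem_filter.1 ht).1

private theorem column_spec0 (h : StepCtx s ps y D₁ ans)
    (h1 : ∀ p₁ ∈ ps.head?, sco D₁ s.1.1.toFinset y p₁ = 1) :
    ∃ κ : F4, κ ≠ 0 ∧
      (column s.2.1 s.1.1 ps ans).1 = s.1.1.map (fun b => κ * D₁ b y) ∧
      ∀ p ∈ ps, look (column s.2.1 s.1.1 ps ans).2 p.2 = κ * sco D₁ s.1.1.toFinset y p := by
  obtain ⟨c₀, hc₀, hg₀⟩ := true_cand h h1
  have hcol : column s.2.1 s.1.1 ps ans ∈ (cands s.2.1 s.1.1 ps ans).filter
      fun c => ans.all fun a => good s.2.1 s.1.1 c.1 c.2 a := by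
    unfold column
    have hmem : c₀ ∈ (cands s.2.1 s.1.1 ps ans).filter
        fun c => ans.all fun a => good s.2.1 s.1.1 c.1 c.2 a := by
      rw [List.mem_filter, List.all_eq_true]
      exact ⟨hc₀, hg₀⟩
    revert hmem
    generalize ((cands s.2.1 s.1.1 ps ans).filter
        fun c => ans.all fun a => good s.2.1 s.1.1 c.1 c.2 a) = F
    intro hmem
    cases F with
    | nil => cases hmem
    | cons t F => simp
  rw [List.mem_filter, List.all_eq_true] at hcol
  obtain ⟨hc, hg⟩ := hcol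
  obtain ⟨c, hc0, hv⟩ := vec_eq h
  obtain ⟨c', hc', hce⟩ := List.mem_map.1 hc
  have hv' : (vecV s.1.1 ans).map (fun x => c' * x) = s.1.1.map fun b => c' * (c * D₁ b y) := by
    rw [hv, List.map_map]
    rfl
  dsimp only at hce
  rw [hv'] at hce
  rw [← hce] at hg ⊢
  dsimp only at hg ⊢
  set l := ps.map fun p => (p.2, coordS s.2.1 s.1.1 (s.1.1.map fun b => c' * (c * D₁ b y)) ans
    (ps.headD (0, 0)) p) with hl
  obtain ⟨κ, hκ, hκ1, hκ2⟩ := learn h.st (c3D h) h.c3 (spanD h) (fun b => c' * (c * D₁ b y))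
    (look l) (fun p hp => by
      rw [hl, look_map (nodup2 h) _ (List.mem_toFinset.1 hp)]
      exact coordS_ne _ _ _ _ _ _) (by
      rintro _ ⟨q, hq, rfl⟩ f hf U hU hUc hne
      obtain ⟨a, ha, haq, haf, haU, hiff⟩ := ans_exists h hq hf hU hUc hne
      have hga := hg a ha
      rw [good_iff h haf (ans_val h ha).2.1 (by rw [haU]; exact hiff), haU] at hga
      exact hga)
  refine ⟨κ, hκ, ?_, ?_⟩
  · exact List.map_congr_left fun b hb => hκ1 b (List.mem_toFinset.2 hb)
  · intro p hp
    exact hκ2 p (List.mem_toFinset.2 hp)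

theorem column_spec (h : StepCtx s ps y D₁ ans) :
    ∃ κ : F4, κ ≠ 0 ∧
      (column s.2.1 s.1.1 ps ans).1 = s.1.1.map (fun b => κ * D₁ b y) ∧
      ∀ p ∈ ps, look (column s.2.1 s.1.1 ps ans).2 p.2 = κ * sco D₁ s.1.1.toFinset y p := by
  by_cases hps : ps = []
  · exact column_spec0 h (by rw [hps]; simp)
  obtain ⟨p₀, hp₀⟩ := List.exists_mem_of_ne_nil ps hps
  obtain ⟨hh, hm⟩ := head_cons hp₀
  have hne : sco D₁ s.1.1.toFinset y (ps.headD (0, 0)) ≠ 0 :=
    sco_ne h.st (c3D h) h.c3 (List.mem_toFinset.2 hm)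
  set k := (sco D₁ s.1.1.toFinset y (ps.headD (0, 0)))⁻¹ with hk
  have hk0 : k ≠ 0 := inv_ne_zero hne
  have h' := h.scale hk0 (D' := fun b n => if n = y then k * D₁ b y else D₁ b n)
    (fun _ _ _ _ => rfl)
  have hsco : ∀ p : ℕ × ℕ, sco (fun b n => if n = y then k * D₁ b y else D₁ b n)
      s.1.1.toFinset y p = k * sco D₁ s.1.1.toFinset y p := by
    intro p
    unfold sco
    simp only [if_true]
    split_ifs <;> ring
  obtain ⟨κ, hκ, hκ1, hκ2⟩ := column_spec0 h' (by
    intro p₁ hp₁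
    have : p₁ = ps.headD (0, 0) := by
      cases ps with
      | nil => exact absurd rfl hps
      | cons q ps =>
        simp only [List.head?_cons, Option.mem_def, Option.some.injEq] at hp₁
        rw [← hp₁]
        rfl
    rw [hsco, this, hk]
    exact inv_mul_cancel₀ hne)
  refine ⟨κ * k, mul_ne_zero hκ hk0, ?_, ?_⟩
  · rw [hκ1]
    refine List.map_congr_left fun b _ => ?_
    simp only [if_true]
    ring
  · intro p hp
    rw [hκ2 p hp, hsco]
    ring

end Pool.Agent.G4
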