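import Pool.Agent.G4.U3
import Pool.Agent.G4.Lift3

set_option autoImplicit false

/-!
# Module U6: the marked bases of the new matroid

`S = newS s ps y`; `nor S l` has the finset `l.toFinset` if `l ⊆ S` (as sets). `D'` is the new matrix.
* `newL1`: for `a ∈ ans` with marked basis `(T, z)`, vector `f`, set `U` (`ans_val`): let `z' = p.2` if
`z = p.1` for some `p ∈ U` (unique), otherwise `z' = z`. The value of `lfU U f` at `z'` is not zero: if
`z = p.1`, `p ∈ U`: `ev_lft_new`, `tU_mem`: `ev f p.1 = ev f z = 1`; otherwise `ev_lft_old`: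
`ev f z + ∑_{p.1 = z} t p.2 = 1` (`t p.2 = 0` for `p ∉ U`). So `insert z' (hypF ..)` is a basis
(`hyp_base`; `z' ∉ hypF` by `hyp_zero`).
* `newL2`: `T = B` if `p.1 ∉ B`; if `p.1 ∈ B`: `T = B - p.1 + n` with the first column `n` with
`ent s.2.1 p.1 n ≠ 0` (exists: otherwise `{p.1}` is a component, `C3`). It is a basis (`exchange` for
`T = B`, unit vector), so `T ∪ {q.2}` is a basis (`base_union`); `p.1` is not in it (`Stp.new`).
* `newL3`: `hyp_base` with `e = y`; `p ∉ U`, so `p.2 ∈ hypF`.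
-/

namespace Pool.Agent.G4

open N487b59b3 F4 Finset

variable {s : St} {ps : List (ℕ × ℕ)} {y : ℕ} {D' : ℕ → ℕ → F4} {ans : List (Desc × Bool)}

private theorem u6_newS (s : St) (ps : List (ℕ × ℕ)) (y : ℕ) : (newS s ps y).toFinset =
    nB s.1.1.toFinset ps.toFinset ∪ nN s.1.2.toFinset y := by
  ext e
  unfold newS nB nN
  simp only [List.mem_toFinset, List.mem_append, List.mem_map, List.mem_singleton, mem_union,
    mem_image, mem_insert]
  rw [or_comm (a := e = y)]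

theorem nor_newS {l : List ℕ} (h : l.toFinset ⊆
    nB s.1.1.toFinset ps.toFinset ∪ nN s.1.2.toFinset y) :
    (nor (newS s ps y) l).toFinset = l.toFinset := by
  ext e
  unfold nor
  rw [List.mem_toFinset, List.mem_filter, decide_eq_true_iff, List.mem_toFinset]
  constructor
  · exact fun h1 => h1.2
  · intro h1
    refine ⟨?_, h1⟩
    have h2 := h (List.mem_toFinset.2 h1)
    rw [← u6_newS] at h2
    exact List.mem_toFinset.1 h2

/-- the marked element of a descriptor -/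
private def u6z (U : List (ℕ × ℕ)) (z : ℕ) : ℕ :=
  ((U.filter fun p => decide (p.1 = z)).headD (0, z)).2

private theorem u6z_spec {D : ℕ → ℕ → F4} {B N T : Finset ℕ} {P : Finset (ℕ × ℕ)}
    (h : Stp D B N P y) {z : ℕ} {f : ℕ → F4} (hf : IsF D B N T z f) {U : List (ℕ × ℕ)}
    (hU : U.toFinset ⊆ P) :
    u6z U z ∈ nB B P ∪ N ∧ ev D (nB B P) (lfU D B P U.toFinset f) (u6z U z) ≠ 0 := by
  have h1 : ev D B f z = 1 := by rw [hf.2.2 z hf.2.1, if_pos rfl]
  unfold u6z
  rcases hl : U.filter (fun p => decide (p.1 = z)) with _ | ⟨p, l⟩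
  · rw [hl, List.headD_nil]
    have hz := hf.1.1 hf.2.1
    refine ⟨?_, ?_⟩
    · rcases mem_union.1 hz with h2 | h2
      · exact mem_union_left _ (mem_union_left _ h2)
      · exact mem_union_right _ h2
    · unfold lfU
      rw [ev_lft_old h f _ hz, h1, sum_eq_zero, add_zero]
      · exact one_ne_zero
      · intro p hp
        obtain ⟨hp, hpz⟩ := mem_filter.1 hp
        rw [tU_mem h hU f hp, if_neg]
        intro hpU
        have h2 : p ∈ U.filter (fun p => decide (p.1 = z)) :=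
          List.mem_filter.2 ⟨List.mem_toFinset.1 hpU, decide_eq_true hpz⟩
        rw [hl] at h2
        exact List.not_mem_nil h2
  · rw [hl, List.headD_cons]
    have h2 : p ∈ U.filter (fun p => decide (p.1 = z)) := by
      rw [hl]
      exact List.mem_cons_self
    obtain ⟨hpU, hpz⟩ := List.mem_filter.1 h2
    have hpz' : p.1 = z := of_decide_eq_true hpz
    have hpU' : p ∈ U.toFinset := List.mem_toFinset.2 hpU
    have hpP := hU hpU'
    refine ⟨mem_union_left _ (mem_union_right _ (mem_image_of_mem _ hpP)), ?_⟩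
    unfold lfU
    rw [ev_lft_new h f _ hpP, tU_mem h hU f hpP, if_pos hpU', hpz', h1]
    exact one_ne_zero

private theorem u6_sub {D : ℕ → ℕ → F4} {B N T : Finset ℕ} {P : Finset (ℕ × ℕ)}
    (h : Stp D B N P y) {z : ℕ} {f : ℕ → F4} (hf : IsF D B N T z f) {U : Finset (ℕ × ℕ)}
    (hU : U ⊆ P) (hne : ∀ p ∈ U, ev D B f p.1 ≠ 0) {e : ℕ} (he : e ∈ nB B P ∪ nN N y) :
    insert e (hypF P T z U) ⊆ nB B P ∪ nN N y := by
  intro x hx
  rcases mem_insert.1 hx with rfl | hx
  · exact he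
  · rcases mem_union.1 ((hyp_sub h hf hU hne).1 hx) with h3 | h3
    · exact mem_union_left _ h3
    · exact mem_union_right _ (mem_insert_of_mem h3)

private theorem u6_hypl {D : ℕ → ℕ → F4} {T : List ℕ} {z : ℕ} {f : ℕ → F4}
    (h : Stp D s.1.1.toFinset s.1.2.toFinset ps.toFinset y)
    (hf : IsF D s.1.1.toFinset s.1.2.toFinset T.toFinset z f) {U : List (ℕ × ℕ)}
    (hU : U.toFinset ⊆ ps.toFinset) (hne : ∀ p ∈ U, ev D s.1.1.toFinset f p.1 ≠ 0) {e : ℕ}
    (he : e ∈ nB s.1.1.toFinset ps.toFinset ∪ nN s.1.2.toFinset y) :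
    (nor (newS s ps y) (hyp ps T z U ++ [e])).toFinset =
      insert e (hypF ps.toFinset T.toFinset z U.toFinset) := by
  have h1 : (hyp ps T z U ++ [e]).toFinset =
      insert e (hypF ps.toFinset T.toFinset z U.toFinset) := by
    rw [List.toFinset_append, hyp_toFinset]
    ext x
    simp only [mem_union, mem_insert, List.mem_toFinset, List.mem_singleton]
    tauto
  rw [nor_newS, h1]
  rw [h1]
  exact u6_sub h hf hU (fun p hp => hne p (List.mem_toFinset.1 hp)) he

private theorem u6_notH {D : ℕ → ℕ → F4} {B N T : Finset ℕ} {P : Finset (ℕ × ℕ)}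
    (h : Stp D B N P y) {z : ℕ} {f : ℕ → F4} (hf : IsF D B N T z f) {U : Finset (ℕ × ℕ)}
    (hU : U ⊆ P) (hne : ∀ p ∈ U, ev D B f p.1 ≠ 0) : y ∉ hypF P T z U := by
  intro hy
  rcases mem_union.1 ((hyp_sub h hf hU hne).1 hy) with h1 | h1
  · rcases mem_union.1 h1 with h1 | h1
    · exact h.ynew (mem_union_left _ h1)
    · obtain ⟨p, hp, h2⟩ := mem_image.1 h1
      exact h.yne p hp h2.symm
  · exact h.ynew (mem_union_right _ h1)

private theorem u6_U {a : Desc × Bool} (h1 : a.1.2.2 ∈ smallU ps) :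
    a.1.2.2.toFinset ⊆ ps.toFinset := by
  intro q hq
  exact List.mem_toFinset.2 ((smallU_spec.1 _ h1).1 q (List.mem_toFinset.1 hq))

private theorem u6_L1 (h : StepCtx s ps y D' ans) {a : Desc × Bool} {f : ℕ → F4}
    (h1 : a.1.2.2 ∈ smallU ps)
    (hf : IsF D' s.1.1.toFinset s.1.2.toFinset a.1.1.1.toFinset a.1.1.2 f)
    (hne : ∀ q ∈ a.1.2.2, ev D' s.1.1.toFinset f q.1 ≠ 0) :
    (nor (newS s ps y) (hyp ps a.1.1.1 a.1.1.2 a.1.2.2 ++ [u6z a.1.2.2 a.1.1.2])).toFinset =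
      insert (u6z a.1.2.2 a.1.1.2)
        (hypF ps.toFinset a.1.1.1.toFinset a.1.1.2 a.1.2.2.toFinset) ∧
    IsBase D' (nB s.1.1.toFinset ps.toFinset) (nN s.1.2.toFinset y)
      (insert (u6z a.1.2.2 a.1.1.2)
        (hypF ps.toFinset a.1.1.1.toFinset a.1.1.2 a.1.2.2.toFinset)) := by
  have hU := u6_U h1
  obtain ⟨h2, h3⟩ := u6z_spec h.st hf hU
  have hne' : ∀ p ∈ a.1.2.2.toFinset, ev D' s.1.1.toFinset f p.1 ≠ 0 :=
    fun p hp => hne p (List.mem_toFinset.1 hp)
  have h4 : u6z a.1.2.2 a.1.1.2 ∈ nB s.1.1.toFinset ps.toFinset ∪ nN s.1.2.toFinset y := by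
    rcases mem_union.1 h2 with h2 | h2
    · exact mem_union_left _ h2
    · exact mem_union_right _ (mem_insert_of_mem h2)
  refine ⟨u6_hypl h.st hf hU hne h4, ?_⟩
  refine (hyp_base h.st hf hU hne' _ (mem_sdiff.2 ⟨h4, fun h5 => ?_⟩)).1.2 h3
  exact h3 (hyp_zero h.st hf hU hne' _ h5)

theorem newL1_valid (h : StepCtx s ps y D' ans) : ∀ p ∈ newL1 (newS s ps y) ps ans,
    IsBase D' (nB s.1.1.toFinset ps.toFinset) (nN s.1.2.toFinset y) p.1.toFinset ∧
      p.2 ∈ p.1.toFinset := by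
  intro p hp
  obtain ⟨a, ha, rfl⟩ := List.mem_map.1 hp
  obtain ⟨-, h1, f, hf, -, hne, -⟩ := ans_val h ha
  obtain ⟨h2, h3⟩ := u6_L1 h h1 hf hne
  change IsBase D' (nB s.1.1.toFinset ps.toFinset) (nN s.1.2.toFinset y)
    (nor (newS s ps y) (hyp ps a.1.1.1 a.1.1.2 a.1.2.2 ++ [u6z a.1.2.2 a.1.1.2])).toFinset ∧
    u6z a.1.2.2 a.1.1.2 ∈
      (nor (newS s ps y) (hyp ps a.1.1.1 a.1.1.2 a.1.2.2 ++ [u6z a.1.2.2 a.1.1.2])).toFinset
  rw [h2]
  exact ⟨h3, mem_insert_self _ _⟩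

theorem newL1_mem (h : StepCtx s ps y D' ans) {q : List ℕ × ℕ} (hq : q ∈ s.2.2.1) {f : ℕ → F4}
    (hf : IsF D' s.1.1.toFinset s.1.2.toFinset q.1.toFinset q.2 f) {U : Finset (ℕ × ℕ)}
    (hU : U ⊆ ps.toFinset) (h2 : U.card ≤ 2) (hne : ∀ p ∈ U, ev D' s.1.1.toFinset f p.1 ≠ 0) :
    ∃ z ∈ nB s.1.1.toFinset ps.toFinset ∪ s.1.2.toFinset,
      ev D' (nB s.1.1.toFinset ps.toFinset) (lfU D' s.1.1.toFinset ps.toFinset U f) z ≠ 0 ∧
      (insert z (hypF ps.toFinset q.1.toFinset q.2 U), z) ∈ mkL (newL1 (newS s ps y) ps ans) := by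
  obtain ⟨a, ha, rfl, -, rfl, -⟩ := ans_exists h hq hf hU h2 hne
  obtain ⟨-, h1, -⟩ := ans_val h ha
  obtain ⟨h3, h4⟩ := u6z_spec h.st hf hU
  refine ⟨u6z a.1.2.2 a.1.1.2, h3, h4, ?_⟩
  obtain ⟨h5, -⟩ := u6_L1 h h1 hf fun q hq => hne q (List.mem_toFinset.2 hq)
  refine ⟨_, List.mem_map.2 ⟨a, ha, rfl⟩, ?_⟩
  change _ = ((nor (newS s ps y)
    (hyp ps a.1.1.1 a.1.1.2 a.1.2.2 ++ [u6z a.1.2.2 a.1.1.2])).toFinset, u6z a.1.2.2 a.1.1.2)
  rw [h5]

/-- the basis of a pair -/
private def u6T (s : St) (x : ℕ) : List ℕ :=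
  if x ∈ s.1.1 then
      (s.1.1.filter fun b => !decide (b = x)) ++
        ((s.1.2.filter fun n => !decide (ent s.2.1 x n = 0)).take 1)
    else s.1.1

private theorem u6T_spec (h : StepCtx s ps y D' ans) {x : ℕ} :
    IsBase D' s.1.1.toFinset s.1.2.toFinset (u6T s x).toFinset ∧ x ∉ (u6T s x).toFinset := by
  unfold u6T
  split_ifs with hx
  · have hxB : x ∈ s.1.1.toFinset := List.mem_toFinset.2 hx
    rcases hl : s.1.2.filter (fun n => !decide (ent s.2.1 x n = 0)) with _ | ⟨n, l⟩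
    · exfalso
      have h0 : ∀ n ∈ s.1.2, ent s.2.1 x n = 0 := by
        intro n hn
        by_contra h1
        have h2 : n ∈ s.1.2.filter (fun n => !decide (ent s.2.1 x n = 0)) := by
          rw [List.mem_filter]
          refine ⟨hn, ?_⟩
          simp [h1]
        rw [hl] at h2
        exact List.not_mem_nil h2
      have h1 : Sep1 (ent s.2.1) s.1.1.toFinset s.1.2.toFinset {x} := by
        intro b hb n hn
        by_cases hbx : b = x
        · right
          rw [hbx]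
          exact h0 n (List.mem_toFinset.1 hn)
        · left
          have hnx : n ≠ x := fun h2 => (disjoint_left.1 h.good.dj hxB) (h2 ▸ hn)
          simp [hbx, hnx]
      rcases h.good.c3.2.1 {x} (singleton_subset_iff.2 (mem_union_left _ hxB)) h1 with h2 | h2
      · exact (singleton_ne_empty x) h2
      · have h3 := h.good.c3.1
        rw [← h2, card_singleton] at h3
        omega
    · have hn : n ∈ s.1.2.filter (fun n => !decide (ent s.2.1 x n = 0)) := by
        rw [hl]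
        exact List.mem_cons_self
      obtain ⟨hnN, hn0⟩ := List.mem_filter.1 hn
      have hn1 : ent s.2.1 x n ≠ 0 := by simpa using hn0
      have hnN' : n ∈ s.1.2.toFinset := List.mem_toFinset.2 hnN
      have hnB : n ∉ s.1.1.toFinset := fun h2 => (disjoint_left.1 h.good.dj h2) hnN'
      have hT : ((s.1.1.filter fun b => !decide (b = x)) ++ (n :: l).take 1).toFinset =
          insert n (s.1.1.toFinset.erase x) := by
        ext e
        simp only [List.mem_toFinset, List.mem_append, List.mem_filter, mem_insert, mem_erase,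
          List.take_succ_cons, List.take_zero, List.mem_singleton, Bool.not_eq_true',
          decide_eq_false_iff_not]
        tauto
      rw [hT]
      have hf : IsF D' s.1.1.toFinset s.1.2.toFinset s.1.1.toFinset x
          (fun b => if b = x then 1 else 0) := by
        refine ⟨isBase_self, hxB, fun t ht => ?_⟩
        rw [ev_mem D' _ _ ht]
      refine ⟨(exchange hf (mem_sdiff.2 ⟨mem_union_right _ hnN', hnB⟩)).2 ?_, ?_⟩
      · rw [ev_not_mem D' _ _ hnB]
        simp only [ite_mul, one_mul, zero_mul]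
        rw [sum_ite_eq' , if_pos hxB, h.old x hx n hnN]
        exact hn1
      · rw [mem_insert, not_or]
        exact ⟨fun h2 => hnB (h2 ▸ hxB), notMem_erase x _⟩
  · exact ⟨isBase_self, fun h1 => hx (List.mem_toFinset.1 h1)⟩

private theorem u6_L2 (h : StepCtx s ps y D' ans) (x : ℕ) :
    (nor (newS s ps y) (u6T s x ++ ps.map fun q => q.2)).toFinset =
      (u6T s x).toFinset ∪ ps.toFinset.image fun q => q.2 := by
  have h1 : (u6T s x ++ ps.map fun q => q.2).toFinset =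
      (u6T s x).toFinset ∪ ps.toFinset.image fun q => q.2 := by
    ext e
    simp only [List.mem_toFinset, List.mem_append, List.mem_map, mem_union, mem_image]
  rw [nor_newS, h1]
  rw [h1]
  exact (base_union h.st (u6T_spec h).1).1

theorem newL2_valid (h : StepCtx s ps y D' ans) : ∀ p ∈ newL2 (newS s ps y) s ps,
    IsBase D' (nB s.1.1.toFinset ps.toFinset) (nN s.1.2.toFinset y) p.1.toFinset ∧
      p.2 ∈ p.1.toFinset := by
  intro p hp
  obtain ⟨a, ha, rfl⟩ := List.mem_map.1 hp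
  change IsBase D' (nB s.1.1.toFinset ps.toFinset) (nN s.1.2.toFinset y)
    (nor (newS s ps y) (u6T s a.1 ++ ps.map fun q => q.2)).toFinset ∧
    a.2 ∈ (nor (newS s ps y) (u6T s a.1 ++ ps.map fun q => q.2)).toFinset
  rw [u6_L2 h a.1]
  exact ⟨base_union h.st (u6T_spec h).1,
    mem_union_right _ (mem_image_of_mem (fun q : ℕ × ℕ => q.2) (List.mem_toFinset.2 ha))⟩

theorem newL2_mem (h : StepCtx s ps y D' ans) {p : ℕ × ℕ} (hp : p ∈ ps) :
    ∃ T' ⊆ nB s.1.1.toFinset ps.toFinset ∪ s.1.2.toFinset, p.1 ∉ T' ∧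
      (T', p.2) ∈ mkL (newL2 (newS s ps y) s ps) := by
  have hpP : p ∈ ps.toFinset := List.mem_toFinset.2 hp
  obtain ⟨h1, h2⟩ := u6T_spec h (x := p.1)
  refine ⟨(u6T s p.1).toFinset ∪ ps.toFinset.image fun q => q.2, ?_, ?_, ?_⟩
  · intro e he
    rcases mem_union.1 he with he | he
    · rcases mem_union.1 (h1.1 he) with he | he
      · exact mem_union_left _ (mem_union_left _ he)
      · exact mem_union_right _ he
    · exact mem_union_left _ (mem_union_right _ he)
  · intro h3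
    rcases mem_union.1 h3 with h3 | h3
    · exact h2 h3
    · obtain ⟨q, hq, h4⟩ := mem_image.1 h3
      exact h.st.new q hq (h4 ▸ h.st.mem p hpP)
  · refine ⟨_, List.mem_map.2 ⟨p, hp, rfl⟩, ?_⟩
    change _ = ((nor (newS s ps y) (u6T s p.1 ++ ps.map fun q => q.2)).toFinset, p.2)
    rw [u6_L2 h p.1]

private theorem u6_y : y ∈ nB s.1.1.toFinset ps.toFinset ∪ nN s.1.2.toFinset y :=
  mem_union_right _ (mem_insert_self _ _)

theorem newL3_valid (h : StepCtx s ps y D' ans) : ∀ p ∈ newL3 (newS s ps y) ps y ans,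
    IsBase D' (nB s.1.1.toFinset ps.toFinset) (nN s.1.2.toFinset y) p.1.toFinset ∧
      p.2 ∈ p.1.toFinset := by
  intro p hp
  obtain ⟨a, ha, hp⟩ := List.mem_flatMap.1 hp
  by_cases hb : a.2 = true
  · rw [if_pos hb] at hp
    obtain ⟨r, hr, rfl⟩ := List.mem_map.1 hp
    obtain ⟨hr, hrU⟩ := List.mem_filter.1 hr
    have hrU' : r ∉ a.1.2.2 := by simpa using hrU
    obtain ⟨-, h1, f, hf, -, hne, hy⟩ := ans_val h ha
    have hU := u6_U h1
    have hne' : ∀ p ∈ a.1.2.2.toFinset, ev D' s.1.1.toFinset f p.1 ≠ 0 :=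
      fun p hp => hne p (List.mem_toFinset.1 hp)
    have h2 := u6_hypl h.st hf hU hne (u6_y (s := s) (ps := ps))
    rw [h2]
    refine ⟨?_, ?_⟩
    · exact (hyp_base h.st hf hU hne' _ (mem_sdiff.2 ⟨u6_y, u6_notH h.st hf hU hne'⟩)).1.2
        (hy.1 hb)
    · refine mem_insert_of_mem (mem_union_right _ (mem_image.2
        ⟨r, List.mem_toFinset.2 hr, ?_⟩))
      rw [if_neg fun h3 => hrU' (List.mem_toFinset.1 h3)]
  · rw [if_neg hb] at hp
    exact absurd hp List.not_mem_nil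

theorem newL3_mem (h : StepCtx s ps y D' ans) {q : List ℕ × ℕ} (hq : q ∈ s.2.2.1) {f : ℕ → F4}
    (hf : IsF D' s.1.1.toFinset s.1.2.toFinset q.1.toFinset q.2 f) {p : ℕ × ℕ} (hp : p ∈ ps)
    {U : Finset (ℕ × ℕ)} (hU : U ⊆ ps.toFinset.erase p) (h2 : U.card ≤ 1)
    (hne : ∀ p ∈ U, ev D' s.1.1.toFinset f p.1 ≠ 0)
    (hy : ev D' (nB s.1.1.toFinset ps.toFinset) (lfU D' s.1.1.toFinset ps.toFinset U f) y ≠ 0) :
    (insert y (hypF ps.toFinset q.1.toFinset q.2 U), p.2) ∈
      mkL (newL3 (newS s ps y) ps y ans) := by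
  have hU' : U ⊆ ps.toFinset := hU.trans (erase_subset _ _)
  obtain ⟨a, ha, rfl, -, rfl, hb⟩ := ans_exists h hq hf hU' (by omega) hne
  obtain ⟨-, h1, -⟩ := ans_val h ha
  have hpU : p ∉ a.1.2.2 := fun h3 => (mem_erase.1 (hU (List.mem_toFinset.2 h3))).1 rfl
  have h3 := u6_hypl h.st hf hU' (fun q hq => hne q (List.mem_toFinset.2 hq))
    (u6_y (s := s) (ps := ps))
  refine ⟨(nor (newS s ps y) (hyp ps a.1.1.1 a.1.1.2 a.1.2.2 ++ [y]), p.2),
    List.mem_flatMap.2 ⟨a, ha, ?_⟩, ?_⟩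
  · rw [if_pos (hb.2 hy)]
    refine List.mem_map.2 ⟨p, List.mem_filter.2 ⟨hp, ?_⟩, rfl⟩
    simp [hpU]
  · rw [h3]

end Pool.Agent.G4
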