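import Pool.Agent.G4.U6
import Pool.Agent.G4.SH2c
import Pool.Agent.G4.Eqv

set_option autoImplicit false

/-!
# Module U7a: the marked bases of the new matroid determine the Hermitian forms

PROOF: `stepH` with `L = mkL s.2.2.1` (`h.good.spL`, transported to `D'` by `spanH_congr`, `h.old`; you may
import `Eqv`), `L' = mkL (newL1 ++ newL2 ++ newL3)`; `hv`: `newL1_valid`, `newL2_valid`, `newL3_valid`; `m1`:
`newL1_mem`; `m2`: `newL2_mem`; `m3`: `newL3_mem`. `C3 D' B N` from `h.good.c3` and `h.old`.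
-/

namespace Pool.Agent.G4

open N487b59b3 F4 Finset

variable {s : St} {ps : List (ℕ × ℕ)} {y : ℕ} {D' : ℕ → ℕ → F4} {ans : List (Desc × Bool)}

/-- the hypotheses on the old matroid, for the new matrix -/
theorem StepCtx.old_facts (h : StepCtx s ps y D' ans) :
    C3 D' s.1.1.toFinset s.1.2.toFinset ∧
    SpanH D' s.1.1.toFinset s.1.2.toFinset (mkL s.2.2.1) ∧
    SpanH (trD D') s.1.2.toFinset s.1.1.toFinset
      (mkC (s.1.1.toFinset ∪ s.1.2.toFinset) s.2.2.2.1) ∧
    SpanP D' s.1.1.toFinset s.1.2.toFinset (mkP s.2.2.2.2) := by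
  have ho : ∀ b ∈ s.1.1.toFinset, ∀ n ∈ s.1.2.toFinset, ent s.2.1 b n = D' b n :=
    fun b hb n hn => (h.old b (List.mem_toFinset.1 hb) n (List.mem_toFinset.1 hn)).symm
  have ho' : ∀ b ∈ s.1.1.toFinset, ∀ n ∈ s.1.2.toFinset, D' b n = ent s.2.1 b n :=
    fun b hb n hn => (ho b hb n hn).symm
  have hot : ∀ n ∈ s.1.2.toFinset, ∀ b ∈ s.1.1.toFinset, trD (ent s.2.1) n b = trD D' n b :=
    fun n hn b hb => ho b hb n hn
  refine ⟨?_, ?_, ?_, ?_⟩
  · exact (Eqv.of_eq ho').c3.1 h.good.c3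
  · exact (spanH_congr ho' h.good.dj _).1 h.good.spL
  · exact (spanH_congr hot h.good.dj.symm _).2 h.good.spC
  · exact (spanP_congr ho' h.good.dj _).1 h.good.spP

theorem newL_span (h : StepCtx s ps y D' ans) :
    SpanH D' (nB s.1.1.toFinset ps.toFinset) (nN s.1.2.toFinset y)
      (mkL ((newL1 (newS s ps y) ps ans ++ newL2 (newS s ps y) s ps) ++
        newL3 (newS s ps y) ps y ans)) := by
  obtain ⟨h1, h2, -, -⟩ := h.old_facts
  refine stepH h.st h1 h.c3 h2 ?_ ?_ ?_ ?_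
  · rintro p ⟨q, hq, rfl⟩
    rcases List.mem_append.1 hq with hq | hq
    · rcases List.mem_append.1 hq with hq | hq
      · exact newL1_valid h q hq
      · exact newL2_valid h q hq
    · exact newL3_valid h q hq
  · rintro q ⟨r, hr, rfl⟩ f hf U hU hc hne
    obtain ⟨z, -, hz, q', hq', he⟩ := newL1_mem h hr hf hU hc hne
    exact ⟨z, hz, q', List.mem_append_left _ (List.mem_append_left _ hq'), he⟩
  · intro p hp
    obtain ⟨T', hT', hp1, q', hq', he⟩ := newL2_mem h (List.mem_toFinset.1 hp)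
    exact ⟨T', hT', hp1, q', List.mem_append_left _ (List.mem_append_right _ hq'), he⟩
  · rintro q ⟨r, hr, rfl⟩ f hf p hp U hU hc hne hfp hy
    obtain ⟨q', hq', he⟩ := newL3_mem h hr hf (List.mem_toFinset.1 hp) hU hc hne hy
    exact ⟨q', List.mem_append_right _ hq', he⟩

end Pool.Agent.G4
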