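import Pool.Agent.G4.U6
import Pool.Agent.G4.U7a

set_option autoImplicit false

/-!
# Module U7b: the doubly marked bases of the matroid without `y`

* `newP1`: `(T, (z, x))` is valid for the old matroid (`SpanP.1`), `base_union` for `T` and for
`T - z + x`; `m1` by definition (`nor_newS`).
* `newP2`: an element `q` of `s.2.2.2.1` corresponds to the marked basis `(Ts, q.2)`,
`Ts = (B ∪ N) \ q.1`, of the dual; `(B ∪ N) \ Ts = q.1` by `h.good.subC`.
The vector `fv (trM s.2.1) s.1.2 (dif (s.1.1 ++ s.1.2) q.1) q.2` is the `IsF` vector of `(Ts, q.2)`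
(`exists_isF`, `fv_dual`, entries of `D'` and `ent s.2.1` agree), `val_eq` for `trM`: the condition
`val .. p.1 ≠ 0` is `ev (trD D') N c p.1 ≠ 0`. Validity and shape: `circ_lift_b`; `p.1 ≠ y`.
-/

namespace Pool.Agent.G4

open N487b59b3 F4 Finset

variable {s : St} {ps : List (ℕ × ℕ)} {y : ℕ} {D' : ℕ → ℕ → F4} {ans : List (Desc × Bool)}

private theorem u7b_ev_congr {D D₁ : ℕ → ℕ → F4} {B N : Finset ℕ}
    (h : ∀ b ∈ B, ∀ n ∈ N, D b n = D₁ b n) (f : ℕ → F4) {e : ℕ} (he : e ∈ B ∪ N) :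
    ev D B f e = ev D₁ B f e := by
  unfold ev
  refine Finset.sum_congr rfl fun b hb => ?_
  unfold col
  by_cases heB : e ∈ B
  · rw [if_pos heB, if_pos heB]
  · rw [if_neg heB, if_neg heB, h b hb e ((mem_union.1 he).resolve_left heB)]

private theorem u7b_map : (ps.map fun q => q.2).toFinset = ps.toFinset.image fun r => r.2 := by
  ext e
  simp only [List.mem_toFinset, List.mem_map, mem_image]

private theorem u7b_sub {B N T : Finset ℕ} (hT : T ⊆ B ∪ N) (P : Finset (ℕ × ℕ)) :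
    T ∪ P.image (fun r => r.2) ⊆ nB B P ∪ N := by
  intro e he
  rcases mem_union.1 he with h | h
  · rcases mem_union.1 (hT h) with h | h
    · exact mem_union_left _ (mem_union_left _ h)
    · exact mem_union_right _ h
  · exact mem_union_left _ (mem_union_right _ h)

private theorem u7b_sub' {B N T : Finset ℕ} {P : Finset (ℕ × ℕ)} (hT : T ⊆ nB B P ∪ N) (y : ℕ) :
    T ⊆ nB B P ∪ nN N y := by
  intro e he
  rcases mem_union.1 (hT he) with h | h
  · exact mem_union_left _ h
  · exact mem_union_right _ (mem_insert_of_mem h)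

private theorem u7b_compl (h : StepCtx s ps y D' ans) {T : Finset ℕ} {e : ℕ}
    (he : e ∈ (s.1.1.toFinset ∪ s.1.2.toFinset) \ T) :
    e ∈ (nB s.1.1.toFinset ps.toFinset ∪ nN s.1.2.toFinset y) \
      (T ∪ ps.toFinset.image fun r => r.2) ∧ e ≠ y := by
  obtain ⟨h1, h2⟩ := mem_sdiff.1 he
  refine ⟨mem_sdiff.2 ⟨?_, ?_⟩, ?_⟩
  · rcases mem_union.1 h1 with h3 | h3
    · exact mem_union_left _ (mem_union_left _ h3)
    · exact mem_union_right _ (mem_insert_of_mem h3)
  · intro h3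
    rcases mem_union.1 h3 with h3 | h3
    · exact h2 h3
    · obtain ⟨q, hq, hqe⟩ := mem_image.1 h3
      exact h.st.new q hq (hqe ▸ h1)
  · rintro rfl
    exact h.st.ynew h1

/-- normal form of the first list -/
private theorem u7b_nor1 (_h : StepCtx s ps y D' ans) {l : List ℕ}
    (hl : l.toFinset ⊆ s.1.1.toFinset ∪ s.1.2.toFinset) :
    (nor (newS s ps y) (l ++ ps.map fun q => q.2)).toFinset =
      l.toFinset ∪ ps.toFinset.image fun r => r.2 := by
  have h1 : (l ++ ps.map fun q => q.2).toFinset = l.toFinset ∪ ps.toFinset.image fun r => r.2 := by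
    rw [List.toFinset_append, u7b_map]
  rw [nor_newS, h1]
  rw [h1]
  exact u7b_sub' (u7b_sub hl _) y

private theorem u7b_old (h : StepCtx s ps y D' ans) :
    ∀ n ∈ s.1.2.toFinset, ∀ b ∈ s.1.1.toFinset, trD D' n b = trD (ent s.2.1) n b :=
  fun n hn b hb => h.old b (List.mem_toFinset.1 hb) n (List.mem_toFinset.1 hn)

/-- the set of the second list -/
private theorem u7b_nor2 (h : StepCtx s ps y D' ans) {r : List ℕ × ℕ}
    (hr : r.1.toFinset ⊆ s.1.1.toFinset ∪ s.1.2.toFinset)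
    (hr2 : r.2 ∈ s.1.1.toFinset ∪ s.1.2.toFinset) (p : ℕ × ℕ) :
    (if r.2 = p.1 then (nor (newS s ps y) (r.1 ++ ps.map fun r => r.2), (p.2, p.1))
      else (nor (newS s ps y) ((r.1.filter fun t => !decide (t = p.1)) ++ [r.2] ++
        ps.map fun r => r.2), (p.2, p.1))).1.toFinset =
    (if r.2 = p.1 then ((s.1.1.toFinset ∪ s.1.2.toFinset) \
        ((s.1.1.toFinset ∪ s.1.2.toFinset) \ r.1.toFinset)) ∪ ps.toFinset.image (fun r => r.2)
      else insert r.2 (((s.1.1.toFinset ∪ s.1.2.toFinset) \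
        ((s.1.1.toFinset ∪ s.1.2.toFinset) \ r.1.toFinset)).erase p.1) ∪
          ps.toFinset.image (fun r => r.2)) := by
  rw [Finset.sdiff_sdiff_eq_self hr]
  by_cases hx : r.2 = p.1
  · rw [if_pos hx, if_pos hx]
    exact u7b_nor1 h hr
  · rw [if_neg hx, if_neg hx]
    have h1 : ((r.1.filter fun t => !decide (t = p.1)) ++ [r.2]).toFinset =
        insert r.2 (r.1.toFinset.erase p.1) := by
      ext e
      simp only [List.toFinset_append, mem_union, List.mem_toFinset, List.mem_filter,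
        Bool.not_eq_true', decide_eq_false_iff_not, List.mem_singleton, mem_insert, mem_erase]
      tauto
    rw [← h1]
    refine u7b_nor1 h ?_
    rw [h1]
    intro e he
    rcases mem_insert.1 he with he | he
    · exact he ▸ hr2
    · exact hr (mem_of_mem_erase he)

/-- the test of the second list -/
private theorem u7b_val (h : StepCtx s ps y D' ans) {r : List ℕ × ℕ} {c : ℕ → F4}
    (hc : IsF (trD D') s.1.2.toFinset s.1.1.toFinset
      ((s.1.1.toFinset ∪ s.1.2.toFinset) \ r.1.toFinset) r.2 c) {p : ℕ × ℕ} (hp : p ∈ ps) :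
    val (trM s.2.1) s.1.2 (fv (trM s.2.1) s.1.2 (dif (s.1.1 ++ s.1.2) r.1) r.2) p.1 =
      ev (trD D') s.1.2.toFinset c p.1 := by
  have h1 : ent (trM s.2.1) = trD (ent s.2.1) := by
    funext b n
    exact ent_trM s.2.1 b n
  rw [fv_dual h.good.ndN s.2.1 (isF_congr h.good.dj.symm (u7b_old h) hc), val_eq h.good.ndN, h1]
  refine (u7b_ev_congr (u7b_old h) c ?_).symm
  rw [union_comm]
  exact h.st.mem p (List.mem_toFinset.2 hp)

theorem newP_pairSet (h : StepCtx s ps y D' ans) :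
    PairSet D' s.1.1.toFinset s.1.2.toFinset ps.toFinset y
      (mkC (s.1.1.toFinset ∪ s.1.2.toFinset) s.2.2.2.1) (mkP s.2.2.2.2)
      (mkP (newP1 (newS s ps y) s ps ++ newP2 (newS s ps y) s ps)) := by
  obtain ⟨-, -, hC, hP⟩ := h.old_facts
  refine ⟨?_, ?_, ?_⟩
  · rintro _ ⟨q, hq, rfl⟩
    rcases List.mem_append.1 hq with hq | hq
    · obtain ⟨r, hr, rfl⟩ := List.mem_map.1 hq
      obtain ⟨h1, h2, h3, h4⟩ := hP.1 (r.1.toFinset, r.2) ⟨r, hr, rfl⟩
      dsimp only at h1 h2 h3 h4 ⊢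
      rw [u7b_nor1 h h1.1]
      obtain ⟨h5, h6⟩ := u7b_compl h h3
      refine ⟨base_union h.st h1, mem_union_left _ h2, h5, h6, ?_, u7b_sub h1.1 _⟩
      have h7 : insert r.2.2 ((r.1.toFinset ∪ ps.toFinset.image fun r => r.2).erase r.2.1) =
          insert r.2.2 (r.1.toFinset.erase r.2.1) ∪ ps.toFinset.image fun r => r.2 := by
        rw [insert_union, erase_union_distrib, erase_eq_of_notMem (a := r.2.1)
          (s := ps.toFinset.image fun r => r.2)]
        intro h8
        obtain ⟨q, hq, hqe⟩ := mem_image.1 h8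
        exact h.st.new q hq (hqe ▸ h1.1 h2)
      rw [h7]
      exact base_union h.st h4
    · obtain ⟨r, hr, hq⟩ := List.mem_flatMap.1 hq
      obtain ⟨p, hp, rfl⟩ := List.mem_map.1 hq
      obtain ⟨hp1, hp2⟩ := List.mem_filter.1 hp
      obtain ⟨h1, h2⟩ := hC.1 _ ⟨r, hr, rfl⟩
      obtain ⟨c, hc⟩ := exists_isF h1 h2
      have h3 : ev (trD D') s.1.2.toFinset c p.1 ≠ 0 := by
        rw [← u7b_val h hc hp1]
        simpa using hp2
      have hr2 : r.2 ∈ s.1.1.toFinset ∪ s.1.2.toFinset := (mem_sdiff.1 h2).1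
      have h4 := circ_lift_b h.st hc (List.mem_toFinset.2 hp1) h3
        (u7b_nor2 h (h.good.subC r hr) hr2 p)
      obtain ⟨g1, g2, g3, g4, g5, -⟩ := h4
      have h5 : (if r.2 = p.1 then (nor (newS s ps y) (r.1 ++ ps.map fun r => r.2), (p.2, p.1))
          else (nor (newS s ps y) ((r.1.filter fun t => !decide (t = p.1)) ++ [r.2] ++
            ps.map fun r => r.2), (p.2, p.1))).2 = (p.2, p.1) := by
        split_ifs <;> rfl
      dsimp only
      rw [h5]
      have hp3 := h.st.mem p (List.mem_toFinset.2 hp1)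
      refine ⟨g1, g2, mem_sdiff.2 ⟨?_, g3⟩, ?_, g5, g4⟩
      · rcases mem_union.1 hp3 with h6 | h6
        · exact mem_union_left _ (mem_union_left _ h6)
        · exact mem_union_right _ (mem_insert_of_mem h6)
      · intro h6
        exact h.st.ynew (h6 ▸ hp3)
  · rintro _ ⟨r, hr, rfl⟩
    refine ⟨(nor (newS s ps y) (r.1 ++ ps.map fun q => q.2), r.2), ?_, ?_⟩
    · exact List.mem_append_left _ (List.mem_map.2 ⟨r, hr, rfl⟩)
    · dsimp only
      rw [u7b_nor1 h (hP.1 (r.1.toFinset, r.2) ⟨r, hr, rfl⟩).1.1]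
  · rintro _ ⟨r, hr, rfl⟩ c hc p hp hne
    have hp1 := List.mem_toFinset.1 hp
    have hr2 : r.2 ∈ s.1.1.toFinset ∪ s.1.2.toFinset := (mem_sdiff.1 hc.2.1).1
    refine ⟨if r.2 = p.1 then (nor (newS s ps y) (r.1 ++ ps.map fun r => r.2), (p.2, p.1))
      else (nor (newS s ps y) ((r.1.filter fun t => !decide (t = p.1)) ++ [r.2] ++
        ps.map fun r => r.2), (p.2, p.1)), ?_, ?_⟩
    · refine List.mem_append_right _ (List.mem_flatMap.2 ⟨r, hr, List.mem_map.2 ⟨p, ?_, rfl⟩⟩)
      refine List.mem_filter.2 ⟨hp1, ?_⟩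
      rw [u7b_val h hc hp1]
      simpa using hne
    · rw [Prod.ext_iff]
      refine ⟨(u7b_nor2 h (h.good.subC r hr) hr2 p).symm, ?_⟩
      dsimp only
      split_ifs <;> rfl

end Pool.Agent.G4
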