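import Pool.Agent.G4.UPChain

set_option autoImplicit false

/-!
# The reconstruction of a piece is polynomial
-/

namespace Pool.Agent.G4

open Turing Function N487b59b3 N68a2faeb Pool.Agent.Helper22 Pool.Agent.Helper49.Cons
open Pool.Agent.Helper6.WB

/-- all elements are small -/
def Sm (M : ℕ) (l : List ℕ) : Prop := ∀ e ∈ l, sz e ≤ M

theorem Sm.app {M : ℕ} {l m : List ℕ} (hl : Sm M l) (hm : Sm M m) : Sm M (l ++ m) := by
  intro e he
  rcases List.mem_append.1 he with he | he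
  · exact hl e he
  · exact hm e he

theorem Sm.nor {M : ℕ} {S T : List ℕ} (h : Sm M S) : Sm M (nor S T) :=
  fun e he => h e (List.mem_filter.1 he).1

theorem Sm.dif {M : ℕ} {S T : List ℕ} (h : Sm M S) : Sm M (dif S T) :=
  fun e he => h e (List.mem_filter.1 he).1

theorem length_nor_le (S T : List ℕ) : (nor S T).length ≤ S.length := List.length_filter_le _ _

theorem length_dif_le (S T : List ℕ) : (dif S T).length ≤ S.length := List.length_filter_le _ _

/-- bound for the lengths of the lists -/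
def cc (k : ℕ) : ℕ := (k * k) * (k * k) + 2 * (k * k)

theorem cc_mono {k l : ℕ} (h : k ≤ l) : cc k ≤ cc l := by
  unfold cc; gcongr

/-- good marked basis -/
def SP1 (M k : ℕ) (p : List ℕ × ℕ) : Prop := (Sm M p.1 ∧ p.1.length ≤ k) ∧ sz p.2 ≤ M

/-- good doubly marked basis -/
def SP2 (M k : ℕ) (p : List ℕ × (ℕ × ℕ)) : Prop :=
  (Sm M p.1 ∧ p.1.length ≤ k) ∧ (sz p.2.1 ≤ M ∧ sz p.2.2 ≤ M)

/-- the invariant of the states -/
structure SInv (M k : ℕ) (s : St) : Prop where
  B : Sm M s.1.1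
  N : Sm M s.1.2
  kk : s.1.1.length + s.1.2.length ≤ k
  Dl : s.2.1.length ≤ k * k
  D : ∀ p ∈ s.2.1, sz p.1.1 ≤ M ∧ sz p.1.2 ≤ M
  Ll : s.2.2.1.length ≤ cc k
  L : ∀ p ∈ s.2.2.1, SP1 M k p
  Cl : s.2.2.2.1.length ≤ cc k
  C : ∀ p ∈ s.2.2.2.1, SP1 M k p
  Pl : s.2.2.2.2.length ≤ cc k
  P : ∀ p ∈ s.2.2.2.2, SP2 M k p

/-- bound for the size of a state -/
def Sb (M k : ℕ) : ℕ :=
  2 * (2 * (k * (2 * M + 1)) + 1 + k * (2 * M + 1)) + 1 +
    (2 * ((k * k) * (2 * (2 * (3 * M + 1) + 1 + 4) + 1)) + 1 +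
      (2 * (cc k * (2 * (2 * (k * (2 * M + 1)) + 1 + M) + 1)) + 1 +
        (2 * (cc k * (2 * (2 * (k * (2 * M + 1)) + 1 + M) + 1)) + 1 +
          cc k * (2 * (2 * (k * (2 * M + 1)) + 1 + (3 * M + 1)) + 1))))

theorem Sb_mono {M M' k k' : ℕ} (h : M ≤ M') (hk : k ≤ k') : Sb M k ≤ Sb M' k' := by
  unfold Sb
  have := cc_mono hk
  gcongr

theorem PB_Sb {f g : ℕ → ℕ} (hf : PB f) (hg : PB g) : PB fun n => Sb (f n) (g n) := by
  unfold Sb cc
  fun_prop

theorem Sm.sz {M k : ℕ} {l : List ℕ} (h : Sm M l) (hk : l.length ≤ k) :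
    Helper22.sz l ≤ k * (2 * M + 1) :=
  (sz_le_length_mul h).trans (Nat.mul_le_mul_right _ hk)

theorem SInv.sz {M k : ℕ} {s : St} (h : SInv M k s) : Helper22.sz s ≤ Sb M k := by
  obtain ⟨⟨B, N⟩, D, L, C, P⟩ := s
  obtain ⟨h1, h2, h3, h4, h5, h6, h7, h8, h9, h10, h11⟩ := h
  dsimp only at h1 h2 h3 h4 h5 h6 h7 h8 h9 h10 h11
  have e1 := h1.sz (k := k) (by omega)
  have e2 := h2.sz (k := k) (by omega)
  have e3 : Helper22.sz D ≤ (k * k) * (2 * (2 * (3 * M + 1) + 1 + 4) + 1) := by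
    refine (sz_le_length_mul (C := 2 * (3 * M + 1) + 1 + 4) ?_).trans (Nat.mul_le_mul_right _ h4)
    rintro ⟨⟨b, n⟩, x⟩ hp
    obtain ⟨h12, h13⟩ := h5 _ hp
    dsimp only at h12 h13
    simp only [sz_pair, sz_F4]
    omega
  have e4 : ∀ L : List (List ℕ × ℕ), L.length ≤ cc k → (∀ p ∈ L, SP1 M k p) →
      Helper22.sz L ≤ cc k * (2 * (2 * (k * (2 * M + 1)) + 1 + M) + 1) := by
    intro L h12 h13
    refine (sz_le_length_mul (C := 2 * (k * (2 * M + 1)) + 1 + M) ?_).trans
      (Nat.mul_le_mul_right _ h12)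
    rintro ⟨T, z⟩ hp
    obtain ⟨⟨h14, h15⟩, h16⟩ := h13 _ hp
    have h17 := h14.sz h15
    dsimp only at h16 h17
    rw [sz_pair]
    omega
  have e5 : Helper22.sz P ≤ cc k * (2 * (2 * (k * (2 * M + 1)) + 1 + (3 * M + 1)) + 1) := by
    refine (sz_le_length_mul (C := 2 * (k * (2 * M + 1)) + 1 + (3 * M + 1)) ?_).trans
      (Nat.mul_le_mul_right _ h10)
    rintro ⟨T, z, x⟩ hp
    obtain ⟨⟨h14, h15⟩, h16, h18⟩ := h11 _ hp
    have h17 := h14.sz h15
    dsimp only at h16 h17 h18
    simp only [sz_pair]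
    omega
  have e6 := e4 L h6 h7
  have e7 := e4 C h8 h9
  unfold Sb
  simp only [sz_pair]
  omega

theorem SInv.dual {M k : ℕ} {s : St} (h : SInv M k s) : SInv M k (dualSt s) := by
  obtain ⟨h1, h2, h3, h4, h5, h6, h7, h8, h9, h10, h11⟩ := h
  have hS : Sm M (s.1.1 ++ s.1.2) := h1.app h2
  have hl : ∀ T, (dif (s.1.1 ++ s.1.2) T).length ≤ k := fun T => by
    have := length_dif_le (s.1.1 ++ s.1.2) T
    rw [List.length_append] at this
    omega
  refine ⟨h2, h1, ?_, ?_, ?_, ?_, ?_, ?_, ?_, ?_, ?_⟩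
  · show s.1.2.length + s.1.1.length ≤ k
    omega
  · show (trM s.2.1).length ≤ _
    rw [trM, List.length_map]
    exact h4
  · intro p hp
    have hp' : p ∈ trM s.2.1 := hp
    rw [trM, List.mem_map] at hp'
    obtain ⟨q, hq, rfl⟩ := hp'
    exact ⟨(h5 q hq).2, (h5 q hq).1⟩
  · show (s.2.2.2.1.map _).length ≤ _
    rw [List.length_map]
    exact h8
  · intro p hp
    have hp' : p ∈ s.2.2.2.1.map fun p => (dif (s.1.1 ++ s.1.2) p.1, p.2) := hp
    rw [List.mem_map] at hp'
    obtain ⟨q, hq, rfl⟩ := hp'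
    exact ⟨⟨hS.dif, hl _⟩, (h9 q hq).2⟩
  · show (s.2.2.1.map _).length ≤ _
    rw [List.length_map]
    exact h6
  · intro p hp
    have hp' : p ∈ s.2.2.1.map fun p => (dif (s.1.1 ++ s.1.2) p.1, p.2) := hp
    rw [List.mem_map] at hp'
    obtain ⟨q, hq, rfl⟩ := hp'
    exact ⟨⟨hS.dif, hl _⟩, (h7 q hq).2⟩
  · show (s.2.2.2.2.map _).length ≤ _
    rw [List.length_map]
    exact h10
  · intro p hp
    have hp' : p ∈ s.2.2.2.2.map fun p => (dif (s.1.1 ++ s.1.2) p.1, (p.2.2, p.2.1)) := hp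
    rw [List.mem_map] at hp'
    obtain ⟨q, hq, rfl⟩ := hp'
    exact ⟨⟨hS.dif, hl _⟩, (h11 q hq).2.2, (h11 q hq).2.1⟩

theorem length_mk (R C : List ℕ) (g : ℕ → ℕ → F4) : (mk R C g).length = R.length * C.length := by
  unfold mk
  induction R with
  | nil => simp
  | cons b R ih =>
    rw [List.flatMap_cons, List.length_append, ih, List.length_map, List.length_cons]
    ring

theorem mem_mk {R C : List ℕ} {g : ℕ → ℕ → F4} {p : (ℕ × ℕ) × F4} (h : p ∈ mk R C g) :
    p.1.1 ∈ R ∧ p.1.2 ∈ C := by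
  unfold mk at h
  rw [List.mem_flatMap] at h
  obtain ⟨b, hb, h⟩ := h
  rw [List.mem_map] at h
  obtain ⟨n, hn, rfl⟩ := h
  exact ⟨hb, hn⟩

theorem length_idx2 (B : List ℕ) : (idx2 B).length = B.length * B.length := by
  unfold idx2
  have : ∀ C : List ℕ, (C.flatMap fun i => B.map fun j => (i, j)).length =
      C.length * B.length := by
    intro C
    induction C with
    | nil => simp
    | cons b C ih =>
      rw [List.flatMap_cons, List.length_append, ih, List.length_map, List.length_cons]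
      ring
  exact this B

theorem mem_prune {ι : Type} {l : List (ι × List F4)} {p : ι} (h : p ∈ prune l) :
    p ∈ l.map fun q => q.1 := (prune_sublist l).subset h

theorem mem_prune_map {ι : Type} {l : List ι} {g : ι → List F4} {n : ℕ} {p : ι}
    (h : p ∈ (prune (l.map fun p => (p, g p))).take n) : p ∈ l := by
  have h1 := mem_prune (List.mem_of_mem_take h)
  rw [List.map_map] at h1
  simpa using h1

theorem length_take_le' {ι : Type} {l : List ι} {n : ℕ} : (l.take n).length ≤ n :=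
  List.length_take_le _ _

theorem SInv_pruneSt {M k : ℕ} {B N : List ℕ} {D : Mx} {L Lc : Lst} {P : Lst2} (hB : Sm M B)
    (hN : Sm M N) (hk : B.length + N.length ≤ k) (hDl : D.length ≤ k * k)
    (hD : ∀ p ∈ D, sz p.1.1 ≤ M ∧ sz p.1.2 ≤ M) (hL : ∀ p ∈ L, SP1 M k p)
    (hC : ∀ p ∈ Lc, SP1 M k p) (hP : ∀ p ∈ P, SP2 M k p) : SInv M k (pruneSt B N D L Lc P) := by
  have h1 : B.length * B.length ≤ k * k := Nat.mul_le_mul (by omega) (by omega)
  have h2 : N.length * N.length ≤ k * k := Nat.mul_le_mul (by omega) (by omega)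
  have h3 : (B ++ N).length * (B ++ N).length ≤ k * k := by
    rw [List.length_append]
    exact Nat.mul_le_mul hk hk
  have h4 : 2 * (k * k) ≤ cc k := by unfold cc; omega
  have f1 := length_take_le' (l := prune (L.map fun p => (p, phiH (fv D B p.1 p.2))))
    (n := (idx2 B).length)
  have f2 : ∀ p ∈ (prune (L.map fun p => (p, phiH (fv D B p.1 p.2)))).take (idx2 B).length,
      p ∈ L := fun p hp => mem_prune_map hp
  have f3 := length_take_le'
    (l := prune (Lc.map fun p => (p, phiH (fv (trM D) N (dif (B ++ N) p.1) p.2))))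
    (n := (idx2 N).length)
  have f4 : ∀ p ∈ (prune (Lc.map fun p => (p, phiH (fv (trM D) N (dif (B ++ N) p.1) p.2)))).take
      (idx2 N).length, p ∈ Lc := fun p hp => mem_prune_map hp
  have f5 := length_take_le'
    (l := prune (P.map fun p => (p, phiP D B N p.1 p.2.1 p.2.2)))
    (n := (idx2 (B ++ N)).length + (idx2 (B ++ N)).length)
  have f6 : ∀ p ∈ (prune (P.map fun p => (p, phiP D B N p.1 p.2.1 p.2.2))).take
      ((idx2 (B ++ N)).length + (idx2 (B ++ N)).length), p ∈ P := fun p hp => mem_prune_map hp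
  unfold pruneSt
  generalize (prune (L.map fun p => (p, phiH (fv D B p.1 p.2)))).take (idx2 B).length = L' at *
  generalize (prune (Lc.map fun p => (p, phiH (fv (trM D) N (dif (B ++ N) p.1) p.2)))).take
    (idx2 N).length = C' at *
  generalize (prune (P.map fun p => (p, phiP D B N p.1 p.2.1 p.2.2))).take
    ((idx2 (B ++ N)).length + (idx2 (B ++ N)).length) = P' at *
  rw [length_idx2] at f1 f3 f5
  exact ⟨hB, hN, hk, hDl, hD, by show L'.length ≤ _; omega, fun p hp => hL p (f2 p hp),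
    by show C'.length ≤ _; omega, fun p hp => hC p (f4 p hp), by show P'.length ≤ _; omega,
    fun p hp => hP p (f6 p hp)⟩

/-- small answers -/
def SA (M : ℕ) (ps : List (ℕ × ℕ)) (a : Desc × Bool) : Prop :=
  sz a.1.1.2 ≤ M ∧ ∀ p ∈ a.1.2.2, p ∈ ps

theorem SInv.update {M k w : ℕ} {s : St} (h : SInv M k s) {ps : List (ℕ × ℕ)} {y : ℕ}
    {ans : List (Desc × Bool)} (hps : ∀ p ∈ ps, Helper22.sz p.1 ≤ M ∧ Helper22.sz p.2 ≤ M)
    (hy : Helper22.sz y ≤ M) (hw : ps.length ≤ w) (ha : ∀ a ∈ ans, SA M ps a) :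
    SInv M (k + (w + 1)) (G4.update s ps y ans) := by
  have hB' : Sm M (s.1.1 ++ ps.map fun p => p.2) := by
    refine h.B.app ?_
    intro e he
    rw [List.mem_map] at he
    obtain ⟨p, hp, rfl⟩ := he
    exact (hps p hp).2
  have hN' : Sm M (s.1.2 ++ [y]) := by
    refine h.N.app ?_
    intro e he
    rw [List.mem_singleton] at he
    rw [he]; exact hy
  have hk := h.kk
  have hlen : (s.1.1 ++ ps.map fun p => p.2).length + (s.1.2 ++ [y]).length ≤ k + (w + 1) := by
    simp only [List.length_append, List.length_map, List.length_cons, List.length_nil]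
    omega
  have hS : Sm M ((s.1.1 ++ ps.map fun p => p.2) ++ (s.1.2 ++ [y])) := hB'.app hN'
  have hSl : ∀ T, (nor ((s.1.1 ++ ps.map fun p => p.2) ++ (s.1.2 ++ [y])) T).length ≤
      k + (w + 1) := by
    intro T
    refine (length_nor_le _ _).trans ?_
    rw [List.length_append]
    exact hlen
  set S := ((s.1.1 ++ ps.map fun p => p.2) ++ (s.1.2 ++ [y])) with hSdef
  have hL1 : ∀ p ∈ newL1 S ps ans ++ newL2 S s ps, SP1 M (k + (w + 1)) p := by
    intro p hp
    rcases List.mem_append.1 hp with hp | hp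
    · unfold newL1 at hp
      rw [List.mem_map] at hp
      obtain ⟨a, ha', rfl⟩ := hp
      obtain ⟨h1, h2⟩ := ha a ha'
      refine ⟨⟨hS.nor, hSl _⟩, ?_⟩
      dsimp only
      rcases headD_mem_or (a.1.2.2.filter fun p => decide (p.1 = a.1.1.2)) (0, a.1.1.2) with h3 | h3
      · exact (hps _ (h2 _ (List.mem_filter.1 h3).1)).2
      · rw [h3]; exact h1
    · unfold newL2 at hp
      rw [List.mem_map] at hp
      obtain ⟨q, hq, rfl⟩ := hp
      exact ⟨⟨hS.nor, hSl _⟩, (hps q hq).2⟩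
  have hP1 : ∀ p ∈ newP1 S s ps ++ newP2 S s ps, SP2 M (k + (w + 1)) p := by
    intro p hp
    rcases List.mem_append.1 hp with hp | hp
    · unfold newP1 at hp
      rw [List.mem_map] at hp
      obtain ⟨q, hq, rfl⟩ := hp
      exact ⟨⟨hS.nor, hSl _⟩, (h.P q hq).2⟩
    · unfold newP2 at hp
      rw [List.mem_flatMap] at hp
      obtain ⟨q, _, hp⟩ := hp
      dsimp only at hp
      rw [List.mem_map] at hp
      obtain ⟨r, hr, hp⟩ := hp
      have hr' := hps r (List.mem_filter.1 hr).1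
      split at hp
      · rw [← hp]
        exact ⟨⟨hS.nor, hSl _⟩, hr'.2, hr'.1⟩
      · rw [← hp]
        exact ⟨⟨hS.nor, hSl _⟩, hr'.2, hr'.1⟩
  unfold G4.update
  dsimp only
  refine SInv_pruneSt hB' hN' hlen ?_ ?_ ?_ ?_ ?_
  · unfold newD
    dsimp only
    rw [length_mk]
    exact Nat.mul_le_mul (by omega) (by omega)
  · intro p hp
    unfold newD at hp
    obtain ⟨h1, h2⟩ := mem_mk hp
    exact ⟨hB' _ h1, hN' _ h2⟩
  · intro p hp
    rcases List.mem_append.1 hp with hp | hp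
    · exact hL1 p hp
    · unfold newL3 at hp
      rw [List.mem_flatMap] at hp
      obtain ⟨a, _, hp⟩ := hp
      split at hp
      · rw [List.mem_map] at hp
        obtain ⟨q, hq, rfl⟩ := hp
        exact ⟨⟨hS.nor, hSl _⟩, (hps q (List.mem_filter.1 hq).1).2⟩
      · cases hp
  · intro p hp
    rcases List.mem_append.1 hp with hp | hp
    · unfold newC1 at hp
      rw [List.mem_map] at hp
      obtain ⟨q, hq, rfl⟩ := hp
      exact ⟨⟨hS.nor, hSl _⟩, (h.C q hq).2⟩
    · unfold newC2 at hp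
      rw [List.mem_flatMap] at hp
      obtain ⟨q, hq, hp⟩ := hp
      simp only [List.mem_cons, List.not_mem_nil, or_false] at hp
      rcases hp with rfl | rfl
      · exact ⟨(hP1 q hq).1, hy⟩
      · exact ⟨⟨hS.nor, hSl _⟩, hy⟩
  · intro p hp
    rcases List.mem_append.1 hp with hp | hp
    · exact hP1 p hp
    · unfold newP3 at hp
      rw [List.mem_map] at hp
      obtain ⟨q, hq, rfl⟩ := hp
      have h1 := hL1 q (List.mem_filter.1 hq).1
      exact ⟨h1.1, h1.2, hy⟩

theorem smallU_mem {ps : List (ℕ × ℕ)} {U : List (ℕ × ℕ)} (h : U ∈ smallU ps) :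
    ∀ p ∈ U, p ∈ ps := by
  intro p hp
  unfold smallU at h
  rcases List.mem_append.1 h with h | h
  · rcases List.mem_append.1 h with h | h
    · rw [List.mem_singleton] at h
      rw [h] at hp
      cases hp
    · rw [List.mem_map] at h
      obtain ⟨q, hq, rfl⟩ := h
      rw [List.mem_singleton] at hp
      rw [hp]; exact hq
  · rw [List.mem_flatMap] at h
    obtain ⟨q, hq, h⟩ := h
    rw [List.mem_map] at h
    obtain ⟨r, hr, rfl⟩ := h
    simp only [List.mem_cons, List.not_mem_nil, or_false] at hp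
    rcases hp with rfl | rfl
    · exact hq
    · exact (List.mem_filter.1 hr).1

theorem descs_mem {M k : ℕ} {s : St} (h : SInv M k s) {ps : List (ℕ × ℕ)} {q : Desc}
    (hq : q ∈ descs s ps) : sz q.1.2 ≤ M ∧ ∀ p ∈ q.2.2, p ∈ ps := by
  unfold descs at hq
  rw [List.mem_flatMap] at hq
  obtain ⟨p, hp, hq⟩ := hq
  rw [List.mem_map] at hq
  obtain ⟨U, hU, rfl⟩ := hq
  exact ⟨(h.L p hp).2, smallU_mem (List.mem_filter.1 hU).1⟩

/-- good record -/
def SR (M w : ℕ) (r : Bool × (ℕ × List (ℕ × ℕ))) : Prop :=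
  sz r.2.1 ≤ M ∧ (r.2.2.length ≤ w ∧ ∀ p ∈ r.2.2, sz p.1 ≤ M ∧ sz p.2 ≤ M)

theorem SInv.buildStep {M k w : ℕ} {s : St} (h : SInv M k s) (X : Oracle)
    (ET : List ℕ × List ℕ) {r : Bool × (ℕ × List (ℕ × ℕ))} (hr : SR M w r) :
    SInv M (k + (w + 1)) (G4.buildStep X ET s r) := by
  have key : ∀ s : St, SInv M k s → SInv M (k + (w + 1)) (G4.update s r.2.2 r.2.1
      ((descs s r.2.2).map fun q => (q, bs X ET.1 ET.2 (grnd s r.2.2 r.2.1) r.1
        (descSet r.2.2 r.2.1 q)))) := by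
    intro s h
    refine h.update hr.2.2 hr.1 hr.2.1 ?_
    intro a ha
    rw [List.mem_map] at ha
    obtain ⟨q, hq, rfl⟩ := ha
    exact descs_mem h hq
  unfold G4.buildStep
  dsimp only
  by_cases h1 : r.1 = true
  · rw [if_pos h1, if_pos h1]
    exact (key _ h.dual).dual
  · rw [if_neg h1, if_neg h1]
    exact key _ h

theorem twos_mem {S : List ℕ} {t : List ℕ} (h : t ∈ twos S) : ∃ U, t = nor S U := by
  unfold twos at h
  rw [List.mem_flatMap] at h
  obtain ⟨a, _, h⟩ := h
  rw [List.mem_map] at h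
  obtain ⟨b, _, rfl⟩ := h
  exact ⟨_, rfl⟩

theorem length_flatMap_le {β δ : Type} {f : β → List δ} {l : List β} {C : ℕ}
    (h : ∀ b ∈ l, (f b).length ≤ C) : (l.flatMap f).length ≤ l.length * C := by
  induction l with
  | nil => simp
  | cons a l ih =>
    rw [List.flatMap_cons, List.length_append, List.length_cons]
    have h1 := h a (by simp)
    have h2 := ih fun b hb => h b (by simp [hb])
    have h3 : (l.length + 1) * C = l.length * C + C := by ring
    omega

theorem length_twos (S : List ℕ) : (twos S).length ≤ S.length * S.length := by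
  unfold twos
  apply length_flatMap_le
  intro b _
  rw [List.length_map]
  exact List.length_filter_le _ _

theorem SInv_baseSt {M : ℕ} {T S : List ℕ} (h : Sm M S) : SInv M (2 * S.length) (baseSt T S) := by
  have ht : ∀ t ∈ twos S, Sm M t ∧ t.length ≤ S.length := by
    intro t ht
    obtain ⟨U, rfl⟩ := twos_mem ht
    exact ⟨h.nor, length_nor_le _ _⟩
  have h2 := length_twos S
  have h3 : ∀ n, n ≤ (S.length * S.length) * (S.length * S.length) → n ≤ cc (2 * S.length) := by
    intro n hn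
    unfold cc
    nlinarith [Nat.zero_le (S.length * S.length * (S.length * S.length))]
  have h4 : (S.length * S.length) * S.length ≤ (S.length * S.length) * (S.length * S.length) := by
    rcases Nat.eq_zero_or_pos S.length with h0 | h0
    · rw [h0]
    · exact Nat.mul_le_mul_left _ (Nat.le_mul_of_pos_left _ h0)
  unfold baseSt
  refine ⟨h.nor, h.dif, ?_, ?_, ?_, ?_, ?_, ?_, ?_, ?_, ?_⟩
  · show (nor S T).length + (dif S T).length ≤ _
    have := length_nor_le S T
    have := length_dif_le S T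
    omega
  · show (mk _ _ _).length ≤ _
    rw [length_mk]
    have := length_nor_le S T
    have := length_dif_le S T
    exact Nat.mul_le_mul (by omega) (by omega)
  · intro p hp
    obtain ⟨h5, h6⟩ := mem_mk hp
    exact ⟨h.nor _ h5, h.dif _ h6⟩
  · show ((twos S).flatMap _).length ≤ _
    refine h3 _ (le_trans ?_ h4)
    refine (length_flatMap_le (C := S.length) ?_).trans (Nat.mul_le_mul_right _ h2)
    intro t ht'
    rw [List.length_map]
    exact (ht t ht').2
  · intro p hp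
    rw [List.mem_flatMap] at hp
    obtain ⟨t, ht', hp⟩ := hp
    rw [List.mem_map] at hp
    obtain ⟨z, hz, rfl⟩ := hp
    exact ⟨⟨(ht t ht').1, (ht t ht').2.trans (by omega)⟩, (ht t ht').1 z hz⟩
  · show ((twos S).flatMap _).length ≤ _
    refine h3 _ (le_trans ?_ h4)
    refine (length_flatMap_le (C := S.length) ?_).trans (Nat.mul_le_mul_right _ h2)
    intro t _
    rw [List.length_map]
    exact length_dif_le _ _
  · intro p hp
    rw [List.mem_flatMap] at hp
    obtain ⟨t, ht', hp⟩ := hp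
    rw [List.mem_map] at hp
    obtain ⟨z, hz, rfl⟩ := hp
    exact ⟨⟨(ht t ht').1, (ht t ht').2.trans (by omega)⟩, h.dif z hz⟩
  · show ((twos S).flatMap _).length ≤ _
    refine h3 _ ?_
    refine (length_flatMap_le (C := S.length * S.length) ?_).trans (Nat.mul_le_mul_right _ h2)
    intro t ht'
    refine (length_flatMap_le (C := S.length) ?_).trans (Nat.mul_le_mul_right _ (ht t ht').2)
    intro z _
    rw [List.length_map]
    exact length_dif_le _ _
  · intro p hp
    rw [List.mem_flatMap] at hp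
    obtain ⟨t, ht', hp⟩ := hp
    rw [List.mem_flatMap] at hp
    obtain ⟨z, hz, hp⟩ := hp
    rw [List.mem_map] at hp
    obtain ⟨x, hx, rfl⟩ := hp
    exact ⟨⟨(ht t ht').1, (ht t ht').2.trans (by omega)⟩, (ht t ht').1 z hz, h.dif x hx⟩

end Pool.Agent.G4
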