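import Pool.Agent.G4.UPCyc

set_option autoImplicit false

/-!
# The chain is polynomial
-/

namespace Pool.Agent.G4

open Turing Function N487b59b3 N68a2faeb Pool.Agent.Helper22 Pool.Agent.Helper49.Cons
open Pool.Agent.Helper6.WB

/-- the input of a candidate: `((E, T), (S, (d, y)))` -/
abbrev CIn : Type := (List ℕ × List ℕ) × (List ℕ × (Bool × ℕ))

/-- the new ground set -/
def ciS (q : CIn) (t : Tab) : List ℕ :=
  (q.2.1.filter fun e => !decide (e = q.2.2.2)).filter fun e =>
    !decide (e ∈ (pairsOf (if q.2.2.1 then swT t else t)).map fun q => q.2)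

theorem fp_ciS : FP fun w : CIn × Tab => ciS w.1 w.2 := by
  unfold ciS; fun_prop

/-- one candidate -/
theorem up_candInfo : UP fun X (q : CIn) => candInfo X q.1.1 q.1.2 q.2.1 q.2.2.1 q.2.2.2 := by
  have h1 : UP fun X (q : CIn) =>
      pivT (table X q.1.1 q.1.2 q.2.1) q.1.2 q.2.2.1 q.2.2.2 := by
    have h0 : FP fun r : Tab × CIn => pivT r.1 r.2.1.2 r.2.2.2.1 r.2.2.2.2 := by fun_prop
    exact UP.fp h0 (UP.pair (up_table (UP.of_FP (by fun_prop)) (UP.of_FP (by fun_prop))
      (UP.of_FP (by fun_prop))) UP.id)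
  have h2 : UP fun X (r : CIn × (Bool × List ℕ)) =>
      table X r.1.1.1 r.2.2 (r.1.2.1.filter fun e => !decide (e = r.1.2.2.2)) :=
    up_table (UP.of_FP (by fun_prop)) (UP.of_FP (by fun_prop)) (UP.of_FP (by fun_prop))
  have h4 : FP fun w : (CIn × (Bool × List ℕ)) × Tab => ciS w.1.1 w.2 :=
    fp_ciS.comp (f := fun w : (CIn × (Bool × List ℕ)) × Tab => (w.1.1, w.2)) (by fun_prop)
  have h3 : UP fun X (w : (CIn × (Bool × List ℕ)) × Tab) =>
      nonbin X w.1.1.1.1 w.1.2.2 (resT w.2 (ciS w.1.1 w.2)) :=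
    up_nonbin (UP.of_FP (by fun_prop)) (UP.of_FP (by fun_prop)) (UP.of_FP (by fun_prop))
  have h5 : FP fun v : ((CIn × (Bool × List ℕ)) × Tab) × Bool =>
      ((v.1.1.2.1 && (test3 (resT v.1.2 (ciS v.1.1.1 v.1.2)) && v.2),
        (v.1.1.2.2, (ciS v.1.1.1 v.1.2,
          pairsOf (if v.1.1.1.2.2.1 then swT v.1.2 else v.1.2)))) : Info) := by
    have h6 : FP fun v : ((CIn × (Bool × List ℕ)) × Tab) × Bool => ciS v.1.1.1 v.1.2 :=
      h4.comp (f := fun v : ((CIn × (Bool × List ℕ)) × Tab) × Bool => v.1) (by fun_prop)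
    fun_prop
  exact (UP.fp h5 (UP.pair UP.id h3)).comp ((UP.pair UP.id h2).comp (UP.pair UP.id h1))

/-! ## Bounds -/

theorem mem_swT {t : Tab} {p : ℕ × ℕ} (h : p ∈ (swT t).2.1) : (p.2, p.1) ∈ t.2.1 := by
  unfold swT at h
  rw [List.mem_map] at h
  obtain ⟨q, hq, rfl⟩ := h
  exact hq

theorem table_mem (X : Oracle) (E T S : List ℕ) {p : ℕ × ℕ} (h : p ∈ (table X E T S).2.1) :
    p.1 ∈ S ∧ p.2 ∈ S := by
  unfold table at h
  have h1 := (List.mem_filter.1 h).1
  unfold prd at h1
  rw [List.mem_flatMap] at h1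
  obtain ⟨a, ha, h1⟩ := h1
  rw [List.mem_map] at h1
  obtain ⟨b, hb, rfl⟩ := h1
  exact ⟨(List.mem_filter.1 ha).1, (List.mem_filter.1 hb).1⟩

theorem sz_swp (T : List ℕ) (y e M : ℕ) (hy : sz y ≤ M) (he : sz e ≤ M) :
    sz (swp T y e) ≤ sz T + (2 * M + 1) := by
  unfold swp
  split
  · rw [sz_append, sz_cons, sz_nil]
    have := sz_filter_le (fun x => !decide (x = y)) T
    omega
  · rw [sz_append, sz_cons, sz_nil]
    have := sz_filter_le (fun x => !decide (x = e)) T
    omega

theorem sz_pivT (t : Tab) (T : List ℕ) (d : Bool) (y M : ℕ) (hy : sz y ≤ M)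
    (ht : ∀ p ∈ t.2.1, sz p.1 ≤ M ∧ sz p.2 ≤ M) : sz (pivT t T d y).2 ≤ sz T + (2 * M + 1) := by
  have h0 : ∀ p ∈ (if d then swT t else t).2.1, sz p.2 ≤ M := by
    intro p hp
    cases d with
    | true =>
      rw [if_pos rfl] at hp
      exact (ht _ (mem_swT hp)).1
    | false =>
      rw [if_neg (by simp)] at hp
      exact (ht _ hp).2
  unfold pivT
  generalize (if d then swT t else t) = t' at h0
  dsimp only
  split
  · apply sz_swp _ _ _ _ hy
    rcases headD_mem_or (((t'.2.1.filter fun p => decide (p.1 = y)).map fun p => p.2)) 0 with h | h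
    · rw [List.mem_map] at h
      obtain ⟨p, hp, h⟩ := h
      rw [← h]
      exact h0 _ (List.mem_filter.1 hp).1
    · rw [h, sz_zero_nat]
      omega
  · show sz T ≤ _
    omega

theorem candInfo_bound (X : Oracle) (E T S : List ℕ) (d : Bool) (y M : ℕ) (hy : y ∈ S)
    (hS : sz S ≤ M) : sz (candInfo X E T S d y).2.1 ≤ sz T + (2 * M + 1) ∧
      (candInfo X E T S d y).2.2.1.Sublist S := by
  refine ⟨?_, ?_⟩
  · refine sz_pivT _ _ _ _ _ ((sz_mem_le hy).trans hS) fun p hp => ?_
    obtain ⟨h1, h2⟩ := table_mem X E T S hp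
    exact ⟨(sz_mem_le h1).trans hS, (sz_mem_le h2).trans hS⟩
  · exact (List.filter_sublist).trans List.filter_sublist

/-- one step of the chain -/
theorem up_chainStep : UP fun X (q : List ℕ × Ch) => chainStep X q.1 q.2 := by
  have h1 : UP fun X (q : List ℕ × Ch) => ((prd [false, true] q.2.2.1).map fun r =>
      (r, candInfo X q.1 q.2.1 q.2.2.1 r.1 r.2)) :=
    UP.mapA (h := fun X (q : List ℕ × Ch) (r : Bool × ℕ) =>
      (r, candInfo X q.1 q.2.1 q.2.2.1 r.1 r.2))
      (UP.pair (UP.of_FP (by fun_prop)) (up_candInfo.pre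
        (f := fun w : (List ℕ × Ch) × (Bool × ℕ) =>
          (((w.1.1, w.1.2.1), (w.1.2.2.1, (w.2.1, w.2.2))) : CIn)) (by fun_prop)))
      (UP.of_FP (by fun_prop))
  have h2 : FP fun w : (List ℕ × Ch) × List ((Bool × ℕ) × Info) =>
      if w.1.2.2.1.length ≤ 4 then w.1.2 else
        if (w.2.filter fun q => q.2.1).isEmpty then w.1.2 else
          (((w.2.filter fun q => q.2.1).headD ((false, 0), (false, ([], ([], []))))).2.2.1,
            (((w.2.filter fun q => q.2.1).headD ((false, 0), (false, ([], ([], []))))).2.2.2.1,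
              (((w.2.filter fun q => q.2.1).headD ((false, 0), (false, ([], ([], []))))).1.1,
                (((w.2.filter fun q => q.2.1).headD ((false, 0), (false, ([], ([], []))))).1.2,
                ((w.2.filter fun q => q.2.1).headD
                  ((false, 0), (false, ([], ([], []))))).2.2.2.2)) :: w.1.2.2.2)) := by
    fun_prop
  exact UP.fp h2 (UP.pair UP.id h1)

theorem chain_bound {B : ℕ → ℕ} (hBm : Monotone B)
    (hB : ∀ X (q : CIn), sz (candInfo X q.1.1 q.1.2 q.2.1 q.2.2.1 q.2.2.2) ≤ B (sz q))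
    (X : Oracle) (E T S : List ℕ) (M : ℕ) (hM : sz E + (sz T + sz S) ≤ M) (i : ℕ)
    (hi : i ≤ S.length) :
    sz ((chainStep X E)^[i] (T, (S, []))) ≤
      2 * (M + M * (2 * M + 1)) + 1 + (2 * M + 1 +
        M * (2 * (3 + (2 * M + 1 + B (10 * (M + M * (2 * M + 1)) + 10))) + 1)) := by
  have key : ∀ i, i ≤ S.length → (sz ((chainStep X E)^[i] (T, (S, []))).1 ≤ sz T + i * (2 * M + 1) ∧
      ((chainStep X E)^[i] (T, (S, []))).2.1.Sublist S) ∧
      (((chainStep X E)^[i] (T, (S, []))).2.2.length ≤ i ∧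
      ∀ r ∈ ((chainStep X E)^[i] (T, (S, []))).2.2,
        sz r ≤ 3 + (2 * M + 1 + B (10 * (M + M * (2 * M + 1)) + 10))) := by
    intro i
    induction i with
    | zero =>
      intro _
      refine ⟨⟨?_, List.Sublist.refl _⟩, by simp, by simp⟩
      simp
    | succ i ih =>
      intro hi
      obtain ⟨⟨h1, h2⟩, h3, h4⟩ := ih (by omega)
      rw [Function.iterate_succ_apply']
      set s := (chainStep X E)^[i] (T, (S, [])) with hs
      have h5 : (i + 1) * (2 * M + 1) = i * (2 * M + 1) + (2 * M + 1) := by ring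
      unfold chainStep
      split
      · exact ⟨⟨by omega, h2⟩, by omega, h4⟩
      · dsimp only
        split
        · exact ⟨⟨by omega, h2⟩, by omega, h4⟩
        · rename_i hc
          have h6 := headD_mem hc ((false, 0), (false, ([], ([], []))))
          set c := (((prd [false, true] s.2.1).map fun q => (q, candInfo X E s.1 s.2.1 q.1 q.2)).filter
            fun q => q.2.1) with hcdef
          set q := c.headD ((false, 0), (false, ([], ([], [])))) with hq
          rw [hcdef, List.mem_filter, List.mem_map] at h6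
          obtain ⟨⟨⟨d, y⟩, h7, h8⟩, _⟩ := h6
          unfold prd at h7
          rw [List.mem_flatMap] at h7
          obtain ⟨d', _, h7⟩ := h7
          rw [List.mem_map] at h7
          obtain ⟨y', hy, h7⟩ := h7
          have hy' : y ∈ s.2.1 := by
            have : y' = y := congrArg Prod.snd h7
            rw [← this]; exact hy
          have h9 : sz s.2.1 ≤ M := by
            have := sz_sublist h2
            omega
          obtain ⟨h10, h11⟩ := candInfo_bound X E s.1 s.2.1 d y M hy' h9
          have h12 := hB X ((E, s.1), (s.2.1, (d, y)))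
          dsimp only at h8 h12
          rw [← h8]
          dsimp only
          refine ⟨⟨by omega, h11.trans h2⟩, ?_, ?_⟩
          · rw [List.length_cons]; omega
          · intro r hr
            rcases List.mem_cons.1 hr with rfl | hr
            · have h13 : sz y ≤ M := (sz_mem_le hy').trans h9
              have h14 : i * (2 * M + 1) ≤ M * (2 * M + 1) := by
                apply Nat.mul_le_mul_right
                have := length_le_sz S
                omega
              have h15 : sz (candInfo X E s.1 s.2.1 d y) ≤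
                  B (10 * (M + M * (2 * M + 1)) + 10) := by
                refine h12.trans (hBm ?_)
                simp only [sz_pair, sz_bool]
                omega
              have h16 : sz (candInfo X E s.1 s.2.1 d y).2.2.2 ≤ sz (candInfo X E s.1 s.2.1 d y) := by
                generalize candInfo X E s.1 s.2.1 d y = w
                obtain ⟨a, b, c, d⟩ := w
                simp only [sz_pair]
                omega
              simp only [sz_pair, sz_bool]
              omega
            · exact h4 r hr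
  obtain ⟨⟨h1, h2⟩, h3, h4⟩ := key i hi
  generalize (chainStep X E)^[i] (T, (S, [])) = s at *
  obtain ⟨a, b, c⟩ := s
  dsimp only at h1 h2 h3 h4
  have h5 := sz_sublist h2
  have h6 := sz_le_length_mul h4
  have h7 := length_le_sz S
  have h8 : i * (2 * M + 1) ≤ M * (2 * M + 1) := Nat.mul_le_mul_right _ (by omega)
  have h9 : c.length * (2 * (3 + (2 * M + 1 + B (10 * (M + M * (2 * M + 1)) + 10))) + 1) ≤
      M * (2 * (3 + (2 * M + 1 + B (10 * (M + M * (2 * M + 1)) + 10))) + 1) :=
    Nat.mul_le_mul_right _ (by omega)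
  simp only [sz_pair]
  generalize M * (2 * (3 + (2 * M + 1 + B (10 * (M + M * (2 * M + 1)) + 10))) + 1) = U at *
  omega

/-- the chain -/
theorem up_chain : UP fun X (q : List ℕ × (List ℕ × List ℕ)) => chain X q.1 q.2.1 q.2.2 := by
  obtain ⟨B, hB, hBm, hBle⟩ := up_candInfo.bound
  refine UP.iterA (f := fun X (q : List ℕ × (List ℕ × List ℕ)) s => chainStep X q.1 s)
    (l := fun _ q => q.2.2) (x := fun _ q => ((q.2.1, (q.2.2, [])) : Ch))
    (up_chainStep.pre (f := fun w : (List ℕ × (List ℕ × List ℕ)) × Ch => (w.1.1, w.2))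
      (by fun_prop))
    (B := fun M => 2 * (M + M * (2 * M + 1)) + 1 + (2 * M + 1 +
        M * (2 * (3 + (2 * M + 1 + B (10 * (M + M * (2 * M + 1)) + 10))) + 1))) (by fun_prop)
    (UP.of_FP (by fun_prop)) (UP.of_FP (by fun_prop)) fun X q i hi => ?_
  obtain ⟨E, T, S⟩ := q
  refine chain_bound hBm hBle X E T S _ ?_ i hi
  simp only [sz_pair]
  omega

end Pool.Agent.G4
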