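import Pool.Agent.G4.UPTab

set_option autoImplicit false

/-!
# The cycles are polynomial
-/

namespace Pool.Agent.G4

open Turing Function N487b59b3 N68a2faeb Pool.Agent.Helper22 Pool.Agent.Helper49.Cons
open Pool.Agent.Helper6.WB

/-! ## Paths -/

/-- invariant of the list of paths -/
def PInv (V S : List ℕ) (i : ℕ) (l : List (List ℕ)) : Prop :=
  (∃ m : List (List ℕ), l = (S.map fun v => [v]) ++ m ∧ (m.map ends).Nodup) ∧
    ∀ p ∈ l, (∀ v ∈ p, v ∈ V) ∧ p.length ≤ i + 1

theorem PInv.mono {V S : List ℕ} {i j : ℕ} {l : List (List ℕ)} (h : PInv V S i l) (hij : i ≤ j) :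
    PInv V S j l :=
  ⟨h.1, fun p hp => ⟨(h.2 p hp).1, (h.2 p hp).2.trans (by omega)⟩⟩

theorem PInv.insP {V S : List ℕ} {i : ℕ} {l : List (List ℕ)} (h : PInv V S i l) {p : List ℕ}
    (hp : ∀ v ∈ p, v ∈ V) (hl : p.length ≤ i + 1) : PInv V S i (insP l p) := by
  unfold G4.insP
  split
  · exact h
  · rename_i h1
    obtain ⟨⟨m, h2, h3⟩, h4⟩ := h
    refine ⟨⟨m ++ [p], by rw [h2, List.append_assoc], ?_⟩, ?_⟩
    · rw [List.map_append, List.nodup_append]
      refine ⟨h3, by simp, ?_⟩
      intro a ha b hb hab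
      simp only [List.map_cons, List.map_nil, List.mem_singleton] at hb
      subst hb
      rw [List.mem_map] at ha
      obtain ⟨q, hq, rfl⟩ := ha
      apply h1
      rw [List.any_eq_true]
      exact ⟨q, by rw [h2]; exact List.mem_append_right _ hq, by simpa using hab⟩
    · intro q hq
      rcases List.mem_append.1 hq with hq | hq
      · exact h4 q hq
      · rw [List.mem_singleton] at hq
        subst hq
        exact ⟨hp, hl⟩

theorem PInv.foldl {V S : List ℕ} {i : ℕ} (c : List (List ℕ)) {l : List (List ℕ)}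
    (h : PInv V S i l) (hc : ∀ p ∈ c, (∀ v ∈ p, v ∈ V) ∧ p.length ≤ i + 1) :
    PInv V S i (c.foldl G4.insP l) := by
  induction c generalizing l with
  | nil => exact h
  | cons p c ih =>
    rw [List.foldl_cons]
    exact ih (h.insP (hc p (by simp)).1 (hc p (by simp)).2) fun q hq => hc q (by simp [hq])

theorem PInv.step {V S : List ℕ} {i : ℕ} {l : List (List ℕ)} {H : List (ℕ × ℕ)}
    (hH : ∀ e ∈ H, e.1 ∈ V ∧ e.2 ∈ V) (h : PInv V S i l) : PInv V S (i + 1) (pathStep H l) := by
  refine PInv.foldl _ (h.mono (by omega)) fun p hp => ?_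
  rw [List.mem_flatMap] at hp
  obtain ⟨q, hq, hp⟩ := hp
  obtain ⟨h1, h2⟩ := h.2 q hq
  unfold extend at hp
  rw [List.mem_flatMap] at hp
  obtain ⟨e, he, hp⟩ := hp
  obtain ⟨h3, h4⟩ := hH e he
  rcases List.mem_append.1 hp with hp | hp
  · split at hp
    · rw [List.mem_singleton] at hp
      subst hp
      refine ⟨?_, by simpa using h2⟩
      intro v hv
      rcases List.mem_cons.1 hv with rfl | hv
      · exact h4
      · exact h1 v hv
    · cases hp
  · split at hp
    · rw [List.mem_singleton] at hp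
      subst hp
      refine ⟨?_, by simpa using h2⟩
      intro v hv
      rcases List.mem_cons.1 hv with rfl | hv
      · exact h3
      · exact h1 v hv
    · cases hp

/-- all vertices -/
def vts (H : List (ℕ × ℕ)) (S : List ℕ) : List ℕ :=
  0 :: (S ++ ((H.map fun e => e.1) ++ H.map fun e => e.2))

theorem PInv_iter (H : List (ℕ × ℕ)) (S : List ℕ) (i : ℕ) :
    PInv (vts H S) S i ((pathStep H)^[i] (S.map fun v => [v])) := by
  refine iterate_ind (P := fun i l => PInv (vts H S) S i l) ?_ ?_ i
  · refine ⟨⟨[], by simp, by simp⟩, ?_⟩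
    intro p hp
    rw [List.mem_map] at hp
    obtain ⟨v, hv, rfl⟩ := hp
    refine ⟨?_, by simp⟩
    intro u hu
    rw [List.mem_singleton] at hu
    subst hu
    unfold vts
    simp [hv]
  · intro i s hs
    refine hs.step ?_
    intro e he
    unfold vts
    refine ⟨?_, ?_⟩
    · exact List.mem_cons_of_mem _ (List.mem_append_right _ (List.mem_append_left _
        (List.mem_map.2 ⟨e, he, rfl⟩)))
    · exact List.mem_cons_of_mem _ (List.mem_append_right _ (List.mem_append_right _
        (List.mem_map.2 ⟨e, he, rfl⟩)))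

theorem headD_mem_or {β : Type} (l : List β) (d : β) : l.headD d ∈ l ∨ l.headD d = d := by
  cases l with
  | nil => exact Or.inr rfl
  | cons a l => exact Or.inl List.mem_cons_self

theorem headD_mem {β : Type} {l : List β} (h : ¬ l.isEmpty = true) (d : β) : l.headD d ∈ l := by
  cases l with
  | nil => exact absurd rfl h
  | cons a l => exact List.mem_cons_self

theorem ends_mem {V : List ℕ} (hV : 0 ∈ V) {p : List ℕ} (hp : ∀ v ∈ p, v ∈ V) :
    ends p ∈ prd V V := by
  unfold ends prd
  rw [List.mem_flatMap]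
  refine ⟨p.headD 0, ?_, List.mem_map.2 ⟨p.reverse.headD 0, ?_, rfl⟩⟩
  · rcases headD_mem_or p 0 with h | h
    · exact hp _ h
    · rw [h]; exact hV
  · rcases headD_mem_or p.reverse 0 with h | h
    · exact hp _ (List.mem_reverse.1 h)
    · rw [h]; exact hV

theorem length_prd {β γ : Type} (l : List β) (m : List γ) :
    (prd l m).length = l.length * m.length := by
  unfold prd
  induction l with
  | nil => simp
  | cons a l ih =>
    rw [List.flatMap_cons, List.length_append, ih, List.length_map, List.length_cons]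
    ring

/-- the bound -/
def Qb (n : ℕ) : ℕ := (n + (1 + 3 * n) * (1 + 3 * n)) * (2 * ((n + 1) * (2 * n + 1)) + 1)

theorem Qb_mono {m n : ℕ} (h : m ≤ n) : Qb m ≤ Qb n := by
  unfold Qb
  gcongr

theorem PB_Qb : PB Qb := by
  unfold Qb
  fun_prop

theorem sz_zero_nat : sz (0 : ℕ) = 0 := by
  rw [sz_nat]; rfl

theorem sz_pathsIter (H : List (ℕ × ℕ)) (S : List ℕ) (n i : ℕ) (hn : sz H + sz S ≤ n)
    (hi : i ≤ S.length) : sz ((pathStep H)^[i] (S.map fun v => [v])) ≤ Qb n := by
  obtain ⟨⟨m, h1, h2⟩, h3⟩ := PInv_iter H S i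
  have hS := length_le_sz S
  have hH := length_le_sz H
  have hV : 0 ∈ vts H S := List.mem_cons_self
  have hVl : (vts H S).length ≤ 1 + 3 * n := by
    unfold vts
    simp only [List.length_cons, List.length_append, List.length_map]
    omega
  have hVs : ∀ v ∈ vts H S, sz v ≤ n := by
    intro v hv
    unfold vts at hv
    rcases List.mem_cons.1 hv with rfl | hv
    · rw [sz_zero_nat]; omega
    · rcases List.mem_append.1 hv with hv | hv
      · have := sz_mem_le hv
        omega
      · rcases List.mem_append.1 hv with hv | hv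
        · rw [List.mem_map] at hv
          obtain ⟨⟨a, b⟩, he, rfl⟩ := hv
          have := sz_mem_le he
          rw [sz_pair] at this
          show sz a ≤ n
          omega
        · rw [List.mem_map] at hv
          obtain ⟨⟨a, b⟩, he, rfl⟩ := hv
          have := sz_mem_le he
          rw [sz_pair] at this
          show sz b ≤ n
          omega
  have hm : m.length ≤ (1 + 3 * n) * (1 + 3 * n) := by
    have h4 : (m.map ends) ⊆ prd (vts H S) (vts H S) := by
      intro e he
      rw [List.mem_map] at he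
      obtain ⟨p, hp, rfl⟩ := he
      exact ends_mem hV (h3 p (by rw [h1]; exact List.mem_append_right _ hp)).1
    have h5 := (h2.subperm h4).length_le
    rw [List.length_map, length_prd] at h5
    exact h5.trans (Nat.mul_le_mul hVl hVl)
  have hp : ∀ p ∈ (pathStep H)^[i] (S.map fun v => [v]), sz p ≤ (n + 1) * (2 * n + 1) := by
    intro p hp
    obtain ⟨h4, h5⟩ := h3 p hp
    refine (sz_le_length_mul (C := n) fun v hv => hVs v (h4 v hv)).trans ?_
    exact Nat.mul_le_mul_right _ (by omega)
  refine (sz_le_length_mul hp).trans ?_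
  unfold Qb
  refine Nat.mul_le_mul_right _ ?_
  rw [h1, List.length_append, List.length_map]
  omega

section

variable {α β γ δ ι : Type} [N487b59b3 α] [N487b59b3 β] [N487b59b3 γ] [N487b59b3 δ] [N487b59b3 ι]

@[fun_prop]
theorem fp_paths {H : α → List (ℕ × ℕ)} {S : α → List ℕ} (hH : FP H) (hS : FP S) :
    FP fun x => paths (H x) (S x) := by
  have h : FP fun q : List (ℕ × ℕ) × List ℕ => paths q.1 q.2 := by
    unfold paths
    refine FP.iterA (f := fun (q : List (ℕ × ℕ) × List ℕ) l => pathStep q.1 l) (by fun_prop)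
      PB_Qb FP.snd (by fun_prop) fun q i hi => ?_
    refine sz_pathsIter q.1 q.2 _ i ?_ hi
    obtain ⟨a, b⟩ := q
    rw [sz_pair]
    show sz a + sz b ≤ _
    omega
  exact h.comp (hH.pair hS)

theorem sz_paths (H : List (ℕ × ℕ)) (S : List ℕ) : sz (paths H S) ≤ Qb (sz H + sz S) :=
  sz_pathsIter H S _ _ le_rfl le_rfl

/-! ## Cycles -/

@[fun_prop]
theorem fp_cycStep {G : α → List (ℕ × ℕ)} {S : α → List ℕ}
    {s : α → List (ℕ × ℕ) × List (List ℕ)} (hG : FP G) (hS : FP S) (hs : FP s) :
    FP fun x => cycStep (G x) (S x) (s x) := by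
  unfold cycStep; fun_prop

/-- invariant of the cycle search -/
def CInv (G : List (ℕ × ℕ)) (S : List ℕ) (i : ℕ) (s : List (ℕ × ℕ) × List (List ℕ)) : Prop :=
  ((∀ e ∈ s.1, e ∈ G) ∧ s.1.length ≤ i) ∧ (s.2.length ≤ i ∧
    (i ≤ G.length → ∀ p ∈ s.2, sz p ≤ Qb (G.length * (2 * sz G + 1) + sz S)))

theorem CInv.step {G : List (ℕ × ℕ)} {S : List ℕ} {i : ℕ} {s : List (ℕ × ℕ) × List (List ℕ)}
    (h : CInv G S i s) : CInv G S (i + 1) (cycStep G S s) := by
  obtain ⟨⟨h1, h2⟩, h3, h4⟩ := h
  unfold cycStep
  dsimp only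
  split
  · refine ⟨⟨?_, ?_⟩, ?_, ?_⟩
    · intro e he
      rcases List.mem_append.1 he with he | he
      · exact h1 e he
      · exact (List.mem_filter.1 (List.mem_of_mem_take he)).1
    · rw [List.length_append, List.length_take]
      omega
    · show s.2.length ≤ _
      omega
    · intro hi p hp
      exact h4 (by omega) p hp
  · rename_i hc
    set c := (paths s.1 S).filter fun p => decide (ends p ∈ G.filter fun e => !decide (e ∈ s.1))
      with hcdef
    have hc1 : c.headD [] ∈ c := headD_mem hc []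
    rw [hcdef, List.mem_filter, decide_eq_true_eq, List.mem_filter] at hc1
    obtain ⟨h5, h6, h7⟩ := hc1
    rw [← hcdef] at h5 h6 h7
    refine ⟨⟨?_, ?_⟩, ?_, ?_⟩
    · intro e he
      rcases List.mem_append.1 he with he | he
      · exact h1 e he
      · rw [List.mem_singleton] at he
        rw [he]
        exact h6
    · rw [List.length_append]
      simp only [List.length_cons, List.length_nil]
      omega
    · rw [List.length_append]
      simp only [List.length_cons, List.length_nil]
      omega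
    · intro hi p hp
      rcases List.mem_append.1 hp with hp | hp
      · exact h4 (by omega) p hp
      · rw [List.mem_singleton] at hp
        rw [hp]
        refine (sz_mem_le h5).trans ((sz_paths _ _).trans (Qb_mono ?_))
        have h8 : sz s.1 ≤ s.1.length * (2 * sz G + 1) :=
          sz_le_length_mul fun e he => sz_mem_le (h1 e he)
        have h9 : s.1.length * (2 * sz G + 1) ≤ G.length * (2 * sz G + 1) :=
          Nat.mul_le_mul_right _ (by omega)
        omega

theorem CInv_iter (G : List (ℕ × ℕ)) (S : List ℕ) (i : ℕ) :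
    CInv G S i ((cycStep G S)^[i] ([], [])) := by
  refine iterate_ind (P := fun i s => CInv G S i s) ?_ (fun i s hs => hs.step) i
  exact ⟨⟨by simp, by simp⟩, by simp, by simp⟩

@[fun_prop]
theorem fp_cycs {t : α → Tab} (ht : FP t) : FP fun x => cycs (t x) := by
  have hQ := PB_Qb
  have h : FP fun t : Tab => (cycStep t.2.1 (gr t))^[t.2.1.length] ([], []) := by
    refine FP.iterA (f := fun (t : Tab) s => cycStep t.2.1 (gr t) s) (by fun_prop)
      (B := fun n => 2 * (n * (2 * n + 1)) + 1 + n * (2 * (Qb (n * (2 * n + 1) + n)) + 1))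
      (by fun_prop) (by fun_prop) (FP.const ([], [])) fun t i hi => ?_
    obtain ⟨⟨h1, h2⟩, h3, h4⟩ := CInv_iter t.2.1 (gr t) i
    show sz ((cycStep t.2.1 (gr t))^[i] ([], [])) ≤ _
    set s := (cycStep t.2.1 (gr t))^[i] ([], []) with hs
    have h5 : sz s = 2 * sz s.1 + 1 + sz s.2 := sz_pair s.1 s.2
    have hG : sz t.2.1 ≤ sz t := by
      obtain ⟨⟨a, a'⟩, b, c⟩ := t
      simp only [sz_pair]
      omega
    have hS := sz_gr t
    have hGl := length_le_sz t.2.1
    have h6 : sz s.1 ≤ sz t * (2 * sz t + 1) := by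
      have h7 : sz s.1 ≤ s.1.length * (2 * sz t.2.1 + 1) :=
        sz_le_length_mul fun e he => sz_mem_le (h1 e he)
      exact h7.trans (Nat.mul_le_mul (by omega) (by omega))
    have h7 : sz s.2 ≤ sz t * (2 * (Qb (sz t * (2 * sz t + 1) + sz t)) + 1) := by
      have h8 : sz s.2 ≤ s.2.length *
          (2 * Qb (t.2.1.length * (2 * sz t.2.1 + 1) + sz (gr t)) + 1) :=
        sz_le_length_mul fun e he => h4 hi e he
      refine h8.trans (Nat.mul_le_mul (by omega) ?_)
      have h9 : Qb (t.2.1.length * (2 * sz t.2.1 + 1) + sz (gr t)) ≤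
          Qb (sz t * (2 * sz t + 1) + sz t) := by
        refine Qb_mono (Nat.add_le_add (Nat.mul_le_mul (by omega) (by omega)) hS)
      omega
    rw [h5]
    omega
  exact (h.comp ht).snd'

/-- is a minor nonbinary -/
theorem up_nonbin {E T : Oracle → α → List ℕ} {t : Oracle → α → Tab} (hE : UP E) (hT : UP T)
    (ht : UP t) : UP fun X x => nonbin X (E X x) (T X x) (t X x) := by
  have h : UP fun X (q : List ℕ × (List ℕ × Tab)) => nonbin X q.1 q.2.1 q.2.2 :=
    UP.anyA (h := fun X (q : List ℕ × (List ℕ × Tab)) (P : List ℕ) =>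
      X (word q.1 (dif q.2.1 P ++ dif P q.2.1))) (UP.ask' (UP.of_FP (by fun_prop)))
      (UP.of_FP (by fun_prop))
  exact h.comp (hE.pair (hT.pair ht))

end

end Pool.Agent.G4
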