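import Pool.Agent.G4.UPBuild

set_option autoImplicit false

/-!
# The reconstruction of a piece is polynomial
-/

namespace Pool.Agent.G4

open Turing Function N487b59b3 N68a2faeb Pool.Agent.Helper22 Pool.Agent.Helper49.Cons
open Pool.Agent.Helper6.WB

/-- the reconstruction -/
theorem up_fold : UP fun X (w : (List ℕ × List ℕ) ×
    (List (Bool × (ℕ × List (ℕ × ℕ))) × (List ℕ × List ℕ))) =>
    w.2.1.foldl (G4.buildStep X w.1) (baseSt w.2.2.1 w.2.2.2) := by
  refine UP.foldA (g := fun X (w : (List ℕ × List ℕ) ×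
    (List (Bool × (ℕ × List (ℕ × ℕ))) × (List ℕ × List ℕ))) s r => G4.buildStep X w.1 s r)
    (l := fun _ w => w.2.1) (x := fun _ w => baseSt w.2.2.1 w.2.2.2)
    (up_buildStep.pre (f := fun v : ((List ℕ × List ℕ) ×
      (List (Bool × (ℕ × List (ℕ × ℕ))) × (List ℕ × List ℕ))) ×
      (St × (Bool × (ℕ × List (ℕ × ℕ)))) => (v.1.1, v.2)) (by fun_prop))
    (B := fun n => Sb n (2 * n + n * (n + 1)))
    (PB_Sb (by fun_prop) (by fun_prop)) (UP.of_FP (by fun_prop)) (UP.of_FP (by fun_prop))
    fun X w i hi => ?_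
  obtain ⟨ET, R, T, S⟩ := w
  set n := sz (ET, R, T, S) with hn
  have hRS : sz R ≤ n ∧ sz S ≤ n := by
    rw [hn]
    simp only [sz_pair]
    omega
  have hR : ∀ r ∈ R, SR n n r := by
    rintro ⟨d, y, ps⟩ hr
    have h1 := (sz_mem_le hr).trans hRS.1
    simp only [sz_pair, sz_bool] at h1
    refine ⟨?_, ?_, ?_⟩
    · show sz y ≤ n
      omega
    · have := length_le_sz ps
      show ps.length ≤ n
      omega
    · rintro ⟨a, b⟩ hp
      have h2 : sz (a, b) ≤ sz ps := sz_mem_le hp
      rw [sz_pair] at h2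
      show sz a ≤ n ∧ sz b ≤ n
      omega
  have hS : Sm n S := fun e he => (sz_mem_le he).trans hRS.2
  have key := foldl_take_ind (P := fun i s => SInv n (2 * S.length + i * (n + 1)) s)
    (g := G4.buildStep X ET) (l := R) (x := baseSt T S) (by simpa using SInv_baseSt hS) (by
      intro i s r hr hs
      have h1 := hs.buildStep X ET (hR r hr)
      have h2 : 2 * S.length + i * (n + 1) + (n + 1) = 2 * S.length + (i + 1) * (n + 1) := by ring
      rw [h2] at h1
      exact h1) i hi
  refine key.sz.trans (Sb_mono le_rfl ?_)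
  have h1 := length_le_sz S
  have h2 := length_le_sz R
  have h3 : i * (n + 1) ≤ n * (n + 1) := Nat.mul_le_mul_right _ (by
    have : i ≤ R.length := hi
    omega)
  omega

end Pool.Agent.G4
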