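import Pool.Agent.G4.UPAuto
import Pool.Agent.G4.Alg

set_option autoImplicit false

/-!
# The linear algebra of the algorithm is polynomial
-/

namespace Pool.Agent.G4

open Turing Function N487b59b3 N68a2faeb Pool.Agent.Helper22 Pool.Agent.Helper49.Cons
open Pool.Agent.Helper6.WB

section

variable {α β γ δ ι : Type} [N487b59b3 α] [N487b59b3 β] [N487b59b3 γ] [N487b59b3 δ] [N487b59b3 ι]

/-! ## The field -/

@[fun_prop]
theorem fp_add {f g : α → F4} (hf : FP f) (hg : FP g) : FP fun x => f x + g x := by
  have h : FP fun p : (Bool × Bool) × (Bool × Bool) =>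
      ((xor p.1.1 p.2.1, xor p.1.2 p.2.2) : Bool × Bool) := by fun_prop
  exact h.comp (hf.pair hg)

@[fun_prop]
theorem fp_mul {f g : α → F4} (hf : FP f) (hg : FP g) : FP fun x => f x * g x := by
  have h : FP fun p : (Bool × Bool) × (Bool × Bool) =>
      ((xor (p.1.1 && p.2.1) (p.1.2 && p.2.2),
        xor (xor (p.1.1 && p.2.2) (p.1.2 && p.2.1)) (p.1.2 && p.2.2)) : Bool × Bool) := by fun_prop
  exact h.comp (hf.pair hg)

@[fun_prop]
theorem fp_conj {f : α → F4} (hf : FP f) : FP fun x => F4.conj (f x) := by
  have h : FP fun p : Bool × Bool => ((xor p.1 p.2, p.2) : Bool × Bool) := by fun_prop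
  exact h.comp hf

@[fun_prop]
theorem fp_inv {f : α → F4} (hf : FP f) : FP fun x => (f x)⁻¹ := fp_conj hf

theorem sz_F4 (a : F4) : sz a = 4 := by
  have h : ∀ b : Bool × Bool, sz b = 4 := by rintro ⟨b, c⟩; simp
  exact h a

theorem sz_F4s (l : List F4) : sz l = 9 * l.length := by
  induction l with
  | nil => rfl
  | cons a l ih => rw [sz_cons, sz_F4, ih, List.length_cons]; omega

theorem sz_vec (p : List F4 × F4) : sz p = 18 * p.1.length + 5 := by
  obtain ⟨l, a⟩ := p
  rw [sz_pair, sz_F4s, sz_F4]
  ring

/-! ## Vectors -/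

@[fun_prop]
theorem fp_dot {u v : α → List F4} (hu : FP u) (hv : FP v) : FP fun x => dot (u x) (v x) := by
  have h1 : FP fun x => List.zipWith (fun a b => a * b) (u x) (v x) := by fun_prop
  refine FP.foldA (g := fun (_ : α) (s a : F4) => s + a) (by fun_prop) (B := fun _ => 4)
    (by fun_prop) h1 (FP.const 0) fun a i _ => (sz_F4 _).le

@[fun_prop]
theorem fp_axpy {c : α → F4} {u v : α → List F4} (hc : FP c) (hu : FP u) (hv : FP v) :
    FP fun x => axpy (c x) (u x) (v x) := by
  unfold axpy; fun_prop

@[fun_prop]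
theorem fp_lead {u v : α → List F4} (hu : FP u) (hv : FP v) : FP fun x => lead (u x) (v x) := by
  unfold lead; fun_prop

@[fun_prop]
theorem fp_red {p q : α → List F4 × F4} (hp : FP p) (hq : FP q) :
    FP fun x => red (p x) (q x) := by
  unfold red; fun_prop

theorem red_len (p q : List F4 × F4) : (red p q).1.length ≤ p.1.length := by
  simp only [red, axpy, List.length_zipWith]
  exact min_le_right _ _

theorem foldl_red_len (E : List (List F4 × F4)) (p : List F4 × F4) :
    (E.foldl red p).1.length ≤ p.1.length := by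
  induction E generalizing p with
  | nil => exact le_rfl
  | cons q E ih => exact (ih _).trans (red_len _ _)

@[fun_prop]
theorem fp_reduce {E : α → List (List F4 × F4)} {p : α → List F4 × F4} (hE : FP E) (hp : FP p) :
    FP fun x => reduce (E x) (p x) := by
  have h1 : FP fun q : (List (List F4 × F4)) × (List F4 × F4) => reduce q.1 q.2 := by
    refine FP.foldA (g := fun (_ : (List (List F4 × F4)) × (List F4 × F4)) s q => red s q)
      (by fun_prop) (B := fun n => n) (by fun_prop) FP.fst FP.snd fun a i _ => ?_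
    have h1 := foldl_red_len (a.1.take i) a.2
    have h2 : sz a.2 ≤ sz a := by
      obtain ⟨a, b⟩ := a
      rw [sz_pair a b]; show sz b ≤ _; omega
    rw [sz_vec] at h2
    show sz ((a.1.take i).foldl red a.2) ≤ sz a
    rw [sz_vec]
    omega
  exact h1.comp (hE.pair hp)

@[fun_prop]
theorem fp_nrm {p : α → List F4 × F4} (hp : FP p) : FP fun x => nrm (p x) := by
  unfold nrm; fun_prop

theorem sz_nrm (p : List F4 × F4) : sz (nrm p) = sz p := by
  rw [sz_vec, sz_vec]
  simp [nrm]

theorem sz_reduce (E : List (List F4 × F4)) (p : List F4 × F4) : sz (reduce E p) ≤ sz p := by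
  have h1 := foldl_red_len E p
  rw [sz_vec, sz_vec]
  have h2 : (reduce E p).1.length ≤ p.1.length := h1
  omega

@[fun_prop]
theorem fp_addE {E : α → List (List F4 × F4)} {p : α → List F4 × F4} (hE : FP E) (hp : FP p) :
    FP fun x => addE (E x) (p x) := by
  unfold addE; fun_prop

theorem sz_addE (E : List (List F4 × F4)) (p : List F4 × F4) :
    sz (addE E p) ≤ sz E + (2 * sz p + 1) := by
  unfold addE
  split
  · omega
  · rw [sz_append, sz_cons, sz_nil, sz_nrm]
    have := sz_reduce E p
    omega

@[fun_prop]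
theorem fp_units [DecidableEq ι] [Inhabited ι] {I : α → List ι} (hI : FP I) :
    FP fun x => units (I x) := by
  unfold units; fun_prop

@[fun_prop]
theorem fp_foldAddE {l : α → List (List F4 × F4)} (hl : FP l) :
    FP fun x => (l x).foldl addE [] := by
  have h1 : FP fun l : List (List F4 × F4) => l.foldl addE [] := by
    refine FP.foldA (g := fun (_ : List (List F4 × F4)) s q => addE s q) (by fun_prop)
      (B := fun n => n * (2 * n + 1)) (by fun_prop) FP.id (FP.const []) fun a i hi => ?_
    have h2 := foldl_take_ind (P := fun i s => sz s ≤ i * (2 * sz a + 1)) (g := addE) (l := a)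
      (x := []) (by simp) (by
        intro i s b hb hs
        have h3 := sz_addE s b
        have h4 := sz_mem_le hb
        have h5 : (i + 1) * (2 * sz a + 1) = i * (2 * sz a + 1) + (2 * sz a + 1) := by ring
        omega) i hi
    refine h2.trans (Nat.mul_le_mul_right _ (hi.trans (length_le_sz a)))
  exact h1.comp hl

@[fun_prop]
theorem fp_solve [DecidableEq ι] [Inhabited ι] {I : α → List ι} {l : α → List (List F4 × F4)}
    (hI : FP I) (hl : FP l) : FP fun x => solve (I x) (l x) := by
  unfold solve; fun_prop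

@[fun_prop]
theorem fp_pruneStep {s : α → List (List F4 × F4) × List ι} {p : α → ι × List F4} (hs : FP s)
    (hp : FP p) : FP fun x => pruneStep (s x) (p x) := by
  unfold pruneStep; fun_prop

theorem sz_pruneStep (s : List (List F4 × F4) × List ι) (p : ι × List F4) :
    sz (pruneStep s p) ≤ sz s + (12 * sz p + 100) := by
  obtain ⟨s, t⟩ := s
  obtain ⟨a, l⟩ := p
  unfold pruneStep
  split
  · omega
  · have := sz_reduce s (l, 0)
    simp only [sz_append, sz_cons, sz_nil, sz_nrm, sz_pair, sz_F4] at this ⊢
    omega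

@[fun_prop]
theorem fp_prune [Inhabited ι] {l : α → List (ι × List F4)} (hl : FP l) :
    FP fun x => prune (l x) := by
  have h1 : FP fun l : List (ι × List F4) => l.foldl pruneStep ([], []) := by
    refine FP.foldA (g := fun (_ : List (ι × List F4)) s q => pruneStep s q) (by fun_prop)
      (B := fun n => 1 + n * (12 * n + 100)) (by fun_prop) FP.id (FP.const ([], []))
      fun a i hi => ?_
    have h2 := foldl_take_ind (P := fun i s => sz s ≤ 1 + i * (12 * sz a + 100))
      (g := pruneStep) (l := a) (x := ([], [])) (by simp) (by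
        intro i s b hb hs
        have h3 := sz_pruneStep s b
        have h4 := sz_mem_le hb
        have h5 : (i + 1) * (12 * sz a + 100) = i * (12 * sz a + 100) + (12 * sz a + 100) := by ring
        omega) i hi
    have h3 := Nat.mul_le_mul_right (12 * sz a + 100) (hi.trans (length_le_sz a))
    exact h2.trans (by omega)
  exact (h1.comp hl).snd'

theorem prune_sublist {ι : Type} (l : List (ι × List F4)) :
    (prune l).Sublist (l.map fun p => p.1) := by
  have key : ∀ (l : List (ι × List F4)) (s : List (List F4 × F4) × List ι),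
      ∃ m : List ι, m.Sublist (l.map fun p => p.1) ∧ (l.foldl pruneStep s).2 = s.2 ++ m := by
    intro l
    induction l with
    | nil => intro s; exact ⟨[], List.Sublist.slnil, by simp⟩
    | cons p l ih =>
      intro s
      rw [List.foldl_cons]
      obtain ⟨m, h1, h2⟩ := ih (pruneStep s p)
      rw [h2]
      unfold pruneStep
      split
      · exact ⟨m, h1.cons _, rfl⟩
      · exact ⟨p.1 :: m, h1.cons_cons _, by simp⟩
  obtain ⟨m, h1, h2⟩ := key l ([], [])
  rw [prune, h2, List.nil_append]
  exact h1

/-! ## Matrices -/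

@[fun_prop]
theorem fp_ent {D : α → Mx} {b n : α → ℕ} (hD : FP D) (hb : FP b) (hn : FP n) :
    FP fun x => ent (D x) (b x) (n x) := by
  unfold ent; fun_prop

@[fun_prop]
theorem fp_look {v : α → List (ℕ × F4)} {i : α → ℕ} (hv : FP v) (hi : FP i) :
    FP fun x => look (v x) (i x) := by
  unfold look; fun_prop

@[fun_prop]
theorem fp_mk {R C : α → List ℕ} {g : α → ℕ → ℕ → F4} (hR : FP R) (hC : FP C)
    (hg : FP fun p : (α × ℕ) × ℕ => g p.1.1 p.1.2 p.2) :
    FP fun x => mk (R x) (C x) fun b n => g x b n := by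
  unfold mk
  beta_reduce
  refine FP.flatMapA (h := fun x b => (C x).map fun n => ((b, n), g x b n)) ?_ hR
  refine FP.mapA (h := fun (p : α × ℕ) n => ((p.2, n), g p.1 p.2 n)) ?_ (by fun_prop)
  exact FP.pair (by fun_prop) hg

@[fun_prop]
theorem fp_trM {D : α → Mx} (hD : FP D) : FP fun x => trM (D x) := by
  unfold trM; fun_prop

@[fun_prop]
theorem fp_cvb {D : α → Mx} {B : α → List ℕ} {e b : α → ℕ} (hD : FP D) (hB : FP B) (he : FP e)
    (hb : FP b) : FP fun x => cvb (D x) (B x) (e x) (b x) := by
  unfold cvb; fun_prop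

@[fun_prop]
theorem fp_cv {D : α → Mx} {B : α → List ℕ} {e : α → ℕ} (hD : FP D) (hB : FP B) (he : FP e) :
    FP fun x => cv (D x) (B x) (e x) := by
  unfold cv; fun_prop

@[fun_prop]
theorem fp_fv {D : α → Mx} {B T : α → List ℕ} {z : α → ℕ} (hD : FP D) (hB : FP B) (hT : FP T)
    (hz : FP z) : FP fun x => fv (D x) (B x) (T x) (z x) := by
  unfold fv; fun_prop

@[fun_prop]
theorem fp_val {D : α → Mx} {B : α → List ℕ} {f : α → List F4} {e : α → ℕ} (hD : FP D)
    (hB : FP B) (hf : FP f) (he : FP e) : FP fun x => val (D x) (B x) (f x) (e x) := by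
  unfold val; fun_prop

@[fun_prop]
theorem fp_dif {S T : α → List ℕ} (hS : FP S) (hT : FP T) : FP fun x => dif (S x) (T x) := by
  unfold dif; fun_prop

@[fun_prop]
theorem fp_nor {S T : α → List ℕ} (hS : FP S) (hT : FP T) : FP fun x => nor (S x) (T x) := by
  unfold nor; fun_prop

@[fun_prop]
theorem fp_phiH {f : α → List F4} (hf : FP f) : FP fun x => phiH (f x) := by
  unfold phiH; fun_prop

@[fun_prop]
theorem fp_phiP {D : α → Mx} {B N T : α → List ℕ} {z y : α → ℕ} (hD : FP D) (hB : FP B)
    (hN : FP N) (hT : FP T) (hz : FP z) (hy : FP y) :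
    FP fun x => phiP (D x) (B x) (N x) (T x) (z x) (y x) := by
  unfold phiP; fun_prop

end

end Pool.Agent.G4
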