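import Pool.Agent.G4.UPFold

set_option autoImplicit false

/-!
# The reconstruction of a piece is polynomial
-/

namespace Pool.Agent.G4

open Turing Function N487b59b3 N68a2faeb Pool.Agent.Helper22 Pool.Agent.Helper49.Cons
open Pool.Agent.Helper6.WB

/-- input of a piece -/
abbrev PIn : Type := List ℕ × (List ℕ × List ℕ)

theorem up_piece1 : UP fun X (q : PIn) => table X q.1 q.2.1 q.2.2 :=
  up_table (UP.of_FP (by fun_prop)) (UP.of_FP (by fun_prop)) (UP.of_FP (by fun_prop))

/-- the condition -/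
def pcCond (X : Oracle) (r : PIn × Tab) : Bool :=
  decide (r.1.2.2.length ≤ 3) || !nonbin X r.1.1 r.1.2.1 r.2

theorem up_pcCond : UP pcCond :=
  UP.or (UP.of_FP (by fun_prop)) (UP.not (up_nonbin (UP.of_FP (by fun_prop))
    (UP.of_FP (by fun_prop)) (UP.of_FP (by fun_prop))))

/-- the binary matrix -/
def pcBin (r : PIn × Tab) : Mx :=
  mk (nor r.1.2.2 r.1.2.1) (dif r.1.2.2 r.1.2.1) fun b n => if (b, n) ∈ r.2.2.1 then (1 : F4) else 0

theorem fp_pcBin : FP pcBin := by unfold pcBin; fun_prop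

theorem up_pcChain : UP fun X (q : PIn) => chain X q.1 q.2.1 q.2.2 := up_chain

/-- the state -/
def pcState (X : Oracle) (v : PIn × Ch) : St :=
  v.2.2.2.foldl (G4.buildStep X (v.1.1, v.2.1)) (baseSt v.2.1 v.2.2.1)

theorem up_pcState : UP pcState :=
  up_fold.pre (f := fun v : PIn × Ch => ((v.1.1, v.2.1), (v.2.2.2, (v.2.1, v.2.2.1))))
    (by fun_prop)

/-- the nonbinary matrix -/
def pcNon (X : Oracle) (q : PIn) : Mx := toBase q.2.1 q.2.2 (pcState X (q, chain X q.1 q.2.1 q.2.2))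

theorem up_pcNon : UP pcNon := by
  have h1 : UP fun X (q : PIn) => pcState X (q, chain X q.1 q.2.1 q.2.2) :=
    up_pcState.comp (UP.pair UP.id up_pcChain)
  have h2 : FP fun v : PIn × St => toBase v.1.2.1 v.1.2.2 v.2 := by fun_prop
  have h3 := UP.fp (g := fun v : PIn × St => toBase v.1.2.1 v.1.2.2 v.2) h2 (UP.pair UP.id h1)
  exact h3.congr fun X q => rfl

theorem piece_eq (X : Oracle) (q : PIn) : piece X q.1 q.2.1 q.2.2 =
    if pcCond X (q, table X q.1 q.2.1 q.2.2) then pcBin (q, table X q.1 q.2.1 q.2.2)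
    else pcNon X q := rfl

/-- a piece -/
theorem up_piece : UP fun X (q : PIn) => piece X q.1 q.2.1 q.2.2 := by
  have h1 : UP fun X (q : PIn) => pcCond X (q, table X q.1 q.2.1 q.2.2) :=
    up_pcCond.comp (UP.pair UP.id up_piece1)
  have h2 : UP fun X (q : PIn) => pcBin (q, table X q.1 q.2.1 q.2.2) :=
    UP.fp fp_pcBin (UP.pair UP.id up_piece1)
  exact (UP.ite h1 h2 up_pcNon).congr piece_eq

end Pool.Agent.G4
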