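import Pool.Agent.G4.UPLin

set_option autoImplicit false

/-!
# One step of the reconstruction is polynomial
-/

namespace Pool.Agent.G4

open Turing Function N487b59b3 N68a2faeb Pool.Agent.Helper22 Pool.Agent.Helper49.Cons
open Pool.Agent.Helper6.WB

instance : Inhabited St := ⟨((([], []), ([], ([], ([], [])))) : St)⟩

section

variable {α β γ δ ι : Type} [N487b59b3 α] [N487b59b3 β] [N487b59b3 γ] [N487b59b3 δ] [N487b59b3 ι]

@[fun_prop]
theorem fp_dualSt {s : α → St} (hs : FP s) : FP fun x => dualSt (s x) := by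
  unfold dualSt; fun_prop

@[fun_prop]
theorem fp_smallU {ps : α → List (ℕ × ℕ)} (hp : FP ps) : FP fun x => smallU (ps x) := by
  unfold smallU; fun_prop

@[fun_prop]
theorem fp_hyp {ps : α → List (ℕ × ℕ)} {T : α → List ℕ} {z : α → ℕ} {U : α → List (ℕ × ℕ)}
    (hp : FP ps) (hT : FP T) (hz : FP z) (hU : FP U) :
    FP fun x => hyp (ps x) (T x) (z x) (U x) := by
  unfold hyp; fun_prop

@[fun_prop]
theorem fp_descs {s : α → St} {ps : α → List (ℕ × ℕ)} (hs : FP s) (hp : FP ps) :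
    FP fun x => descs (s x) (ps x) := by
  unfold descs; fun_prop

@[fun_prop]
theorem fp_descSet {ps : α → List (ℕ × ℕ)} {y : α → ℕ} {q : α → Desc} (hp : FP ps) (hy : FP y)
    (hq : FP q) : FP fun x => descSet (ps x) (y x) (q x) := by
  unfold descSet; fun_prop

@[fun_prop]
theorem fp_idx2 {B : α → List ℕ} (hB : FP B) : FP fun x => idx2 (B x) := by
  unfold idx2; fun_prop

@[fun_prop]
theorem fp_vecV {B : α → List ℕ} {ans : α → List (Desc × Bool)} (hB : FP B) (ha : FP ans) :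
    FP fun x => vecV (B x) (ans x) := by
  unfold vecV; fun_prop

@[fun_prop]
theorem fp_candVal {D : α → Mx} {B : α → List ℕ} {v : α → List F4} {s : α → List (ℕ × F4)}
    {q : α → Desc} (hD : FP D) (hB : FP B) (hv : FP v) (hs : FP s) (hq : FP q) :
    FP fun x => candVal (D x) (B x) (v x) (s x) (q x) := by
  have h1 : FP fun l : List F4 => l.foldl (fun x y => x + y) 0 :=
    FP.foldA (g := fun (_ : List F4) (s a : F4) => s + a) (by fun_prop) (B := fun _ => 4)
      (by fun_prop) FP.id (FP.const 0) fun a i _ => (sz_F4 _).le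
  have h2 : FP fun x => (((q x).2.2.map fun p => val (D x) (B x) (q x).2.1 p.1 *
      look (s x) p.2).foldl (fun x y => x + y) 0) := h1.comp (by fun_prop)
  unfold candVal; fun_prop

@[fun_prop]
theorem fp_good {D : α → Mx} {B : α → List ℕ} {v : α → List F4} {s : α → List (ℕ × F4)}
    {a : α → Desc × Bool} (hD : FP D) (hB : FP B) (hv : FP v) (hs : FP s) (ha : FP a) :
    FP fun x => good (D x) (B x) (v x) (s x) (a x) := by
  unfold good; fun_prop

@[fun_prop]
theorem fp_coordS {D : α → Mx} {B : α → List ℕ} {v : α → List F4} {ans : α → List (Desc × Bool)}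
    {p₁ p : α → ℕ × ℕ} (hD : FP D) (hB : FP B) (hv : FP v) (ha : FP ans) (hp₁ : FP p₁)
    (hp : FP p) : FP fun x => coordS (D x) (B x) (v x) (ans x) (p₁ x) (p x) := by
  unfold coordS; fun_prop

@[fun_prop]
theorem fp_cands {D : α → Mx} {B : α → List ℕ} {ps : α → List (ℕ × ℕ)}
    {ans : α → List (Desc × Bool)} (hD : FP D) (hB : FP B) (hp : FP ps) (ha : FP ans) :
    FP fun x => cands (D x) (B x) (ps x) (ans x) := by
  unfold cands; fun_prop

@[fun_prop]
theorem fp_column {D : α → Mx} {B : α → List ℕ} {ps : α → List (ℕ × ℕ)}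
    {ans : α → List (Desc × Bool)} (hD : FP D) (hB : FP B) (hp : FP ps) (ha : FP ans) :
    FP fun x => column (D x) (B x) (ps x) (ans x) := by
  unfold column; fun_prop

@[fun_prop]
theorem fp_partner {ps : α → List (ℕ × ℕ)} {b : α → ℕ} (hp : FP ps) (hb : FP b) :
    FP fun x => partner (ps x) (b x) := by
  unfold partner; fun_prop

@[fun_prop]
theorem fp_newD {s : α → St} {ps : α → List (ℕ × ℕ)} {y : α → ℕ}
    {c : α → List F4 × List (ℕ × F4)} (hs : FP s) (hp : FP ps) (hy : FP y) (hc : FP c) :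
    FP fun x => newD (s x) (ps x) (y x) (c x) := by
  unfold newD; fun_prop

@[fun_prop]
theorem fp_newL1 {S : α → List ℕ} {ps : α → List (ℕ × ℕ)} {ans : α → List (Desc × Bool)}
    (hS : FP S) (hp : FP ps) (ha : FP ans) : FP fun x => newL1 (S x) (ps x) (ans x) := by
  unfold newL1; fun_prop

@[fun_prop]
theorem fp_newL2 {S : α → List ℕ} {s : α → St} {ps : α → List (ℕ × ℕ)} (hS : FP S) (hs : FP s)
    (hp : FP ps) : FP fun x => newL2 (S x) (s x) (ps x) := by
  unfold newL2; fun_prop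

@[fun_prop]
theorem fp_newL3 {S : α → List ℕ} {ps : α → List (ℕ × ℕ)} {y : α → ℕ}
    {ans : α → List (Desc × Bool)} (hS : FP S) (hp : FP ps) (hy : FP y) (ha : FP ans) :
    FP fun x => newL3 (S x) (ps x) (y x) (ans x) := by
  unfold newL3; fun_prop

@[fun_prop]
theorem fp_newP1 {S : α → List ℕ} {s : α → St} {ps : α → List (ℕ × ℕ)} (hS : FP S) (hs : FP s)
    (hp : FP ps) : FP fun x => newP1 (S x) (s x) (ps x) := by
  unfold newP1; fun_prop

@[fun_prop]
theorem fp_newP2 {S : α → List ℕ} {s : α → St} {ps : α → List (ℕ × ℕ)} (hS : FP S) (hs : FP s)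
    (hp : FP ps) : FP fun x => newP2 (S x) (s x) (ps x) := by
  unfold newP2; fun_prop

@[fun_prop]
theorem fp_newP3 {D : α → Mx} {B : α → List ℕ} {y : α → ℕ} {l : α → Lst} (hD : FP D) (hB : FP B)
    (hy : FP y) (hl : FP l) : FP fun x => newP3 (D x) (B x) (y x) (l x) := by
  unfold newP3; fun_prop

@[fun_prop]
theorem fp_newC1 {S : α → List ℕ} {s : α → St} {ps : α → List (ℕ × ℕ)} (hS : FP S) (hs : FP s)
    (hp : FP ps) : FP fun x => newC1 (S x) (s x) (ps x) := by
  unfold newC1; fun_prop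

@[fun_prop]
theorem fp_newC2 {S : α → List ℕ} {y : α → ℕ} {l : α → Lst2} (hS : FP S) (hy : FP y)
    (hl : FP l) : FP fun x => newC2 (S x) (y x) (l x) := by
  unfold newC2; fun_prop

@[fun_prop]
theorem fp_pruneSt {B N : α → List ℕ} {D : α → Mx} {L Lc : α → Lst} {P : α → Lst2} (hB : FP B)
    (hN : FP N) (hD : FP D) (hL : FP L) (hLc : FP Lc) (hP : FP P) :
    FP fun x => pruneSt (B x) (N x) (D x) (L x) (Lc x) (P x) := by
  unfold pruneSt; fun_prop

@[fun_prop]
theorem fp_update {s : α → St} {ps : α → List (ℕ × ℕ)} {y : α → ℕ} {ans : α → List (Desc × Bool)}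
    (hs : FP s) (hp : FP ps) (hy : FP y) (ha : FP ans) :
    FP fun x => update (s x) (ps x) (y x) (ans x) := by
  unfold update; fun_prop

@[fun_prop]
theorem fp_word {E T : α → List ℕ} (hE : FP E) (hT : FP T) : FP fun x => word (E x) (T x) := by
  unfold word; fun_prop

@[fun_prop]
theorem fp_grnd {s : α → St} {ps : α → List (ℕ × ℕ)} {y : α → ℕ} (hs : FP s) (hp : FP ps)
    (hy : FP y) : FP fun x => grnd (s x) (ps x) (y x) := by
  unfold grnd; fun_prop

@[fun_prop]
theorem fp_twos {S : α → List ℕ} (hS : FP S) : FP fun x => twos (S x) := by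
  unfold twos; fun_prop

@[fun_prop]
theorem fp_baseSt {T S : α → List ℕ} (hT : FP T) (hS : FP S) :
    FP fun x => baseSt (T x) (S x) := by
  unfold baseSt; fun_prop

/-- one question -/
theorem up_bs {E T S P : Oracle → α → List ℕ} {d : Oracle → α → Bool} (hE : UP E) (hT : UP T)
    (hS : UP S) (hd : UP d) (hP : UP P) :
    UP fun X x => bs X (E X x) (T X x) (S X x) (d X x) (P X x) := by
  have h1 : FP fun p : (List ℕ × (List ℕ × List ℕ)) × (Bool × List ℕ) =>
      word p.1.1 (dif p.1.2.1 p.1.2.2 ++ if p.2.1 then dif p.1.2.2 p.2.2 else p.2.2) := by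
    fun_prop
  exact UP.ask' (h1.comp FP.id |> fun h => (UP.of_FP h).comp
    ((hE.pair (hT.pair hS)).pair (hd.pair hP)))

/-- one step of the reconstruction -/
theorem up_buildStep : UP fun X (q : (List ℕ × List ℕ) × (St × (Bool × (ℕ × List (ℕ × ℕ))))) =>
    buildStep X q.1 q.2.1 q.2.2 := by
  have h1 : UP fun X (q : ((List ℕ × List ℕ) × (St × (Bool × (ℕ × List (ℕ × ℕ))))) × Desc) =>
      bs X q.1.1.1 q.1.1.2
        (grnd (if q.1.2.2.1 then dualSt q.1.2.1 else q.1.2.1) q.1.2.2.2.2 q.1.2.2.2.1)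
        q.1.2.2.1 (descSet q.1.2.2.2.2 q.1.2.2.2.1 q.2) :=
    up_bs (UP.of_FP (by fun_prop)) (UP.of_FP (by fun_prop)) (UP.of_FP (by fun_prop))
      (UP.of_FP (by fun_prop)) (UP.of_FP (by fun_prop))
  have h2 : UP fun X (q : (List ℕ × List ℕ) × (St × (Bool × (ℕ × List (ℕ × ℕ))))) =>
      (descs (if q.2.2.1 then dualSt q.2.1 else q.2.1) q.2.2.2.2).map fun r => (r,
        bs X q.1.1 q.1.2 (grnd (if q.2.2.1 then dualSt q.2.1 else q.2.1) q.2.2.2.2 q.2.2.2.1)
        q.2.2.1 (descSet q.2.2.2.2 q.2.2.2.1 r)) :=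
    UP.mapA (UP.pair (UP.of_FP (by fun_prop)) h1) (UP.of_FP (by fun_prop))
  have h3 : FP fun r : ((List ℕ × List ℕ) × (St × (Bool × (ℕ × List (ℕ × ℕ))))) ×
      List (Desc × Bool) =>
      if r.1.2.2.1 then dualSt (update (if r.1.2.2.1 then dualSt r.1.2.1 else r.1.2.1)
        r.1.2.2.2.2 r.1.2.2.2.1 r.2)
      else update (if r.1.2.2.1 then dualSt r.1.2.1 else r.1.2.1) r.1.2.2.2.2 r.1.2.2.2.1 r.2 := by
    fun_prop
  exact UP.fp h3 (UP.pair UP.id h2)

end

end Pool.Agent.G4
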